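import Pool.Agent.Mg.F3b5bbfq.G1575f5

set_option linter.all false

section

/-! The four trees with their approach paths from the common port. -/

set_option linter.unusedSimpArgs false

namespace Pool.Agent.MP_3b5bbf_co

def gl (w : V) : V := (-w.2, 2 - w.1)

def gr (w : V) : V := (w.2, w.1)

def Brd (M : ℤ) (v : V) : Prop :=
  -10 * (M + 1) < v.1 ∧ v.1 < 10 * (M + 1) ∧ -10 * (M + 1) - 6 < v.2 ∧ v.2 < 10 * (M + 1) - 6

def TR (X Y o : ℤ) (g : V → V) (α β δ M : ℤ) : Prop :=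
  Tb Any X Y o (fun v => Brd M (g v)) (fun v w => Odd2 v w → SG α β δ (g v) (g w))
    (fun v => Own α β (g v) ∧ Brd M (g v))

theorem root11 {X Y o M : ℤ} (t : TJ X Y o M M 0) (h0 : 0 ≤ M) (h1 : M % 2 = 1) :
    TR (X + 14) (Y + 14) (o + 7) gl 0 (-6) 0 M := by
  refine (((((((Tb.r t ?_).r ?_).r ?_).r ?_).op ?_).r ?_).r ?_).any.mono
    (by ring) (by ring) (by ring) ?_ ?_ ?_
  iterate 7 (simp only [FJ]; omega)
  · intro v; simp only [FJ, Brd, gl]; omega
  · rintro v w - - (a | a | a | a | a | a | a | a) od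
    iterate 7 (simp only [SG, gl] at *; omega)
    unfold Odd2 at *
    dsimp only at a
    replace a := a (by omega)
    exact a.str (Or.inr rfl)
      (rel_neg (by simp only [gl]; omega) (by simp only [gl]; omega) (by dsimp only; omega)
        (by dsimp only; omega))
      (rel_neg (by simp only [gl]; omega) (by simp only [gl]; omega) (by dsimp only; omega)
        (by dsimp only; omega))
  · intro v; simp only [Box, Own, Brd, gl]; omega

theorem root12 {X Y o M : ℤ} (t : TJ X Y o M M 0) (h0 : 0 ≤ M) (h1 : M % 2 = 1) :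
    TR (X + 14) (Y + 14) (o + 7) gl 10 4 1 M := by
  refine (((((((Tb.r t ?_).r ?_).r ?_).cl ?_).op ?_).r ?_).r ?_).any.mono
    (by ring) (by ring) (by ring) ?_ ?_ ?_
  iterate 7 (simp only [FJ]; omega)
  · intro v; simp only [FJ, Brd, gl]; omega
  · rintro v w - - (a | a | a | a | a | a | a | a) od
    iterate 7 (simp only [SG, gl] at *; omega)
    unfold Odd2 at *
    dsimp only at a
    replace a := a (by omega)
    exact a.sw rfl (Or.inl rfl) (rel_pos (by simp only [gl]; omega) (by simp only [gl]; omega))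
      (rel_pos (by simp only [gl]; omega) (by simp only [gl]; omega))
  · intro v; simp only [Box, Own, Brd, gl]; omega

theorem root21 {X Y o M : ℤ} (t : TJ X Y o M M 0) (h0 : 0 ≤ M) (h1 : M % 2 = 1) :
    TR (X + 14) (Y + 14) (o + 7) gr 10 (-6) 0 M := by
  refine (((((((Tb.r t ?_).r ?_).r ?_).r ?_).cl ?_).r ?_).r ?_).any.mono
    (by ring) (by ring) (by ring) ?_ ?_ ?_
  iterate 7 (simp only [FJ]; omega)
  · intro v; simp only [FJ, Brd, gr]; omega
  · rintro v w - - (a | a | a | a | a | a | a | a) od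
    iterate 7 (simp only [SG, gr] at *; omega)
    unfold Odd2 at *
    dsimp only at a
    replace a := a (by omega)
    exact a.str (Or.inr rfl)
      (rel_neg (by simp only [gr]; omega) (by simp only [gr]; omega) (by dsimp only; omega)
        (by dsimp only; omega))
      (rel_neg (by simp only [gr]; omega) (by simp only [gr]; omega) (by dsimp only; omega)
        (by dsimp only; omega))
  · intro v; simp only [Box, Own, Brd, gr]; omega

theorem root22 {X Y o M : ℤ} (t : TJ X Y o M M 0) (h0 : 0 ≤ M) (h1 : M % 2 = 1) :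
    TR (X + 14) (Y + 14) (o + 7) gr 0 4 1 M := by
  refine (((((((Tb.r t ?_).r ?_).r ?_).op ?_).cl ?_).r ?_).r ?_).any.mono
    (by ring) (by ring) (by ring) ?_ ?_ ?_
  iterate 7 (simp only [FJ]; omega)
  · intro v; simp only [FJ, Brd, gr]; omega
  · rintro v w - - (a | a | a | a | a | a | a | a) od
    iterate 7 (simp only [SG, gr] at *; omega)
    unfold Odd2 at *
    dsimp only at a
    replace a := a (by omega)
    exact a.sw rfl (Or.inr rfl)
      (rel_neg (by simp only [gr]; omega) (by simp only [gr]; omega) (by dsimp only; omega)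
        (by dsimp only; omega))
      (rel_neg (by simp only [gr]; omega) (by simp only [gr]; omega) (by dsimp only; omega)
        (by dsimp only; omega))
  · intro v; simp only [Box, Own, Brd, gr]; omega

end Pool.Agent.MP_3b5bbf_co

end

section

/-! Placing the four trees on the board. -/

set_option linter.unusedSimpArgs false

namespace Pool.Agent.MP_3b5bbf_co

structure Plc (R : Cell → Prop) (φ : V → V) (h : Cell → ℚ) (κp : V × V) (α β δ M : ℤ)
    (col : Prop) : Prop where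
  valid : Valid R φ h
  kp : ∀ c, Bd R c → K φ c = κp
  cl : ∀ c b, R c → R (c.nb .g) → Bd R b → K φ (c.nb .g) = K φ c → K φ b = K φ c → h c < h b →
    h b < h (c.nb .g) → False
  foot : ∀ c, R c → Brd M (φ c.o)
  steps : ∀ c, R c → R (c.nb .g) → φ (c.nb .g).o ≠ φ c.o → SG α β δ (φ c.o) (φ (c.nb .g).o)
  top : ∀ κ, IsKey κ → Own α β κ.1 → Brd M κ.1 → ∃ a, R a ∧ K φ a = κ ∧
    (∀ c, R c → K φ c = κ → h c ≤ h a) ∧ (col → White φ a) ∧ (¬ col → Black φ a)

theorem plc_of {R R' : Cell → Prop} {ψ φ g : V → V} {h h' : Cell → ℚ} {κp α β δ M} {col : Prop}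
    (G : Gen R' ψ h' (fun v => Brd M (g v)) (fun v w => Odd2 v w → SG α β δ (g v) (g w))
      (fun v => Own α β (g v) ∧ Brd M (g v)))
    (hR : ∀ c, R c ↔ R' c) (hg : Iso g) (wb : ∀ φ c, White φ c → Black (fun v => g (φ v)) c)
    (bw : ∀ φ c, Black φ c → White (fun v => g (φ v)) c)
    (ag : ∀ c, R' c → Agr φ (fun v => g (ψ v)) c)
    (hk : ∀ c, K ψ c = KP → K (fun v => g (ψ v)) c = κp)
    (hh : (col ∧ ∀ c, R' c → h c = h' c) ∨ (¬ col ∧ ∀ c, R' c → h c = -h' c)) :
    Plc R φ h κp α β δ M col := by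
  obtain rfl : R = R' := funext fun c => propext (hR c)
  have kk : ∀ c b, R c → R b → (K φ c = K φ b ↔ K ψ c = K ψ b) := fun c b h1 h2 => by
    rw [(ag c h1).K, (ag b h2).K, hg.K_iff]
  refine ⟨?_, fun c hc => by rw [(ag c hc.1).K, hk c (G.kp c hc)], ?_,
    fun c hc => by rw [(ag c hc).1]; exact G.foot c hc, ?_, ?_⟩
  · rcases hh with ⟨-, hh⟩ | ⟨-, hh⟩
    · exact G.valid.iso hg ag (fun c b h1 h2 _ => by rw [hh c h1, hh b h2])
    · exact G.valid.neg.iso hg ag (fun c b h1 h2 _ => by rw [hh c h1, hh b h2])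
  · intro c b h1 h2 h3 k1 k2 l1 l2
    rw [kk _ _ h2 h1] at k1
    rw [kk _ _ h3.1 h1] at k2
    have kb := G.kp b h3
    have kc := k2.symm.trans kb
    rcases hh with ⟨-, hh⟩ | ⟨-, hh⟩ <;> rw [hh _ h1, hh _ h3.1] at l1 <;>
      rw [hh _ h2, hh _ h3.1] at l2
    · exact G.closed c .g b h1 h2 h3 (congrArg Prod.snd kc) kc (k1.trans kc) l1 l2
    · exact G.closed.neg c .g b h1 h2 h3 (congrArg Prod.snd kc) kc (k1.trans kc) l1 l2
  · intro c h1 h2 ne
    rw [(ag c h1).1, (ag _ h2).1] at *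
    have g1 := G.valid.good _ h1
    have g2 := G.valid.good _ h2
    exact G.steps c h1 h2 (fun e => ne (by simp only [e])) ⟨g1.1, g1.2.1, g2.1, g2.2.1⟩
  · intro κ hκ o b
    obtain ⟨a, b, ha, hb, ka, kb, ba, wb, ext⟩ := G.cov.map (h' := fun c => -h' c) (φ' := φ) hg
      (fun _ a => a) hκ (fun v e => by rw [e]; exact ⟨o, b⟩) (fun c hc _ => ag c hc)
      (fun c hc e => ⟨hc, (ag c hc).1.symm.trans e⟩)
      (Or.inr ⟨wb ψ, bw ψ, fun c b _ _ _ _ l => neg_le_neg l⟩)
    rcases hh with ⟨t, hh⟩ | ⟨t, hh⟩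
    · refine ⟨b, hb, kb, fun c hc kc => ?_, fun _ => wb, fun n => absurd t n⟩
      rw [hh _ hc, hh _ hb]
      exact neg_le_neg_iff.1 (ext c hc kc).1
    · refine ⟨a, ha, ka, fun c hc kc => ?_, fun n => absurd n t, fun _ => ba⟩
      rw [hh _ hc, hh _ ha]
      exact (ext c hc kc).2

theorem iso_gl : Iso gl where
  add := by intro a b c d; simp only [gl, Prod.ext_iff, Prod.fst_add, Prod.snd_add]; omega
  inj := by intro a b; simp only [gl, Prod.ext_iff]; omega
  good := by intro ψ c; unfold Good White Black gl; dsimp only; omega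
  surj := by
    intro κ hκ
    refine ⟨((2 - κ.1.2, -κ.1.1), (4 - κ.2.2, -κ.2.1)), ?_, ?_, ?_⟩
    · unfold IsKey at *; dsimp only; omega
    · simp [gl]
    · intro a b; simp only [gl, Prod.ext_iff, Prod.fst_add, Prod.snd_add]; omega

theorem gl_wb (φ : V → V) (c : Cell) : White φ c → Black (fun v => gl (φ v)) c := by
  unfold White Black gl; dsimp only; omega

theorem gl_bw (φ : V → V) (c : Cell) : Black φ c → White (fun v => gl (φ v)) c := by
  unfold White Black gl; dsimp only; omega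

theorem gl_kp (ψ : V → V) (c : Cell) (k : K ψ c = KP) :
    K (fun v => gl (ψ v)) c = ((-1, 1), (0, 2)) := by
  simp only [K, KP, gl, Prod.ext_iff, Prod.fst_add, Prod.snd_add] at *; omega

theorem gr_kp (ψ : V → V) (c : Cell) (k : K ψ c = KP) :
    K (fun v => gr (ψ v)) c = ((1, 1), (0, 2)) := by
  simp only [K, KP, gr, Prod.ext_iff, Prod.fst_add, Prod.snd_add] at *; omega

def reg (X Y : ℤ) (c : Cell) : ℤ := (if c.x < X then 0 else 2) + (if c.y < Y then 0 else 1)

def al (i : ℤ) : ℤ := if i = 1 ∨ i = 2 then 10 else 0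
def be (i : ℤ) : ℤ := if i = 1 ∨ i = 3 then 4 else -6
def de (i : ℤ) : ℤ := if i = 1 ∨ i = 3 then 1 else 0
def ks (i : ℤ) : ℤ := if i ≤ 1 then -1 else 1

def pk (X Y : ℤ) : Cell → ℤ × ℤ
  | ⟨x, _, .s⟩ => (2, if x < X then x else -x)
  | ⟨_, y, .e⟩ => (if y < Y then 0 else 3, y)
  | ⟨x, _, .n⟩ => (1, if x < X then -x else x)
  | ⟨_, y, .w⟩ => (if y < Y then 0 else 3, y)

def Cross (X Y : ℤ) (c : Cell) : Prop :=
  Rect 0 (2 * X) 0 (2 * Y) c ∧ Rect 0 (2 * X) 0 (2 * Y) (c.nb .g) ∧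
    reg X Y (c.nb .g) ≠ reg X Y c

theorem place {X Y o M : ℤ} (hY : Y % 2 = 0) (t11 : TR X Y o gl 0 (-6) 0 M)
    (t12 : TR Y X o gl 10 4 1 M) (t21 : TR X Y (o + 1) gr 10 (-6) 0 M)
    (t22 : TR Y X (o + 1) gr 0 4 1 M) :
    ∃ φ h0, (∀ i, 0 ≤ i → i ≤ 3 → Plc (fun c => Rect 0 (2 * X) 0 (2 * Y) c ∧ reg X Y c = i) φ h0
      ((ks i, 1), (0, 2)) (al i) (be i) (de i) M (i ≤ 1)) ∧
      ∀ c b, Cross X Y c → Cross X Y b → reg X Y c = reg X Y b →
        (h0 c < h0 b ↔ klt (pk X Y c) (pk X Y b)) := by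
  obtain ⟨φ1, h1, u1, -⟩ := t11 0 X 0 Y o (by ring) (by ring) (by ring)
  obtain ⟨φ2, h2, u2, -⟩ := t12 Y (2 * Y) 0 X (Y + o) (by ring) (by ring) (by ring)
  obtain ⟨φ3, h3, u3, -⟩ := t21 0 X 0 Y (o + 1) (by ring) (by ring) (by ring)
  obtain ⟨φ4, h4, u4, -⟩ := t22 Y (2 * Y) 0 X (Y + (o + 1)) (by ring) (by ring) (by ring)
  clear t11 t12 t21 t22
  have d1 := u1.d1
  have d2 := u1.d2
  have d3 := u2.d1
  have d4 := u2.d2
  have d5 := u3.d2
  have d6 := u4.d2
  let φ : V → V := fun v =>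
    if v.1 ≤ 2 * X then (if v.2 ≤ 2 * Y then gl (φ1 v) else gl (φ2 (v.2, v.1)))
    else (if v.2 ≤ 2 * Y then gr (φ3 (2 * (2 * X) - v.1, v.2)) else gr (φ4 (v.2, 2 * (2 * X) - v.1)))
  let h : Cell → ℚ := fun c =>
    if c.x < X then (if c.y < Y then h1 c else -h2 (tcell c))
    else (if c.y < Y then h3 (mcell (2 * X) c) else -h4 (tcell (mcell (2 * X) c)))
  have r1 : ∀ c, (Rect 0 (2 * X) 0 (2 * Y) c ∧ reg X Y c = 0) ↔ Rect 0 X 0 Y c := by
    intro c; unfold Rect reg; omega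
  have r2 : ∀ c, (Rect 0 (2 * X) 0 (2 * Y) c ∧ reg X Y c = 1) ↔ Rect 0 X Y (2 * Y) c := by
    intro c; unfold Rect reg; omega
  have r3 : ∀ c, (Rect 0 (2 * X) 0 (2 * Y) c ∧ reg X Y c = 2) ↔ Rect X (2 * X) 0 Y c := by
    intro c; unfold Rect reg; omega
  have r4 : ∀ c, (Rect 0 (2 * X) 0 (2 * Y) c ∧ reg X Y c = 3) ↔ Rect X (2 * X) Y (2 * Y) c := by
    intro c; unfold Rect reg; omega
  have s2 : ∀ c, Rect 0 X Y (2 * Y) c ↔ Rect Y (2 * Y) 0 X (tcell c) := by
    intro c; have := tcell_xy c; unfold Rect; omega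
  have s3 : ∀ c, Rect X (2 * X) 0 Y c ↔ Rect 0 X 0 Y (mcell (2 * X) c) := by
    intro c; have := mcell_xy (2 * X) c; unfold Rect; omega
  have s4 : ∀ c, Rect X (2 * X) Y (2 * Y) c ↔ Rect Y (2 * Y) 0 X (tcell (mcell (2 * X) c)) := by
    intro c; have := mcell_xy (2 * X) c; have := tcell_xy (mcell (2 * X) c); unfold Rect; omega
  have e1 : ∀ c, Rect 0 X 0 Y c → h c = h1 c := fun c hc => by
    simp only [h]; rw [if_pos hc.2.1, if_pos hc.2.2.2]
  have e2 : ∀ c, Rect 0 X Y (2 * Y) c → h c = -h2 (tcell c) := fun c hc => by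
    simp only [h]; rw [if_pos hc.2.1, if_neg (not_lt.2 hc.2.2.1)]
  have e3 : ∀ c, Rect X (2 * X) 0 Y c → h c = h3 (mcell (2 * X) c) := fun c hc => by
    simp only [h]; rw [if_neg (not_lt.2 hc.1), if_pos hc.2.2.2]
  have e4 : ∀ c, Rect X (2 * X) Y (2 * Y) c → h c = -h4 (tcell (mcell (2 * X) c)) :=
    fun c hc => by simp only [h]; rw [if_neg (not_lt.2 hc.1), if_neg (not_lt.2 hc.2.2.1)]
  have a1 : ∀ c, Rect 0 X 0 Y c → Agr φ (fun v => gl (φ1 v)) c := by
    refine agr_rect fun v _ hv => ?_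
    simp only [φ]; rw [if_pos hv.2.1, if_pos hv.2.2.2]
  have a2 : ∀ c, Rect 0 X Y (2 * Y) c → Agr φ (fun v => gl (φ2 (v.2, v.1))) c := by
    refine agr_rect fun v p hv => ?_
    simp only [φ]; rw [if_pos hv.2.1]
    split_ifs with t
    · obtain ⟨a, rfl⟩ : ∃ a, v = (2 * a, 2 * Y) := ⟨v.1 / 2, Prod.ext (by omega) (by omega)⟩
      dsimp only at hv ⊢
      rw [u1.bdry a Y (by omega) (by omega) (by omega) (by omega) (by omega),
        u2.bdry Y a (by omega) (by omega) (by omega) (by omega) (by omega)]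
      simp only [gl, Prod.mk.injEq, true_and]; omega
    · rfl
  have a3 : ∀ c, Rect X (2 * X) 0 Y c → Agr φ (fun v => gr (φ3 (2 * (2 * X) - v.1, v.2))) c := by
    refine agr_rect fun v p hv => ?_
    simp only [φ]; rw [if_pos hv.2.2.2, if_pos hv.2.2.2]
    split_ifs with t
    · obtain ⟨a, rfl⟩ : ∃ a, v = (2 * X, 2 * a) := ⟨v.2 / 2, Prod.ext (by omega) (by omega)⟩
      dsimp only at hv ⊢
      rw [show 2 * (2 * X) - 2 * X = 2 * X by ring,
        u1.bdry X a (by omega) (by omega) (by omega) (by omega) (by omega),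
        u3.bdry X a (by omega) (by omega) (by omega) (by omega) (by omega)]
      simp only [gl, gr, Prod.mk.injEq]; omega
    · rfl
  have a4 : ∀ c, Rect X (2 * X) Y (2 * Y) c →
      Agr φ (fun v => gr (φ4 (v.2, 2 * (2 * X) - v.1))) c := by
    refine agr_rect fun v p hv => ?_
    simp only [φ]
    split_ifs with t t' t'
    · obtain rfl : v = (2 * X, 2 * Y) := Prod.ext (by omega) (by omega)
      dsimp only at hv ⊢
      rw [show 2 * (2 * X) - 2 * X = 2 * X by ring,
        u1.bdry X Y (by omega) (by omega) (by omega) (by omega) (by omega),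
        u4.bdry Y X (by omega) (by omega) (by omega) (by omega) (by omega)]
      simp only [gl, gr, Prod.mk.injEq]; omega
    · obtain ⟨a, rfl⟩ : ∃ a, v = (2 * X, 2 * a) := ⟨v.2 / 2, Prod.ext (by omega) (by omega)⟩
      dsimp only at hv ⊢
      rw [show 2 * (2 * X) - 2 * X = 2 * X by ring,
        u2.bdry a X (by omega) (by omega) (by omega) (by omega) (by omega),
        u4.bdry a X (by omega) (by omega) (by omega) (by omega) (by omega)]
      simp only [gl, gr, Prod.mk.injEq]; omega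
    · obtain ⟨a, rfl⟩ : ∃ a, v = (2 * (2 * X - a), 2 * Y) :=
        ⟨2 * X - v.1 / 2, Prod.ext (by omega) (by omega)⟩
      dsimp only at hv ⊢
      rw [show 2 * (2 * X) - 2 * (2 * X - a) = 2 * a by ring,
        u3.bdry a Y (by omega) (by omega) (by omega) (by omega) (by omega),
        u4.bdry Y a (by omega) (by omega) (by omega) (by omega) (by omega)]
      simp only [gr, Prod.mk.injEq, true_and]; omega
    · rfl
  refine ⟨φ, h, fun i i0 i3 => ?_, fun c b hc hb e => ?_⟩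
  · rcases (by omega : i = 0 ∨ i = 1 ∨ i = 2 ∨ i = 3) with rfl | rfl | rfl | rfl
    · exact plc_of u1.gen r1 iso_gl gl_wb gl_bw a1 (gl_kp _) (Or.inl ⟨by omega, e1⟩)
    · exact plc_of (u2.gen.refl prefl_t) (fun c => (r2 c).trans (s2 c)) iso_gl gl_wb gl_bw
        (fun c hc => a2 c ((s2 c).2 hc)) (gl_kp _)
        (Or.inl ⟨by omega, fun c hc => e2 c ((s2 c).2 hc)⟩)
    · exact plc_of (u3.gen.refl (prefl_m (2 * X))) (fun c => (r3 c).trans (s3 c)) refl_open.iso
        refl_open.wb refl_open.bw (fun c hc => a3 c ((s3 c).2 hc)) (gr_kp _)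
        (Or.inr ⟨by omega, fun c hc => by rw [neg_neg]; exact e3 c ((s3 c).2 hc)⟩)
    · exact plc_of ((u4.gen.refl prefl_t).refl (prefl_m (2 * X))) (fun c => (r4 c).trans (s4 c))
        refl_open.iso refl_open.wb refl_open.bw (fun c hc => a4 c ((s4 c).2 hc)) (gr_kp _)
        (Or.inr ⟨by omega, fun c hc => by rw [neg_neg]; exact e4 c ((s4 c).2 hc)⟩)
  · have bd : ∀ {i R'}, (∀ c, (Rect 0 (2 * X) 0 (2 * Y) c ∧ reg X Y c = i) ↔ R' c) →
        ∀ c, Cross X Y c → reg X Y c = i → Bd R' c := by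
      intro i R' r c hc e
      exact ⟨(r c).1 ⟨hc.1, e⟩, fun a => hc.2.2 (((r _).2 a).2.trans e.symm)⟩
    have i0 : reg X Y b = 0 ∨ reg X Y b = 1 ∨ reg X Y b = 2 ∨ reg X Y b = 3 := by
      unfold reg; omega
    rcases i0 with i | i | i | i
    · rw [e1 c (bd r1 c hc (e.trans i)).1, e1 b (bd r1 b hb i).1,
        u1.ord_iff (bd r1 c hc (e.trans i)) (bd r1 b hb i)]
      rcases c with ⟨x, y, d⟩
      rcases b with ⟨x', y', d'⟩
      cases d <;> cases d' <;>
        simp only [Cross, Rect, reg, Cell.nb, pk, bkey, klt, true_and] at hc hb e i ⊢ <;> omega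
    · rw [e2 c (bd r2 c hc (e.trans i)).1, e2 b (bd r2 b hb i).1, neg_lt_neg_iff,
        u2.ord_iff (prefl_t.bd.1 (bd (fun c => (r2 c).trans (s2 c)) b hb i))
          (prefl_t.bd.1 (bd (fun c => (r2 c).trans (s2 c)) c hc (e.trans i)))]
      rcases c with ⟨x, y, d⟩
      rcases b with ⟨x', y', d'⟩
      cases d <;> cases d' <;>
        simp only [Cross, Rect, reg, Cell.nb, pk, bkey, klt, tcell, true_and] at hc hb e i ⊢ <;>
        omega
    · rw [e3 c (bd r3 c hc (e.trans i)).1, e3 b (bd r3 b hb i).1,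
        u3.ord_iff ((prefl_m _).bd.1 (bd (fun c => (r3 c).trans (s3 c)) c hc (e.trans i)))
          ((prefl_m _).bd.1 (bd (fun c => (r3 c).trans (s3 c)) b hb i))]
      rcases c with ⟨x, y, d⟩
      rcases b with ⟨x', y', d'⟩
      cases d <;> cases d' <;>
        simp only [Cross, Rect, reg, Cell.nb, pk, bkey, klt, mcell, true_and] at hc hb e i ⊢ <;>
        omega
    · rw [e4 c (bd r4 c hc (e.trans i)).1, e4 b (bd r4 b hb i).1, neg_lt_neg_iff,
        u4.ord_iff (prefl_t.bd.1 ((prefl_m _).bd.1 (bd (fun c => (r4 c).trans (s4 c)) b hb i)))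
          (prefl_t.bd.1 ((prefl_m _).bd.1 (bd (fun c => (r4 c).trans (s4 c)) c hc (e.trans i))))]
      rcases c with ⟨x, y, d⟩
      rcases b with ⟨x', y', d'⟩
      cases d <;> cases d' <;>
        simp only [Cross, Rect, reg, Cell.nb, pk, bkey, klt, mcell, tcell, true_and]
          at hc hb e i ⊢ <;> omega

end Pool.Agent.MP_3b5bbf_co

end
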