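import Pool.Agent.Mg.F3b5bbfq.G7b5953
import Pool.Agent.Mg.F3b5bbfq.G266de1

set_option linter.all false

/-! The recursive tree of tubes whose leaves are pillows, and the four roots. -/

set_option linter.unusedSimpArgs false

namespace Pool.Agent.MP_3b5bbf_co.Sm

section ops
variable {E : Extra} {X Y o : ℤ} {F : V → Prop} {St : V → V → Prop} {Cv : V → Prop}

theorem Tb.r (t : Tb E X Y o F St Cv) (hn : ¬ F (1, -1)) :
    Tb Pure (X + 2) (Y + 2) (o + 1) (fun v => (v.1 = 1 ∧ v.2 = 1) ∨ F (v.1, v.2 - 2))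
      (fun v w => (v.1 = 1 ∧ w.1 = 1 ∧ ((v.2 = 1 ∧ w.2 = 3) ∨ (v.2 = 3 ∧ w.2 = 1))) ∨
        St (v.1, v.2 - 2) (w.1, w.2 - 2))
      (fun v => Cv (v.1, v.2 - 2)) := by
  refine t.ring hn (by simp) (fun v a => Or.inr (by simpa using a)) (fun _ => by simp)
    (fun v w a => Or.inr (by simpa using a)) (fun v a => ?_)
  simpa only [add_sub_cancel_right, Prod.mk.eta] using a

theorem Tb.op (t : Tb E X Y o F St Cv) (hn : ¬ F (1, -1)) :
    Tb (Turned KO) (X + 2) (Y + 2) (o + 1) (fun v => (v.1 = 1 ∧ v.2 = 1) ∨ F (v.2, v.1 - 2))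
      (fun v w => (v.2 = 1 ∧ w.2 = 1 ∧ ((v.1 = 1 ∧ w.1 = 3) ∨ (v.1 = 3 ∧ w.1 = 1))) ∨
        St (v.2, v.1 - 2) (w.2, w.1 - 2))
      (fun v => Cv (v.2, v.1 - 2)) := by
  refine t.turnO hn (by simp) (fun v a => Or.inr (by simpa using a)) (fun _ => by simp)
    (fun v w a => Or.inr (by simpa using a)) (fun v _ _ a => ?_)
  simpa only [add_sub_cancel_right, Prod.mk.eta] using a

theorem Tb.cl (t : Tb E X Y o F St Cv) (hn : ¬ F (1, -1)) :
    Tb (Turned KC) (X + 2) (Y + 2) (o + 1) (fun v => (v.1 = 1 ∧ v.2 = 1) ∨ F (2 - v.2, -v.1))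
      (fun v w => (v.2 = 1 ∧ w.2 = 1 ∧ ((v.1 = 1 ∧ w.1 = -1) ∨ (v.1 = -1 ∧ w.1 = 1))) ∨
        St (2 - v.2, -v.1) (2 - w.2, -w.1))
      (fun v => Cv (2 - v.2, -v.1)) := by
  refine t.turnC hn (by simp) (fun v a => Or.inr (by simpa using a)) (fun _ => by simp)
    (fun v w a => Or.inr (by simpa using a)) (fun v _ _ a => ?_)
  simpa only [sub_sub_cancel, neg_neg, Prod.mk.eta] using a

theorem Tb.rings (t : Tb E X Y o F St Cv) (hn : ∀ s, s ≤ -1 → ¬ F (1, s)) (n : ℕ) :
    Tb Any (X + 2 * n) (Y + 2 * n) (o + n)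
      (fun v => (v.1 = 1 ∧ 1 ≤ v.2 ∧ v.2 ≤ 2 * n - 1) ∨ F (v.1, v.2 - 2 * n))
      (fun v w => (v.1 = 1 ∧ w.1 = 1 ∧ v.2 % 2 = 1 ∧ w.2 % 2 = 1) ∨
        St (v.1, v.2 - 2 * n) (w.1, w.2 - 2 * n))
      (fun v => Cv (v.1, v.2 - 2 * n)) := by
  induction n with
  | zero =>
    exact t.any.mono (by simp) (by simp) (by simp) (fun v a => Or.inr (by simpa using a))
      (fun v w _ _ a => Or.inr (by simpa using a)) (fun v _ _ a => by simpa using a)
  | succ n ih =>
    have e : ∀ a : ℤ, a - 2 * ((n + 1 : ℕ) : ℤ) = a - 2 - 2 * n := fun a => by push_cast; ring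
    refine (ih.r ?_).any.mono (by push_cast; ring) (by push_cast; ring) (by push_cast; ring)
      ?_ ?_ ?_
    · rintro (a | a)
      · dsimp only at a; omega
      · exact hn _ (by dsimp only; omega) a
    · rintro v (a | a | a)
      · left; omega
      · left; dsimp only at a; omega
      · right; rw [e]; exact a
    · rintro v w - - (a | a | a)
      · left; omega
      · left; dsimp only at a; omega
      · right; rw [e, e]; exact a
    · intro v _ _ a
      rw [e] at a; exact a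

end ops

/-- the pillow: a square tube inside one board cell with plates on both faces -/
def Pillow : Prop := ∀ π : ℤ, π = 0 ∨ π = 1 →
  Tb Any 38 38 (18 + π) (Box 1 9 1 9) (fun v w => Box 1 9 1 9 v ∧ Box 1 9 1 9 w)
    (fun v => v.1 = 5 ∧ v.2 = 5)

def Ctr (α β : ℤ) (v : V) : Prop := (v.1 - α) % 20 = 5 ∧ (v.2 - β) % 20 = 5

def TG (X Y o W h δ : ℤ) : Prop :=
  Tb Any X Y o (FT W h) (fun v w => Odd2 v w → SG (-4 - 10 * W) 2 δ v w)
    (fun v => Ctr (-4 - 10 * W) 2 v ∧ Box (-10 * W - 3) (10 * W + 5) 3 (10 * h + 1) v)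

theorem leaf (hP : Pillow) {π : ℤ} (h : π = 0 ∨ π = 1) : TG 44 44 (21 + π) 0 1 0 := by
  refine ((((hP π h).cl ?_).r ?_).cl ?_).any.mono (by ring) (by ring) (by ring) ?_ ?_ ?_
  · simp only [Box]; omega
  · simp only [Box]; omega
  · simp only [Box]; omega
  · intro v; simp only [Box, FT]; omega
  · rintro v w - - (a | a | a | a) od
    · left; omega
    · left; dsimp only at a; omega
    · right; left; dsimp only at a; omega
    · left; simp only [Box] at a; omega
  · intro v; simp only [Box, Ctr]; omega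

def TJ (X Y o W h δ : ℤ) : Prop :=
  Tb Any X Y o (FJ W h) (fun v w => Odd2 v w → SG 6 (-2 - 10 * W) δ v w)
    (fun v => Ctr 6 (-2 - 10 * W) v ∧ Box (-10 * h - 3) (10 * h + 5) (-10 * W - 1) (10 * W + 7) v)

theorem armW {X Y o W h δ : ℤ} (t : TG X Y o W h δ) (hW : 0 ≤ W) (hh : 0 ≤ h) :
    Tb Pure (X + 6) (Y + 6) (o + 3) (fun v => FJ W h v ∧ v.1 ≤ 1)
      (fun v w => Odd2 v w → SG 6 (-2 - 10 * W) (1 - δ) v w)
      (fun v => Ctr 6 (-2 - 10 * W) v ∧ Box (-10 * h - 3) (-5) (-10 * W - 1) (10 * W + 7) v) := by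
  refine (((Tb.r t ?_).cl ?_).r ?_).mono (by ring) (by ring) (by ring) ?_ ?_ ?_
  · simp only [FT]; omega
  · simp only [FT]; omega
  · simp only [FT]; omega
  · intro v; simp only [FJ, FT]; omega
  · rintro v w - - (a | a | a | a) od
    · left; omega
    · left; dsimp only at a; omega
    · left; dsimp only at a; omega
    · unfold Odd2 at *
      dsimp only at a
      exact (a (by omega)).sw rfl (Or.inr rfl)
        (rel_neg (by dsimp only; omega) (by dsimp only; omega) (by dsimp only; omega)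
          (by dsimp only; omega))
        (rel_neg (by dsimp only; omega) (by dsimp only; omega) (by dsimp only; omega)
          (by dsimp only; omega))
  · intro v; simp only [Box, Ctr]; omega

theorem armE {X Y o W h δ : ℤ} (t : TG X Y o W h δ) (hW : 0 ≤ W) (hh : 0 ≤ h) :
    Tb (Turned KO) (X + 6) (Y + 6) (o + 3)
      (fun v => FJ W h v ∧ 1 ≤ v.1 ∧ (v.1 = 1 → v.2 = 1))
      (fun v w => Odd2 v w → SG 6 (-2 - 10 * W) (1 - δ) v w)
      (fun v => Ctr 6 (-2 - 10 * W) v ∧ Box 7 (10 * h + 5) (-10 * W - 1) (10 * W + 7) v) := by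
  refine (((Tb.op t ?_).op ?_).op ?_).mono (by ring) (by ring) (by ring) ?_ ?_ ?_
  · simp only [FT]; omega
  · simp only [FT]; omega
  · simp only [FT]; omega
  · intro v; simp only [FJ, FT]; omega
  · rintro v w - - (a | a | a | a) od
    · left; omega
    · left; dsimp only at a; omega
    · left; dsimp only at a; omega
    · unfold Odd2 at *
      dsimp only at a
      exact (a (by omega)).sw rfl (Or.inl rfl)
        (rel_pos (by dsimp only; omega) (by dsimp only; omega))
        (rel_pos (by dsimp only; omega) (by dsimp only; omega))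
  · intro v; simp only [Box, Ctr]; omega

theorem juncTop {X Y o W h δ : ℤ} (t : TG X Y o W h δ) (hW : 0 ≤ W) (hh : 0 ≤ h)
    (hY : Y % 2 = 0) : TJ (X + 6) (2 * Y + 12) (o + 3) W h (1 - δ) := by
  refine ((armW t hW hh).nestTop (armE t hW hh) (by omega) ?_ ?_ ?_).mono rfl (by ring) rfl
    ?_ ?_ ?_
  · intro v; simp only [Prod.ext_iff]; omega
  · simp only [FJ]; omega
  · simp only [FJ]; omega
  · exact fun v a => a.elim And.left And.left
  · exact fun v w _ _ a => a.elim id id
  · intro v; simp only [Box, Ctr, Near]; omega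

theorem juncRight {X Y o W h δ : ℤ} (t : TG X Y o W h δ) (t' : TG Y X o W h δ) (hW : 0 ≤ W)
    (hh : 0 ≤ h) (hX : X % 2 = 0) : TJ (2 * X + 12) (Y + 6) (o + 3) W h (1 - δ) := by
  refine ((armW t hW hh).nestRight (armE t' hW hh) (by omega) ?_ ?_ ?_).mono (by ring) rfl rfl
    ?_ ?_ ?_
  · intro v; simp only [Prod.ext_iff]; omega
  · simp only [FJ]; omega
  · simp only [FJ]; omega
  · exact fun v a => a.elim And.left And.left
  · exact fun v w _ _ a => a.elim id id
  · intro v; simp only [Box, Ctr, Near]; omega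

theorem TJ.grow {X Y o W h δ : ℤ} (t : TJ X Y o W h δ) (hW : 0 ≤ W) (hh : h % 2 = 1)
    (h0 : 0 ≤ h) : TG (X + 10 * W + 4) (Y + 10 * W + 4) (o + 5 * W + 2) h (2 * W + 1) δ := by
  obtain ⟨n, hn⟩ : ∃ n : ℕ, (n : ℤ) = 5 * W + 2 := ⟨(5 * W + 2).toNat, by omega⟩
  refine (Tb.rings t ?_ n).mono (by omega) (by omega) (by omega) ?_ ?_ ?_
  · intro s hs; simp only [FJ]; omega
  · intro v; simp only [FJ, FT]; omega
  · rintro v w - - (a | a) od
    · right; left; omega
    · unfold Odd2 at *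
      dsimp only at a
      exact (a (by omega)).str (Or.inl rfl)
        (rel_pos (by dsimp only; omega) (by dsimp only; omega))
        (rel_pos (by dsimp only; omega) (by dsimp only; omega))
  · intro v; simp only [Box, Ctr]; omega

/-- a pair of subtrees on transposed rectangles -/
def Pair (a b o W h δ : ℤ) : Prop := TG a b o W h δ ∧ TG b a o W h δ

theorem Pair.junc {a b o W h δ : ℤ} (p : Pair a b o W h δ) (hW : 0 ≤ W) (h0 : 0 ≤ h)
    (ha : a % 2 = 0) : TJ (b + 6) (2 * a + 12) (o + 3) W h (1 - δ) ∧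
      TJ (2 * a + 12) (b + 6) (o + 3) W h (1 - δ) :=
  ⟨juncTop p.2 hW h0 ha, juncRight p.1 p.2 hW h0 ha⟩

theorem Pair.step {a b o W h δ : ℤ} (p : Pair a b o W h δ) (hW : 0 ≤ W) (h0 : 0 ≤ h)
    (hh : h % 2 = 1) (ha : a % 2 = 0) :
    Pair (b + 6 + 10 * W + 4) (2 * a + 12 + 10 * W + 4) (o + 3 + 5 * W + 2) h (2 * W + 1)
      (1 - δ) :=
  ⟨(p.junc hW h0 ha).1.grow hW hh h0, (p.junc hW h0 ha).2.grow hW hh h0⟩

/-- the trees after an even number of levels -/
theorem trees (hP : Pillow) (n : ℕ) : ∃ a b o W : ℤ, W + 1 = 2 ^ n ∧ a % 2 = 0 ∧ b % 2 = 0 ∧ a ≤ b ∧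
    4 * b + 10 * W ≤ 6 * a + 16 ∧ b + 6 ≤ (W + 1) * (50 + 20 * n) ∧
    ∀ π, π = 0 ∨ π = 1 → Pair a b (o + π) W (2 * W + 1) 0 := by
  induction n with
  | zero =>
    exact ⟨44, 44, 21, 0, by norm_num, by norm_num, by norm_num, by norm_num, by norm_num,
      by norm_num, fun π h => ⟨leaf hP h, leaf hP h⟩⟩
  | succ n ih =>
    obtain ⟨a, b, o, W, h1, h2, h3, h4, h5, h6, p⟩ := ih
    have hW : 0 ≤ W := by have : (0 : ℤ) < 2 ^ n := by positivity
                          omega
    refine ⟨2 * a + 30 * W + 36, 2 * b + 40 * W + 46, o + 15 * W + 15, 2 * W + 1,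
      by rw [pow_succ]; omega, by omega, by omega, by omega, by omega,
      by push_cast; nlinarith, fun π h => ?_⟩
    have := ((p π h).step hW (by omega) (by omega) h2).step (by omega) (by omega) (by omega)
      (by omega)
    convert this using 1 <;> ring

def TR (X Y o : ℤ) (g : V → V) (α β δ M : ℤ) : Prop :=
  Tb Any X Y o (fun v => Brd M (g v)) (fun v w => Odd2 v w → SG α β δ (g v) (g w))
    (fun v => Ctr α β (g v) ∧ Brd M (g v))

theorem root11 {X Y o M : ℤ} (t : TJ X Y o M M 0) (h0 : 0 ≤ M) (h1 : M % 2 = 1) :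
    TR (X + 14) (Y + 14) (o + 7) gl 0 (-6) 0 M := by
  refine (((((((Tb.r t ?_).r ?_).r ?_).r ?_).op ?_).r ?_).r ?_).any.mono
    (by ring) (by ring) (by ring) ?_ ?_ ?_
  iterate 7 (simp only [FJ]; omega)
  · intro v; simp only [FJ, Brd, gl]; omega
  · rintro v w - - (a | a | a | a | a | a | a | a) od
    iterate 7 (simp only [SG, gl] at *; omega)
    unfold Odd2 at *
    dsimp only at a
    replace a := a (by omega)
    exact a.str (Or.inr rfl)
      (rel_neg (by simp only [gl]; omega) (by simp only [gl]; omega) (by dsimp only; omega)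
        (by dsimp only; omega))
      (rel_neg (by simp only [gl]; omega) (by simp only [gl]; omega) (by dsimp only; omega)
        (by dsimp only; omega))
  · intro v; simp only [Box, Ctr, Brd, gl]; omega

theorem root12 {X Y o M : ℤ} (t : TJ X Y o M M 0) (h0 : 0 ≤ M) (h1 : M % 2 = 1) :
    TR (X + 14) (Y + 14) (o + 7) gl 10 4 1 M := by
  refine (((((((Tb.r t ?_).r ?_).r ?_).cl ?_).op ?_).r ?_).r ?_).any.mono
    (by ring) (by ring) (by ring) ?_ ?_ ?_
  iterate 7 (simp only [FJ]; omega)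
  · intro v; simp only [FJ, Brd, gl]; omega
  · rintro v w - - (a | a | a | a | a | a | a | a) od
    iterate 7 (simp only [SG, gl] at *; omega)
    unfold Odd2 at *
    dsimp only at a
    replace a := a (by omega)
    exact a.sw rfl (Or.inl rfl) (rel_pos (by simp only [gl]; omega) (by simp only [gl]; omega))
      (rel_pos (by simp only [gl]; omega) (by simp only [gl]; omega))
  · intro v; simp only [Box, Ctr, Brd, gl]; omega

theorem root21 {X Y o M : ℤ} (t : TJ X Y o M M 0) (h0 : 0 ≤ M) (h1 : M % 2 = 1) :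
    TR (X + 14) (Y + 14) (o + 7) gr 10 (-6) 0 M := by
  refine (((((((Tb.r t ?_).r ?_).r ?_).r ?_).cl ?_).r ?_).r ?_).any.mono
    (by ring) (by ring) (by ring) ?_ ?_ ?_
  iterate 7 (simp only [FJ]; omega)
  · intro v; simp only [FJ, Brd, gr]; omega
  · rintro v w - - (a | a | a | a | a | a | a | a) od
    iterate 7 (simp only [SG, gr] at *; omega)
    unfold Odd2 at *
    dsimp only at a
    replace a := a (by omega)
    exact a.str (Or.inr rfl)
      (rel_neg (by simp only [gr]; omega) (by simp only [gr]; omega) (by dsimp only; omega)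
        (by dsimp only; omega))
      (rel_neg (by simp only [gr]; omega) (by simp only [gr]; omega) (by dsimp only; omega)
        (by dsimp only; omega))
  · intro v; simp only [Box, Ctr, Brd, gr]; omega

theorem root22 {X Y o M : ℤ} (t : TJ X Y o M M 0) (h0 : 0 ≤ M) (h1 : M % 2 = 1) :
    TR (X + 14) (Y + 14) (o + 7) gr 0 4 1 M := by
  refine (((((((Tb.r t ?_).r ?_).r ?_).op ?_).cl ?_).r ?_).r ?_).any.mono
    (by ring) (by ring) (by ring) ?_ ?_ ?_
  iterate 7 (simp only [FJ]; omega)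
  · intro v; simp only [FJ, Brd, gr]; omega
  · rintro v w - - (a | a | a | a | a | a | a | a) od
    iterate 7 (simp only [SG, gr] at *; omega)
    unfold Odd2 at *
    dsimp only at a
    replace a := a (by omega)
    exact a.sw rfl (Or.inr rfl)
      (rel_neg (by simp only [gr]; omega) (by simp only [gr]; omega) (by dsimp only; omega)
        (by dsimp only; omega))
      (rel_neg (by simp only [gr]; omega) (by simp only [gr]; omega) (by dsimp only; omega)
        (by dsimp only; omega))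
  · intro v; simp only [Box, Ctr, Brd, gr]; omega

end Pool.Agent.MP_3b5bbf_co.Sm
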