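import Pool.Agent.Mg.F3b5bbfq.G763be0
import Pool.Agent.Mg.F3b5bbfq.G34be71
import Pool.Agent.Mg.F3b5bbfq.Gda478f

set_option linter.all false

section

/-! The cell checks for the pillow with offset 19. -/

namespace Pool.Agent.MP_3b5bbf_co.Sm

theorem d19_a0 : allC 0 10 (fun c => decide (d19.PA c)) = true := by decide +kernel

theorem d19_a1 : allC 10 10 (fun c => decide (d19.PA c)) = true := by decide +kernel

theorem d19_a2 : allC 20 9 (fun c => decide (d19.PA c)) = true := by decide +kernel

theorem d19_a3 : allC 29 9 (fun c => decide (d19.PA c)) = true := by decide +kernel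

theorem d19_a (c : Cell) (hc : In c) : d19.PA c := by
  have h := hc.2.2
  by_cases a : c.y < 10
  · exact of_decide_eq_true (allC_sound d19_a0 c hc (by omega) (by omega))
  by_cases b : c.y < 20
  · exact of_decide_eq_true (allC_sound d19_a1 c hc (by omega) (by omega))
  by_cases d : c.y < 29
  · exact of_decide_eq_true (allC_sound d19_a2 c hc (by omega) (by omega))
  · exact of_decide_eq_true (allC_sound d19_a3 c hc (by omega) (by omega))

end Pool.Agent.MP_3b5bbf_co.Sm

end

section

/-! The stack checks for the pillow with offset 18. -/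

namespace Pool.Agent.MP_3b5bbf_co.Sm

theorem d18_b0 : all2 53 109 (d18.cB 0) = true := by decide +kernel

theorem d18_b1 : all2 53 109 (d18.cB 1) = true := by decide +kernel

theorem d18_b2 : all2 53 109 (d18.cB 2) = true := by decide +kernel

theorem d18_b : ∀ j < 3, ∀ p < 5777, d18.cB j p = true := by
  intro j hj p hp
  obtain rfl | rfl | rfl : j = 0 ∨ j = 1 ∨ j = 2 := by omega
  exacts [all2_sound d18_b0 p hp, all2_sound d18_b1 p hp, all2_sound d18_b2 p hp]

end Pool.Agent.MP_3b5bbf_co.Sm

end

section

/-! The pillow exists for both parities of the offset. -/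

namespace Pool.Agent.MP_3b5bbf_co.Sm

theorem pillow : Pillow := by
  rintro π (rfl | rfl)
  · have k : d18.Ok := ⟨d18_a, fun p hp => Eq.mp Nat.blt_eq (all2_sound d18_m p hp), d18_b⟩
    exact (k.tube (o := 18) (by norm_num) (by norm_num) d18_o d18_d d18_c).shift
  · have k : d19.Ok := ⟨d19_a, fun p hp => Eq.mp Nat.blt_eq (all2_sound d19_m p hp), d19_b⟩
    exact (k.tube (o := 19) (by norm_num) (by norm_num) d19_o d19_d d19_c).shift

end Pool.Agent.MP_3b5bbf_co.Sm

end
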