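import Pool.Agent.Mg.F3b5bbfq.G4ffc30

set_option linter.all false

section

/-! Crossing parity of segments and rays. -/

namespace Pool.Agent.MP_3b5bbf_co.Up

open Set

set_option linter.unusedVariables false

open Classical in
/-- indicator with values mod two -/
noncomputable def ind (P : Prop) : ZMod 2 := if P then 1 else 0

theorem ind_pos {P : Prop} (h : P) : ind P = 1 := if_pos h
theorem ind_neg {P : Prop} (h : ¬ P) : ind P = 0 := if_neg h
@[simp] theorem ind_true : ind True = 1 := ind_pos trivial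
@[simp] theorem ind_false : ind False = 0 := ind_neg id
theorem ind_congr {P Q : Prop} (h : P ↔ Q) : ind P = ind Q := by rw [propext h]
theorem ind_and (P Q : Prop) : ind (P ∧ Q) = ind P * ind Q := by
  by_cases hP : P <;> by_cases hQ : Q <;> simp [ind, hP, hQ]
theorem add_self2 (a : ZMod 2) : a + a = 0 := CharTwo.add_self_eq_zero a
theorem z2_cases (a : ZMod 2) : a = 0 ∨ a = 1 := by revert a; decide
theorem z2_eq_of_add {a b : ZMod 2} (h : a + b = 0) : a = b := by revert a b; decide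

/-- the ray from `z` to the right meets the segment `p q` -/
noncomputable def X (z p q : ℂ) : ZMod 2 :=
  ind (p.im < z.im ∧ z.im ≤ q.im ∧ 0 < cross p q z) +
    ind (q.im < z.im ∧ z.im ≤ p.im ∧ cross p q z < 0)

/-- the ray from `v` to the left meets the segment `u u'` -/
noncomputable def Y (v u u' : ℂ) : ZMod 2 :=
  ind (u.im ≤ v.im ∧ v.im < u'.im ∧ cross u u' v < 0) +
    ind (u'.im ≤ v.im ∧ v.im < u.im ∧ 0 < cross u u' v)

/-- proper crossing of two segments -/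
def Cr (u u' p q : ℂ) : Prop :=
  cross p q u * cross p q u' < 0 ∧ cross u u' p * cross u u' q < 0

theorem cross_swap (p q z : ℂ) : cross q p z = -cross p q z := by simp [cross]; ring

theorem X_swap (z p q : ℂ) : X z q p = X z p q := by
  simp only [X, cross_swap p q z, neg_pos, neg_neg_iff_pos]; ring

theorem Y_swap (v u u' : ℂ) : Y v u' u = Y v u u' := by
  simp only [Y, cross_swap u u' v, neg_pos, neg_neg_iff_pos]; ring

theorem Cr_comm {u u' p q : ℂ} : Cr u u' p q ↔ Cr p q u u' := and_comm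

theorem Cr_swap {u u' p q : ℂ} : Cr u u' q p ↔ Cr u u' p q := by
  simp only [Cr, cross_swap p q, neg_mul_neg, mul_comm (cross u u' q)]

theorem Cr_swap' {u u' p q : ℂ} : Cr u' u p q ↔ Cr u u' p q := by
  rw [Cr_comm, Cr_swap, Cr_comm]

theorem mul_neg_iff_pos {a b : ℝ} (h : 0 < a) : a * b < 0 ↔ b < 0 :=
  ⟨fun e => by by_contra hn; exact absurd e (not_lt.2 (mul_nonneg h.le (not_lt.1 hn))),
    fun e => mul_neg_of_pos_of_neg h e⟩

theorem order1 {a a' b b' r : ℝ} (ha : a < a') (hb : b < b') (h1 : b ≤ a → a ≤ b' → a ≠ r)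
    (h2 : b ≤ a' → a' ≤ b' → a' ≠ r) (h3 : a ≤ b → b ≤ a' → b ≠ r)
    (h4 : a ≤ b' → b' ≤ a' → b' ≠ r) :
    ind ((a < r ∧ r < a') ∧ (b < r ∧ r < b')) =
      ind (b < a ∧ a ≤ b' ∧ a < r) + ind (b < a' ∧ a' ≤ b' ∧ a' < r) +
      ind (a ≤ b ∧ b < a' ∧ b < r) + ind (a ≤ b' ∧ b' < a' ∧ b' < r) := by
  unfold ind
  split_ifs <;> first | rfl | (exfalso; grind)

theorem order2 {a a' b b' r : ℝ} (ha : a < a') (hb : b < b') (h1 : b ≤ a → a ≤ b' → a ≠ r)
    (h2 : b ≤ a' → a' ≤ b' → a' ≠ r) (h3 : a ≤ b → b ≤ a' → b ≠ r)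
    (h4 : a ≤ b' → b' ≤ a' → b' ≠ r) :
    ind ((a < r ∧ r < a') ∧ (b < r ∧ r < b')) =
      ind (b < a ∧ a ≤ b' ∧ r < a) + ind (b < a' ∧ a' ≤ b' ∧ r < a') +
      ind (a ≤ b ∧ b < a' ∧ r < b) + ind (a ≤ b' ∧ b' < a' ∧ r < b') := by
  unfold ind
  split_ifs <;> first | rfl | (exfalso; grind)

theorem order3 {a a' b b' : ℝ} (ha : a < a') (hb : b < b') (P : Prop) :
    0 = ind (b < a ∧ a ≤ b' ∧ P) + ind (b < a' ∧ a' ≤ b' ∧ P) +
      ind (a ≤ b ∧ b < a' ∧ P) + ind (a ≤ b' ∧ b' < a' ∧ P) := by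
  unfold ind
  split_ifs <;> first | rfl | (exfalso; grind)

theorem order4 {a a' b b' r d : ℝ} (ha : a < a') (hb : b < b')
    (h1 : b ≤ a → a ≤ b' → r - d * a ≠ 0) (h2 : b ≤ a' → a' ≤ b' → r - d * a' ≠ 0)
    (h3 : a ≤ b → b ≤ a' → r - d * b ≠ 0) (h4 : a ≤ b' → b' ≤ a' → r - d * b' ≠ 0) :
    ind ((r - d * a) * (r - d * a') < 0 ∧ (r - d * b) * (r - d * b') < 0) =
      ind (b < a ∧ a ≤ b' ∧ 0 < r - d * a) + ind (b < a' ∧ a' ≤ b' ∧ 0 < r - d * a') +
      ind (a ≤ b ∧ b < a' ∧ 0 < r - d * b) + ind (a ≤ b' ∧ b' < a' ∧ 0 < r - d * b') := by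
  rcases eq_or_ne d 0 with rfl | hd
  · simp only [zero_mul, sub_zero]
    rw [ind_neg (fun h => absurd h.1 (not_lt.2 (mul_self_nonneg r)))]
    exact order3 ha hb _
  obtain ⟨ρ, rfl⟩ : ∃ ρ, r = d * ρ := ⟨r / d, by field_simp⟩
  have e1 : ∀ s t : ℝ, s < t → ((d * ρ - d * s) * (d * ρ - d * t) < 0 ↔ s < ρ ∧ ρ < t) := by
    intro s t hst
    have hd2 : 0 < d ^ 2 := by positivity
    rw [show (d * ρ - d * s) * (d * ρ - d * t) = d ^ 2 * ((ρ - s) * (ρ - t)) by ring,
      mul_neg_iff_pos hd2, mul_neg_iff]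
    constructor
    · rintro (h | h) <;> constructor <;> linarith [h.1, h.2]
    · exact fun h => Or.inl ⟨by linarith [h.1], by linarith [h.2]⟩
  have e2 : ∀ s : ℝ, d * ρ - d * s ≠ 0 → s ≠ ρ := fun s h e => h (by rw [e]; ring)
  rw [e1 _ _ ha, e1 _ _ hb]
  rcases lt_or_gt_of_ne hd with hd | hd
  · have e3 : ∀ s : ℝ, 0 < d * ρ - d * s ↔ ρ < s := fun s => by
      constructor <;> intro h <;> nlinarith
    simp only [e3]
    exact order2 ha hb (fun x y => e2 _ (h1 x y)) (fun x y => e2 _ (h2 x y))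
      (fun x y => e2 _ (h3 x y)) (fun x y => e2 _ (h4 x y))
  · have e3 : ∀ s : ℝ, 0 < d * ρ - d * s ↔ s < ρ := fun s => by
      constructor <;> intro h <;> nlinarith
    simp only [e3]
    exact order1 ha hb (fun x y => e2 _ (h1 x y)) (fun x y => e2 _ (h2 x y))
      (fun x y => e2 _ (h3 x y)) (fun x y => e2 _ (h4 x y))

theorem mem_seg_of_cross {u p q : ℂ} (h : p.im < q.im) (h1 : p.im ≤ u.im) (h2 : u.im ≤ q.im)
    (h0 : cross p q u = 0) : u ∈ segment ℝ p q := by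
  have hd : 0 < q.im - p.im := by linarith
  refine ⟨(q.im - u.im) / (q.im - p.im), (u.im - p.im) / (q.im - p.im),
    div_nonneg (by linarith) hd.le, div_nonneg (by linarith) hd.le, by field_simp; ring, ?_⟩
  simp only [cross, Complex.sub_re, Complex.sub_im] at h0
  apply Complex.ext
  · simp only [Complex.add_re, Complex.smul_re, smul_eq_mul]
    field_simp
    linear_combination h0
  · simp only [Complex.add_im, Complex.smul_im, smul_eq_mul]
    field_simp
    ring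

theorem mem_seg_horiz {u p q : ℂ} (h1 : p.im = u.im) (h2 : q.im = u.im)
    (h0 : (p.re - u.re) * (q.re - u.re) ≤ 0) : u ∈ segment ℝ p q := by
  have : u.re ∈ segment ℝ p.re q.re := by
    rw [segment_eq_uIcc, mem_uIcc]
    rcases mul_nonpos_iff.1 h0 with h | h
    · right; constructor <;> linarith [h.1, h.2]
    · left; constructor <;> linarith [h.1, h.2]
  obtain ⟨s, t, hs, ht, hst, e⟩ := this
  refine ⟨s, t, hs, ht, hst, Complex.ext (by simpa using e) ?_⟩
  simp only [Complex.add_im, Complex.smul_im, smul_eq_mul, h1, h2]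
  rw [← add_mul, hst, one_mul]

theorem ind_sign {x y : ℝ} (hx : x ≠ 0) (hy : y ≠ 0) :
    ind (x * y < 0) = ind (0 < x) + ind (0 < y) := by
  rcases lt_or_gt_of_ne hx with hx | hx <;> rcases lt_or_gt_of_ne hy with hy | hy
  · rw [ind_neg (mul_pos_of_neg_of_neg hx hy).not_gt, ind_neg hx.not_gt, ind_neg hy.not_gt]; rfl
  · rw [ind_pos (mul_neg_of_neg_of_pos hx hy), ind_neg hx.not_gt, ind_pos hy]; rfl
  · rw [ind_pos (mul_neg_of_pos_of_neg hx hy), ind_pos hx, ind_neg hy.not_gt]; rfl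
  · rw [ind_neg (mul_pos hx hy).not_gt, ind_pos hx, ind_pos hy]; rfl

theorem ray_horiz {u u' p q : ℂ} (ha : u.im = u'.im) (hb : p.im ≤ q.im)
    (h1 : u ∉ segment ℝ p q) (h2 : u' ∉ segment ℝ p q) (h4 : q ∉ segment ℝ u u') :
    ind (Cr u u' p q) = ind (p.im < u.im ∧ u.im ≤ q.im ∧ 0 < cross p q u) +
      ind (p.im < u.im ∧ u.im ≤ q.im ∧ 0 < cross p q u') := by
  have eD : cross u u' p * cross u u' q = (u'.re - u.re) ^ 2 * ((p.im - u.im) * (q.im - u.im)) := by
    simp only [cross, Complex.sub_re, Complex.sub_im, ← ha]; ring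
  by_cases hc : p.im < u.im ∧ u.im ≤ q.im
  · have c1 : cross p q u ≠ 0 := fun h => h1 (mem_seg_of_cross (by linarith [hc.1, hc.2])
      hc.1.le hc.2 h)
    have c2 : cross p q u' ≠ 0 := fun h => h2 (mem_seg_of_cross (by linarith [hc.1, hc.2])
      (ha ▸ hc.1.le) (ha ▸ hc.2) h)
    simp only [hc.1, hc.2, true_and]
    rw [← ind_sign c1 c2]
    refine ind_congr ⟨fun h => h.1, fun h => ⟨h, ?_⟩⟩
    rw [eD]
    rcases hc.2.eq_or_lt with e | e
    · refine absurd (mem_seg_horiz e (ha ▸ e) ?_) h4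
      have : cross p q u * cross p q u' = (q.im - p.im) ^ 2 * ((u.re - q.re) * (u'.re - q.re)) := by
        simp only [cross, Complex.sub_re, Complex.sub_im, ← ha, e]; ring
      rw [this] at h
      by_contra hn
      exact absurd h (not_lt.2 (mul_nonneg (sq_nonneg _) (not_le.1 hn).le))
    · have : u'.re - u.re ≠ 0 := by
        intro h0
        have : cross p q u' = cross p q u := by
          simp only [cross, Complex.sub_re, Complex.sub_im, ← ha]
          linear_combination (p.im - q.im) * h0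
        rw [this] at h
        exact absurd h (not_lt.2 (mul_self_nonneg _))
      exact mul_neg_of_pos_of_neg (by positivity)
        (mul_neg_of_neg_of_pos (by linarith [hc.1]) (by linarith))
  · rw [ind_neg (P := _ ∧ _ ∧ _) (fun h => hc ⟨h.1, h.2.1⟩),
      ind_neg (P := _ ∧ _ ∧ _) (fun h => hc ⟨h.1, h.2.1⟩), ind_neg]
    · rfl
    · intro h
      have := h.2
      rw [eD] at this
      refine absurd this (not_lt.2 (mul_nonneg (sq_nonneg _) ?_))
      rcases not_and_or.1 hc with e | e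
      · exact mul_nonneg (by linarith [not_lt.1 e]) (by linarith [not_lt.1 e])
      · exact mul_nonneg_of_nonpos_of_nonpos (by linarith [not_le.1 e]) (by linarith [not_le.1 e])

theorem ray_horiz' {u u' p q : ℂ} (ha : p.im = q.im) (hb : u.im < u'.im)
    (h1 : u ∉ segment ℝ p q) (h3 : p ∉ segment ℝ u u') (h4 : q ∉ segment ℝ u u') :
    ind (Cr u u' p q) = ind (u.im ≤ p.im ∧ p.im < u'.im ∧ cross u u' p < 0) +
      ind (u.im ≤ p.im ∧ p.im < u'.im ∧ cross u u' q < 0) := by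
  have eD : cross p q u * cross p q u' = (q.re - p.re) ^ 2 * ((u.im - p.im) * (u'.im - p.im)) := by
    simp only [cross, Complex.sub_re, Complex.sub_im, ← ha]; ring
  by_cases hc : u.im ≤ p.im ∧ p.im < u'.im
  · have c1 : cross u u' p ≠ 0 := fun h => h3 (mem_seg_of_cross hb hc.1 hc.2.le h)
    have c2 : cross u u' q ≠ 0 := fun h => h4 (mem_seg_of_cross hb (ha ▸ hc.1) (ha ▸ hc.2.le) h)
    simp only [hc.1, hc.2, true_and]
    rw [← neg_pos, ← neg_pos (a := cross u u' q), ← ind_sign (neg_ne_zero.2 c1) (neg_ne_zero.2 c2),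
      neg_mul_neg]
    refine ind_congr ⟨fun h => h.2, fun h => ⟨?_, h⟩⟩
    rw [eD]
    rcases hc.1.eq_or_lt with e | e
    · refine absurd (mem_seg_horiz e.symm (ha ▸ e.symm) ?_) h1
      have : cross u u' p * cross u u' q = (u'.im - u.im) ^ 2 * ((p.re - u.re) * (q.re - u.re)) := by
        simp only [cross, Complex.sub_re, Complex.sub_im, ← ha, ← e]; ring
      rw [this] at h
      by_contra hn
      exact absurd h (not_lt.2 (mul_nonneg (sq_nonneg _) (not_le.1 hn).le))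
    · have : q.re - p.re ≠ 0 := by
        intro h0
        have : cross u u' q = cross u u' p := by
          simp only [cross, Complex.sub_re, Complex.sub_im, ← ha]
          linear_combination (u.im - u'.im) * h0
        rw [this] at h
        exact absurd h (not_lt.2 (mul_self_nonneg _))
      exact mul_neg_of_pos_of_neg (by positivity)
        (mul_neg_of_neg_of_pos (by linarith) (by linarith [hc.2]))
  · rw [ind_neg (P := _ ∧ _ ∧ _) (fun h => hc ⟨h.1, h.2.1⟩),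
      ind_neg (P := _ ∧ _ ∧ _) (fun h => hc ⟨h.1, h.2.1⟩), ind_neg]
    · rfl
    · intro h
      have := h.1
      rw [eD] at this
      refine absurd this (not_lt.2 (mul_nonneg (sq_nonneg _) ?_))
      rcases not_and_or.1 hc with e | e
      · exact mul_nonneg (by linarith [not_le.1 e]) (by linarith [not_le.1 e])
      · exact mul_nonneg_of_nonpos_of_nonpos (by linarith [not_lt.1 e]) (by linarith [not_lt.1 e])

theorem ray_main {u u' p q : ℂ} (ha : u.im < u'.im) (hb : p.im < q.im)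
    (h1 : u ∉ segment ℝ p q) (h2 : u' ∉ segment ℝ p q) (h3 : p ∉ segment ℝ u u')
    (h4 : q ∉ segment ℝ u u') :
    ind (Cr u u' p q) = ind (p.im < u.im ∧ u.im ≤ q.im ∧ 0 < cross p q u) +
      ind (p.im < u'.im ∧ u'.im ≤ q.im ∧ 0 < cross p q u') +
      ind (u.im ≤ p.im ∧ p.im < u'.im ∧ cross u u' p < 0) +
      ind (u.im ≤ q.im ∧ q.im < u'.im ∧ cross u u' q < 0) := by
  have α0 : 0 < u'.im - u.im := by linarith
  have β0 : 0 < q.im - p.im := by linarith
  set d := (u'.re - u.re) * (q.im - p.im) - (u'.im - u.im) * (q.re - p.re) with hd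
  set r := (u'.im - u.im) * cross p q u + d * u.im with hr
  have e1 : r - d * u.im = (u'.im - u.im) * cross p q u := by rw [hr]; ring
  have e2 : r - d * u'.im = (u'.im - u.im) * cross p q u' := by
    simp only [hr, hd, cross, Complex.sub_re, Complex.sub_im]; ring
  have e3 : r - d * p.im = (q.im - p.im) * -cross u u' p := by
    simp only [hr, hd, cross, Complex.sub_re, Complex.sub_im]; ring
  have e4 : r - d * q.im = (q.im - p.im) * -cross u u' q := by
    simp only [hr, hd, cross, Complex.sub_re, Complex.sub_im]; ring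
  have key := order4 (r := r) (d := d) ha hb
    (fun x y => by
      rw [e1]; exact mul_ne_zero α0.ne' fun h => h1 (mem_seg_of_cross hb x y h))
    (fun x y => by
      rw [e2]; exact mul_ne_zero α0.ne' fun h => h2 (mem_seg_of_cross hb x y h))
    (fun x y => by
      rw [e3]; exact mul_ne_zero β0.ne' (neg_ne_zero.2 fun h => h3 (mem_seg_of_cross ha x y h)))
    (fun x y => by
      rw [e4]; exact mul_ne_zero β0.ne' (neg_ne_zero.2 fun h => h4 (mem_seg_of_cross ha x y h)))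
  rw [e1, e2, e3, e4] at key
  simp only [mul_pos_iff_of_pos_left α0, mul_pos_iff_of_pos_left β0, neg_pos] at key
  rw [← key]
  refine ind_congr (and_congr ?_ ?_)
  · rw [mul_mul_mul_comm, mul_neg_iff_pos (mul_pos α0 α0)]
  · rw [mul_mul_mul_comm, mul_neg_iff_pos (mul_pos β0 β0), neg_mul_neg]

theorem ray_le {u u' p q : ℂ} (ha : u.im ≤ u'.im) (hb : p.im ≤ q.im)
    (h1 : u ∉ segment ℝ p q) (h2 : u' ∉ segment ℝ p q) (h3 : p ∉ segment ℝ u u')
    (h4 : q ∉ segment ℝ u u') :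
    ind (Cr u u' p q) = X u p q + X u' p q + Y p u u' + Y q u u' := by
  have n1 : ∀ (z : ℝ) (P : Prop), ind (q.im < z ∧ z ≤ p.im ∧ P) = 0 := fun z P =>
    ind_neg fun h => by linarith [h.1, h.2.1]
  have n2 : ∀ (z : ℝ) (P : Prop), ind (u'.im ≤ z ∧ z < u.im ∧ P) = 0 := fun z P =>
    ind_neg fun h => by linarith [h.1, h.2.1]
  simp only [X, Y, n1, n2, add_zero]
  rcases ha.eq_or_lt with ha | ha
  · rw [ray_horiz ha hb h1 h2 h4, ← ha, ind_neg (P := u.im ≤ p.im ∧ _) (fun h => by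
      linarith [h.1, h.2.1]), ind_neg (P := u.im ≤ q.im ∧ q.im < _ ∧ _) (fun h => by
      linarith [h.1, h.2.1])]
    simp
  rcases hb.eq_or_lt with hb | hb
  · rw [ray_horiz' hb ha h1 h3 h4, ← hb, ind_neg (P := p.im < u.im ∧ _) (fun h => by
      linarith [h.1, h.2.1]), ind_neg (P := p.im < u'.im ∧ u'.im ≤ _ ∧ _) (fun h => by
      linarith [h.1, h.2.1])]
    simp
  exact ray_main ha hb h1 h2 h3 h4

/-- the crossing parity in terms of rays -/
theorem ray {u u' p q : ℂ} (h1 : u ∉ segment ℝ p q) (h2 : u' ∉ segment ℝ p q)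
    (h3 : p ∉ segment ℝ u u') (h4 : q ∉ segment ℝ u u') :
    ind (Cr u u' p q) = X u p q + X u' p q + Y p u u' + Y q u u' := by
  rcases le_total u.im u'.im with ha | ha <;> rcases le_total p.im q.im with hb | hb
  · exact ray_le ha hb h1 h2 h3 h4
  · rw [segment_symm] at h1 h2
    rw [← Cr_swap, ray_le ha hb h1 h2 h4 h3, X_swap u, X_swap u']; ring
  · rw [segment_symm] at h3 h4
    rw [← Cr_swap', ray_le ha hb h2 h1 h3 h4, Y_swap p, Y_swap q]; ring
  · rw [segment_symm] at h1 h2 h3 h4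
    rw [← Cr_swap, ← Cr_swap', ray_le ha hb h2 h1 h4 h3, X_swap u, X_swap u', Y_swap p, Y_swap q]
    ring

theorem X_left {z p q : ℂ} (hp : z.re < p.re) (hq : z.re < q.re) :
    X z p q = ind (p.im < z.im) + ind (q.im < z.im) := by
  have e1 : p.im < z.im → z.im ≤ q.im → 0 < cross p q z := fun a b => by
    simp only [cross, Complex.sub_re, Complex.sub_im]; nlinarith
  have e2 : q.im < z.im → z.im ≤ p.im → cross p q z < 0 := fun a b => by
    simp only [cross, Complex.sub_re, Complex.sub_im]; nlinarith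
  unfold X ind
  split_ifs <;> first | rfl | (exfalso; grind)

theorem X_right {z p q : ℂ} (hp : p.re ≤ z.re) (hq : q.re ≤ z.re) : X z p q = 0 := by
  unfold X
  rw [ind_neg, ind_neg, add_zero]
  · rintro ⟨a, b, c⟩
    simp only [cross, Complex.sub_re, Complex.sub_im] at c; nlinarith
  · rintro ⟨a, b, c⟩
    simp only [cross, Complex.sub_re, Complex.sub_im] at c; nlinarith

theorem X_top {z p q : ℂ} (hp : p.im < z.im) (hq : q.im < z.im) : X z p q = 0 := by
  unfold X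
  rw [ind_neg (fun h => by linarith [h.2.1]), ind_neg (fun h => by linarith [h.2.1]), add_zero]

theorem X_bot {z p q : ℂ} (hp : z.im ≤ p.im) (hq : z.im ≤ q.im) : X z p q = 0 := by
  unfold X
  rw [ind_neg (fun h => by linarith [h.1]), ind_neg (fun h => by linarith [h.1]), add_zero]

theorem Y_top {v u u' : ℂ} (hp : u.im ≤ v.im) (hq : u'.im ≤ v.im) : Y v u u' = 0 := by
  unfold Y
  rw [ind_neg (fun h => by linarith [h.2.1]), ind_neg (fun h => by linarith [h.2.1]), add_zero]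

theorem Y_bot {v u u' : ℂ} (hp : v.im < u.im) (hq : v.im < u'.im) : Y v u u' = 0 := by
  unfold Y
  rw [ind_neg (fun h => by linarith [h.1]), ind_neg (fun h => by linarith [h.1]), add_zero]

theorem exists_weights {x y : ℝ} (h : x * y < 0) :
    ∃ s t : ℝ, 0 < s ∧ 0 < t ∧ s + t = 1 ∧ s * x + t * y = 0 ∧ x ≠ y := by
  rcases mul_neg_iff.1 h with h | h
  · have : 0 < x - y := by linarith [h.1, h.2]
    exact ⟨-y / (x - y), x / (x - y), div_pos (by linarith [h.2]) this, div_pos h.1 this,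
      by field_simp; ring, by field_simp; ring, (by linarith [h.1, h.2] : y < x).ne'⟩
  · have : 0 < y - x := by linarith [h.1, h.2]
    exact ⟨y / (y - x), -x / (y - x), div_pos h.2 this, div_pos (by linarith [h.1]) this,
      by field_simp; ring, by field_simp; ring, (by linarith [h.1, h.2] : x < y).ne⟩

/-- crossing segments meet -/
theorem Cr.meet {u u' p q : ℂ} (h : Cr u u' p q) :
    ∃ x, x ∈ openSegment ℝ u u' ∧ x ∈ openSegment ℝ p q := by
  obtain ⟨s, t, hs, ht, hst, e, hne⟩ := exists_weights h.1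
  obtain ⟨s', t', hs', ht', hst', e', -⟩ := exists_weights h.2
  refine ⟨_, ⟨s, t, hs, ht, hst, rfl⟩, s', t', hs', ht', hst', ?_⟩
  obtain rfl : t = 1 - s := by linarith
  obtain rfl : t' = 1 - s' := by linarith
  have hd := sub_ne_zero.2 hne
  simp only [cross, Complex.sub_re, Complex.sub_im] at e e' hd
  apply Complex.ext
  · simp only [Complex.add_re, Complex.smul_re, smul_eq_mul]
    apply mul_left_cancel₀ hd
    linear_combination (u'.re - u.re) * e + (q.re - p.re) * e'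
  · simp only [Complex.add_im, Complex.smul_im, smul_eq_mul]
    apply mul_left_cancel₀ hd
    linear_combination (u'.im - u.im) * e + (q.im - p.im) * e'

theorem cr_of_meet {u u' p q x : ℂ} (h1 : x ∈ openSegment ℝ u u') (h2 : x ∈ openSegment ℝ p q)
    (h0 : cross p q u ≠ 0) : Cr u u' p q := by
  obtain ⟨s, t, hs, ht, hst, rfl⟩ := h1
  obtain ⟨s', t', hs', ht', hst', e⟩ := h2
  obtain rfl : t = 1 - s := by linarith
  obtain rfl : t' = 1 - s' := by linarith
  have er := congrArg Complex.re e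
  have ei := congrArg Complex.im e
  simp only [Complex.add_re, Complex.smul_re, Complex.add_im, Complex.smul_im, smul_eq_mul] at er ei
  have a1 : s * cross p q u + (1 - s) * cross p q u' = 0 := by
    simp only [cross, Complex.sub_re, Complex.sub_im]
    linear_combination (q.im - p.im) * er - (q.re - p.re) * ei
  have a2 : s' * cross u u' p + (1 - s') * cross u u' q = 0 := by
    simp only [cross, Complex.sub_re, Complex.sub_im]
    linear_combination (u'.re - u.re) * ei - (u'.im - u.im) * er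
  have a3 : cross u u' q - cross u u' p = cross p q u - cross p q u' := by
    simp only [cross, Complex.sub_re, Complex.sub_im]; ring
  have b1 : cross p q u * cross p q u' < 0 := by
    have : (1 - s) * (cross p q u * cross p q u') = -(s * cross p q u ^ 2) := by
      linear_combination cross p q u * a1
    have h2 : 0 < s * cross p q u ^ 2 := by positivity
    nlinarith
  refine ⟨b1, ?_⟩
  have b2 : cross u u' p ≠ 0 := by
    intro h
    rw [h] at a2 a3
    have : cross u u' q = 0 := by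
      rcases mul_eq_zero.1 (by linarith : (1 - s') * cross u u' q = 0) with h | h
      · linarith
      · exact h
    rw [this] at a3
    rw [show cross p q u' = cross p q u by linarith] at b1
    exact absurd b1 (not_lt.2 (mul_self_nonneg _))
  have : (1 - s') * (cross u u' p * cross u u' q) = -(s' * cross u u' p ^ 2) := by
    linear_combination cross u u' p * a2
  have h2 : 0 < s' * cross u u' p ^ 2 := by positivity
  nlinarith

end Pool.Agent.MP_3b5bbf_co.Up

end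

section

/-! The parity of the layers above a side of the sheet. -/

namespace Pool.Agent.MP_3b5bbf_co.Up

open Set

theorem sum_pair {α : Type*} [Fintype α] (φ : α → ZMod 2) (r : α → α → Prop)
    (hex : ∀ a, φ a ≠ 0 → ∃ b, r a b) (huniq : ∀ a b c, r a b → r a c → b = c)
    (hsymm : ∀ a b, r a b → r b a) (hirr : ∀ a, ¬ r a a) (hφ : ∀ a b, r a b → φ a = φ b) :
    ∑ a, φ a = 0 := by
  classical
  let s : α → α := fun a => if h : ∃ b, r a b then h.choose else a
  have s1 : ∀ a, (∃ b, r a b) → r a (s a) := fun a h => by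
    simp only [s, dif_pos h]; exact h.choose_spec
  have s2 : ∀ a, ¬ (∃ b, r a b) → s a = a := fun a h => by simp only [s, dif_neg h]
  refine Finset.sum_involution (fun a _ => s a) ?_ ?_ (fun _ _ => Finset.mem_univ _) ?_
  · intro a _
    by_cases h : ∃ b, r a b
    · rw [← hφ _ _ (s1 a h), add_self2]
    · rw [s2 a h, add_self2]
  · intro a _ h e
    exact hirr a (by simpa [e] using s1 a (hex a h))
  · intro a _
    by_cases h : ∃ b, r a b
    · have := hsymm _ _ (s1 a h)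
      exact huniq _ _ _ (s1 _ ⟨_, this⟩) this
    · rw [s2 a h, s2 a h]

variable (F : FlatFolding)

/-- the side `X` (white if true) of triangle `i` faces down -/
def Dn (X : Bool) (i : Fin F.n) : Prop := F.WhiteUp i ↔ X = false

/-- layer `j` is above the side `X` of layer `i` -/
def abv (X : Bool) (j i : Fin F.n) : Prop := E F j i ∧ (F.above j i ∨ (j = i ∧ Dn F X i))

/-- parity of the marked layers above the side `X` of layer `i` over the point `z` -/
noncomputable def Psi (χ : ℂ → ZMod 2) (X : Bool) (i : Fin F.n) (z : ℂ) : ZMod 2 :=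
  ∑ j, ind (abv F X j i) * χ (g F j z)

/-- `i` and `i'` share the side `a b` -/
def Sh (i i' : Fin F.n) (a b : ℂ) : Prop :=
  i ≠ i' ∧ a ≠ b ∧ a ∈ range (F.v i) ∩ range (F.v i') ∧ b ∈ range (F.v i) ∩ range (F.v i')

variable {F} {i j i' j' : Fin F.n} {a b c d p z : ℂ} {X : Bool}

theorem Sh.symm (h : Sh F i i' a b) : Sh F i' i a b :=
  ⟨h.1.symm, h.2.1, h.2.2.1.symm, h.2.2.2.symm⟩

theorem asym (e : E F i j) (h : F.above i j) : ¬ F.above j i := fun h' =>
  F.irrefl i (F.trans i j i (E_iff.1 e) (E_iff.1 e.symm) h h')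

theorem total' (e : E F i j) (h : i ≠ j) : F.above i j ∨ F.above j i := F.total i j h (E_iff.1 e)

theorem taco' (s : Sh F i i' a b) (s' : Sh F j j' c d) (h1 : F.f c = F.f a) (h2 : F.f d = F.f b)
    (e : E F i' i) (e' : E F j i) (u : F.above j i) (u' : F.above i' j) :
    E F j' i ∧ F.above j' i ∧ F.above i' j' := by
  have := F.taco i i' j j' a b c d s.1 s'.1 s.2.1 s.2.2.1 s.2.2.2 s'.2.2.1 s'.2.2.2 h1 h2
    (E_iff.1 e) (E_iff.1 e') u u'
  exact ⟨E_iff.2 this.1, this.2⟩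

theorem tortilla' (s : Sh F i i' a b) (s' : Sh F j j' c d) (h1 : F.f c = F.f a)
    (h2 : F.f d = F.f b) (e : ¬ E F i' i) (e' : E F j i) (e'' : E F j' i') (u : F.above j i) :
    F.above j' i' :=
  F.tortilla i i' j j' a b c d s.1 s'.1 s.2.1 s.2.2.1 s.2.2.2 s'.2.2.1 s'.2.2.2 h1 h2
    (fun h => e (E_iff.2 h)) (E_iff.1 e') (E_iff.1 e'') u

theorem abv_ne (h : j ≠ i) : abv F X j i ↔ E F j i ∧ F.above j i := by simp [abv, h]

theorem abv_self : abv F X i i ↔ Dn F X i := by simp [abv, F.irrefl i, E.refl]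

theorem fold_formula (e : E F i i') (h : j ≠ i) (h' : j ≠ i') :
    ind (abv F X j i) + ind (abv F X j i') =
      ind (E F j i ∧ ((F.above j i ∧ F.above i' j) ∨ (F.above j i' ∧ F.above i j))) := by
  rw [abv_ne h, abv_ne h']
  by_cases e1 : E F j i
  · have e2 := e1.trans e
    rcases total' e1 h with u | u <;> rcases total' e2 h' with u' | u'
    · simp [ind, e1, e2, u, u', asym e1 u, asym e2 u', add_self2]
    · simp [ind, e1, e2, u, u', asym e2.symm u']
    · simp [ind, e1, e2, u, u', asym e1.symm u]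
    · simp [ind, e1, e2, u, u', asym e1.symm u, asym e2.symm u']
  · have e2 : ¬ E F j i' := fun h => e1 (h.trans e.symm)
    simp [ind, e1, e2]

theorem flat_aux (s : Sh F i i' a b) (s' : Sh F j j' c d) (h1 : F.f c = F.f a)
    (h2 : F.f d = F.f b) (e : ¬ E F i i') (e1 : E F j i) (e2 : E F j' i) (n : j' ≠ i)
    (u : F.above j i) : F.above j' i := by
  rcases total' e2 n with u' | u'
  · exact u'
  · exact absurd ((taco' s'.symm s h1.symm h2.symm (e1.trans e2.symm) e2.symm u' u).1.trans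
      e2).symm e

theorem flat_half (s : Sh F i i' a b) (s' : Sh F j j' c d) (h1 : F.f c = F.f a)
    (h2 : F.f d = F.f b) (e : ¬ E F i i') (e1 : E F j i) (e2 : E F j' i ∨ E F j' i')
    (n1 : j ≠ i) (n2 : j ≠ i') (n3 : j' ≠ i) (n4 : j' ≠ i') :
    ind (abv F X j i) + ind (abv F X j i') = ind (abv F X j' i) + ind (abv F X j' i') := by
  rw [abv_ne n1, abv_ne n2, abv_ne n3, abv_ne n4]
  have e3 : ¬ E F j i' := fun h => e (e1.symm.trans h)
  rcases e2 with e2 | e2
  · have e4 : ¬ E F j' i' := fun h => e (e2.symm.trans h)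
    have : F.above j i ↔ F.above j' i :=
      ⟨flat_aux s s' h1 h2 e e1 e2 n3, flat_aux s s'.symm h1 h2 e e2 e1 n1⟩
    simp [e1, e2, e3, e4, this]
  · have e4 : ¬ E F j' i := fun h => e (h.symm.trans e2)
    have : F.above j i ↔ F.above j' i' :=
      ⟨tortilla' s s' h1 h2 (fun h => e h.symm) e1 e2, tortilla' s.symm s'.symm h1 h2 e e2 e1⟩
    simp [e1, e2, e3, e4, this]

theorem sign_aux {x y x' y' : ℝ} (h : y * y' < 0) (hx : x ≠ 0) (hx' : x' ≠ 0) :
    (0 < x * y ↔ 0 < x' * y') ↔ ¬ 0 < x * x' := by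
  rcases mul_neg_iff.1 h with h | h <;> rcases lt_or_gt_of_ne hx with hx | hx <;>
    rcases lt_or_gt_of_ne hx' with hx' | hx' <;>
    simp [mul_pos_iff, h.1, h.2, hx, hx', h.1.not_gt, h.2.not_gt, hx.not_gt, hx'.not_gt]

/-- the parity does not depend on the triangle -/
theorem psi_eq {χ : ℂ → ZMod 2} (hχ : ∀ x ∈ square 1, x ∉ Opn → χ x = 0) (hi : p ∈ T F i)
    (hi' : p ∈ T F i') (hp : NV F (F.f p)) : Psi F χ X i (F.f p) = Psi F χ X i' (F.f p) := by
  by_cases hne : i = i'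
  · rw [hne]
  obtain ⟨a, b, c, c', v1, v2, hs, hc⟩ := shared hi hi' hne (hp.not_range i)
  have w1 : Vs (fv F i) (F.f a) (F.f b) (F.f c) := v1.map F.f
  have w2 : Vs (fv F i') (F.f a) (F.f b) (F.f c') := v2.map F.f
  have hz : F.f p ∈ openSegment ℝ (F.f a) (F.f b) :=
    f_oseg (mem_tri_of_range v1.mem1) (mem_tri_of_range v1.mem2) hs
  have sh : Sh F i i' a b := ⟨hne, v1.ne (dv i), ⟨v1.mem1, v2.mem1⟩, ⟨v1.mem2, v2.mem2⟩⟩
  have col : (Dn F X i ↔ Dn F X i') ↔ ¬ E F i i' := by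
    rw [E_iff_side w1 w2, ← sign_aux hc (w1.cross_ne (dfv i)) (w2.cross_ne (dfv i')),
      ← white_iff v1, ← white_iff v2]
    unfold Dn
    tauto
  apply z2_eq_of_add
  unfold Psi
  rw [← Finset.sum_add_distrib]
  simp only [← add_mul]
  refine sum_pair _ (fun j j' => F.f p ∈ TI F j ∧ j ≠ j' ∧ g F j (F.f p) ∈ T F j') ?_ ?_ ?_ ?_ ?_
  · intro j h
    have h1 : F.f p ∈ TI F j := by
      by_contra hn
      apply left_ne_zero_of_mul h
      rw [ind_neg (P := abv F X j i) (fun e => hn (e.1 ▸ f_mem hi : _ ∈ TI F j)),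
        ind_neg (P := abv F X j i') (fun e => hn (e.1 ▸ f_mem hi' : _ ∈ TI F j)), add_zero]
    have h2 : g F j (F.f p) ∈ Opn := by
      by_contra hn
      exact right_ne_zero_of_mul h (hχ _ (T_sub (g_mem h1)) hn)
    have h3 : g F j (F.f p) ∉ In F j := fun hn => by
      have := f_mem_O hn
      rw [f_g h1] at this
      exact w1.not_inn (dfv i) (openSegment_subset_segment ℝ _ _ hz)
        ((E_of_O this (f_mem hi)).O_eq ▸ this : _ ∈ OI F i)
    obtain ⟨j', n, h4⟩ := partner_exists (g_mem h1) h3 h2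
    exact ⟨j', h1, n.symm, h4⟩
  · rintro j j' j'' ⟨h1, n1, h2⟩ ⟨-, n2, h3⟩
    exact partner_unique (g_mem h1) h2 h3 n1 n2 (NV.not_range (by rwa [f_g h1]) j)
  · rintro j j' ⟨h1, n1, h2⟩
    have e := g_f h2
    rw [f_g h1] at e
    exact ⟨by simpa only [f_g h1] using f_mem h2, n1.symm, e ▸ g_mem h1⟩
  · exact fun j h => h.2.1 rfl
  rintro j j' ⟨h1, n1, h2⟩
  have e := g_f h2
  rw [f_g h1] at e
  rw [e]
  congr 1
  have h1' : F.f p ∈ TI F j' := by simpa only [f_g h1] using f_mem h2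
  have uq : ∀ {k k' l l' : Fin F.n}, k = l → p ∈ T F l → p ∈ T F l' → l ≠ l' → k ≠ k' →
      g F k (F.f p) ∈ T F k' → k' = l' := by
    rintro k k' l l' rfl a1 a2 a3 a4 a5
    rw [g_f a1] at a5
    exact partner_unique a1 a5 a2 a4 a3 (hp.not_range _)
  have own : ind (abv F X i i) + ind (abv F X i i') = ind (abv F X i' i) + ind (abv F X i' i') := by
    rw [abv_self, abv_self, abv_ne hne, abv_ne (Ne.symm hne)]
    by_cases e : E F i i'
    · have c1 : Dn F X i' ↔ ¬ Dn F X i := by tauto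
      rcases total' e hne with u | u <;> by_cases dn : Dn F X i <;>
        simp [ind, e, e.symm, u, c1, dn, asym e, asym e.symm, add_self2]
    · have c1 : Dn F X i' ↔ Dn F X i := by tauto
      have e' : ¬ E F i' i := fun h => e h.symm
      simp [e, e', c1]
  by_cases n2 : j = i
  · rw [uq n2 hi hi' hne n1 h2, n2]; exact own
  by_cases n3 : j = i'
  · rw [uq n3 hi' hi (Ne.symm hne) n1 h2, n3]; exact own.symm
  have h2' : g F j' (F.f p) ∈ T F j := e ▸ g_mem h1
  have n4 : j' ≠ i := fun h => n3 (uq h hi hi' hne n1.symm h2')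
  have n5 : j' ≠ i' := fun h => n2 (uq h hi' hi (Ne.symm hne) n1.symm h2')
  obtain ⟨C, x1⟩ := (meetI i j).edge (dfv i) w1 hz h1
  obtain ⟨a2, b2, c2, x2, ea, eb, ec⟩ := x1.unmap
  have x3 : g F j (F.f p) ∈ openSegment ℝ a2 b2 :=
    g_oseg (mem_tri_of_range x2.mem1) (mem_tri_of_range x2.mem2) (by rwa [ea, eb])
  obtain ⟨c2', x4⟩ := (meetP j j').edge (dv j) x2 x3 h2
  have sh' : Sh F j j' a2 b2 := ⟨n1, x2.ne (dv j), ⟨x2.mem1, x4.mem1⟩, ⟨x2.mem2, x4.mem2⟩⟩
  by_cases e : E F i i'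
  · rw [fold_formula e n2 n3, fold_formula e n4 n5]
    have key : ∀ {j j' : Fin F.n}, Sh F j j' a2 b2 →
        E F j i ∧ ((F.above j i ∧ F.above i' j) ∨ (F.above j i' ∧ F.above i j)) →
        E F j' i ∧ ((F.above j' i ∧ F.above i' j') ∨ (F.above j' i' ∧ F.above i j')) := by
      rintro j j' s ⟨e1, u | u⟩
      · have := taco' sh s ea eb e.symm e1 u.1 u.2
        exact ⟨this.1, Or.inl this.2⟩
      · have := taco' sh.symm s ea eb e (e1.trans e) u.1 u.2
        exact ⟨this.1.trans e.symm, Or.inr this.2⟩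
    exact ind_congr ⟨key sh', key sh'.symm⟩
  · have two : ∀ {k : Fin F.n}, F.f p ∈ TI F k → E F k i ∨ E F k i' := by
      intro k hk
      obtain ⟨C, y1⟩ := (meetI i k).edge (dfv i) w1 hz hk
      rw [E_iff_side w1 w2] at e
      rw [E_iff_side y1 w1, E_iff_side y1 w2]
      have a1 := y1.cross_ne (dfv k)
      have a2 := w1.cross_ne (dfv i)
      have a3 := w2.cross_ne (dfv i')
      rcases lt_or_gt_of_ne a1 with a1 | a1 <;> rcases lt_or_gt_of_ne a2 with a2 | a2 <;>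
        rcases lt_or_gt_of_ne a3 with a3 | a3 <;>
        simp_all [mul_pos_iff]
    rcases two h1 with e1 | e1
    · exact flat_half sh sh' ea eb e e1 (two h1') n2 n3 n4 n5
    · rw [add_comm, add_comm (ind (abv F X j' i))]
      exact flat_half sh.symm sh' ea eb (fun h => e h.symm) e1 (two h1').symm n3 n2 n5 n4

theorem psi_top {χ : ℂ → ZMod 2} (ht : F.IsTop i) (hX : ¬ Dn F X i) (z : ℂ) :
    Psi F χ X i z = 0 := by
  refine Finset.sum_eq_zero fun j _ => ?_
  rw [ind_neg, zero_mul]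
  rintro ⟨e, u | u⟩
  · exact ht j (E_iff.1 e) u
  · exact hX u.2

theorem abv_add (e : E F j i) : ind (abv F X j i) + ind (abv F (!X) i j) = 1 := by
  by_cases h : j = i
  · subst h
    rw [abv_self, abv_self]
    unfold Dn
    by_cases w : F.WhiteUp j <;> cases X <;> simp [ind, w]
  · rw [abv_ne h, abv_ne (Ne.symm h)]
    rcases total' e h with u | u
    · simp [ind, e, u, asym e u]
    · simp [ind, e.symm, u, asym e.symm u]

end Pool.Agent.MP_3b5bbf_co.Up

end

section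

/-! Chains of segments and the linking parity. -/

namespace Pool.Agent.MP_3b5bbf_co.Up

open Set

/-- sum over a multiset -/
def sm {α : Type*} (π : Multiset α) (φ : α → ZMod 2) : ZMod 2 := (π.map φ).sum

section
variable {α β : Type*} {π π' : Multiset α} {φ ψ : α → ZMod 2}

theorem sm_add (π π' : Multiset α) (φ : α → ZMod 2) : sm (π + π') φ = sm π φ + sm π' φ := by
  simp [sm]

theorem sm_congr (h : ∀ s ∈ π, φ s = ψ s) : sm π φ = sm π ψ := by
  unfold sm; rw [Multiset.map_congr rfl h]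

theorem sm_zero (h : ∀ s ∈ π, φ s = 0) : sm π φ = 0 := by
  rw [sm_congr (ψ := fun _ => 0) h]; simp [sm]

theorem sm_add_fun (π : Multiset α) (φ ψ : α → ZMod 2) :
    sm π (fun s => φ s + ψ s) = sm π φ + sm π ψ := Multiset.sum_map_add

theorem sm_comm (π : Multiset α) (μ : Multiset β) (φ : α → β → ZMod 2) :
    sm π (fun s => sm μ (φ s)) = sm μ (fun t => sm π (fun s => φ s t)) :=
  Multiset.sum_map_sum_map _ _

theorem sm_sum (π : Multiset α) (S : Finset β) (φ : α → β → ZMod 2) :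
    sm π (fun s => ∑ t ∈ S, φ s t) = ∑ t ∈ S, sm π (fun s => φ s t) :=
  Multiset.sum_map_sum_map _ _

theorem sm_mul (π : Multiset α) (a : ZMod 2) (φ : α → ZMod 2) :
    sm π (fun s => a * φ s) = a * sm π φ := Multiset.sum_map_mul_left

end

variable (F : FlatFolding)

/-- a segment in a triangle -/
abbrev Seg : Type := Fin F.n × ℂ × ℂ

variable {F}

/-- boundary of a chain, tested against `A` -/
def bd (π : Multiset (Seg F)) (A : ℂ → ZMod 2) : ZMod 2 := sm π fun s => A s.2.1 + A s.2.2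

/-- winding parity -/
noncomputable def chi (π : Multiset (Seg F)) (z : ℂ) : ZMod 2 := sm π fun s => X z s.2.1 s.2.2

/-- cycles -/
def Cyc (π : Multiset (Seg F)) : Prop := ∀ A, bd π A = 0

theorem bd_add (π π' : Multiset (Seg F)) (A : ℂ → ZMod 2) : bd (π + π') A = bd π A + bd π' A :=
  sm_add _ _ _

variable {π lam : Multiset (Seg F)} {u u' z p : ℂ} {i : Fin F.n} {C : Bool}

theorem chi_jump (h : Cyc π) (hg : ∀ s ∈ π, u ∉ segment ℝ s.2.1 s.2.2 ∧
    u' ∉ segment ℝ s.2.1 s.2.2 ∧ s.2.1 ∉ segment ℝ u u' ∧ s.2.2 ∉ segment ℝ u u') :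
    chi π u + chi π u' = sm π fun s => ind (Cr u u' s.2.1 s.2.2) := by
  rw [sm_congr fun s hs => ray (hg s hs).1 (hg s hs).2.1 (hg s hs).2.2.1 (hg s hs).2.2.2]
  have := h fun v => Y v u u'
  unfold bd at this
  simp only [add_assoc, sm_add_fun] at this ⊢
  rw [this, add_zero]; rfl

theorem chi_left (h : Cyc π) (hz : ∀ s ∈ π, z.re < s.2.1.re ∧ z.re < s.2.2.re) : chi π z = 0 := by
  unfold chi
  rw [sm_congr fun s hs => X_left (hz s hs).1 (hz s hs).2]
  exact h fun v => ind (v.im < z.im)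

theorem chi_out (h : Cyc π) (ho : ∀ s ∈ π, s.2.1 ∈ Opn ∧ s.2.2 ∈ Opn) :
    ∀ x ∈ square 1, x ∉ Opn → chi π x = 0 := by
  rintro x ⟨x1, x2, x3, x4⟩ hx
  by_cases a1 : x.re ≤ 0
  · exact chi_left h fun s hs => ⟨a1.trans_lt (ho s hs).1.1, a1.trans_lt (ho s hs).2.1⟩
  by_cases a2 : 1 ≤ x.re
  · exact sm_zero fun s hs => X_right ((ho s hs).1.2.1.le.trans a2) ((ho s hs).2.2.1.le.trans a2)
  by_cases a3 : x.im ≤ 0
  · exact sm_zero fun s hs => X_bot (a3.trans (ho s hs).1.2.2.1.le) (a3.trans (ho s hs).2.2.2.1.le)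
  by_cases a4 : 1 ≤ x.im
  · exact sm_zero fun s hs => X_top ((ho s hs).1.2.2.2.trans_le a4) ((ho s hs).2.2.2.2.trans_le a4)
  exact absurd ⟨not_le.1 a1, not_le.1 a2, not_le.1 a3, not_le.1 a4⟩ hx

theorem chi_box (h : Cyc π) {D : ℝ} (hz : ∀ s ∈ π, dist s.2.1 u ≤ D ∧ dist s.2.2 u ≤ D)
    (h0 : chi π z ≠ 0) : |z.re - u.re| ≤ D ∧ |z.im - u.im| ≤ D := by
  have k1 : ∀ x : ℂ, dist x u ≤ D → |x.re - u.re| ≤ D ∧ |x.im - u.im| ≤ D := fun x hx => by
    rw [dist_eq_norm] at hx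
    exact ⟨(Complex.abs_re_le_norm (x - u)).trans hx, (Complex.abs_im_le_norm (x - u)).trans hx⟩
  have k2 : ∀ s ∈ π, _ := fun s hs => And.intro (k1 _ (hz s hs).1) (k1 _ (hz s hs).2)
  simp only [abs_le] at k2 ⊢
  refine ⟨⟨?_, ?_⟩, ?_, ?_⟩ <;> by_contra hn <;> apply h0
  · exact chi_left h fun s hs => ⟨by linarith [(k2 s hs).1.1.1], by linarith [(k2 s hs).2.1.1]⟩
  · exact sm_zero fun s hs => X_right (by linarith [(k2 s hs).1.1.2])
      (by linarith [(k2 s hs).2.1.2])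
  · exact sm_zero fun s hs => X_bot (by linarith [(k2 s hs).1.2.1]) (by linarith [(k2 s hs).2.2.1])
  · exact sm_zero fun s hs => X_top (by linarith [(k2 s hs).1.2.2]) (by linarith [(k2 s hs).2.2.2])

/-- good segments -/
def Sg (s : Seg F) : Prop := s.2.1 ∈ T F s.1 ∧ Reg F s.2.1 ∧ s.2.2 ∈ In F s.1

/-- general position of two segments -/
def GP (s t : Seg F) : Prop :=
  F.f t.2.1 ∉ segment ℝ (F.f s.2.1) (F.f s.2.2) ∧ F.f t.2.2 ∉ segment ℝ (F.f s.2.1) (F.f s.2.2) ∧
    F.f s.2.1 ∉ segment ℝ (F.f t.2.1) (F.f t.2.2) ∧ F.f s.2.2 ∉ segment ℝ (F.f t.2.1) (F.f t.2.2)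

/-- the images cross -/
def CrI (s t : Seg F) : Prop := Cr (F.f t.2.1) (F.f t.2.2) (F.f s.2.1) (F.f s.2.2)

theorem GP.symm {s t : Seg F} (h : GP s t) : GP t s := ⟨h.2.2.1, h.2.2.2, h.1, h.2.1⟩

theorem Sg.snd {s : Seg F} (h : Sg s) : s.2.2 ∈ T F s.1 := inn_sub (dv _) h.2.2

theorem oseg_inn {w : Fin 3 → ℂ} (hw : dd w ≠ 0) {p q x : ℂ} (hp : p ∈ tri w) (hq : q ∈ inn w)
    (hx : x ∈ openSegment ℝ p q) : x ∈ inn w := by
  obtain ⟨s, t, hs, ht, hst, rfl⟩ := hx
  rw [add_comm]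
  exact inn_aff hq hw hp ht hs.le (by linarith)

theorem Cr_f {a b c d : ℂ} (ha : a ∈ T F i) (hb : b ∈ T F i) (hc : c ∈ T F i) (hd : d ∈ T F i) :
    Cr (F.f a) (F.f b) (F.f c) (F.f d) ↔ Cr a b c d := by
  obtain ⟨e, he, h⟩ := cross_f i
  unfold Cr
  rw [h _ hc _ hd _ ha, h _ hc _ hd _ hb, h _ ha _ hb _ hc, h _ ha _ hb _ hd, mul_mul_mul_comm,
    mul_mul_mul_comm e (cross a b c), ← sq, he, one_mul, one_mul]

theorem CrI.E {s t : Seg F} (h : CrI s t) (hs : Sg s) (ht : Sg t) : E F s.1 t.1 := by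
  obtain ⟨x, x1, x2⟩ := h.meet
  exact E_of_O (oseg_inn (dfv _) (f_mem hs.1) (f_mem_O hs.2.2) x2)
    (inn_sub (dfv _) (oseg_inn (dfv _) (f_mem ht.1) (f_mem_O ht.2.2) x1))

open Classical in
/-- the parity above the side `C` of the point `p` -/
noncomputable def Bf (F : FlatFolding) (χ : ℂ → ZMod 2) (C : Bool) (p : ℂ) : ZMod 2 :=
  if h : ∃ i, p ∈ T F i then Psi F χ C h.choose (F.f p) else 0

theorem Bf_eq {χ : ℂ → ZMod 2} (hχ : ∀ x ∈ square 1, x ∉ Opn → χ x = 0) (hi : p ∈ T F i)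
    (hp : NV F (F.f p)) : Bf F χ C p = Psi F χ C i (F.f p) := by
  have h : ∃ i, p ∈ T F i := ⟨i, hi⟩
  rw [Bf, dif_pos h]
  exact psi_eq hχ h.choose_spec hi hp

theorem Sg.opn (h : ∀ s ∈ π, Sg s) : ∀ s ∈ π, s.2.1 ∈ Opn ∧ s.2.2 ∈ Opn := fun s hs =>
  ⟨(h s hs).2.1.1, In_sub_Opn (h s hs).2.2⟩

theorem walk (h : Cyc lam) (hs : ∀ s ∈ lam, Sg s) {t : Seg F} (ht : Sg t)
    (hg : ∀ s ∈ lam, GP s t) :
    Bf F (chi lam) C t.2.1 + Bf F (chi lam) C t.2.2 =
      sm lam fun s => ind (abv F C s.1 t.1) * ind (CrI s t) := by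
  have ho := chi_out h (Sg.opn hs)
  rw [Bf_eq ho ht.1 ht.2.1.2, Bf_eq ho ht.snd (Reg_of_In ht.2.2).2, Psi, Psi,
    ← Finset.sum_add_distrib]
  have e : ∀ s : Seg F, ind (abv F C s.1 t.1) * ind (CrI s t) =
      ∑ j, ind (abv F C j t.1) * (ind (s.1 = j) * ind (CrI s t)) := by
    intro s
    rw [Finset.sum_eq_single s.1 (fun j _ hj => by simp [Ne.symm hj]) (by simp)]
    simp
  simp only [e, sm_sum, sm_mul]
  refine Finset.sum_congr rfl fun j _ => ?_
  rw [← mul_add]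
  by_cases hj : abv F C j t.1
  swap
  · simp [hj]
  congr 1
  have m1 : F.f t.2.1 ∈ TI F j := hj.1 ▸ f_mem ht.1
  have m2 : F.f t.2.2 ∈ TI F j := hj.1 ▸ f_mem ht.snd
  rw [chi_jump h]
  · refine sm_congr fun s hs' => ?_
    have a := hs s hs'
    by_cases e : s.1 = j
    · subst e
      rw [← Cr_f (g_mem m1) (g_mem m2) a.1 a.snd, f_g m1, f_g m2]
      simp [CrI]
    · rw [ind_neg e, zero_mul, ind_neg]
      intro hc
      obtain ⟨x, x1, x2⟩ := hc.meet
      exact e (eq_of_In (oseg_inn (dv _) a.1 a.2.2 x2) ((convex_tri _).segment_subset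
        (g_mem m1) (g_mem m2) (openSegment_subset_segment ℝ _ _ x1)))
  · intro s hs'
    have a := hs s hs'
    obtain ⟨g1, g2, g3, g4⟩ := hg s hs'
    refine ⟨fun h => g1 ?_, fun h => g2 ?_, fun h => g3 ?_, fun h => g4 ?_⟩
    · simpa only [f_g m1] using f_seg a.1 a.snd h
    · simpa only [f_g m2] using f_seg a.1 a.snd h
    · simpa only [f_g m1, f_g m2] using f_seg (g_mem m1) (g_mem m2) h
    · simpa only [f_g m1, f_g m2] using f_seg (g_mem m1) (g_mem m2) h

/-- the side `C` of the point `p` is visible -/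
def Vis (F : FlatFolding) (C : Bool) (p : ℂ) : Prop := ∃ i, p ∈ In F i ∧ F.IsTop i ∧ ¬ Dn F C i

theorem half_link {π π' μ : Multiset (Seg F)} (h : ∀ A, bd π A = bd π' A)
    (s1 : ∀ s ∈ π, Sg s) (s2 : ∀ s ∈ π', Sg s) (s3 : ∀ t ∈ μ, Sg t)
    (g1 : ∀ s ∈ π, ∀ t ∈ μ, GP s t) (g2 : ∀ s ∈ π', ∀ t ∈ μ, GP s t)
    (hv : ∀ A : ℂ → ZMod 2, (∀ p, Vis F C p → A p = 0) → bd μ A = 0)
    (nc : ∀ s ∈ π', ∀ t ∈ μ, ¬ CrI s t) :
    sm μ (fun t => sm π fun s => ind (abv F C s.1 t.1) * ind (CrI s t)) = 0 := by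
  have hc : Cyc (π + π') := fun A => by rw [bd_add, h, add_self2]
  have hs : ∀ s ∈ π + π', Sg s := fun s hs => (Multiset.mem_add.1 hs).elim (s1 s) (s2 s)
  have := hv (Bf F (chi (π + π')) C) (by
    rintro p ⟨i, hi, ht, hd⟩
    rw [Bf_eq (chi_out hc (Sg.opn hs)) (inn_sub (dv i) hi) (Reg_of_In hi).2, psi_top ht hd])
  unfold bd at this
  rw [sm_congr fun t ht => walk hc hs (s3 t ht) fun s hs =>
    (Multiset.mem_add.1 hs).elim (fun h => g1 s h t ht) (fun h => g2 s h t ht)] at this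
  rw [← this]
  refine sm_congr fun t ht => ?_
  rw [sm_add, sm_zero (π := π') fun s hs => by simp [nc s hs t ht], add_zero]

theorem link {πH πV μH μV : Multiset (Seg F)} (h1 : ∀ A, bd πV A = bd πH A)
    (h2 : ∀ A, bd μH A = bd μV A) (s1 : ∀ s ∈ πH, Sg s) (s2 : ∀ s ∈ πV, Sg s)
    (s3 : ∀ s ∈ μH, Sg s) (s4 : ∀ s ∈ μV, Sg s)
    (g1 : ∀ s ∈ πH, ∀ t ∈ μH, GP s t) (g2 : ∀ s ∈ πV, ∀ t ∈ μH, GP s t)
    (g3 : ∀ s ∈ πV, ∀ t ∈ μV, GP s t)
    (v1 : ∀ A : ℂ → ZMod 2, (∀ p, Vis F false p → A p = 0) → bd πV A = 0)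
    (v2 : ∀ A : ℂ → ZMod 2, (∀ p, Vis F true p → A p = 0) → bd μH A = 0)
    (n1 : ∀ s ∈ πH, ∀ t ∈ μH, ¬ CrI s t) (n2 : ∀ s ∈ πV, ∀ t ∈ μV, ¬ CrI s t) :
    sm πV (fun s => sm μH fun t => ind (CrI s t)) = 0 := by
  have a := half_link h1 s2 s1 s3 g2 g1 v2 n1
  have b := half_link h2 s3 s4 s2 (fun t ht s hs => (g2 s hs t ht).symm)
    (fun t ht s hs => (g3 s hs t ht).symm) v1 (fun t ht s hs h => n2 s hs t ht (Cr_comm.1 h))
  rw [← sm_comm] at a
  have ab := congrArg₂ (· + ·) a b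
  simp only [add_zero] at ab
  rw [← ab, ← sm_add_fun]
  refine sm_congr fun s hs => ?_
  rw [← sm_add_fun]
  refine sm_congr fun t ht => ?_
  by_cases hc : CrI s t
  · have hc' : CrI t s := Cr_comm.1 hc
    have := abv_add (X := true) (hc.E (s2 s hs) (s3 t ht))
    simpa [hc, hc'] using this.symm
  · have hc' : ¬ CrI t s := fun h => hc (Cr_comm.1 h)
    simp [hc, hc']

theorem planar {ι κ : Type*} [Fintype ι] [Fintype κ] {πV μH : Multiset (Seg F)} {b : ι → ℂ}
    {w : κ → ℂ} {z : ι → ZMod 2} {z' : κ → ZMod 2} (h1 : ∀ A, bd πV A = ∑ c, z c * A (b c))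
    (h2 : ∀ A, bd μH A = ∑ c, z' c * A (w c)) (g2 : ∀ s ∈ πV, ∀ t ∈ μH, GP s t)
    (a1 : ∀ t ∈ μH, ∀ c, z c ≠ 0 →
      ((F.f t.2.1).im ≤ (F.f (b c)).im ∧ (F.f t.2.2).im ≤ (F.f (b c)).im) ∨
      ((F.f (b c)).im < (F.f t.2.1).im ∧ (F.f (b c)).im < (F.f t.2.2).im))
    (a2 : ∀ s ∈ πV, ∀ c, z' c ≠ 0 →
      ((F.f s.2.1).re ≤ (F.f (w c)).re ∧ (F.f s.2.2).re ≤ (F.f (w c)).re) ∨
      ((F.f (w c)).re < (F.f s.2.1).re ∧ (F.f (w c)).re < (F.f s.2.2).re)) :
    sm πV (fun s => sm μH fun t => ind (CrI s t)) = ∑ c, ∑ c', z c * z' c' *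
      ind ((F.f (w c')).re < (F.f (b c)).re ∧ (F.f (b c)).im < (F.f (w c')).im) := by
  have e1 : sm πV (fun s => sm μH fun t => ind (CrI s t)) =
      sm πV (fun s => bd μH fun v => X (F.f v) (F.f s.2.1) (F.f s.2.2)) +
      sm μH (fun t => bd πV fun v => Y (F.f v) (F.f t.2.1) (F.f t.2.2)) := by
    unfold bd
    rw [← sm_comm πV μH, ← sm_add_fun]
    refine sm_congr fun s hs => ?_
    rw [← sm_add_fun]
    refine sm_congr fun t ht => ?_
    obtain ⟨x1, x2, x3, x4⟩ := g2 s hs t ht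
    rw [CrI, ray x1 x2 x3 x4]; ring
  rw [e1, sm_zero (π := μH), add_zero]
  · simp only [h2, sm_sum]
    rw [Finset.sum_comm]
    refine Finset.sum_congr rfl fun c' _ => ?_
    by_cases hz : z' c' = 0
    · simp [hz, sm]
    rw [sm_mul, sm_congr (ψ := fun s =>
      ind ((F.f (w c')).re < (F.f s.2.1).re ∧ (F.f s.2.1).im < (F.f (w c')).im) +
      ind ((F.f (w c')).re < (F.f s.2.2).re ∧ (F.f s.2.2).im < (F.f (w c')).im))]
    · have := h1 fun v => ind ((F.f (w c')).re < (F.f v).re ∧ (F.f v).im < (F.f (w c')).im)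
      unfold bd at this
      rw [this, Finset.mul_sum]
      exact Finset.sum_congr rfl fun c _ => by ring
    · intro s hs
      rcases a2 s hs c' hz with h | h
      · rw [X_right h.1 h.2]; simp [h.1.not_gt, h.2.not_gt]
      · rw [X_left h.1 h.2]; simp [h.1, h.2]
  · intro t ht
    rw [h1]
    refine Finset.sum_eq_zero fun c _ => ?_
    by_cases hz : z c = 0
    · simp [hz]
    rcases a1 t ht c hz with h | h
    · rw [Y_top h.1 h.2, mul_zero]
    · rw [Y_bot h.1 h.2, mul_zero]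

end Pool.Agent.MP_3b5bbf_co.Up

end

section

/-! Generic points and chains inside strips. -/

namespace Pool.Agent.MP_3b5bbf_co.Up

open Set MeasureTheory Filter Topology

theorem null_level (l : ℂ →ₗ[ℝ] ℝ) (hl : l ≠ 0) (t : ℝ) : volume {z | l z = t} = 0 := by
  let s : AffineSubspace ℝ ℂ := ⟨{z | l z = t}, fun c p1 p2 p3 h1 h2 h3 => by
    simp only [mem_ofPred_eq, vsub_eq_sub, vadd_eq_add, map_add, map_smul, map_sub] at *
    rw [h1, h2, h3]; simp⟩
  refine Measure.addHaar_affineSubspace volume s fun hs => hl ?_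
  have : ∀ z, l z = t := fun z => (hs ▸ AffineSubspace.mem_top ℝ ℂ z : z ∈ s)
  ext z
  rw [this z, ← this 0]; simp

theorem null_line {a b : ℂ} (h : a ≠ b) : volume {z | cross a b z = 0} = 0 := by
  let l : ℂ →ₗ[ℝ] ℝ := (b - a).re • Complex.imLm - (b - a).im • Complex.reLm
  have hl : l ≠ 0 := by
    intro h0
    have h1 := LinearMap.congr_fun h0 1
    have h2 := LinearMap.congr_fun h0 Complex.I
    simp [l] at h1 h2
    exact h (Complex.ext (by linarith) (by linarith))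
  refine measure_mono_null (fun z hz => ?_) (null_level l hl (l a))
  simp [l, cross] at hz ⊢
  linarith

theorem null_seg (a b : ℂ) : volume (segment ℝ a b) = 0 := by
  by_cases h : a = b
  · simp [h]
  · exact measure_mono_null (fun z hz => cross_seg hz) (null_line h)

theorem null_shadow {p e : ℂ} (h : p ≠ e) : volume {z | e ∈ segment ℝ p z} = 0 := by
  refine measure_mono_null (fun z hz => ?_) (null_line h)
  have := cross_seg hz
  simp only [mem_ofPred_eq, cross, Complex.sub_re, Complex.sub_im] at this ⊢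
  linarith

theorem continuous_lift (w w' : Fin 3 → ℂ) : Continuous (lift w w') := by
  unfold lift comb
  exact continuous_finsetSum _ fun k _ => (continuous_bary w k).smul continuous_const

variable {F : FlatFolding} {i i' j : Fin F.n} {p q x y b : ℂ}

theorem generic (hx : x ∈ T F i) {N N' Z : Set ℂ} (hN : N ∈ 𝓝 x) (hN' : N' ∈ 𝓝 (F.f x))
    (hZ : volume Z = 0) : ∃ m ∈ In F i, m ∈ N ∧ F.f m ∈ N' ∧ F.f m ∉ Z := by
  have hg : Continuous (g F i) := continuous_lift _ _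
  have ho : IsOpen (OI F i ∩ interior N' ∩ g F i ⁻¹' interior N) :=
    ((isOpen_inn _).inter isOpen_interior).inter (isOpen_interior.preimage hg)
  have hc : Continuous fun t : ℝ => t • comb (fv F i) (fun _ => 1 / 3) + (1 - t) • F.f x := by
    fun_prop
  have h1 := hc.continuousAt (x := 0) |>.eventually_mem
    ((isOpen_interior.inter (isOpen_interior.preimage hg)).mem_nhds
      (s := interior N' ∩ g F i ⁻¹' interior N) (by
        simpa [g_f hx, mem_interior_iff_mem_nhds] using And.intro hN' hN))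
  obtain ⟨t, ht, t0⟩ := ((h1.filter_mono nhdsWithin_le_nhds).and
    (Ioo_mem_nhdsGT (zero_lt_one' ℝ))).exists
  have hne : (OI F i ∩ interior N' ∩ g F i ⁻¹' interior N).Nonempty :=
    ⟨_, ⟨inn_aff (center_mem (dfv i)) (dfv i) (f_mem hx) t0.1 (by linarith [t0.2]) (by ring),
      ht.1⟩, ht.2⟩
  obtain ⟨z, hz, hz'⟩ : ∃ z ∈ OI F i ∩ interior N' ∩ g F i ⁻¹' interior N, z ∉ Z := by
    by_contra hn
    exact ho.measure_ne_zero volume hne
      (measure_mono_null (fun z hz => by_contra fun h => hn ⟨z, hz, h⟩) hZ)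
  have e := f_g (inn_sub (dfv i) hz.1.1)
  exact ⟨_, g_mem_In hz.1.1, interior_subset hz.2, e.symm ▸ interior_subset hz.1.2, e.symm ▸ hz'⟩

theorem ev_ne {e : ℂ} (he : e ≠ 0) (z0 z : ℂ) : ∀ᶠ ε : ℝ in 𝓝[≠] 0, z0 + ε • e ≠ z := by
  by_cases h : z0 = z
  · filter_upwards [self_mem_nhdsWithin] with ε hε
    simpa [h, he] using hε
  · have hc : Continuous fun ε : ℝ => z0 + ε • e := by fun_prop
    exact (hc.continuousAt.eventually_ne (by simpa using h)).filter_mono nhdsWithin_le_nhds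

theorem edge_move (hi : x ∈ T F i) (hi' : x ∈ T F i') (hne : i ≠ i') (hx : x ∈ Opn)
    (hv : x ∉ range (F.v i)) :
    ∃ (e : ℂ) (y : ℝ → ℂ), e ≠ 0 ∧ (∃ k, ∃ s : ℝ, F.f (F.v i k) = F.f x + s • e) ∧
      ∀ᶠ ε : ℝ in 𝓝[≠] 0, y ε ∈ T F i ∧ y ε ∈ T F i' ∧ Reg F (y ε) ∧
        F.f (y ε) = F.f x + ε • e ∧ ∀ j, F.f (y ε) ∉ OI F j := by
  obtain ⟨a, b, c, c', v1, v2, ⟨s, t, hs, ht, hst, rfl⟩, -⟩ := shared hi hi' hne hv
  have w1 : Vs (fv F i) (F.f a) (F.f b) (F.f c) := v1.map F.f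
  have ta := mem_tri_of_range v1.mem1
  have tb := mem_tri_of_range v1.mem2
  have he : F.f b - F.f a ≠ 0 := sub_ne_zero.2 (w1.ne (dfv i)).symm
  have ef := f_aff ta tb hs.le ht.le hst
  refine ⟨F.f b - F.f a, fun ε => (s - ε) • a + (t + ε) • b, he, ?_, ?_⟩
  · obtain ⟨k, hk⟩ := v1.mem1
    refine ⟨k, -t, ?_⟩
    rw [hk, ef, show s = 1 - t by linarith]; module
  have hc : Continuous fun ε : ℝ => (s - ε) • a + (t + ε) • b := by fun_prop
  have h1 := hc.continuousAt (x := 0) |>.eventually_mem (isOpen_Opn.mem_nhds (by simpa using hx))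
  have h2 : ∀ᶠ ε : ℝ in 𝓝 0, ε ∈ Ioo (-t) s := Ioo_mem_nhds (by linarith) hs
  have h3 : ∀ᶠ ε : ℝ in 𝓝[≠] 0, ∀ j k, F.f (s • a + t • b) + ε • (F.f b - F.f a) ≠ F.f (F.v j k) :=
    eventually_all.2 fun j => eventually_all.2 fun k => ev_ne he _ _
  filter_upwards [(h1.and h2).filter_mono nhdsWithin_le_nhds, h3] with ε ⟨a1, a2⟩ a3
  have sg : (s - ε) • a + (t + ε) • b ∈ segment ℝ a b :=
    ⟨_, _, by linarith [a2.2], by linarith [a2.1], by linarith, rfl⟩
  have e : F.f ((s - ε) • a + (t + ε) • b) = F.f (s • a + t • b) + ε • (F.f b - F.f a) := by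
    rw [f_aff ta tb (by linarith [a2.2]) (by linarith [a2.1]) (by linarith), ef]; module
  refine ⟨v1.seg_sub sg, v2.seg_sub sg, ⟨a1, fun j k h => a3 j k (e ▸ h.symm)⟩, e, fun j hj => ?_⟩
  exact w1.not_inn (dfv i) (f_seg ta tb sg)
    ((E_of_O hj (f_mem (v1.seg_sub sg))).O_eq ▸ hj : _ ∈ OI F i)

theorem near {L : Finset ℝ} {x : ℝ} (hx : x ∉ L) :
    ∀ᶠ y in 𝓝 x, y ∉ L ∧ ∀ t ∈ L, (x < t ↔ y < t) := by
  have : ∀ᶠ y in 𝓝 x, ∀ t ∈ L, y ≠ t ∧ (x < t ↔ y < t) := by
    refine (eventually_all_finset L).2 fun t ht => ?_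
    rcases lt_or_gt_of_ne (fun e : x = t => hx (e ▸ ht)) with h | h
    · filter_upwards [Iio_mem_nhds h] with y hy
      exact ⟨ne_of_lt hy, iff_of_true h hy⟩
    · filter_upwards [Ioi_mem_nhds h] with y hy
      exact ⟨ne_of_gt hy, iff_of_false h.not_gt (not_lt.2 (le_of_lt hy))⟩
  exact this.mono fun y hy => ⟨fun h => (hy y h).1 rfl, fun t ht => (hy t ht).2⟩

variable (F) (h : ℂ →L[ℝ] ℝ) (L : Finset ℝ)

/-- no level separates the two points -/
def Same (p q : ℂ) : Prop := ∀ t ∈ L, (h (F.f p) < t ↔ h (F.f q) < t)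

/-- regular and off the levels -/
def Ok (p : ℂ) : Prop := Reg F p ∧ h (F.f p) ∉ L

/-- a step inside a triangle and a strip -/
def Step (p q : ℂ) : Prop :=
  ∃ i, p ∈ T F i ∧ q ∈ T F i ∧ Ok F h L p ∧ Ok F h L q ∧ Same F h L p q

/-- functions constant along steps -/
def Inv (v : ℂ → ZMod 2) : Prop := ∀ p q, Step F h L p q → v p = v q

variable {F} (O : Multiset (Seg F))

/-- off the obstacles -/
def Free (p : ℂ) : Prop := ∀ t ∈ O, F.f p ∉ segment ℝ (F.f t.2.1) (F.f t.2.2)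

/-- joined by a chain in the strip -/
def Conn (p q : ℂ) : Prop :=
  ∃ π : Multiset (Seg F), (∀ s ∈ π, Sg s ∧ (∀ t ∈ O, GP s t) ∧
    Same F h L p s.2.1 ∧ Same F h L p s.2.2) ∧ ∀ A, bd π A = A p + A q

variable {h L O}

theorem Same.refl (p : ℂ) : Same F h L p p := fun _ _ => Iff.rfl
theorem Same.symm (a : Same F h L p q) : Same F h L q p := fun t ht => (a t ht).symm
theorem Same.trans (a : Same F h L p q) (b : Same F h L q x) : Same F h L p x :=
  fun t ht => (a t ht).trans (b t ht)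

theorem Step.symm (a : Step F h L p q) : Step F h L q p := by
  obtain ⟨i, a1, a2, a3, a4, a5⟩ := a
  exact ⟨i, a2, a1, a4, a3, a5.symm⟩

theorem near_f (hp : h (F.f p) ∉ L) :
    {z | h z ∉ L ∧ ∀ t ∈ L, (h (F.f p) < t ↔ h z < t)} ∈ 𝓝 (F.f p) :=
  h.continuous.continuousAt.eventually (near hp)

theorem conn_tri (hp : p ∈ T F i) (hq : q ∈ T F i) (op : Ok F h L p) (rq : Reg F q)
    (s : Same F h L p q) (fp : Free O p) (fq : Free O q) : Conn h L O p q := by
  have hZ : volume (⋃ t ∈ {t | t ∈ O}, (segment ℝ (F.f t.2.1) (F.f t.2.2) ∪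
      ({z | F.f t.2.1 ∈ segment ℝ (F.f p) z} ∪ {z | F.f t.2.2 ∈ segment ℝ (F.f p) z}) ∪
      ({z | F.f t.2.1 ∈ segment ℝ (F.f q) z} ∪ {z | F.f t.2.2 ∈ segment ℝ (F.f q) z}))) = 0 := by
    refine (measure_biUnion_null_iff O.finite_toSet.countable).2 fun t ht => ?_
    refine measure_union_null (measure_union_null (null_seg _ _) (measure_union_null
      (null_shadow ?_) (null_shadow ?_))) (measure_union_null (null_shadow ?_) (null_shadow ?_))
    · exact fun e => fp t ht (e ▸ left_mem_segment ℝ _ _)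
    · exact fun e => fp t ht (e ▸ right_mem_segment ℝ _ _)
    · exact fun e => fq t ht (e ▸ left_mem_segment ℝ _ _)
    · exact fun e => fq t ht (e ▸ right_mem_segment ℝ _ _)
  obtain ⟨m, m1, -, m2, m3⟩ := generic hp univ_mem (near_f op.2) hZ
  simp only [mem_iUnion, mem_union, not_exists, not_or, mem_ofPred_eq] at m3
  refine ⟨{(i, p, m), (i, q, m)}, ?_, fun A => ?_⟩
  · intro s' hs
    simp only [Multiset.insert_eq_cons, Multiset.mem_cons, Multiset.mem_singleton] at hs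
    rcases hs with rfl | rfl
    · exact ⟨⟨hp, op.1, m1⟩, fun t ht => ⟨(m3 t ht).1.2.1, (m3 t ht).1.2.2, fp t ht,
        (m3 t ht).1.1⟩, Same.refl p, m2.2⟩
    · exact ⟨⟨hq, rq, m1⟩, fun t ht => ⟨(m3 t ht).2.1, (m3 t ht).2.2, fq t ht,
        (m3 t ht).1.1⟩, s, m2.2⟩
  · simp only [bd, sm, Multiset.insert_eq_cons, Multiset.map_cons, Multiset.map_singleton,
      Multiset.sum_cons, Multiset.sum_singleton]
    linear_combination add_self2 (A m)

theorem Conn.trans (a : Conn h L O p q) (s : Same F h L p q) (b : Conn h L O q x) :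
    Conn h L O p x := by
  obtain ⟨π, a1, a2⟩ := a
  obtain ⟨π', b1, b2⟩ := b
  refine ⟨π + π', fun t ht => (Multiset.mem_add.1 ht).elim (a1 t) fun ht => ?_, fun A => ?_⟩
  · exact ⟨(b1 t ht).1, (b1 t ht).2.1, s.trans (b1 t ht).2.2.1, s.trans (b1 t ht).2.2.2⟩
  · rw [bd_add, a2, b2]
    linear_combination add_self2 (A q)

theorem tendsto_move (z e : ℂ) : Tendsto (fun ε : ℝ => z + ε • e) (𝓝[≠] 0) (𝓝 z) := by
  have hc : Continuous fun ε : ℝ => z + ε • e := by fun_prop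
  simpa using (hc.tendsto 0).mono_left nhdsWithin_le_nhds

theorem common_point (hO : ∀ t ∈ O, Sg t) (hi : x ∈ T F i) (hi' : x ∈ T F i') (hne : i ≠ i')
    (ox : Ok F h L x) :
    ∃ y, y ∈ T F i ∧ y ∈ T F i' ∧ Ok F h L y ∧ Same F h L x y ∧ Free O y := by
  obtain ⟨e, y, he, -, hy⟩ := edge_move hi hi' hne ox.1.1 (ox.1.2.not_range i)
  have h1 := (tendsto_move (F.f x) e).eventually (near_f ox.2)
  have h2 : ∀ᶠ ε : ℝ in 𝓝[≠] 0, ∀ t ∈ {t | t ∈ O}, F.f x + ε • e ≠ F.f t.2.1 ∧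
      F.f x + ε • e ≠ F.f t.2.2 :=
    (eventually_all_finite O.finite_toSet).2 fun t _ => (ev_ne he _ _).and (ev_ne he _ _)
  obtain ⟨ε, ⟨a1, a2, a3, a4, a5⟩, b1, b2⟩ := (hy.and (h1.and h2)).exists
  rw [← a4] at b1 b2
  refine ⟨y ε, a1, a2, ⟨a3, b1.1⟩, b1.2, fun t ht hs => ?_⟩
  have := hO t ht
  exact a5 _ (oseg_inn (dfv _) (f_mem this.1) (f_mem_O this.2.2)
    (mem_openSegment_of_ne_left_right (b2 t ht).1.symm (b2 t ht).2.symm hs))

theorem conn_of_rel (hO : ∀ t ∈ O, Sg t) (ob : Ok F h L b) (fb : Free O b)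
    (r : Relation.ReflTransGen (Step F h L) b x) :
    Same F h L b x ∧ ∀ i q, x ∈ T F i → q ∈ T F i → Reg F q → Same F h L x q → Free O q →
      Conn h L O b q := by
  induction r with
  | refl => exact ⟨Same.refl b, fun i q a1 a2 a3 a4 a5 => conn_tri a1 a2 ob a3 a4 fb a5⟩
  | @tail x y _ st ih =>
    obtain ⟨i0, a1, a2, a3, a4, a5⟩ := st
    refine ⟨ih.1.trans a5, fun i q b1 b2 b3 b4 b5 => ?_⟩
    by_cases e : i0 = i
    · exact ih.2 i q (e ▸ a1) b2 b3 (a5.trans b4) b5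
    obtain ⟨y', c1, c2, c3, c4, c5⟩ := common_point hO a2 b1 e a4
    exact (ih.2 i0 y' a1 c1 c3.1 (a5.trans c4) c5).trans (ih.1.trans (a5.trans c4))
      (conn_tri c2 b2 c3 b3 (c4.symm.trans b4) c5 b5)

theorem chain_exists {ι : Type*} [Fintype ι] (hO : ∀ t ∈ O, Sg t) {b : ι → ℂ} {z : ι → ZMod 2}
    (hb : ∀ c, z c ≠ 0 → Ok F h L (b c) ∧ Free O (b c))
    (hz : ∀ v, Inv F h L v → ∑ c, z c * v (b c) = 0) :
    ∃ π : Multiset (Seg F), (∀ s ∈ π, Sg s ∧ (∀ t ∈ O, GP s t) ∧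
      ∃ c, z c ≠ 0 ∧ Same F h L (b c) s.2.1 ∧ Same F h L (b c) s.2.2) ∧
      ∀ A, bd π A = ∑ c, z c * A (b c) := by
  classical
  let S : ℂ → Set ι := fun x => {c | z c ≠ 0 ∧ Relation.ReflTransGen (Step F h L) (b c) x}
  let ρ : Set ι → ℂ := fun U => if hU : U.Nonempty then b hU.some else 0
  have hS : ∀ p q, Step F h L p q → S p = S q := fun p q st => by
    ext c
    exact ⟨fun a => ⟨a.1, a.2.tail st⟩, fun a => ⟨a.1, a.2.tail st.symm⟩⟩
  have hc : ∀ c, ∃ π : Multiset (Seg F), (∀ s ∈ π, Sg s ∧ (∀ t ∈ O, GP s t) ∧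
      ∃ c, z c ≠ 0 ∧ Same F h L (b c) s.2.1 ∧ Same F h L (b c) s.2.2) ∧
      ∀ A, bd π A = z c * (A (b c) + A (ρ (S (b c)))) := by
    intro c
    by_cases h0 : z c = 0
    · exact ⟨0, by simp, fun A => by simp [h0, bd, sm]⟩
    have hU : (S (b c)).Nonempty := ⟨c, h0, Relation.ReflTransGen.refl⟩
    have h1 := hU.some_mem
    obtain ⟨i, hi⟩ := exists_T (F := F) (Opn_sub (hb c h0).1.1.1)
    obtain ⟨π, a1, a2⟩ := (conn_of_rel hO (hb _ h1.1).1 (hb _ h1.1).2 h1.2).2 i _ hi hi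
      (hb c h0).1.1 (Same.refl _) (hb c h0).2
    refine ⟨π, fun s hs => ⟨(a1 s hs).1, (a1 s hs).2.1, _, h1.1, (a1 s hs).2.2⟩, fun A => ?_⟩
    rw [a2, (z2_cases _).resolve_left h0, one_mul, add_comm]
    simp only [ρ, dif_pos hU]
  choose π h1 h2 using hc
  refine ⟨∑ c, π c, fun s hs => ?_, fun A => ?_⟩
  · obtain ⟨c, -, hc⟩ := Multiset.mem_sum.1 hs
    exact h1 c s hc
  · have e : bd (∑ c, π c) A = ∑ c, bd (π c) A := by
      induction (Finset.univ : Finset ι) using Finset.induction_on with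
      | empty => simp [bd, sm]
      | insert a s ha ih => rw [Finset.sum_insert ha, Finset.sum_insert ha, bd_add, ih]
    rw [e]
    simp only [h2, mul_add, Finset.sum_add_distrib]
    rw [hz (fun x => A (ρ (S x))) fun p q st => by simp only [hS p q st], add_zero]

end Pool.Agent.MP_3b5bbf_co.Up

end
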