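import Pool.Agent.Mg.F3b5bbfq.Ga7624c

set_option linter.all false

section

/-! Nesting a turned tube into a pleat of a straight tube. -/

set_option linter.unusedSimpArgs false

namespace Pool.Agent.MP_3b5bbf_co

/-- an orientation reversing involution of the paper grid -/
structure PRefl (τ : Cell → Cell) (tv : V → V) : Prop where
  o : ∀ c, (τ c).o = tv c.o
  p : ∀ c, (τ c).p = tv c.q
  q : ∀ c, (τ c).q = tv c.p
  nb : ∀ c e, τ (c.nb e) = (τ c).nb e.rev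
  inv : ∀ c, τ (τ c) = c

def tcell : Cell → Cell
  | ⟨x, y, .s⟩ => ⟨y, x, .w⟩
  | ⟨x, y, .e⟩ => ⟨y, x, .n⟩
  | ⟨x, y, .n⟩ => ⟨y, x, .e⟩
  | ⟨x, y, .w⟩ => ⟨y, x, .s⟩

def mcell (m : ℤ) : Cell → Cell
  | ⟨x, y, .s⟩ => ⟨m - 1 - x, y, .s⟩
  | ⟨x, y, .e⟩ => ⟨m - 1 - x, y, .w⟩
  | ⟨x, y, .n⟩ => ⟨m - 1 - x, y, .n⟩
  | ⟨x, y, .w⟩ => ⟨m - 1 - x, y, .e⟩

theorem prefl_t : PRefl tcell (fun v => (v.2, v.1)) := by
  refine ⟨?_, ?_, ?_, ?_, ?_⟩ <;> rintro ⟨x, y, d⟩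
  · cases d <;> rfl
  · cases d <;> rfl
  · cases d <;> rfl
  · intro e; cases d <;> cases e <;> rfl
  · cases d <;> rfl

theorem prefl_m (m : ℤ) : PRefl (mcell m) (fun v => (2 * m - v.1, v.2)) := by
  refine ⟨?_, ?_, ?_, ?_, ?_⟩ <;> rintro ⟨x, y, d⟩
  · cases d <;> simp only [mcell, Cell.o, Prod.mk.injEq, and_true] <;> omega
  · cases d <;> simp only [mcell, Cell.p, Cell.q, Prod.mk.injEq, and_true] <;> omega
  · cases d <;> simp only [mcell, Cell.p, Cell.q, Prod.mk.injEq, and_true] <;> omega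
  · intro e
    cases d <;> cases e <;> simp only [mcell, Cell.nb, Ed.rev, Cell.mk.injEq, and_true] <;> omega
  · cases d <;> simp only [mcell, Cell.mk.injEq, and_true] <;> omega

theorem tcell_xy (c : Cell) : (tcell c).x = c.y ∧ (tcell c).y = c.x := by
  rcases c with ⟨x, y, d⟩
  cases d <;> exact ⟨rfl, rfl⟩

theorem mcell_xy (m : ℤ) (c : Cell) : (mcell m c).x = m - 1 - c.x ∧ (mcell m c).y = c.y := by
  rcases c with ⟨x, y, d⟩
  cases d <;> exact ⟨rfl, rfl⟩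

variable {τ : Cell → Cell} {tv : V → V}

theorem PRefl.K (r : PRefl τ tv) (φ : V → V) (c : Cell) :
    K (fun v => φ (tv v)) c = K φ (τ c) := by
  unfold Pool.Agent.MP_3b5bbf_co.K
  rw [r.o, r.p, r.q, add_comm]

theorem PRefl.eps (r : PRefl τ tv) (φ : V → V) (c : Cell) (e : Ed) :
    eps (fun v => φ (tv v)) c e = eps φ (τ c) e.rev := by
  cases e <;> simp only [Pool.Agent.MP_3b5bbf_co.eps, Ed.rev, r.o, r.p, r.q, add_comm]

theorem PRefl.white (r : PRefl τ tv) (φ : V → V) (c : Cell) :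
    White (fun v => φ (tv v)) c ↔ Black φ (τ c) := by
  unfold White Black
  rw [r.o, r.p, r.q]
  dsimp only
  omega

theorem PRefl.black (r : PRefl τ tv) (φ : V → V) (c : Cell) :
    Black (fun v => φ (tv v)) c ↔ White φ (τ c) := by
  unfold White Black
  rw [r.o, r.p, r.q]
  dsimp only
  omega

theorem PRefl.good (r : PRefl τ tv) {φ : V → V} {c : Cell} (h : Good φ (τ c)) :
    Good (fun v => φ (tv v)) c := by
  have := h.pq
  unfold Good at *
  rw [r.white, r.black]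
  rw [r.o, r.p, r.q] at *
  exact ⟨h.1, h.2.1, this.1, this.2.1, h.2.2.2.2.symm⟩

theorem Valid.refl {H : Type} [LinearOrder H] {R φ} {h : Cell → H} (r : PRefl τ tv)
    (hv : Valid R φ h) : Valid (fun c => R (τ c)) (fun v => φ (tv v)) (fun c => h (τ c)) :=
  hv.pull τ Ed.rev r.nb (fun c b e => by rw [← r.inv c, e, r.inv]) (fun _ a => a)
    (fun c hc => r.good (hv.good _ hc)) (fun c b _ _ => by rw [r.K, r.K])
    (fun c e b e' _ _ he => by rwa [r.eps, r.eps] at he) (fun _ _ _ _ _ => Iff.rfl)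

theorem iso_id : Iso (fun v => v) where
  add := fun _ _ _ _ => Iff.rfl
  inj := fun _ _ a => a
  good := fun _ _ a => a
  surj := fun κ hκ => ⟨κ, hκ, rfl, fun _ _ a => a⟩

theorem Valid.neg {R φ} {h : Cell → ℚ} (hv : Valid R φ h) : Valid R φ (fun c => -h c) :=
  hv.dual.iso iso_id (fun _ _ => ⟨rfl, rfl, rfl⟩) (fun c b _ _ _ => by simp)

theorem Closed.neg {R φ} {h : Cell → ℚ} (hc : Closed R φ h) : Closed R φ (fun c => -h c) := by
  intro c e b h1 h2 h3 he k1 k2 l1 l2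
  exact hc (c.nb e) e.rev b h2 (by rwa [nb_nb]) h3 (by rwa [eps_nb]) k2 (by rwa [nb_nb])
    (by simpa using l2) (by rw [nb_nb]; simpa using l1)

theorem PRefl.bd (r : PRefl τ tv) {R : Cell → Prop} {c : Cell} :
    Bd (fun c => R (τ c)) c ↔ Bd R (τ c) := by
  unfold Bd
  dsimp only
  rw [r.nb]
  rfl

theorem Gen.refl {R φ h F St Cv} (r : PRefl τ tv) (g : Gen R φ h F St Cv) :
    Gen (fun c => R (τ c)) (fun v => φ (tv v)) (fun c => -h (τ c)) F St Cv where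
  valid := (g.valid.refl r).neg
  kp := fun c hc => by rw [r.K]; exact g.kp _ (r.bd.1 hc)
  closed := by
    apply Closed.neg (h := fun c => h (τ c))
    intro c e b h1 h2 h3 he k1 k2 l1 l2
    rw [r.eps] at he
    rw [r.K] at k1 k2
    dsimp only at l1 l2 h1 h2
    rw [r.nb] at h2 k2 l2
    exact g.closed _ _ _ h1 h2 (r.bd.1 h3) he k1 k2 l1 l2
  foot := fun c hc => by
    have := g.foot _ hc
    rwa [r.o] at this
  steps := by
    intro c h1 h2 ne
    dsimp only at *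
    rw [← r.o, ← r.o, r.nb] at *
    exact g.steps _ h1 h2 ne
  cov := by
    intro κ h1 h2
    obtain ⟨a, b, ha, hb, ka, kb, ba, wb, ext⟩ := g.cov κ h1 h2
    refine ⟨τ b, τ a, by simpa only [r.inv] using hb, by simpa only [r.inv] using ha,
      by rw [r.K, r.inv, kb], by rw [r.K, r.inv, ka], by rw [r.black, r.inv]; exact wb,
      by rw [r.white, r.inv]; exact ba, fun c hc kc => ?_⟩
    rw [r.K] at kc
    have := ext _ hc kc
    simp only [r.inv, neg_le_neg_iff]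
    exact ⟨this.2, this.1⟩

theorem Gen.congr {R R' φ φ' h h' F St Cv} (g : Gen R φ h F St Cv) (hR : ∀ c, R' c ↔ R c)
    (ag : ∀ c, R c → Agr φ' φ c) (hh : ∀ c b, R c → R b → (h' c < h' b ↔ h c < h b)) :
    Gen R' φ' h' F St Cv := by
  obtain rfl : R' = R := funext fun c => propext (hR c)
  refine ⟨g.valid.iso iso_id ag (fun c b h1 h2 _ => hh c b h1 h2),
    fun c hc => by rw [(ag c hc.1).K, g.kp c hc], ?_,
    fun c hc => by rw [(ag c hc).1]; exact g.foot c hc, ?_, ?_⟩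
  · intro c e b h1 h2 h3 he k1 k2 l1 l2
    rw [(ag c h1).eps] at he
    rw [(ag c h1).K] at k1
    rw [(ag _ h2).K] at k2
    exact g.closed c e b h1 h2 h3 he k1 k2 ((hh _ _ h1 h3.1).1 l1) ((hh _ _ h3.1 h2).1 l2)
  · intro c h1 h2 ne
    rw [(ag c h1).1, (ag _ h2).1] at *
    exact g.steps c h1 h2 ne
  · intro κ h1 h2
    exact g.cov.map iso_id (fun _ a => a) h1 (fun v e => by rw [e]; exact h2)
      (fun c hc _ => ag c hc) (fun c hc e => ⟨hc, (ag c hc).1.symm.trans e⟩)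
      (Or.inl ⟨fun _ a => a, fun _ a => a, fun c b h1 h2 _ _ l => by
        rw [← not_lt] at l ⊢; rwa [hh b c h2 h1]⟩)

theorem nest_gen {x0 x1 y0 y1 ξ φ F1 St1 Cv1 R2 F2 St2 Cv2 R h} {klo khi : ℤ × ℤ}
    (hp : Pure x0 x1 y0 y1 ξ φ h) (g1 : Gen (Rect x0 x1 y0 y1) φ h F1 St1 Cv1)
    (g2 : Gen R2 φ h F2 St2 Cv2)
    (T : ∀ c, R2 c → φ c.o = (1, 1) → K φ c = KP ∨ K φ c = KO)
    (hR : ∀ c, R c ↔ Rect x0 x1 y0 y1 c ∨ R2 c) (dj : ∀ c, Rect x0 x1 y0 y1 c → R2 c → False)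
    (in2 : ∀ c, R2 c → Hk klo < h c ∧ h c < Hk khi)
    (hk : khi.1 = klo.1 ∧ khi.2 = klo.2 + 1) (r1 : Rng x0 x1 y0 y1 ξ klo)
    (r2 : Rng x0 x1 y0 y1 ξ khi)
    (par : (klo.1 = 2 ∧ (-klo.2 + y1 - ξ - y0) % 2 = 0) ∨
      (klo.1 = 1 ∧ (x1 + klo.2 + 1 - ξ - y0) % 2 = 0))
    (X : ∀ c e, Rect x0 x1 y0 y1 c → R2 (c.nb e) → e = .g)
    (hF : ∀ v, F1 v → F2 v → v = (1, 1)) (n1 : ¬ F1 (1, -1)) (n2 : ¬ F2 (1, -1))
    (bd : ∀ c, Bd R c → Bd (Rect x0 x1 y0 y1) c ∨ Bd R2 c)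
    (CO : ∀ c b, Rect x0 x1 y0 y1 c → R2 (c.nb .g) → (Bd (Rect x0 x1 y0 y1) b ∨ Bd R2 b) →
      ((h c < h b ∧ h b < h (c.nb .g)) ∨ (h (c.nb .g) < h b ∧ h b < h c)) → R (b.nb .g) ∧
      ((h c < h (b.nb .g) ∧ h (b.nb .g) < h (c.nb .g)) ∨
        (h (c.nb .g) < h (b.nb .g) ∧ h (b.nb .g) < h c))) :
    Gen R φ h (fun v => F1 v ∨ F2 v) (fun v w => St1 v w ∨ St2 v w)
      (fun v => v = (1, 1) ∨ Cv1 v ∨ Cv2 v) := by
  have hf := hp.fh
  have d1 := hf.d1
  have d2 := hf.d2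
  have d3 := hf.d3
  have H1 : ∀ c b, Rect x0 x1 y0 y1 c → R2 b → φ c.o = φ b.o → φ c.o = (1, 1) :=
    fun c b h1 h2 e => hF _ (g1.foot c h1) (e ▸ g2.foot b h2)
  have main := nest_valid (lo := Hk klo) (hi := Hk khi) g1.valid g2.valid hR dj in2 H1 ?_ ?_ T X
    g1.kp g2.kp g1.closed g2.closed ?_ CO
  · refine ⟨main.1, fun c hc => (bd c hc).elim (g1.kp c) (g2.kp c), main.2, ?_, ?_, ?_⟩
    · exact fun c hc => ((hR c).1 hc).imp (g1.foot c) (g2.foot c)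
    · intro c h1 h2 ne
      rcases (hR _).1 h1 with a | a <;> rcases (hR _).1 h2 with a' | a'
      · exact Or.inl (g1.steps c a a' ne)
      · have k1 := g1.kp c ⟨a, fun t => dj _ t a'⟩
        have k2 := g2.kp _ ⟨a', by rw [nb_gg]; exact dj _ a⟩
        exact absurd ((congrArg Prod.fst k2).trans (congrArg Prod.fst k1).symm) ne
      · have k1 := g2.kp c ⟨a, dj _ a'⟩
        have k2 := g1.kp _ ⟨a', by rw [nb_gg]; exact fun t => dj _ t a⟩
        exact absurd ((congrArg Prod.fst k2).trans (congrArg Prod.fst k1).symm) ne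
      · exact Or.inr (g2.steps c a a' ne)
    · intro κ hκ hc
      by_cases e : κ.1 = (1, 1)
      · obtain ⟨a, b, fa, fb, ka, kb, ba, wb, ea, eb⟩ := hf.ends κ (key_four hκ e)
        refine ⟨a, b, (hR _).2 (Or.inl fa.1), (hR _).2 (Or.inl fb.1), ka, kb, ba, wb,
          fun c hc kc => ?_⟩
        rw [hp.hk a fa, hp.hk b fb, ea, eb]
        rcases (hR _).1 hc with r | r
        · exact hp.range (hp.fr c r ((congrArg Prod.fst kc).trans e))
        · have i := in2 c r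
          have l1 : Hk (0, ξ) ≤ Hk klo := by
            rw [Hk_le]; unfold klt Rng at *; dsimp only; omega
          have l2 : Hk khi ≤ Hk (4, ξ - 1) := by
            rw [Hk_le]; unfold klt Rng at *; dsimp only; omega
          constructor <;> order
      · rcases hc.resolve_left e with hc | hc
        · obtain ⟨a, -, ha, -, ka, -⟩ := g1.cov κ hκ hc
          have oa : φ a.o = κ.1 := congrArg Prod.fst ka
          exact g1.cov.map iso_id (fun c a => (hR c).2 (Or.inl a)) hκ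
            (fun v e => by rw [e]; exact hc) (fun c hc _ => ⟨rfl, rfl, rfl⟩)
            (fun c hc ec => ⟨((hR c).1 hc).resolve_right
              (fun r => e (oa.symm.trans (H1 a c ha r (oa.trans ec.symm)))), ec⟩)
            (Or.inl ⟨fun _ a => a, fun _ a => a, fun c b h1 h2 _ _ l => l⟩)
        · obtain ⟨a, -, ha, -, ka, -⟩ := g2.cov κ hκ hc
          have oa : φ a.o = κ.1 := congrArg Prod.fst ka
          exact g2.cov.map iso_id (fun c a => (hR c).2 (Or.inr a)) hκ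
            (fun v e => by rw [e]; exact hc) (fun c hc _ => ⟨rfl, rfl, rfl⟩)
            (fun c hc ec => ⟨((hR c).1 hc).resolve_left
              (fun r => e (ec.symm.trans (H1 c a r ha (ec.trans oa.symm)))), ec⟩)
            (Or.inl ⟨fun _ a => a, fun _ a => a, fun c b h1 h2 _ _ l => l⟩)
  · intro c hc o
    rw [hp.hk c (hp.fr c hc o), Hk_le, Hk_le]
    unfold klt; omega
  · intro c e h1 h2 k1 k2
    have o1 : φ c.o = (1, 1) := k1.elim (congrArg Prod.fst) (congrArg Prod.fst)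
    have o2 : φ (c.nb e).o = (1, 1) := k2.elim (congrArg Prod.fst) (congrArg Prod.fst)
    have f1 := hp.fr c h1 o1
    have f2 := hp.fr _ h2 o2
    rw [hp.hk _ f1, hp.hk _ f2, Hk_le, Hk_le]
    cases e
    · have k : K φ c = KO := k1.resolve_left (fun k => hp.kp_out h1 k h2)
      have g := hf.grid f1 (Or.inl k) _ _ rfl rfl
      have ne : KO ≠ KC := by simp [KO, KC]
      simp only [k, ne, false_and, or_false, true_imp_iff] at g
      unfold klt; omega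
    · have g := hf.diag f1
      unfold Cons Rng klt at *
      rcases g with g | g | g
      · rw [g.2]; exact id
      · omega
      · omega
    · have nn : (c.nb .b).nb .a = c := nb_nb c .b
      have g := hf.diag f2
      rw [nn] at g
      unfold Cons Rng klt at *
      rcases g with g | g | g
      · rw [g.2]; exact id
      · omega
      · omega
  · intro c hc e
    rcases (hR c).1 hc with a | a
    · exact n1 (e ▸ g1.foot c a)
    · exact n2 (e ▸ g2.foot c a)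

end Pool.Agent.MP_3b5bbf_co

end

section

/-! The two concrete nestings. -/

set_option linter.unusedSimpArgs false

namespace Pool.Agent.MP_3b5bbf_co

theorem Pure.congr {x0 x1 y0 y1 ξ φ φ' h h'} (hp : Pure x0 x1 y0 y1 ξ φ h)
    (hφ : ∀ v : V, 2 * x0 ≤ v.1 ∧ v.1 ≤ 2 * x1 ∧ 2 * y0 ≤ v.2 ∧ v.2 ≤ 2 * y1 → φ' v = φ v)
    (hh : ∀ c, Rect x0 x1 y0 y1 c → h' c = h c) : Pure x0 x1 y0 y1 ξ φ' h' := by
  refine ⟨⟨hp.fh.d1, hp.fh.d2, hp.fh.d3, ?_, ?_, ?_⟩, ?_, ?_⟩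
  · intro a b h1 h2 h3 h4 h5
    rw [hφ _ (by dsimp only; omega)]
    exact hp.fh.out a b h1 h2 h3 h4 h5
  · intro a b h1 h2 h3 h4 h5
    rw [hφ _ (by dsimp only; omega)]
    exact hp.fh.inn a b h1 h2 h3 h4 h5
  · intro c hc
    rw [hφ _ (vert_bounds hc.1).1]
    exact hp.fh.ctr c hc
  · intro c hc e
    rw [hφ _ (vert_bounds hc).1] at e
    exact hp.fr c hc e
  · intro c hc
    rw [hh c hc.1]
    exact hp.hk c hc

theorem agr_rect {x0 x1 y0 y1 : ℤ} {φ φ' : V → V}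
    (hφ : ∀ v : V, (v.1 + v.2) % 2 = 0 →
      2 * x0 ≤ v.1 ∧ v.1 ≤ 2 * x1 ∧ 2 * y0 ≤ v.2 ∧ v.2 ≤ 2 * y1 → φ' v = φ v)
    (c : Cell) (hc : Rect x0 x1 y0 y1 c) : Agr φ' φ c := by
  obtain ⟨v1, v2, v3⟩ := vert_bounds hc
  refine ⟨hφ _ ?_ v1, hφ _ ?_ v2, hφ _ ?_ v3⟩ <;> rcases c with ⟨x, y, d⟩ <;> cases d <;>
    simp only [Cell.o, Cell.p, Cell.q] <;> omega

theorem bkey_inj {x0 x1 y0 y1 ξ : ℤ} {c b : Cell} (hc : Bd (Rect x0 x1 y0 y1) c)
    (hb : Bd (Rect x0 x1 y0 y1) b) (e : bkey ξ c = bkey ξ b) : c = b := by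
  rcases c with ⟨x, y, d⟩
  rcases b with ⟨x', y', d'⟩
  cases d <;> cases d' <;>
    simp only [Bd, Rect, Cell.nb, bkey, Prod.mk.injEq, Cell.mk.injEq, and_true, true_and,
      reduceCtorEq, and_false] at * <;> omega

theorem Tube.ord_iff {x0 x1 y0 y1 ξ φ h F St Cv} (u : Tube x0 x1 y0 y1 ξ φ h F St Cv) {c b : Cell}
    (hc : Bd (Rect x0 x1 y0 y1) c) (hb : Bd (Rect x0 x1 y0 y1) b) :
    h c < h b ↔ klt (bkey ξ c) (bkey ξ b) := by
  refine ⟨fun l => ?_, u.ord c b hc hb⟩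
  by_contra n
  have : klt (bkey ξ b) (bkey ξ c) ∨ bkey ξ c = bkey ξ b := by
    unfold klt at *
    rw [Prod.ext_iff]
    omega
  rcases this with t | t
  · exact absurd l (u.ord _ _ hb hc t).not_gt
  · rw [bkey_inj hc hb t] at l
    exact lt_irrefl _ l

theorem gap_lt {klo khi k : ℤ × ℤ} (hk : khi.1 = klo.1 ∧ khi.2 = klo.2 + 1) {t : ℚ}
    (i : Hk klo < t ∧ t < Hk khi) : (Hk k < t ↔ ¬ klt klo k) ∧ (t < Hk k ↔ ¬ klt k khi) := by
  have : Hk k ≤ Hk klo ∨ Hk khi ≤ Hk k := by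
    rw [Hk_le, Hk_le]; unfold klt; omega
  rw [← Hk_le, ← Hk_le]
  refine ⟨⟨fun a => ?_, fun a => ?_⟩, ⟨fun a => ?_, fun a => ?_⟩⟩
  · exact this.resolve_right (by order)
  · order
  · exact this.resolve_left (by order)
  · order

theorem nb_g_of {c : Cell} {e : Ed} (h : ¬ ((c.nb e).x = c.x ∧ (c.nb e).y = c.y)) : e = .g := by
  cases e
  · rfl
  · exact absurd (nb_a_xy c) h
  · exact absurd (nb_b_xy c) h

theorem Tb.nestTop {X Y1 Y2 o1 o2 F1 St1 Cv1 F2 St2 Cv2} (t1 : Tb Pure X Y1 o1 F1 St1 Cv1)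
    (t2 : Tb (Turned KO) X Y2 o2 F2 St2 Cv2) (par : (o1 + o2 + Y1) % 2 = 0)
    (hF : ∀ v, F1 v → F2 v → v = (1, 1)) (n1 : ¬ F1 (1, -1)) (n2 : ¬ F2 (1, -1)) :
    Tb Any X (Y1 + Y2) o1 (fun v => F1 v ∨ F2 v) (fun v w => St1 v w ∨ St2 v w)
      (fun v => v = (1, 1) ∨ Cv1 v ∨ Cv2 v) := by
  intro x0 x1 y0 y1 ξ a b c
  obtain ⟨φ1, h1, u1, hp1⟩ := t1 x0 x1 y0 (y0 + Y1) ξ a rfl c
  obtain ⟨φ2, h2, u2, T2⟩ := t2 x0 x1 (y0 + Y1) y1 (x0 + o2) a (by omega) rfl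
  have par' : (x0 + o2 + (y0 + Y1) - ξ - y0) % 2 = 0 := by omega
  clear t1 t2 a b c par
  generalize y0 + Y1 = ym at *
  generalize x0 + o2 = g at *
  have d1 := hp1.fh.d1
  have d2 := hp1.fh.d2
  have d3 := hp1.fh.d3
  have d4 := u2.d1
  have d5 := u2.d2
  have d6 := u2.d3
  let φ : V → V := fun v => if v.2 ≤ 2 * ym then φ1 v else φ2 v
  let h : Cell → ℚ := fun c => if c.y < ym then h1 c else sq (Hk (2, -g)) (Hk (2, -g + 1)) (h2 c)
  have lh : Hk (2, -g) < Hk (2, -g + 1) := by rw [Hk_lt]; unfold klt; dsimp only; omega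
  have e1 : ∀ c, Rect x0 x1 y0 ym c → h c = h1 c := fun c hc => if_pos hc.2.2.2
  have e2 : ∀ c, Rect x0 x1 ym y1 c → h c = sq (Hk (2, -g)) (Hk (2, -g + 1)) (h2 c) :=
    fun c hc => if_neg (not_lt.2 hc.2.2.1)
  have hp : Pure x0 x1 y0 ym ξ φ h := hp1.congr (fun v hv => if_pos hv.2.2.2) e1
  have v2 : ∀ v : V, (v.1 + v.2) % 2 = 0 →
      2 * x0 ≤ v.1 ∧ v.1 ≤ 2 * x1 ∧ 2 * ym ≤ v.2 ∧ v.2 ≤ 2 * y1 → φ v = φ2 v := by
    intro v p hv
    by_cases t : v.2 ≤ 2 * ym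
    · obtain ⟨a, rfl⟩ : ∃ a, v = (2 * a, 2 * ym) := ⟨v.1 / 2, Prod.ext (by omega) (by omega)⟩
      dsimp only at hv
      simp only [φ]
      rw [if_pos le_rfl, u1.bdry a ym (by omega) (by omega) (by omega) (by omega) (by omega),
        u2.bdry a ym (by omega) (by omega) (by omega) (by omega) (by omega)]
      simp only [Prod.mk.injEq, and_true]; omega
    · exact if_neg t
  have a2 := agr_rect v2
  have g1 := u1.gen.congr (h' := h) (fun _ => Iff.rfl)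
    (agr_rect (fun v _ hv => (if_pos hv.2.2.2 : φ v = φ1 v)))
    (fun c b hc hb => by rw [e1 c hc, e1 b hb])
  have g2 := u2.gen.congr (h' := h) (fun _ => Iff.rfl) a2
    (fun c b hc hb => by rw [e2 c hc, e2 b hb, sq_lt lh])
  have in2 : ∀ c, Rect x0 x1 ym y1 c → Hk (2, -g) < h c ∧ h c < Hk (2, -g + 1) :=
    fun c hc => by rw [e2 c hc]; exact sq_mem lh _
  have L11 : ∀ {c b}, Bd (Rect x0 x1 y0 ym) c → Bd (Rect x0 x1 y0 ym) b →
      (h c < h b ↔ klt (bkey ξ c) (bkey ξ b)) := fun hc hb => by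
    rw [(hp.bd hc).2, (hp.bd hb).2, Hk_lt]
  have L12 : ∀ {c b}, Bd (Rect x0 x1 y0 ym) c → Bd (Rect x0 x1 ym y1) b →
      (h c < h b ↔ ¬ klt (2, -g) (bkey ξ c)) := fun hc hb => by
    rw [(hp.bd hc).2]; exact (gap_lt (klo := (2, -g)) (khi := (2, -g + 1)) ⟨rfl, rfl⟩ (in2 _ hb.1)).1
  have L21 : ∀ {c b}, Bd (Rect x0 x1 ym y1) c → Bd (Rect x0 x1 y0 ym) b →
      (h c < h b ↔ ¬ klt (bkey ξ b) (2, -g + 1)) := fun hc hb => by
    rw [(hp.bd hb).2]; exact (gap_lt (klo := (2, -g)) (khi := (2, -g + 1)) ⟨rfl, rfl⟩ (in2 _ hc.1)).2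
  have L22 : ∀ {c b}, Bd (Rect x0 x1 ym y1) c → Bd (Rect x0 x1 ym y1) b →
      (h c < h b ↔ klt (bkey g c) (bkey g b)) := fun hc hb => by
    rw [e2 _ hc.1, e2 _ hb.1, sq_lt lh, u2.ord_iff hc hb]
  have bd : ∀ c, Bd (Rect x0 x1 y0 y1) c → Bd (Rect x0 x1 y0 ym) c ∨ Bd (Rect x0 x1 ym y1) c := by
    intro c; unfold Bd Rect; omega
  refine ⟨φ, h, ⟨u1.d1, u1.d2, by omega, ?_, ?_, ?_⟩, trivial⟩
  · refine nest_gen (klo := (2, -g)) (khi := (2, -g + 1)) hp g1 g2 ?_ ?_ ?_ in2 ⟨rfl, rfl⟩ ?_ ?_ ?_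
      ?_ hF n1 n2 bd ?_
    · intro c hc o
      rw [(a2 c hc).K]
      exact T2 c hc ((a2 c hc).1.symm.trans o)
    · intro c; unfold Rect; omega
    · intro c; unfold Rect; omega
    · unfold Rng; dsimp only; omega
    · unfold Rng; dsimp only; omega
    · dsimp only; omega
    · intro c e r1 r2
      refine nb_g_of (c := c) ?_
      unfold Rect at *; omega
    · intro c b r1 r2 bb l
      have c1 : Bd (Rect x0 x1 y0 ym) c := ⟨r1, by unfold Rect at *; omega⟩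
      have c2 : Bd (Rect x0 x1 ym y1) (c.nb .g) := ⟨r2, by rw [nb_gg]; unfold Rect at *; omega⟩
      obtain ⟨x, rfl⟩ : ∃ x, c = ⟨x, ym - 1, .n⟩ := by
        rcases c with ⟨x, y, d⟩
        refine ⟨x, ?_⟩
        cases d <;> simp only [Rect, Cell.nb, Cell.mk.injEq, reduceCtorEq, and_false, and_true,
          true_and] at r1 r2 ⊢ <;> omega
      rcases b with ⟨x', y', d'⟩
      rcases bb with bb | bb
      · rw [L11 c1 bb, L12 bb c2, L21 c2 bb, L11 bb c1] at l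
        have b2 : Bd (Rect x0 x1 ym y1) ((⟨x', y', d'⟩ : Cell).nb .g) ∧ d' = .n := by
          cases d' <;> simp only [Bd, Rect, Cell.nb, bkey, klt, reduceCtorEq, and_false,
            and_true, true_and] at * <;> omega
        obtain ⟨b2, rfl⟩ := b2
        rw [L12 c1 b2, L22 b2 c2, L22 c2 b2, L21 b2 c1]
        simp only [Bd, Rect, Cell.nb, bkey, klt, true_and] at *
        omega
      · rw [L12 c1 bb, L22 bb c2, L22 c2 bb, L21 bb c1] at l
        have b2 : Bd (Rect x0 x1 y0 ym) ((⟨x', y', d'⟩ : Cell).nb .g) ∧ d' = .s := by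
          cases d' <;> simp only [Bd, Rect, Cell.nb, bkey, klt, reduceCtorEq, and_false,
            and_true, true_and] at * <;> omega
        obtain ⟨b2, rfl⟩ := b2
        rw [L11 c1 b2, L12 b2 c2, L21 c2 b2, L11 b2 c1]
        simp only [Bd, Rect, Cell.nb, bkey, klt, true_and] at *
        omega
  · intro a b r1 r2 r3 r4 r5
    by_cases t : b ≤ ym
    · simp only [φ]
      rw [if_pos (by omega)]
      exact u1.bdry a b r1 r2 r3 t (by omega)
    · rw [v2 _ (by dsimp only; omega) (by dsimp only; omega),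
        u2.bdry a b r1 r2 (by omega) r4 (by omega)]
      simp only [Prod.mk.injEq, and_true]; omega
  · intro c b hc hb k
    rcases bd c hc with c1 | c1 <;> rcases bd b hb with b1 | b1
    · exact (L11 c1 b1).2 k
    all_goals
      first | rw [L12 c1 b1] | rw [L21 c1 b1] | rw [L22 c1 b1]
      rcases c with ⟨x, y, d⟩
      rcases b with ⟨x', y', d'⟩
      cases d <;> cases d' <;> simp only [Bd, Rect, Cell.nb, bkey, klt, true_and] at * <;> omega

theorem Tb.nestRight {X1 X2 Y o1 o2 F1 St1 Cv1 F2 St2 Cv2} (t1 : Tb Pure X1 Y o1 F1 St1 Cv1)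
    (t2 : Tb (Turned KO) Y X2 o2 F2 St2 Cv2) (par : (o1 + o2 + X1) % 2 = 0)
    (hF : ∀ v, F1 v → F2 v → v = (1, 1)) (n1 : ¬ F1 (1, -1)) (n2 : ¬ F2 (1, -1)) :
    Tb Any (X1 + X2) Y o1 (fun v => F1 v ∨ F2 v) (fun v w => St1 v w ∨ St2 v w)
      (fun v => v = (1, 1) ∨ Cv1 v ∨ Cv2 v) := by
  intro x0 x1 y0 y1 ξ a b c
  obtain ⟨φ1, h1, u1, hp1⟩ := t1 x0 (x0 + X1) y0 y1 ξ rfl b c
  obtain ⟨φ2, h2, u2, T2⟩ := t2 y0 y1 (x0 + X1) x1 (y0 + o2) b (by omega) rfl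
  have par' : (x0 + X1 + (y0 + o2) - ξ - y0) % 2 = 0 := by omega
  clear t1 t2 a b c par
  generalize x0 + X1 = xm at *
  generalize y0 + o2 = g at *
  have d1 := hp1.fh.d1
  have d2 := hp1.fh.d2
  have d3 := hp1.fh.d3
  have d4 := u2.d1
  have d5 := u2.d2
  have d6 := u2.d3
  have tr : ∀ c, Rect xm x1 y0 y1 c ↔ Rect y0 y1 xm x1 (tcell c) := by
    intro c
    have := tcell_xy c
    unfold Rect; omega
  have tb : ∀ c, Bd (Rect xm x1 y0 y1) c → Bd (Rect y0 y1 xm x1) (tcell c) := by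
    intro c hc
    rw [← prefl_t.bd]
    exact ⟨(tr _).1 hc.1, fun a => hc.2 ((tr _).2 a)⟩
  let φ : V → V := fun v => if v.1 ≤ 2 * xm then φ1 v else φ2 (v.2, v.1)
  let h : Cell → ℚ := fun c =>
    if c.x < xm then h1 c else sq (Hk (1, g - 1)) (Hk (1, g - 1 + 1)) (-h2 (tcell c))
  have lh : Hk (1, g - 1) < Hk (1, g - 1 + 1) := by rw [Hk_lt]; unfold klt; dsimp only; omega
  have e1 : ∀ c, Rect x0 xm y0 y1 c → h c = h1 c := fun c hc => if_pos hc.2.1
  have e2 : ∀ c, Rect xm x1 y0 y1 c →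
      h c = sq (Hk (1, g - 1)) (Hk (1, g - 1 + 1)) (-h2 (tcell c)) :=
    fun c hc => if_neg (not_lt.2 hc.1)
  have hp : Pure x0 xm y0 y1 ξ φ h := hp1.congr (fun v hv => if_pos hv.2.1) e1
  have v2 : ∀ v : V, (v.1 + v.2) % 2 = 0 →
      2 * xm ≤ v.1 ∧ v.1 ≤ 2 * x1 ∧ 2 * y0 ≤ v.2 ∧ v.2 ≤ 2 * y1 →
      φ v = (fun v : V => φ2 (v.2, v.1)) v := by
    intro v p hv
    by_cases t : v.1 ≤ 2 * xm
    · obtain ⟨a, rfl⟩ : ∃ a, v = (2 * xm, 2 * a) := ⟨v.2 / 2, Prod.ext (by omega) (by omega)⟩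
      dsimp only at hv
      simp only [φ]
      rw [if_pos le_rfl, u1.bdry xm a (by omega) (by omega) (by omega) (by omega) (by omega),
        u2.bdry a xm (by omega) (by omega) (by omega) (by omega) (by omega)]
      simp only [Prod.mk.injEq, and_true]; omega
    · exact if_neg t
  have a2 := agr_rect v2
  have g1 := u1.gen.congr (h' := h) (fun _ => Iff.rfl)
    (agr_rect (fun v _ hv => (if_pos hv.2.1 : φ v = φ1 v)))
    (fun c b hc hb => by rw [e1 c hc, e1 b hb])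
  have g2 := (u2.gen.refl prefl_t).congr (h' := h) tr (fun c hc => a2 c ((tr c).2 hc))
    (fun c b hc hb => by rw [e2 c ((tr c).2 hc), e2 b ((tr b).2 hb), sq_lt lh])
  have in2 : ∀ c, Rect xm x1 y0 y1 c → Hk (1, g - 1) < h c ∧ h c < Hk (1, g - 1 + 1) :=
    fun c hc => by rw [e2 c hc]; exact sq_mem lh _
  have L11 : ∀ {c b}, Bd (Rect x0 xm y0 y1) c → Bd (Rect x0 xm y0 y1) b →
      (h c < h b ↔ klt (bkey ξ c) (bkey ξ b)) := fun hc hb => by
    rw [(hp.bd hc).2, (hp.bd hb).2, Hk_lt]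
  have L12 : ∀ {c b}, Bd (Rect x0 xm y0 y1) c → Bd (Rect xm x1 y0 y1) b →
      (h c < h b ↔ ¬ klt (1, g - 1) (bkey ξ c)) := fun hc hb => by
    rw [(hp.bd hc).2]
    exact (gap_lt (klo := (1, g - 1)) (khi := (1, g - 1 + 1)) ⟨rfl, rfl⟩ (in2 _ hb.1)).1
  have L21 : ∀ {c b}, Bd (Rect xm x1 y0 y1) c → Bd (Rect x0 xm y0 y1) b →
      (h c < h b ↔ ¬ klt (bkey ξ b) (1, g - 1 + 1)) := fun hc hb => by
    rw [(hp.bd hb).2]
    exact (gap_lt (klo := (1, g - 1)) (khi := (1, g - 1 + 1)) ⟨rfl, rfl⟩ (in2 _ hc.1)).2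
  have L22 : ∀ {c b}, Bd (Rect xm x1 y0 y1) c → Bd (Rect xm x1 y0 y1) b →
      (h c < h b ↔ klt (bkey g (tcell b)) (bkey g (tcell c))) := fun hc hb => by
    rw [e2 _ hc.1, e2 _ hb.1, sq_lt lh, neg_lt_neg_iff, u2.ord_iff (tb _ hb) (tb _ hc)]
  have bd : ∀ c, Bd (Rect x0 x1 y0 y1) c → Bd (Rect x0 xm y0 y1) c ∨ Bd (Rect xm x1 y0 y1) c := by
    intro c; unfold Bd Rect; omega
  refine ⟨φ, h, ⟨u1.d1, by omega, u1.d3, ?_, ?_, ?_⟩, trivial⟩
  · refine nest_gen (klo := (1, g - 1)) (khi := (1, g - 1 + 1)) hp g1 g2 ?_ ?_ ?_ in2 ⟨rfl, rfl⟩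
      ?_ ?_ ?_ ?_ hF n1 n2 bd ?_
    · intro c hc o
      rw [(a2 c hc).K, prefl_t.K]
      refine T2 _ ((tr c).1 hc) ?_
      rw [prefl_t.o]
      exact (a2 c hc).1.symm.trans o
    · intro c; unfold Rect; omega
    · intro c; unfold Rect; omega
    · unfold Rng; dsimp only; omega
    · unfold Rng; dsimp only; omega
    · dsimp only; omega
    · intro c e r1 r2
      refine nb_g_of (c := c) ?_
      unfold Rect at *; omega
    · intro c b r1 r2 bb l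
      have c1 : Bd (Rect x0 xm y0 y1) c := ⟨r1, by unfold Rect at *; omega⟩
      have c2 : Bd (Rect xm x1 y0 y1) (c.nb .g) := ⟨r2, by rw [nb_gg]; unfold Rect at *; omega⟩
      obtain ⟨y, rfl⟩ : ∃ y, c = ⟨xm - 1, y, .e⟩ := by
        rcases c with ⟨x, y, d⟩
        refine ⟨y, ?_⟩
        cases d <;> simp only [Rect, Cell.nb, Cell.mk.injEq, reduceCtorEq, and_false, and_true,
          true_and] at r1 r2 ⊢ <;> omega
      rcases b with ⟨x', y', d'⟩
      rcases bb with bb | bb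
      · rw [L11 c1 bb, L12 bb c2, L21 c2 bb, L11 bb c1] at l
        have b2 : Bd (Rect xm x1 y0 y1) ((⟨x', y', d'⟩ : Cell).nb .g) ∧ d' = .e := by
          cases d' <;> simp only [Bd, Rect, Cell.nb, bkey, klt, reduceCtorEq, and_false,
            and_true, true_and] at * <;> omega
        obtain ⟨b2, rfl⟩ := b2
        rw [L12 c1 b2, L22 b2 c2, L22 c2 b2, L21 b2 c1]
        simp only [Bd, Rect, Cell.nb, tcell, bkey, klt, true_and] at *
        omega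
      · rw [L12 c1 bb, L22 bb c2, L22 c2 bb, L21 bb c1] at l
        have b2 : Bd (Rect x0 xm y0 y1) ((⟨x', y', d'⟩ : Cell).nb .g) ∧ d' = .w := by
          cases d' <;> simp only [Bd, Rect, Cell.nb, tcell, bkey, klt, reduceCtorEq, and_false,
            and_true, true_and] at * <;> omega
        obtain ⟨b2, rfl⟩ := b2
        rw [L11 c1 b2, L12 b2 c2, L21 c2 b2, L11 b2 c1]
        simp only [Bd, Rect, Cell.nb, tcell, bkey, klt, true_and] at *
        omega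
  · intro a b r1 r2 r3 r4 r5
    by_cases t : a ≤ xm
    · simp only [φ]
      rw [if_pos (by omega)]
      by_cases t' : a = xm
      · exact u1.bdry a b r1 t r3 r4 (by omega)
      · exact u1.bdry a b r1 t r3 r4 (by omega)
    · rw [v2 _ (by dsimp only; omega) (by dsimp only; omega)]
      dsimp only
      rw [u2.bdry b a r3 r4 (by omega) r2 (by omega)]
      simp only [Prod.mk.injEq, and_true]; omega
  · intro c b hc hb k
    rcases bd c hc with c1 | c1 <;> rcases bd b hb with b1 | b1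
    · exact (L11 c1 b1).2 k
    all_goals
      first | rw [L12 c1 b1] | rw [L21 c1 b1] | rw [L22 c1 b1]
      rcases c with ⟨x, y, d⟩
      rcases b with ⟨x', y', d'⟩
      cases d <;> cases d' <;> simp only [Bd, Rect, Cell.nb, tcell, bkey, klt, true_and] at * <;>
        omega

end Pool.Agent.MP_3b5bbf_co

end

section

/-! The leaf gadget and the recursive tree of tubes. -/

set_option linter.unusedSimpArgs false

namespace Pool.Agent.MP_3b5bbf_co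

section ops
variable {E : Extra} {X Y o : ℤ} {F : V → Prop} {St : V → V → Prop} {Cv : V → Prop}

theorem Tb.r (t : Tb E X Y o F St Cv) (hn : ¬ F (1, -1)) :
    Tb Pure (X + 2) (Y + 2) (o + 1) (fun v => (v.1 = 1 ∧ v.2 = 1) ∨ F (v.1, v.2 - 2))
      (fun v w => (v.1 = 1 ∧ w.1 = 1 ∧ ((v.2 = 1 ∧ w.2 = 3) ∨ (v.2 = 3 ∧ w.2 = 1))) ∨
        St (v.1, v.2 - 2) (w.1, w.2 - 2))
      (fun v => (v.1 = 1 ∧ v.2 = 1) ∨ Cv (v.1, v.2 - 2)) := by
  refine t.ring hn (by simp) (fun v a => Or.inr (by simpa using a)) (fun _ => by simp)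
    (fun v w a => Or.inr (by simpa using a)) (fun v a => ?_)
  simp only [add_sub_cancel_right, Prod.mk.eta, Prod.ext_iff] at a ⊢
  exact a.imp (by omega) id

theorem Tb.op (t : Tb E X Y o F St Cv) (hn : ¬ F (1, -1)) :
    Tb (Turned KO) (X + 2) (Y + 2) (o + 1) (fun v => (v.1 = 1 ∧ v.2 = 1) ∨ F (v.2, v.1 - 2))
      (fun v w => (v.2 = 1 ∧ w.2 = 1 ∧ ((v.1 = 1 ∧ w.1 = 3) ∨ (v.1 = 3 ∧ w.1 = 1))) ∨
        St (v.2, v.1 - 2) (w.2, w.1 - 2))
      (fun v => ¬ (v.1 = 1 ∧ v.2 = 1) ∧ Cv (v.2, v.1 - 2)) := by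
  refine t.turnO hn (by simp) (fun v a => Or.inr (by simpa using a)) (fun _ => by simp)
    (fun v w a => Or.inr (by simpa using a)) (fun v _ _ a => ?_)
  simp only [add_sub_cancel_right, Prod.mk.eta, Ne, Prod.ext_iff] at a ⊢
  exact ⟨by omega, a.2⟩

theorem Tb.cl (t : Tb E X Y o F St Cv) (hn : ¬ F (1, -1)) :
    Tb (Turned KC) (X + 2) (Y + 2) (o + 1) (fun v => (v.1 = 1 ∧ v.2 = 1) ∨ F (2 - v.2, -v.1))
      (fun v w => (v.2 = 1 ∧ w.2 = 1 ∧ ((v.1 = 1 ∧ w.1 = -1) ∨ (v.1 = -1 ∧ w.1 = 1))) ∨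
        St (2 - v.2, -v.1) (2 - w.2, -w.1))
      (fun v => ¬ (v.1 = 1 ∧ v.2 = 1) ∧ Cv (2 - v.2, -v.1)) := by
  refine t.turnC hn (by simp) (fun v a => Or.inr (by simpa using a)) (fun _ => by simp)
    (fun v w a => Or.inr (by simpa using a)) (fun v _ _ a => ?_)
  simp only [sub_sub_cancel, neg_neg, Prod.mk.eta, Ne, Prod.ext_iff] at a ⊢
  exact ⟨by omega, a.2⟩

theorem Tb.rings (t : Tb E X Y o F St Cv) (hn : ∀ s, s ≤ -1 → ¬ F (1, s)) (n : ℕ) :
    Tb Any (X + 2 * n) (Y + 2 * n) (o + n)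
      (fun v => (v.1 = 1 ∧ 1 ≤ v.2 ∧ v.2 ≤ 2 * n - 1) ∨ F (v.1, v.2 - 2 * n))
      (fun v w => (v.1 = 1 ∧ w.1 = 1 ∧ v.2 % 2 = 1 ∧ w.2 % 2 = 1) ∨
        St (v.1, v.2 - 2 * n) (w.1, w.2 - 2 * n))
      (fun v => Cv (v.1, v.2 - 2 * n)) := by
  induction n with
  | zero =>
    exact t.any.mono (by simp) (by simp) (by simp) (fun v a => Or.inr (by simpa using a))
      (fun v w _ _ a => Or.inr (by simpa using a)) (fun v _ _ a => by simpa using a)
  | succ n ih =>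
    have e : ∀ a : ℤ, a - 2 * ((n + 1 : ℕ) : ℤ) = a - 2 - 2 * n := fun a => by push_cast; ring
    refine (ih.r ?_).any.mono (by push_cast; ring) (by push_cast; ring) (by push_cast; ring)
      ?_ ?_ ?_
    · rintro (a | a)
      · dsimp only at a; omega
      · exact hn _ (by dsimp only; omega) a
    · rintro v (a | a | a)
      · left; omega
      · left; dsimp only at a; omega
      · right; rw [e]; exact a
    · rintro v w - - (a | a | a)
      · left; omega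
      · left; dsimp only at a; omega
      · right; rw [e, e]; exact a
    · intro v _ _ a
      right; rw [e] at a; exact a

end ops

def Box (a b c d : ℤ) (v : V) : Prop := a ≤ v.1 ∧ v.1 ≤ b ∧ c ≤ v.2 ∧ v.2 ≤ d

theorem finger {w ξ : ℤ} (h1 : 5 < ξ) (h2 : ξ + 5 < w) :
    Tb (Turned KO) w 10 ξ (Box 1 9 1 1) (fun _ _ => True) (Box 3 9 1 1) := by
  refine ((((((tb_base (X := w - 10) (o := ξ - 5) (by omega) (by omega)).r ?_).r ?_).r ?_).r ?_).op
    ?_).mono (by ring) (by ring) (by ring) ?_ (fun _ _ _ _ _ => trivial) ?_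
  all_goals first | exact not_false | (simp only [Box, or_false]; intros; omega)

theorem comb_step {w Y ξ k : ℤ} (t : Tb Any w Y ξ (Box 1 9 1 k) (fun _ _ => True) (Box 1 9 1 k))
    (h1 : 4 < ξ) (h2 : ξ + 4 < w) (hY : Y % 2 = 0) (hk : -1 ≤ k) :
    Tb Any (w + 2) (Y + 12) (ξ + 1) (Box 1 9 1 (k + 2)) (fun _ _ => True) (Box 1 9 1 (k + 2)) := by
  refine ((t.r ?_).nestTop (finger (ξ := ξ + 1) (by omega) (by omega)) (by omega) ?_ ?_ ?_).mono
    rfl (by ring) rfl ?_ (fun _ _ _ _ _ => trivial) ?_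
  all_goals simp only [Box, Prod.ext_iff]
  all_goals omega

theorem comb {π : ℤ} (h : π = 0 ∨ π = 1) :
    Tb Any 60 60 (10 + π) (Box 1 9 1 9) (fun v w => Box 1 9 1 9 v ∧ Box 1 9 1 9 w)
      (Box 1 9 1 9) := by
  have t0 : Tb Any 50 0 (5 + π) (Box 1 9 1 (-1)) (fun _ _ => True) (Box 1 9 1 (-1)) :=
    (tb_base (by omega) (by omega)).mono rfl rfl rfl (fun _ a => a.elim) (fun _ _ _ _ _ => trivial)
      (fun v _ _ a => by unfold Box at a; omega)
  have t1 := comb_step t0 (by omega) (by omega) (by omega) (by omega)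
  have t2 := comb_step t1 (by omega) (by omega) (by omega) (by omega)
  have t3 := comb_step t2 (by omega) (by omega) (by omega) (by omega)
  have t4 := comb_step t3 (by omega) (by omega) (by omega) (by omega)
  have t5 := comb_step t4 (by omega) (by omega) (by omega) (by omega)
  exact t5.mono (by ring) (by ring) (by ring) (fun _ a => a) (fun _ _ a b _ => ⟨a, b⟩)
    (fun _ _ _ a => a)

/-- footprint of a subtree -/
def FT (W h : ℤ) (v : V) : Prop :=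
  -10 * W - 3 ≤ v.1 ∧ v.1 ≤ 10 * W + 5 ∧ 1 ≤ v.2 ∧ v.2 ≤ 10 * h + 1 ∧
    (v.2 ≤ 2 → -3 ≤ v.1 ∧ v.1 ≤ 1)

/-- admissible steps relative to the board cells with corner `(α, β)` -/
def SG (α β δ : ℤ) (v w : V) : Prop :=
  ((v.1 - α) / 10 = (w.1 - α) / 10 ∧ (v.2 - β) / 10 = (w.2 - β) / 10) ∨
  (v.1 = w.1 ∧ ((v.1 - α) % 20 = 15 ∨ (δ = 0 ∧
    (((v.1 - α) % 20 = 1 ∧ (v.2 + w.2 - 2 * β) % 40 = 0) ∨
      ((v.1 - α) % 20 = 9 ∧ (v.2 + w.2 - 2 * β) % 40 = 20))))) ∨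
  (v.2 = w.2 ∧ ((v.2 - β) % 20 = 15 ∨ (δ = 1 ∧
    (((v.2 - β) % 20 = 1 ∧ (v.1 + w.1 - 2 * α) % 40 = 0) ∨
      ((v.2 - β) % 20 = 9 ∧ (v.1 + w.1 - 2 * α) % 40 = 20)))))

def Odd2 (v w : V) : Prop := v.1 % 2 = 1 ∧ v.2 % 2 = 1 ∧ w.1 % 2 = 1 ∧ w.2 % 2 = 1

def Rel (σ α a b α' a' b' : ℤ) : Prop :=
  ((a - α) / 10 = (b - α) / 10 → (a' - α') / 10 = (b' - α') / 10) ∧ (a = b → a' = b') ∧
  ((a - α) % 20 = 15 → (a' - α') % 20 = 15) ∧
  ((a - α) % 20 = 1 → (a' - α') % 20 = 1 + 8 * σ) ∧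
  ((a - α) % 20 = 9 → (a' - α') % 20 = 9 - 8 * σ) ∧
  ((a + b - 2 * α) % 40 = 0 → (a' + b' - 2 * α') % 40 = 20 * σ) ∧
  ((a + b - 2 * α) % 40 = 20 → (a' + b' - 2 * α') % 40 = 20 - 20 * σ)

theorem rel_pos {α a b α' a' b' : ℤ} (h1 : a' - a = b' - b) (h2 : (a' - α' - (a - α)) % 20 = 0) :
    Rel 0 α a b α' a' b' := by
  unfold Rel
  refine ⟨?_, ?_, ?_, ?_, ?_, ?_, ?_⟩ <;> omega

theorem rel_neg {α a b α' a' b' : ℤ} (h1 : a' + a = b' + b) (h2 : (a' - α' + (a - α)) % 20 = 10)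
    (h3 : (a - α) % 2 = 1) (h4 : (b - α) % 2 = 1) : Rel 1 α a b α' a' b' := by
  unfold Rel
  refine ⟨?_, ?_, ?_, ?_, ?_, ?_, ?_⟩ <;> omega

theorem rel_corner {σ α a b α' a' b' β c d β' c' d' : ℤ} (hσ : σ = 0 ∨ σ = 1)
    (r1 : Rel σ α a b α' a' b') (r2 : Rel σ β c d β' c' d')
    (h : ((a - α) % 20 = 1 ∧ (c + d - 2 * β) % 40 = 0) ∨
      ((a - α) % 20 = 9 ∧ (c + d - 2 * β) % 40 = 20)) :
    ((a' - α') % 20 = 1 ∧ (c' + d' - 2 * β') % 40 = 0) ∨
      ((a' - α') % 20 = 9 ∧ (c' + d' - 2 * β') % 40 = 20) := by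
  rcases h with h | h
  · have e1 := r1.2.2.2.1 h.1
    have e2 := r2.2.2.2.2.2.1 h.2
    rcases hσ with rfl | rfl
    · exact Or.inl ⟨e1, e2⟩
    · exact Or.inr ⟨e1, e2⟩
  · have e1 := r1.2.2.2.2.1 h.1
    have e2 := r2.2.2.2.2.2.2 h.2
    rcases hσ with rfl | rfl
    · exact Or.inr ⟨e1, e2⟩
    · exact Or.inl ⟨e1, e2⟩

theorem SG.str {α β δ α' β' : ℤ} {v w v' w' : V} (h : SG α β δ v w) {σ : ℤ} (hσ : σ = 0 ∨ σ = 1)
    (r1 : Rel σ α v.1 w.1 α' v'.1 w'.1) (r2 : Rel σ β v.2 w.2 β' v'.2 w'.2) :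
    SG α' β' δ v' w' := by
  rcases h with h | h | h
  · exact Or.inl ⟨r1.1 h.1, r2.1 h.2⟩
  · exact Or.inr (Or.inl ⟨r1.2.1 h.1, h.2.imp r1.2.2.1 (fun a => ⟨a.1, rel_corner hσ r1 r2 a.2⟩)⟩)
  · exact Or.inr (Or.inr ⟨r2.2.1 h.1, h.2.imp r2.2.2.1 (fun a => ⟨a.1, rel_corner hσ r2 r1 a.2⟩)⟩)

theorem SG.sw {α β δ α' β' δ' : ℤ} {v w v' w' : V} (h : SG α β δ v w) (hδ : δ' = 1 - δ)
    {σ : ℤ} (hσ : σ = 0 ∨ σ = 1) (r1 : Rel σ α v.1 w.1 β' v'.2 w'.2)
    (r2 : Rel σ β v.2 w.2 α' v'.1 w'.1) : SG α' β' δ' v' w' := by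
  rcases h with h | h | h
  · exact Or.inl ⟨r2.1 h.2, r1.1 h.1⟩
  · exact Or.inr (Or.inr ⟨r1.2.1 h.1,
      h.2.imp r1.2.2.1 (fun a => ⟨by omega, rel_corner hσ r1 r2 a.2⟩)⟩)
  · exact Or.inr (Or.inl ⟨r2.2.1 h.1,
      h.2.imp r2.2.2.1 (fun a => ⟨by omega, rel_corner hσ r2 r1 a.2⟩)⟩)

def Own (α β : ℤ) (v : V) : Prop := (v.1 - α) % 20 < 10 ∧ (v.2 - β) % 20 < 10

def TG (X Y o W h δ : ℤ) : Prop :=
  Tb Any X Y o (FT W h) (fun v w => Odd2 v w → SG (-4 - 10 * W) 2 δ v w)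
    (fun v => Own (-4 - 10 * W) 2 v ∧ Box (-10 * W - 3) (10 * W + 5) 3 (10 * h + 1) v)

theorem leaf {π : ℤ} (h : π = 0 ∨ π = 1) : TG 66 66 (13 + π) 0 1 0 := by
  refine ((((comb h).cl ?_).r ?_).cl ?_).any.mono (by ring) (by ring) (by ring) ?_ ?_ ?_
  · simp only [Box]; omega
  · simp only [Box]; omega
  · simp only [Box]; omega
  · intro v; simp only [Box, FT]; omega
  · rintro v w - - (a | a | a | a) od
    · left; omega
    · left; dsimp only at a; omega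
    · right; left; dsimp only at a; omega
    · left; simp only [Box] at a; omega
  · intro v; simp only [Box, Own]; omega

/-- footprint of a junction -/
def FJ (W h : ℤ) (v : V) : Prop :=
  -10 * h - 3 ≤ v.1 ∧ v.1 ≤ 10 * h + 5 ∧ -10 * W - 1 ≤ v.2 ∧ v.2 ≤ 10 * W + 7 ∧
    (-3 ≤ v.1 → v.1 ≤ 5 → -1 ≤ v.2 ∧ v.2 ≤ 7) ∧ (-1 ≤ v.1 → v.1 ≤ 3 → 1 ≤ v.2)

def TJ (X Y o W h δ : ℤ) : Prop :=
  Tb Any X Y o (FJ W h) (fun v w => Odd2 v w → SG 6 (-2 - 10 * W) δ v w)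
    (fun v => Own 6 (-2 - 10 * W) v ∧ Box (-10 * h - 3) (10 * h + 5) (-10 * W - 1) (10 * W + 7) v)

theorem armW {X Y o W h δ : ℤ} (t : TG X Y o W h δ) (hW : 0 ≤ W) (hh : 0 ≤ h) :
    Tb Pure (X + 6) (Y + 6) (o + 3) (fun v => FJ W h v ∧ v.1 ≤ 1)
      (fun v w => Odd2 v w → SG 6 (-2 - 10 * W) (1 - δ) v w)
      (fun v => Own 6 (-2 - 10 * W) v ∧ Box (-10 * h - 3) (-5) (-10 * W - 1) (10 * W + 7) v) := by
  refine (((Tb.r t ?_).cl ?_).r ?_).mono (by ring) (by ring) (by ring) ?_ ?_ ?_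
  · simp only [FT]; omega
  · simp only [FT]; omega
  · simp only [FT]; omega
  · intro v; simp only [FJ, FT]; omega
  · rintro v w - - (a | a | a | a) od
    · left; omega
    · left; dsimp only at a; omega
    · left; dsimp only at a; omega
    · unfold Odd2 at *
      dsimp only at a
      exact (a (by omega)).sw rfl (Or.inr rfl)
        (rel_neg (by dsimp only; omega) (by dsimp only; omega) (by dsimp only; omega)
          (by dsimp only; omega))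
        (rel_neg (by dsimp only; omega) (by dsimp only; omega) (by dsimp only; omega)
          (by dsimp only; omega))
  · intro v; simp only [Box, Own]; omega

theorem armE {X Y o W h δ : ℤ} (t : TG X Y o W h δ) (hW : 0 ≤ W) (hh : 0 ≤ h) :
    Tb (Turned KO) (X + 6) (Y + 6) (o + 3)
      (fun v => FJ W h v ∧ 1 ≤ v.1 ∧ (v.1 = 1 → v.2 = 1))
      (fun v w => Odd2 v w → SG 6 (-2 - 10 * W) (1 - δ) v w)
      (fun v => Own 6 (-2 - 10 * W) v ∧ Box 7 (10 * h + 5) (-10 * W - 1) (10 * W + 7) v) := by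
  refine (((Tb.op t ?_).op ?_).op ?_).mono (by ring) (by ring) (by ring) ?_ ?_ ?_
  · simp only [FT]; omega
  · simp only [FT]; omega
  · simp only [FT]; omega
  · intro v; simp only [FJ, FT]; omega
  · rintro v w - - (a | a | a | a) od
    · left; omega
    · left; dsimp only at a; omega
    · left; dsimp only at a; omega
    · unfold Odd2 at *
      dsimp only at a
      exact (a (by omega)).sw rfl (Or.inl rfl)
        (rel_pos (by dsimp only; omega) (by dsimp only; omega))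
        (rel_pos (by dsimp only; omega) (by dsimp only; omega))
  · intro v; simp only [Box, Own]; omega

theorem juncTop {X Y o W h δ : ℤ} (t : TG X Y o W h δ) (hW : 0 ≤ W) (hh : 0 ≤ h)
    (hY : Y % 2 = 0) : TJ (X + 6) (2 * Y + 12) (o + 3) W h (1 - δ) := by
  refine ((armW t hW hh).nestTop (armE t hW hh) (by omega) ?_ ?_ ?_).mono rfl (by ring) rfl
    ?_ ?_ ?_
  · intro v; simp only [Prod.ext_iff]; omega
  · simp only [FJ]; omega
  · simp only [FJ]; omega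
  · exact fun v a => a.elim And.left And.left
  · exact fun v w _ _ a => a.elim id id
  · intro v; simp only [Box, Own, Prod.ext_iff]; omega

theorem juncRight {X Y o W h δ : ℤ} (t : TG X Y o W h δ) (t' : TG Y X o W h δ) (hW : 0 ≤ W)
    (hh : 0 ≤ h) (hX : X % 2 = 0) : TJ (2 * X + 12) (Y + 6) (o + 3) W h (1 - δ) := by
  refine ((armW t hW hh).nestRight (armE t' hW hh) (by omega) ?_ ?_ ?_).mono (by ring) rfl rfl
    ?_ ?_ ?_
  · intro v; simp only [Prod.ext_iff]; omega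
  · simp only [FJ]; omega
  · simp only [FJ]; omega
  · exact fun v a => a.elim And.left And.left
  · exact fun v w _ _ a => a.elim id id
  · intro v; simp only [Box, Own, Prod.ext_iff]; omega

theorem TJ.grow {X Y o W h δ : ℤ} (t : TJ X Y o W h δ) (hW : 0 ≤ W) (hh : h % 2 = 1)
    (h0 : 0 ≤ h) : TG (X + 10 * W + 4) (Y + 10 * W + 4) (o + 5 * W + 2) h (2 * W + 1) δ := by
  obtain ⟨n, hn⟩ : ∃ n : ℕ, (n : ℤ) = 5 * W + 2 := ⟨(5 * W + 2).toNat, by omega⟩
  refine (Tb.rings t ?_ n).mono (by omega) (by omega) (by omega) ?_ ?_ ?_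
  · intro s hs; simp only [FJ]; omega
  · intro v; simp only [FJ, FT]; omega
  · rintro v w - - (a | a) od
    · right; left; omega
    · unfold Odd2 at *
      dsimp only at a
      exact (a (by omega)).str (Or.inl rfl)
        (rel_pos (by dsimp only; omega) (by dsimp only; omega))
        (rel_pos (by dsimp only; omega) (by dsimp only; omega))
  · intro v; simp only [Box, Own]; omega

/-- a pair of subtrees on transposed rectangles -/
def Pair (a b o W h δ : ℤ) : Prop := TG a b o W h δ ∧ TG b a o W h δ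

theorem Pair.junc {a b o W h δ : ℤ} (p : Pair a b o W h δ) (hW : 0 ≤ W) (h0 : 0 ≤ h)
    (ha : a % 2 = 0) : TJ (b + 6) (2 * a + 12) (o + 3) W h (1 - δ) ∧
      TJ (2 * a + 12) (b + 6) (o + 3) W h (1 - δ) :=
  ⟨juncTop p.2 hW h0 ha, juncRight p.1 p.2 hW h0 ha⟩

theorem Pair.step {a b o W h δ : ℤ} (p : Pair a b o W h δ) (hW : 0 ≤ W) (h0 : 0 ≤ h)
    (hh : h % 2 = 1) (ha : a % 2 = 0) :
    Pair (b + 6 + 10 * W + 4) (2 * a + 12 + 10 * W + 4) (o + 3 + 5 * W + 2) h (2 * W + 1)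
      (1 - δ) :=
  ⟨(p.junc hW h0 ha).1.grow hW hh h0, (p.junc hW h0 ha).2.grow hW hh h0⟩

/-- the trees after an even number of levels -/
theorem trees (n : ℕ) : ∃ a b o W : ℤ, W + 1 = 2 ^ n ∧ a % 2 = 0 ∧ b % 2 = 0 ∧ a ≤ b ∧
    4 * b + 10 * W ≤ 6 * a + 16 ∧ b + 6 ≤ (W + 1) * (72 + 20 * n) ∧
    ∀ π, π = 0 ∨ π = 1 → Pair a b (o + π) W (2 * W + 1) 0 := by
  induction n with
  | zero =>
    exact ⟨66, 66, 13, 0, by norm_num, by norm_num, by norm_num, by norm_num, by norm_num,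
      by norm_num, fun π h => ⟨leaf h, leaf h⟩⟩
  | succ n ih =>
    obtain ⟨a, b, o, W, h1, h2, h3, h4, h5, h6, p⟩ := ih
    have hW : 0 ≤ W := by have : (0 : ℤ) < 2 ^ n := by positivity
                          omega
    refine ⟨2 * a + 30 * W + 36, 2 * b + 40 * W + 46, o + 15 * W + 15, 2 * W + 1,
      by rw [pow_succ]; omega, by omega, by omega, by omega, by omega,
      by push_cast; nlinarith, fun π h => ?_⟩
    have := ((p π h).step hW (by omega) (by omega) h2).step (by omega) (by omega) (by omega)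
      (by omega)
    convert this using 1 <;> ring

end Pool.Agent.MP_3b5bbf_co

end

section

/-! Several overlapping folded regions joined along one common port edge. -/

set_option linter.unusedSimpArgs false

namespace Pool.Agent.MP_3b5bbf_co

theorem eps_grid {φ ψ : V → V} {c b : Cell} {e : Ed} (hc : Good φ c) (hb : Good ψ b)
    (he : eps φ c e = eps ψ b .g) : e = .g := by
  obtain ⟨c1, c2, -⟩ := hc.pq
  obtain ⟨b1, b2, -⟩ := hb.pq
  obtain ⟨c4, c5, c6, c7, -⟩ := hc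
  obtain ⟨b4, b5, b6, b7, -⟩ := hb
  cases e <;> simp only [eps, Prod.ext_iff, Prod.fst_add, Prod.snd_add] at * <;>
    first | rfl | omega

theorem nb_o_of {φ : V → V} {c : Cell} {e : Ed} (h : φ (c.nb e).o ≠ φ c.o) : e = .g := by
  cases e
  · rfl
  · rw [nb_a_o] at h; exact absurd rfl h
  · rw [nb_b_o] at h; exact absurd rfl h

theorem assemble {R : Cell → Prop} {φ : V → V} {h0 : Cell → ℚ} {reg L : Cell → ℤ}
    {h : Cell → ℤ ×ₗ ℚ} (hh : ∀ c, h c = toLex (L c, h0 c))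
    (Vi : ∀ i, Valid (fun c => R c ∧ reg c = i) φ h0)
    (Linj : ∀ c b, R c → R b → φ c.o = φ b.o → (L c = L b ↔ reg c = reg b))
    (X : ∀ c e, reg (c.nb e) ≠ reg c → e = .g)
    (Cl : ∀ c b, R c → R (c.nb .g) → R b → R (b.nb .g) → reg (c.nb .g) = reg c → reg b = reg c →
      reg (b.nb .g) ≠ reg b → K φ (c.nb .g) = K φ c → K φ b = K φ c →
      h0 c < h0 b → h0 b < h0 (c.nb .g) → False)
    (NS : ∀ c b, R c → R (c.nb .g) → R b → R (b.nb .g) → reg (c.nb .g) = reg c →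
      reg (b.nb .g) ≠ reg b → eps φ c .g = eps φ b .g → φ (c.nb .g).o = φ c.o)
    (SC : ∀ c b, R c → R (c.nb .g) → R b → R (b.nb .g) → reg (c.nb .g) = reg c →
      reg (b.nb .g) = reg b → φ b.o = φ c.o → φ (b.nb .g).o = φ (c.nb .g).o →
      φ (c.nb .g).o ≠ φ c.o → L c < L b → L (c.nb .g) < L (b.nb .g))
    (PA : ∀ c b, R c → R (c.nb .g) → R b → reg (c.nb .g) ≠ reg c → K φ (c.nb .g) = K φ c →
      K φ b = K φ c → L c ≤ L b → L b ≤ L (c.nb .g) → reg b = reg c ∨ reg b = reg (c.nb .g))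
    (PT : ∀ c b, R c → R (c.nb .g) → R b → R (b.nb .g) → reg (c.nb .g) ≠ reg c →
      reg (b.nb .g) ≠ reg b → K φ (c.nb .g) = K φ c → K φ b = K φ c → h c < h b →
      h b < h (c.nb .g) → K φ (b.nb .g) = K φ c ∧ h c < h (b.nb .g) ∧ h (b.nb .g) < h (c.nb .g))
    (PO : ∀ c b, R c → R (c.nb .g) → R b → R (b.nb .g) → reg (c.nb .g) ≠ reg c →
      reg (b.nb .g) ≠ reg b → K φ (c.nb .g) ≠ K φ c → K φ b = K φ c →
      K φ (b.nb .g) = K φ (c.nb .g) → h c < h b → h (c.nb .g) < h (b.nb .g)) :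
    Valid R φ h := by
  have gd : ∀ c, R c → Good φ c := fun c hc => (Vi _).good c ⟨hc, rfl⟩
  have lt : ∀ c b, h c < h b ↔ L c < L b ∨ (L c = L b ∧ h0 c < h0 b) := fun c b => by
    rw [hh, hh, Prod.Lex.toLex_lt_toLex]
  have lt' : ∀ c b, L c = L b → (h c < h b ↔ h0 c < h0 b) := fun c b e => by
    rw [lt, e]; simp
  have le : ∀ c b, h c < h b → L c ≤ L b := fun c b l =>
    ((lt c b).1 l).elim le_of_lt (fun a => a.1.le)
  -- an inner taco at the port does not separate a port cell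
  have same : ∀ b β, R b → R (b.nb .g) → R β → R (β.nb .g) → reg (b.nb .g) = reg b →
      reg β = reg b → reg (β.nb .g) ≠ reg β → K φ (b.nb .g) = K φ b → K φ β = K φ b →
      (h0 β < h0 b → h0 β < h0 (b.nb .g)) ∧ (h0 b < h0 β → h0 (b.nb .g) < h0 β) := by
    intro b β h3 h4 h5 h6 r1 r2 r3 k1 k2
    have ne : h0 β ≠ h0 (b.nb .g) := by
      intro l
      have hc : β = b.nb .g := (Vi (reg b)).inj _ _ ⟨h5, r2⟩ ⟨h4, r1⟩ (k2.trans k1.symm) l
      rw [hc, nb_gg] at r3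
      exact r3 r1.symm
    constructor
    · intro l
      rcases lt_or_gt_of_ne ne with l1 | l1
      · exact l1
      · exact (Cl (b.nb .g) β h4 (by rwa [nb_gg]) h5 h6 (by rw [nb_gg, r1]) (r2.trans r1.symm) r3
          (by rw [nb_gg, k1]) (k2.trans k1.symm) l1 (by rwa [nb_gg])).elim
    · intro l
      rcases lt_or_gt_of_ne ne with l1 | l1
      · exact (Cl b β h3 h4 h5 h6 r1 r2 r3 k1 k2 l l1).elim
      · exact l1
  refine ⟨gd, ?_, ?_, ?_⟩
  · intro c b h1 h2 k e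
    rw [hh, hh] at e
    have e' := toLex.injective e
    rw [Prod.mk.injEq] at e'
    exact (Vi (reg b)).inj c b ⟨h1, (Linj c b h1 h2 (congrArg Prod.fst k)).1 e'.1⟩ ⟨h2, rfl⟩ k e'.2
  · intro c e b e' h1 h2 h3 h4 he k1 k2 l1 l2
    have o1 : φ (c.nb e).o = φ c.o := congrArg Prod.fst k1
    have o2 : φ b.o = φ c.o := congrArg Prod.fst k2
    have m1 := le _ _ l1
    have m2 := le _ _ l2
    by_cases r1 : reg (c.nb e) = reg c
    · have q1 := (Linj _ _ h2 h1 o1).2 r1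
      have q2 : L b = L c := by omega
      have r2 := (Linj _ _ h3 h1 o2).1 q2
      rw [lt' _ _ q2.symm] at l1
      rw [lt' _ _ (q2.trans q1.symm)] at l2
      by_cases r3 : reg (b.nb e') = reg b
      · have := (Vi (reg c)).taco c e b e' ⟨h1, rfl⟩ ⟨h2, r1⟩ ⟨h3, r2⟩ ⟨h4, r3.trans r2⟩ he k1 k2
          l1 l2
        have q3 := (Linj _ _ h4 h1 (congrArg Prod.fst this.1)).2 (r3.trans r2)
        exact ⟨this.1, (lt' _ _ q3.symm).2 this.2.1, (lt' _ _ (q3.trans q1.symm)).2 this.2.2⟩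
      · obtain rfl := X b e' r3
        obtain rfl := eps_grid (gd c h1) (gd b h3) he
        exact (Cl c b h1 h2 h3 h4 r1 r2 r3 k1 k2 l1 l2).elim
    · obtain rfl := X c e r1
      obtain rfl := eps_grid (gd b h3) (gd c h1) he.symm
      by_cases r3 : reg (b.nb .g) = reg b
      · have o3 := NS b c h3 h4 h1 h2 r3 r1 he.symm
        have k3 := K_g o3
        have q3 := (Linj _ _ h4 h3 o3).2 r3
        have q1 : L (c.nb .g) ≠ L c := fun a => r1 ((Linj _ _ h2 h1 o1).1 a)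
        refine ⟨k3.trans k2, ?_⟩
        rcases PA c b h1 h2 h3 r1 k1 k2 m1 m2 with r2 | r2
        · have q2 := (Linj _ _ h3 h1 o2).2 r2
          rw [lt' _ _ q2.symm] at l1
          exact ⟨(lt' _ _ (by omega)).2 ((same b c h3 h4 h1 h2 r3 r2.symm r1 k3 k2.symm).1 l1),
            (lt _ _).2 (Or.inl (by omega))⟩
        · have q2 := (Linj _ _ h3 h2 (o2.trans o1.symm)).2 r2
          rw [lt' _ _ q2] at l2
          exact ⟨(lt _ _).2 (Or.inl (by omega)), (lt' _ _ (by omega)).2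
            ((same b (c.nb .g) h3 h4 h2 (by rwa [nb_gg]) r3 r2.symm (by rw [nb_gg]; exact Ne.symm r1)
              k3 (k1.trans k2.symm)).2 l2)⟩
      · exact PT c b h1 h2 h3 h4 r1 r3 k1 k2 l1 l2
  · intro c e b e' h1 h2 h3 h4 he k1 k2 k3 l1
    have o2 : φ b.o = φ c.o := congrArg Prod.fst k2
    have o3 : φ (b.nb e').o = φ (c.nb e).o := congrArg Prod.fst k3
    by_cases r1 : reg (c.nb e) = reg c <;> by_cases r3 : reg (b.nb e') = reg b
    · rcases (lt _ _).1 l1 with l | ⟨q, l⟩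
      · rw [lt]
        left
        by_cases o1 : φ (c.nb e).o = φ c.o
        · have q1 := (Linj _ _ h2 h1 o1).2 r1
          have q2 := (Linj _ _ h4 h3 (o3.trans (o1.trans o2.symm))).2 r3
          omega
        · obtain rfl := nb_o_of o1
          obtain rfl := eps_grid (gd b h3) (gd c h1) he.symm
          exact SC c b h1 h2 h3 h4 r1 r3 o2 o3 o1 l
      · have r2 := (Linj _ _ h3 h1 o2).1 q.symm
        rw [lt' _ _ ((Linj _ _ h2 h4 o3.symm).2 (by rw [r1, r3, r2]))]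
        exact (Vi (reg c)).tort c e b e' ⟨h1, rfl⟩ ⟨h2, r1⟩ ⟨h3, r2⟩ ⟨h4, r3.trans r2⟩ he k1 k2 k3 l
    · obtain rfl := X b e' r3
      obtain rfl := eps_grid (gd c h1) (gd b h3) he
      exact absurd (K_g (NS c b h1 h2 h3 h4 r1 r3 he)) k1
    · obtain rfl := X c e r1
      obtain rfl := eps_grid (gd b h3) (gd c h1) he.symm
      have := K_g (NS b c h3 h4 h1 h2 r3 r1 he.symm)
      exact absurd (k3.symm.trans (this.trans k2)) k1
    · obtain rfl := X c e r1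
      obtain rfl := X b e' r3
      exact PO c b h1 h2 h3 h4 r1 r3 k1 k2 k3 l1

end Pool.Agent.MP_3b5bbf_co

end
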