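import Pool.Agent.Mg.F3b5bbfq.Gdf376a
import Pool.Agent.MP_3b5bbf_co.Defs

set_option linter.all false

section

/-! The discrete checkerboard on a square sheet. -/

set_option linter.unusedSimpArgs false

namespace Pool.Agent.MP_3b5bbf_co

def Board (R : Cell → Prop) (B col : V → Prop) : Prop :=
  ∃ (H : Type) (_ : LinearOrder H) (φ : V → V) (h : Cell → H),
    Valid R φ h ∧ Foot R φ B ∧ Top R φ h B col (fun _ => True)

theorem Board.mono {R R' B B' col col'} (b : Board R B col) (hR : ∀ c, R' c ↔ R c)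
    (hB : ∀ v : V, v.1 % 2 = 1 → v.2 % 2 = 1 → (B' v ↔ B v))
    (hc : ∀ v : V, v.1 % 2 = 1 → v.2 % 2 = 1 → (col' v ↔ col v)) : Board R' B' col' := by
  obtain rfl : R' = R := funext fun c => propext (hR c)
  obtain ⟨H, i, φ, h, hv, hf, ht⟩ := b
  refine ⟨H, i, φ, h, hv, fun c hc => (hB _ (hv.good c hc).1 (hv.good c hc).2.1).2 (hf c hc), ?_⟩
  intro κ h1 h2
  rw [hc _ h1.1 h1.2.1]
  exact ht κ h1 ((hB _ h1.1 h1.2.1).1 h2)

theorem Board.refl {R B col τ tv} (b : Board R B col) (r : PRefl τ tv) :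
    Board (fun c => R (τ c)) B (fun v => ¬ col v) := by
  obtain ⟨H, i, φ, h, hv, hf, ht⟩ := b
  refine ⟨H, i, _, _, hv.refl r, fun c hc => ?_, fun κ h1 h2 => ?_⟩
  · have := hf _ hc
    rwa [r.o] at this
  · obtain ⟨a, ha, ka, ext, w1, w2⟩ := ht κ h1 h2
    refine ⟨τ a, by simpa only [r.inv] using ha, by rw [r.K, r.inv, ka], fun c hc kc => ?_,
      fun t => by rw [r.white, r.inv]; exact (w2 t).1,
      fun t => ⟨by rw [r.black, r.inv]; exact w1 (not_not.1 t), trivial⟩⟩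
    rw [r.K] at kc
    simpa only [r.inv] using ext _ hc kc

theorem iso_swap {s t : ℤ} (hs : s % 2 = 0) (ht : t % 2 = 0) :
    Iso (fun v => (v.2 + s, v.1 + t)) where
  add := by intro a b c d; simp only [Prod.ext_iff, Prod.fst_add, Prod.snd_add]; omega
  inj := by intro a b; simp only [Prod.ext_iff]; omega
  good := by intro ψ c; unfold Good White Black; dsimp only; omega
  surj := by
    intro κ hκ
    refine ⟨((κ.1.2 - t, κ.1.1 - s), (κ.2.2 - 2 * t, κ.2.1 - 2 * s)), ?_, ?_, ?_⟩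
    · unfold IsKey at *; dsimp only; omega
    · simp
    · intro a b; simp only [Prod.ext_iff, Prod.fst_add, Prod.snd_add]; omega

theorem Board.swap {R B col} (b : Board R B col) {s t : ℤ} (hs : s % 2 = 0) (ht : t % 2 = 0) :
    Board R (fun v => B (v.2 - t, v.1 - s)) (fun v => ¬ col (v.2 - t, v.1 - s)) := by
  obtain ⟨H, i, φ, h, hv, hf, tp⟩ := b
  have hρ := iso_swap hs ht
  refine ⟨H, i, fun v => ((φ v).2 + s, (φ v).1 + t), h,
    hv.iso hρ (fun _ _ => ⟨rfl, rfl, rfl⟩) (fun _ _ _ _ _ => Iff.rfl),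
    fun c hc => by simpa using hf c hc, fun κ h1 h2 => ?_⟩
  obtain ⟨κ0, k1, k2, k3⟩ := hρ.surj κ h1
  have e : (κ.1.2 - t, κ.1.1 - s) = κ0.1 := by rw [← k2]; simp
  dsimp only at h2 ⊢
  rw [e] at h2 ⊢
  obtain ⟨a, ha, ka, ext, w1, w2⟩ := tp κ0 k1 h2
  have fw : K (fun v => ((φ v).2 + s, (φ v).1 + t)) a = κ := by
    unfold K at *
    rw [Prod.ext_iff] at ka ⊢
    exact ⟨by rw [← k2, ← ka.1], k3 _ _ ka.2⟩
  refine ⟨a, ha, fw, fun c hc kc => ext c hc ?_, fun t => ?_, fun t => ⟨?_, trivial⟩⟩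
  · rw [← fw] at kc
    exact ((hρ.K_iff φ c a).1 kc).trans ka
  · have := (w2 t).1
    unfold White Black at *; dsimp only; omega
  · have := w1 (not_not.1 t)
    unfold White Black at *; dsimp only; omega

theorem Board.fold {R col} {a b c d L : ℤ} (bd : Board R (Box a b c d) col) (hL : L % 2 = 0)
    (h1 : a ≤ 2 * L - b) (h2 : L ≤ b) : Board R (Box a L c d) col := by
  classical
  obtain ⟨H, i, φ, h, hv, hf, tp⟩ := bd
  let φ' : V → V := fun v => if (φ v).1 ≤ L then φ v else (2 * L - (φ v).1, (φ v).2)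
  let h' : Cell → Hᵒᵈ ⊕ₗ H := fun c =>
    if (φ c.o).1 < L then toLex (Sum.inr (h c)) else toLex (Sum.inl (OrderDual.toDual (h c)))
  have an : ∀ c, R c → (φ c.o).1 < L → Agr φ' φ c := by
    intro c hc n
    have g := hv.good c hc
    have := g.pq
    unfold Good at g
    exact ⟨if_pos (by omega), if_pos (by omega), if_pos (by omega)⟩
  have af : ∀ c, R c → ¬ (φ c.o).1 < L → Agr φ' (fun v => (2 * L - (φ v).1, (φ v).2)) c := by
    intro c hc n
    have g := hv.good c hc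
    have := g.pq
    unfold Good at g
    refine ⟨?_, ?_, ?_⟩ <;> simp only [φ'] <;> split_ifs <;>
      first | rfl | (simp only [Prod.ext_iff, and_true]; omega)
  have hn : ∀ c, (φ c.o).1 < L → h' c = toLex (Sum.inr (h c)) := fun c n => if_pos n
  have hfar : ∀ c, ¬ (φ c.o).1 < L → h' c = toLex (Sum.inl (OrderDual.toDual (h c))) :=
    fun c n => if_neg n
  have v1 : Valid R φ' (fun c => OrderDual.toDual (h' c)) := by
    refine hv.dual.fold (fun κ => κ.1.1 < L)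
      (fun κ => ((2 * L - κ.1.1, κ.1.2), (4 * L - κ.2.1, κ.2.2))) (fun v => (4 * L - v.1, v.2))
      ?_ ?_ ?_ (fun c hc n => (an c hc n).K) (fun c e hc n => (an c hc n).eps e) ?_ ?_ ?_ ?_ ?_ ?_
    · intro a b; simp only [Prod.ext_iff]; omega
    · intro a b; simp only [Prod.ext_iff]; omega
    · intro c hc
      by_cases n : (φ c.o).1 < L
      · exact (an c hc n).good (hv.good c hc)
      · refine (af c hc n).good ?_
        have g := hv.good c hc
        unfold Good White Black at *; dsimp only; omega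
    · intro c hc n
      rw [(af c hc n).K]
      simp only [K, Prod.ext_iff, Prod.fst_add, Prod.snd_add, and_true, true_and]; omega
    · intro c e hc n
      rw [(af c hc n).eps]
      cases e <;> simp only [eps, Prod.ext_iff, Prod.fst_add, Prod.snd_add, and_true] <;> omega
    · intro c e h1 h2 n1 n2
      obtain rfl : e = .g := nb_o_of (φ := φ) (c := c) (fun t => n2 (by simpa only [K, t] using n1))
      have g1 := hv.good _ h1
      have g2 := hv.good _ h2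
      have p1 := g1.pq
      have p2 := g2.pq
      unfold Good at g1 g2
      simp only [K, nb_g_p, nb_g_q, Prod.ext_iff, Prod.fst_add, Prod.snd_add] at *
      omega
    · intro c b _ _ n1 n2
      rw [hn c n1, hn b n2]; simp
    · intro c b _ _ n1 n2
      rw [hfar c n1, hfar b n2]; simp
    · intro c b _ _ n1 n2
      rw [hn c n1, hfar b n2]; simp
  have v2 : Valid R φ' h' :=
    v1.dual.iso iso_id (fun _ _ => ⟨rfl, rfl, rfl⟩) (fun _ _ _ _ _ => Iff.rfl)
  refine ⟨_, inferInstance, φ', h', v2, fun c hc => ?_, fun κ k1 k2 => ?_⟩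
  · have := hf c hc
    by_cases n : (φ c.o).1 < L
    · rw [(an c hc n).1]; unfold Box at *; omega
    · rw [(af c hc n).1]; unfold Box at *; dsimp only; omega
  · have lt : κ.1.1 < L := by
      have := k1.1
      unfold Box at k2; omega
    obtain ⟨t, ha, ka, ext, w1, w2⟩ := tp κ k1 (by unfold Box at *; omega)
    have na : (φ t.o).1 < L := by rw [show φ t.o = κ.1 from congrArg Prod.fst ka]; exact lt
    refine ⟨t, ha, (an t ha na).K.trans ka, fun c hc kc => ?_, fun u => (an t ha na).white (w1 u),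
      fun u => ⟨(an t ha na).black (w2 u).1, trivial⟩⟩
    rw [hn t na]
    by_cases n : (φ c.o).1 < L
    · rw [hn c n]
      simpa using ext c hc ((an c hc n).K.symm.trans kc)
    · rw [hfar c n]; simp

theorem Top.mono {H : Type} [LinearOrder H] {R φ} {h : Cell → H} {B col S S'}
    (t : Top R φ h B col S) (hS : ∀ a, S a → S' a) : Top R φ h B col S' := by
  intro κ k1 k2
  obtain ⟨a, r1, r2, r3, r4, r5⟩ := t κ k1 k2
  exact ⟨a, r1, r2, r3, r4, fun u => ⟨(r5 u).1, hS a (r5 u).2⟩⟩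

theorem board_pow (n : ℕ) : ∃ N : ℤ, 0 < N ∧ N ≤ 2 ^ (n + 2) * (89 + 20 * n) ∧
    Board (Rect 0 N 0 N) (Box 0 (10 * 2 ^ (n + 2)) 0 (10 * 2 ^ (n + 2)))
      (fun v => (v.1 / 10 + v.2 / 10) % 2 = 0) := by
  obtain ⟨a, b, o, W, h1, h2, h3, h4, h5, h6, p⟩ := trees n
  have hW : 0 ≤ W := by
    have : (0 : ℤ) < 2 ^ n := by positivity
    omega
  have j := fun π h => ((p π h).step hW (by omega) (by omega) h2).junc (by omega) (by omega)
    (by omega)
  have e : (1 : ℤ) - (1 - 0) = 0 := by norm_num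
  rw [e] at j
  have j0 := j 0 (Or.inl rfl)
  have j1 := j 1 (Or.inr rfl)
  rw [show o + 1 + 3 + 5 * W + 2 + 3 = o + 0 + 3 + 5 * W + 2 + 3 + 1 by ring] at j1
  have t21 := root21 j1.1 (by omega) (by omega)
  have t22 := root22 j1.2 (by omega) (by omega)
  rw [add_right_comm _ 1 7] at t21 t22
  obtain ⟨φ, h, hv, hf, ht⟩ := join (by omega) (root11 j0.1 (by omega) (by omega))
    (root12 j0.2 (by omega) (by omega)) t21 t22
  have pos : 0 < b := by
    obtain ⟨_, _, u, -⟩ := (p 0 (Or.inl rfl)).1 0 a 0 b (o + 0) (by ring) (by ring) (by ring)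
    have := u.d1
    have := u.d2
    omega
  generalize hX : 2 * a + 12 + 10 * W + 4 + 6 + 14 = X at *
  generalize hY : 2 * (b + 6 + 10 * W + 4) + 12 + 14 = Y at *
  obtain ⟨φ', h', hv', hf', ht'⟩ := double (E := 2 * Y - 2 * X) (by omega) hv hf (by omega)
    (ht.mono (fun a t => by omega))
  have bd : Board _ _ _ := ⟨_, inferInstance, φ', h', hv', hf', ht'⟩
  have pw : (2 : ℤ) ^ (n + 2) = 4 * (W + 1) := by rw [h1]; ring
  refine ⟨2 * Y, by omega, by rw [pw]; nlinarith, ?_⟩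
  rw [pw]
  refine ((bd.refl (prefl_m (2 * X))).swap (s := 20 * (W + 1) + 6) (t := 20 * (W + 1)) (by omega)
    (by omega)).mono ?_ ?_ ?_
  · intro c
    have := mcell_xy (2 * X) c
    unfold Rect; omega
  · intro v; simp only [Box, Brd]; omega
  · intro v; simp only [not_not]; omega

theorem board_all (k : ℕ) (hk : 2 ≤ k) : ∃ (n : ℕ) (N : ℤ), 2 ^ (n + 1) ≤ k ∧ 0 < N ∧
    N ≤ 2 * k * (89 + 20 * n) ∧
    Board (Rect 0 N 0 N) (Box 0 (10 * k) 0 (10 * k)) (fun v => (v.1 / 10 + v.2 / 10) % 2 = 0) := by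
  obtain ⟨n, h1, h2⟩ : ∃ n, 2 ^ (n + 1) ≤ k ∧ k < 2 ^ (n + 2) := by
    have a := Nat.pow_log_le_self 2 (show k ≠ 0 by omega)
    have b := Nat.lt_pow_succ_log_self (b := 2) (by norm_num) k
    have c : 0 < Nat.log 2 k := Nat.log_pos (by norm_num) hk
    obtain ⟨n, hn⟩ : ∃ n, Nat.log 2 k = n + 1 := ⟨Nat.log 2 k - 1, by omega⟩
    rw [hn] at a b
    exact ⟨n, a, b⟩
  obtain ⟨N, N0, N1, bd⟩ := board_pow n
  have e1 : (2 : ℤ) ^ (n + 2) ≤ 2 * k := by
    have : ((2 ^ (n + 1) : ℕ) : ℤ) ≤ k := by exact_mod_cast h1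
    push_cast at this
    rw [pow_succ]; omega
  have e2 : (k : ℤ) ≤ 2 ^ (n + 2) := by exact_mod_cast h2.le
  refine ⟨n, N, h1, N0, N1.trans (by gcongr), ?_⟩
  generalize (2 : ℤ) ^ (n + 2) = Q at *
  have b1 := bd.fold (L := 10 * k) (by omega) (by omega) (by omega)
  have b2 : Board _ (Box 0 (10 * Q) 0 (10 * k)) (fun v => ¬ (v.1 / 10 + v.2 / 10) % 2 = 0) :=
    (b1.swap (s := 0) (t := 0) rfl rfl).mono (fun _ => Iff.rfl)
      (by intro v; simp only [Box]; omega) (by intro v; dsimp only; omega)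
  have b3 := b2.fold (L := 10 * k) (by omega) (by omega) (by omega)
  exact (b3.swap (s := 0) (t := 0) rfl rfl).mono (fun _ => Iff.rfl)
    (by intro v; simp only [Box]; omega) (by intro v; dsimp only; omega)

end Pool.Agent.MP_3b5bbf_co

end

section

/-! Plane geometry of the lattice triangles. -/

set_option linter.unusedSimpArgs false

namespace Pool.Agent.MP_3b5bbf_co

open Set

def emb (s : ℝ) (w : V) : ℂ := ⟨w.1 * s, w.2 * s⟩

def lv (φ : V → V) (c : Cell) : Fin 3 → V := ![φ c.o, φ c.p, φ c.q]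

def vv (s : ℝ) (φ : V → V) (c : Cell) : Fin 3 → ℂ := fun i => emb s (lv φ c i)

theorem emb_inj {s : ℝ} (hs : 0 < s) {a b : V} (h : emb s a = emb s b) : a = b := by
  have h1 := congrArg Complex.re h
  have h2 := congrArg Complex.im h
  simp only [emb] at h1 h2
  exact Prod.ext (by exact_mod_cast mul_right_cancel₀ hs.ne' h1)
    (by exact_mod_cast mul_right_cancel₀ hs.ne' h2)

theorem mem_tri {w : Fin 3 → ℂ} {z : ℂ} :
    z ∈ tri w ↔ ∃ l : Fin 3 → ℝ, (∀ i, 0 ≤ l i) ∧ ∑ i, l i = 1 ∧ ∑ i, l i • w i = z := by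
  constructor
  · intro hz
    refine convexHull_min (t := {z | ∃ l : Fin 3 → ℝ, (∀ i, 0 ≤ l i) ∧ ∑ i, l i = 1 ∧
      ∑ i, l i • w i = z}) ?_ ?_ hz
    · rintro _ ⟨i, rfl⟩
      refine ⟨Pi.single i 1, fun j => ?_, by simp, ?_⟩
      · rw [Pi.single_apply]; split_ifs <;> norm_num
      · simp [Pi.single_apply]
    · rintro _ ⟨l, l1, l2, rfl⟩ _ ⟨m, m1, m2, rfl⟩ a b ha hb hab
      refine ⟨fun i => a * l i + b * m i, fun i => by have := l1 i; have := m1 i; positivity, ?_, ?_⟩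
      · rw [Finset.sum_add_distrib, ← Finset.mul_sum, ← Finset.mul_sum, l2, m2]; linarith
      · simp only [add_smul, Finset.sum_add_distrib, mul_smul, Finset.smul_sum]
  · rintro ⟨l, l1, l2, rfl⟩
    exact (convex_convexHull ℝ _).sum_mem (fun i _ => l1 i) l2
      (fun i _ => subset_convexHull ℝ _ ⟨i, rfl⟩)

theorem sep_far {ψ : V → V} {b : Cell} (hb : Good ψ b) {w : V} (w1 : w.1 % 2 = 0)
    (w2 : w.2 % 2 = 0) (n1 : ψ b.p ≠ w) (n2 : ψ b.q ≠ w) : ∃ α β : ℤ,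
      (α = 1 ∨ α = -1) ∧ (β = 1 ∨ β = -1) ∧
      2 ≤ α * ((ψ b.o).1 - w.1) + β * ((ψ b.o).2 - w.2) ∧
      2 ≤ α * ((ψ b.p).1 - w.1) + β * ((ψ b.p).2 - w.2) ∧
      2 ≤ α * ((ψ b.q).1 - w.1) + β * ((ψ b.q).2 - w.2) := by
  obtain ⟨b1, b2, -⟩ := hb.pq
  obtain ⟨b4, b5, b6, b7, -⟩ := hb
  rw [Ne, Prod.ext_iff] at n1 n2
  by_cases s1 : w.1 < (ψ b.o).1 <;> by_cases s2 : w.2 < (ψ b.o).2
  · exact ⟨1, 1, Or.inl rfl, Or.inl rfl, by clear b1 b2 b6 b7; omega, by clear b1 b2; omega,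
      by clear b6 b7; omega⟩
  · exact ⟨1, -1, Or.inl rfl, Or.inr rfl, by clear b1 b2 b6 b7; omega, by clear b1 b2; omega,
      by clear b6 b7; omega⟩
  · exact ⟨-1, 1, Or.inr rfl, Or.inl rfl, by clear b1 b2 b6 b7; omega, by clear b1 b2; omega,
      by clear b6 b7; omega⟩
  · exact ⟨-1, -1, Or.inr rfl, Or.inr rfl, by clear b1 b2 b6 b7; omega, by clear b1 b2; omega,
      by clear b6 b7; omega⟩

theorem sep_near {φ : V → V} {c : Cell} (hc : Good φ c) {α β : ℤ} (a1 : α = 1 ∨ α = -1)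
    (a2 : β = 1 ∨ β = -1) :
    (α * ((φ c.o).1 - (φ c.p).1) + β * ((φ c.o).2 - (φ c.p).2) ≤ 2 ∧
      α * ((φ c.q).1 - (φ c.p).1) + β * ((φ c.q).2 - (φ c.p).2) ≤ 2) ∧
    (α * ((φ c.o).1 - (φ c.q).1) + β * ((φ c.o).2 - (φ c.q).2) ≤ 2 ∧
      α * ((φ c.p).1 - (φ c.q).1) + β * ((φ c.p).2 - (φ c.q).2) ≤ 2) := by
  obtain ⟨c1, c2, c3⟩ := hc.pq
  obtain ⟨-, -, c6, c7, -⟩ := hc
  rcases a1 with rfl | rfl <;> rcases a2 with rfl | rfl <;> omega

theorem Good.bounds {φ : V → V} {c : Cell} (hc : Good φ c) (j : Fin 3) :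
    (φ c.o).1 - 1 ≤ (lv φ c j).1 ∧ (lv φ c j).1 ≤ (φ c.o).1 + 1 ∧
    (φ c.o).2 - 1 ≤ (lv φ c j).2 ∧ (lv φ c j).2 ≤ (φ c.o).2 + 1 := by
  obtain ⟨c1, c2, -⟩ := hc.pq
  obtain ⟨-, -, c6, c7, -⟩ := hc
  fin_cases j <;> simp [lv] <;> omega

theorem sep {φ ψ : V → V} {c b : Cell} (hc : Good φ c) (hb : Good ψ b) (i : Fin 3)
    (hi : ∀ j, lv ψ b j ≠ lv φ c i) : ∃ α β : ℤ,
    (∀ j, α * ((lv φ c j).1 - (lv φ c i).1) + β * ((lv φ c j).2 - (lv φ c i).2) ≤ 2) ∧
    (∀ j, 2 ≤ α * ((lv ψ b j).1 - (lv φ c i).1) + β * ((lv ψ b j).2 - (lv φ c i).2)) := by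
  fin_cases i
  · have h0 : ψ b.o ≠ φ c.o := hi 0
    have u := hc.bounds
    have u' := hb.bounds
    have c1 := hc.1
    have c2 := hc.2.1
    have b1 := hb.1
    have b2 := hb.2.1
    rw [Ne, Prod.ext_iff] at h0
    change ∃ α β : ℤ,
      (∀ j, α * ((lv φ c j).1 - (φ c.o).1) + β * ((lv φ c j).2 - (φ c.o).2) ≤ 2) ∧
      (∀ j, 2 ≤ α * ((lv ψ b j).1 - (φ c.o).1) + β * ((lv ψ b j).2 - (φ c.o).2))
    rcases (by omega : (φ c.o).1 < (ψ b.o).1 ∨ (ψ b.o).1 < (φ c.o).1 ∨ (φ c.o).2 < (ψ b.o).2 ∨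
      (ψ b.o).2 < (φ c.o).2) with t | t | t | t
    · exact ⟨2, 0, fun j => by have := u j; omega, fun j => by have := u' j; omega⟩
    · exact ⟨-2, 0, fun j => by have := u j; omega, fun j => by have := u' j; omega⟩
    · exact ⟨0, 2, fun j => by have := u j; omega, fun j => by have := u' j; omega⟩
    · exact ⟨0, -2, fun j => by have := u j; omega, fun j => by have := u' j; omega⟩
  · obtain ⟨α, β, a1, a2, a3⟩ := sep_far hb (w := φ c.p)
      (by have := hc.1; have := hc.2.2.1; omega) (by have := hc.2.1; have := hc.2.2.2.1; omega)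
      (hi 1) (hi 2)
    have := (sep_near hc a1 a2).1
    refine ⟨α, β, ?_, ?_⟩ <;> simp only [Fin.forall_fin_succ, IsEmpty.forall_iff, and_true]
    · exact ⟨this.1, by simp [lv], this.2⟩
    · exact a3
  · obtain ⟨α, β, a1, a2, a3⟩ := sep_far hb (w := φ c.q)
      (by have := hc.1; have := hc.pq.1; omega) (by have := hc.2.1; have := hc.pq.2.1; omega)
      (hi 1) (hi 2)
    have := (sep_near hc a1 a2).2
    refine ⟨α, β, ?_, ?_⟩ <;> simp only [Fin.forall_fin_succ, IsEmpty.forall_iff, and_true]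
    · exact ⟨this.1, this.2, by simp [lv]⟩
    · exact a3

theorem weight_zero {s : ℝ} (hs : 0 < s) {φ ψ : V → V} {c b : Cell} (hc : Good φ c)
    (hb : Good ψ b) {l : Fin 3 → ℝ} (l1 : ∀ i, 0 ≤ l i) (l2 : ∑ i, l i = 1)
    (hz : ∑ i, l i • vv s φ c i ∈ tri (vv s ψ b)) (i : Fin 3) (hi : ∀ j, lv ψ b j ≠ lv φ c i) :
    l i = 0 := by
  obtain ⟨α, β, a1, a2⟩ := sep hc hb i hi
  obtain ⟨m, m1, m2, e⟩ := mem_tri.1 hz
  let L : V → ℝ := fun w => α * (w.1 - (lv φ c i).1) + β * (w.2 - (lv φ c i).2)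
  have e1 := congrArg Complex.re e
  have e2 := congrArg Complex.im e
  simp only [vv, emb, Complex.re_sum, Complex.im_sum, Complex.smul_re, Complex.smul_im,
    smul_eq_mul, ← mul_assoc, ← Finset.sum_mul] at e1 e2
  have e1' := mul_right_cancel₀ hs.ne' e1
  have e2' := mul_right_cancel₀ hs.ne' e2
  have key : ∑ j, m j * L (lv ψ b j) = ∑ j, l j * L (lv φ c j) := by
    simp only [L, Fin.sum_univ_three] at *
    linear_combination α * e1' + β * e2' - (α * (lv φ c i).1 + β * (lv φ c i).2) * (m2 - l2)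
  have lo : 2 ≤ ∑ j, m j * L (lv ψ b j) := by
    calc (2 : ℝ) = ∑ j, m j * 2 := by rw [← Finset.sum_mul, m2]; ring
      _ ≤ _ := Finset.sum_le_sum fun j _ =>
        mul_le_mul_of_nonneg_left (by simp only [L]; exact_mod_cast a2 j) (m1 j)
  have hi' : ∑ j, l j * L (lv φ c j) ≤ ∑ j, l j * (2 - if j = i then 2 else 0) :=
    Finset.sum_le_sum fun j _ => mul_le_mul_of_nonneg_left (by
      split_ifs with t
      · simp [L, t]
      · simp only [L, sub_zero]; exact_mod_cast a1 j) (l1 j)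
  simp only [mul_sub, Finset.sum_sub_distrib, ← Finset.sum_mul, l2, mul_ite, mul_zero,
    Finset.sum_ite_eq', Finset.mem_univ, if_true] at hi'
  have := l1 i
  linarith

theorem tri_meet {s : ℝ} (hs : 0 < s) {φ ψ : V → V} {c b : Cell} (hc : Good φ c) (hb : Good ψ b) :
    tri (vv s φ c) ∩ tri (vv s ψ b) ⊆ convexHull ℝ (range (vv s φ c) ∩ range (vv s ψ b)) := by
  classical
  rintro z ⟨h1, h2⟩
  obtain ⟨l, l1, l2, rfl⟩ := mem_tri.1 h1
  rw [← Finset.sum_filter_of_ne (p := fun i => l i ≠ 0) (fun i _ a t => a (by rw [t, zero_smul]))]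
  refine (convex_convexHull ℝ _).sum_mem (fun i _ => l1 i)
    (by rw [Finset.sum_filter_ne_zero, l2]) (fun i hi => subset_convexHull ℝ _ ⟨⟨i, rfl⟩, ?_⟩)
  by_contra n
  exact (Finset.mem_filter.1 hi).2
    (weight_zero hs hc hb l1 l2 h2 i (fun j e => n ⟨j, by simp only [vv, e]⟩))

theorem range_of_K {s : ℝ} {φ ψ : V → V} {c b : Cell} (hc : Good φ c) (hb : Good ψ b)
    (k : K φ c = K ψ b) : range (vv s φ c) = range (vv s ψ b) := by
  have : φ c.o = ψ b.o ∧ ((φ c.p = ψ b.p ∧ φ c.q = ψ b.q) ∨ (φ c.p = ψ b.q ∧ φ c.q = ψ b.p)) := by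
    obtain ⟨c1, c2, c3⟩ := hc.pq
    obtain ⟨b1, b2, b3⟩ := hb.pq
    obtain ⟨-, -, c6, c7, -⟩ := hc
    obtain ⟨-, -, b6, b7, -⟩ := hb
    simp only [K, Prod.ext_iff, Prod.fst_add, Prod.snd_add] at *
    omega
  obtain ⟨e0, ⟨e1, e2⟩ | ⟨e1, e2⟩⟩ := this
  · have : vv s φ c = vv s ψ b := by
      funext i; simp only [vv, lv, e0, e1, e2]
    rw [this]
  · ext z
    simp only [mem_range, Fin.exists_fin_succ, vv, lv, e0, e1, e2]
    simp
    tauto

theorem tri_eq_iff {s : ℝ} (hs : 0 < s) {φ ψ : V → V} {c b : Cell} (hc : Good φ c)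
    (hb : Good ψ b) : tri (vv s φ c) = tri (vv s ψ b) ↔ K φ c = K ψ b := by
  refine ⟨fun e => ?_, fun k => by unfold tri; rw [range_of_K hc hb k]⟩
  have l2 : ∑ _i : Fin 3, (1 / 3 : ℝ) = 1 := by simp
  have hz : ∑ i, (1 / 3 : ℝ) • vv s φ c i ∈ tri (vv s ψ b) :=
    e ▸ mem_tri.2 ⟨fun _ => 1 / 3, fun _ => by norm_num, l2, rfl⟩
  have : ∀ i, ∃ j, lv ψ b j = lv φ c i := by
    intro i
    by_contra n
    push Not at n
    have := weight_zero hs hc hb (l := fun _ => 1 / 3) (fun _ => by norm_num) l2 hz i n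
    norm_num at this
  have h0 := this 0
  have h1 := this 1
  have h2 := this 2
  obtain ⟨c1, c2, c3⟩ := hc.pq
  obtain ⟨b1, b2, b3⟩ := hb.pq
  obtain ⟨c4, c5, c6, c7, -⟩ := hc
  obtain ⟨b4, b5, b6, b7, -⟩ := hb
  simp only [Fin.exists_fin_succ, lv] at h0 h1 h2
  simp [Prod.ext_iff] at h0 h1 h2
  simp only [K, Prod.ext_iff, Prod.fst_add, Prod.snd_add]
  have : (φ c.o).1 = (ψ b.o).1 ∧ (φ c.o).2 = (ψ b.o).2 := by omega
  omega

theorem good_id (c : Cell) : Good (fun v => v) c ∧ White (fun v => v) c := by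
  rcases c with ⟨x, y, d⟩
  cases d <;> simp only [Good, White, Black, Cell.o, Cell.p, Cell.q] <;> omega

theorem K_id_inj {c b : Cell} (h : K (fun v => v) c = K (fun v => v) b) : c = b := by
  rcases c with ⟨x, y, d⟩
  rcases b with ⟨x', y', d'⟩
  cases d <;> cases d' <;>
    simp only [K, Cell.o, Cell.p, Cell.q, Prod.mk_add_mk, Prod.mk.injEq, Cell.mk.injEq, and_true,
      reduceCtorEq, and_false] at h ⊢ <;> omega

theorem nb_ne (c : Cell) (e : Ed) : c.nb e ≠ c := by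
  rcases c with ⟨x, y, d⟩
  cases d <;> cases e <;> simp [Cell.nb]

theorem edge_of {c : Cell} {i j : Fin 3} (h : i ≠ j) :
    ∃ e, ∀ φ : V → V, eps φ c e = φ (lv (fun v => v) c i) + φ (lv (fun v => v) c j) := by
  fin_cases i <;> fin_cases j <;> first
    | exact absurd rfl h
    | exact ⟨.a, fun φ => rfl⟩
    | exact ⟨.b, fun φ => rfl⟩
    | exact ⟨.g, fun φ => rfl⟩
    | exact ⟨.a, fun φ => add_comm _ _⟩
    | exact ⟨.b, fun φ => add_comm _ _⟩
    | exact ⟨.g, fun φ => add_comm _ _⟩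

theorem adj_of {s : ℝ} (hs : 0 < s) {c c' : Cell} (hne : c ≠ c') {a b : ℂ} (hab : a ≠ b)
    (ha : a ∈ range (vv s (fun v => v) c) ∩ range (vv s (fun v => v) c'))
    (hb : b ∈ range (vv s (fun v => v) c) ∩ range (vv s (fun v => v) c')) :
    ∃ e i j, c' = c.nb e ∧ a = vv s (fun v => v) c i ∧ b = vv s (fun v => v) c j ∧
      ∀ φ : V → V, eps φ c e = lv φ c i + lv φ c j := by
  obtain ⟨⟨i, rfl⟩, i', hi⟩ := ha
  obtain ⟨⟨j, rfl⟩, j', hj⟩ := hb
  obtain ⟨e, he⟩ := edge_of (c := c) (i := i) (j := j) (fun t => hab (by rw [t]))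
  obtain ⟨e', he'⟩ := edge_of (c := c') (i := i') (j := j') (fun t => hab (by rw [← hi, ← hj, t]))
  have q : eps (fun v => v) c e = eps (fun v => v) c' e' := by
    rw [he, he', emb_inj hs hi, emb_inj hs hj]
  refine ⟨e, i, j, ?_, rfl, rfl, fun φ => ?_⟩
  · rcases K_two (good_id c).1 (good_id (c.nb e)).1 (good_id c').1 (eps_nb _ c e).symm q
      (fun k => nb_ne c e (K_id_inj k).symm) with k | k
    · exact absurd (K_id_inj k).symm hne
    · exact K_id_inj k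
  · rw [he]
    fin_cases i <;> fin_cases j <;> rfl

theorem cross_vv (s : ℝ) (φ : V → V) (c : Cell) :
    (White φ c → Good φ c → cross (vv s φ c 0) (vv s φ c 1) (vv s φ c 2) = 2 * s ^ 2) ∧
    (Black φ c → Good φ c → cross (vv s φ c 0) (vv s φ c 1) (vv s φ c 2) = -(2 * s ^ 2)) := by
  constructor <;> rintro ⟨w1, w2⟩ ⟨-, -, g1, g2, -⟩
  · have e1 : (φ c.q).1 = (φ c.o).1 + (φ c.o).2 - (φ c.p).2 := by omega
    have e2 : (φ c.q).2 = (φ c.o).2 + (φ c.p).1 - (φ c.o).1 := by omega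
    simp only [cross, vv, lv, emb, Matrix.cons_val_zero, Matrix.cons_val_one, Matrix.cons_val,
      Complex.sub_re, Complex.sub_im, e1, e2]
    rcases g1 with g1 | g1 <;> rcases g2 with g2 | g2 <;> rw [g1, g2] <;> push_cast <;> ring
  · have e1 : (φ c.q).1 = (φ c.o).1 + (φ c.p).2 - (φ c.o).2 := by omega
    have e2 : (φ c.q).2 = (φ c.o).2 + (φ c.o).1 - (φ c.p).1 := by omega
    simp only [cross, vv, lv, emb, Matrix.cons_val_zero, Matrix.cons_val_one, Matrix.cons_val,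
      Complex.sub_re, Complex.sub_im, e1, e2]
    rcases g1 with g1 | g1 <;> rcases g2 with g2 | g2 <;> rw [g1, g2] <;> push_cast <;> ring

end Pool.Agent.MP_3b5bbf_co

end
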