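import Pool.Agent.Mg.F3b5bbfq.G568315
import Pool.Agent.Mg.F3b5bbfq.G168644

set_option linter.all false

/-! The discrete seamless checkerboard on a square sheet. -/

set_option linter.unusedSimpArgs false

namespace Pool.Agent.MP_3b5bbf_co.Sm

theorem double {H : Type} [LinearOrder H] {A B E : ℤ} {φ : V → V} {h : Cell → H}
    {F Cv col : V → Prop}
    (hE : E ≤ A) (hv : Valid (Rect 0 A 0 B) φ h) (hf : Foot (Rect 0 A 0 B) φ F)
    (E0 : 0 ≤ E) (ht : Top (Rect 0 A 0 B) φ h Cv col (fun a => E ≤ a.x)) :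
    ∃ (φ' : V → V) (h' : Cell → H ×ₗ ℤ), Valid (Rect (-E) A 0 B) φ' h' ∧
      Foot (Rect (-E) A 0 B) φ' F ∧ Top (Rect (-E) A 0 B) φ' h' Cv col (fun _ => True) := by
  classical
  set R := Rect 0 A 0 B with hR
  set R' := Rect (-E) A 0 B with hR'
  let π : Cell → Cell := fun c => if c.x < 0 then mcell 0 c else c
  let σ : Cell → Ed → Ed := fun c e => if c.x < 0 then e.rev else e
  let φ' : V → V := fun v => φ (|v.1|, v.2)
  let s : Cell → ℤ := fun c => if c.x < 0 then (if White φ (π c) then -1 else 1) else 0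
  let h' : Cell → H ×ₗ ℤ := fun c => toLex (h (π c), s c)
  have r := prefl_m 0
  have an : ∀ c : Cell, c.x < 0 → Agr φ' (fun v => φ (2 * 0 - v.1, v.2)) c := by
    intro c hc
    have := vert_bounds (x0 := c.x) (x1 := 0) (y0 := c.y) (y1 := c.y + 1) (c := c)
      (by unfold Rect; omega)
    refine ⟨?_, ?_, ?_⟩ <;> simp only [φ'] <;> rw [abs_of_nonpos (by omega)] <;> simp
  have ap : ∀ c : Cell, ¬ c.x < 0 → Agr φ' φ c := by
    intro c hc
    have := vert_bounds (x0 := 0) (x1 := c.x + 1) (y0 := c.y) (y1 := c.y + 1) (c := c)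
      (by unfold Rect; omega)
    refine ⟨?_, ?_, ?_⟩ <;> simp only [φ'] <;> rw [abs_of_nonneg (by omega)]
  have pn : ∀ c : Cell, c.x < 0 → π c = mcell 0 c := fun c hc => if_pos hc
  have pp : ∀ c : Cell, ¬ c.x < 0 → π c = c := fun c hc => if_neg hc
  have hπ : ∀ c, R' c → R (π c) := by
    intro c hc
    by_cases t : c.x < 0
    · rw [pn c t]
      have := mcell_xy 0 c
      simp only [hR, hR', Rect] at *
      omega
    · rw [pp c t]
      simp only [hR, hR', Rect] at *
      omega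
  have kk : ∀ c, K φ' c = K φ (π c) := by
    intro c
    by_cases t : c.x < 0
    · rw [pn c t, (an c t).K, r.K]
    · rw [pp c t, (ap c t).K]
  have ee : ∀ c e, eps φ' c e = eps φ (π c) (σ c e) := by
    intro c e
    by_cases t : c.x < 0
    · simp only [σ]; rw [pn c t, (an c t).eps, r.eps, if_pos t]
    · simp only [σ]; rw [pp c t, (ap c t).eps, if_neg t]
  have adj : ∀ c e, ((c.x < 0 ↔ (c.nb e).x < 0) ∧ π (c.nb e) = (π c).nb (σ c e)) ∨
      (¬ (c.x < 0 ↔ (c.nb e).x < 0) ∧ π (c.nb e) = π c ∧ ¬ R ((π c).nb (σ c e))) := by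
    intro c e
    by_cases t : c.x < 0 <;> by_cases t' : (c.nb e).x < 0
    · left
      refine ⟨by tauto, ?_⟩
      simp only [σ]; rw [pn _ t, pn _ t', r.nb, if_pos t]
    · right
      refine ⟨by tauto, ?_⟩
      simp only [σ]; rw [pn _ t, pp _ t', if_pos t]
      rcases c with ⟨x, y, d⟩
      cases d <;> cases e <;>
        simp only [hR, Rect, Cell.nb, mcell, Ed.rev, Cell.mk.injEq, and_true] at t t' ⊢ <;> omega
    · right
      refine ⟨by tauto, ?_⟩
      simp only [σ]; rw [pp _ t, pn _ t', if_neg t]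
      rcases c with ⟨x, y, d⟩
      cases d <;> cases e <;>
        simp only [hR, Rect, Cell.nb, mcell, Ed.rev, Cell.mk.injEq, and_true] at t t' ⊢ <;> omega
    · left
      refine ⟨by tauto, ?_⟩
      simp only [σ]; rw [pp _ t, pp _ t', if_neg t]
  have pinj : ∀ c b : Cell, π c = π b → (c.x < 0 ↔ b.x < 0) → c = b := by
    intro c b e t
    by_cases u : c.x < 0
    · rw [pn _ u, pn _ (t.1 u)] at e
      rw [← r.inv c, e, r.inv]
    · rwa [pp _ u, pp _ (fun a => u (t.2 a))] at e
  have lt : ∀ c b, h' c < h' b ↔ h (π c) < h (π b) ∨ (h (π c) = h (π b) ∧ s c < s b) :=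
    fun c b => Prod.Lex.toLex_lt_toLex
  have gd : ∀ c, R' c → Good φ (π c) := fun c hc => hv.good _ (hπ c hc)
  have eqc : ∀ c b, R' c → R' b → K φ' c = K φ' b → h (π c) = h (π b) → π c = π b :=
    fun c b h1 h2 k e => hv.inj _ _ (hπ _ h1) (hπ _ h2) (by rwa [kk, kk] at k) e
  refine ⟨φ', h', ⟨?_, ?_, ?_, ?_⟩, ?_, ?_⟩
  · intro c hc
    have := gd c hc
    by_cases t : c.x < 0
    · rw [pn c t] at this
      exact (an c t).good (r.good this)
    · rw [pp c t] at this
      exact (ap c t).good this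
  · intro c b h1 h2 k e
    have e' := toLex.injective e
    rw [Prod.mk.injEq] at e'
    refine pinj c b (eqc c b h1 h2 k e'.1) ?_
    have := e'.2
    simp only [s] at this
    split_ifs at this <;> omega
  · intro c e b e' h1 h2 h3 h4 he k1 k2 l1 l2
    rw [lt] at l1 l2
    rw [lt, lt]
    rw [ee, ee] at he
    rcases adj c e with ⟨t1, a1⟩ | ⟨t1, a1, -⟩
    · have n1 : R ((π c).nb (σ c e)) := a1 ▸ hπ _ h2
      have cc := (col_nb (σ c e) (gd c h1) (hv.good _ n1)).1 (by rw [← a1, ← kk, ← kk, k1])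
      rw [← a1] at cc
      rcases adj b e' with ⟨t2, a2⟩ | ⟨t2, a2, n2⟩
      · rcases l1 with l1 | ⟨q1, l1⟩ <;> rcases l2 with l2 | ⟨q2, l2⟩
        · have := hv.taco (π c) (σ c e) (π b) (σ b e') (hπ _ h1) n1 (hπ _ h3) (a2 ▸ hπ _ h4) he
            (by rw [← a1, ← kk, ← kk, k1]) (by rw [← kk, ← kk, k2]) l1 (a1 ▸ l2)
          rw [← a1, ← a2, ← kk, ← kk] at this
          exact ⟨this.1, Or.inl this.2.1, Or.inl this.2.2⟩
        · have p := eqc _ _ h3 h2 (k2.trans k1.symm) q2
          have : σ b e' = (σ c e).rev := by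
            apply eps_inj (gd b h3)
            rw [← he, p, a1, eps_nb]
          have p' : π (b.nb e') = π c := by rw [a2, this, p, a1, nb_nb]
          refine ⟨by rw [kk, kk, p'], Or.inr ⟨by rw [p'], ?_⟩, Or.inl (by rw [p', ← p]; exact l1)⟩
          simp only [s, p, p'] at l2 ⊢
          split_ifs at l2 ⊢ <;> first | omega | tauto
        · have p := eqc _ _ h1 h3 k2.symm q1
          have : σ c e = σ b e' := by
            apply eps_inj (gd c h1)
            rw [he, p]
          have p' : π (b.nb e') = π (c.nb e) := by rw [a2, a1, this, p]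
          refine ⟨by rw [kk, p', ← kk, k1], Or.inl (by rw [p', p]; exact l2),
            Or.inr ⟨by rw [p'], ?_⟩⟩
          simp only [s, ← p, p'] at l1 ⊢
          split_ifs at l1 ⊢ <;> first | omega | tauto
        · have p := eqc _ _ h1 h2 k1.symm (q1.trans q2)
          rw [p] at cc
          tauto
      · rw [kk (b.nb e'), a2, ← kk]
        refine ⟨k2, Or.inl (l1.resolve_right ?_), Or.inl (l2.resolve_right ?_)⟩
        · rintro ⟨q1, -⟩
          have p := eqc _ _ h1 h3 k2.symm q1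
          have : σ c e = σ b e' := by
            apply eps_inj (gd c h1)
            rw [he, p]
          rw [← p, ← this] at n2
          exact n2 n1
        · rintro ⟨q2, -⟩
          have p := eqc _ _ h3 h2 (k2.trans k1.symm) q2
          have : σ b e' = (σ c e).rev := by
            apply eps_inj (gd b h3)
            rw [← he, p, a1, eps_nb]
          rw [this, p, a1, nb_nb] at n2
          exact n2 (hπ _ h1)
    · exfalso
      rw [a1] at l2
      have q : h (π c) = h (π b) := by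
        rcases l1 with l1 | l1 <;> rcases l2 with l2 | l2
        · exact absurd l1 l2.not_gt
        · exact l2.1.symm
        · exact l1.1
        · exact l1.1
      have p := eqc _ _ h1 h3 k2.symm q
      have l1' := (l1.resolve_left (by rw [q]; exact lt_irrefl _)).2
      have l2' := (l2.resolve_left (by rw [q]; exact lt_irrefl _)).2
      simp only [s, a1, ← p] at l1' l2'
      split_ifs at l1' l2' <;> omega
  · intro c e b e' h1 h2 h3 h4 he k1 k2 k3 l1
    rw [lt] at l1 ⊢
    rw [ee, ee] at he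
    rcases adj c e with ⟨t1, a1⟩ | ⟨t1, a1, -⟩
    · rcases adj b e' with ⟨t2, a2⟩ | ⟨t2, a2, -⟩
      · have n1 : R ((π c).nb (σ c e)) := a1 ▸ hπ _ h2
        have k1' : K φ ((π c).nb (σ c e)) ≠ K φ (π c) := by rwa [← a1, ← kk, ← kk]
        rcases l1 with l1 | ⟨q1, l1⟩
        · have := hv.tort (π c) (σ c e) (π b) (σ b e') (hπ _ h1) n1 (hπ _ h3) (a2 ▸ hπ _ h4) he k1'
            (by rw [← kk, ← kk, k2]) (by rw [← a1, ← a2, ← kk, ← kk, k3]) l1
          rw [← a1, ← a2] at this
          exact Or.inl this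
        · have cc := (col_nb (σ c e) (gd c h1) (hv.good _ n1)).2 k1'
          rw [← a1] at cc
          have p := eqc _ _ h1 h3 k2.symm q1
          have : σ c e = σ b e' := by
            apply eps_inj (gd c h1)
            rw [he, p]
          have p' : π (b.nb e') = π (c.nb e) := by rw [a2, a1, this, p]
          refine Or.inr ⟨by rw [p'], ?_⟩
          simp only [s, ← p, p'] at l1 ⊢
          split_ifs at l1 ⊢ <;> first | omega | tauto
      · exfalso
        apply k1
        rw [← k3, ← k2, kk, kk, a2]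
    · exfalso
      apply k1
      rw [kk, kk, a1]
  · intro c hc
    have : φ' c.o = φ (π c).o := congrArg Prod.fst (kk c)
    rw [this]
    exact hf _ (hπ c hc)
  · intro m m1 m2 hc
    refine (ht m m1 m2 hc).grow fun a ha _ w ext => ?_
    obtain ⟨w1, w2⟩ := w
    have a0 : ¬ a.x < 0 := not_lt.2 ha.1
    have ha' : R' a := by
      simp only [hR, hR', Rect] at *
      omega
    refine ⟨ha', ap a a0, ⟨fun t => (ap a a0).white (w1 t),
      fun t => ⟨(ap a a0).black (w2 t).1, trivial⟩⟩, fun c h1 kc => ?_⟩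
    rw [kk, kk, pp a a0] at kc
    simp only [h']
    rw [Prod.Lex.toLex_le_toLex, pp a a0]
    rcases (ext _ (hπ c h1) kc).lt_or_eq with l | l
    · exact Or.inl l
    · refine Or.inr ⟨l, ?_⟩
      have p : π c = a := hv.inj _ _ (hπ c h1) ha kc l
      simp only [s, p, if_neg a0]
      split_ifs with u1 u2
      · omega
      · exfalso
        have := (w2 (fun t => u2 (w1 t))).2
        have e := mcell_xy 0 c
        rw [← pn c u1, p] at e
        simp only [hR', Rect] at h1
        omega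
      · omega

def Board (R : Cell → Prop) (B Cv col : V → Prop) : Prop :=
  ∃ (H : Type) (_ : LinearOrder H) (φ : V → V) (h : Cell → H),
    Valid R φ h ∧ Foot R φ B ∧ Top R φ h Cv col (fun _ => True)

theorem Board.mono {R R' B B' Cv Cv' col col'} (b : Board R B Cv col) (hR : ∀ c, R' c ↔ R c)
    (hB : ∀ v : V, v.1 % 2 = 1 → v.2 % 2 = 1 → B v → B' v)
    (hC : ∀ v : V, v.1 % 2 = 1 → v.2 % 2 = 1 → Cv' v → Cv v)
    (hc : ∀ v : V, v.1 % 2 = 1 → v.2 % 2 = 1 → (col' v ↔ col v)) : Board R' B' Cv' col' := by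
  obtain rfl : R' = R := funext fun c => propext (hR c)
  obtain ⟨H, i, φ, h, hv, hf, ht⟩ := b
  refine ⟨H, i, φ, h, hv, fun c hc => hB _ (hv.good c hc).1 (hv.good c hc).2.1 (hf c hc), ?_⟩
  intro m h1 h2 h3
  rw [hc _ h1 h2]
  exact ht m h1 h2 (hC _ h1 h2 h3)

theorem Board.refl {R B Cv col τ tv} (b : Board R B Cv col) (r : PRefl τ tv) (mt : Mot tv) :
    Board (fun c => R (τ c)) B Cv (fun v => ¬ col v) := by
  obtain ⟨H, i, φ, h, hv, hf, ht⟩ := b
  refine ⟨H, i, _, _, hv.refl r, fun c hc => ?_, fun m h1 h2 h3 => ?_⟩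
  · have := hf _ hc
    rwa [r.o] at this
  · exact ((ht m h1 h2 h3).refl r mt).mono (fun c _ w => ⟨fun t => (r.white φ c).2 (w.2 t).1,
      fun t => ⟨(r.black φ c).2 (w.1 (not_not.1 t)), trivial⟩⟩) (fun _ _ _ _ l => l)

theorem Board.swap {R B Cv col} (b : Board R B Cv col) {s t : ℤ} (hs : s % 2 = 0)
    (ht : t % 2 = 0) : Board R (fun v => B (v.2 - t, v.1 - s)) (fun v => Cv (v.2 - t, v.1 - s))
      (fun v => ¬ col (v.2 - t, v.1 - s)) := by
  obtain ⟨H, i, φ, h, hv, hf, tp⟩ := b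
  have hρ := iso_swap hs ht
  refine ⟨H, i, fun v => ((φ v).2 + s, (φ v).1 + t), h,
    hv.iso hρ (fun _ _ => ⟨rfl, rfl, rfl⟩) (fun _ _ _ _ _ => Iff.rfl),
    fun c hc => by simpa using hf c hc, fun m h1 h2 h3 => ?_⟩
  have := (tp (m.2 - t, m.1 - s) (by dsimp only; omega) (by dsimp only; omega) h3).map
    (φ' := fun v => ((φ v).2 + s, (φ v).1 + t)) (R := R) (le' := fun d c => h d ≤ h c)
    (W' := fun a => (¬ col (m.2 - t, m.1 - s) → White (fun v => ((φ v).2 + s, (φ v).1 + t)) a) ∧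
      (¬ ¬ col (m.2 - t, m.1 - s) → Black (fun v => ((φ v).2 + s, (φ v).1 + t)) a ∧ True))
    hρ (mot_swap s t) (fun _ a => a) (fun _ _ _ => ⟨rfl, rfl, rfl⟩)
    (fun c a n => ⟨a, ((mot_swap s t).near _ _).1 n⟩) (fun c _ _ w => ⟨fun u => ?_, fun u => ?_⟩)
    (fun _ _ _ _ _ _ l => l)
  · simpa only [sub_add_cancel, Prod.mk.eta] using this
  · have := (w.2 u).1
    unfold White Black at *; dsimp only; omega
  · have := w.1 (not_not.1 u)
    refine ⟨?_, trivial⟩
    unfold White Black at *; dsimp only; omega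

theorem Board.fold {R Cv col} {a b c d L : ℤ} (bd : Board R (Box a b c d) Cv col)
    (hL : L % 2 = 0) (h1 : a ≤ 2 * L - b) (h2 : L ≤ b) :
    Board R (Box a L c d) (fun v => Cv v ∧ v.1 + 4 < L) col := by
  classical
  obtain ⟨H, i, φ, h, hv, hf, tp⟩ := bd
  let φ' : V → V := fun v => if (φ v).1 ≤ L then φ v else (2 * L - (φ v).1, (φ v).2)
  let h' : Cell → Hᵒᵈ ⊕ₗ H := fun c =>
    if (φ c.o).1 < L then toLex (Sum.inr (h c)) else toLex (Sum.inl (OrderDual.toDual (h c)))
  have an : ∀ c, R c → (φ c.o).1 < L → Agr φ' φ c := by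
    intro c hc n
    have g := hv.good c hc
    have := g.pq
    unfold Good at g
    exact ⟨if_pos (by omega), if_pos (by omega), if_pos (by omega)⟩
  have af : ∀ c, R c → ¬ (φ c.o).1 < L → Agr φ' (fun v => (2 * L - (φ v).1, (φ v).2)) c := by
    intro c hc n
    have g := hv.good c hc
    have := g.pq
    unfold Good at g
    refine ⟨?_, ?_, ?_⟩ <;> simp only [φ'] <;> split_ifs <;>
      first | rfl | (simp only [Prod.ext_iff, and_true]; omega)
  have hn : ∀ c, (φ c.o).1 < L → h' c = toLex (Sum.inr (h c)) := fun c n => if_pos n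
  have hfar : ∀ c, ¬ (φ c.o).1 < L → h' c = toLex (Sum.inl (OrderDual.toDual (h c))) :=
    fun c n => if_neg n
  have v1 : Valid R φ' (fun c => OrderDual.toDual (h' c)) := by
    refine hv.dual.fold (fun κ => κ.1.1 < L)
      (fun κ => ((2 * L - κ.1.1, κ.1.2), (4 * L - κ.2.1, κ.2.2))) (fun v => (4 * L - v.1, v.2))
      ?_ ?_ ?_ (fun c hc n => (an c hc n).K) (fun c e hc n => (an c hc n).eps e) ?_ ?_ ?_ ?_ ?_ ?_
    · intro a b; simp only [Prod.ext_iff]; omega
    · intro a b; simp only [Prod.ext_iff]; omega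
    · intro c hc
      by_cases n : (φ c.o).1 < L
      · exact (an c hc n).good (hv.good c hc)
      · refine (af c hc n).good ?_
        have g := hv.good c hc
        unfold Good White Black at *; dsimp only; omega
    · intro c hc n
      rw [(af c hc n).K]
      simp only [K, Prod.ext_iff, Prod.fst_add, Prod.snd_add, and_true, true_and]; omega
    · intro c e hc n
      rw [(af c hc n).eps]
      cases e <;> simp only [eps, Prod.ext_iff, Prod.fst_add, Prod.snd_add, and_true] <;> omega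
    · intro c e h1 h2 n1 n2
      obtain rfl : e = .g := nb_o_of (φ := φ) (c := c) (fun t => n2 (by simpa only [K, t] using n1))
      have g1 := hv.good _ h1
      have g2 := hv.good _ h2
      have p1 := g1.pq
      have p2 := g2.pq
      unfold Good at g1 g2
      simp only [K, nb_g_p, nb_g_q, Prod.ext_iff, Prod.fst_add, Prod.snd_add] at *
      omega
    · intro c b _ _ n1 n2
      rw [hn c n1, hn b n2]; simp
    · intro c b _ _ n1 n2
      rw [hfar c n1, hfar b n2]; simp
    · intro c b _ _ n1 n2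
      rw [hn c n1, hfar b n2]; simp
  have v2 : Valid R φ' h' :=
    v1.dual.iso iso_id (fun _ _ => ⟨rfl, rfl, rfl⟩) (fun _ _ _ _ _ => Iff.rfl)
  refine ⟨_, inferInstance, φ', h', v2, fun c hc => ?_, fun m k1 k2 k3 => ?_⟩
  · have := hf c hc
    by_cases n : (φ c.o).1 < L
    · rw [(an c hc n).1]; unfold Box at *; omega
    · rw [(af c hc n).1]; unfold Box at *; dsimp only; omega
  · refine (tp m k1 k2 k3.1).grow fun t ha nr w ext => ?_
    have na : (φ t.o).1 < L := by
      have := k3.2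
      unfold Near at nr; omega
    refine ⟨ha, an t ha na, ⟨fun u => (an t ha na).white (w.1 u),
      fun u => ⟨(an t ha na).black (w.2 u).1, trivial⟩⟩, fun c hc kc => ?_⟩
    rw [hn t na]
    by_cases n : (φ c.o).1 < L
    · rw [hn c n]
      simpa using ext c hc ((an c hc n).K.symm.trans (kc.trans (an t ha na).K))
    · rw [hfar c n]; simp

theorem Top.mono {H : Type} [LinearOrder H] {R φ} {h : Cell → H} {B col S S'}
    (t : Top R φ h B col S) (hS : ∀ a, S a → S' a) : Top R φ h B col S' := fun m k1 k2 k3 =>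
  (t m k1 k2 k3).mono (fun a _ w => ⟨w.1, fun u => ⟨(w.2 u).1, hS a (w.2 u).2⟩⟩)
    (fun _ _ _ _ l => l)

/-- centres of the cells of the `k × k` board -/
def Cen (k : ℤ) (v : V) : Prop := Box 0 (10 * k) 0 (10 * k) v ∧ v.1 % 10 = 5 ∧ v.2 % 10 = 5

theorem board_pow (hP : Pillow) (n : ℕ) :
    ∃ N : ℤ, 0 < N ∧ N ≤ 2 ^ (n + 2) * (67 + 20 * n) ∧
    Board (Rect 0 N 0 N) (Box 0 (10 * 2 ^ (n + 2)) 0 (10 * 2 ^ (n + 2))) (Cen (2 ^ (n + 2)))
      (fun v => (v.1 / 10 + v.2 / 10) % 2 = 0) := by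
  obtain ⟨a, b, o, W, h1, h2, h3, h4, h5, h6, p⟩ := trees hP n
  have hW : 0 ≤ W := by
    have : (0 : ℤ) < 2 ^ n := by positivity
    omega
  have j := fun π h => ((p π h).step hW (by omega) (by omega) h2).junc (by omega) (by omega)
    (by omega)
  have e : (1 : ℤ) - (1 - 0) = 0 := by norm_num
  rw [e] at j
  have j0 := j 0 (Or.inl rfl)
  have j1 := j 1 (Or.inr rfl)
  rw [show o + 1 + 3 + 5 * W + 2 + 3 = o + 0 + 3 + 5 * W + 2 + 3 + 1 by ring] at j1
  have t21 := root21 j1.1 (by omega) (by omega)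
  have t22 := root22 j1.2 (by omega) (by omega)
  rw [add_right_comm _ 1 7] at t21 t22
  obtain ⟨φ, h, hv, hf, ht⟩ := join (by omega) (root11 j0.1 (by omega) (by omega))
    (root12 j0.2 (by omega) (by omega)) t21 t22
  have pos : 0 < b := by
    obtain ⟨_, _, u, -⟩ := (p 0 (Or.inl rfl)).1 0 a 0 b (o + 0) (by ring) (by ring) (by ring)
    have := u.d1
    have := u.d2
    omega
  generalize hX : 2 * a + 12 + 10 * W + 4 + 6 + 14 = X at *
  generalize hY : 2 * (b + 6 + 10 * W + 4) + 12 + 14 = Y at *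
  obtain ⟨φ', h', hv', hf', ht'⟩ := double (E := 2 * Y - 2 * X) (by omega) hv hf (by omega)
    (ht.mono (fun a t => by omega))
  have bd : Board _ _ _ _ := ⟨_, inferInstance, φ', h', hv', hf', ht'⟩
  have pw : (2 : ℤ) ^ (n + 2) = 4 * (W + 1) := by rw [h1]; ring
  refine ⟨2 * Y, by omega, by rw [pw]; nlinarith, ?_⟩
  rw [pw]
  refine ((bd.refl (prefl_m (2 * X)) (mot_m _)).swap (s := 20 * (W + 1) + 6) (t := 20 * (W + 1))
    (by omega) (by omega)).mono ?_ ?_ ?_ ?_
  · intro c
    have := mcell_xy (2 * X) c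
    unfold Rect; omega
  · intro v; simp only [Box, Brd]; omega
  · intro v; simp only [Cen, Box, Brd]; omega
  · intro v; simp only [not_not]; omega

theorem board_all (hP : Pillow) (k : ℕ) (hk : 2 ≤ k) :
    ∃ (n : ℕ) (N : ℤ), 2 ^ (n + 1) ≤ k ∧ 0 < N ∧
    N ≤ 2 * k * (67 + 20 * n) ∧
    Board (Rect 0 N 0 N) (Box 0 (10 * k) 0 (10 * k)) (Cen k)
      (fun v => (v.1 / 10 + v.2 / 10) % 2 = 0) := by
  obtain ⟨n, h1, h2⟩ : ∃ n, 2 ^ (n + 1) ≤ k ∧ k < 2 ^ (n + 2) := by
    have a := Nat.pow_log_le_self 2 (show k ≠ 0 by omega)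
    have b := Nat.lt_pow_succ_log_self (b := 2) (by norm_num) k
    have c : 0 < Nat.log 2 k := Nat.log_pos (by norm_num) hk
    obtain ⟨n, hn⟩ : ∃ n, Nat.log 2 k = n + 1 := ⟨Nat.log 2 k - 1, by omega⟩
    rw [hn] at a b
    exact ⟨n, a, b⟩
  obtain ⟨N, N0, N1, bd⟩ := board_pow hP n
  have e1 : (2 : ℤ) ^ (n + 2) ≤ 2 * k := by
    have : ((2 ^ (n + 1) : ℕ) : ℤ) ≤ k := by exact_mod_cast h1
    push_cast at this
    rw [pow_succ]; omega
  have e2 : (k : ℤ) ≤ 2 ^ (n + 2) := by exact_mod_cast h2.le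
  refine ⟨n, N, h1, N0, N1.trans (by gcongr), ?_⟩
  generalize (2 : ℤ) ^ (n + 2) = Q at *
  have b1 := bd.fold (L := 10 * k) (by omega) (by omega) (by omega)
  have b2 : Board _ (Box 0 (10 * Q) 0 (10 * k)) (Cen k)
      (fun v => ¬ (v.1 / 10 + v.2 / 10) % 2 = 0) :=
    (b1.swap (s := 0) (t := 0) rfl rfl).mono (fun _ => Iff.rfl)
      (by intro v; simp only [Box]; omega) (by intro v; simp only [Cen, Box]; omega)
      (by intro v; dsimp only; omega)
  have b3 := b2.fold (L := 10 * k) (by omega) (by omega) (by omega)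
  exact (b3.swap (s := 0) (t := 0) rfl rfl).mono (fun _ => Iff.rfl)
    (by intro v; simp only [Box]; omega) (by intro v; simp only [Cen, Box]; omega)
    (by intro v; dsimp only; omega)

end Pool.Agent.MP_3b5bbf_co.Sm
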