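import Mathlib

set_option linter.all false

section

/-! Two unit squares placed in the sheet: the expansion conditions in real coordinates
(cells have side 2). -/

namespace Pool.Agent.MP_3b5bbf_co.S

theorem spl (e : ℝ) : 0 ≤ e ∨ 0 ≤ -e := by
  rcases le_total 0 e with h | h
  · exact Or.inl h
  · exact Or.inr (by linarith)

theorem tang {c s : ℝ} (h : c^2 + s^2 = 1) (a b : ℝ) : 0 ≤ 1 + a^2 + b^2 - 2*(a*c + b*s) := by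
  nlinarith [sq_nonneg (a - c), sq_nonneg (b - s)]

theorem chord {c s a1 b1 a2 b2 : ℝ} (h : c^2 + s^2 = 1) (p : 0 ≤ a1*s - b1*c)
    (q : 0 ≤ -(a2*s - b2*c)) (n1 : a1^2 + b1^2 ≤ 1) (n2 : a2^2 + b2^2 ≤ 1) :
    0 ≤ (a1*s - b1*c) - (a2*s - b2*c) - (a1*b2 - b1*a2) := by
  have t1 : 0 ≤ 1 - (a1*c + b1*s) := by nlinarith [tang h a1 b1]
  have t2 : 0 ≤ 1 - (a2*c + b2*s) := by nlinarith [tang h a2 b2]
  have e : (a1*s - b1*c) - (a2*s - b2*c) - (a1*b2 - b1*a2) =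
      (a1*s - b1*c) * (1 - (a2*c + b2*s)) + (-(a2*s - b2*c)) * (1 - (a1*c + b1*s)) := by
    linear_combination (a1*b2 - b1*a2) * h
  rw [e]
  exact add_nonneg (mul_nonneg p t2) (mul_nonneg q t1)

theorem one_le_w {c s : ℝ} (h : c^2 + s^2 = 1) : 1 ≤ |c| + |s| := by
  have h1 := abs_nonneg c
  have h2 := abs_nonneg s
  have h3 := sq_abs c
  have h4 := sq_abs s
  nlinarith [mul_nonneg h1 h2]

/-- a turned copy and a reflected copy of two neighbouring cells, centres differing by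
(-X, Y), do not come closer than on the board -/
def WB (X Y c1 s1 c2 s2 : ℝ) : Prop :=
  ∀ a1 a2 b1 b2 : ℝ, |a1| ≤ 1 → |a2| ≤ 1 → |b1| ≤ 1 → |b2| ≤ 1 →
    (2 + a1 - b1)^2 + (a2 - b2)^2 ≤
      (-X + c1*a1 - s1*a2 - c2*b1 - s2*b2)^2 + (Y + s1*a1 + c1*a2 - s2*b1 + c2*b2)^2

/-- the same for two turned copies of diagonally opposite cells -/
def SS (X Y c1 s1 c2 s2 : ℝ) : Prop :=
  ∀ a1 a2 b1 b2 : ℝ, |a1| ≤ 1 → |a2| ≤ 1 → |b1| ≤ 1 → |b2| ≤ 1 →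
    (2 + a1 - b1)^2 + (2 + a2 - b2)^2 ≤
      (-X + c1*a1 - s1*a2 - c2*b1 + s2*b2)^2 + (Y + s1*a1 + c1*a2 - s2*b1 - c2*b2)^2

variable {X Y c1 s1 c2 s2 : ℝ}

theorem WB.q0 (H : WB X Y c1 s1 c2 s2) :
    0 ≤ (-X + c1 - s1 - c2 - s2)^2 + (Y + s1 + c1 - s2 + c2)^2 - 4 := by
  have := H 1 1 1 1 (by simp) (by simp) (by simp) (by simp)
  linarith

theorem WB.q1 (H : WB X Y c1 s1 c2 s2) :
    0 ≤ (-X + c1 - s1 - c2 + s2)^2 + (Y + s1 + c1 - s2 - c2)^2 - 8 := by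
  have := H 1 1 1 (-1) (by simp) (by simp) (by simp) (by simp)
  linarith

theorem WB.q2 (H : WB X Y c1 s1 c2 s2) :
    0 ≤ (-X + c1 - s1 + c2 - s2)^2 + (Y + s1 + c1 + s2 + c2)^2 - 16 := by
  have := H 1 1 (-1) 1 (by simp) (by simp) (by simp) (by simp)
  linarith

theorem WB.q3 (H : WB X Y c1 s1 c2 s2) :
    0 ≤ (-X + c1 - s1 + c2 + s2)^2 + (Y + s1 + c1 + s2 - c2)^2 - 20 := by
  have := H 1 1 (-1) (-1) (by simp) (by simp) (by simp) (by simp)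
  linarith

theorem WB.q4 (H : WB X Y c1 s1 c2 s2) :
    0 ≤ (-X + c1 + s1 - c2 - s2)^2 + (Y + s1 - c1 - s2 + c2)^2 - 8 := by
  have := H 1 (-1) 1 1 (by simp) (by simp) (by simp) (by simp)
  linarith

theorem WB.q5 (H : WB X Y c1 s1 c2 s2) :
    0 ≤ (-X + c1 + s1 - c2 + s2)^2 + (Y + s1 - c1 - s2 - c2)^2 - 4 := by
  have := H 1 (-1) 1 (-1) (by simp) (by simp) (by simp) (by simp)
  linarith

theorem WB.q6 (H : WB X Y c1 s1 c2 s2) :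
    0 ≤ (-X + c1 + s1 + c2 - s2)^2 + (Y + s1 - c1 + s2 + c2)^2 - 20 := by
  have := H 1 (-1) (-1) 1 (by simp) (by simp) (by simp) (by simp)
  linarith

theorem WB.q7 (H : WB X Y c1 s1 c2 s2) :
    0 ≤ (-X + c1 + s1 + c2 + s2)^2 + (Y + s1 - c1 + s2 - c2)^2 - 16 := by
  have := H 1 (-1) (-1) (-1) (by simp) (by simp) (by simp) (by simp)
  linarith

theorem WB.q8 (H : WB X Y c1 s1 c2 s2) :
    0 ≤ (-X - c1 - s1 - c2 - s2)^2 + (Y - s1 + c1 - s2 + c2)^2 - 0 := by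
  have := H (-1) 1 1 1 (by simp) (by simp) (by simp) (by simp)
  linarith

theorem WB.q9 (H : WB X Y c1 s1 c2 s2) :
    0 ≤ (-X - c1 - s1 - c2 + s2)^2 + (Y - s1 + c1 - s2 - c2)^2 - 4 := by
  have := H (-1) 1 1 (-1) (by simp) (by simp) (by simp) (by simp)
  linarith

theorem WB.q10 (H : WB X Y c1 s1 c2 s2) :
    0 ≤ (-X - c1 - s1 + c2 - s2)^2 + (Y - s1 + c1 + s2 + c2)^2 - 4 := by
  have := H (-1) 1 (-1) 1 (by simp) (by simp) (by simp) (by simp)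
  linarith

theorem WB.q11 (H : WB X Y c1 s1 c2 s2) :
    0 ≤ (-X - c1 - s1 + c2 + s2)^2 + (Y - s1 + c1 + s2 - c2)^2 - 8 := by
  have := H (-1) 1 (-1) (-1) (by simp) (by simp) (by simp) (by simp)
  linarith

theorem WB.q12 (H : WB X Y c1 s1 c2 s2) :
    0 ≤ (-X - c1 + s1 - c2 - s2)^2 + (Y - s1 - c1 - s2 + c2)^2 - 4 := by
  have := H (-1) (-1) 1 1 (by simp) (by simp) (by simp) (by simp)
  linarith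

theorem WB.q13 (H : WB X Y c1 s1 c2 s2) :
    0 ≤ (-X - c1 + s1 - c2 + s2)^2 + (Y - s1 - c1 - s2 - c2)^2 - 0 := by
  have := H (-1) (-1) 1 (-1) (by simp) (by simp) (by simp) (by simp)
  linarith

theorem WB.q14 (H : WB X Y c1 s1 c2 s2) :
    0 ≤ (-X - c1 + s1 + c2 - s2)^2 + (Y - s1 - c1 + s2 + c2)^2 - 8 := by
  have := H (-1) (-1) (-1) 1 (by simp) (by simp) (by simp) (by simp)
  linarith

theorem WB.q15 (H : WB X Y c1 s1 c2 s2) :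
    0 ≤ (-X - c1 + s1 + c2 + s2)^2 + (Y - s1 - c1 + s2 - c2)^2 - 4 := by
  have := H (-1) (-1) (-1) (-1) (by simp) (by simp) (by simp) (by simp)
  linarith

theorem SS.q0 (H : SS X Y c1 s1 c2 s2) :
    0 ≤ (-X + c1 - s1 - c2 + s2)^2 + (Y + s1 + c1 - s2 - c2)^2 - 8 := by
  have := H 1 1 1 1 (by simp) (by simp) (by simp) (by simp)
  linarith

theorem SS.q1 (H : SS X Y c1 s1 c2 s2) :
    0 ≤ (-X + c1 - s1 - c2 - s2)^2 + (Y + s1 + c1 - s2 + c2)^2 - 20 := by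
  have := H 1 1 1 (-1) (by simp) (by simp) (by simp) (by simp)
  linarith

theorem SS.q2 (H : SS X Y c1 s1 c2 s2) :
    0 ≤ (-X + c1 - s1 + c2 + s2)^2 + (Y + s1 + c1 + s2 - c2)^2 - 20 := by
  have := H 1 1 (-1) 1 (by simp) (by simp) (by simp) (by simp)
  linarith

theorem SS.q3 (H : SS X Y c1 s1 c2 s2) :
    0 ≤ (-X + c1 - s1 + c2 - s2)^2 + (Y + s1 + c1 + s2 + c2)^2 - 32 := by
  have := H 1 1 (-1) (-1) (by simp) (by simp) (by simp) (by simp)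
  linarith

theorem SS.q4 (H : SS X Y c1 s1 c2 s2) :
    0 ≤ (-X + c1 + s1 - c2 + s2)^2 + (Y + s1 - c1 - s2 - c2)^2 - 4 := by
  have := H 1 (-1) 1 1 (by simp) (by simp) (by simp) (by simp)
  linarith

theorem SS.q5 (H : SS X Y c1 s1 c2 s2) :
    0 ≤ (-X + c1 + s1 - c2 - s2)^2 + (Y + s1 - c1 - s2 + c2)^2 - 8 := by
  have := H 1 (-1) 1 (-1) (by simp) (by simp) (by simp) (by simp)
  linarith

theorem SS.q6 (H : SS X Y c1 s1 c2 s2) :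
    0 ≤ (-X + c1 + s1 + c2 + s2)^2 + (Y + s1 - c1 + s2 - c2)^2 - 16 := by
  have := H 1 (-1) (-1) 1 (by simp) (by simp) (by simp) (by simp)
  linarith

theorem SS.q7 (H : SS X Y c1 s1 c2 s2) :
    0 ≤ (-X + c1 + s1 + c2 - s2)^2 + (Y + s1 - c1 + s2 + c2)^2 - 20 := by
  have := H 1 (-1) (-1) (-1) (by simp) (by simp) (by simp) (by simp)
  linarith

theorem SS.q8 (H : SS X Y c1 s1 c2 s2) :
    0 ≤ (-X - c1 - s1 - c2 + s2)^2 + (Y - s1 + c1 - s2 - c2)^2 - 4 := by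
  have := H (-1) 1 1 1 (by simp) (by simp) (by simp) (by simp)
  linarith

theorem SS.q9 (H : SS X Y c1 s1 c2 s2) :
    0 ≤ (-X - c1 - s1 - c2 - s2)^2 + (Y - s1 + c1 - s2 + c2)^2 - 16 := by
  have := H (-1) 1 1 (-1) (by simp) (by simp) (by simp) (by simp)
  linarith

theorem SS.q10 (H : SS X Y c1 s1 c2 s2) :
    0 ≤ (-X - c1 - s1 + c2 + s2)^2 + (Y - s1 + c1 + s2 - c2)^2 - 8 := by
  have := H (-1) 1 (-1) 1 (by simp) (by simp) (by simp) (by simp)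
  linarith

theorem SS.q11 (H : SS X Y c1 s1 c2 s2) :
    0 ≤ (-X - c1 - s1 + c2 - s2)^2 + (Y - s1 + c1 + s2 + c2)^2 - 20 := by
  have := H (-1) 1 (-1) (-1) (by simp) (by simp) (by simp) (by simp)
  linarith

theorem SS.q12 (H : SS X Y c1 s1 c2 s2) :
    0 ≤ (-X - c1 + s1 - c2 + s2)^2 + (Y - s1 - c1 - s2 - c2)^2 - 0 := by
  have := H (-1) (-1) 1 1 (by simp) (by simp) (by simp) (by simp)
  linarith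

theorem SS.q13 (H : SS X Y c1 s1 c2 s2) :
    0 ≤ (-X - c1 + s1 - c2 - s2)^2 + (Y - s1 - c1 - s2 + c2)^2 - 4 := by
  have := H (-1) (-1) 1 (-1) (by simp) (by simp) (by simp) (by simp)
  linarith

theorem SS.q14 (H : SS X Y c1 s1 c2 s2) :
    0 ≤ (-X - c1 + s1 + c2 + s2)^2 + (Y - s1 - c1 + s2 - c2)^2 - 4 := by
  have := H (-1) (-1) (-1) 1 (by simp) (by simp) (by simp) (by simp)
  linarith

theorem SS.q15 (H : SS X Y c1 s1 c2 s2) :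
    0 ≤ (-X - c1 + s1 + c2 - s2)^2 + (Y - s1 - c1 + s2 + c2)^2 - 8 := by
  have := H (-1) (-1) (-1) (-1) (by simp) (by simp) (by simp) (by simp)
  linarith

end Pool.Agent.MP_3b5bbf_co.S

end

section

/-! Branch and bound certificates for a pair of squares. -/

set_option linter.unusedVariables false

namespace Pool.Agent.MP_3b5bbf_co.S

variable {X Y c1 s1 c2 s2 : ℝ}

theorem L2a_00
    (h1 : c1^2 + s1^2 = 1) (h2 : c2^2 + s2^2 = 1)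
    (H : SS X Y c1 s1 c2 s2)
    (a1 : 0 ≤ (1:ℝ)*s1 - (0:ℝ)*c1) (b1 : 0 ≤ -((0:ℝ)*s1 - (1:ℝ)*c1))
    (a2 : 0 ≤ (1:ℝ)*s2 - (0:ℝ)*c2) (b2 : 0 ≤ -((0:ℝ)*s2 - (1:ℝ)*c2))
    (x0 : 0 ≤ X) (x1 : 0 ≤ 4 - X)
    (y0 : 0 ≤ Y + 2) (y1 : 0 ≤ 2 - Y)
    (dxs : 0 < 6 - X - c1 - s1 - c2 - s2)
    (hn : 0 ≤ 1/5 + c1 - s1) : False := by
  have dx := dxs.le
  have k1 := chord h1 a1 b1 (by norm_num) (by norm_num)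
  have l1 := tang h1 (1:ℝ) (0:ℝ)
  have m1 := tang h1 (45/64:ℝ) (45/64:ℝ)
  have k2 := chord h2 a2 b2 (by norm_num) (by norm_num)
  have l2 := tang h2 (1:ℝ) (0:ℝ)
  have u2 := tang h2 (0:ℝ) (1:ℝ)
  linarith only [h1, h2, H.q3, H.q6, mul_nonneg dx x0, mul_nonneg hn y0, mul_nonneg hn a1,
    mul_nonneg hn l1, mul_nonneg hn a2, mul_nonneg hn l2, mul_nonneg x0 x1, mul_nonneg x0 b2,
    mul_nonneg x0 k2, mul_nonneg x1 l1, mul_nonneg x1 m1, mul_nonneg x1 l2, mul_nonneg y0 y1,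
    mul_nonneg y0 u2, mul_nonneg y1 a1, mul_nonneg y1 l1, mul_nonneg y1 a2, mul_nonneg y1 l2,
    mul_nonneg a1 u2, mul_nonneg k1 m1, mul_nonneg l1 b2, mul_nonneg m1 k2]

theorem L2a_01
    (h1 : c1^2 + s1^2 = 1) (h2 : c2^2 + s2^2 = 1)
    (H : SS X Y c1 s1 c2 s2)
    (a1 : 0 ≤ (1:ℝ)*s1 - (0:ℝ)*c1) (b1 : 0 ≤ -((0:ℝ)*s1 - (1:ℝ)*c1))
    (a2 : 0 ≤ (0:ℝ)*s2 - (1:ℝ)*c2) (b2 : 0 ≤ -((-1:ℝ)*s2 - (0:ℝ)*c2))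
    (x0 : 0 ≤ X) (x1 : 0 ≤ 4 - X)
    (y0 : 0 ≤ Y + 2) (y1 : 0 ≤ 2 - Y)
    (dxs : 0 < 6 - X - c1 - s1 + c2 - s2)
    (hn : 0 ≤ 1/5 + c1 - s1) : False := by
  have dx := dxs.le
  rcases spl (Y - (0:ℝ)) with g0 | g0
  · have k1 := chord h1 a1 b1 (by norm_num) (by norm_num)
    have l1 := tang h1 (1:ℝ) (0:ℝ)
    have m1 := tang h1 (45/64:ℝ) (45/64:ℝ)
    have k2 := chord h2 a2 b2 (by norm_num) (by norm_num)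
    linarith only [h1, h2, H.q1, H.q5, H.q6, H.q7, dxs, k2, mul_nonneg dx x0, mul_nonneg hn a1,
      mul_nonneg hn l1, mul_nonneg hn b2, mul_nonneg x0 x1, mul_nonneg x0 k2, mul_nonneg x1 l1,
      mul_nonneg x1 m1, mul_nonneg x1 a2, mul_nonneg g0 y1, mul_nonneg g0 k2, mul_nonneg y1 a1,
      mul_nonneg y1 l1, mul_nonneg y1 b2, mul_nonneg a1 k2, mul_nonneg k1 m1, mul_nonneg k1 a2]
  · have k1 := chord h1 a1 b1 (by norm_num) (by norm_num)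
    have l1 := tang h1 (1:ℝ) (0:ℝ)
    have k2 := chord h2 a2 b2 (by norm_num) (by norm_num)
    have l2 := tang h2 (0:ℝ) (1:ℝ)
    linarith only [h1, h2, H.q1, H.q2, H.q3, H.q6, x1, y0, mul_nonneg hn x0, mul_nonneg hn y0,
      mul_nonneg hn b2, mul_nonneg hn k2, mul_nonneg x0 x1, mul_nonneg x0 k1, mul_nonneg x1 a1,
      mul_nonneg x1 l1, mul_nonneg x1 a2, mul_nonneg y0 g0, mul_nonneg y0 a2, mul_nonneg y0 l2,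
      mul_nonneg g0 k1, mul_nonneg g0 k2, mul_nonneg k1 a2, mul_nonneg k1 l2]

theorem L2a_02
    (h1 : c1^2 + s1^2 = 1) (h2 : c2^2 + s2^2 = 1)
    (H : SS X Y c1 s1 c2 s2)
    (a1 : 0 ≤ (1:ℝ)*s1 - (0:ℝ)*c1) (b1 : 0 ≤ -((0:ℝ)*s1 - (1:ℝ)*c1))
    (a2 : 0 ≤ (-1:ℝ)*s2 - (0:ℝ)*c2) (b2 : 0 ≤ -((0:ℝ)*s2 - (-1:ℝ)*c2))
    (x0 : 0 ≤ X) (x1 : 0 ≤ 4 - X)
    (y0 : 0 ≤ Y + 2) (y1 : 0 ≤ 2 - Y)
    (dxs : 0 < 6 - X - c1 - s1 + c2 + s2)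
    (hn : 0 ≤ 1/5 + c1 - s1) : False := by
  have dx := dxs.le
  have k1 := chord h1 a1 b1 (by norm_num) (by norm_num)
  have l1 := tang h1 (1:ℝ) (0:ℝ)
  have k2 := chord h2 a2 b2 (by norm_num) (by norm_num)
  have l2 := tang h2 (-1:ℝ) (0:ℝ)
  have u2 := tang h2 (0:ℝ) (-1:ℝ)
  linarith only [h1, h2, H.q1, H.q3, H.q4, H.q5, dxs, x1, mul_nonneg hn x0, mul_nonneg hn y0,
    mul_nonneg hn u2, mul_nonneg x0 x1, mul_nonneg x0 k1, mul_nonneg x0 k2, mul_nonneg x1 l1,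
    mul_nonneg x1 b2, mul_nonneg x1 u2, mul_nonneg y0 y1, mul_nonneg y1 k1, mul_nonneg y1 a2,
    mul_nonneg y1 l2, mul_nonneg k1 b2, mul_nonneg k1 k2, mul_nonneg l1 l2]

theorem L2a_03
    (h1 : c1^2 + s1^2 = 1) (h2 : c2^2 + s2^2 = 1)
    (H : SS X Y c1 s1 c2 s2)
    (a1 : 0 ≤ (1:ℝ)*s1 - (0:ℝ)*c1) (b1 : 0 ≤ -((0:ℝ)*s1 - (1:ℝ)*c1))
    (a2 : 0 ≤ (0:ℝ)*s2 - (-1:ℝ)*c2) (b2 : 0 ≤ -((1:ℝ)*s2 - (0:ℝ)*c2))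
    (x0 : 0 ≤ X) (x1 : 0 ≤ 4 - X)
    (y0 : 0 ≤ Y + 2) (y1 : 0 ≤ 2 - Y)
    (dxs : 0 < 6 - X - c1 - s1 - c2 + s2)
    (hn : 0 ≤ 1/5 + c1 - s1) : False := by
  have dx := dxs.le
  have k1 := chord h1 a1 b1 (by norm_num) (by norm_num)
  have k2 := chord h2 a2 b2 (by norm_num) (by norm_num)
  have l2 := tang h2 (0:ℝ) (-1:ℝ)
  have u2 := tang h2 (1:ℝ) (0:ℝ)
  linarith only [h1, h2, H.q2, H.q3, H.q6, H.q7, H.q11, dxs, x1, mul_nonneg hn x0,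
    mul_nonneg hn y0, mul_nonneg hn l2, mul_nonneg x0 x1, mul_nonneg x0 k1, mul_nonneg x0 k2,
    mul_nonneg x1 u2, mul_nonneg y0 y1, mul_nonneg y0 b2, mul_nonneg y0 u2, mul_nonneg y1 a1,
    mul_nonneg y1 a2, mul_nonneg y1 l2, mul_nonneg k1 u2]

theorem L2a_10
    (h1 : c1^2 + s1^2 = 1) (h2 : c2^2 + s2^2 = 1)
    (H : SS X Y c1 s1 c2 s2)
    (a1 : 0 ≤ (0:ℝ)*s1 - (1:ℝ)*c1) (b1 : 0 ≤ -((-1:ℝ)*s1 - (0:ℝ)*c1))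
    (a2 : 0 ≤ (1:ℝ)*s2 - (0:ℝ)*c2) (b2 : 0 ≤ -((0:ℝ)*s2 - (1:ℝ)*c2))
    (x0 : 0 ≤ X) (x1 : 0 ≤ 4 - X)
    (y0 : 0 ≤ Y + 2) (y1 : 0 ≤ 2 - Y)
    (dxs : 0 < 6 - X + c1 - s1 - c2 - s2)
    (hn : 0 ≤ 1/5 + c1 - s1) : False := by
  have dx := dxs.le
  have k1 := chord h1 a1 b1 (by norm_num) (by norm_num)
  linarith only [h1, h2, H.q5, H.q6, H.q9, H.q10, x1, mul_nonneg hn x0, mul_nonneg x0 x1,
    mul_nonneg x0 k1, mul_nonneg y0 y1]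

theorem L2a_11
    (h1 : c1^2 + s1^2 = 1) (h2 : c2^2 + s2^2 = 1)
    (H : SS X Y c1 s1 c2 s2)
    (a1 : 0 ≤ (0:ℝ)*s1 - (1:ℝ)*c1) (b1 : 0 ≤ -((-1:ℝ)*s1 - (0:ℝ)*c1))
    (a2 : 0 ≤ (0:ℝ)*s2 - (1:ℝ)*c2) (b2 : 0 ≤ -((-1:ℝ)*s2 - (0:ℝ)*c2))
    (x0 : 0 ≤ X) (x1 : 0 ≤ 4 - X)
    (y0 : 0 ≤ Y + 2) (y1 : 0 ≤ 2 - Y)
    (dxs : 0 < 6 - X + c1 - s1 + c2 - s2)
    (hn : 0 ≤ 1/5 + c1 - s1) : False := by
  have dx := dxs.le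
  have k1 := chord h1 a1 b1 (by norm_num) (by norm_num)
  linarith only [h1, h2, H.q5, H.q6, H.q9, H.q10, x1, mul_nonneg hn x0, mul_nonneg x0 x1,
    mul_nonneg x0 k1, mul_nonneg y0 y1]

theorem L2a_12
    (h1 : c1^2 + s1^2 = 1) (h2 : c2^2 + s2^2 = 1)
    (H : SS X Y c1 s1 c2 s2)
    (a1 : 0 ≤ (0:ℝ)*s1 - (1:ℝ)*c1) (b1 : 0 ≤ -((-1:ℝ)*s1 - (0:ℝ)*c1))
    (a2 : 0 ≤ (-1:ℝ)*s2 - (0:ℝ)*c2) (b2 : 0 ≤ -((0:ℝ)*s2 - (-1:ℝ)*c2))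
    (x0 : 0 ≤ X) (x1 : 0 ≤ 4 - X)
    (y0 : 0 ≤ Y + 2) (y1 : 0 ≤ 2 - Y)
    (dxs : 0 < 6 - X + c1 - s1 + c2 + s2)
    (hn : 0 ≤ 1/5 + c1 - s1) : False := by
  have dx := dxs.le
  have k1 := chord h1 a1 b1 (by norm_num) (by norm_num)
  linarith only [h1, h2, H.q5, H.q6, H.q9, H.q10, x1, mul_nonneg hn x0, mul_nonneg x0 x1,
    mul_nonneg x0 k1, mul_nonneg y0 y1]

theorem L2a_13
    (h1 : c1^2 + s1^2 = 1) (h2 : c2^2 + s2^2 = 1)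
    (H : SS X Y c1 s1 c2 s2)
    (a1 : 0 ≤ (0:ℝ)*s1 - (1:ℝ)*c1) (b1 : 0 ≤ -((-1:ℝ)*s1 - (0:ℝ)*c1))
    (a2 : 0 ≤ (0:ℝ)*s2 - (-1:ℝ)*c2) (b2 : 0 ≤ -((1:ℝ)*s2 - (0:ℝ)*c2))
    (x0 : 0 ≤ X) (x1 : 0 ≤ 4 - X)
    (y0 : 0 ≤ Y + 2) (y1 : 0 ≤ 2 - Y)
    (dxs : 0 < 6 - X + c1 - s1 - c2 + s2)
    (hn : 0 ≤ 1/5 + c1 - s1) : False := by
  have dx := dxs.le
  have k1 := chord h1 a1 b1 (by norm_num) (by norm_num)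
  linarith only [h1, h2, H.q1, H.q6, H.q10, H.q13, x1, mul_nonneg hn x0, mul_nonneg x0 x1,
    mul_nonneg x0 k1, mul_nonneg y0 y1]

theorem L2a_20
    (h1 : c1^2 + s1^2 = 1) (h2 : c2^2 + s2^2 = 1)
    (H : SS X Y c1 s1 c2 s2)
    (a1 : 0 ≤ (-1:ℝ)*s1 - (0:ℝ)*c1) (b1 : 0 ≤ -((0:ℝ)*s1 - (-1:ℝ)*c1))
    (a2 : 0 ≤ (1:ℝ)*s2 - (0:ℝ)*c2) (b2 : 0 ≤ -((0:ℝ)*s2 - (1:ℝ)*c2))
    (x0 : 0 ≤ X) (x1 : 0 ≤ 4 - X)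
    (y0 : 0 ≤ Y + 2) (y1 : 0 ≤ 2 - Y)
    (dxs : 0 < 6 - X + c1 + s1 - c2 - s2)
    (hn : 0 ≤ 1/5 + c1 - s1) : False := by
  have dx := dxs.le
  have k1 := chord h1 a1 b1 (by norm_num) (by norm_num)
  have u1 := tang h1 (0:ℝ) (-1:ℝ)
  have k2 := chord h2 a2 b2 (by norm_num) (by norm_num)
  have l2 := tang h2 (1:ℝ) (0:ℝ)
  have u2 := tang h2 (0:ℝ) (1:ℝ)
  linarith only [h1, h2, H.q2, H.q3, H.q8, H.q10, dxs, x1, mul_nonneg hn x0, mul_nonneg hn y1,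
    mul_nonneg hn l2, mul_nonneg x0 x1, mul_nonneg x0 k1, mul_nonneg x0 k2, mul_nonneg x1 u1,
    mul_nonneg x1 a2, mul_nonneg x1 l2, mul_nonneg y0 y1, mul_nonneg y0 k1, mul_nonneg y0 b2,
    mul_nonneg y0 u2, mul_nonneg k1 a2, mul_nonneg k1 k2, mul_nonneg u1 u2]

theorem L2a_21
    (h1 : c1^2 + s1^2 = 1) (h2 : c2^2 + s2^2 = 1)
    (H : SS X Y c1 s1 c2 s2)
    (a1 : 0 ≤ (-1:ℝ)*s1 - (0:ℝ)*c1) (b1 : 0 ≤ -((0:ℝ)*s1 - (-1:ℝ)*c1))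
    (a2 : 0 ≤ (0:ℝ)*s2 - (1:ℝ)*c2) (b2 : 0 ≤ -((-1:ℝ)*s2 - (0:ℝ)*c2))
    (x0 : 0 ≤ X) (x1 : 0 ≤ 4 - X)
    (y0 : 0 ≤ Y + 2) (y1 : 0 ≤ 2 - Y)
    (dxs : 0 < 6 - X + c1 + s1 + c2 - s2)
    (hn : 0 ≤ 1/5 + c1 - s1) : False := by
  have dx := dxs.le
  rcases spl (Y - (0:ℝ)) with g0 | g0
  · have k1 := chord h1 a1 b1 (by norm_num) (by norm_num)
    have u1 := tang h1 (0:ℝ) (-1:ℝ)
    have k2 := chord h2 a2 b2 (by norm_num) (by norm_num)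
    have u2 := tang h2 (-1:ℝ) (0:ℝ)
    linarith only [h1, h2, H.q1, H.q2, H.q3, H.q9, x1, y1, mul_nonneg hn x0, mul_nonneg hn y1,
      mul_nonneg hn a2, mul_nonneg hn k2, mul_nonneg x0 x1, mul_nonneg x0 k1, mul_nonneg x1 b1,
      mul_nonneg x1 u1, mul_nonneg x1 b2, mul_nonneg g0 y1, mul_nonneg g0 k1, mul_nonneg g0 k2,
      mul_nonneg y1 b2, mul_nonneg y1 u2, mul_nonneg k1 b2, mul_nonneg k1 u2]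
  · have k1 := chord h1 a1 b1 (by norm_num) (by norm_num)
    have u1 := tang h1 (0:ℝ) (-1:ℝ)
    have m1 := tang h1 (-45/64:ℝ) (-45/64:ℝ)
    have k2 := chord h2 a2 b2 (by norm_num) (by norm_num)
    linarith only [h1, h2, H.q2, H.q8, H.q9, H.q11, dxs, k2, mul_nonneg dx x0, mul_nonneg hn b1,
      mul_nonneg hn u1, mul_nonneg hn a2, mul_nonneg x0 x1, mul_nonneg x0 k2, mul_nonneg x1 u1,
      mul_nonneg x1 m1, mul_nonneg x1 b2, mul_nonneg y0 g0, mul_nonneg y0 b1, mul_nonneg y0 u1,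
      mul_nonneg y0 a2, mul_nonneg g0 k2, mul_nonneg b1 k2, mul_nonneg k1 m1, mul_nonneg k1 b2]

theorem L2a_22
    (h1 : c1^2 + s1^2 = 1) (h2 : c2^2 + s2^2 = 1)
    (H : SS X Y c1 s1 c2 s2)
    (a1 : 0 ≤ (-1:ℝ)*s1 - (0:ℝ)*c1) (b1 : 0 ≤ -((0:ℝ)*s1 - (-1:ℝ)*c1))
    (a2 : 0 ≤ (-1:ℝ)*s2 - (0:ℝ)*c2) (b2 : 0 ≤ -((0:ℝ)*s2 - (-1:ℝ)*c2))
    (x0 : 0 ≤ X) (x1 : 0 ≤ 4 - X)
    (y0 : 0 ≤ Y + 2) (y1 : 0 ≤ 2 - Y)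
    (dxs : 0 < 6 - X + c1 + s1 + c2 + s2)
    (hn : 0 ≤ 1/5 + c1 - s1) : False := by
  have dx := dxs.le
  have k1 := chord h1 a1 b1 (by norm_num) (by norm_num)
  have u1 := tang h1 (0:ℝ) (-1:ℝ)
  have m1 := tang h1 (-45/64:ℝ) (-45/64:ℝ)
  have k2 := chord h2 a2 b2 (by norm_num) (by norm_num)
  have l2 := tang h2 (-1:ℝ) (0:ℝ)
  have u2 := tang h2 (0:ℝ) (-1:ℝ)
  linarith only [h1, h2, H.q3, H.q9, mul_nonneg dx x0, mul_nonneg hn y1, mul_nonneg hn b1,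
    mul_nonneg hn u1, mul_nonneg hn b2, mul_nonneg hn u2, mul_nonneg x0 x1, mul_nonneg x0 a2,
    mul_nonneg x0 k2, mul_nonneg x1 u1, mul_nonneg x1 m1, mul_nonneg x1 u2, mul_nonneg y0 y1,
    mul_nonneg y0 b1, mul_nonneg y0 u1, mul_nonneg y0 b2, mul_nonneg y0 u2, mul_nonneg y1 l2,
    mul_nonneg b1 l2, mul_nonneg k1 m1, mul_nonneg u1 a2, mul_nonneg m1 k2]

theorem L2a_23
    (h1 : c1^2 + s1^2 = 1) (h2 : c2^2 + s2^2 = 1)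
    (H : SS X Y c1 s1 c2 s2)
    (a1 : 0 ≤ (-1:ℝ)*s1 - (0:ℝ)*c1) (b1 : 0 ≤ -((0:ℝ)*s1 - (-1:ℝ)*c1))
    (a2 : 0 ≤ (0:ℝ)*s2 - (-1:ℝ)*c2) (b2 : 0 ≤ -((1:ℝ)*s2 - (0:ℝ)*c2))
    (x0 : 0 ≤ X) (x1 : 0 ≤ 4 - X)
    (y0 : 0 ≤ Y + 2) (y1 : 0 ≤ 2 - Y)
    (dxs : 0 < 6 - X + c1 + s1 - c2 + s2)
    (hn : 0 ≤ 1/5 + c1 - s1) : False := by
  have dx := dxs.le
  have k1 := chord h1 a1 b1 (by norm_num) (by norm_num)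
  have k2 := chord h2 a2 b2 (by norm_num) (by norm_num)
  have l2 := tang h2 (0:ℝ) (-1:ℝ)
  have u2 := tang h2 (1:ℝ) (0:ℝ)
  linarith only [h1, h2, H.q1, H.q3, H.q7, H.q9, H.q11, dxs, x1, mul_nonneg hn x0,
    mul_nonneg hn y1, mul_nonneg hn u2, mul_nonneg x0 x1, mul_nonneg x0 k1, mul_nonneg x0 k2,
    mul_nonneg x1 l2, mul_nonneg y0 y1, mul_nonneg y0 b1, mul_nonneg y0 b2, mul_nonneg y0 u2,
    mul_nonneg y1 a2, mul_nonneg y1 l2, mul_nonneg k1 l2]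

theorem L2a_30
    (h1 : c1^2 + s1^2 = 1) (h2 : c2^2 + s2^2 = 1)
    (H : SS X Y c1 s1 c2 s2)
    (a1 : 0 ≤ (0:ℝ)*s1 - (-1:ℝ)*c1) (b1 : 0 ≤ -((1:ℝ)*s1 - (0:ℝ)*c1))
    (a2 : 0 ≤ (1:ℝ)*s2 - (0:ℝ)*c2) (b2 : 0 ≤ -((0:ℝ)*s2 - (1:ℝ)*c2))
    (x0 : 0 ≤ X) (x1 : 0 ≤ 4 - X)
    (y0 : 0 ≤ Y + 2) (y1 : 0 ≤ 2 - Y)
    (dxs : 0 < 6 - X - c1 + s1 - c2 - s2)
    (hn : 0 ≤ 1/5 + c1 - s1) : False := by
  have dx := dxs.le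
  have k1 := chord h1 a1 b1 (by norm_num) (by norm_num)
  have l1 := tang h1 (0:ℝ) (-1:ℝ)
  have u1 := tang h1 (1:ℝ) (0:ℝ)
  have k2 := chord h2 a2 b2 (by norm_num) (by norm_num)
  have l2 := tang h2 (1:ℝ) (0:ℝ)
  have u2 := tang h2 (0:ℝ) (1:ℝ)
  linarith only [h1, h2, H.q0, H.q3, H.q6, x1, mul_nonneg x0 x1, mul_nonneg x0 k1,
    mul_nonneg x0 k2, mul_nonneg x1 u1, mul_nonneg x1 a2, mul_nonneg x1 l2, mul_nonneg y0 y1,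
    mul_nonneg y0 b1, mul_nonneg y0 u1, mul_nonneg y0 u2, mul_nonneg y1 a1, mul_nonneg y1 l1,
    mul_nonneg k1 a2, mul_nonneg u1 k2]

theorem L2a_31
    (h1 : c1^2 + s1^2 = 1) (h2 : c2^2 + s2^2 = 1)
    (H : SS X Y c1 s1 c2 s2)
    (a1 : 0 ≤ (0:ℝ)*s1 - (-1:ℝ)*c1) (b1 : 0 ≤ -((1:ℝ)*s1 - (0:ℝ)*c1))
    (a2 : 0 ≤ (0:ℝ)*s2 - (1:ℝ)*c2) (b2 : 0 ≤ -((-1:ℝ)*s2 - (0:ℝ)*c2))
    (x0 : 0 ≤ X) (x1 : 0 ≤ 4 - X)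
    (y0 : 0 ≤ Y + 2) (y1 : 0 ≤ 2 - Y)
    (dxs : 0 < 6 - X - c1 + s1 + c2 - s2)
    (hn : 0 ≤ 1/5 + c1 - s1) : False := by
  have dx := dxs.le
  have k1 := chord h1 a1 b1 (by norm_num) (by norm_num)
  have l1 := tang h1 (0:ℝ) (-1:ℝ)
  have u1 := tang h1 (1:ℝ) (0:ℝ)
  have m1 := tang h1 (45/64:ℝ) (-45/64:ℝ)
  have k2 := chord h2 a2 b2 (by norm_num) (by norm_num)
  have l2 := tang h2 (0:ℝ) (1:ℝ)
  have u2 := tang h2 (-1:ℝ) (0:ℝ)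
  have m2 := tang h2 (-45/64:ℝ) (45/64:ℝ)
  linarith only [h1, h2, H.q3, sq_nonneg (c1-s2), sq_nonneg (s1-c2), dxs, mul_nonneg dx x0,
    mul_nonneg dx k2, mul_nonneg x0 k1, mul_nonneg y0 y1, mul_nonneg y0 b1, mul_nonneg y0 u1,
    mul_nonneg y0 l2, mul_nonneg y1 l1, mul_nonneg y1 b2, mul_nonneg y1 u2, mul_nonneg a1 k2,
    mul_nonneg k1 k1, mul_nonneg k1 m1, mul_nonneg k1 a2, mul_nonneg l1 l2, mul_nonneg k2 k2,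
    mul_nonneg k2 m2]

theorem L2a_32
    (h1 : c1^2 + s1^2 = 1) (h2 : c2^2 + s2^2 = 1)
    (H : SS X Y c1 s1 c2 s2)
    (a1 : 0 ≤ (0:ℝ)*s1 - (-1:ℝ)*c1) (b1 : 0 ≤ -((1:ℝ)*s1 - (0:ℝ)*c1))
    (a2 : 0 ≤ (-1:ℝ)*s2 - (0:ℝ)*c2) (b2 : 0 ≤ -((0:ℝ)*s2 - (-1:ℝ)*c2))
    (x0 : 0 ≤ X) (x1 : 0 ≤ 4 - X)
    (y0 : 0 ≤ Y + 2) (y1 : 0 ≤ 2 - Y)
    (dxs : 0 < 6 - X - c1 + s1 + c2 + s2)
    (hn : 0 ≤ 1/5 + c1 - s1) : False := by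
  have dx := dxs.le
  have k1 := chord h1 a1 b1 (by norm_num) (by norm_num)
  have l1 := tang h1 (0:ℝ) (-1:ℝ)
  have u1 := tang h1 (1:ℝ) (0:ℝ)
  have k2 := chord h2 a2 b2 (by norm_num) (by norm_num)
  have l2 := tang h2 (-1:ℝ) (0:ℝ)
  have u2 := tang h2 (0:ℝ) (-1:ℝ)
  linarith only [h1, h2, H.q1, H.q2, H.q3, H.q9, x1, mul_nonneg x0 x1, mul_nonneg x0 k1,
    mul_nonneg x0 k2, mul_nonneg x1 l1, mul_nonneg x1 b2, mul_nonneg x1 u2, mul_nonneg y0 y1,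
    mul_nonneg y0 b1, mul_nonneg y0 u1, mul_nonneg y1 a1, mul_nonneg y1 l1, mul_nonneg y1 l2,
    mul_nonneg a1 k2, mul_nonneg k1 u2]

theorem L2a_33
    (h1 : c1^2 + s1^2 = 1) (h2 : c2^2 + s2^2 = 1)
    (H : SS X Y c1 s1 c2 s2)
    (a1 : 0 ≤ (0:ℝ)*s1 - (-1:ℝ)*c1) (b1 : 0 ≤ -((1:ℝ)*s1 - (0:ℝ)*c1))
    (a2 : 0 ≤ (0:ℝ)*s2 - (-1:ℝ)*c2) (b2 : 0 ≤ -((1:ℝ)*s2 - (0:ℝ)*c2))
    (x0 : 0 ≤ X) (x1 : 0 ≤ 4 - X)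
    (y0 : 0 ≤ Y + 2) (y1 : 0 ≤ 2 - Y)
    (dxs : 0 < 6 - X - c1 + s1 - c2 + s2)
    (hn : 0 ≤ 1/5 + c1 - s1) : False := by
  have dx := dxs.le
  have k1 := chord h1 a1 b1 (by norm_num) (by norm_num)
  have l1 := tang h1 (0:ℝ) (-1:ℝ)
  have u1 := tang h1 (1:ℝ) (0:ℝ)
  have k2 := chord h2 a2 b2 (by norm_num) (by norm_num)
  have l2 := tang h2 (0:ℝ) (-1:ℝ)
  have u2 := tang h2 (1:ℝ) (0:ℝ)
  linarith only [h1, h2, H.q1, H.q2, H.q3, sq_nonneg (c1-c2), sq_nonneg (s1-s2), x1,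
    mul_nonneg x0 x1, mul_nonneg x0 k1, mul_nonneg x0 k2, mul_nonneg y0 y1, mul_nonneg y0 b1,
    mul_nonneg y0 u1, mul_nonneg y0 b2, mul_nonneg y0 u2, mul_nonneg y1 a1, mul_nonneg y1 l1,
    mul_nonneg y1 a2, mul_nonneg y1 l2]

end Pool.Agent.MP_3b5bbf_co.S

end
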