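import Pool.Agent.Mg.F3b5bbfq.Gd5d01d
import Pool.Agent.MP_3b5bbf_co.S.Defs

set_option linter.all false

section

/-! Four squares of side 2 that keep the distances of a 2 × 2 board with alternating
orientations do not fit into a square of side less than 6. -/

namespace Pool.Agent.MP_3b5bbf_co.S

/-- a placed cell: centre (x, y), direction (c, s), half width `w` -/
structure Pc where
  x : ℝ
  y : ℝ
  c : ℝ
  s : ℝ
  w : ℝ

structure Pc.ok (P : Pc) : Prop where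
  u : U P.c P.s P.w
  x0 : -3 + P.w < P.x
  x1 : P.x + P.w < 3
  y0 : -3 + P.w < P.y
  y1 : P.y + P.w < 3

/-- quarter turn of the sheet -/
def Pc.r (P : Pc) : Pc := ⟨-P.y, P.x, -P.s, P.c, P.w⟩
/-- quarter turn of the direction -/
def Pc.t (P : Pc) : Pc := ⟨P.x, P.y, -P.s, P.c, P.w⟩

def Pc.dot (P Q : Pc) : ℝ := P.c * Q.c + P.s * Q.s

def WBp (P Q : Pc) : Prop := WB (Q.x - P.x) (P.y - Q.y) P.c P.s Q.c Q.s
def SSp (P Q : Pc) : Prop := SS (Q.x - P.x) (P.y - Q.y) P.c P.s Q.c Q.s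

variable {P Q A B C D : Pc}

theorem U.turn {c s w : ℝ} (h : U c s w) : U (-s) c w :=
  ⟨by linarith [h.unit], by linarith [h.q], by linarith [h.t], by linarith [h.p],
    by linarith [h.r]⟩

theorem Pc.ok.r (h : P.ok) : P.r.ok :=
  ⟨h.u.turn, by simp only [Pc.r]; linarith [h.y1], by simp only [Pc.r]; linarith [h.y0],
    h.x0, h.x1⟩

theorem Pc.ok.t (h : P.ok) : P.t.ok := ⟨h.u.turn, h.x0, h.x1, h.y0, h.y1⟩

theorem WBp.r (H : WBp P Q) : WBp P.r Q.r := by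
  intro a1 a2 b1 b2 h1 h2 h3 h4
  have := H a1 a2 b1 b2 h1 h2 h3 h4
  simp only [Pc.r]
  linarith

theorem SSp.r (H : SSp P Q) : SSp P.r Q.r := by
  intro a1 a2 b1 b2 h1 h2 h3 h4
  have := H a1 a2 b1 b2 h1 h2 h3 h4
  simp only [Pc.r]
  linarith

theorem SSp.rev (H : SSp P Q) : SSp Q.t.t P.t.t := by
  intro a1 a2 b1 b2 h1 h2 h3 h4
  have := H (-b1) (-b2) (-a1) (-a2) (by simpa using h3) (by simpa using h4) (by simpa using h1)
    (by simpa using h2)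
  simp only [Pc.t]
  linarith

theorem WBp.cast {P' Q' : Pc} (H : WBp P Q) (e1 : P'.x = P.x) (e2 : P'.y = P.y) (e3 : P'.c = P.c)
    (e4 : P'.s = P.s) (f1 : Q'.x = Q.x) (f2 : Q'.y = Q.y) (f3 : Q'.c = Q.c) (f4 : Q'.s = Q.s) :
    WBp P' Q' := by
  unfold WBp
  rw [e1, e2, e3, e4, f1, f2, f3, f4]
  exact H

/-- both numbers on the same side of zero -/
def Sd (a b : ℝ) : Prop := (a ≤ 0 ∧ b ≤ 0) ∨ (0 ≤ a ∧ 0 ≤ b)

theorem Sd.neg {a b : ℝ} (h : Sd a b) : Sd (-a) (-b) := by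
  rcases h with ⟨h1, h2⟩ | ⟨h1, h2⟩
  · exact Or.inr ⟨by linarith, by linarith⟩
  · exact Or.inl ⟨by linarith, by linarith⟩

theorem far (p : P.ok) (q : Q.ok) (h : 8 ≤ (Q.x - P.x)^2 + (P.y - Q.y)^2) (hx : Sd P.x Q.x)
    (hy : Sd P.y Q.y) : False := by
  have := p.u.one_le; have := q.u.one_le
  have := p.x0; have := p.x1; have := p.y0; have := p.y1
  have := q.x0; have := q.x1; have := q.y0; have := q.y1
  have h1 : (Q.x - P.x)^2 < 2^2 := by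
    apply sq_lt_sq' <;> rcases hx with ⟨_, _⟩ | ⟨_, _⟩ <;> linarith
  have h2 : (P.y - Q.y)^2 < 2^2 := by
    apply sq_lt_sq' <;> rcases hy with ⟨_, _⟩ | ⟨_, _⟩ <;> linarith
  linarith

theorem L0W (p : P.ok) (q : Q.ok) (H : WBp P Q) (h1 : P.x ≤ 0) (h2 : 0 ≤ Q.x) (hy : Sd P.y Q.y) :
    P.c < 3/4 ∧ Q.c < 3/4 ∧ 13/25 < P.dot Q := by
  have := p.x0; have := p.x1; have := p.y0; have := p.y1
  have := q.x0; have := q.x1; have := q.y0; have := q.y1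
  rcases hy with ⟨_, _⟩ | ⟨_, _⟩
  · exact L0b p.u q.u H (by linarith) (by linarith) (by linarith) (by linarith)
  · obtain ⟨a, b, c⟩ := L0b q.u p.u (WB.swap H) (by linarith) (by linarith) (by linarith)
      (by linarith)
    exact ⟨b, a, by unfold Pc.dot; linarith⟩

theorem L0N (p : P.ok) (q : Q.ok) (H : WBp P Q) (h1 : 0 ≤ P.y) (h2 : Q.y ≤ 0) (hx : Sd P.x Q.x) :
    13/25 < P.dot Q := by
  have := (L0W p.r q.r H.r (by simp only [Pc.r]; linarith) (by simp only [Pc.r]; linarith) hx).2.2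
  simp only [Pc.r, Pc.dot] at this ⊢
  linarith

theorem L0E (p : P.ok) (q : Q.ok) (H : WBp P Q) (h1 : 0 ≤ P.x) (h2 : Q.x ≤ 0) (hy : Sd P.y Q.y) :
    13/25 < P.dot Q := by
  have := L0N p.r q.r H.r h1 h2 hy.neg
  simp only [Pc.r, Pc.dot] at this ⊢
  linarith

theorem L0S (p : P.ok) (q : Q.ok) (H : WBp P Q) (h1 : P.y ≤ 0) (h2 : 0 ≤ Q.y) (hx : Sd P.x Q.x) :
    P.s < 3/4 ∧ Q.s < 3/4 ∧ 13/25 < P.dot Q := by
  have := L0W p.r.r.r q.r.r.r H.r.r.r (by simp only [Pc.r]; linarith)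
    (by simp only [Pc.r]; linarith) hx.neg
  simp only [Pc.r, Pc.dot] at this ⊢
  exact ⟨by linarith [this.1], by linarith [this.2.1], by linarith [this.2.2]⟩

theorem L2W (p : P.ok) (q : Q.ok) (H : SSp P Q) (h1 : P.x ≤ 0) (h2 : 0 ≤ Q.x) (hy : Sd P.y Q.y) :
    P.c - P.s < -1/5 ∧ Q.c - Q.s < -1/5 ∧ 1/4 < P.dot Q := by
  have := p.u.one_le; have := q.u.one_le
  have := p.x0; have := p.x1; have := p.y0; have := p.y1
  have := q.x0; have := q.x1; have := q.y0; have := q.y1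
  rcases hy with ⟨_, _⟩ | ⟨_, _⟩ <;>
    exact L2b p.u q.u H (by linarith) (by linarith) (by linarith) (by linarith)

theorem L3 (p : P.ok) (q : Q.ok) (H : SSp P Q) (h1 : P.x ≤ 0) (h2 : P.y ≤ 0) (h3 : 0 ≤ Q.x)
    (h4 : 0 ≤ Q.y) : -13/25 < P.dot Q := by
  have := p.x0; have := p.x1; have := p.y0; have := p.y1
  have := q.x0; have := q.x1; have := q.y0; have := q.y1
  have H' : SS (Q.x - P.x) (-(Q.y - P.y)) P.c P.s Q.c Q.s := by rw [neg_sub]; exact H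
  exact L3a p.u q.u H' (by linarith) (by linarith) (by linarith) (by linarith)

theorem same_side {a1 a2 b1 b2 k : ℝ} (ha : a1^2 + a2^2 = 1) (hb : b1^2 + b2^2 = 1) (hk : 0 < k)
    (h1 : k < a1) (h2 : k < b1) (h : 0 ≤ a2 * b2) (hle : a1 ≤ b1) : k < a1*b1 + a2*b2 := by
  have e1 : b2^2 ≤ a2^2 := by nlinarith
  have e2 : b2^2 ≤ a2 * b2 := by
    by_contra hc
    rw [not_le] at hc
    nlinarith [mul_pos (sub_pos.2 hc) (add_pos_of_pos_of_nonneg (lt_of_le_of_lt h hc) h),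
      mul_nonneg (sub_nonneg.2 e1) (sq_nonneg b2)]
  have e3 : b1 ≤ 1 := by nlinarith [sq_nonneg b2]
  nlinarith [mul_nonneg (sub_nonneg.2 e3) (by linarith : 0 ≤ 1 + b1 - a1)]

theorem ang_aux {a1 a2 b1 b2 d1 d2 k : ℝ} (ha : a1^2 + a2^2 = 1) (hb : b1^2 + b2^2 = 1)
    (hk : 0 < k) (h1 : k < a1) (h2 : k < b1) (h3 : a1*b1 + a2*b2 < k) (h4 : d1 < k)
    (h5 : k < a1*d1 + a2*d2) (h6 : k < b1*d1 + b2*d2) : False := by
  have hs : a2 * b2 < 0 := by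
    by_contra hc
    rw [not_lt] at hc
    rcases le_total a1 b1 with g | g
    · linarith [same_side ha hb hk h1 h2 hc g]
    · linarith [same_side hb ha hk h2 h1 (by linarith) g]
  have e1 : a1 ≤ 1 := by nlinarith [sq_nonneg a2]
  have e2 : b1 ≤ 1 := by nlinarith [sq_nonneg b2]
  have f1 : a1 * d1 < k := by
    rcases le_total d1 0 with g | g <;> nlinarith
  have f2 : b1 * d1 < k := by
    rcases le_total d1 0 with g | g <;> nlinarith
  have g1 : 0 < a2 * d2 := by linarith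
  have g2 : 0 < b2 * d2 := by linarith
  nlinarith [mul_pos g1 g2, mul_nonneg (neg_nonneg.2 hs.le) (sq_nonneg d2)]

/-- the case of alternating colours -/
theorem endA (a : A.ok) (b : B.ok) (c : C.ok) (h1 : 13/25 < A.dot B) (h2 : A.dot D < -13/25)
    (h3 : C.dot B < -13/25) (h4 : 13/25 < C.dot D) (h5 : -13/25 < A.dot C)
    (h6 : -13/25 < B.dot D) : False := by
  have ua := a.u.unit; have ub := b.u.unit; have uc := c.u.unit
  unfold Pc.dot at *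
  refine ang_aux (k := 13/25) (a1 := A.c*B.c + A.s*B.s) (a2 := A.s*B.c - A.c*B.s)
    (b1 := -(C.c*B.c + C.s*B.s)) (b2 := -(C.s*B.c - C.c*B.s))
    (d1 := -(D.c*B.c + D.s*B.s)) (d2 := -(D.s*B.c - D.c*B.s)) ?_ ?_ (by norm_num) h1
    (by linarith) ?_ (by linarith) ?_ ?_
  · linear_combination (B.c^2 + B.s^2) * ua + ub
  · linear_combination (B.c^2 + B.s^2) * uc + ub
  · have : (A.c*B.c + A.s*B.s) * (-(C.c*B.c + C.s*B.s)) + (A.s*B.c - A.c*B.s) *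
        (-(C.s*B.c - C.c*B.s)) = -(A.c*C.c + A.s*C.s) := by
      linear_combination (-(A.c*C.c + A.s*C.s)) * ub
    linarith
  · have : (A.c*B.c + A.s*B.s) * (-(D.c*B.c + D.s*B.s)) + (A.s*B.c - A.c*B.s) *
        (-(D.s*B.c - D.c*B.s)) = -(A.c*D.c + A.s*D.s) := by
      linear_combination (-(A.c*D.c + A.s*D.s)) * ub
    linarith
  · have : (-(C.c*B.c + C.s*B.s)) * (-(D.c*B.c + D.s*B.s)) + (-(C.s*B.c - C.c*B.s)) *
        (-(D.s*B.c - D.c*B.s)) = C.c*D.c + C.s*D.s := by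
      linear_combination (C.c*D.c + C.s*D.s) * ub
    linarith

theorem arc_aux {c s c' s' : ℝ} (h : c^2 + s^2 = 1) (h' : c'^2 + s'^2 = 1) (a : c - s < -1/5)
    (a' : c' - s' < -1/5) (d : c*c' + s*s' < -13/25) :
    (c + s) * (c' + s') < 0 ∧ 3/4 < (c + s)^2 := by
  have e : (s - c) * (s' - c') + (c + s) * (c' + s') < -26/25 := by linarith
  have p1 : 0 < (s - c) * (s' - c') := mul_pos (by linarith) (by linarith)
  refine ⟨by linarith, ?_⟩
  by_contra hc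
  rw [not_lt] at hc
  have q1 : |c + s| ≤ 7/8 := abs_le.2 (abs_le_of_sq_le_sq' (by linarith) (by norm_num))
  have q2 : |c' + s'| ≤ 7/5 := abs_le.2 (abs_le_of_sq_le_sq' (by nlinarith) (by norm_num))
  have q3 : 1 ≤ s - c := by nlinarith
  have q4 : |(c + s) * (c' + s')| ≤ 7/8 * (7/5) := by
    rw [abs_mul]; exact mul_le_mul q1 q2 (abs_nonneg _) (by norm_num)
  have q5 := neg_abs_le ((c + s) * (c' + s'))
  nlinarith

theorem arc_hi {c s : ℝ} (h : c^2 + s^2 = 1) (a : c - s < -1/5) (b : 3/4 < (c + s)^2)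
    (d : -c < 3/4) : 0 < c + s := by
  by_contra hc
  rw [not_lt] at hc
  have q : c + s ≤ -(17/20) := by nlinarith
  nlinarith [mul_nonneg (by linarith : 0 ≤ s - c - 1/5) (by linarith : 0 ≤ -(c + s) - 17/20)]

theorem arc_lo {c s : ℝ} (h : c^2 + s^2 = 1) (a : c - s < -1/5) (b : 3/4 < (c + s)^2)
    (d : s < 3/4) : c + s < 0 := by
  by_contra hc
  rw [not_lt] at hc
  have q : 17/20 ≤ c + s := by nlinarith
  nlinarith [mul_nonneg (by linarith : 0 ≤ s - c - 1/5) (by linarith : 0 ≤ (c + s) - 17/20)]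

theorem arc_end {c s c' s' : ℝ} (h : c^2 + s^2 = 1) (h' : c'^2 + s'^2 = 1) (b : 3/4 < (c + s)^2)
    (b' : 3/4 < (c' + s')^2) (n : c + s < 0) (p : 0 < c' + s') : c*c' + s*s' < 1/4 := by
  nlinarith [sq_nonneg ((s - c) - (s' - c')), sq_nonneg ((c + s) + (c' + s')),
    mul_pos (neg_pos.2 n) p, mul_pos (sub_pos.2 b) (sub_pos.2 b')]

/-- the four cells `A = (0,0)`, `B = (1,0)`, `C = (1,1)`, `D = (0,1)` placed in the sheet -/
structure Cfg (A B C D : Pc) : Prop where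
  a : A.ok
  b : B.ok
  c : C.ok
  d : D.ok
  ab : WBp A.t.t B.t.t
  ad : WBp A.t.t.t D.t
  cb : WBp C.t B.t.t.t
  cd : WBp C D
  ca : SSp C A
  bd : SSp B D

theorem Cfg.r (H : Cfg A B C D) : Cfg A.r B.r C.r D.r :=
  ⟨H.a.r, H.b.r, H.c.r, H.d.r, H.ab.r, H.ad.r, H.cb.r, H.cd.r, H.ca.r, H.bd.r⟩

theorem Cfg.flip (H : Cfg A B C D) : Cfg C.t.t D.t.t A.t.t B.t.t :=
  ⟨H.c.t.t, H.d.t.t, H.a.t.t, H.b.t.t,
    H.cd.cast rfl rfl (by simp [Pc.t]) (by simp [Pc.t]) rfl rfl (by simp [Pc.t]) (by simp [Pc.t]),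
    H.cb.cast rfl rfl (by simp [Pc.t]) (by simp [Pc.t]) rfl rfl rfl rfl,
    H.ad.cast rfl rfl rfl rfl rfl rfl (by simp [Pc.t]) (by simp [Pc.t]),
    H.ab, H.ca.rev, H.bd.rev⟩

theorem caseA1 (H : Cfg A B C D) (ax : A.x ≤ 0) (ay : A.y ≤ 0) (bx : 0 ≤ B.x) (by' : B.y ≤ 0)
    (cx : 0 ≤ C.x) (cy : 0 ≤ C.y) (dx : D.x ≤ 0) (dy : 0 ≤ D.y) : False := by
  have h1 := (L0W H.a.t.t H.b.t.t H.ab ax bx (Or.inl ⟨ay, by'⟩)).2.2
  have h2 := (L0S H.a.t.t.t H.d.t H.ad ay dy (Or.inl ⟨ax, dx⟩)).2.2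
  have h3 := L0N H.c.t H.b.t.t.t H.cb cy by' (Or.inr ⟨cx, bx⟩)
  have h4 := L0E H.c H.d H.cd cx dx (Or.inr ⟨cy, dy⟩)
  have h5 := L3 H.a.t.t H.c.t.t H.ca.rev ax ay cx cy
  have h6 := L3 H.b.r.r.r H.d.r.r.r H.bd.r.r.r (by simp only [Pc.r]; linarith)
    (by simp only [Pc.r]; linarith) (by simp only [Pc.r]; linarith) (by simp only [Pc.r]; linarith)
  simp only [Pc.t, Pc.r, Pc.dot] at h1 h2 h3 h5 h6
  exact endA H.a H.b H.c (by unfold Pc.dot; linarith) (by unfold Pc.dot; linarith)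
    (by unfold Pc.dot; linarith) h4 (by unfold Pc.dot; linarith) (by unfold Pc.dot; linarith)

theorem caseA2 (H : Cfg A B C D) (ax : A.x ≤ 0) (ay : A.y ≤ 0) (bx : B.x ≤ 0) (by' : 0 ≤ B.y)
    (cx : 0 ≤ C.x) (cy : 0 ≤ C.y) (dx : 0 ≤ D.x) (dy : D.y ≤ 0) : False := by
  have h1 := (L0S H.a.t.t H.b.t.t H.ab ay by' (Or.inl ⟨ax, bx⟩)).2.2
  have h2 := (L0W H.a.t.t.t H.d.t H.ad ax dx (Or.inl ⟨ay, dy⟩)).2.2
  have h3 := L0E H.c.t H.b.t.t.t H.cb cx bx (Or.inr ⟨cy, by'⟩)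
  have h4 := L0N H.c H.d H.cd cy dy (Or.inr ⟨cx, dx⟩)
  have h5 := L3 H.a.t.t H.c.t.t H.ca.rev ax ay cx cy
  have h6 := L3 H.b.r H.d.r H.bd.r (by simp only [Pc.r]; linarith)
    (by simp only [Pc.r]; linarith) (by simp only [Pc.r]; linarith) (by simp only [Pc.r]; linarith)
  simp only [Pc.t, Pc.r, Pc.dot] at h1 h2 h3 h5 h6
  exact endA H.a H.b H.c (by unfold Pc.dot; linarith) (by unfold Pc.dot; linarith)
    (by unfold Pc.dot; linarith) h4 (by unfold Pc.dot; linarith) (by unfold Pc.dot; linarith)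

theorem caseB1 (H : Cfg A B C D) (ax : A.x ≤ 0) (ay : A.y ≤ 0) (bx : 0 ≤ B.x) (by' : 0 ≤ B.y)
    (cx : 0 ≤ C.x) (cy : C.y ≤ 0) (dx : D.x ≤ 0) (dy : 0 ≤ D.y) : False := by
  obtain ⟨a1, c1, h1⟩ := L2W H.a.t.t H.c.t.t H.ca.rev ax cx (Or.inl ⟨ay, cy⟩)
  obtain ⟨d1, b1, -⟩ := L2W H.d.t.t H.b.t.t H.bd.rev dx bx (Or.inr ⟨dy, by'⟩)
  obtain ⟨-, d2, h2⟩ := L0S H.a.t.t.t H.d.t H.ad ay dy (Or.inl ⟨ax, dx⟩)
  obtain ⟨c2, -, h3⟩ := L0S H.c.t H.b.t.t.t H.cb cy by' (Or.inr ⟨cx, bx⟩)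
  have ua := H.a.t.t.u.unit; have ub := H.b.t.t.u.unit
  have uc := H.c.t.t.u.unit; have ud := H.d.t.t.u.unit
  simp only [Pc.t, Pc.dot] at *
  obtain ⟨e1, e2⟩ := arc_aux ua ud a1 d1 (by linarith)
  obtain ⟨-, e3⟩ := arc_aux ud ua d1 a1 (by linarith)
  obtain ⟨-, e4⟩ := arc_aux uc ub c1 b1 (by linarith)
  have f1 := arc_hi ud d1 e3 (by linarith)
  have f2 := arc_hi uc c1 e4 (by linarith)
  have f3 : -A.c + -A.s < 0 := by
    by_contra hc
    linarith [mul_nonneg (not_lt.1 hc) f1.le]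
  linarith [arc_end ua uc e2 e4 f3 f2]

theorem caseB2 (H : Cfg A B C D) (ax : A.x ≤ 0) (ay : A.y ≤ 0) (bx : B.x ≤ 0) (by' : 0 ≤ B.y)
    (cx : 0 ≤ C.x) (cy : C.y ≤ 0) (dx : 0 ≤ D.x) (dy : 0 ≤ D.y) : False := by
  obtain ⟨a1, c1, h1⟩ := L2W H.a.t.t H.c.t.t H.ca.rev ax cx (Or.inl ⟨ay, cy⟩)
  obtain ⟨b1, d1, -⟩ := L2W H.b H.d H.bd bx dx (Or.inr ⟨by', dy⟩)
  obtain ⟨a2, -, h2⟩ := L0S H.a.t.t H.b.t.t H.ab ay by' (Or.inl ⟨ax, bx⟩)
  obtain ⟨-, d2, h3⟩ := L0S H.c H.d H.cd cy dy (Or.inr ⟨cx, dx⟩)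
  have ua := H.a.t.t.u.unit; have ub := H.b.u.unit
  have uc := H.c.t.t.u.unit; have ud := H.d.u.unit
  simp only [Pc.t, Pc.dot] at *
  obtain ⟨-, e2⟩ := arc_aux ua ub a1 b1 (by linarith)
  obtain ⟨e1, e3⟩ := arc_aux uc ud c1 d1 (by linarith)
  obtain ⟨-, e4⟩ := arc_aux ud uc d1 c1 (by linarith)
  have f1 := arc_lo ua a1 e2 a2
  have f2 := arc_lo ud d1 e4 d2
  have f3 : 0 < -C.c + -C.s := by
    by_contra hc
    linarith [mul_nonneg_of_nonpos_of_nonpos (not_lt.1 hc) f2.le]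
  linarith [arc_end ua uc e2 e3 f1 f3]

theorem four_LL (H : Cfg A B C D) (ax : A.x ≤ 0) (ay : A.y ≤ 0) : False := by
  have fab := far H.a H.b (WB.far H.ab H.a.t.t.u.unit H.b.t.t.u.unit)
  have fad := far H.a H.d (WB.far H.ad H.a.t.t.t.u.unit H.d.t.u.unit)
  have fcb := far H.c H.b (WB.far H.cb H.c.t.u.unit H.b.t.t.t.u.unit)
  have fcd := far H.c H.d (WB.far H.cd H.c.u.unit H.d.u.unit)
  have fca := far H.c H.a (SS.far H.ca)
  have fbd := far H.b H.d (SS.far H.bd)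
  have n1 : ∀ {P : Pc}, P.y ≤ 0 → 0 ≤ P.r.t.t.x := fun h => neg_nonneg.2 h
  have n2 : ∀ {P : Pc}, 0 ≤ P.y → P.r.t.t.x ≤ 0 := fun h => neg_nonpos.2 h
  rcases le_total B.x 0 with bx | bx <;> rcases le_total B.y 0 with by' | by' <;>
    rcases le_total C.x 0 with cx | cx <;> rcases le_total C.y 0 with cy | cy <;>
    rcases le_total D.x 0 with dx | dx <;> rcases le_total D.y 0 with dy | dy <;>
  first
    | exact fab (Or.inl ⟨ax, bx⟩) (Or.inl ⟨ay, by'⟩)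
    | exact fad (Or.inl ⟨ax, dx⟩) (Or.inl ⟨ay, dy⟩)
    | exact fca (Or.inl ⟨cx, ax⟩) (Or.inl ⟨cy, ay⟩)
    | exact fcb (Or.inl ⟨cx, bx⟩) (Or.inr ⟨cy, by'⟩)
    | exact fcb (Or.inr ⟨cx, bx⟩) (Or.inl ⟨cy, by'⟩)
    | exact fcb (Or.inr ⟨cx, bx⟩) (Or.inr ⟨cy, by'⟩)
    | exact fcd (Or.inl ⟨cx, dx⟩) (Or.inr ⟨cy, dy⟩)
    | exact fcd (Or.inr ⟨cx, dx⟩) (Or.inl ⟨cy, dy⟩)
    | exact fcd (Or.inr ⟨cx, dx⟩) (Or.inr ⟨cy, dy⟩)
    | exact fbd (Or.inl ⟨bx, dx⟩) (Or.inr ⟨by', dy⟩)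
    | exact fbd (Or.inr ⟨bx, dx⟩) (Or.inl ⟨by', dy⟩)
    | exact fbd (Or.inr ⟨bx, dx⟩) (Or.inr ⟨by', dy⟩)
    | exact caseA1 H ax ay bx by' cx cy dx dy
    | exact caseA2 H ax ay bx by' cx cy dx dy
    | exact caseB1 H ax ay bx by' cx cy dx dy
    | exact caseB2 H ax ay bx by' cx cy dx dy
    | exact caseB1 H.r.flip (n2 cy) cx (n1 dy) dx (n1 ay) ax (n2 by') bx
    | exact caseB2 H.r.flip (n2 cy) cx (n2 dy) dx (n1 ay) ax (n1 by') bx

theorem four (H : Cfg A B C D) : False := by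
  rcases le_total A.x 0 with ax | ax <;> rcases le_total A.y 0 with ay | ay
  · exact four_LL H ax ay
  · exact four_LL H.r (neg_nonpos.2 ay) ax
  · exact four_LL H.r.r.r (by simp only [Pc.r]; linarith) (by simp only [Pc.r]; linarith)
  · exact four_LL H.r.r (by simp only [Pc.r]; linarith) (by simp only [Pc.r]; linarith)

end Pool.Agent.MP_3b5bbf_co.S

end

section

/-! The upper bound. -/

namespace Pool.Agent.MP_3b5bbf_co.S

open Set

theorem closed_tri (w : Fin 3 → ℂ) : IsClosed (tri w) :=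
  ((finite_range w).isCompact_convexHull ℝ).isClosed

theorem line_mem {x y : ℂ} (hx : x ∈ square 1) (hy : y ∈ square 1) {t : ℝ} (h0 : 0 ≤ t)
    (h1 : t ≤ 1) : x + t • (y - x) ∈ square 1 := by
  obtain ⟨x1, x2, x3, x4⟩ := hx
  obtain ⟨y1, y2, y3, y4⟩ := hy
  refine ⟨?_, ?_, ?_, ?_⟩ <;> simp only [Complex.add_re, Complex.add_im, Complex.smul_re,
    Complex.smul_im, smul_eq_mul, Complex.sub_re, Complex.sub_im] <;> nlinarith

theorem cont_f (F : FlatFolding) : ContinuousOn F.f (square 1) := by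
  rw [← F.cover]
  refine (locallyFinite_of_finite _).continuousOn_iUnion (fun i => closed_tri _) fun i => ?_
  exact (LipschitzOnWith.of_dist_le_mul (K := 1) fun z hz w hw => by
    rw [F.isom i z hz w hw]; simp).continuousOn

/-- a folding map does not increase distances -/
theorem lip (F : FlatFolding) {x y : ℂ} (hx : x ∈ square 1) (hy : y ∈ square 1) :
    dist (F.f x) (F.f y) ≤ dist x y := by
  let γ : ℝ → ℂ := fun t => x + t • (y - x)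
  have cγ : Continuous γ := by fun_prop
  have dγ : ∀ t t' : ℝ, t ≤ t' → dist (γ t) (γ t') = (t' - t) * dist x y := by
    intro t t' h
    have : γ t - γ t' = (t' - t) • (x - y) := by simp only [γ]; module
    rw [dist_eq_norm, this, norm_smul, Real.norm_of_nonneg (by linarith), dist_eq_norm]
  have mγ : ∀ t ∈ Icc (0 : ℝ) 1, γ t ∈ square 1 := fun t ht => line_mem hx hy ht.1 ht.2
  let s : Set ℝ := {t | dist (F.f x) (F.f (γ t)) ≤ t * dist x y}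
  have hc : IsClosed (s ∩ Icc 0 1) := by
    have c1 : ContinuousOn (fun t => dist (F.f x) (F.f (γ t))) (Icc 0 1) :=
      continuous_dist.comp_continuousOn
        (continuousOn_const.prodMk ((cont_f F).comp cγ.continuousOn mγ))
    have := isClosed_Icc.isClosed_le c1 (g := fun t => t * dist x y) (by fun_prop)
    rw [inter_comm]
    exact this
  have h1 : (1 : ℝ) ∈ s := by
    refine hc.mem_of_ge_of_forall_exists_gt (by simp [s, γ]) zero_le_one ?_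
    rintro t ⟨ht, t0, t1⟩
    have e : Ioc t 1 ⊆ ⋃ i, (γ ⁻¹' tri (F.v i) ∩ Ioc t 1) := by
      intro u hu
      have := mγ u ⟨t0.trans hu.1.le, hu.2⟩
      rw [← F.cover] at this
      obtain ⟨i, hi⟩ := mem_iUnion.1 this
      exact mem_iUnion.2 ⟨i, hi, hu⟩
    have m : t ∈ closure (Ioc t 1) := by rw [closure_Ioc t1.ne]; exact ⟨le_rfl, t1.le⟩
    have m2 := closure_mono e m
    rw [(locallyFinite_of_finite _).closure_iUnion] at m2
    obtain ⟨i, hi⟩ := mem_iUnion.1 m2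
    obtain ⟨u, hu, hu'⟩ : (γ ⁻¹' tri (F.v i) ∩ Ioc t 1).Nonempty := closure_nonempty_iff.1 ⟨t, hi⟩
    have ti : γ t ∈ tri (F.v i) :=
      closure_minimal inter_subset_left ((closed_tri _).preimage cγ) hi
    refine ⟨u, ?_, hu'⟩
    have a1 := dist_triangle (F.f x) (F.f (γ t)) (F.f (γ u))
    rw [F.isom i _ ti _ hu, dγ t u hu'.1.le] at a1
    simp only [s, mem_ofPred_eq] at ht ⊢
    linarith
  simpa [s, γ] using h1

theorem iso_sq {g : ℂ → ℂ} (hg : Isometry g) (z w : ℂ) :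
    ((g z).re - (g w).re)^2 + ((g z).im - (g w).im)^2 = (z.re - w.re)^2 + (z.im - w.im)^2 := by
  have h := hg.dist_eq z w
  rw [Complex.dist_eq_re_im, Complex.dist_eq_re_im] at h
  exact (Real.sqrt_inj (by positivity) (by positivity)).1 h

theorem iso_form {g : ℂ → ℂ} (hg : Isometry g) : ∃ c s σ : ℝ, c^2 + s^2 = 1 ∧
    (σ = 1 ∨ σ = -1) ∧ cross (g 0) (g 1) (g Complex.I) = σ ∧ ∀ z : ℂ,
      (g z).re = (g 0).re + c * z.re - σ * s * z.im ∧
      (g z).im = (g 0).im + s * z.re + σ * c * z.im := by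
  have e1 := iso_sq hg 1 0
  have e2 := iso_sq hg Complex.I 0
  have e3 := iso_sq hg 1 Complex.I
  simp only [Complex.one_re, Complex.one_im, Complex.zero_re, Complex.zero_im, Complex.I_re,
    Complex.I_im] at e1 e2 e3
  obtain ⟨c, hc⟩ : ∃ c, (g 1).re = (g 0).re + c := ⟨(g 1).re - (g 0).re, by ring⟩
  obtain ⟨s, hs⟩ : ∃ c, (g 1).im = (g 0).im + c := ⟨(g 1).im - (g 0).im, by ring⟩
  obtain ⟨p, hp⟩ : ∃ c, (g Complex.I).re = (g 0).re + c := ⟨(g Complex.I).re - (g 0).re, by ring⟩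
  obtain ⟨q, hq⟩ : ∃ c, (g Complex.I).im = (g 0).im + c := ⟨(g Complex.I).im - (g 0).im, by ring⟩
  rw [hc, hs] at e1 e3
  rw [hp, hq] at e2 e3
  have u : c^2 + s^2 = 1 := by linarith
  have v : p^2 + q^2 = 1 := by linarith
  have o : c*p + s*q = 0 := by linarith
  have sq : (c*q - s*p - 1) * (c*q - s*p + 1) = 0 := by
    linear_combination (p^2 + q^2) * u + v - (c*p + s*q) * o
  have fp : p = -((c*q - s*p) * s) := by linear_combination (-p) * u + c * o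
  have fq : q = (c*q - s*p) * c := by linear_combination (-q) * u + s * o
  refine ⟨c, s, c*q - s*p, u, ?_, ?_, fun z => ?_⟩
  · rcases mul_eq_zero.1 sq with h | h
    · left; linarith
    · right; linarith
  · simp only [cross, Complex.sub_re, Complex.sub_im, hc, hs, hp, hq]; ring
  · have z0 := iso_sq hg z 0
    have z1 := iso_sq hg z 1
    have z2 := iso_sq hg z Complex.I
    simp only [Complex.one_re, Complex.one_im, Complex.zero_re, Complex.zero_im, Complex.I_re,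
      Complex.I_im] at z0 z1 z2
    rw [hc, hs] at z1
    rw [hp, hq] at z2
    obtain ⟨a, ha⟩ : ∃ c, (g z).re = (g 0).re + c := ⟨(g z).re - (g 0).re, by ring⟩
    obtain ⟨b, hb⟩ : ∃ c, (g z).im = (g 0).im + c := ⟨(g z).im - (g 0).im, by ring⟩
    rw [ha, hb] at z0 z1 z2 ⊢
    have k1 : a*c + b*s = z.re := by linarith
    have k2 : a*p + b*q = z.im := by linarith
    have w1 : c^2 + p^2 = 1 := by
      linear_combination (p + -((c*q - s*p) * s)) * fp + s^2 * sq + u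
    have w2 : s^2 + q^2 = 1 := by
      linear_combination (q + (c*q - s*p) * c) * fq + c^2 * sq + u
    have w3 : c*s + p*q = 0 := by
      linear_combination q * fp - ((c*q - s*p) * s) * fq - c * s * sq
    constructor
    · linear_combination c * k1 + p * k2 - a * w1 - b * w3 + z.im * fp
    · linear_combination s * k1 + q * k2 - a * w3 - b * w2 + z.im * fq

/-- the piece `P` of the sheet, with orientation `σ`, is laid onto the cell (a, b) -/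
def Lay (F : FlatFolding) (c a b σ : ℝ) (P : Pc) : Prop :=
  ∀ a1 a2 : ℝ, |a1| ≤ 1 → |a2| ≤ 1 → ∃ z ∈ square 1,
    z.re = 1/2 + c/4 * (P.x + P.c * a1 - σ * P.s * a2) ∧
    z.im = 1/2 + c/4 * (P.y + P.s * a1 + σ * P.c * a2) ∧
    (F.f z).re = c/4 * (2*a + 1 + a1) ∧ (F.f z).im = c/4 * (2*b + 1 + a2)

theorem Lay.sep {F : FlatFolding} {c a b σ a' b' σ' : ℝ} {P Q : Pc} (hc : 0 < c)
    (h : Lay F c a b σ P) (h' : Lay F c a' b' σ' Q) (a1 a2 b1 b2 : ℝ) (h1 : |a1| ≤ 1)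
    (h2 : |a2| ≤ 1) (h3 : |b1| ≤ 1) (h4 : |b2| ≤ 1) :
    (2*a - 2*a' + a1 - b1)^2 + (2*b - 2*b' + a2 - b2)^2 ≤
      (P.x - Q.x + P.c * a1 - σ * P.s * a2 - Q.c * b1 + σ' * Q.s * b2)^2 +
      (P.y - Q.y + P.s * a1 + σ * P.c * a2 - Q.s * b1 - σ' * Q.c * b2)^2 := by
  obtain ⟨z, hz, z1, z2, z3, z4⟩ := h a1 a2 h1 h2
  obtain ⟨w, hw, w1, w2, w3, w4⟩ := h' b1 b2 h3 h4
  have l := lip F hz hw
  rw [Complex.dist_eq_re_im, Complex.dist_eq_re_im, Real.sqrt_le_sqrt_iff (by positivity),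
    z1, z2, z3, z4, w1, w2, w3, w4] at l
  have p : 0 < (c/4)^2 := by positivity
  refine le_of_mul_le_mul_left ?_ p
  linarith

theorem exists_sign (t : ℝ) : ∃ e : ℝ, |e| ≤ 1 ∧ |-e| ≤ 1 ∧ t * e = |t| := by
  rcases le_total 0 t with h | h
  · exact ⟨1, by simp, by simp, by rw [abs_of_nonneg h]; ring⟩
  · exact ⟨-1, by simp, by simp, by rw [abs_of_nonpos h]; ring⟩

theorem piece {F : FlatFolding} {c : ℝ} (hc : 2/3 < c) {a b : ℕ} {g : ℂ → ℂ}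
    (H : Sheet F 2 c a b g) :
    ∃ P : Pc, P.ok ∧ Lay F c a b (if Even (a + b) then 1 else -1) P := by
  obtain ⟨hg, hm, ho⟩ := H
  obtain ⟨u, s, σ, hu, hσ, hx, hf⟩ := iso_form hg
  have e : (if Even (a + b) then (1 : ℝ) else -1) = σ := by
    rw [hx] at ho
    rcases hσ with rfl | rfl
    · rw [if_pos (ho.1 one_pos)]
    · rw [if_neg fun t => absurd (ho.2 t) (by norm_num)]
  rw [e]
  have c0 : 0 < c := by linarith
  let P : Pc := ⟨((g 0).re - 1/2) * (4/c) + u * (2*a + 1) - σ * s * (2*b + 1),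
    ((g 0).im - 1/2) * (4/c) + s * (2*a + 1) + σ * u * (2*b + 1), u, s, |u| + |s|⟩
  have L : Lay F c a b σ P := by
    intro a1 a2 h1 h2
    obtain ⟨h1, h1'⟩ := abs_le.1 h1
    obtain ⟨h2, h2'⟩ := abs_le.1 h2
    obtain ⟨m1, m2⟩ := hm ⟨c/4 * (2*a + 1 + a1), c/4 * (2*b + 1 + a2)⟩ (by
      refine ⟨?_, ?_, ?_, ?_⟩ <;> push_cast <;> nlinarith)
    refine ⟨_, m1, ?_, ?_, by rw [m2], by rw [m2]⟩
    · rw [(hf _).1]; simp only [P]; field_simp; ring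
    · rw [(hf _).2]; simp only [P]; field_simp; ring
  refine ⟨P, ?_, L⟩
  obtain ⟨e1, a1, a1', f1⟩ := exists_sign u
  obtain ⟨e2, a2, a2', f2⟩ := exists_sign (σ * s)
  obtain ⟨e3, a3, a3', f3⟩ := exists_sign s
  obtain ⟨e4, a4, a4', f4⟩ := exists_sign (σ * u)
  have n1 : |σ * s| = |s| := by rcases hσ with rfl | rfl <;> simp
  have n2 : |σ * u| = |u| := by rcases hσ with rfl | rfl <;> simp
  have lo : ∀ t : ℝ, 0 ≤ 1/2 + c/4 * t → -3 < t := fun t h => by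
    by_contra n
    nlinarith [mul_nonneg c0.le (sub_nonneg.2 (not_lt.1 n))]
  have hi : ∀ t : ℝ, 1/2 + c/4 * t ≤ 1 → t < 3 := fun t h => by
    by_contra n
    nlinarith [mul_nonneg c0.le (sub_nonneg.2 (not_lt.1 n))]
  have pc : P.c = u := rfl
  have ps : P.s = s := rfl
  have pw : P.w = |u| + |s| := rfl
  refine ⟨⟨hu, ?_, ?_, ?_, ?_⟩, ?_, ?_, ?_, ?_⟩
  · rw [pc, ps, pw]; linarith [le_abs_self u, le_abs_self s]
  · rw [pc, ps, pw]; linarith [le_abs_self u, neg_abs_le s]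
  · rw [pc, ps, pw]; linarith [neg_abs_le u, le_abs_self s]
  · rw [pc, ps, pw]; linarith [neg_abs_le u, neg_abs_le s]
  · obtain ⟨z, hz, z1, -⟩ := L (-e1) e2 a1' a2
    have := lo _ (z1 ▸ hz.1)
    rw [pc, ps] at this
    rw [pw]; linarith
  · obtain ⟨z, hz, z1, -⟩ := L e1 (-e2) a1 a2'
    have := hi _ (z1 ▸ hz.2.1)
    rw [pc, ps] at this
    rw [pw]; linarith
  · obtain ⟨z, hz, -, z1, -⟩ := L (-e3) (-e4) a3' a4'
    have := lo _ (z1 ▸ hz.2.2.1)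
    rw [pc, ps] at this
    rw [pw]; linarith
  · obtain ⟨z, hz, -, z1, -⟩ := L e3 e4 a3 a4
    have := hi _ (z1 ▸ hz.2.2.2)
    rw [pc, ps] at this
    rw [pw]; linarith

theorem upper (F : FlatFolding) (c : ℝ) (H : Layered F 2 c) : c ≤ 2/3 := by
  by_contra hc
  rw [not_le] at hc
  have c0 : 0 < c := by linarith
  obtain ⟨_, gA⟩ := H 0 (by norm_num) 0 (by norm_num)
  obtain ⟨_, gB⟩ := H 1 (by norm_num) 0 (by norm_num)
  obtain ⟨_, gC⟩ := H 1 (by norm_num) 1 (by norm_num)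
  obtain ⟨_, gD⟩ := H 0 (by norm_num) 1 (by norm_num)
  obtain ⟨A, a, lA⟩ := piece hc gA
  obtain ⟨B, b, lB⟩ := piece hc gB
  obtain ⟨C, c', lC⟩ := piece hc gC
  obtain ⟨D, d, lD⟩ := piece hc gD
  rw [if_pos (by decide)] at lA lC
  rw [if_neg (by decide)] at lB lD
  push_cast at lA lB lC lD
  refine four (A := A) (B := B) (C := C) (D := D) ⟨a, b, c', d, ?_, ?_, ?_, ?_, ?_, ?_⟩ <;>
    intro a1 a2 b1 b2 h1 h2 h3 h4 <;>
    have g1 : |-a1| ≤ 1 := (abs_neg a1).symm ▸ h1 <;>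
    have g2 : |-a2| ≤ 1 := (abs_neg a2).symm ▸ h2 <;>
    have g3 : |-b1| ≤ 1 := (abs_neg b1).symm ▸ h3 <;>
    have g4 : |-b2| ≤ 1 := (abs_neg b2).symm ▸ h4
  · have := lA.sep c0 lB _ _ _ _ g1 g2 g3 g4
    simp only [Pc.t]
    linarith
  · have := lA.sep c0 lD _ _ _ _ h2 g1 h4 g3
    simp only [Pc.t]
    linarith
  · have := lC.sep c0 lB _ _ _ _ g2 h1 g4 h3
    simp only [Pc.t]
    linarith
  · have := lC.sep c0 lD _ _ _ _ h1 h2 h3 h4
    linarith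
  · have := lC.sep c0 lA _ _ _ _ h1 h2 h3 h4
    linarith
  · have := lB.sep c0 lD _ _ _ _ h1 g2 h3 g4
    linarith

end Pool.Agent.MP_3b5bbf_co.S

end
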