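import Pool.Agent.Mg.F3b5bbfq.G3532df

set_option linter.all false

/-! Branch and bound certificates for a pair of squares. -/

set_option linter.unusedVariables false

namespace Pool.Agent.MP_3b5bbf_co.S

variable {X Y c1 s1 c2 s2 : ℝ}

theorem L0a_00
    (h1 : c1^2 + s1^2 = 1) (h2 : c2^2 + s2^2 = 1)
    (H : WB X Y c1 s1 c2 s2)
    (a1 : 0 ≤ (1:ℝ)*s1 - (0:ℝ)*c1) (b1 : 0 ≤ -((0:ℝ)*s1 - (1:ℝ)*c1))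
    (a2 : 0 ≤ (1:ℝ)*s2 - (0:ℝ)*c2) (b2 : 0 ≤ -((0:ℝ)*s2 - (1:ℝ)*c2))
    (x0 : 0 ≤ X) (x1 : 0 ≤ 4 - X)
    (y0 : 0 ≤ Y + 2) (y1 : 0 ≤ 2 - Y)
    (dxs : 0 < 6 - X - c1 - s1 - c2 - s2)
    (hn : 0 ≤ c1 - 3/4) : False := by
  have dx := dxs.le
  have k1 := chord h1 a1 b1 (by norm_num) (by norm_num)
  have u1 := tang h1 (0:ℝ) (1:ℝ)
  have m1 := tang h1 (45/64:ℝ) (45/64:ℝ)
  have k2 := chord h2 a2 b2 (by norm_num) (by norm_num)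
  have l2 := tang h2 (1:ℝ) (0:ℝ)
  have u2 := tang h2 (0:ℝ) (1:ℝ)
  linarith only [h1, h2, H.q1, H.q3, H.q6, H.q7, dxs, mul_nonneg hn x0, mul_nonneg hn y0,
    mul_nonneg hn a2, mul_nonneg hn l2, mul_nonneg x0 x1, mul_nonneg x0 k2, mul_nonneg x1 m1,
    mul_nonneg x1 l2, mul_nonneg y0 y1, mul_nonneg y0 m1, mul_nonneg y0 b2, mul_nonneg y0 u2,
    mul_nonneg y1 a1, mul_nonneg y1 k1, mul_nonneg y1 a2, mul_nonneg y1 l2, mul_nonneg u1 k2]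

theorem L0a_01
    (h1 : c1^2 + s1^2 = 1) (h2 : c2^2 + s2^2 = 1)
    (H : WB X Y c1 s1 c2 s2)
    (a1 : 0 ≤ (1:ℝ)*s1 - (0:ℝ)*c1) (b1 : 0 ≤ -((0:ℝ)*s1 - (1:ℝ)*c1))
    (a2 : 0 ≤ (0:ℝ)*s2 - (1:ℝ)*c2) (b2 : 0 ≤ -((-1:ℝ)*s2 - (0:ℝ)*c2))
    (x0 : 0 ≤ X) (x1 : 0 ≤ 4 - X)
    (y0 : 0 ≤ Y + 2) (y1 : 0 ≤ 2 - Y)
    (dxs : 0 < 6 - X - c1 - s1 + c2 - s2)
    (hn : 0 ≤ c1 - 3/4) : False := by
  have dx := dxs.le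
  rcases spl (Y - (0:ℝ)) with g0 | g0
  · have k1 := chord h1 a1 b1 (by norm_num) (by norm_num)
    have l1 := tang h1 (1:ℝ) (0:ℝ)
    have m1 := tang h1 (45/64:ℝ) (45/64:ℝ)
    have k2 := chord h2 a2 b2 (by norm_num) (by norm_num)
    have l2 := tang h2 (0:ℝ) (1:ℝ)
    have u2 := tang h2 (-1:ℝ) (0:ℝ)
    linarith only [h1, h2, H.q6, dxs, mul_nonneg dx x0, mul_nonneg dx k2, mul_nonneg hn a1,
      mul_nonneg x0 k1, mul_nonneg x1 m1, mul_nonneg g0 y1, mul_nonneg g0 l2, mul_nonneg y1 k1,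
      mul_nonneg y1 l1, mul_nonneg y1 u2, mul_nonneg k1 m1, mul_nonneg k1 a2, mul_nonneg k1 k2,
      mul_nonneg l1 k2, mul_nonneg l1 l2, mul_nonneg k2 k2, mul_nonneg k2 l2, mul_nonneg k2 u2]
  · have k1 := chord h1 a1 b1 (by norm_num) (by norm_num)
    have l1 := tang h1 (1:ℝ) (0:ℝ)
    have m1 := tang h1 (45/64:ℝ) (45/64:ℝ)
    have k2 := chord h2 a2 b2 (by norm_num) (by norm_num)
    have l2 := tang h2 (0:ℝ) (1:ℝ)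
    have u2 := tang h2 (-1:ℝ) (0:ℝ)
    have m2 := tang h2 (-45/64:ℝ) (45/64:ℝ)
    linarith only [h1, h2, H.q1, H.q3, H.q7, dxs, mul_nonneg dx x0, mul_nonneg dx l1,
      mul_nonneg dx l2, mul_nonneg hn a1, mul_nonneg hn l1, mul_nonneg x0 k2, mul_nonneg x0 u2,
      mul_nonneg x1 m1, mul_nonneg y0 g0, mul_nonneg y0 b2, mul_nonneg g0 k1, mul_nonneg g0 l1,
      mul_nonneg g0 k2, mul_nonneg a1 k2, mul_nonneg k1 m1, mul_nonneg l1 u2, mul_nonneg m1 k2,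
      mul_nonneg m1 u2, mul_nonneg a2 k2, mul_nonneg k2 k2, mul_nonneg k2 m2]

theorem L0a_02
    (h1 : c1^2 + s1^2 = 1) (h2 : c2^2 + s2^2 = 1)
    (H : WB X Y c1 s1 c2 s2)
    (a1 : 0 ≤ (1:ℝ)*s1 - (0:ℝ)*c1) (b1 : 0 ≤ -((0:ℝ)*s1 - (1:ℝ)*c1))
    (a2 : 0 ≤ (-1:ℝ)*s2 - (0:ℝ)*c2) (b2 : 0 ≤ -((0:ℝ)*s2 - (-1:ℝ)*c2))
    (x0 : 0 ≤ X) (x1 : 0 ≤ 4 - X)
    (y0 : 0 ≤ Y + 2) (y1 : 0 ≤ 2 - Y)
    (dxs : 0 < 6 - X - c1 - s1 + c2 + s2)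
    (hn : 0 ≤ c1 - 3/4) : False := by
  have dx := dxs.le
  rcases spl (Y - (0:ℝ)) with g0 | g0
  · have k1 := chord h1 a1 b1 (by norm_num) (by norm_num)
    have l1 := tang h1 (1:ℝ) (0:ℝ)
    have m1 := tang h1 (45/64:ℝ) (45/64:ℝ)
    have k2 := chord h2 a2 b2 (by norm_num) (by norm_num)
    have l2 := tang h2 (-1:ℝ) (0:ℝ)
    have u2 := tang h2 (0:ℝ) (-1:ℝ)
    linarith only [h1, h2, H.q3, H.q6, dxs, mul_nonneg dx x0, mul_nonneg dx l1, mul_nonneg dx u2,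
      mul_nonneg hn g0, mul_nonneg hn l1, mul_nonneg x0 k1, mul_nonneg x0 a2, mul_nonneg x0 l2,
      mul_nonneg g0 y1, mul_nonneg g0 m1, mul_nonneg g0 k2, mul_nonneg g0 l2, mul_nonneg y1 a1,
      mul_nonneg y1 k1, mul_nonneg k1 m1, mul_nonneg k1 b2, mul_nonneg l1 k2, mul_nonneg m1 k2,
      mul_nonneg k2 k2, mul_nonneg k2 l2, mul_nonneg k2 u2]
  · rcases spl (Y - (-1:ℝ)) with g1 | g1
    · have k1 := chord h1 a1 b1 (by norm_num) (by norm_num)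
      have l1 := tang h1 (1:ℝ) (0:ℝ)
      have m1 := tang h1 (45/64:ℝ) (45/64:ℝ)
      have k2 := chord h2 a2 b2 (by norm_num) (by norm_num)
      have l2 := tang h2 (-1:ℝ) (0:ℝ)
      have u2 := tang h2 (0:ℝ) (-1:ℝ)
      have m2 := tang h2 (-45/64:ℝ) (-45/64:ℝ)
      linarith only [h1, h2, H.q3, H.q6, H.q7, dxs, mul_nonneg dx x0, mul_nonneg dx l1,
        mul_nonneg dx m1, mul_nonneg dx u2, mul_nonneg hn a1, mul_nonneg hn l1, mul_nonneg x0 l2,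
        mul_nonneg x1 k2, mul_nonneg g1 g0, mul_nonneg g1 k2, mul_nonneg g1 l2, mul_nonneg g0 a1,
        mul_nonneg g0 k1, mul_nonneg k1 m1, mul_nonneg k1 l2, mul_nonneg l1 k2, mul_nonneg l1 l2,
        mul_nonneg m1 k2, mul_nonneg k2 k2, mul_nonneg k2 u2, mul_nonneg k2 m2]
    · rcases spl ((4/5:ℝ)*s1 - (3/5:ℝ)*c1) with g2 | g2
      · have k1 := chord h1 g2 b1 (by norm_num) (by norm_num)
        have l1 := tang h1 (4/5:ℝ) (3/5:ℝ)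
        have k2 := chord h2 a2 b2 (by norm_num) (by norm_num)
        linarith only [h1, h2, H.q4, H.q7, dxs, x1, y0, k2, mul_nonneg dx x0, mul_nonneg hn x0,
          mul_nonneg x0 k1, mul_nonneg x0 k2, mul_nonneg x1 g2, mul_nonneg y0 g1, mul_nonneg y0 b1,
          mul_nonneg g1 g2, mul_nonneg g1 l1]
      · have k1 := chord h1 a1 g2 (by norm_num) (by norm_num)
        have l1 := tang h1 (1:ℝ) (0:ℝ)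
        have k2 := chord h2 a2 b2 (by norm_num) (by norm_num)
        have l2 := tang h2 (-1:ℝ) (0:ℝ)
        linarith only [h1, h2, H.q2, H.q3, H.q6, dxs, k1, k2, mul_nonneg dx x0, mul_nonneg dx a1,
          mul_nonneg dx b2, mul_nonneg hn k2, mul_nonneg x0 k1, mul_nonneg x1 a1, mul_nonneg y0 g1,
          mul_nonneg y0 g2, mul_nonneg y0 a2, mul_nonneg y0 l2, mul_nonneg g1 a1, mul_nonneg g1 k1,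
          mul_nonneg a1 a2, mul_nonneg g2 l1, mul_nonneg g2 k2, mul_nonneg k1 l1, mul_nonneg k1 a2,
          mul_nonneg b2 k2]

theorem L0a_03
    (h1 : c1^2 + s1^2 = 1) (h2 : c2^2 + s2^2 = 1)
    (H : WB X Y c1 s1 c2 s2)
    (a1 : 0 ≤ (1:ℝ)*s1 - (0:ℝ)*c1) (b1 : 0 ≤ -((0:ℝ)*s1 - (1:ℝ)*c1))
    (a2 : 0 ≤ (0:ℝ)*s2 - (-1:ℝ)*c2) (b2 : 0 ≤ -((1:ℝ)*s2 - (0:ℝ)*c2))
    (x0 : 0 ≤ X) (x1 : 0 ≤ 4 - X)
    (y0 : 0 ≤ Y + 2) (y1 : 0 ≤ 2 - Y)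
    (dxs : 0 < 6 - X - c1 - s1 - c2 + s2)
    (hn : 0 ≤ c1 - 3/4) : False := by
  have dx := dxs.le
  have k1 := chord h1 a1 b1 (by norm_num) (by norm_num)
  have u1 := tang h1 (0:ℝ) (1:ℝ)
  have m1 := tang h1 (45/64:ℝ) (45/64:ℝ)
  have k2 := chord h2 a2 b2 (by norm_num) (by norm_num)
  have l2 := tang h2 (0:ℝ) (-1:ℝ)
  have u2 := tang h2 (1:ℝ) (0:ℝ)
  linarith only [h1, h2, H.q2, H.q3, H.q4, H.q6, dxs, mul_nonneg hn x0, mul_nonneg hn y0,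
    mul_nonneg hn l2, mul_nonneg x0 x1, mul_nonneg x0 k1, mul_nonneg x0 k2, mul_nonneg x1 u2,
    mul_nonneg y0 y1, mul_nonneg y0 m1, mul_nonneg y0 b2, mul_nonneg y1 a1, mul_nonneg y1 k1,
    mul_nonneg y1 a2, mul_nonneg y1 l2, mul_nonneg a1 b2, mul_nonneg k1 u2, mul_nonneg u1 a2]

theorem L0a_10
    (h1 : c1^2 + s1^2 = 1) (h2 : c2^2 + s2^2 = 1)
    (H : WB X Y c1 s1 c2 s2)
    (a1 : 0 ≤ (0:ℝ)*s1 - (1:ℝ)*c1) (b1 : 0 ≤ -((-1:ℝ)*s1 - (0:ℝ)*c1))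
    (a2 : 0 ≤ (1:ℝ)*s2 - (0:ℝ)*c2) (b2 : 0 ≤ -((0:ℝ)*s2 - (1:ℝ)*c2))
    (x0 : 0 ≤ X) (x1 : 0 ≤ 4 - X)
    (y0 : 0 ≤ Y + 2) (y1 : 0 ≤ 2 - Y)
    (dxs : 0 < 6 - X + c1 - s1 - c2 - s2)
    (hn : 0 ≤ c1 - 3/4) : False := by
  have dx := dxs.le
  have k1 := chord h1 a1 b1 (by norm_num) (by norm_num)
  have m1 := tang h1 (-45/64:ℝ) (45/64:ℝ)
  linarith only [h1, h2, H.q3, H.q4, H.q6, H.q7, H.q9, H.q12, H.q15, x1, mul_nonneg hn x0,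
    mul_nonneg hn y0, mul_nonneg x0 x1, mul_nonneg x0 k1, mul_nonneg y0 y1, mul_nonneg y0 m1,
    mul_nonneg y1 a1, mul_nonneg y1 k1]

theorem L0a_11
    (h1 : c1^2 + s1^2 = 1) (h2 : c2^2 + s2^2 = 1)
    (H : WB X Y c1 s1 c2 s2)
    (a1 : 0 ≤ (0:ℝ)*s1 - (1:ℝ)*c1) (b1 : 0 ≤ -((-1:ℝ)*s1 - (0:ℝ)*c1))
    (a2 : 0 ≤ (0:ℝ)*s2 - (1:ℝ)*c2) (b2 : 0 ≤ -((-1:ℝ)*s2 - (0:ℝ)*c2))
    (x0 : 0 ≤ X) (x1 : 0 ≤ 4 - X)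
    (y0 : 0 ≤ Y + 2) (y1 : 0 ≤ 2 - Y)
    (dxs : 0 < 6 - X + c1 - s1 + c2 - s2)
    (hn : 0 ≤ c1 - 3/4) : False := by
  have dx := dxs.le
  have k1 := chord h1 a1 b1 (by norm_num) (by norm_num)
  have m1 := tang h1 (-45/64:ℝ) (45/64:ℝ)
  linarith only [h1, h2, H.q3, H.q5, H.q6, H.q9, H.q12, H.q15, x1, mul_nonneg hn x0,
    mul_nonneg hn y0, mul_nonneg x0 x1, mul_nonneg x0 k1, mul_nonneg y0 y1, mul_nonneg y0 m1,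
    mul_nonneg y1 a1, mul_nonneg y1 k1]

theorem L0a_12
    (h1 : c1^2 + s1^2 = 1) (h2 : c2^2 + s2^2 = 1)
    (H : WB X Y c1 s1 c2 s2)
    (a1 : 0 ≤ (0:ℝ)*s1 - (1:ℝ)*c1) (b1 : 0 ≤ -((-1:ℝ)*s1 - (0:ℝ)*c1))
    (a2 : 0 ≤ (-1:ℝ)*s2 - (0:ℝ)*c2) (b2 : 0 ≤ -((0:ℝ)*s2 - (-1:ℝ)*c2))
    (x0 : 0 ≤ X) (x1 : 0 ≤ 4 - X)
    (y0 : 0 ≤ Y + 2) (y1 : 0 ≤ 2 - Y)
    (dxs : 0 < 6 - X + c1 - s1 + c2 + s2)
    (hn : 0 ≤ c1 - 3/4) : False := by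
  have dx := dxs.le
  have k1 := chord h1 a1 b1 (by norm_num) (by norm_num)
  have m1 := tang h1 (-45/64:ℝ) (45/64:ℝ)
  linarith only [h1, h2, H.q5, H.q6, H.q7, H.q9, H.q11, H.q12, H.q15, x1, mul_nonneg hn x0,
    mul_nonneg hn y0, mul_nonneg x0 x1, mul_nonneg x0 k1, mul_nonneg y0 y1, mul_nonneg y0 m1,
    mul_nonneg y1 a1, mul_nonneg y1 k1]

theorem L0a_13
    (h1 : c1^2 + s1^2 = 1) (h2 : c2^2 + s2^2 = 1)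
    (H : WB X Y c1 s1 c2 s2)
    (a1 : 0 ≤ (0:ℝ)*s1 - (1:ℝ)*c1) (b1 : 0 ≤ -((-1:ℝ)*s1 - (0:ℝ)*c1))
    (a2 : 0 ≤ (0:ℝ)*s2 - (-1:ℝ)*c2) (b2 : 0 ≤ -((1:ℝ)*s2 - (0:ℝ)*c2))
    (x0 : 0 ≤ X) (x1 : 0 ≤ 4 - X)
    (y0 : 0 ≤ Y + 2) (y1 : 0 ≤ 2 - Y)
    (dxs : 0 < 6 - X + c1 - s1 - c2 + s2)
    (hn : 0 ≤ c1 - 3/4) : False := by
  have dx := dxs.le
  have k1 := chord h1 a1 b1 (by norm_num) (by norm_num)
  have m1 := tang h1 (-45/64:ℝ) (45/64:ℝ)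
  linarith only [h1, h2, H.q3, H.q5, H.q6, H.q9, H.q12, H.q13, H.q14, x1, mul_nonneg hn x0,
    mul_nonneg hn y0, mul_nonneg x0 x1, mul_nonneg x0 k1, mul_nonneg y0 y1, mul_nonneg y0 m1,
    mul_nonneg y1 a1, mul_nonneg y1 k1]

theorem L0a_20
    (h1 : c1^2 + s1^2 = 1) (h2 : c2^2 + s2^2 = 1)
    (H : WB X Y c1 s1 c2 s2)
    (a1 : 0 ≤ (-1:ℝ)*s1 - (0:ℝ)*c1) (b1 : 0 ≤ -((0:ℝ)*s1 - (-1:ℝ)*c1))
    (a2 : 0 ≤ (1:ℝ)*s2 - (0:ℝ)*c2) (b2 : 0 ≤ -((0:ℝ)*s2 - (1:ℝ)*c2))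
    (x0 : 0 ≤ X) (x1 : 0 ≤ 4 - X)
    (y0 : 0 ≤ Y + 2) (y1 : 0 ≤ 2 - Y)
    (dxs : 0 < 6 - X + c1 + s1 - c2 - s2)
    (hn : 0 ≤ c1 - 3/4) : False := by
  have dx := dxs.le
  have k1 := chord h1 a1 b1 (by norm_num) (by norm_num)
  have m1 := tang h1 (-45/64:ℝ) (-45/64:ℝ)
  linarith only [h1, h2, H.q0, H.q2, H.q3, H.q4, H.q8, H.q9, H.q11, x1, mul_nonneg hn x0,
    mul_nonneg hn y1, mul_nonneg x0 x1, mul_nonneg x0 k1, mul_nonneg y0 y1, mul_nonneg y0 b1,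
    mul_nonneg y0 k1, mul_nonneg y1 m1]

theorem L0a_21
    (h1 : c1^2 + s1^2 = 1) (h2 : c2^2 + s2^2 = 1)
    (H : WB X Y c1 s1 c2 s2)
    (a1 : 0 ≤ (-1:ℝ)*s1 - (0:ℝ)*c1) (b1 : 0 ≤ -((0:ℝ)*s1 - (-1:ℝ)*c1))
    (a2 : 0 ≤ (0:ℝ)*s2 - (1:ℝ)*c2) (b2 : 0 ≤ -((-1:ℝ)*s2 - (0:ℝ)*c2))
    (x0 : 0 ≤ X) (x1 : 0 ≤ 4 - X)
    (y0 : 0 ≤ Y + 2) (y1 : 0 ≤ 2 - Y)
    (dxs : 0 < 6 - X + c1 + s1 + c2 - s2)
    (hn : 0 ≤ c1 - 3/4) : False := by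
  have dx := dxs.le
  have k1 := chord h1 a1 b1 (by norm_num) (by norm_num)
  have m1 := tang h1 (-45/64:ℝ) (-45/64:ℝ)
  linarith only [h1, h2, H.q0, H.q3, H.q6, H.q9, H.q10, H.q12, x1, mul_nonneg hn x0,
    mul_nonneg hn y1, mul_nonneg x0 x1, mul_nonneg x0 k1, mul_nonneg y0 y1, mul_nonneg y0 b1,
    mul_nonneg y0 k1, mul_nonneg y1 m1]

theorem L0a_22
    (h1 : c1^2 + s1^2 = 1) (h2 : c2^2 + s2^2 = 1)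
    (H : WB X Y c1 s1 c2 s2)
    (a1 : 0 ≤ (-1:ℝ)*s1 - (0:ℝ)*c1) (b1 : 0 ≤ -((0:ℝ)*s1 - (-1:ℝ)*c1))
    (a2 : 0 ≤ (-1:ℝ)*s2 - (0:ℝ)*c2) (b2 : 0 ≤ -((0:ℝ)*s2 - (-1:ℝ)*c2))
    (x0 : 0 ≤ X) (x1 : 0 ≤ 4 - X)
    (y0 : 0 ≤ Y + 2) (y1 : 0 ≤ 2 - Y)
    (dxs : 0 < 6 - X + c1 + s1 + c2 + s2)
    (hn : 0 ≤ c1 - 3/4) : False := by
  have dx := dxs.le
  have k1 := chord h1 a1 b1 (by norm_num) (by norm_num)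
  have m1 := tang h1 (-45/64:ℝ) (-45/64:ℝ)
  linarith only [h1, h2, H.q0, H.q2, H.q3, H.q9, H.q10, H.q12, H.q14, x1, mul_nonneg hn x0,
    mul_nonneg hn y1, mul_nonneg x0 x1, mul_nonneg x0 k1, mul_nonneg y0 y1, mul_nonneg y0 b1,
    mul_nonneg y0 k1, mul_nonneg y1 m1]

theorem L0a_23
    (h1 : c1^2 + s1^2 = 1) (h2 : c2^2 + s2^2 = 1)
    (H : WB X Y c1 s1 c2 s2)
    (a1 : 0 ≤ (-1:ℝ)*s1 - (0:ℝ)*c1) (b1 : 0 ≤ -((0:ℝ)*s1 - (-1:ℝ)*c1))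
    (a2 : 0 ≤ (0:ℝ)*s2 - (-1:ℝ)*c2) (b2 : 0 ≤ -((1:ℝ)*s2 - (0:ℝ)*c2))
    (x0 : 0 ≤ X) (x1 : 0 ≤ 4 - X)
    (y0 : 0 ≤ Y + 2) (y1 : 0 ≤ 2 - Y)
    (dxs : 0 < 6 - X + c1 + s1 - c2 + s2)
    (hn : 0 ≤ c1 - 3/4) : False := by
  have dx := dxs.le
  have k1 := chord h1 a1 b1 (by norm_num) (by norm_num)
  have m1 := tang h1 (-45/64:ℝ) (-45/64:ℝ)
  linarith only [h1, h2, H.q0, H.q3, H.q4, H.q6, H.q8, H.q9, H.q11, x1, mul_nonneg hn x0,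
    mul_nonneg hn y1, mul_nonneg x0 x1, mul_nonneg x0 k1, mul_nonneg y0 y1, mul_nonneg y0 b1,
    mul_nonneg y0 k1, mul_nonneg y1 m1]

theorem L0a_30
    (h1 : c1^2 + s1^2 = 1) (h2 : c2^2 + s2^2 = 1)
    (H : WB X Y c1 s1 c2 s2)
    (a1 : 0 ≤ (0:ℝ)*s1 - (-1:ℝ)*c1) (b1 : 0 ≤ -((1:ℝ)*s1 - (0:ℝ)*c1))
    (a2 : 0 ≤ (1:ℝ)*s2 - (0:ℝ)*c2) (b2 : 0 ≤ -((0:ℝ)*s2 - (1:ℝ)*c2))
    (x0 : 0 ≤ X) (x1 : 0 ≤ 4 - X)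
    (y0 : 0 ≤ Y + 2) (y1 : 0 ≤ 2 - Y)
    (dxs : 0 < 6 - X - c1 + s1 - c2 - s2)
    (hn : 0 ≤ c1 - 3/4) : False := by
  have dx := dxs.le
  have k1 := chord h1 a1 b1 (by norm_num) (by norm_num)
  have l1 := tang h1 (0:ℝ) (-1:ℝ)
  have m1 := tang h1 (45/64:ℝ) (-45/64:ℝ)
  have k2 := chord h2 a2 b2 (by norm_num) (by norm_num)
  have l2 := tang h2 (1:ℝ) (0:ℝ)
  have u2 := tang h2 (0:ℝ) (1:ℝ)
  linarith only [h1, h2, H.q1, H.q3, H.q6, H.q7, dxs, mul_nonneg hn x0, mul_nonneg hn y1,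
    mul_nonneg hn u2, mul_nonneg x0 x1, mul_nonneg x0 k1, mul_nonneg x0 k2, mul_nonneg x1 l2,
    mul_nonneg y0 y1, mul_nonneg y0 b1, mul_nonneg y0 k1, mul_nonneg y0 b2, mul_nonneg y0 u2,
    mul_nonneg y1 m1, mul_nonneg y1 a2, mul_nonneg b1 a2, mul_nonneg k1 l2, mul_nonneg l1 b2]

theorem L0a_31
    (h1 : c1^2 + s1^2 = 1) (h2 : c2^2 + s2^2 = 1)
    (H : WB X Y c1 s1 c2 s2)
    (a1 : 0 ≤ (0:ℝ)*s1 - (-1:ℝ)*c1) (b1 : 0 ≤ -((1:ℝ)*s1 - (0:ℝ)*c1))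
    (a2 : 0 ≤ (0:ℝ)*s2 - (1:ℝ)*c2) (b2 : 0 ≤ -((-1:ℝ)*s2 - (0:ℝ)*c2))
    (x0 : 0 ≤ X) (x1 : 0 ≤ 4 - X)
    (y0 : 0 ≤ Y + 2) (y1 : 0 ≤ 2 - Y)
    (dxs : 0 < 6 - X - c1 + s1 + c2 - s2)
    (hn : 0 ≤ c1 - 3/4) : False := by
  have dx := dxs.le
  rcases spl (Y - (0:ℝ)) with g0 | g0
  · rcases spl (Y - (1:ℝ)) with g1 | g1
    · rcases spl ((4/5:ℝ)*s1 - (-3/5:ℝ)*c1) with g2 | g2
      · have k1 := chord h1 g2 b1 (by norm_num) (by norm_num)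
        have u1 := tang h1 (1:ℝ) (0:ℝ)
        have k2 := chord h2 a2 b2 (by norm_num) (by norm_num)
        have u2 := tang h2 (-1:ℝ) (0:ℝ)
        linarith only [h1, h2, H.q3, H.q6, H.q7, dxs, k1, k2, mul_nonneg dx x0, mul_nonneg dx b1,
          mul_nonneg dx a2, mul_nonneg hn k2, mul_nonneg x0 k1, mul_nonneg x1 b1, mul_nonneg g1 y1,
          mul_nonneg g1 b1, mul_nonneg g1 k1, mul_nonneg y1 g2, mul_nonneg y1 b2, mul_nonneg y1 u2,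
          mul_nonneg g2 u1, mul_nonneg g2 k2, mul_nonneg b1 b2, mul_nonneg k1 u1, mul_nonneg k1 b2,
          mul_nonneg a2 k2]
      · have k1 := chord h1 a1 g2 (by norm_num) (by norm_num)
        have u1 := tang h1 (4/5:ℝ) (-3/5:ℝ)
        have k2 := chord h2 a2 b2 (by norm_num) (by norm_num)
        linarith only [h1, h2, H.q1, H.q2, dxs, x1, y1, k2, mul_nonneg dx x0, mul_nonneg hn x0,
          mul_nonneg x0 k1, mul_nonneg x0 k2, mul_nonneg x1 g2, mul_nonneg g1 y1, mul_nonneg g1 g2,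
          mul_nonneg g1 u1, mul_nonneg y1 a1]
    · have k1 := chord h1 a1 b1 (by norm_num) (by norm_num)
      have u1 := tang h1 (1:ℝ) (0:ℝ)
      have m1 := tang h1 (45/64:ℝ) (-45/64:ℝ)
      have k2 := chord h2 a2 b2 (by norm_num) (by norm_num)
      have l2 := tang h2 (0:ℝ) (1:ℝ)
      have u2 := tang h2 (-1:ℝ) (0:ℝ)
      have m2 := tang h2 (-45/64:ℝ) (45/64:ℝ)
      linarith only [h1, h2, H.q2, H.q3, H.q6, dxs, mul_nonneg dx x0, mul_nonneg dx u1,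
        mul_nonneg dx m1, mul_nonneg dx l2, mul_nonneg hn b1, mul_nonneg hn u1, mul_nonneg x0 b2,
        mul_nonneg x1 k2, mul_nonneg g0 g1, mul_nonneg g0 b1, mul_nonneg g0 k1, mul_nonneg g1 k2,
        mul_nonneg g1 u2, mul_nonneg b1 u2, mul_nonneg k1 m1, mul_nonneg u1 k2, mul_nonneg u1 u2,
        mul_nonneg m1 k2, mul_nonneg k2 k2, mul_nonneg k2 l2, mul_nonneg k2 m2]
  · have k1 := chord h1 a1 b1 (by norm_num) (by norm_num)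
    have u1 := tang h1 (1:ℝ) (0:ℝ)
    have m1 := tang h1 (45/64:ℝ) (-45/64:ℝ)
    have k2 := chord h2 a2 b2 (by norm_num) (by norm_num)
    have l2 := tang h2 (0:ℝ) (1:ℝ)
    have u2 := tang h2 (-1:ℝ) (0:ℝ)
    have m2 := tang h2 (-45/64:ℝ) (45/64:ℝ)
    linarith only [h1, h2, H.q3, H.q6, dxs, mul_nonneg dx x0, mul_nonneg dx u1, mul_nonneg dx l2,
      mul_nonneg hn g0, mul_nonneg hn u1, mul_nonneg x0 k1, mul_nonneg x0 k2, mul_nonneg x0 u2,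
      mul_nonneg y0 g0, mul_nonneg y0 b1, mul_nonneg y0 k1, mul_nonneg g0 m1, mul_nonneg g0 b2,
      mul_nonneg g0 k2, mul_nonneg k1 m1, mul_nonneg k1 a2, mul_nonneg u1 k2, mul_nonneg m1 k2,
      mul_nonneg b2 l2, mul_nonneg k2 k2, mul_nonneg k2 m2]

theorem L0a_32
    (h1 : c1^2 + s1^2 = 1) (h2 : c2^2 + s2^2 = 1)
    (H : WB X Y c1 s1 c2 s2)
    (a1 : 0 ≤ (0:ℝ)*s1 - (-1:ℝ)*c1) (b1 : 0 ≤ -((1:ℝ)*s1 - (0:ℝ)*c1))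
    (a2 : 0 ≤ (-1:ℝ)*s2 - (0:ℝ)*c2) (b2 : 0 ≤ -((0:ℝ)*s2 - (-1:ℝ)*c2))
    (x0 : 0 ≤ X) (x1 : 0 ≤ 4 - X)
    (y0 : 0 ≤ Y + 2) (y1 : 0 ≤ 2 - Y)
    (dxs : 0 < 6 - X - c1 + s1 + c2 + s2)
    (hn : 0 ≤ c1 - 3/4) : False := by
  have dx := dxs.le
  rcases spl (Y - (0:ℝ)) with g0 | g0
  · have k1 := chord h1 a1 b1 (by norm_num) (by norm_num)
    have u1 := tang h1 (1:ℝ) (0:ℝ)
    have m1 := tang h1 (45/64:ℝ) (-45/64:ℝ)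
    have k2 := chord h2 a2 b2 (by norm_num) (by norm_num)
    have l2 := tang h2 (-1:ℝ) (0:ℝ)
    have u2 := tang h2 (0:ℝ) (-1:ℝ)
    have m2 := tang h2 (-45/64:ℝ) (-45/64:ℝ)
    linarith only [h1, h2, H.q2, H.q4, H.q6, dxs, mul_nonneg dx x0, mul_nonneg dx u1,
      mul_nonneg dx u2, mul_nonneg hn b1, mul_nonneg hn u1, mul_nonneg x0 a2, mul_nonneg x0 k2,
      mul_nonneg x1 m1, mul_nonneg g0 y1, mul_nonneg g0 b1, mul_nonneg g0 k2, mul_nonneg y1 l2,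
      mul_nonneg k1 m1, mul_nonneg u1 a2, mul_nonneg u1 k2, mul_nonneg m1 k2, mul_nonneg m1 l2,
      mul_nonneg a2 u2, mul_nonneg k2 k2, mul_nonneg k2 m2]
  · have k1 := chord h1 a1 b1 (by norm_num) (by norm_num)
    have u1 := tang h1 (1:ℝ) (0:ℝ)
    have m1 := tang h1 (45/64:ℝ) (-45/64:ℝ)
    have k2 := chord h2 a2 b2 (by norm_num) (by norm_num)
    have l2 := tang h2 (-1:ℝ) (0:ℝ)
    have u2 := tang h2 (0:ℝ) (-1:ℝ)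
    have m2 := tang h2 (-45/64:ℝ) (-45/64:ℝ)
    linarith only [h1, h2, H.q3, dxs, mul_nonneg dx x0, mul_nonneg dx k2, mul_nonneg hn b1,
      mul_nonneg x0 k1, mul_nonneg x1 m1, mul_nonneg y0 g0, mul_nonneg y0 k1, mul_nonneg y0 u1,
      mul_nonneg y0 l2, mul_nonneg g0 u2, mul_nonneg b1 b2, mul_nonneg k1 m1, mul_nonneg k1 k2,
      mul_nonneg u1 u2, mul_nonneg k2 k2, mul_nonneg k2 m2]

theorem L0a_33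
    (h1 : c1^2 + s1^2 = 1) (h2 : c2^2 + s2^2 = 1)
    (H : WB X Y c1 s1 c2 s2)
    (a1 : 0 ≤ (0:ℝ)*s1 - (-1:ℝ)*c1) (b1 : 0 ≤ -((1:ℝ)*s1 - (0:ℝ)*c1))
    (a2 : 0 ≤ (0:ℝ)*s2 - (-1:ℝ)*c2) (b2 : 0 ≤ -((1:ℝ)*s2 - (0:ℝ)*c2))
    (x0 : 0 ≤ X) (x1 : 0 ≤ 4 - X)
    (y0 : 0 ≤ Y + 2) (y1 : 0 ≤ 2 - Y)
    (dxs : 0 < 6 - X - c1 + s1 - c2 + s2)
    (hn : 0 ≤ c1 - 3/4) : False := by
  have dx := dxs.le
  have k1 := chord h1 a1 b1 (by norm_num) (by norm_num)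
  have l1 := tang h1 (0:ℝ) (-1:ℝ)
  have m1 := tang h1 (45/64:ℝ) (-45/64:ℝ)
  have k2 := chord h2 a2 b2 (by norm_num) (by norm_num)
  have l2 := tang h2 (0:ℝ) (-1:ℝ)
  have u2 := tang h2 (1:ℝ) (0:ℝ)
  linarith only [h1, h2, H.q2, H.q3, H.q4, H.q6, dxs, mul_nonneg hn x0, mul_nonneg hn y1,
    mul_nonneg hn b2, mul_nonneg hn u2, mul_nonneg x0 x1, mul_nonneg x0 k2, mul_nonneg x1 m1,
    mul_nonneg x1 u2, mul_nonneg y0 y1, mul_nonneg y0 b1, mul_nonneg y0 k1, mul_nonneg y0 b2,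
    mul_nonneg y0 u2, mul_nonneg y1 m1, mul_nonneg y1 a2, mul_nonneg y1 l2, mul_nonneg l1 k2]

end Pool.Agent.MP_3b5bbf_co.S
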