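import Pool.Agent.MP_3b5bbf_co.Defs

set_option linter.all false

section

/-! Barycentric coordinates and pairs of triangles. -/

namespace Pool.Agent.MP_3b5bbf_co.Up

open Set

/-- twice the signed area -/
def dd (w : Fin 3 → ℂ) : ℝ := cross (w 0) (w 1) (w 2)

/-- barycentric coordinates -/
noncomputable def bary (w : Fin 3 → ℂ) (z : ℂ) (k : Fin 3) : ℝ :=
  cross z (w (k + 1)) (w (k + 2)) / dd w

/-- combination of the vertices -/
noncomputable def comb (w : Fin 3 → ℂ) (l : Fin 3 → ℝ) : ℂ := ∑ k, l k • w k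

/-- the open triangle -/
def inn (w : Fin 3 → ℂ) : Set ℂ := {z | ∀ k, 0 < bary w z k}

/-- the affine map sending `w` to `w'` -/
noncomputable def lift (w w' : Fin 3 → ℂ) (z : ℂ) : ℂ := comb w' (bary w z)

/-- `a b c` are the vertices in some order -/
def Vs (w : Fin 3 → ℂ) (a b c : ℂ) : Prop :=
  ∃ k l m : Fin 3, k ≠ l ∧ k ≠ m ∧ l ≠ m ∧ w k = a ∧ w l = b ∧ w m = c

/-- two triangles meet in a common face -/
def Meet (w w' : Fin 3 → ℂ) : Prop := tri w ∩ tri w' ⊆ convexHull ℝ (range w ∩ range w')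

variable {w w' : Fin 3 → ℂ} {a b c c' x y z : ℂ}

theorem mem_tri' : z ∈ tri w ↔ ∃ l : Fin 3 → ℝ, (∀ i, 0 ≤ l i) ∧ ∑ i, l i = 1 ∧ comb w l = z := by
  unfold comb
  constructor
  · intro hz
    refine convexHull_min (t := {z | ∃ l : Fin 3 → ℝ, (∀ i, 0 ≤ l i) ∧ ∑ i, l i = 1 ∧
      ∑ i, l i • w i = z}) ?_ ?_ hz
    · rintro _ ⟨i, rfl⟩
      refine ⟨Pi.single i 1, fun j => ?_, by simp, ?_⟩
      · rw [Pi.single_apply]; split_ifs <;> norm_num
      · simp [Pi.single_apply]
    · rintro _ ⟨l, l1, l2, rfl⟩ _ ⟨m, m1, m2, rfl⟩ a b ha hb hab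
      refine ⟨fun i => a * l i + b * m i, fun i => by have := l1 i; have := m1 i; positivity, ?_, ?_⟩
      · rw [Finset.sum_add_distrib, ← Finset.mul_sum, ← Finset.mul_sum, l2, m2]; linarith
      · simp only [add_smul, Finset.sum_add_distrib, mul_smul, Finset.smul_sum]
  · rintro ⟨l, l1, l2, rfl⟩
    exact (convex_convexHull ℝ _).sum_mem (fun i _ => l1 i) l2
      (fun i _ => subset_convexHull ℝ _ ⟨i, rfl⟩)

theorem comb_re (w : Fin 3 → ℂ) (l : Fin 3 → ℝ) :
    (comb w l).re = l 0 * (w 0).re + l 1 * (w 1).re + l 2 * (w 2).re := by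
  simp [comb, Fin.sum_univ_three]

theorem comb_im (w : Fin 3 → ℂ) (l : Fin 3 → ℝ) :
    (comb w l).im = l 0 * (w 0).im + l 1 * (w 1).im + l 2 * (w 2).im := by
  simp [comb, Fin.sum_univ_three]

theorem bary0 (w : Fin 3 → ℂ) (z : ℂ) : bary w z 0 = cross z (w 1) (w 2) / dd w := rfl
theorem bary1 (w : Fin 3 → ℂ) (z : ℂ) : bary w z 1 = cross z (w 2) (w 0) / dd w := rfl
theorem bary2 (w : Fin 3 → ℂ) (z : ℂ) : bary w z 2 = cross z (w 0) (w 1) / dd w := rfl

theorem sum_bary (h : dd w ≠ 0) (z : ℂ) : ∑ k, bary w z k = 1 := by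
  rw [Fin.sum_univ_three, bary0, bary1, bary2]
  field_simp
  simp only [dd, cross, Complex.sub_re, Complex.sub_im]
  ring

theorem comb_bary (h : dd w ≠ 0) (z : ℂ) : comb w (bary w z) = z := by
  apply Complex.ext
  · rw [comb_re, bary0, bary1, bary2]
    field_simp
    simp only [dd, cross, Complex.sub_re, Complex.sub_im]
    ring
  · rw [comb_im, bary0, bary1, bary2]
    field_simp
    simp only [dd, cross, Complex.sub_re, Complex.sub_im]
    ring

theorem bary_comb (h : dd w ≠ 0) {l : Fin 3 → ℝ} (hl : ∑ k, l k = 1) :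
    bary w (comb w l) = l := by
  rw [Fin.sum_univ_three] at hl
  have e : l 2 = 1 - l 0 - l 1 := by linarith
  funext k
  fin_cases k
  · simp only [Fin.zero_eta, bary0]
    rw [div_eq_iff h]
    simp only [dd, cross, Complex.sub_re, Complex.sub_im, comb_re, comb_im, e]
    ring
  · simp only [Fin.mk_one, bary1]
    rw [div_eq_iff h]
    simp only [dd, cross, Complex.sub_re, Complex.sub_im, comb_re, comb_im, e]
    ring
  · simp only [Fin.reduceFinMk, bary2]
    rw [div_eq_iff h]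
    simp only [dd, cross, Complex.sub_re, Complex.sub_im, comb_re, comb_im, e]
    ring

theorem mem_tri_iff (h : dd w ≠ 0) : z ∈ tri w ↔ ∀ k, 0 ≤ bary w z k := by
  rw [mem_tri']
  constructor
  · rintro ⟨l, l1, l2, rfl⟩
    rw [bary_comb h l2]; exact l1
  · exact fun hz => ⟨_, hz, sum_bary h z, comb_bary h z⟩

theorem inn_sub (h : dd w ≠ 0) : inn w ⊆ tri w := fun _ hz =>
  (mem_tri_iff h).2 fun k => (hz k).le

theorem bary_aff (w : Fin 3 → ℂ) (x y : ℂ) {s t : ℝ} (h : s + t = 1) (k : Fin 3) :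
    bary w (s • x + t • y) k = s * bary w x k + t * bary w y k := by
  obtain rfl : t = 1 - s := by linarith
  simp only [bary, cross, Complex.sub_re, Complex.sub_im, Complex.add_re, Complex.add_im,
    Complex.real_smul, Complex.mul_re, Complex.mul_im, Complex.ofReal_re, Complex.ofReal_im]
  ring

theorem bary_vertex (h : dd w ≠ 0) (k m : Fin 3) : bary w (w k) m = if m = k then 1 else 0 := by
  have : comb w (Pi.single k 1) = w k := by simp [comb, Pi.single_apply]
  rw [← this, bary_comb h (by simp), Pi.single_apply]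

theorem continuous_bary (w : Fin 3 → ℂ) (k : Fin 3) : Continuous fun z => bary w z k := by
  unfold bary cross
  fun_prop

theorem isOpen_inn (w : Fin 3 → ℂ) : IsOpen (inn w) := by
  have : inn w = ⋂ k, {z | 0 < bary w z k} := by ext z; simp [inn]
  rw [this]
  exact isOpen_iInter_of_finite fun k => isOpen_lt continuous_const (continuous_bary w k)

theorem isClosed_tri (w : Fin 3 → ℂ) : IsClosed (tri w) :=
  ((finite_range w).isCompact_convexHull ℝ).isClosed

theorem convex_tri (w : Fin 3 → ℂ) : Convex ℝ (tri w) := convex_convexHull ℝ _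

theorem vertex_mem (w : Fin 3 → ℂ) (k : Fin 3) : w k ∈ tri w := subset_convexHull ℝ _ ⟨k, rfl⟩

theorem w_inj (h : dd w ≠ 0) : Function.Injective w := by
  intro k l e
  have h1 := bary_vertex h k k
  rw [e, bary_vertex h] at h1
  by_contra hn
  simp [hn] at h1

/-- a point of the hull of vertices other than `w m` has coordinate zero -/
theorem bary_zero (h : dd w ≠ 0) {S : Set ℂ} (hS : S ⊆ range w) {m : Fin 3} (hm : w m ∉ S)
    (hz : z ∈ convexHull ℝ S) : bary w z m = 0 := by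
  refine convexHull_min (t := {z | bary w z m = 0}) ?_ ?_ hz
  · intro x hx
    obtain ⟨k, rfl⟩ := hS hx
    have : m ≠ k := fun e => hm (e ▸ hx)
    simp [bary_vertex h, this]
  · intro x hx y hy s t _ _ hst
    simp only [mem_ofPred_eq] at hx hy ⊢
    rw [bary_aff w x y hst, hx, hy]; ring

theorem inn_aff (hx : x ∈ inn w) (h : dd w ≠ 0) (hy : y ∈ tri w) {s t : ℝ} (hs : 0 < s)
    (ht : 0 ≤ t) (hst : s + t = 1) : s • x + t • y ∈ inn w := by
  intro k
  rw [bary_aff w x y hst]
  have := hx k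
  have := (mem_tri_iff h).1 hy k
  positivity

theorem inn_eq_interior (h : dd w ≠ 0) : inn w = interior (tri w) := by
  refine Subset.antisymm (interior_maximal (inn_sub h) (isOpen_inn w)) fun z hz k => ?_
  by_contra hk
  have hc : Continuous fun t : ℝ => (1 + t) • z + (-t) • w k := by fun_prop
  have h1 : ∀ᶠ t : ℝ in nhds 0, (1 + t) • z + (-t) • w k ∈ interior (tri w) :=
    hc.continuousAt.eventually_mem (isOpen_interior.mem_nhds (by simpa using hz))
  obtain ⟨t, ht, t0⟩ := ((h1.filter_mono nhdsWithin_le_nhds).and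
    (self_mem_nhdsWithin (s := Ioi (0 : ℝ)))).exists
  have h2 := (mem_tri_iff h).1 (interior_subset ht) k
  rw [bary_aff w _ _ (by ring), bary_vertex h, if_pos rfl] at h2
  have t1 : (0 : ℝ) < t := t0
  nlinarith

theorem center_mem (h : dd w ≠ 0) : comb w (fun _ => 1 / 3) ∈ inn w := by
  intro k
  rw [bary_comb h (by norm_num [Fin.sum_univ_three])]
  norm_num

theorem range_eq_of_sub (h : dd w ≠ 0) (hs : range w ⊆ range w') : range w = range w' := by
  refine Set.eq_of_subset_of_ncard_le hs ?_ (finite_range _)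
  rw [Set.ncard_range_of_injective (w_inj h)]
  simpa using Set.ncard_image_le (f := w') (s := univ) finite_univ

/-- an inner point of one triangle in the other forces equality -/
theorem Meet.range_eq (M : Meet w w') (h : dd w ≠ 0) (hz : z ∈ inn w) (hz' : z ∈ tri w') :
    range w = range w' := by
  refine range_eq_of_sub h ?_
  rintro _ ⟨m, rfl⟩
  by_contra hm
  exact (hz m).ne' (bary_zero h inter_subset_left (fun e => hm e.2) (M ⟨inn_sub h hz, hz'⟩))

theorem Meet.symm (M : Meet w w') : Meet w' w := by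
  unfold Meet at *
  rwa [inter_comm, inter_comm (range w')]

theorem Vs.swap (h : Vs w a b c) : Vs w b a c := by
  obtain ⟨k, l, m, h1, h2, h3, h4, h5, h6⟩ := h
  exact ⟨l, k, m, h1.symm, h3, h2, h5, h4, h6⟩

theorem Vs.rot (h : Vs w a b c) : Vs w a c b := by
  obtain ⟨k, l, m, h1, h2, h3, h4, h5, h6⟩ := h
  exact ⟨k, m, l, h2, h1, h3.symm, h4, h6, h5⟩

theorem Vs.range_eq (h : Vs w a b c) : range w = {a, b, c} := by
  obtain ⟨k, l, m, h1, h2, h3, rfl, rfl, rfl⟩ := h
  ext x
  simp only [mem_range, mem_insert_iff, mem_singleton_iff]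
  constructor
  · rintro ⟨j, rfl⟩
    have : j = k ∨ j = l ∨ j = m := by omega
    rcases this with rfl | rfl | rfl <;> simp
  · rintro (rfl | rfl | rfl) <;> simp

theorem Vs.map (h : Vs w a b c) (f : ℂ → ℂ) : Vs (f ∘ w) (f a) (f b) (f c) := by
  obtain ⟨k, l, m, h1, h2, h3, rfl, rfl, rfl⟩ := h
  exact ⟨k, l, m, h1, h2, h3, rfl, rfl, rfl⟩

theorem Vs.mem1 (h : Vs w a b c) : a ∈ range w := by simp [h.range_eq]
theorem Vs.mem2 (h : Vs w a b c) : b ∈ range w := by simp [h.range_eq]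
theorem Vs.mem3 (h : Vs w a b c) : c ∈ range w := by simp [h.range_eq]

theorem mem_tri_of_range (h : a ∈ range w) : a ∈ tri w := subset_convexHull ℝ _ h

theorem cross_perm (w w' : Fin 3 → ℂ) {k l m : Fin 3} (h1 : k ≠ l) (h2 : k ≠ m) (h3 : l ≠ m) :
    (cross (w k) (w l) (w m) = dd w ∧ cross (w' k) (w' l) (w' m) = dd w') ∨
      (cross (w k) (w l) (w m) = -dd w ∧ cross (w' k) (w' l) (w' m) = -dd w') := by
  fin_cases k <;> fin_cases l <;> fin_cases m <;>
    first
    | exact absurd rfl h1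
    | exact absurd rfl h2
    | exact absurd rfl h3
    | (left; constructor <;> (simp [dd, cross]; done))
    | (left; constructor <;> (simp [dd, cross]; ring1))
    | (right; constructor <;> (simp [dd, cross]; ring1))

theorem Vs.cross_ne (h : Vs w a b c) (hw : dd w ≠ 0) : cross a b c ≠ 0 := by
  obtain ⟨k, l, m, h1, h2, h3, rfl, rfl, rfl⟩ := h
  rcases cross_perm w w h1 h2 h3 with e | e <;> simpa [e.1] using hw

theorem Vs.ne (h : Vs w a b c) (hw : dd w ≠ 0) : a ≠ b := by
  rintro rfl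
  exact h.cross_ne hw (by simp [cross])

theorem third (k l : Fin 3) (h : k ≠ l) : ∃ m, k ≠ m ∧ l ≠ m := by
  revert k l; decide

theorem Vs.of_mem (ha : a ∈ range w) (hb : b ∈ range w) (hab : a ≠ b) : ∃ c, Vs w a b c := by
  obtain ⟨k, rfl⟩ := ha
  obtain ⟨l, rfl⟩ := hb
  have hkl : k ≠ l := fun e => hab (e ▸ rfl)
  obtain ⟨m, h1, h2⟩ := third k l hkl
  exact ⟨_, k, l, m, hkl, h1, h2, rfl, rfl, rfl⟩

theorem Vs.not_inn (h : Vs w a b c) (hw : dd w ≠ 0) (hz : z ∈ segment ℝ a b) : z ∉ inn w := by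
  obtain ⟨k, l, m, h1, h2, h3, rfl, rfl, rfl⟩ := h
  obtain ⟨s, t, -, -, hst, rfl⟩ := hz
  intro hi
  have := hi m
  rw [bary_aff w _ _ hst, bary_vertex hw, bary_vertex hw, if_neg h2.symm, if_neg h3.symm] at this
  simp at this

theorem Vs.seg_sub (h : Vs w a b c) : segment ℝ a b ⊆ tri w :=
  (convex_tri w).segment_subset (mem_tri_of_range h.mem1) (mem_tri_of_range h.mem2)

/-- a boundary point that is not a vertex lies inside a side -/
theorem exists_edge (h : dd w ≠ 0) (hz : z ∈ tri w) (h1 : z ∉ inn w) (h2 : z ∉ range w) :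
    ∃ a b c, Vs w a b c ∧ z ∈ openSegment ℝ a b := by
  have h0 := (mem_tri_iff h).1 hz
  obtain ⟨m, hm⟩ : ∃ m, bary w z m = 0 := by
    by_contra hc
    exact h1 fun k => lt_of_le_of_ne (h0 k) fun e => hc ⟨k, e.symm⟩
  obtain ⟨k, l, e1, e2, e3⟩ : ∃ k l, k ≠ l ∧ k ≠ m ∧ l ≠ m := by clear hm; revert m; decide
  have hs : ∀ φ : Fin 3 → ℂ, ∑ j, φ j = φ k + φ l + φ m := by
    intro φ
    fin_cases k <;> fin_cases l <;> fin_cases m <;> simp_all [Fin.sum_univ_three] <;> ring
  have s1 : bary w z k + bary w z l = 1 := by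
    have := hs fun j => (bary w z j : ℂ)
    rw [← Complex.ofReal_sum, sum_bary h, hm] at this
    exact_mod_cast (by simpa using this.symm : ((bary w z k : ℂ) + bary w z l = 1))
  have s2 : bary w z k • w k + bary w z l • w l = z := by
    have := hs fun j => bary w z j • w j
    have e := comb_bary h z
    unfold comb at e
    rw [e, hm] at this
    simpa using this.symm
  refine ⟨_, _, _, ⟨k, l, m, e1, e2, e3, rfl, rfl, rfl⟩, _, _, ?_, ?_, s1, s2⟩
  · refine lt_of_le_of_ne (h0 k) fun e => h2 ⟨l, ?_⟩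
    rw [← e] at s1 s2
    rw [← s2, show bary w z l = 1 by linarith]; simp
  · refine lt_of_le_of_ne (h0 l) fun e => h2 ⟨k, ?_⟩
    rw [← e] at s1 s2
    rw [← s2, show bary w z k = 1 by linarith]; simp

/-- a triangle through an inner point of a side has that side -/
theorem Meet.edge (M : Meet w w') (hw : dd w ≠ 0) (h : Vs w a b c) (hz : z ∈ openSegment ℝ a b)
    (hz' : z ∈ tri w') : ∃ c', Vs w' a b c' := by
  have hm := M ⟨h.seg_sub (openSegment_subset_segment ℝ _ _ hz), hz'⟩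
  have hab := h.ne hw
  obtain ⟨k, l, m, h1, h2, h3, rfl, rfl, rfl⟩ := h
  obtain ⟨s, t, hs, ht, hst, rfl⟩ := hz
  refine Vs.of_mem ?_ ?_ hab
  · by_contra hn
    have := bary_zero hw inter_subset_left (fun e => hn e.2) hm
    rw [bary_aff w _ _ hst, bary_vertex hw, bary_vertex hw, if_pos rfl, if_neg h1] at this
    linarith
  · by_contra hn
    have := bary_zero hw inter_subset_left (fun e => hn e.2) hm
    rw [bary_aff w _ _ hst, bary_vertex hw, bary_vertex hw, if_pos rfl, if_neg h1.symm] at this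
    linarith

theorem Vs.third_eq (h : Vs w a b c) (h' : Vs w' a b c') (hw : dd w ≠ 0)
    (e : range w = range w') : c = c' := by
  have h1 := h.mem3
  rw [e, h'.range_eq] at h1
  rcases h1 with rfl | rfl | rfl
  · exact absurd rfl (h.rot.ne hw)
  · exact absurd rfl (h.swap.rot.ne hw)
  · rfl

theorem Vs.mem_tri (h : Vs w a b c) {r s t : ℝ} (hr : 0 ≤ r) (hs : 0 ≤ s) (ht : 0 ≤ t)
    (e : r + s + t = 1) : r • a + s • b + t • c ∈ tri w := by
  have := (convex_tri w).sum_mem (t := Finset.univ) (w := ![r, s, t]) (z := ![a, b, c])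
    (fun i _ => by fin_cases i <;> simpa) (by simpa [Fin.sum_univ_three] using e)
    (fun i _ => by
      fin_cases i
      · exact mem_tri_of_range h.mem1
      · exact mem_tri_of_range h.mem2
      · exact mem_tri_of_range h.mem3)
  simpa [Fin.sum_univ_three] using this

theorem cross_seg (hz : z ∈ segment ℝ a b) : cross a b z = 0 := by
  obtain ⟨s, t, -, -, hst, rfl⟩ := hz
  obtain rfl : t = 1 - s := by linarith
  simp [cross]
  ring

/-- two triangles on the same side of a common side coincide -/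
theorem Meet.same_side (M : Meet w w') (h : Vs w a b c) (h' : Vs w' a b c')
    (hs : 0 < cross a b c * cross a b c') : range w = range w' := by
  by_cases hc : c = c'
  · rw [h.range_eq, h'.range_eq, hc]
  have n0 : cross a b c ≠ 0 := left_ne_zero_of_mul hs.ne'
  have n1 : cross a b c' ≠ 0 := right_ne_zero_of_mul hs.ne'
  let u : Fin 3 → ℂ := ![a, b, c']
  have hu : dd u ≠ 0 := n1
  have s1 := sum_bary hu c
  have s2 := comb_bary hu c
  set α := bary u c 0
  set β := bary u c 1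
  set γ := bary u c 2 with hγ
  have g0 : 0 < γ := by
    have e : γ = cross a b c * cross a b c' / cross a b c' ^ 2 := by
      rw [hγ, bary2]
      have : cross c (u 0) (u 1) = cross a b c := by simp [u, cross]; ring
      rw [this]
      change cross a b c / cross a b c' = _
      field_simp
    rw [e]; positivity
  rw [Fin.sum_univ_three] at s1
  have s3 : α • a + β • b + γ • c' = c := by
    simpa [comb, Fin.sum_univ_three, u] using s2
  set ε := 1 / (2 * (1 + |α| + |β|)) with hε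
  have ab1 := abs_nonneg α
  have ab2 := abs_nonneg β
  have e0 : 0 < ε := by positivity
  have e1 : ε * (2 * (1 + |α| + |β|)) = 1 := by rw [hε]; field_simp
  have m1 : ((1 - ε) / 2) • a + ((1 - ε) / 2) • b + ε • c ∈ tri w :=
    h.mem_tri (by nlinarith) (by nlinarith) e0.le (by ring)
  have m2 : ((1 - ε) / 2 + ε * α) • a + ((1 - ε) / 2 + ε * β) • b + (ε * γ) • c' ∈ tri w' :=
    h'.mem_tri (by nlinarith [neg_abs_le α]) (by nlinarith [neg_abs_le β]) (by positivity)
      (by linear_combination ε * s1)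
  have e2 : ((1 - ε) / 2 + ε * α) • a + ((1 - ε) / 2 + ε * β) • b + (ε * γ) • c' =
      ((1 - ε) / 2) • a + ((1 - ε) / 2) • b + ε • c := by
    rw [← s3]; module
  rw [e2] at m2
  have m3 := M ⟨m1, m2⟩
  have sub : range w ∩ range w' ⊆ {a, b} := by
    rintro x ⟨x1, x2⟩
    rw [h.range_eq] at x1
    rw [h'.range_eq] at x2
    rcases x1 with rfl | rfl | rfl
    · simp
    · simp
    · rcases x2 with e | e | e
      · simp [e]
      · simp [e]
      · exact absurd e hc
  have m4 := convexHull_mono sub m3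
  rw [convexHull_pair] at m4
  have m5 := cross_seg m4
  have : cross a b (((1 - ε) / 2) • a + ((1 - ε) / 2) • b + ε • c) = ε * cross a b c := by
    simp [cross]; ring
  rw [this] at m5
  exact absurd m5 (mul_ne_zero e0.ne' n0)

theorem lift_aff (w w' : Fin 3 → ℂ) (x y : ℂ) {s t : ℝ} (h : s + t = 1) :
    lift w w' (s • x + t • y) = s • lift w w' x + t • lift w w' y := by
  simp only [lift, comb, bary_aff w x y h, add_smul, mul_smul, Finset.sum_add_distrib,
    Finset.smul_sum]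

theorem bary_lift (h : dd w ≠ 0) (h' : dd w' ≠ 0) (z : ℂ) : bary w' (lift w w' z) = bary w z :=
  bary_comb h' (sum_bary h z)

theorem lift_lift (h : dd w ≠ 0) (h' : dd w' ≠ 0) (z : ℂ) : lift w' w (lift w w' z) = z := by
  rw [lift, bary_lift h h', comb_bary h]

theorem cross_lift (h : dd w ≠ 0) (w' : Fin 3 → ℂ) (x y z : ℂ) :
    cross (lift w w' x) (lift w w' y) (lift w w' z) = dd w' / dd w * cross x y z := by
  have key : ∀ (u : Fin 3 → ℂ) (l m n : Fin 3 → ℝ), ∑ k, l k = 1 → ∑ k, m k = 1 → ∑ k, n k = 1 →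
      cross (comb u l) (comb u m) (comb u n) =
        ((m 1 - l 1) * (n 2 - l 2) - (m 2 - l 2) * (n 1 - l 1)) * dd u := by
    intro u l m n hl hm hn
    rw [Fin.sum_univ_three] at hl hm hn
    have e1 : l 0 = 1 - l 1 - l 2 := by linarith
    have e2 : m 0 = 1 - m 1 - m 2 := by linarith
    have e3 : n 0 = 1 - n 1 - n 2 := by linarith
    simp only [dd, cross, Complex.sub_re, Complex.sub_im, comb_re, comb_im, e1, e2, e3]
    ring
  have k1 := key w _ _ _ (sum_bary h x) (sum_bary h y) (sum_bary h z)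
  rw [comb_bary h, comb_bary h, comb_bary h] at k1
  unfold lift
  rw [key w' _ _ _ (sum_bary h x) (sum_bary h y) (sum_bary h z), k1]
  field_simp

end Pool.Agent.MP_3b5bbf_co.Up

end

section

/-! Basic facts on a folded state. -/

namespace Pool.Agent.MP_3b5bbf_co.Up

open Set

variable (F : FlatFolding)

/-- the closed triangle of the sheet -/
abbrev T (i : Fin F.n) : Set ℂ := tri (F.v i)
/-- the open triangle of the sheet -/
abbrev In (i : Fin F.n) : Set ℂ := inn (F.v i)
/-- image vertices -/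
abbrev fv (i : Fin F.n) : Fin 3 → ℂ := F.f ∘ F.v i
/-- closed image triangle -/
abbrev TI (i : Fin F.n) : Set ℂ := tri (fv F i)
/-- open image triangle -/
abbrev OI (i : Fin F.n) : Set ℂ := inn (fv F i)
/-- the inverse of the folding map on a triangle -/
noncomputable abbrev g (i : Fin F.n) (z : ℂ) : ℂ := lift (fv F i) (F.v i) z
/-- same image -/
def E (i j : Fin F.n) : Prop := TI F i = TI F j
/-- not an image vertex -/
def NV (z : ℂ) : Prop := ∀ i k, F.f (F.v i k) ≠ z
/-- the open unit square -/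
def Opn : Set ℂ := {z | 0 < z.re ∧ z.re < 1 ∧ 0 < z.im ∧ z.im < 1}
/-- regular points -/
def Reg (p : ℂ) : Prop := p ∈ Opn ∧ NV F (F.f p)

variable {F} {i j i' : Fin F.n} {p q x y z a b c c' : ℂ}

theorem dv (i : Fin F.n) : dd (F.v i) ≠ 0 := (F.ccw i).ne'

theorem normSq_f (hx : x ∈ T F i) (hy : y ∈ T F i) :
    Complex.normSq (F.f x - F.f y) = Complex.normSq (x - y) := by
  have := F.isom i x hx y hy
  rw [dist_eq_norm, dist_eq_norm] at this
  rw [Complex.normSq_eq_norm_sq, Complex.normSq_eq_norm_sq, this]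

theorem normSq_comb (u : Fin 3 → ℂ) (l : Fin 3 → ℝ) (hl : ∑ k, l k = 1) (X : ℂ) :
    l 0 * Complex.normSq (X - u 0) + l 1 * Complex.normSq (X - u 1) +
      l 2 * Complex.normSq (X - u 2) = Complex.normSq (X - comb u l) +
      l 0 * l 1 * Complex.normSq (u 0 - u 1) + l 0 * l 2 * Complex.normSq (u 0 - u 2) +
      l 1 * l 2 * Complex.normSq (u 1 - u 2) := by
  rw [Fin.sum_univ_three] at hl
  have e : l 0 = 1 - l 1 - l 2 := by linarith
  simp only [Complex.normSq_apply, Complex.sub_re, Complex.sub_im, comb_re, comb_im, e]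
  ring

theorem f_eq (hp : p ∈ T F i) : F.f p = lift (F.v i) (fv F i) p := by
  have h1 := normSq_comb (F.v i) _ (sum_bary (dv i) p) p
  have h2 := normSq_comb (fv F i) _ (sum_bary (dv i) p) (F.f p)
  rw [comb_bary (dv i), sub_self, map_zero] at h1
  simp only [Function.comp] at h2
  rw [normSq_f hp (vertex_mem _ 0), normSq_f hp (vertex_mem _ 1), normSq_f hp (vertex_mem _ 2),
    normSq_f (vertex_mem _ 0) (vertex_mem _ 1), normSq_f (vertex_mem _ 0) (vertex_mem _ 2),
    normSq_f (vertex_mem _ 1) (vertex_mem _ 2), h1] at h2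
  have : Complex.normSq (F.f p - comb (fv F i) (bary (F.v i) p)) = 0 := by
    linarith
  rwa [Complex.normSq_eq_zero, sub_eq_zero] at this

theorem dd_sq (i : Fin F.n) : dd (fv F i) ^ 2 = dd (F.v i) ^ 2 := by
  have key : ∀ u : Fin 3 → ℂ, 4 * dd u ^ 2 =
      4 * Complex.normSq (u 0 - u 1) * Complex.normSq (u 0 - u 2) -
        (Complex.normSq (u 0 - u 1) + Complex.normSq (u 0 - u 2) -
          Complex.normSq (u 1 - u 2)) ^ 2 := by
    intro u
    simp only [dd, cross, Complex.normSq_apply, Complex.sub_re, Complex.sub_im]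
    ring
  have h1 := key (fv F i)
  have h2 := key (F.v i)
  simp only [Function.comp] at h1
  rw [normSq_f (vertex_mem _ 0) (vertex_mem _ 1), normSq_f (vertex_mem _ 0) (vertex_mem _ 2),
    normSq_f (vertex_mem _ 1) (vertex_mem _ 2)] at h1
  linarith

theorem dfv (i : Fin F.n) : dd (fv F i) ≠ 0 := by
  intro h
  have := dd_sq i
  rw [h] at this
  exact dv i (pow_eq_zero_iff (two_ne_zero) |>.1 (by simpa using this.symm))

theorem bary_f (hp : p ∈ T F i) : bary (fv F i) (F.f p) = bary (F.v i) p := by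
  rw [f_eq hp, bary_lift (dv i) (dfv i)]

theorem bary_g (i : Fin F.n) (z : ℂ) : bary (F.v i) (g F i z) = bary (fv F i) z :=
  bary_lift (dfv i) (dv i) z

theorem f_mem (hp : p ∈ T F i) : F.f p ∈ TI F i := by
  rw [mem_tri_iff (dfv i), bary_f hp]; exact (mem_tri_iff (dv i)).1 hp

theorem f_mem_O (hp : p ∈ In F i) : F.f p ∈ OI F i := by
  intro k
  rw [bary_f (inn_sub (dv i) hp)]; exact hp k

theorem g_mem (hz : z ∈ TI F i) : g F i z ∈ T F i := by
  rw [mem_tri_iff (dv i), bary_g]; exact (mem_tri_iff (dfv i)).1 hz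

theorem g_mem_In (hz : z ∈ OI F i) : g F i z ∈ In F i := by
  intro k
  rw [bary_g]; exact hz k

theorem g_f (hp : p ∈ T F i) : g F i (F.f p) = p := by
  rw [f_eq hp]; exact lift_lift (dv i) (dfv i) p

theorem f_g (hz : z ∈ TI F i) : F.f (g F i z) = z := by
  rw [f_eq (g_mem hz)]; exact lift_lift (dfv i) (dv i) z

theorem img (i : Fin F.n) : F.f '' tri (F.v i) = TI F i := by
  ext z
  exact ⟨by rintro ⟨p, hp, rfl⟩; exact f_mem hp, fun hz => ⟨_, g_mem hz, f_g hz⟩⟩

theorem f_aff (hx : x ∈ T F i) (hy : y ∈ T F i) {s t : ℝ} (hs : 0 ≤ s) (ht : 0 ≤ t)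
    (h : s + t = 1) : F.f (s • x + t • y) = s • F.f x + t • F.f y := by
  rw [f_eq (convex_tri _ hx hy hs ht h), f_eq hx, f_eq hy, lift_aff _ _ _ _ h]

theorem f_seg (hx : x ∈ T F i) (hy : y ∈ T F i) (hp : p ∈ segment ℝ x y) :
    F.f p ∈ segment ℝ (F.f x) (F.f y) := by
  obtain ⟨s, t, hs, ht, h, rfl⟩ := hp
  exact ⟨s, t, hs, ht, h, (f_aff hx hy hs ht h).symm⟩

theorem f_oseg (hx : x ∈ T F i) (hy : y ∈ T F i) (hp : p ∈ openSegment ℝ x y) :
    F.f p ∈ openSegment ℝ (F.f x) (F.f y) := by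
  obtain ⟨s, t, hs, ht, h, rfl⟩ := hp
  exact ⟨s, t, hs, ht, h, (f_aff hx hy hs.le ht.le h).symm⟩

theorem g_oseg (hx : x ∈ T F i) (hy : y ∈ T F i) (hz : z ∈ openSegment ℝ (F.f x) (F.f y)) :
    g F i z ∈ openSegment ℝ x y := by
  obtain ⟨s, t, hs, ht, h, rfl⟩ := hz
  refine ⟨s, t, hs, ht, h, ?_⟩
  rw [g, lift_aff _ _ _ _ h]
  exact congrArg₂ _ (congrArg _ (g_f hx).symm) (congrArg _ (g_f hy).symm)

theorem cross_f (i : Fin F.n) : ∃ e : ℝ, e ^ 2 = 1 ∧ ∀ x ∈ T F i, ∀ y ∈ T F i, ∀ z ∈ T F i,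
    cross (F.f x) (F.f y) (F.f z) = e * cross x y z := by
  refine ⟨dd (fv F i) / dd (F.v i), ?_, fun x hx y hy z hz => ?_⟩
  · rw [div_pow, dd_sq, div_self (pow_ne_zero _ (dv i))]
  · rw [f_eq hx, f_eq hy, f_eq hz, cross_lift (dv i)]

theorem meetP (i j : Fin F.n) : Meet (F.v i) (F.v j) := F.meet i j

theorem meetI (i j : Fin F.n) : Meet (fv F i) (fv F j) := by
  have := F.image_meet i j
  rwa [img, img, ← range_comp, ← range_comp] at this

theorem E.refl (i : Fin F.n) : E F i i := rfl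
theorem E.symm (h : E F i j) : E F j i := Eq.symm h
theorem E.trans (h : E F i j) (h' : E F j i') : E F i i' := Eq.trans h h'

theorem E_iff : E F i j ↔ F.f '' tri (F.v i) = F.f '' tri (F.v j) := by
  rw [img, img]; rfl

theorem E_of_range (h : range (fv F i) = range (fv F j)) : E F i j := by
  unfold E TI tri; rw [h]

theorem E.range_eq (h : E F i j) : range (fv F i) = range (fv F j) :=
  (meetI i j).range_eq (dfv i) (center_mem (dfv i))
    (h ▸ inn_sub (dfv i) (center_mem (dfv i)) : _ ∈ TI F j)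

theorem E.O_eq (h : E F i j) : OI F i = OI F j := by
  rw [OI, OI, inn_eq_interior (dfv i), inn_eq_interior (dfv j)]
  exact congrArg interior h

theorem eq_of_In (hp : p ∈ In F i) (hj : p ∈ T F j) : i = j :=
  F.distinct i j ((meetP i j).range_eq (dv i) hp hj)

theorem E_of_O (hz : z ∈ OI F i) (hj : z ∈ TI F j) : E F i j :=
  E_of_range ((meetI i j).range_eq (dfv i) hz hj)

theorem NV_of_O (hz : z ∈ OI F i) : NV F z := by
  rintro j k rfl
  have h1 := (meetI i j).range_eq (dfv i) hz (vertex_mem (fv F j) k)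
  obtain ⟨l, hl⟩ : F.f (F.v j k) ∈ range (fv F i) := h1 ▸ ⟨k, rfl⟩
  have := hz (l + 1)
  have hne : ∀ l : Fin 3, ¬ l + 1 = l := by decide
  rw [← hl, bary_vertex (dfv i), if_neg (hne l)] at this
  exact lt_irrefl _ this

theorem T_sub (hp : p ∈ T F i) : p ∈ square 1 := F.cover ▸ mem_iUnion.2 ⟨i, hp⟩

theorem exists_T (hp : p ∈ square 1) : ∃ i, p ∈ T F i := mem_iUnion.1 (F.cover ▸ hp)

theorem Opn_sub : Opn ⊆ square 1 := fun _ h => ⟨h.1.le, h.2.1.le, h.2.2.1.le, h.2.2.2.le⟩

theorem isOpen_Opn : IsOpen Opn := by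
  unfold Opn
  simp only [ofPred_and]
  refine IsOpen.inter ?_ (IsOpen.inter ?_ (IsOpen.inter ?_ ?_)) <;>
    exact isOpen_lt (by fun_prop) (by fun_prop)

theorem convex_Opn : Convex ℝ Opn := by
  intro x hx y hy s t hs ht h
  obtain ⟨x1, x2, x3, x4⟩ := hx
  obtain ⟨y1, y2, y3, y4⟩ := hy
  have key : ∀ u v : ℝ, 0 < u → 0 < v → 0 < s * u + t * v := by
    intro u v hu hv
    rcases hs.eq_or_lt with rfl | hs
    · rw [show t = 1 by linarith]; linarith
    · positivity
  refine ⟨?_, ?_, ?_, ?_⟩ <;> simp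
  · exact key _ _ x1 y1
  · have := key _ _ (sub_pos.2 x2) (sub_pos.2 y2); nlinarith
  · exact key _ _ x3 y3
  · have := key _ _ (sub_pos.2 x4) (sub_pos.2 y4); nlinarith

theorem In_sub_Opn (hp : p ∈ In F i) : p ∈ Opn := by
  have h1 : ∀ d : ℂ, ∃ t : ℝ, 0 < t ∧ p + t • d ∈ square 1 := by
    intro d
    have hc : Continuous fun t : ℝ => p + t • d := by fun_prop
    have h1 : ∀ᶠ t : ℝ in nhds 0, p + t • d ∈ In F i :=
      hc.continuousAt.eventually_mem ((isOpen_inn _).mem_nhds (by simpa using hp))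
    obtain ⟨t, ht, t0⟩ := ((h1.filter_mono nhdsWithin_le_nhds).and
      (self_mem_nhdsWithin (s := Ioi (0 : ℝ)))).exists
    exact ⟨t, t0, T_sub (inn_sub (dv i) ht)⟩
  obtain ⟨t1, a1, b1, -⟩ := h1 (-1)
  obtain ⟨t2, a2, -, b2, -⟩ := h1 1
  obtain ⟨t3, a3, -, -, b3, -⟩ := h1 (-Complex.I)
  obtain ⟨t4, a4, -, -, -, b4⟩ := h1 Complex.I
  simp at b1 b2 b3 b4
  exact ⟨by linarith, by linarith, by linarith, by linarith⟩

theorem Reg_of_In (hp : p ∈ In F i) : Reg F p := ⟨In_sub_Opn hp, NV_of_O (f_mem_O hp)⟩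

theorem NV.not_range (h : NV F (F.f p)) (i : Fin F.n) : p ∉ range (F.v i) := by
  rintro ⟨k, rfl⟩
  exact h i k rfl

/-- two triangles through a point that is not a vertex share a side -/
theorem shared (hi : p ∈ T F i) (hi' : p ∈ T F i') (hne : i ≠ i') (hp : p ∉ range (F.v i)) :
    ∃ a b c c', Vs (F.v i) a b c ∧ Vs (F.v i') a b c' ∧ p ∈ openSegment ℝ a b ∧
      cross a b c * cross a b c' < 0 := by
  obtain ⟨a, b, c, h1, h2⟩ := exists_edge (dv i) hi (fun h => hne (eq_of_In h hi')) hp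
  obtain ⟨c', h3⟩ := (meetP i i').edge (dv i) h1 h2 hi'
  refine ⟨a, b, c, c', h1, h3, h2, ?_⟩
  rcases lt_or_gt_of_ne (mul_ne_zero (h1.cross_ne (dv i)) (h3.cross_ne (dv i'))) with h | h
  · exact h
  · exact absurd (F.distinct _ _ ((meetP i i').same_side h1 h3 h)) hne

theorem opp_side (h1 : Vs (F.v i) a b c) (h3 : Vs (F.v i') a b c') (hne : i ≠ i') :
    cross a b c * cross a b c' < 0 := by
  rcases lt_or_gt_of_ne (mul_ne_zero (h1.cross_ne (dv i)) (h3.cross_ne (dv i'))) with h | h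
  · exact h
  · exact absurd (F.distinct _ _ ((meetP i i').same_side h1 h3 h)) hne

theorem partner_unique {i'' : Fin F.n} (hi : p ∈ T F i) (hi' : p ∈ T F i') (hi'' : p ∈ T F i'')
    (hne : i ≠ i') (hne' : i ≠ i'') (hp : p ∉ range (F.v i)) : i' = i'' := by
  obtain ⟨a, b, c, c', h1, h2, h3, h4⟩ := shared hi hi' hne hp
  obtain ⟨c'', h5⟩ := (meetP i i'').edge (dv i) h1 h3 hi''
  have h6 := opp_side h1 h5 hne'
  by_contra hn
  have h7 := opp_side h2 h5 hn
  have := mul_pos_of_neg_of_neg h4 h6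
  nlinarith [sq_nonneg (cross a b c)]

theorem partner_exists (hi : p ∈ T F i) (hn : p ∉ In F i) (ho : p ∈ Opn) :
    ∃ i', i' ≠ i ∧ p ∈ T F i' := by
  obtain ⟨m, hm⟩ : ∃ m, bary (F.v i) p m ≤ 0 := by
    by_contra hc
    exact hn fun k => not_le.1 fun e => hc ⟨k, e⟩
  have hc : Continuous fun t : ℝ => (1 + t) • p + (-t) • F.v i m := by fun_prop
  have h1 : ∀ᶠ t : ℝ in nhds 0, (1 + t) • p + (-t) • F.v i m ∈ Opn :=
    hc.continuousAt.eventually_mem (isOpen_Opn.mem_nhds (by simpa using ho))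
  have h2 : ∀ᶠ t : ℝ in nhds 0, ∀ j, p ∉ T F j → (1 + t) • p + (-t) • F.v i m ∉ T F j := by
    refine Filter.eventually_all.2 fun j => ?_
    by_cases hj : p ∈ T F j
    · exact Filter.Eventually.of_forall fun _ h => absurd hj h
    · have := hc.continuousAt (x := 0) |>.eventually_mem
        ((isClosed_tri (F.v j)).isOpen_compl.mem_nhds (by simpa using hj))
      exact this.mono fun _ h _ => h
  obtain ⟨t, ⟨ht, ht'⟩, t0⟩ := (((h1.and h2).filter_mono nhdsWithin_le_nhds).and
    (self_mem_nhdsWithin (s := Ioi (0 : ℝ)))).exists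
  have t1 : (0 : ℝ) < t := t0
  obtain ⟨j, hj⟩ := exists_T (F := F) (Opn_sub ht)
  refine ⟨j, ?_, by_contra fun h => ht' j h hj⟩
  rintro rfl
  have := (mem_tri_iff (dv j)).1 hj m
  rw [bary_aff _ _ _ (by ring), bary_vertex (dv j), if_pos rfl] at this
  nlinarith

theorem white_iff (h : Vs (F.v i) a b c) :
    F.WhiteUp i ↔ 0 < cross (F.f a) (F.f b) (F.f c) * cross a b c := by
  obtain ⟨k, l, m, h1, h2, h3, rfl, rfl, rfl⟩ := h
  have h0 : 0 < dd (F.v i) := F.ccw i
  change 0 < dd (fv F i) ↔ 0 < cross (fv F i k) (fv F i l) (fv F i m) * _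
  rcases cross_perm (F.v i) (fv F i) h1 h2 h3 with e | e <;> rw [e.1, e.2]
  · exact (mul_pos_iff_of_pos_right h0).symm
  · rw [neg_mul_neg]; exact (mul_pos_iff_of_pos_right h0).symm

theorem E_iff_side {A B C C' : ℂ} (h : Vs (fv F i) A B C) (h' : Vs (fv F j) A B C') :
    E F i j ↔ 0 < cross A B C * cross A B C' := by
  constructor
  · intro e
    rw [← h.third_eq h' (dfv i) e.range_eq]
    exact mul_self_pos.2 (h.cross_ne (dfv i))
  · exact fun hs => E_of_range ((meetI i j).same_side h h' hs)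

theorem Vs.unmap {A B C : ℂ} (h : Vs (fv F j) A B C) :
    ∃ a b c, Vs (F.v j) a b c ∧ F.f a = A ∧ F.f b = B ∧ F.f c = C := by
  obtain ⟨k, l, m, h1, h2, h3, h4, h5, h6⟩ := h
  exact ⟨_, _, _, ⟨k, l, m, h1, h2, h3, rfl, rfl, rfl⟩, h4, h5, h6⟩

end Pool.Agent.MP_3b5bbf_co.Up

end
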