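import Pool.Agent.Mg.F3b5bbfq.G266de1

set_option linter.all false

section

/-! The woven board. -/

set_option linter.unusedSimpArgs false

namespace Pool.Agent.MP_3b5bbf_co

def Lv (i : ℤ) (v : V) : ℤ :=
  if (v.1 - al i) % 20 < 10 ∧ (v.2 - be i) % 20 < 10 then 4 else i

theorem Lv_inj {i j : ℤ} (i0 : 0 ≤ i) (i3 : i ≤ 3) (j0 : 0 ≤ j) (j3 : j ≤ 3) (v : V) :
    Lv i v = Lv j v ↔ i = j := by
  refine ⟨?_, fun e => by rw [e]⟩
  rcases (by omega : i = 0 ∨ i = 1 ∨ i = 2 ∨ i = 3) with rfl | rfl | rfl | rfl <;>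
  rcases (by omega : j = 0 ∨ j = 1 ∨ j = 2 ∨ j = 3) with rfl | rfl | rfl | rfl <;>
  simp [Lv, al, be] <;> omega

theorem Lv_step {i j : ℤ} (i0 : 0 ≤ i) (i3 : i ≤ 3) (j0 : 0 ≤ j) (j3 : j ≤ 3) {v w : V}
    (s1 : SG (al i) (be i) (de i) v w) (s2 : SG (al j) (be j) (de j) v w) (ne : w ≠ v)
    (l : Lv i v < Lv j v) : Lv i w < Lv j w := by
  rw [Ne, Prod.ext_iff] at ne
  have same : (v.1 / 10 = w.1 / 10 ∧ (v.2 + 6) / 10 = (w.2 + 6) / 10) →
      ∀ k, Lv k w = Lv k v := by
    intro a k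
    unfold Lv al be
    congr 1
    split_ifs <;> apply propext <;> omega
  rcases s1 with s1 | s1
  · have := same (by unfold al be at s1; split_ifs at s1 <;> omega)
    rwa [this, this]
  rcases s2 with s2 | s2
  · have := same (by unfold al be at s2; split_ifs at s2 <;> omega)
    rwa [this, this]
  clear same
  rcases s1 with s1 | s1 <;> rcases s2 with s2 | s2
  · rcases (by omega : i = 0 ∨ i = 1 ∨ i = 2 ∨ i = 3) with rfl | rfl | rfl | rfl <;>
    rcases (by omega : j = 0 ∨ j = 1 ∨ j = 2 ∨ j = 3) with rfl | rfl | rfl | rfl <;>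
    simp [Lv, al, be, de] at s1 s2 l ⊢ <;> omega
  · omega
  · omega
  · rcases (by omega : i = 0 ∨ i = 1 ∨ i = 2 ∨ i = 3) with rfl | rfl | rfl | rfl <;>
    rcases (by omega : j = 0 ∨ j = 1 ∨ j = 2 ∨ j = 3) with rfl | rfl | rfl | rfl <;>
    simp [Lv, al, be, de] at s1 s2 l ⊢ <;> omega

theorem port_ctr {φ : V → V} {c : Cell} (hc : Good φ c) (he : eps φ c .g = (0, 2)) :
    (φ c.o).2 = 1 ∧ ((φ c.o).1 = 1 ∨ (φ c.o).1 = -1) := by
  obtain ⟨c1, c2, c3⟩ := hc.pq
  obtain ⟨c4, c5, c6, c7, -⟩ := hc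
  simp only [eps, Prod.ext_iff, Prod.fst_add, Prod.snd_add] at he
  omega

theorem Lv_port {i : ℤ} (i0 : 0 ≤ i) (i3 : i ≤ 3) (s : ℤ) (hs : s = 1 ∨ s = -1) :
    Lv i (s, 1) = if (s = 1 ∧ i = 0) ∨ (s = -1 ∧ i = 2) then 4 else i := by
  rcases (by omega : i = 0 ∨ i = 1 ∨ i = 2 ∨ i = 3) with rfl | rfl | rfl | rfl <;>
  rcases hs with rfl | rfl <;> simp [Lv, al, be]

/-- every board triangle is covered, and the top layer has the colour of its cell -/
def Top {H : Type} [LinearOrder H] (R : Cell → Prop) (φ : V → V) (h : Cell → H) (Cv : V → Prop)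
    (col : V → Prop) (S : Cell → Prop) : Prop :=
  ∀ κ, IsKey κ → Cv κ.1 → ∃ a, R a ∧ K φ a = κ ∧ (∀ c, R c → K φ c = κ → h c ≤ h a) ∧
    (col κ.1 → White φ a) ∧ (¬ col κ.1 → Black φ a ∧ S a)

theorem join {X Y o M : ℤ} (hY : Y % 2 = 0) (t11 : TR X Y o gl 0 (-6) 0 M)
    (t12 : TR Y X o gl 10 4 1 M) (t21 : TR X Y (o + 1) gr 10 (-6) 0 M)
    (t22 : TR Y X (o + 1) gr 0 4 1 M) :
    ∃ (φ : V → V) (h : Cell → ℤ ×ₗ ℚ), Valid (Rect 0 (2 * X) 0 (2 * Y)) φ h ∧
      Foot (Rect 0 (2 * X) 0 (2 * Y)) φ (Brd M) ∧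
      Top (Rect 0 (2 * X) 0 (2 * Y)) φ h (Brd M)
        (fun v => (v.1 / 10 + (v.2 + 6) / 10) % 2 = 0) (fun a => X ≤ a.x) := by
  obtain ⟨φ, h0, P, O⟩ := place hY t11 t12 t21 t22
  set R := Rect 0 (2 * X) 0 (2 * Y) with hR
  have i0 : ∀ c, 0 ≤ reg X Y c := fun c => by unfold reg; omega
  have i3 : ∀ c, reg X Y c ≤ 3 := fun c => by unfold reg; omega
  have Pc := fun c => P (reg X Y c) (i0 c) (i3 c)
  have gd : ∀ c, R c → Good φ c := fun c hc => (Pc c).valid.good c ⟨hc, rfl⟩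
  have kc : ∀ c, R c → reg X Y (c.nb .g) ≠ reg X Y c → K φ c = ((ks (reg X Y c), 1), (0, 2)) :=
    fun c hc ne => (Pc c).kp c ⟨⟨hc, rfl⟩, fun a => ne a.2⟩
  have lc : ∀ c, R c → reg X Y (c.nb .g) ≠ reg X Y c → Lv (reg X Y c) (φ c.o) = reg X Y c := by
    intro c hc ne
    have : φ c.o = (ks (reg X Y c), 1) := congrArg Prod.fst (kc c hc ne)
    have a := i0 c
    have b := i3 c
    rw [this, Lv_port a b _ (by unfold ks; omega)]
    unfold ks; omega
  let h : Cell → ℤ ×ₗ ℚ := fun c => toLex (Lv (reg X Y c) (φ c.o), h0 c)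
  have LP : ∀ c b, Cross X Y c → Cross X Y b → (reg X Y c ≤ 1 ↔ reg X Y b ≤ 1) →
      (h c < h b ↔ klt (pk X Y c) (pk X Y b)) := by
    intro c b hc hb s
    simp only [h]
    rw [Prod.Lex.toLex_lt_toLex, lc c hc.1 hc.2.2, lc b hb.1 hb.2.2]
    dsimp only
    by_cases e : reg X Y c = reg X Y b
    · rw [← O c b hc hb e, e]; simp
    · simp only [e, false_and, or_false]
      rcases c with ⟨x, y, d⟩
      rcases b with ⟨x', y', d'⟩
      cases d <;> cases d' <;>
        simp only [Cross, Rect, reg, Cell.nb, pk, klt, true_and] at hc hb e s ⊢ <;> omega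
  have sd : ∀ c b, Cross X Y c → Cross X Y b →
      (K φ c = K φ b ↔ (reg X Y c ≤ 1 ↔ reg X Y b ≤ 1)) := by
    intro c b hc hb
    rw [kc c hc.1 hc.2.2, kc b hb.1 hb.2.2]
    simp only [Prod.mk.injEq, and_true, ks]
    omega
  have cr : ∀ c, Cross X Y c → Cross X Y (c.nb .g) := fun c hc =>
    ⟨hc.2.1, by rw [nb_gg]; exact hc.1, by rw [nb_gg]; exact hc.2.2.symm⟩
  refine ⟨φ, h, ?_, fun c hc => (Pc c).foot c ⟨hc, rfl⟩, ?_⟩
  · refine assemble (reg := reg X Y) (L := fun c => Lv (reg X Y c) (φ c.o)) (h0 := h0)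
      (fun _ => rfl) ?_ ?_ ?_ ?_ ?_ ?_ ?_ ?_ ?_
    · intro i
      by_cases t : 0 ≤ i ∧ i ≤ 3
      · exact (P i t.1 t.2).valid
      · have em : ∀ c, ¬ (R c ∧ reg X Y c = i) := fun c a => t (a.2 ▸ ⟨i0 c, i3 c⟩)
        exact ⟨fun c h => (em c h).elim, fun c _ h => (em c h).elim,
          fun c _ _ _ h => (em c h).elim, fun c _ _ _ h => (em c h).elim⟩
    · intro c b _ _ e
      rw [e]
      exact Lv_inj (i0 c) (i3 c) (i0 b) (i3 b) _
    · intro c e ne
      refine nb_g_of (c := c) (fun a => ne ?_)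
      unfold reg; rw [a.1, a.2]
    · intro c b h1 h2 h3 h4 r1 r2 r3 k1 k2 l1 l2
      exact (Pc c).cl c b ⟨h1, rfl⟩ ⟨h2, r1⟩ ⟨⟨h3, r2⟩, fun a => r3 (a.2.trans r2.symm)⟩ k1 k2 l1 l2
    · intro c b h1 h2 h3 h4 r1 r3 he
      have e : eps φ c .g = (0, 2) := he.trans (congrArg Prod.snd (kc b h3 r3))
      have p1 := port_ctr (gd c h1) e
      have p2 := port_ctr (gd _ h2) ((eps_nb φ c .g).trans e)
      by_contra ne
      have s := (Pc c).steps c ⟨h1, rfl⟩ ⟨h2, r1⟩ ne
      rw [Prod.ext_iff] at ne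
      unfold SG al be de at s
      split_ifs at s <;> omega
    · intro c b h1 h2 h3 h4 r1 r2 o1 o2 ne l
      have s1 := (Pc c).steps c ⟨h1, rfl⟩ ⟨h2, r1⟩ ne
      have s2 := (Pc b).steps b ⟨h3, rfl⟩ ⟨h4, r2⟩ (by rw [o1, o2]; exact ne)
      rw [o1, o2] at *
      rw [r1, r2]
      exact Lv_step (i0 c) (i3 c) (i0 b) (i3 b) s1 s2 ne l
    · intro c b h1 h2 h3 r1 k1 k2 l1 l2
      have c1 : Cross X Y c := ⟨h1, h2, r1⟩
      have s := (sd _ _ (cr c c1) c1).1 k1
      have o : φ b.o = (ks (reg X Y c), 1) := (congrArg Prod.fst k2).trans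
        (congrArg Prod.fst (kc c h1 r1))
      rw [lc c h1 r1, o, Lv_port (i0 b) (i3 b) _ (by unfold ks; omega)] at l1
      rw [lc _ h2 (cr c c1).2.2, o, Lv_port (i0 b) (i3 b) _ (by unfold ks; omega)] at l2
      have := i0 c
      have := i3 c
      have := i0 (c.nb .g)
      have := i3 (c.nb .g)
      unfold ks at *
      omega
    · intro c b h1 h2 h3 h4 r1 r2 k1 k2 l1 l2
      have c1 : Cross X Y c := ⟨h1, h2, r1⟩
      have b1 : Cross X Y b := ⟨h3, h4, r2⟩
      have s1 := (sd _ _ (cr c c1) c1).1 k1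
      have s2 := (sd _ _ b1 c1).1 k2
      rw [LP _ _ c1 b1 s2.symm] at l1
      rw [LP _ _ b1 (cr c c1) (s2.trans s1.symm)] at l2
      have key : (reg X Y (b.nb .g) ≤ 1 ↔ reg X Y c ≤ 1) ∧ klt (pk X Y c) (pk X Y (b.nb .g)) ∧
          klt (pk X Y (b.nb .g)) (pk X Y (c.nb .g)) := by
        clear k1 k2 h1 h2 h3 h4 r1 r2
        rcases c with ⟨x, y, d⟩
        rcases b with ⟨x', y', d'⟩
        cases d <;> cases d' <;>
          simp only [Cross, Rect, reg, Cell.nb, pk, klt, true_and] at c1 b1 s1 s2 l1 l2 ⊢ <;> omega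
      exact ⟨(sd _ _ (cr b b1) c1).2 key.1, (LP _ _ c1 (cr b b1) key.1.symm).2 key.2.1,
        (LP _ _ (cr b b1) (cr c c1) (key.1.trans s1.symm)).2 key.2.2⟩
    · intro c b h1 h2 h3 h4 r1 r2 k1 k2 k3 l1
      have c1 : Cross X Y c := ⟨h1, h2, r1⟩
      have b1 : Cross X Y b := ⟨h3, h4, r2⟩
      have s1 : ¬ (reg X Y (c.nb .g) ≤ 1 ↔ reg X Y c ≤ 1) := fun a => k1 ((sd _ _ (cr c c1) c1).2 a)
      have s2 := (sd _ _ b1 c1).1 k2
      have s3 := (sd _ _ (cr b b1) (cr c c1)).1 k3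
      rw [LP _ _ c1 b1 s2.symm] at l1
      rw [LP _ _ (cr c c1) (cr b b1) s3.symm]
      clear k1 k2 k3 h1 h2 h3 h4 r1 r2
      rcases c with ⟨x, y, d⟩
      rcases b with ⟨x', y', d'⟩
      cases d <;> cases d' <;>
        simp only [Cross, Rect, reg, Cell.nb, pk, klt, true_and, not_true_eq_false]
          at c1 b1 s1 s2 s3 l1 ⊢ <;> omega
  · intro κ hκ hb
    obtain ⟨i, j0, j3, ow, cl⟩ : ∃ i, 0 ≤ i ∧ i ≤ 3 ∧ Own (al i) (be i) κ.1 ∧
        (i ≤ 1 ↔ (κ.1.1 / 10 + (κ.1.2 + 6) / 10) % 2 = 0) := by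
      by_cases a : κ.1.1 % 20 < 10 <;> by_cases b : (κ.1.2 + 6) % 20 < 10
      · exact ⟨0, by omega, by omega, by simp [Own, al, be]; omega, by omega⟩
      · exact ⟨3, by omega, by omega, by simp [Own, al, be]; omega, by omega⟩
      · exact ⟨2, by omega, by omega, by simp [Own, al, be]; omega, by omega⟩
      · exact ⟨1, by omega, by omega, by simp [Own, al, be]; omega, by omega⟩
    obtain ⟨a, ha, ka, ext, w1, w2⟩ := (P i j0 j3).top κ hκ ow hb
    have oa : φ a.o = κ.1 := congrArg Prod.fst ka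
    refine ⟨a, ha.1, ka, fun c hc kc => ?_, fun t => w1 (cl.2 t), fun t =>
      ⟨w2 (fun u => t (cl.1 u)), ?_⟩⟩
    · have oc : φ c.o = κ.1 := congrArg Prod.fst kc
      have l4 : Lv i κ.1 = 4 := if_pos ow
      simp only [h]
      rw [Prod.Lex.toLex_le_toLex, oa, oc, ha.2]
      dsimp only
      by_cases e : reg X Y c = i
      · exact Or.inr ⟨by rw [e], ext c ⟨hc, e⟩ kc⟩
      · left
        have := (Lv_inj (i0 c) (i3 c) j0 j3 κ.1).not.2 e
        have : Lv (reg X Y c) κ.1 ≤ 4 := by have := i3 c; unfold Lv; omega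
        omega
    · have := ha.2
      have := fun u => t (cl.1 u)
      unfold reg at *
      omega

end Pool.Agent.MP_3b5bbf_co

end

section

/-! Enlarging the paper by a hidden doubled strip, and folding the excess board under. -/

set_option linter.unusedSimpArgs false

namespace Pool.Agent.MP_3b5bbf_co

theorem wb_not {φ : V → V} {c : Cell} (hc : Good φ c) : White φ c ↔ ¬ Black φ c := by
  unfold Good White Black at *
  omega

/-- a fold reverses the colour, a flat edge keeps it -/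
theorem col_nb {φ : V → V} {c : Cell} (e : Ed) (hc : Good φ c) (hb : Good φ (c.nb e)) :
    (K φ (c.nb e) = K φ c → (White φ (c.nb e) ↔ ¬ White φ c)) ∧
    (K φ (c.nb e) ≠ K φ c → (White φ (c.nb e) ↔ White φ c)) := by
  cases e
  · unfold Good White Black K at *
    rw [nb_g_p, nb_g_q] at *
    simp only [Ne, Prod.ext_iff, Prod.fst_add, Prod.snd_add]
    omega
  · unfold Good White Black K at *
    rw [nb_a_o, nb_a_q] at *
    simp only [Ne, Prod.ext_iff, Prod.fst_add, Prod.snd_add, true_and]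
    omega
  · unfold Good White Black K at *
    rw [nb_b_o, nb_b_p] at *
    simp only [Ne, Prod.ext_iff, Prod.fst_add, Prod.snd_add, true_and]
    omega

theorem double {H : Type} [LinearOrder H] {A B E : ℤ} {φ : V → V} {h : Cell → H} {F col : V → Prop}
    (hE : E ≤ A) (hv : Valid (Rect 0 A 0 B) φ h) (hf : Foot (Rect 0 A 0 B) φ F)
    (E0 : 0 ≤ E) (ht : Top (Rect 0 A 0 B) φ h F col (fun a => E ≤ a.x)) :
    ∃ (φ' : V → V) (h' : Cell → H ×ₗ ℤ), Valid (Rect (-E) A 0 B) φ' h' ∧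
      Foot (Rect (-E) A 0 B) φ' F ∧ Top (Rect (-E) A 0 B) φ' h' F col (fun _ => True) := by
  classical
  set R := Rect 0 A 0 B with hR
  set R' := Rect (-E) A 0 B with hR'
  let π : Cell → Cell := fun c => if c.x < 0 then mcell 0 c else c
  let σ : Cell → Ed → Ed := fun c e => if c.x < 0 then e.rev else e
  let φ' : V → V := fun v => φ (|v.1|, v.2)
  let s : Cell → ℤ := fun c => if c.x < 0 then (if White φ (π c) then -1 else 1) else 0
  let h' : Cell → H ×ₗ ℤ := fun c => toLex (h (π c), s c)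
  have r := prefl_m 0
  have an : ∀ c : Cell, c.x < 0 → Agr φ' (fun v => φ (2 * 0 - v.1, v.2)) c := by
    intro c hc
    have := vert_bounds (x0 := c.x) (x1 := 0) (y0 := c.y) (y1 := c.y + 1) (c := c)
      (by unfold Rect; omega)
    refine ⟨?_, ?_, ?_⟩ <;> simp only [φ'] <;> rw [abs_of_nonpos (by omega)] <;> simp
  have ap : ∀ c : Cell, ¬ c.x < 0 → Agr φ' φ c := by
    intro c hc
    have := vert_bounds (x0 := 0) (x1 := c.x + 1) (y0 := c.y) (y1 := c.y + 1) (c := c)
      (by unfold Rect; omega)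
    refine ⟨?_, ?_, ?_⟩ <;> simp only [φ'] <;> rw [abs_of_nonneg (by omega)]
  have pn : ∀ c : Cell, c.x < 0 → π c = mcell 0 c := fun c hc => if_pos hc
  have pp : ∀ c : Cell, ¬ c.x < 0 → π c = c := fun c hc => if_neg hc
  have hπ : ∀ c, R' c → R (π c) := by
    intro c hc
    by_cases t : c.x < 0
    · rw [pn c t]
      have := mcell_xy 0 c
      simp only [hR, hR', Rect] at *
      omega
    · rw [pp c t]
      simp only [hR, hR', Rect] at *
      omega
  have kk : ∀ c, K φ' c = K φ (π c) := by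
    intro c
    by_cases t : c.x < 0
    · rw [pn c t, (an c t).K, r.K]
    · rw [pp c t, (ap c t).K]
  have ee : ∀ c e, eps φ' c e = eps φ (π c) (σ c e) := by
    intro c e
    by_cases t : c.x < 0
    · simp only [σ]; rw [pn c t, (an c t).eps, r.eps, if_pos t]
    · simp only [σ]; rw [pp c t, (ap c t).eps, if_neg t]
  have adj : ∀ c e, ((c.x < 0 ↔ (c.nb e).x < 0) ∧ π (c.nb e) = (π c).nb (σ c e)) ∨
      (¬ (c.x < 0 ↔ (c.nb e).x < 0) ∧ π (c.nb e) = π c ∧ ¬ R ((π c).nb (σ c e))) := by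
    intro c e
    by_cases t : c.x < 0 <;> by_cases t' : (c.nb e).x < 0
    · left
      refine ⟨by tauto, ?_⟩
      simp only [σ]; rw [pn _ t, pn _ t', r.nb, if_pos t]
    · right
      refine ⟨by tauto, ?_⟩
      simp only [σ]; rw [pn _ t, pp _ t', if_pos t]
      rcases c with ⟨x, y, d⟩
      cases d <;> cases e <;>
        simp only [hR, Rect, Cell.nb, mcell, Ed.rev, Cell.mk.injEq, and_true] at t t' ⊢ <;> omega
    · right
      refine ⟨by tauto, ?_⟩
      simp only [σ]; rw [pp _ t, pn _ t', if_neg t]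
      rcases c with ⟨x, y, d⟩
      cases d <;> cases e <;>
        simp only [hR, Rect, Cell.nb, mcell, Ed.rev, Cell.mk.injEq, and_true] at t t' ⊢ <;> omega
    · left
      refine ⟨by tauto, ?_⟩
      simp only [σ]; rw [pp _ t, pp _ t', if_neg t]
  have pinj : ∀ c b : Cell, π c = π b → (c.x < 0 ↔ b.x < 0) → c = b := by
    intro c b e t
    by_cases u : c.x < 0
    · rw [pn _ u, pn _ (t.1 u)] at e
      rw [← r.inv c, e, r.inv]
    · rwa [pp _ u, pp _ (fun a => u (t.2 a))] at e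
  have lt : ∀ c b, h' c < h' b ↔ h (π c) < h (π b) ∨ (h (π c) = h (π b) ∧ s c < s b) :=
    fun c b => Prod.Lex.toLex_lt_toLex
  have gd : ∀ c, R' c → Good φ (π c) := fun c hc => hv.good _ (hπ c hc)
  have eqc : ∀ c b, R' c → R' b → K φ' c = K φ' b → h (π c) = h (π b) → π c = π b :=
    fun c b h1 h2 k e => hv.inj _ _ (hπ _ h1) (hπ _ h2) (by rwa [kk, kk] at k) e
  refine ⟨φ', h', ⟨?_, ?_, ?_, ?_⟩, ?_, ?_⟩
  · intro c hc
    have := gd c hc
    by_cases t : c.x < 0
    · rw [pn c t] at this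
      exact (an c t).good (r.good this)
    · rw [pp c t] at this
      exact (ap c t).good this
  · intro c b h1 h2 k e
    have e' := toLex.injective e
    rw [Prod.mk.injEq] at e'
    refine pinj c b (eqc c b h1 h2 k e'.1) ?_
    have := e'.2
    simp only [s] at this
    split_ifs at this <;> omega
  · intro c e b e' h1 h2 h3 h4 he k1 k2 l1 l2
    rw [lt] at l1 l2
    rw [lt, lt]
    rw [ee, ee] at he
    rcases adj c e with ⟨t1, a1⟩ | ⟨t1, a1, -⟩
    · have n1 : R ((π c).nb (σ c e)) := a1 ▸ hπ _ h2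
      have cc := (col_nb (σ c e) (gd c h1) (hv.good _ n1)).1 (by rw [← a1, ← kk, ← kk, k1])
      rw [← a1] at cc
      rcases adj b e' with ⟨t2, a2⟩ | ⟨t2, a2, n2⟩
      · rcases l1 with l1 | ⟨q1, l1⟩ <;> rcases l2 with l2 | ⟨q2, l2⟩
        · have := hv.taco (π c) (σ c e) (π b) (σ b e') (hπ _ h1) n1 (hπ _ h3) (a2 ▸ hπ _ h4) he
            (by rw [← a1, ← kk, ← kk, k1]) (by rw [← kk, ← kk, k2]) l1 (a1 ▸ l2)
          rw [← a1, ← a2, ← kk, ← kk] at this
          exact ⟨this.1, Or.inl this.2.1, Or.inl this.2.2⟩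
        · have p := eqc _ _ h3 h2 (k2.trans k1.symm) q2
          have : σ b e' = (σ c e).rev := by
            apply eps_inj (gd b h3)
            rw [← he, p, a1, eps_nb]
          have p' : π (b.nb e') = π c := by rw [a2, this, p, a1, nb_nb]
          refine ⟨by rw [kk, kk, p'], Or.inr ⟨by rw [p'], ?_⟩, Or.inl (by rw [p', ← p]; exact l1)⟩
          simp only [s, p, p'] at l2 ⊢
          split_ifs at l2 ⊢ <;> first | omega | tauto
        · have p := eqc _ _ h1 h3 k2.symm q1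
          have : σ c e = σ b e' := by
            apply eps_inj (gd c h1)
            rw [he, p]
          have p' : π (b.nb e') = π (c.nb e) := by rw [a2, a1, this, p]
          refine ⟨by rw [kk, p', ← kk, k1], Or.inl (by rw [p', p]; exact l2),
            Or.inr ⟨by rw [p'], ?_⟩⟩
          simp only [s, ← p, p'] at l1 ⊢
          split_ifs at l1 ⊢ <;> first | omega | tauto
        · have p := eqc _ _ h1 h2 k1.symm (q1.trans q2)
          rw [p] at cc
          tauto
      · rw [kk (b.nb e'), a2, ← kk]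
        refine ⟨k2, Or.inl (l1.resolve_right ?_), Or.inl (l2.resolve_right ?_)⟩
        · rintro ⟨q1, -⟩
          have p := eqc _ _ h1 h3 k2.symm q1
          have : σ c e = σ b e' := by
            apply eps_inj (gd c h1)
            rw [he, p]
          rw [← p, ← this] at n2
          exact n2 n1
        · rintro ⟨q2, -⟩
          have p := eqc _ _ h3 h2 (k2.trans k1.symm) q2
          have : σ b e' = (σ c e).rev := by
            apply eps_inj (gd b h3)
            rw [← he, p, a1, eps_nb]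
          rw [this, p, a1, nb_nb] at n2
          exact n2 (hπ _ h1)
    · exfalso
      rw [a1] at l2
      have q : h (π c) = h (π b) := by
        rcases l1 with l1 | l1 <;> rcases l2 with l2 | l2
        · exact absurd l1 l2.not_gt
        · exact l2.1.symm
        · exact l1.1
        · exact l1.1
      have p := eqc _ _ h1 h3 k2.symm q
      have l1' := (l1.resolve_left (by rw [q]; exact lt_irrefl _)).2
      have l2' := (l2.resolve_left (by rw [q]; exact lt_irrefl _)).2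
      simp only [s, a1, ← p] at l1' l2'
      split_ifs at l1' l2' <;> omega
  · intro c e b e' h1 h2 h3 h4 he k1 k2 k3 l1
    rw [lt] at l1 ⊢
    rw [ee, ee] at he
    rcases adj c e with ⟨t1, a1⟩ | ⟨t1, a1, -⟩
    · rcases adj b e' with ⟨t2, a2⟩ | ⟨t2, a2, -⟩
      · have n1 : R ((π c).nb (σ c e)) := a1 ▸ hπ _ h2
        have k1' : K φ ((π c).nb (σ c e)) ≠ K φ (π c) := by rwa [← a1, ← kk, ← kk]
        rcases l1 with l1 | ⟨q1, l1⟩
        · have := hv.tort (π c) (σ c e) (π b) (σ b e') (hπ _ h1) n1 (hπ _ h3) (a2 ▸ hπ _ h4) he k1'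
            (by rw [← kk, ← kk, k2]) (by rw [← a1, ← a2, ← kk, ← kk, k3]) l1
          rw [← a1, ← a2] at this
          exact Or.inl this
        · have cc := (col_nb (σ c e) (gd c h1) (hv.good _ n1)).2 k1'
          rw [← a1] at cc
          have p := eqc _ _ h1 h3 k2.symm q1
          have : σ c e = σ b e' := by
            apply eps_inj (gd c h1)
            rw [he, p]
          have p' : π (b.nb e') = π (c.nb e) := by rw [a2, a1, this, p]
          refine Or.inr ⟨by rw [p'], ?_⟩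
          simp only [s, ← p, p'] at l1 ⊢
          split_ifs at l1 ⊢ <;> first | omega | tauto
      · exfalso
        apply k1
        rw [← k3, ← k2, kk, kk, a2]
    · exfalso
      apply k1
      rw [kk, kk, a1]
  · intro c hc
    have : φ' c.o = φ (π c).o := congrArg Prod.fst (kk c)
    rw [this]
    exact hf _ (hπ c hc)
  · intro κ hκ hc
    obtain ⟨a, ha, ka, ext, w1, w2⟩ := ht κ hκ hc
    have a0 : ¬ a.x < 0 := not_lt.2 ha.1
    have ha' : R' a := by
      simp only [hR, hR', Rect] at *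
      omega
    refine ⟨a, ha', by rw [kk, pp a a0, ka], fun c h1 kc => ?_,
      fun t => (ap a a0).white (w1 t), fun t => ⟨(ap a a0).black (w2 t).1, trivial⟩⟩
    rw [kk] at kc
    simp only [h']
    rw [Prod.Lex.toLex_le_toLex, pp a a0]
    rcases (ext _ (hπ c h1) kc).lt_or_eq with l | l
    · exact Or.inl l
    · refine Or.inr ⟨l, ?_⟩
      have p : π c = a := hv.inj _ _ (hπ c h1) ha (kc.trans ka.symm) l
      simp only [s, p, if_neg a0]
      split_ifs with u1 u2
      · omega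
      · exfalso
        have := (w2 (fun t => u2 (w1 t))).2
        have e := mcell_xy 0 c
        rw [← pn c u1, p] at e
        simp only [hR', Rect] at h1
        omega
      · omega

end Pool.Agent.MP_3b5bbf_co

end
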