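import Pool.Agent.Mg.F3b5bbfq.Gda478f
import Pool.Agent.Mg.F3b5bbfq.Gdf376a

set_option linter.all false

/-! The woven board with a plate on top of every cell. -/

set_option linter.unusedSimpArgs false

namespace Pool.Agent.MP_3b5bbf_co.Sm

theorem Face.grow {R0 R φ φ' W W' le le' m} (hf : Face R0 φ W le m)
    (h : ∀ c, R0 c → Near m (φ c.o) → W c → (∀ d, R0 d → K φ d = K φ c → le d c) →
      R c ∧ Agr φ' φ c ∧ W' c ∧ ∀ d, R d → K φ' d = K φ' c → le' d c) : Face R φ' W' le' m := by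
  obtain ⟨z, g, mg, e, z1, z2, hc⟩ := hf
  refine ⟨z, g, mg, e, z1, z2, fun c n => ?_⟩
  obtain ⟨r, a, w, ext⟩ := hc c n
  obtain ⟨r', a', w', ext'⟩ := h c r (by rw [a.1, ← e, mg.near]; exact n) w ext
  exact ⟨r', ⟨a'.1.trans a.1, a'.2.1.trans a.2.1, a'.2.2.trans a.2.2⟩, w', ext'⟩

theorem mot_gl : Mot gl :=
  ⟨-1, -1, 0, 2, Or.inr rfl, Or.inr rfl, Or.inr fun v => by
    simp only [gl, Prod.mk.injEq]; constructor <;> ring⟩

structure Plc (R : Cell → Prop) (φ : V → V) (h : Cell → ℚ) (κp : V × V) (α β δ M : ℤ)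
    (col : Prop) : Prop where
  valid : Valid R φ h
  kp : ∀ c, Bd R c → K φ c = κp
  cl : ∀ c b, R c → R (c.nb .g) → Bd R b → K φ (c.nb .g) = K φ c → K φ b = K φ c → h c < h b →
    h b < h (c.nb .g) → False
  foot : ∀ c, R c → Brd M (φ c.o)
  steps : ∀ c, R c → R (c.nb .g) → φ (c.nb .g).o ≠ φ c.o → SG α β δ (φ c.o) (φ (c.nb .g).o)
  top : ∀ m : V, m.1 % 2 = 1 → m.2 % 2 = 1 → Ctr α β m → Brd M m →
    Face R φ (fun a => (col → White φ a) ∧ (¬ col → Black φ a)) (fun d c => h d ≤ h c) m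

theorem plc_of {R R' : Cell → Prop} {ψ φ g : V → V} {h h' : Cell → ℚ} {κp α β δ M} {col : Prop}
    (G : Gen R' ψ h' (fun v => Brd M (g v)) (fun v w => Odd2 v w → SG α β δ (g v) (g w))
      (fun v => Ctr α β (g v) ∧ Brd M (g v)))
    (hR : ∀ c, R c ↔ R' c) (hg : Iso g) (mg : Mot g)
    (wb : ∀ φ c, White φ c → Black (fun v => g (φ v)) c)
    (bw : ∀ φ c, Black φ c → White (fun v => g (φ v)) c)
    (ag : ∀ c, R' c → Agr φ (fun v => g (ψ v)) c)
    (hk : ∀ c, K ψ c = KP → K (fun v => g (ψ v)) c = κp)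
    (hh : (col ∧ ∀ c, R' c → h c = h' c) ∨ (¬ col ∧ ∀ c, R' c → h c = -h' c)) :
    Plc R φ h κp α β δ M col := by
  obtain rfl : R = R' := funext fun c => propext (hR c)
  have kk : ∀ c b, R c → R b → (K φ c = K φ b ↔ K ψ c = K ψ b) := fun c b h1 h2 => by
    rw [(ag c h1).K, (ag b h2).K, hg.K_iff]
  refine ⟨?_, fun c hc => by rw [(ag c hc.1).K, hk c (G.kp c hc)], ?_,
    fun c hc => by rw [(ag c hc).1]; exact G.foot c hc, ?_, ?_⟩
  · rcases hh with ⟨-, hh⟩ | ⟨-, hh⟩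
    · exact G.valid.iso hg ag (fun c b h1 h2 _ => by rw [hh c h1, hh b h2])
    · exact G.valid.neg.iso hg ag (fun c b h1 h2 _ => by rw [hh c h1, hh b h2])
  · intro c b h1 h2 h3 k1 k2 l1 l2
    rw [kk _ _ h2 h1] at k1
    rw [kk _ _ h3.1 h1] at k2
    have kb := G.kp b h3
    have kc := k2.symm.trans kb
    rcases hh with ⟨-, hh⟩ | ⟨-, hh⟩ <;> rw [hh _ h1, hh _ h3.1] at l1 <;>
      rw [hh _ h2, hh _ h3.1] at l2
    · exact G.closed c .g b h1 h2 h3 (congrArg Prod.snd kc) kc (k1.trans kc) l1 l2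
    · exact G.closed.neg c .g b h1 h2 h3 (congrArg Prod.snd kc) kc (k1.trans kc) l1 l2
  · intro c h1 h2 ne
    rw [(ag c h1).1, (ag _ h2).1] at *
    have g1 := G.valid.good _ h1
    have g2 := G.valid.good _ h2
    exact G.steps c h1 h2 (fun e => ne (by simp only [e])) ⟨g1.1, g1.2.1, g2.1, g2.2.1⟩
  · intro m m1 m2 o b
    obtain ⟨f1, f2⟩ := G.cov.map (h' := fun c => -h' c) (φ' := φ) hg mg
      (fun _ a => a) m1 m2 (fun v e => by rw [e]; exact ⟨o, b⟩) (fun c hc _ => ag c hc)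
      (fun c hc e => ⟨hc, by rw [(ag c hc).1] at e; exact e⟩)
      (Or.inr ⟨wb ψ, bw ψ, fun c b _ _ _ _ l => neg_le_neg l⟩)
    rcases hh with ⟨t, hh⟩ | ⟨t, hh⟩
    · exact f2.mono (fun c _ w => ⟨fun _ => w, fun n => absurd t n⟩)
        (fun d c hd hc l => by rw [hh _ hc, hh _ hd]; exact neg_le_neg_iff.1 l)
    · exact f1.mono (fun c _ w => ⟨fun n => absurd n t, fun _ => w⟩)
        (fun d c hd hc l => by rw [hh _ hc, hh _ hd]; exact l)

theorem place {X Y o M : ℤ} (hY : Y % 2 = 0) (t11 : TR X Y o gl 0 (-6) 0 M)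
    (t12 : TR Y X o gl 10 4 1 M) (t21 : TR X Y (o + 1) gr 10 (-6) 0 M)
    (t22 : TR Y X (o + 1) gr 0 4 1 M) :
    ∃ φ h0, (∀ i, 0 ≤ i → i ≤ 3 → Plc (fun c => Rect 0 (2 * X) 0 (2 * Y) c ∧ reg X Y c = i) φ h0
      ((ks i, 1), (0, 2)) (al i) (be i) (de i) M (i ≤ 1)) ∧
      ∀ c b, Cross X Y c → Cross X Y b → reg X Y c = reg X Y b →
        (h0 c < h0 b ↔ klt (pk X Y c) (pk X Y b)) := by
  obtain ⟨φ1, h1, u1, -⟩ := t11 0 X 0 Y o (by ring) (by ring) (by ring)
  obtain ⟨φ2, h2, u2, -⟩ := t12 Y (2 * Y) 0 X (Y + o) (by ring) (by ring) (by ring)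
  obtain ⟨φ3, h3, u3, -⟩ := t21 0 X 0 Y (o + 1) (by ring) (by ring) (by ring)
  obtain ⟨φ4, h4, u4, -⟩ := t22 Y (2 * Y) 0 X (Y + (o + 1)) (by ring) (by ring) (by ring)
  clear t11 t12 t21 t22
  have d1 := u1.d1
  have d2 := u1.d2
  have d3 := u2.d1
  have d4 := u2.d2
  have d5 := u3.d2
  have d6 := u4.d2
  let φ : V → V := fun v =>
    if v.1 ≤ 2 * X then (if v.2 ≤ 2 * Y then gl (φ1 v) else gl (φ2 (v.2, v.1)))
    else (if v.2 ≤ 2 * Y then gr (φ3 (2 * (2 * X) - v.1, v.2)) else gr (φ4 (v.2, 2 * (2 * X) - v.1)))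
  let h : Cell → ℚ := fun c =>
    if c.x < X then (if c.y < Y then h1 c else -h2 (tcell c))
    else (if c.y < Y then h3 (mcell (2 * X) c) else -h4 (tcell (mcell (2 * X) c)))
  have r1 : ∀ c, (Rect 0 (2 * X) 0 (2 * Y) c ∧ reg X Y c = 0) ↔ Rect 0 X 0 Y c := by
    intro c; unfold Rect reg; omega
  have r2 : ∀ c, (Rect 0 (2 * X) 0 (2 * Y) c ∧ reg X Y c = 1) ↔ Rect 0 X Y (2 * Y) c := by
    intro c; unfold Rect reg; omega
  have r3 : ∀ c, (Rect 0 (2 * X) 0 (2 * Y) c ∧ reg X Y c = 2) ↔ Rect X (2 * X) 0 Y c := by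
    intro c; unfold Rect reg; omega
  have r4 : ∀ c, (Rect 0 (2 * X) 0 (2 * Y) c ∧ reg X Y c = 3) ↔ Rect X (2 * X) Y (2 * Y) c := by
    intro c; unfold Rect reg; omega
  have s2 : ∀ c, Rect 0 X Y (2 * Y) c ↔ Rect Y (2 * Y) 0 X (tcell c) := by
    intro c; have := tcell_xy c; unfold Rect; omega
  have s3 : ∀ c, Rect X (2 * X) 0 Y c ↔ Rect 0 X 0 Y (mcell (2 * X) c) := by
    intro c; have := mcell_xy (2 * X) c; unfold Rect; omega
  have s4 : ∀ c, Rect X (2 * X) Y (2 * Y) c ↔ Rect Y (2 * Y) 0 X (tcell (mcell (2 * X) c)) := by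
    intro c; have := mcell_xy (2 * X) c; have := tcell_xy (mcell (2 * X) c); unfold Rect; omega
  have e1 : ∀ c, Rect 0 X 0 Y c → h c = h1 c := fun c hc => by
    simp only [h]; rw [if_pos hc.2.1, if_pos hc.2.2.2]
  have e2 : ∀ c, Rect 0 X Y (2 * Y) c → h c = -h2 (tcell c) := fun c hc => by
    simp only [h]; rw [if_pos hc.2.1, if_neg (not_lt.2 hc.2.2.1)]
  have e3 : ∀ c, Rect X (2 * X) 0 Y c → h c = h3 (mcell (2 * X) c) := fun c hc => by
    simp only [h]; rw [if_neg (not_lt.2 hc.1), if_pos hc.2.2.2]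
  have e4 : ∀ c, Rect X (2 * X) Y (2 * Y) c → h c = -h4 (tcell (mcell (2 * X) c)) :=
    fun c hc => by simp only [h]; rw [if_neg (not_lt.2 hc.1), if_neg (not_lt.2 hc.2.2.1)]
  have a1 : ∀ c, Rect 0 X 0 Y c → Agr φ (fun v => gl (φ1 v)) c := by
    refine agr_rect fun v _ hv => ?_
    simp only [φ]; rw [if_pos hv.2.1, if_pos hv.2.2.2]
  have a2 : ∀ c, Rect 0 X Y (2 * Y) c → Agr φ (fun v => gl (φ2 (v.2, v.1))) c := by
    refine agr_rect fun v p hv => ?_
    simp only [φ]; rw [if_pos hv.2.1]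
    split_ifs with t
    · obtain ⟨a, rfl⟩ : ∃ a, v = (2 * a, 2 * Y) := ⟨v.1 / 2, Prod.ext (by omega) (by omega)⟩
      dsimp only at hv ⊢
      rw [u1.bdry a Y (by omega) (by omega) (by omega) (by omega) (by omega),
        u2.bdry Y a (by omega) (by omega) (by omega) (by omega) (by omega)]
      simp only [gl, Prod.mk.injEq, true_and]; omega
    · rfl
  have a3 : ∀ c, Rect X (2 * X) 0 Y c → Agr φ (fun v => gr (φ3 (2 * (2 * X) - v.1, v.2))) c := by
    refine agr_rect fun v p hv => ?_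
    simp only [φ]; rw [if_pos hv.2.2.2, if_pos hv.2.2.2]
    split_ifs with t
    · obtain ⟨a, rfl⟩ : ∃ a, v = (2 * X, 2 * a) := ⟨v.2 / 2, Prod.ext (by omega) (by omega)⟩
      dsimp only at hv ⊢
      rw [show 2 * (2 * X) - 2 * X = 2 * X by ring,
        u1.bdry X a (by omega) (by omega) (by omega) (by omega) (by omega),
        u3.bdry X a (by omega) (by omega) (by omega) (by omega) (by omega)]
      simp only [gl, gr, Prod.mk.injEq]; omega
    · rfl
  have a4 : ∀ c, Rect X (2 * X) Y (2 * Y) c →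
      Agr φ (fun v => gr (φ4 (v.2, 2 * (2 * X) - v.1))) c := by
    refine agr_rect fun v p hv => ?_
    simp only [φ]
    split_ifs with t t' t'
    · obtain rfl : v = (2 * X, 2 * Y) := Prod.ext (by omega) (by omega)
      dsimp only at hv ⊢
      rw [show 2 * (2 * X) - 2 * X = 2 * X by ring,
        u1.bdry X Y (by omega) (by omega) (by omega) (by omega) (by omega),
        u4.bdry Y X (by omega) (by omega) (by omega) (by omega) (by omega)]
      simp only [gl, gr, Prod.mk.injEq]; omega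
    · obtain ⟨a, rfl⟩ : ∃ a, v = (2 * X, 2 * a) := ⟨v.2 / 2, Prod.ext (by omega) (by omega)⟩
      dsimp only at hv ⊢
      rw [show 2 * (2 * X) - 2 * X = 2 * X by ring,
        u2.bdry a X (by omega) (by omega) (by omega) (by omega) (by omega),
        u4.bdry a X (by omega) (by omega) (by omega) (by omega) (by omega)]
      simp only [gl, gr, Prod.mk.injEq]; omega
    · obtain ⟨a, rfl⟩ : ∃ a, v = (2 * (2 * X - a), 2 * Y) :=
        ⟨2 * X - v.1 / 2, Prod.ext (by omega) (by omega)⟩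
      dsimp only at hv ⊢
      rw [show 2 * (2 * X) - 2 * (2 * X - a) = 2 * a by ring,
        u3.bdry a Y (by omega) (by omega) (by omega) (by omega) (by omega),
        u4.bdry Y a (by omega) (by omega) (by omega) (by omega) (by omega)]
      simp only [gr, Prod.mk.injEq, true_and]; omega
    · rfl
  refine ⟨φ, h, fun i i0 i3 => ?_, fun c b hc hb e => ?_⟩
  · rcases (by omega : i = 0 ∨ i = 1 ∨ i = 2 ∨ i = 3) with rfl | rfl | rfl | rfl
    · exact plc_of u1.gen r1 iso_gl mot_gl gl_wb gl_bw a1 (gl_kp _) (Or.inl ⟨by omega, e1⟩)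
    · exact plc_of (u2.gen.refl prefl_t mot_t) (fun c => (r2 c).trans (s2 c)) iso_gl mot_gl gl_wb gl_bw
        (fun c hc => a2 c ((s2 c).2 hc)) (gl_kp _)
        (Or.inl ⟨by omega, fun c hc => e2 c ((s2 c).2 hc)⟩)
    · exact plc_of (u3.gen.refl (prefl_m (2 * X)) (mot_m _)) (fun c => (r3 c).trans (s3 c)) refl_open.iso
        mot_t refl_open.wb refl_open.bw (fun c hc => a3 c ((s3 c).2 hc)) (gr_kp _)
        (Or.inr ⟨by omega, fun c hc => by rw [neg_neg]; exact e3 c ((s3 c).2 hc)⟩)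
    · exact plc_of ((u4.gen.refl prefl_t mot_t).refl (prefl_m (2 * X)) (mot_m _))
        (fun c => (r4 c).trans (s4 c))
        refl_open.iso mot_t refl_open.wb refl_open.bw (fun c hc => a4 c ((s4 c).2 hc)) (gr_kp _)
        (Or.inr ⟨by omega, fun c hc => by rw [neg_neg]; exact e4 c ((s4 c).2 hc)⟩)
  · have bd : ∀ {i R'}, (∀ c, (Rect 0 (2 * X) 0 (2 * Y) c ∧ reg X Y c = i) ↔ R' c) →
        ∀ c, Cross X Y c → reg X Y c = i → Bd R' c := by
      intro i R' r c hc e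
      exact ⟨(r c).1 ⟨hc.1, e⟩, fun a => hc.2.2 (((r _).2 a).2.trans e.symm)⟩
    have i0 : reg X Y b = 0 ∨ reg X Y b = 1 ∨ reg X Y b = 2 ∨ reg X Y b = 3 := by
      unfold reg; omega
    rcases i0 with i | i | i | i
    · rw [e1 c (bd r1 c hc (e.trans i)).1, e1 b (bd r1 b hb i).1,
        u1.ord_iff (bd r1 c hc (e.trans i)) (bd r1 b hb i)]
      rcases c with ⟨x, y, d⟩
      rcases b with ⟨x', y', d'⟩
      cases d <;> cases d' <;>
        simp only [Cross, Rect, reg, Cell.nb, pk, bkey, klt, true_and] at hc hb e i ⊢ <;> omega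
    · rw [e2 c (bd r2 c hc (e.trans i)).1, e2 b (bd r2 b hb i).1, neg_lt_neg_iff,
        u2.ord_iff (prefl_t.bd.1 (bd (fun c => (r2 c).trans (s2 c)) b hb i))
          (prefl_t.bd.1 (bd (fun c => (r2 c).trans (s2 c)) c hc (e.trans i)))]
      rcases c with ⟨x, y, d⟩
      rcases b with ⟨x', y', d'⟩
      cases d <;> cases d' <;>
        simp only [Cross, Rect, reg, Cell.nb, pk, bkey, klt, tcell, true_and] at hc hb e i ⊢ <;>
        omega
    · rw [e3 c (bd r3 c hc (e.trans i)).1, e3 b (bd r3 b hb i).1,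
        u3.ord_iff ((prefl_m _).bd.1 (bd (fun c => (r3 c).trans (s3 c)) c hc (e.trans i)))
          ((prefl_m _).bd.1 (bd (fun c => (r3 c).trans (s3 c)) b hb i))]
      rcases c with ⟨x, y, d⟩
      rcases b with ⟨x', y', d'⟩
      cases d <;> cases d' <;>
        simp only [Cross, Rect, reg, Cell.nb, pk, bkey, klt, mcell, true_and] at hc hb e i ⊢ <;>
        omega
    · rw [e4 c (bd r4 c hc (e.trans i)).1, e4 b (bd r4 b hb i).1, neg_lt_neg_iff,
        u4.ord_iff (prefl_t.bd.1 ((prefl_m _).bd.1 (bd (fun c => (r4 c).trans (s4 c)) b hb i)))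
          (prefl_t.bd.1 ((prefl_m _).bd.1 (bd (fun c => (r4 c).trans (s4 c)) c hc (e.trans i))))]
      rcases c with ⟨x, y, d⟩
      rcases b with ⟨x', y', d'⟩
      cases d <;> cases d' <;>
        simp only [Cross, Rect, reg, Cell.nb, pk, bkey, klt, mcell, tcell, true_and]
          at hc hb e i ⊢ <;> omega

/-- over every centre in `Cv` lies a plate on top, of the colour of its cell -/
def Top {H : Type} [LinearOrder H] (R : Cell → Prop) (φ : V → V) (h : Cell → H) (Cv : V → Prop)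
    (col : V → Prop) (S : Cell → Prop) : Prop :=
  ∀ m : V, m.1 % 2 = 1 → m.2 % 2 = 1 → Cv m →
    Face R φ (fun a => (col m → White φ a) ∧ (¬ col m → Black φ a ∧ S a)) (fun d c => h d ≤ h c) m

theorem join {X Y o M : ℤ} (hY : Y % 2 = 0) (t11 : TR X Y o gl 0 (-6) 0 M)
    (t12 : TR Y X o gl 10 4 1 M) (t21 : TR X Y (o + 1) gr 10 (-6) 0 M)
    (t22 : TR Y X (o + 1) gr 0 4 1 M) :
    ∃ (φ : V → V) (h : Cell → ℤ ×ₗ ℚ), Valid (Rect 0 (2 * X) 0 (2 * Y)) φ h ∧
      Foot (Rect 0 (2 * X) 0 (2 * Y)) φ (Brd M) ∧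
      Top (Rect 0 (2 * X) 0 (2 * Y)) φ h
        (fun v => Brd M v ∧ v.1 % 10 = 5 ∧ (v.2 + 6) % 10 = 5)
        (fun v => (v.1 / 10 + (v.2 + 6) / 10) % 2 = 0) (fun a => X ≤ a.x) := by
  obtain ⟨φ, h0, P, O⟩ := place hY t11 t12 t21 t22
  set R := Rect 0 (2 * X) 0 (2 * Y) with hR
  have i0 : ∀ c, 0 ≤ reg X Y c := fun c => by unfold reg; omega
  have i3 : ∀ c, reg X Y c ≤ 3 := fun c => by unfold reg; omega
  have Pc := fun c => P (reg X Y c) (i0 c) (i3 c)
  have gd : ∀ c, R c → Good φ c := fun c hc => (Pc c).valid.good c ⟨hc, rfl⟩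
  have kc : ∀ c, R c → reg X Y (c.nb .g) ≠ reg X Y c → K φ c = ((ks (reg X Y c), 1), (0, 2)) :=
    fun c hc ne => (Pc c).kp c ⟨⟨hc, rfl⟩, fun a => ne a.2⟩
  have lc : ∀ c, R c → reg X Y (c.nb .g) ≠ reg X Y c → Lv (reg X Y c) (φ c.o) = reg X Y c := by
    intro c hc ne
    have : φ c.o = (ks (reg X Y c), 1) := congrArg Prod.fst (kc c hc ne)
    have a := i0 c
    have b := i3 c
    rw [this, Lv_port a b _ (by unfold ks; omega)]
    unfold ks; omega
  let h : Cell → ℤ ×ₗ ℚ := fun c => toLex (Lv (reg X Y c) (φ c.o), h0 c)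
  have LP : ∀ c b, Cross X Y c → Cross X Y b → (reg X Y c ≤ 1 ↔ reg X Y b ≤ 1) →
      (h c < h b ↔ klt (pk X Y c) (pk X Y b)) := by
    intro c b hc hb s
    simp only [h]
    rw [Prod.Lex.toLex_lt_toLex, lc c hc.1 hc.2.2, lc b hb.1 hb.2.2]
    dsimp only
    by_cases e : reg X Y c = reg X Y b
    · rw [← O c b hc hb e, e]; simp
    · simp only [e, false_and, or_false]
      rcases c with ⟨x, y, d⟩
      rcases b with ⟨x', y', d'⟩
      cases d <;> cases d' <;>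
        simp only [Cross, Rect, reg, Cell.nb, pk, klt, true_and] at hc hb e s ⊢ <;> omega
  have sd : ∀ c b, Cross X Y c → Cross X Y b →
      (K φ c = K φ b ↔ (reg X Y c ≤ 1 ↔ reg X Y b ≤ 1)) := by
    intro c b hc hb
    rw [kc c hc.1 hc.2.2, kc b hb.1 hb.2.2]
    simp only [Prod.mk.injEq, and_true, ks]
    omega
  have cr : ∀ c, Cross X Y c → Cross X Y (c.nb .g) := fun c hc =>
    ⟨hc.2.1, by rw [nb_gg]; exact hc.1, by rw [nb_gg]; exact hc.2.2.symm⟩
  refine ⟨φ, h, ?_, fun c hc => (Pc c).foot c ⟨hc, rfl⟩, ?_⟩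
  · refine assemble (reg := reg X Y) (L := fun c => Lv (reg X Y c) (φ c.o)) (h0 := h0)
      (fun _ => rfl) ?_ ?_ ?_ ?_ ?_ ?_ ?_ ?_ ?_
    · intro i
      by_cases t : 0 ≤ i ∧ i ≤ 3
      · exact (P i t.1 t.2).valid
      · have em : ∀ c, ¬ (R c ∧ reg X Y c = i) := fun c a => t (a.2 ▸ ⟨i0 c, i3 c⟩)
        exact ⟨fun c h => (em c h).elim, fun c _ h => (em c h).elim,
          fun c _ _ _ h => (em c h).elim, fun c _ _ _ h => (em c h).elim⟩
    · intro c b _ _ e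
      rw [e]
      exact Lv_inj (i0 c) (i3 c) (i0 b) (i3 b) _
    · intro c e ne
      refine nb_g_of (c := c) (fun a => ne ?_)
      unfold reg; rw [a.1, a.2]
    · intro c b h1 h2 h3 h4 r1 r2 r3 k1 k2 l1 l2
      exact (Pc c).cl c b ⟨h1, rfl⟩ ⟨h2, r1⟩ ⟨⟨h3, r2⟩, fun a => r3 (a.2.trans r2.symm)⟩ k1 k2 l1 l2
    · intro c b h1 h2 h3 h4 r1 r3 he
      have e : eps φ c .g = (0, 2) := he.trans (congrArg Prod.snd (kc b h3 r3))
      have p1 := port_ctr (gd c h1) e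
      have p2 := port_ctr (gd _ h2) ((eps_nb φ c .g).trans e)
      by_contra ne
      have s := (Pc c).steps c ⟨h1, rfl⟩ ⟨h2, r1⟩ ne
      rw [Prod.ext_iff] at ne
      unfold SG al be de at s
      split_ifs at s <;> omega
    · intro c b h1 h2 h3 h4 r1 r2 o1 o2 ne l
      have s1 := (Pc c).steps c ⟨h1, rfl⟩ ⟨h2, r1⟩ ne
      have s2 := (Pc b).steps b ⟨h3, rfl⟩ ⟨h4, r2⟩ (by rw [o1, o2]; exact ne)
      rw [o1, o2] at *
      rw [r1, r2]
      exact Lv_step (i0 c) (i3 c) (i0 b) (i3 b) s1 s2 ne l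
    · intro c b h1 h2 h3 r1 k1 k2 l1 l2
      have c1 : Cross X Y c := ⟨h1, h2, r1⟩
      have s := (sd _ _ (cr c c1) c1).1 k1
      have o : φ b.o = (ks (reg X Y c), 1) := (congrArg Prod.fst k2).trans
        (congrArg Prod.fst (kc c h1 r1))
      rw [lc c h1 r1, o, Lv_port (i0 b) (i3 b) _ (by unfold ks; omega)] at l1
      rw [lc _ h2 (cr c c1).2.2, o, Lv_port (i0 b) (i3 b) _ (by unfold ks; omega)] at l2
      have := i0 c
      have := i3 c
      have := i0 (c.nb .g)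
      have := i3 (c.nb .g)
      unfold ks at *
      omega
    · intro c b h1 h2 h3 h4 r1 r2 k1 k2 l1 l2
      have c1 : Cross X Y c := ⟨h1, h2, r1⟩
      have b1 : Cross X Y b := ⟨h3, h4, r2⟩
      have s1 := (sd _ _ (cr c c1) c1).1 k1
      have s2 := (sd _ _ b1 c1).1 k2
      rw [LP _ _ c1 b1 s2.symm] at l1
      rw [LP _ _ b1 (cr c c1) (s2.trans s1.symm)] at l2
      have key : (reg X Y (b.nb .g) ≤ 1 ↔ reg X Y c ≤ 1) ∧ klt (pk X Y c) (pk X Y (b.nb .g)) ∧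
          klt (pk X Y (b.nb .g)) (pk X Y (c.nb .g)) := by
        clear k1 k2 h1 h2 h3 h4 r1 r2
        rcases c with ⟨x, y, d⟩
        rcases b with ⟨x', y', d'⟩
        cases d <;> cases d' <;>
          simp only [Cross, Rect, reg, Cell.nb, pk, klt, true_and] at c1 b1 s1 s2 l1 l2 ⊢ <;> omega
      exact ⟨(sd _ _ (cr b b1) c1).2 key.1, (LP _ _ c1 (cr b b1) key.1.symm).2 key.2.1,
        (LP _ _ (cr b b1) (cr c c1) (key.1.trans s1.symm)).2 key.2.2⟩
    · intro c b h1 h2 h3 h4 r1 r2 k1 k2 k3 l1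
      have c1 : Cross X Y c := ⟨h1, h2, r1⟩
      have b1 : Cross X Y b := ⟨h3, h4, r2⟩
      have s1 : ¬ (reg X Y (c.nb .g) ≤ 1 ↔ reg X Y c ≤ 1) := fun a => k1 ((sd _ _ (cr c c1) c1).2 a)
      have s2 := (sd _ _ b1 c1).1 k2
      have s3 := (sd _ _ (cr b b1) (cr c c1)).1 k3
      rw [LP _ _ c1 b1 s2.symm] at l1
      rw [LP _ _ (cr c c1) (cr b b1) s3.symm]
      clear k1 k2 k3 h1 h2 h3 h4 r1 r2
      rcases c with ⟨x, y, d⟩
      rcases b with ⟨x', y', d'⟩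
      cases d <;> cases d' <;>
        simp only [Cross, Rect, reg, Cell.nb, pk, klt, true_and, not_true_eq_false]
          at c1 b1 s1 s2 s3 l1 ⊢ <;> omega
  · intro m m1 m2 hb
    obtain ⟨i, j0, j3, ow, cl⟩ : ∃ i, 0 ≤ i ∧ i ≤ 3 ∧ Ctr (al i) (be i) m ∧
        (i ≤ 1 ↔ (m.1 / 10 + (m.2 + 6) / 10) % 2 = 0) := by
      have := hb.2
      by_cases a : m.1 % 20 < 10 <;> by_cases b : (m.2 + 6) % 20 < 10
      · exact ⟨0, by omega, by omega, by simp [Ctr, al, be]; omega, by omega⟩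
      · exact ⟨3, by omega, by omega, by simp [Ctr, al, be]; omega, by omega⟩
      · exact ⟨2, by omega, by omega, by simp [Ctr, al, be]; omega, by omega⟩
      · exact ⟨1, by omega, by omega, by simp [Ctr, al, be]; omega, by omega⟩
    refine ((P i j0 j3).top m m1 m2 ow hb.1).grow fun a ha n w ext =>
      ⟨ha.1, ⟨rfl, rfl, rfl⟩, ⟨fun t => w.1 (cl.2 t), fun t => ⟨w.2 (fun u => t (cl.1 u)), ?_⟩⟩,
        fun c hc kc => ?_⟩
    · have := ha.2
      have := fun u => t (cl.1 u)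
      unfold reg at *
      omega
    · have oc : φ c.o = φ a.o := congrArg Prod.fst kc
      have l4 : Lv i (φ a.o) = 4 := if_pos (by unfold Ctr Near at *; omega)
      simp only [h]
      rw [Prod.Lex.toLex_le_toLex, oc, ha.2]
      dsimp only
      by_cases e : reg X Y c = i
      · exact Or.inr ⟨by rw [e], ext c ⟨hc, e⟩ kc⟩
      · left
        have := (Lv_inj (i0 c) (i3 c) j0 j3 (φ a.o)).not.2 e
        have : Lv (reg X Y c) (φ a.o) ≤ 4 := by have := i3 c; unfold Lv; omega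
        omega

end Pool.Agent.MP_3b5bbf_co.Sm
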