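import Pool.Agent.Mg.F3b5bbfq.G3532df

set_option linter.all false

/-! Branch and bound certificates for a pair of squares. -/

set_option linter.unusedVariables false

namespace Pool.Agent.MP_3b5bbf_co.S

variable {X Y c1 s1 c2 s2 : ℝ}

theorem L3_00
    (h1 : c1^2 + s1^2 = 1) (h2 : c2^2 + s2^2 = 1)
    (H : SS X (-Y) c1 s1 c2 s2)
    (a1 : 0 ≤ (1:ℝ)*s1 - (0:ℝ)*c1) (b1 : 0 ≤ -((0:ℝ)*s1 - (1:ℝ)*c1))
    (a2 : 0 ≤ (1:ℝ)*s2 - (0:ℝ)*c2) (b2 : 0 ≤ -((0:ℝ)*s2 - (1:ℝ)*c2))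
    (x0 : 0 ≤ X) (x1 : 0 ≤ 4 - X)
    (y0 : 0 ≤ Y) (y1 : 0 ≤ 4 - Y)
    (dxs : 0 < 6 - X - c1 - s1 - c2 - s2)
    (dys : 0 < 6 - Y - c1 - s1 - c2 - s2)
    (hn : 0 ≤ -13/25 - c1*c2 - s1*s2) : False := by
  have dx := dxs.le
  have dy := dys.le
  have k1 := chord h1 a1 b1 (by norm_num) (by norm_num)
  have u1 := tang h1 (0:ℝ) (1:ℝ)
  have k2 := chord h2 a2 b2 (by norm_num) (by norm_num)
  have u2 := tang h2 (0:ℝ) (1:ℝ)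
  linarith only [h1, h2, H.q3, H.q6, hn, x1, mul_nonneg x0 x1, mul_nonneg x0 b1, mul_nonneg x0 u1,
    mul_nonneg x0 b2, mul_nonneg x0 u2, mul_nonneg x1 a1, mul_nonneg x1 a2, mul_nonneg y0 y1,
    mul_nonneg y0 k1, mul_nonneg y0 k2, mul_nonneg y1 u1, mul_nonneg y1 u2]

theorem L3_01
    (h1 : c1^2 + s1^2 = 1) (h2 : c2^2 + s2^2 = 1)
    (H : SS X (-Y) c1 s1 c2 s2)
    (a1 : 0 ≤ (1:ℝ)*s1 - (0:ℝ)*c1) (b1 : 0 ≤ -((0:ℝ)*s1 - (1:ℝ)*c1))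
    (a2 : 0 ≤ (0:ℝ)*s2 - (1:ℝ)*c2) (b2 : 0 ≤ -((-1:ℝ)*s2 - (0:ℝ)*c2))
    (x0 : 0 ≤ X) (x1 : 0 ≤ 4 - X)
    (y0 : 0 ≤ Y) (y1 : 0 ≤ 4 - Y)
    (dxs : 0 < 6 - X - c1 - s1 + c2 - s2)
    (dys : 0 < 6 - Y - c1 - s1 + c2 - s2)
    (hn : 0 ≤ -13/25 - c1*c2 - s1*s2) : False := by
  have dx := dxs.le
  have dy := dys.le
  rcases spl ((3/5:ℝ)*s1 - (4/5:ℝ)*c1) with g0 | g0
  · have k1 := chord h1 g0 b1 (by norm_num) (by norm_num)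
    have l1 := tang h1 (3/5:ℝ) (4/5:ℝ)
    have k2 := chord h2 a2 b2 (by norm_num) (by norm_num)
    have u2 := tang h2 (-1:ℝ) (0:ℝ)
    linarith only [h1, h2, H.q1, H.q6, hn, dxs, dys, b2, k2, mul_nonneg dx x0, mul_nonneg dy y0,
      mul_nonneg x0 k1, mul_nonneg x0 k2, mul_nonneg x1 g0, mul_nonneg x1 l1, mul_nonneg x1 b2,
      mul_nonneg y0 k1, mul_nonneg y1 g0, mul_nonneg y1 k2, mul_nonneg g0 k2, mul_nonneg b1 b2,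
      mul_nonneg b1 u2, mul_nonneg k1 b2]
  · rcases spl ((15/17:ℝ)*s1 - (8/17:ℝ)*c1) with g1 | g1
    · have k1 := chord h1 g1 g0 (by norm_num) (by norm_num)
      have k2 := chord h2 a2 b2 (by norm_num) (by norm_num)
      have l2 := tang h2 (0:ℝ) (1:ℝ)
      have u2 := tang h2 (-1:ℝ) (0:ℝ)
      linarith only [h1, h2, H.q0, H.q1, H.q3, H.q6, hn, dxs, dys, k1, k2, mul_nonneg dx x0,
        mul_nonneg dy y0, mul_nonneg dy a2, mul_nonneg x0 k1, mul_nonneg x0 k2, mul_nonneg x1 g1,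
        mul_nonneg y0 k1, mul_nonneg y0 k2, mul_nonneg y1 g0, mul_nonneg g0 b2, mul_nonneg g0 u2,
        mul_nonneg k1 a2, mul_nonneg k1 k2, mul_nonneg a2 b2, mul_nonneg b2 l2]
    · have k1 := chord h1 a1 g1 (by norm_num) (by norm_num)
      have l1 := tang h1 (1:ℝ) (0:ℝ)
      have u1 := tang h1 (15/17:ℝ) (8/17:ℝ)
      have k2 := chord h2 a2 b2 (by norm_num) (by norm_num)
      have l2 := tang h2 (0:ℝ) (1:ℝ)
      have u2 := tang h2 (-1:ℝ) (0:ℝ)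
      linarith only [h1, h2, H.q3, dxs, dys, mul_nonneg dx x0, mul_nonneg dx a1, mul_nonneg dx l1,
        mul_nonneg dy y0, mul_nonneg dy u1, mul_nonneg dy l2, mul_nonneg x1 k2, mul_nonneg y0 a1,
        mul_nonneg y0 l1, mul_nonneg y0 k2, mul_nonneg y0 u2, mul_nonneg g1 l1, mul_nonneg g1 k2,
        mul_nonneg k1 l1, mul_nonneg k1 u1, mul_nonneg k1 k2, mul_nonneg k1 l2, mul_nonneg l1 u1,
        mul_nonneg l1 a2, mul_nonneg l1 k2, mul_nonneg k2 l2]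

theorem L3_02
    (h1 : c1^2 + s1^2 = 1) (h2 : c2^2 + s2^2 = 1)
    (H : SS X (-Y) c1 s1 c2 s2)
    (a1 : 0 ≤ (1:ℝ)*s1 - (0:ℝ)*c1) (b1 : 0 ≤ -((0:ℝ)*s1 - (1:ℝ)*c1))
    (a2 : 0 ≤ (-1:ℝ)*s2 - (0:ℝ)*c2) (b2 : 0 ≤ -((0:ℝ)*s2 - (-1:ℝ)*c2))
    (x0 : 0 ≤ X) (x1 : 0 ≤ 4 - X)
    (y0 : 0 ≤ Y) (y1 : 0 ≤ 4 - Y)
    (dxs : 0 < 6 - X - c1 - s1 + c2 + s2)
    (dys : 0 < 6 - Y - c1 - s1 + c2 + s2)
    (hn : 0 ≤ -13/25 - c1*c2 - s1*s2) : False := by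
  have dx := dxs.le
  have dy := dys.le
  rcases spl (X - (2:ℝ)) with g0 | g0
  · rcases spl ((-3/5:ℝ)*s2 - (-4/5:ℝ)*c2) with g1 | g1
    · have k1 := chord h1 a1 b1 (by norm_num) (by norm_num)
      have u1 := tang h1 (0:ℝ) (1:ℝ)
      have k2 := chord h2 g1 b2 (by norm_num) (by norm_num)
      have l2 := tang h2 (-3/5:ℝ) (-4/5:ℝ)
      have u2 := tang h2 (0:ℝ) (-1:ℝ)
      have m2 := tang h2 (-5/16:ℝ) (-61/64:ℝ)
      linarith only [h1, h2, H.q1, H.q3, dxs, dys, mul_nonneg dx g0, mul_nonneg dx b2,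
        mul_nonneg dy y0, mul_nonneg dy k2, mul_nonneg dy u2, mul_nonneg g0 k1, mul_nonneg g0 u1,
        mul_nonneg g0 k2, mul_nonneg y0 k1, mul_nonneg k1 k2, mul_nonneg k1 l2, mul_nonneg k1 u2,
        mul_nonneg u1 b2, mul_nonneg u1 k2, mul_nonneg u1 m2, mul_nonneg k2 k2, mul_nonneg k2 l2,
        mul_nonneg k2 u2]
    · rcases spl ((3/5:ℝ)*s1 - (4/5:ℝ)*c1) with g2 | g2
      · rcases spl ((-15/17:ℝ)*s2 - (-8/17:ℝ)*c2) with g3 | g3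
        · have k1 := chord h1 g2 b1 (by norm_num) (by norm_num)
          have l1 := tang h1 (3/5:ℝ) (4/5:ℝ)
          have u1 := tang h1 (0:ℝ) (1:ℝ)
          have k2 := chord h2 g3 g1 (by norm_num) (by norm_num)
          have u2 := tang h2 (-3/5:ℝ) (-4/5:ℝ)
          linarith only [h1, h2, H.q1, hn, dxs, dys, b1, k1, k2, mul_nonneg dx g0,
            mul_nonneg dy y0, mul_nonneg dy g1, mul_nonneg g0 b1, mul_nonneg g0 u1,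
            mul_nonneg g0 g3, mul_nonneg g0 k2, mul_nonneg y0 b1, mul_nonneg y0 k1,
            mul_nonneg y0 g3, mul_nonneg y0 k2, mul_nonneg g2 k2, mul_nonneg k1 g1,
            mul_nonneg l1 k2, mul_nonneg u1 g3, mul_nonneg g3 g1, mul_nonneg g3 u2]
        · have k1 := chord h1 g2 b1 (by norm_num) (by norm_num)
          have l1 := tang h1 (3/5:ℝ) (4/5:ℝ)
          have u1 := tang h1 (0:ℝ) (1:ℝ)
          have k2 := chord h2 a2 g3 (by norm_num) (by norm_num)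
          have l2 := tang h2 (-1:ℝ) (0:ℝ)
          linarith only [h1, h2, H.q1, H.q6, hn, dxs, dys, mul_nonneg dx g0, mul_nonneg dx g2,
            mul_nonneg dx g3, mul_nonneg dy y0, mul_nonneg dy g2, mul_nonneg dy g3,
            mul_nonneg g0 k2, mul_nonneg x1 g2, mul_nonneg x1 l1, mul_nonneg y0 k1,
            mul_nonneg y0 k2, mul_nonneg y1 l1, mul_nonneg g2 b1, mul_nonneg g2 k1,
            mul_nonneg g2 k2, mul_nonneg b1 l2, mul_nonneg k1 g3, mul_nonneg l1 k2,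
            mul_nonneg u1 a2, mul_nonneg a2 g3, mul_nonneg g3 k2]
      · have k1 := chord h1 a1 g2 (by norm_num) (by norm_num)
        have l1 := tang h1 (1:ℝ) (0:ℝ)
        have u1 := tang h1 (3/5:ℝ) (4/5:ℝ)
        have k2 := chord h2 a2 g1 (by norm_num) (by norm_num)
        have l2 := tang h2 (-1:ℝ) (0:ℝ)
        have u2 := tang h2 (-3/5:ℝ) (-4/5:ℝ)
        have m2 := tang h2 (-57/64:ℝ) (-29/64:ℝ)
        linarith only [h1, h2, H.q1, H.q3, dxs, dys, mul_nonneg dx g0, mul_nonneg dx k1,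
          mul_nonneg dx l1, mul_nonneg dy y0, mul_nonneg dy u1, mul_nonneg g0 k2, mul_nonneg g0 l2,
          mul_nonneg y0 k1, mul_nonneg y0 a2, mul_nonneg y0 l2, mul_nonneg a1 a2, mul_nonneg a1 k2,
          mul_nonneg k1 k1, mul_nonneg k1 l1, mul_nonneg k1 u1, mul_nonneg l1 k2, mul_nonneg l1 l2,
          mul_nonneg k2 l2, mul_nonneg k2 m2, mul_nonneg l2 u2, mul_nonneg l2 m2]
  · have k1 := chord h1 a1 b1 (by norm_num) (by norm_num)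
    have u1 := tang h1 (0:ℝ) (1:ℝ)
    linarith only [h1, h2, H.q1, H.q2, H.q3, H.q4, H.q6, hn, g0, y1, mul_nonneg x0 g0,
      mul_nonneg x0 b1, mul_nonneg x0 u1, mul_nonneg g0 a1, mul_nonneg y0 y1, mul_nonneg y0 k1,
      mul_nonneg y1 u1]

theorem L3_03
    (h1 : c1^2 + s1^2 = 1) (h2 : c2^2 + s2^2 = 1)
    (H : SS X (-Y) c1 s1 c2 s2)
    (a1 : 0 ≤ (1:ℝ)*s1 - (0:ℝ)*c1) (b1 : 0 ≤ -((0:ℝ)*s1 - (1:ℝ)*c1))
    (a2 : 0 ≤ (0:ℝ)*s2 - (-1:ℝ)*c2) (b2 : 0 ≤ -((1:ℝ)*s2 - (0:ℝ)*c2))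
    (x0 : 0 ≤ X) (x1 : 0 ≤ 4 - X)
    (y0 : 0 ≤ Y) (y1 : 0 ≤ 4 - Y)
    (dxs : 0 < 6 - X - c1 - s1 - c2 + s2)
    (dys : 0 < 6 - Y - c1 - s1 - c2 + s2)
    (hn : 0 ≤ -13/25 - c1*c2 - s1*s2) : False := by
  have dx := dxs.le
  have dy := dys.le
  have k1 := chord h1 a1 b1 (by norm_num) (by norm_num)
  have l1 := tang h1 (1:ℝ) (0:ℝ)
  have u1 := tang h1 (0:ℝ) (1:ℝ)
  have k2 := chord h2 a2 b2 (by norm_num) (by norm_num)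
  have l2 := tang h2 (0:ℝ) (-1:ℝ)
  have u2 := tang h2 (1:ℝ) (0:ℝ)
  have m2 := tang h2 (45/64:ℝ) (-45/64:ℝ)
  linarith only [h1, h2, H.q3, dxs, dys, mul_nonneg dx x0, mul_nonneg dy y0, mul_nonneg dy u2,
    mul_nonneg x0 k1, mul_nonneg x0 u1, mul_nonneg x0 k2, mul_nonneg x1 l1, mul_nonneg y0 k1,
    mul_nonneg y0 k2, mul_nonneg y0 l2, mul_nonneg k1 b2, mul_nonneg k1 k2, mul_nonneg k1 m2,
    mul_nonneg l1 k2, mul_nonneg k2 k2, mul_nonneg k2 l2, mul_nonneg k2 u2]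

theorem L3_10
    (h1 : c1^2 + s1^2 = 1) (h2 : c2^2 + s2^2 = 1)
    (H : SS X (-Y) c1 s1 c2 s2)
    (a1 : 0 ≤ (0:ℝ)*s1 - (1:ℝ)*c1) (b1 : 0 ≤ -((-1:ℝ)*s1 - (0:ℝ)*c1))
    (a2 : 0 ≤ (1:ℝ)*s2 - (0:ℝ)*c2) (b2 : 0 ≤ -((0:ℝ)*s2 - (1:ℝ)*c2))
    (x0 : 0 ≤ X) (x1 : 0 ≤ 4 - X)
    (y0 : 0 ≤ Y) (y1 : 0 ≤ 4 - Y)
    (dxs : 0 < 6 - X + c1 - s1 - c2 - s2)
    (dys : 0 < 6 - Y + c1 - s1 - c2 - s2)
    (hn : 0 ≤ -13/25 - c1*c2 - s1*s2) : False := by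
  have dx := dxs.le
  have dy := dys.le
  rcases spl ((3/5:ℝ)*s2 - (4/5:ℝ)*c2) with g0 | g0
  · have k1 := chord h1 a1 b1 (by norm_num) (by norm_num)
    have u1 := tang h1 (-1:ℝ) (0:ℝ)
    have k2 := chord h2 g0 b2 (by norm_num) (by norm_num)
    have l2 := tang h2 (3/5:ℝ) (4/5:ℝ)
    linarith only [h1, h2, H.q6, H.q11, hn, dxs, dys, b1, k1, mul_nonneg dx x0, mul_nonneg dy y0,
      mul_nonneg x0 k1, mul_nonneg x0 k2, mul_nonneg x1 b1, mul_nonneg x1 g0, mul_nonneg x1 l2,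
      mul_nonneg y0 k2, mul_nonneg y1 k1, mul_nonneg y1 g0, mul_nonneg b1 b2, mul_nonneg b1 k2,
      mul_nonneg k1 g0, mul_nonneg u1 b2]
  · rcases spl ((-4/5:ℝ)*s1 - (3/5:ℝ)*c1) with g1 | g1
    · have k1 := chord h1 g1 b1 (by norm_num) (by norm_num)
      have l1 := tang h1 (-4/5:ℝ) (3/5:ℝ)
      have u1 := tang h1 (-1:ℝ) (0:ℝ)
      have m1 := tang h1 (-61/64:ℝ) (5/16:ℝ)
      have k2 := chord h2 a2 g0 (by norm_num) (by norm_num)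
      have l2 := tang h2 (1:ℝ) (0:ℝ)
      have u2 := tang h2 (3/5:ℝ) (4/5:ℝ)
      have m2 := tang h2 (57/64:ℝ) (29/64:ℝ)
      linarith only [h1, h2, H.q3, H.q11, dxs, dys, mul_nonneg dx x0, mul_nonneg dx b1,
        mul_nonneg dx u1, mul_nonneg dx a2, mul_nonneg dx l2, mul_nonneg dy y0, mul_nonneg dy l1,
        mul_nonneg dy u2, mul_nonneg y0 b1, mul_nonneg y0 u1, mul_nonneg y0 k2, mul_nonneg y1 u2,
        mul_nonneg g1 k1, mul_nonneg k1 m1, mul_nonneg k1 u2, mul_nonneg l1 u1, mul_nonneg l1 k2,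
        mul_nonneg u1 g0, mul_nonneg u1 u2, mul_nonneg g0 l2, mul_nonneg k2 k2, mul_nonneg k2 m2]
    · have k1 := chord h1 a1 g1 (by norm_num) (by norm_num)
      have k2 := chord h2 a2 g0 (by norm_num) (by norm_num)
      have l2 := tang h2 (1:ℝ) (0:ℝ)
      have u2 := tang h2 (3/5:ℝ) (4/5:ℝ)
      linarith only [h1, h2, H.q3, H.q6, H.q7, hn, dxs, x1, y1, mul_nonneg dx x0, mul_nonneg x0 g1,
        mul_nonneg x0 k1, mul_nonneg x0 g0, mul_nonneg x0 k2, mul_nonneg x1 a1, mul_nonneg x1 a2,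
        mul_nonneg y0 y1, mul_nonneg y0 k1, mul_nonneg y0 a2, mul_nonneg y0 k2, mul_nonneg y1 g0,
        mul_nonneg a1 g0, mul_nonneg g1 l2, mul_nonneg k1 u2]

theorem L3_11
    (h1 : c1^2 + s1^2 = 1) (h2 : c2^2 + s2^2 = 1)
    (H : SS X (-Y) c1 s1 c2 s2)
    (a1 : 0 ≤ (0:ℝ)*s1 - (1:ℝ)*c1) (b1 : 0 ≤ -((-1:ℝ)*s1 - (0:ℝ)*c1))
    (a2 : 0 ≤ (0:ℝ)*s2 - (1:ℝ)*c2) (b2 : 0 ≤ -((-1:ℝ)*s2 - (0:ℝ)*c2))
    (x0 : 0 ≤ X) (x1 : 0 ≤ 4 - X)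
    (y0 : 0 ≤ Y) (y1 : 0 ≤ 4 - Y)
    (dxs : 0 < 6 - X + c1 - s1 + c2 - s2)
    (dys : 0 < 6 - Y + c1 - s1 + c2 - s2)
    (hn : 0 ≤ -13/25 - c1*c2 - s1*s2) : False := by
  have dx := dxs.le
  have dy := dys.le
  have k1 := chord h1 a1 b1 (by norm_num) (by norm_num)
  have u1 := tang h1 (-1:ℝ) (0:ℝ)
  have k2 := chord h2 a2 b2 (by norm_num) (by norm_num)
  have u2 := tang h2 (-1:ℝ) (0:ℝ)
  linarith only [h1, h2, H.q6, H.q9, hn, x1, y1, mul_nonneg x0 x1, mul_nonneg x0 k1,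
    mul_nonneg x0 k2, mul_nonneg x1 a1, mul_nonneg x1 a2, mul_nonneg y0 y1, mul_nonneg y0 k1,
    mul_nonneg y0 k2, mul_nonneg b1 b2, mul_nonneg u1 u2]

theorem L3_12
    (h1 : c1^2 + s1^2 = 1) (h2 : c2^2 + s2^2 = 1)
    (H : SS X (-Y) c1 s1 c2 s2)
    (a1 : 0 ≤ (0:ℝ)*s1 - (1:ℝ)*c1) (b1 : 0 ≤ -((-1:ℝ)*s1 - (0:ℝ)*c1))
    (a2 : 0 ≤ (-1:ℝ)*s2 - (0:ℝ)*c2) (b2 : 0 ≤ -((0:ℝ)*s2 - (-1:ℝ)*c2))
    (x0 : 0 ≤ X) (x1 : 0 ≤ 4 - X)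
    (y0 : 0 ≤ Y) (y1 : 0 ≤ 4 - Y)
    (dxs : 0 < 6 - X + c1 - s1 + c2 + s2)
    (dys : 0 < 6 - Y + c1 - s1 + c2 + s2)
    (hn : 0 ≤ -13/25 - c1*c2 - s1*s2) : False := by
  have dx := dxs.le
  have dy := dys.le
  rcases spl ((-4/5:ℝ)*s1 - (3/5:ℝ)*c1) with g0 | g0
  · have k1 := chord h1 g0 b1 (by norm_num) (by norm_num)
    have l1 := tang h1 (-4/5:ℝ) (3/5:ℝ)
    have k2 := chord h2 a2 b2 (by norm_num) (by norm_num)
    have u2 := tang h2 (0:ℝ) (-1:ℝ)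
    linarith only [h1, h2, H.q7, H.q13, hn, dxs, dys, b2, k2, mul_nonneg dx x0, mul_nonneg dy y0,
      mul_nonneg x0 k1, mul_nonneg x0 k2, mul_nonneg x1 g0, mul_nonneg x1 l1, mul_nonneg x1 b2,
      mul_nonneg y0 k1, mul_nonneg y1 g0, mul_nonneg y1 b2, mul_nonneg y1 k2, mul_nonneg g0 k2,
      mul_nonneg b1 b2, mul_nonneg b1 u2, mul_nonneg k1 b2]
  · rcases spl ((-4/5:ℝ)*s2 - (-3/5:ℝ)*c2) with g1 | g1
    · rcases spl ((-8/17:ℝ)*s1 - (15/17:ℝ)*c1) with g2 | g2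
      · have k1 := chord h1 g2 g0 (by norm_num) (by norm_num)
        have u1 := tang h1 (-4/5:ℝ) (3/5:ℝ)
        have m1 := tang h1 (-21/32:ℝ) (49/64:ℝ)
        have k2 := chord h2 g1 b2 (by norm_num) (by norm_num)
        have u2 := tang h2 (0:ℝ) (-1:ℝ)
        have m2 := tang h2 (-29/64:ℝ) (-57/64:ℝ)
        linarith only [h1, h2, H.q5, H.q7, hn, dxs, dys, mul_nonneg dx x0, mul_nonneg dy y0,
          mul_nonneg x0 g0, mul_nonneg x0 k1, mul_nonneg x0 k2, mul_nonneg x1 g2, mul_nonneg x1 b2,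
          mul_nonneg y0 k1, mul_nonneg y0 k2, mul_nonneg y1 g0, mul_nonneg y1 b2, mul_nonneg g2 k2,
          mul_nonneg g0 m2, mul_nonneg k1 b2, mul_nonneg k1 u2, mul_nonneg u1 g1,
          mul_nonneg m1 g1]
      · have k1 := chord h1 a1 g2 (by norm_num) (by norm_num)
        have l1 := tang h1 (0:ℝ) (1:ℝ)
        have u1 := tang h1 (-8/17:ℝ) (15/17:ℝ)
        have k2 := chord h2 g1 b2 (by norm_num) (by norm_num)
        have l2 := tang h2 (-4/5:ℝ) (-3/5:ℝ)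
        have u2 := tang h2 (0:ℝ) (-1:ℝ)
        linarith only [h1, h2, H.q1, H.q3, H.q7, dxs, dys, mul_nonneg dx x0, mul_nonneg dx k1,
          mul_nonneg dx l1, mul_nonneg dx l2, mul_nonneg dy y0, mul_nonneg dy l1, mul_nonneg dy k2,
          mul_nonneg dy u2, mul_nonneg x0 k2, mul_nonneg y0 k1, mul_nonneg y0 k2, mul_nonneg k1 k1,
          mul_nonneg k1 l1, mul_nonneg k1 u1, mul_nonneg k1 k2, mul_nonneg k1 u2, mul_nonneg l1 k2,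
          mul_nonneg l1 l2, mul_nonneg u1 k2, mul_nonneg k2 u2]
    · have k1 := chord h1 a1 g0 (by norm_num) (by norm_num)
      have l1 := tang h1 (0:ℝ) (1:ℝ)
      have k2 := chord h2 a2 g1 (by norm_num) (by norm_num)
      have u2 := tang h2 (-4/5:ℝ) (-3/5:ℝ)
      linarith only [h1, h2, H.q1, H.q4, hn, dxs, dys, a1, mul_nonneg dx x0, mul_nonneg dy y0,
        mul_nonneg x0 k2, mul_nonneg x1 a1, mul_nonneg x1 k1, mul_nonneg x1 g1, mul_nonneg y0 k1,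
        mul_nonneg y0 k2, mul_nonneg y1 a1, mul_nonneg y1 g1, mul_nonneg y1 u2, mul_nonneg a1 a2,
        mul_nonneg a1 k2, mul_nonneg k1 g1, mul_nonneg l1 a2, mul_nonneg l1 k2]

theorem L3_13
    (h1 : c1^2 + s1^2 = 1) (h2 : c2^2 + s2^2 = 1)
    (H : SS X (-Y) c1 s1 c2 s2)
    (a1 : 0 ≤ (0:ℝ)*s1 - (1:ℝ)*c1) (b1 : 0 ≤ -((-1:ℝ)*s1 - (0:ℝ)*c1))
    (a2 : 0 ≤ (0:ℝ)*s2 - (-1:ℝ)*c2) (b2 : 0 ≤ -((1:ℝ)*s2 - (0:ℝ)*c2))
    (x0 : 0 ≤ X) (x1 : 0 ≤ 4 - X)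
    (y0 : 0 ≤ Y) (y1 : 0 ≤ 4 - Y)
    (dxs : 0 < 6 - X + c1 - s1 - c2 + s2)
    (dys : 0 < 6 - Y + c1 - s1 - c2 + s2)
    (hn : 0 ≤ -13/25 - c1*c2 - s1*s2) : False := by
  have dx := dxs.le
  have dy := dys.le
  rcases spl ((-4/5:ℝ)*s1 - (3/5:ℝ)*c1) with g0 | g0
  · rcases spl ((3/5:ℝ)*s2 - (-4/5:ℝ)*c2) with g1 | g1
    · have k1 := chord h1 g0 b1 (by norm_num) (by norm_num)
      have l1 := tang h1 (-4/5:ℝ) (3/5:ℝ)
      have u1 := tang h1 (-1:ℝ) (0:ℝ)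
      have m1 := tang h1 (-61/64:ℝ) (5/16:ℝ)
      have k2 := chord h2 g1 b2 (by norm_num) (by norm_num)
      have l2 := tang h2 (3/5:ℝ) (-4/5:ℝ)
      have u2 := tang h2 (1:ℝ) (0:ℝ)
      have m2 := tang h2 (57/64:ℝ) (-29/64:ℝ)
      linarith only [h1, h2, H.q3, H.q7, dxs, dys, mul_nonneg dx x0, mul_nonneg dx l2,
        mul_nonneg dy y0, mul_nonneg dy k2, mul_nonneg dy u2, mul_nonneg x0 k1, mul_nonneg x0 u1,
        mul_nonneg x0 k2, mul_nonneg y0 k1, mul_nonneg y0 u1, mul_nonneg b1 m1, mul_nonneg k1 k1,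
        mul_nonneg k1 l1, mul_nonneg k1 u1, mul_nonneg k1 k2, mul_nonneg k1 u2, mul_nonneg l1 k2,
        mul_nonneg u1 k2, mul_nonneg u1 u2, mul_nonneg k2 l2, mul_nonneg k2 m2]
    · have k1 := chord h1 g0 b1 (by norm_num) (by norm_num)
      have l1 := tang h1 (-4/5:ℝ) (3/5:ℝ)
      have u1 := tang h1 (-1:ℝ) (0:ℝ)
      have k2 := chord h2 a2 g1 (by norm_num) (by norm_num)
      have l2 := tang h2 (0:ℝ) (-1:ℝ)
      have u2 := tang h2 (3/5:ℝ) (-4/5:ℝ)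
      have m2 := tang h2 (5/16:ℝ) (-61/64:ℝ)
      linarith only [h1, h2, H.q7, hn, mul_nonneg dx dy, mul_nonneg dx x0, mul_nonneg dx y0,
        mul_nonneg dx g0, mul_nonneg dx g1, mul_nonneg dx u2, mul_nonneg dy x0, mul_nonneg dy y0,
        mul_nonneg dy g0, mul_nonneg dy l1, mul_nonneg dy g1, mul_nonneg dy u2, mul_nonneg x0 k1,
        mul_nonneg x0 k2, mul_nonneg x1 l1, mul_nonneg x1 u2, mul_nonneg x1 m2, mul_nonneg y0 k1,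
        mul_nonneg g0 k1, mul_nonneg g0 k2, mul_nonneg b1 l2, mul_nonneg k1 g1, mul_nonneg k1 u2,
        mul_nonneg u1 a2, mul_nonneg g1 k2]
  · have k1 := chord h1 a1 g0 (by norm_num) (by norm_num)
    have l1 := tang h1 (0:ℝ) (1:ℝ)
    have u1 := tang h1 (-4/5:ℝ) (3/5:ℝ)
    have m1 := tang h1 (-29/64:ℝ) (57/64:ℝ)
    have k2 := chord h2 a2 b2 (by norm_num) (by norm_num)
    have l2 := tang h2 (0:ℝ) (-1:ℝ)
    have u2 := tang h2 (1:ℝ) (0:ℝ)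
    have m2 := tang h2 (45/64:ℝ) (-45/64:ℝ)
    linarith only [h1, h2, H.q3, H.q7, dxs, dys, mul_nonneg dx x0, mul_nonneg dx k1,
      mul_nonneg dx l1, mul_nonneg dy y0, mul_nonneg dy u1, mul_nonneg dy u2, mul_nonneg x0 k2,
      mul_nonneg y0 k1, mul_nonneg y0 k2, mul_nonneg y0 l2, mul_nonneg k1 l1, mul_nonneg k1 u1,
      mul_nonneg k1 b2, mul_nonneg l1 u1, mul_nonneg l1 k2, mul_nonneg u1 l2, mul_nonneg m1 k2,
      mul_nonneg b2 k2, mul_nonneg k2 m2, mul_nonneg l2 u2]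

theorem L3_20
    (h1 : c1^2 + s1^2 = 1) (h2 : c2^2 + s2^2 = 1)
    (H : SS X (-Y) c1 s1 c2 s2)
    (a1 : 0 ≤ (-1:ℝ)*s1 - (0:ℝ)*c1) (b1 : 0 ≤ -((0:ℝ)*s1 - (-1:ℝ)*c1))
    (a2 : 0 ≤ (1:ℝ)*s2 - (0:ℝ)*c2) (b2 : 0 ≤ -((0:ℝ)*s2 - (1:ℝ)*c2))
    (x0 : 0 ≤ X) (x1 : 0 ≤ 4 - X)
    (y0 : 0 ≤ Y) (y1 : 0 ≤ 4 - Y)
    (dxs : 0 < 6 - X + c1 + s1 - c2 - s2)
    (dys : 0 < 6 - Y + c1 + s1 - c2 - s2)
    (hn : 0 ≤ -13/25 - c1*c2 - s1*s2) : False := by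
  have dx := dxs.le
  have dy := dys.le
  rcases spl ((-3/5:ℝ)*s1 - (-4/5:ℝ)*c1) with g0 | g0
  · have k1 := chord h1 g0 b1 (by norm_num) (by norm_num)
    have l1 := tang h1 (-3/5:ℝ) (-4/5:ℝ)
    have u1 := tang h1 (0:ℝ) (-1:ℝ)
    have k2 := chord h2 a2 b2 (by norm_num) (by norm_num)
    have l2 := tang h2 (1:ℝ) (0:ℝ)
    have u2 := tang h2 (0:ℝ) (1:ℝ)
    linarith only [h1, h2, H.q3, H.q11, dxs, dys, mul_nonneg dx x0, mul_nonneg dx b1,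
      mul_nonneg dx l2, mul_nonneg dy y0, mul_nonneg dy k1, mul_nonneg dy u1, mul_nonneg x0 k1,
      mul_nonneg x0 k2, mul_nonneg x0 u2, mul_nonneg y0 k2, mul_nonneg k1 k1, mul_nonneg k1 l1,
      mul_nonneg k1 u1, mul_nonneg k1 a2, mul_nonneg k1 k2, mul_nonneg l1 k2, mul_nonneg u1 k2,
      mul_nonneg u1 u2, mul_nonneg k2 l2]
  · rcases spl ((3/5:ℝ)*s2 - (4/5:ℝ)*c2) with g1 | g1
    · rcases spl ((-15/17:ℝ)*s1 - (-8/17:ℝ)*c1) with g2 | g2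
      · have k1 := chord h1 g2 g0 (by norm_num) (by norm_num)
        have u1 := tang h1 (-3/5:ℝ) (-4/5:ℝ)
        have k2 := chord h2 g1 b2 (by norm_num) (by norm_num)
        have l2 := tang h2 (3/5:ℝ) (4/5:ℝ)
        have u2 := tang h2 (0:ℝ) (1:ℝ)
        linarith only [h1, h2, H.q11, hn, dxs, dys, mul_nonneg dx x0, mul_nonneg dx g0,
          mul_nonneg dx g1, mul_nonneg dy y0, mul_nonneg dy g0, mul_nonneg x0 k1, mul_nonneg x0 b2,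
          mul_nonneg x0 u2, mul_nonneg x1 k2, mul_nonneg y0 g2, mul_nonneg y0 k1, mul_nonneg y0 b2,
          mul_nonneg y0 k2, mul_nonneg g2 g0, mul_nonneg g2 u1, mul_nonneg g2 u2, mul_nonneg g0 k1,
          mul_nonneg g0 k2, mul_nonneg k1 g1, mul_nonneg k1 l2, mul_nonneg g1 b2,
          mul_nonneg b2 l2]
      · have k1 := chord h1 a1 g2 (by norm_num) (by norm_num)
        have l1 := tang h1 (-1:ℝ) (0:ℝ)
        have u1 := tang h1 (-15/17:ℝ) (-8/17:ℝ)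
        have k2 := chord h2 g1 b2 (by norm_num) (by norm_num)
        have l2 := tang h2 (3/5:ℝ) (4/5:ℝ)
        linarith only [h1, h2, H.q6, H.q11, hn, dxs, dys, mul_nonneg dx x0, mul_nonneg dx g2,
          mul_nonneg dx g1, mul_nonneg dy y0, mul_nonneg dy g2, mul_nonneg x0 k1, mul_nonneg x0 k2,
          mul_nonneg x1 g1, mul_nonneg x1 l2, mul_nonneg y0 k1, mul_nonneg y1 g1, mul_nonneg y1 l2,
          mul_nonneg a1 g2, mul_nonneg g2 k1, mul_nonneg g2 k2, mul_nonneg k1 g1, mul_nonneg k1 l2,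
          mul_nonneg l1 u1, mul_nonneg l1 b2, mul_nonneg g1 b2, mul_nonneg g1 k2]
    · have k1 := chord h1 a1 g0 (by norm_num) (by norm_num)
      have l1 := tang h1 (-1:ℝ) (0:ℝ)
      have u1 := tang h1 (-3/5:ℝ) (-4/5:ℝ)
      have m1 := tang h1 (-57/64:ℝ) (-29/64:ℝ)
      have k2 := chord h2 a2 g1 (by norm_num) (by norm_num)
      have l2 := tang h2 (1:ℝ) (0:ℝ)
      have u2 := tang h2 (3/5:ℝ) (4/5:ℝ)
      linarith only [h1, h2, H.q3, H.q11, dxs, dys, mul_nonneg dx x0, mul_nonneg dx k2,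
        mul_nonneg dx l2, mul_nonneg dy y0, mul_nonneg dy u2, mul_nonneg x0 a1, mul_nonneg x0 k1,
        mul_nonneg y0 a1, mul_nonneg y0 l1, mul_nonneg y0 k2, mul_nonneg a1 a2, mul_nonneg k1 l1,
        mul_nonneg k1 u1, mul_nonneg k1 a2, mul_nonneg k1 l2, mul_nonneg l1 u1, mul_nonneg l1 m1,
        mul_nonneg l1 l2, mul_nonneg k2 l2, mul_nonneg k2 u2, mul_nonneg l2 u2]

theorem L3_21
    (h1 : c1^2 + s1^2 = 1) (h2 : c2^2 + s2^2 = 1)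
    (H : SS X (-Y) c1 s1 c2 s2)
    (a1 : 0 ≤ (-1:ℝ)*s1 - (0:ℝ)*c1) (b1 : 0 ≤ -((0:ℝ)*s1 - (-1:ℝ)*c1))
    (a2 : 0 ≤ (0:ℝ)*s2 - (1:ℝ)*c2) (b2 : 0 ≤ -((-1:ℝ)*s2 - (0:ℝ)*c2))
    (x0 : 0 ≤ X) (x1 : 0 ≤ 4 - X)
    (y0 : 0 ≤ Y) (y1 : 0 ≤ 4 - Y)
    (dxs : 0 < 6 - X + c1 + s1 + c2 - s2)
    (dys : 0 < 6 - Y + c1 + s1 + c2 - s2)
    (hn : 0 ≤ -13/25 - c1*c2 - s1*s2) : False := by
  have dx := dxs.le
  have dy := dys.le
  rcases spl ((-4/5:ℝ)*s2 - (3/5:ℝ)*c2) with g0 | g0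
  · have k1 := chord h1 a1 b1 (by norm_num) (by norm_num)
    have u1 := tang h1 (0:ℝ) (-1:ℝ)
    have k2 := chord h2 g0 b2 (by norm_num) (by norm_num)
    have l2 := tang h2 (-4/5:ℝ) (3/5:ℝ)
    linarith only [h1, h2, H.q2, H.q8, hn, dxs, dys, b1, k1, mul_nonneg dx x0, mul_nonneg dy y0,
      mul_nonneg x0 k1, mul_nonneg x0 k2, mul_nonneg x1 b1, mul_nonneg x1 g0, mul_nonneg x1 l2,
      mul_nonneg y0 k2, mul_nonneg y1 b1, mul_nonneg y1 k1, mul_nonneg y1 g0, mul_nonneg b1 b2,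
      mul_nonneg b1 k2, mul_nonneg k1 g0, mul_nonneg u1 b2]
  · rcases spl ((-4/5:ℝ)*s1 - (-3/5:ℝ)*c1) with g1 | g1
    · rcases spl ((-5/13:ℝ)*s1 - (-12/13:ℝ)*c1) with g2 | g2
      · have k1 := chord h1 g2 b1 (by norm_num) (by norm_num)
        have l1 := tang h1 (-5/13:ℝ) (-12/13:ℝ)
        have u1 := tang h1 (0:ℝ) (-1:ℝ)
        have m1 := tang h1 (-13/64:ℝ) (-63/64:ℝ)
        have k2 := chord h2 a2 g0 (by norm_num) (by norm_num)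
        have l2 := tang h2 (0:ℝ) (1:ℝ)
        have u2 := tang h2 (-4/5:ℝ) (3/5:ℝ)
        have m2 := tang h2 (-29/64:ℝ) (57/64:ℝ)
        linarith only [h1, h2, H.q2, H.q3, H.q11, dxs, dys, mul_nonneg dx x0, mul_nonneg dx b1,
          mul_nonneg dx u1, mul_nonneg dx l2, mul_nonneg dy y0, mul_nonneg dy b1, mul_nonneg dy k1,
          mul_nonneg dy u2, mul_nonneg x1 k2, mul_nonneg y0 k2, mul_nonneg g2 k2, mul_nonneg b1 k2,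
          mul_nonneg k1 k1, mul_nonneg k1 l1, mul_nonneg k1 u1, mul_nonneg k1 k2, mul_nonneg u1 g0,
          mul_nonneg m1 k2, mul_nonneg g0 l2, mul_nonneg k2 m2]
      · have k1 := chord h1 g1 g2 (by norm_num) (by norm_num)
        have l1 := tang h1 (-4/5:ℝ) (-3/5:ℝ)
        have m1 := tang h1 (-39/64:ℝ) (-51/64:ℝ)
        have k2 := chord h2 a2 g0 (by norm_num) (by norm_num)
        have l2 := tang h2 (0:ℝ) (1:ℝ)
        have m2 := tang h2 (-29/64:ℝ) (57/64:ℝ)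
        linarith only [h1, h2, H.q2, H.q10, H.q11, hn, dxs, dys, mul_nonneg dx x0,
          mul_nonneg dx g1, mul_nonneg dy y0, mul_nonneg dy g2, mul_nonneg x0 k1, mul_nonneg x1 a2,
          mul_nonneg y0 g1, mul_nonneg y0 k1, mul_nonneg y0 k2, mul_nonneg y1 g2, mul_nonneg y1 a2,
          mul_nonneg y1 l2, mul_nonneg g1 g2, mul_nonneg g1 m2, mul_nonneg g2 k2, mul_nonneg k1 a2,
          mul_nonneg l1 g0, mul_nonneg m1 g0]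
    · have k1 := chord h1 a1 g1 (by norm_num) (by norm_num)
      have u1 := tang h1 (-4/5:ℝ) (-3/5:ℝ)
      have k2 := chord h2 a2 g0 (by norm_num) (by norm_num)
      have l2 := tang h2 (0:ℝ) (1:ℝ)
      linarith only [h1, h2, H.q11, H.q14, hn, dxs, dys, a2, mul_nonneg dx x0, mul_nonneg dy y0,
        mul_nonneg x0 k1, mul_nonneg x1 g1, mul_nonneg x1 a2, mul_nonneg x1 k2, mul_nonneg y0 k1,
        mul_nonneg y0 k2, mul_nonneg y1 g1, mul_nonneg y1 u1, mul_nonneg y1 a2, mul_nonneg a1 a2,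
        mul_nonneg a1 l2, mul_nonneg g1 k2, mul_nonneg k1 a2, mul_nonneg k1 l2]

theorem L3_22
    (h1 : c1^2 + s1^2 = 1) (h2 : c2^2 + s2^2 = 1)
    (H : SS X (-Y) c1 s1 c2 s2)
    (a1 : 0 ≤ (-1:ℝ)*s1 - (0:ℝ)*c1) (b1 : 0 ≤ -((0:ℝ)*s1 - (-1:ℝ)*c1))
    (a2 : 0 ≤ (-1:ℝ)*s2 - (0:ℝ)*c2) (b2 : 0 ≤ -((0:ℝ)*s2 - (-1:ℝ)*c2))
    (x0 : 0 ≤ X) (x1 : 0 ≤ 4 - X)
    (y0 : 0 ≤ Y) (y1 : 0 ≤ 4 - Y)
    (dxs : 0 < 6 - X + c1 + s1 + c2 + s2)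
    (dys : 0 < 6 - Y + c1 + s1 + c2 + s2)
    (hn : 0 ≤ -13/25 - c1*c2 - s1*s2) : False := by
  have dx := dxs.le
  have dy := dys.le
  have k1 := chord h1 a1 b1 (by norm_num) (by norm_num)
  have l1 := tang h1 (-1:ℝ) (0:ℝ)
  have k2 := chord h2 a2 b2 (by norm_num) (by norm_num)
  have l2 := tang h2 (-1:ℝ) (0:ℝ)
  linarith only [h1, h2, H.q6, H.q9, hn, x1, y1, mul_nonneg x0 x1, mul_nonneg x0 k1,
    mul_nonneg x0 k2, mul_nonneg y0 y1, mul_nonneg y0 k1, mul_nonneg y0 k2, mul_nonneg y1 b1,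
    mul_nonneg y1 b2, mul_nonneg a1 a2, mul_nonneg l1 l2]

theorem L3_23
    (h1 : c1^2 + s1^2 = 1) (h2 : c2^2 + s2^2 = 1)
    (H : SS X (-Y) c1 s1 c2 s2)
    (a1 : 0 ≤ (-1:ℝ)*s1 - (0:ℝ)*c1) (b1 : 0 ≤ -((0:ℝ)*s1 - (-1:ℝ)*c1))
    (a2 : 0 ≤ (0:ℝ)*s2 - (-1:ℝ)*c2) (b2 : 0 ≤ -((1:ℝ)*s2 - (0:ℝ)*c2))
    (x0 : 0 ≤ X) (x1 : 0 ≤ 4 - X)
    (y0 : 0 ≤ Y) (y1 : 0 ≤ 4 - Y)
    (dxs : 0 < 6 - X + c1 + s1 - c2 + s2)
    (dys : 0 < 6 - Y + c1 + s1 - c2 + s2)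
    (hn : 0 ≤ -13/25 - c1*c2 - s1*s2) : False := by
  have dx := dxs.le
  have dy := dys.le
  rcases spl ((3/5:ℝ)*s2 - (-4/5:ℝ)*c2) with g0 | g0
  · rcases spl ((-3/5:ℝ)*s1 - (-4/5:ℝ)*c1) with g1 | g1
    · have k1 := chord h1 g1 b1 (by norm_num) (by norm_num)
      have l1 := tang h1 (-3/5:ℝ) (-4/5:ℝ)
      have m1 := tang h1 (-5/16:ℝ) (-61/64:ℝ)
      have k2 := chord h2 g0 b2 (by norm_num) (by norm_num)
      have l2 := tang h2 (3/5:ℝ) (-4/5:ℝ)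
      linarith only [h1, h2, H.q3, H.q9, H.q11, H.q14, hn, dys, x1, y1, mul_nonneg dy y0,
        mul_nonneg x0 x1, mul_nonneg x0 k1, mul_nonneg x0 b2, mul_nonneg y0 g1, mul_nonneg y0 k1,
        mul_nonneg y0 g0, mul_nonneg y0 k2, mul_nonneg y1 b1, mul_nonneg y1 b2, mul_nonneg b1 g0,
        mul_nonneg k1 l2, mul_nonneg l1 k2, mul_nonneg m1 k2]
    · have k1 := chord h1 a1 g1 (by norm_num) (by norm_num)
      have l1 := tang h1 (-1:ℝ) (0:ℝ)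
      have u1 := tang h1 (-3/5:ℝ) (-4/5:ℝ)
      have k2 := chord h2 g0 b2 (by norm_num) (by norm_num)
      have l2 := tang h2 (3/5:ℝ) (-4/5:ℝ)
      have u2 := tang h2 (1:ℝ) (0:ℝ)
      have m2 := tang h2 (57/64:ℝ) (-29/64:ℝ)
      linarith only [h1, h2, H.q3, H.q7, dxs, dys, mul_nonneg dx x0, mul_nonneg dx k1,
        mul_nonneg dx u1, mul_nonneg dx l2, mul_nonneg dy y0, mul_nonneg dy k1, mul_nonneg dy l1,
        mul_nonneg dy k2, mul_nonneg dy u2, mul_nonneg x0 a1, mul_nonneg x0 k2, mul_nonneg k1 l1,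
        mul_nonneg k1 u1, mul_nonneg k1 l2, mul_nonneg k1 m2, mul_nonneg l1 u1, mul_nonneg l1 k2,
        mul_nonneg l1 l2, mul_nonneg k2 k2, mul_nonneg k2 u2, mul_nonneg k2 m2]
  · have k1 := chord h1 a1 b1 (by norm_num) (by norm_num)
    have l1 := tang h1 (-1:ℝ) (0:ℝ)
    have k2 := chord h2 a2 g0 (by norm_num) (by norm_num)
    have u2 := tang h2 (3/5:ℝ) (-4/5:ℝ)
    linarith only [h1, h2, H.q7, H.q9, hn, dxs, dys, a1, k1, mul_nonneg dx x0, mul_nonneg dy y0,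
      mul_nonneg x0 k2, mul_nonneg x1 k1, mul_nonneg x1 g0, mul_nonneg y0 k1, mul_nonneg y0 k2,
      mul_nonneg y1 a1, mul_nonneg y1 g0, mul_nonneg y1 u2, mul_nonneg a1 a2, mul_nonneg a1 k2,
      mul_nonneg k1 g0, mul_nonneg l1 a2]

theorem L3_30
    (h1 : c1^2 + s1^2 = 1) (h2 : c2^2 + s2^2 = 1)
    (H : SS X (-Y) c1 s1 c2 s2)
    (a1 : 0 ≤ (0:ℝ)*s1 - (-1:ℝ)*c1) (b1 : 0 ≤ -((1:ℝ)*s1 - (0:ℝ)*c1))
    (a2 : 0 ≤ (1:ℝ)*s2 - (0:ℝ)*c2) (b2 : 0 ≤ -((0:ℝ)*s2 - (1:ℝ)*c2))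
    (x0 : 0 ≤ X) (x1 : 0 ≤ 4 - X)
    (y0 : 0 ≤ Y) (y1 : 0 ≤ 4 - Y)
    (dxs : 0 < 6 - X - c1 + s1 - c2 - s2)
    (dys : 0 < 6 - Y - c1 + s1 - c2 - s2)
    (hn : 0 ≤ -13/25 - c1*c2 - s1*s2) : False := by
  have dx := dxs.le
  have dy := dys.le
  have k1 := chord h1 a1 b1 (by norm_num) (by norm_num)
  have l1 := tang h1 (0:ℝ) (-1:ℝ)
  have u1 := tang h1 (1:ℝ) (0:ℝ)
  have k2 := chord h2 a2 b2 (by norm_num) (by norm_num)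
  have l2 := tang h2 (1:ℝ) (0:ℝ)
  have u2 := tang h2 (0:ℝ) (1:ℝ)
  have m2 := tang h2 (45/64:ℝ) (45/64:ℝ)
  linarith only [h1, h2, H.q3, dxs, dys, mul_nonneg dx x0, mul_nonneg dx l2, mul_nonneg dy y0,
    mul_nonneg dy u1, mul_nonneg x0 k1, mul_nonneg x0 k2, mul_nonneg x0 u2, mul_nonneg y0 k1,
    mul_nonneg y0 l1, mul_nonneg y0 k2, mul_nonneg a1 u1, mul_nonneg k1 l1, mul_nonneg k1 a2,
    mul_nonneg k1 l2, mul_nonneg k1 u2, mul_nonneg u1 k2, mul_nonneg a2 k2, mul_nonneg k2 k2,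
    mul_nonneg k2 m2]

theorem L3_31
    (h1 : c1^2 + s1^2 = 1) (h2 : c2^2 + s2^2 = 1)
    (H : SS X (-Y) c1 s1 c2 s2)
    (a1 : 0 ≤ (0:ℝ)*s1 - (-1:ℝ)*c1) (b1 : 0 ≤ -((1:ℝ)*s1 - (0:ℝ)*c1))
    (a2 : 0 ≤ (0:ℝ)*s2 - (1:ℝ)*c2) (b2 : 0 ≤ -((-1:ℝ)*s2 - (0:ℝ)*c2))
    (x0 : 0 ≤ X) (x1 : 0 ≤ 4 - X)
    (y0 : 0 ≤ Y) (y1 : 0 ≤ 4 - Y)
    (dxs : 0 < 6 - X - c1 + s1 + c2 - s2)
    (dys : 0 < 6 - Y - c1 + s1 + c2 - s2)
    (hn : 0 ≤ -13/25 - c1*c2 - s1*s2) : False := by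
  have dx := dxs.le
  have dy := dys.le
  rcases spl ((4/5:ℝ)*s1 - (-3/5:ℝ)*c1) with g0 | g0
  · have k1 := chord h1 g0 b1 (by norm_num) (by norm_num)
    have l1 := tang h1 (4/5:ℝ) (-3/5:ℝ)
    have u1 := tang h1 (1:ℝ) (0:ℝ)
    have k2 := chord h2 a2 b2 (by norm_num) (by norm_num)
    have l2 := tang h2 (0:ℝ) (1:ℝ)
    have u2 := tang h2 (-1:ℝ) (0:ℝ)
    linarith only [h1, h2, H.q3, dxs, dys, mul_nonneg dx x0, mul_nonneg dx l1, mul_nonneg dx k2,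
      mul_nonneg dy y0, mul_nonneg dy k1, mul_nonneg dy u1, mul_nonneg dy l2, mul_nonneg x0 k1,
      mul_nonneg x0 u1, mul_nonneg y0 k2, mul_nonneg y0 u2, mul_nonneg k1 k1, mul_nonneg k1 l1,
      mul_nonneg k1 u1, mul_nonneg k1 k2, mul_nonneg k1 u2, mul_nonneg l1 k2, mul_nonneg u1 k2,
      mul_nonneg u1 u2, mul_nonneg k2 k2, mul_nonneg k2 l2]
  · rcases spl ((-4/5:ℝ)*s2 - (3/5:ℝ)*c2) with g1 | g1
    · rcases spl ((8/17:ℝ)*s1 - (-15/17:ℝ)*c1) with g2 | g2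
      · have k1 := chord h1 g2 g0 (by norm_num) (by norm_num)
        have k2 := chord h2 g1 b2 (by norm_num) (by norm_num)
        have l2 := tang h2 (-4/5:ℝ) (3/5:ℝ)
        linarith only [h1, h2, H.q2, H.q9, hn, dxs, dys, k1, b2, k2, mul_nonneg dx x0,
          mul_nonneg dx g2, mul_nonneg dy x0, mul_nonneg dy y0, mul_nonneg dy g0, mul_nonneg x0 k1,
          mul_nonneg x0 b2, mul_nonneg x0 k2, mul_nonneg x1 y1, mul_nonneg y0 k1, mul_nonneg y0 b2,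
          mul_nonneg y0 k2, mul_nonneg y1 g0, mul_nonneg g2 g0, mul_nonneg g0 k2, mul_nonneg k1 g1,
          mul_nonneg k1 l2]
      · have k1 := chord h1 a1 g2 (by norm_num) (by norm_num)
        have l1 := tang h1 (0:ℝ) (-1:ℝ)
        have u1 := tang h1 (8/17:ℝ) (-15/17:ℝ)
        have k2 := chord h2 g1 b2 (by norm_num) (by norm_num)
        have l2 := tang h2 (-4/5:ℝ) (3/5:ℝ)
        linarith only [h1, h2, H.q2, hn, dxs, dys, mul_nonneg dx x0, mul_nonneg dx g2,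
          mul_nonneg dx g1, mul_nonneg dy y0, mul_nonneg dy g2, mul_nonneg x0 k1, mul_nonneg x1 u1,
          mul_nonneg x1 g1, mul_nonneg x1 l2, mul_nonneg y0 k2, mul_nonneg y1 u1, mul_nonneg y1 g1,
          mul_nonneg y1 l2, mul_nonneg a1 g2, mul_nonneg g2 k1, mul_nonneg g2 k2, mul_nonneg k1 k1,
          mul_nonneg k1 l2, mul_nonneg l1 b2, mul_nonneg u1 k2, mul_nonneg g1 b2,
          mul_nonneg g1 k2]
    · have k1 := chord h1 a1 g0 (by norm_num) (by norm_num)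
      have l1 := tang h1 (0:ℝ) (-1:ℝ)
      have u1 := tang h1 (4/5:ℝ) (-3/5:ℝ)
      have k2 := chord h2 a2 g1 (by norm_num) (by norm_num)
      have l2 := tang h2 (0:ℝ) (1:ℝ)
      have u2 := tang h2 (-4/5:ℝ) (3/5:ℝ)
      linarith only [h1, h2, H.q2, H.q3, dxs, dys, mul_nonneg dx x0, mul_nonneg dx k2,
        mul_nonneg dx l2, mul_nonneg dy y0, mul_nonneg dy k1, mul_nonneg dy u1, mul_nonneg dy u2,
        mul_nonneg x0 a1, mul_nonneg x0 k1, mul_nonneg y0 a1, mul_nonneg y0 k2, mul_nonneg a1 a2,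
        mul_nonneg g0 k2, mul_nonneg k1 l1, mul_nonneg k1 u1, mul_nonneg k1 a2, mul_nonneg k1 l2,
        mul_nonneg l1 u1, mul_nonneg k2 k2, mul_nonneg k2 l2, mul_nonneg k2 u2]

theorem L3_32
    (h1 : c1^2 + s1^2 = 1) (h2 : c2^2 + s2^2 = 1)
    (H : SS X (-Y) c1 s1 c2 s2)
    (a1 : 0 ≤ (0:ℝ)*s1 - (-1:ℝ)*c1) (b1 : 0 ≤ -((1:ℝ)*s1 - (0:ℝ)*c1))
    (a2 : 0 ≤ (-1:ℝ)*s2 - (0:ℝ)*c2) (b2 : 0 ≤ -((0:ℝ)*s2 - (-1:ℝ)*c2))
    (x0 : 0 ≤ X) (x1 : 0 ≤ 4 - X)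
    (y0 : 0 ≤ Y) (y1 : 0 ≤ 4 - Y)
    (dxs : 0 < 6 - X - c1 + s1 + c2 + s2)
    (dys : 0 < 6 - Y - c1 + s1 + c2 + s2)
    (hn : 0 ≤ -13/25 - c1*c2 - s1*s2) : False := by
  have dx := dxs.le
  have dy := dys.le
  rcases spl ((3/5:ℝ)*s1 - (-4/5:ℝ)*c1) with g0 | g0
  · rcases spl ((12/13:ℝ)*s1 - (-5/13:ℝ)*c1) with g1 | g1
    · have k1 := chord h1 g1 b1 (by norm_num) (by norm_num)
      have l1 := tang h1 (12/13:ℝ) (-5/13:ℝ)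
      have u1 := tang h1 (1:ℝ) (0:ℝ)
      have m1 := tang h1 (63/64:ℝ) (-13/64:ℝ)
      have k2 := chord h2 a2 b2 (by norm_num) (by norm_num)
      have l2 := tang h2 (-1:ℝ) (0:ℝ)
      have u2 := tang h2 (0:ℝ) (-1:ℝ)
      linarith only [h1, h2, H.q3, dxs, dys, mul_nonneg dx x0, mul_nonneg dx u2, mul_nonneg dy y0,
        mul_nonneg dy u1, mul_nonneg dy k2, mul_nonneg x0 b1, mul_nonneg x0 k1, mul_nonneg x0 a2,
        mul_nonneg x0 l2, mul_nonneg x1 l1, mul_nonneg y1 k1, mul_nonneg g1 k1, mul_nonneg b1 k1,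
        mul_nonneg k1 k1, mul_nonneg k1 l1, mul_nonneg k1 k2, mul_nonneg l1 l2, mul_nonneg u1 b2,
        mul_nonneg u1 u2, mul_nonneg m1 k2, mul_nonneg b2 k2, mul_nonneg k2 u2]
    · have k1 := chord h1 g0 g1 (by norm_num) (by norm_num)
      have u1 := tang h1 (12/13:ℝ) (-5/13:ℝ)
      have k2 := chord h2 a2 b2 (by norm_num) (by norm_num)
      have u2 := tang h2 (0:ℝ) (-1:ℝ)
      linarith only [h1, h2, H.q1, H.q2, H.q3, H.q9, dxs, dys, k1, k2, mul_nonneg dx x0,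
        mul_nonneg dx g0, mul_nonneg dx b2, mul_nonneg dy y0, mul_nonneg dy g1, mul_nonneg x0 k1,
        mul_nonneg x0 k2, mul_nonneg x1 g0, mul_nonneg y0 k1, mul_nonneg y0 k2, mul_nonneg y1 g1,
        mul_nonneg g0 g1, mul_nonneg g0 u1, mul_nonneg g0 a2, mul_nonneg k1 b2, mul_nonneg k1 u2,
        mul_nonneg a2 b2, mul_nonneg a2 u2]
  · have k1 := chord h1 a1 g0 (by norm_num) (by norm_num)
    have u1 := tang h1 (3/5:ℝ) (-4/5:ℝ)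
    have k2 := chord h2 a2 b2 (by norm_num) (by norm_num)
    have l2 := tang h2 (-1:ℝ) (0:ℝ)
    linarith only [h1, h2, H.q2, H.q9, hn, dxs, dys, a2, k2, mul_nonneg dx x0, mul_nonneg dy y0,
      mul_nonneg x0 k1, mul_nonneg x1 g0, mul_nonneg x1 u1, mul_nonneg x1 k2, mul_nonneg y0 k1,
      mul_nonneg y0 k2, mul_nonneg y1 g0, mul_nonneg y1 a2, mul_nonneg a1 a2, mul_nonneg a1 l2,
      mul_nonneg g0 k2, mul_nonneg k1 a2]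

theorem L3_33
    (h1 : c1^2 + s1^2 = 1) (h2 : c2^2 + s2^2 = 1)
    (H : SS X (-Y) c1 s1 c2 s2)
    (a1 : 0 ≤ (0:ℝ)*s1 - (-1:ℝ)*c1) (b1 : 0 ≤ -((1:ℝ)*s1 - (0:ℝ)*c1))
    (a2 : 0 ≤ (0:ℝ)*s2 - (-1:ℝ)*c2) (b2 : 0 ≤ -((1:ℝ)*s2 - (0:ℝ)*c2))
    (x0 : 0 ≤ X) (x1 : 0 ≤ 4 - X)
    (y0 : 0 ≤ Y) (y1 : 0 ≤ 4 - Y)
    (dxs : 0 < 6 - X - c1 + s1 - c2 + s2)
    (dys : 0 < 6 - Y - c1 + s1 - c2 + s2)
    (hn : 0 ≤ -13/25 - c1*c2 - s1*s2) : False := by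
  have dx := dxs.le
  have dy := dys.le
  have k1 := chord h1 a1 b1 (by norm_num) (by norm_num)
  have l1 := tang h1 (0:ℝ) (-1:ℝ)
  have k2 := chord h2 a2 b2 (by norm_num) (by norm_num)
  have l2 := tang h2 (0:ℝ) (-1:ℝ)
  linarith only [h1, h2, H.q3, H.q9, hn, y1, mul_nonneg x0 x1, mul_nonneg x0 k1, mul_nonneg x0 k2,
    mul_nonneg x1 l1, mul_nonneg x1 l2, mul_nonneg y0 y1, mul_nonneg y0 a1, mul_nonneg y0 l1,
    mul_nonneg y0 a2, mul_nonneg y0 l2, mul_nonneg y1 b1, mul_nonneg y1 b2]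

end Pool.Agent.MP_3b5bbf_co.S
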