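import Pool.Agent.Mg.F3b5bbfq.G1575f5

set_option linter.all false

section

/-! Tubes that carry uncreased plates on both faces: the straight ring and the turn. -/

set_option linter.unusedSimpArgs false

namespace Pool.Agent.MP_3b5bbf_co.Sm

/-- `v` is the centre of one of the 25 unit squares around `m` -/
def Near (m v : V) : Prop := m.1 - 4 ≤ v.1 ∧ v.1 ≤ m.1 + 4 ∧ m.2 - 4 ≤ v.2 ∧ v.2 ≤ m.2 + 4

/-- motions of the lattice -/
def Mot (g : V → V) : Prop := ∃ s t u w : ℤ, (s = 1 ∨ s = -1) ∧ (t = 1 ∨ t = -1) ∧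
  ((∀ v, g v = (s * v.1 + u, t * v.2 + w)) ∨ ∀ v, g v = (s * v.2 + u, t * v.1 + w))

theorem Mot.comp {ρ g : V → V} (h1 : Mot ρ) (h2 : Mot g) : Mot fun v => ρ (g v) := by
  obtain ⟨s, t, u, w, hs, ht, h1⟩ := h1
  obtain ⟨s', t', u', w', hs', ht', h2⟩ := h2
  have m : ∀ a b : ℤ, (a = 1 ∨ a = -1) → (b = 1 ∨ b = -1) → (a * b = 1 ∨ a * b = -1) := by
    rintro a b (rfl | rfl) (rfl | rfl) <;> simp
  rcases h1 with h1 | h1 <;> rcases h2 with h2 | h2
  · exact ⟨s * s', t * t', s * u' + u, t * w' + w, m _ _ hs hs', m _ _ ht ht', Or.inl fun v => by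
      simp only [h1, h2, Prod.mk.injEq]; constructor <;> ring⟩
  · exact ⟨s * s', t * t', s * u' + u, t * w' + w, m _ _ hs hs', m _ _ ht ht', Or.inr fun v => by
      simp only [h1, h2, Prod.mk.injEq]; constructor <;> ring⟩
  · exact ⟨s * t', t * s', s * w' + u, t * u' + w, m _ _ hs ht', m _ _ ht hs', Or.inr fun v => by
      simp only [h1, h2, Prod.mk.injEq]; constructor <;> ring⟩
  · exact ⟨s * t', t * s', s * w' + u, t * u' + w, m _ _ hs ht', m _ _ ht hs', Or.inl fun v => by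
      simp only [h1, h2, Prod.mk.injEq]; constructor <;> ring⟩

theorem Mot.near {g : V → V} (h : Mot g) (a b : V) : Near (g a) (g b) ↔ Near a b := by
  obtain ⟨s, t, u, w, rfl | rfl, rfl | rfl, h | h⟩ := h <;> simp only [h, Near] <;> omega

theorem mot_id : Mot fun v => v := ⟨1, 1, 0, 0, Or.inl rfl, Or.inl rfl, Or.inl fun v => by simp⟩

theorem mot_up : Mot fun v => (v.1, v.2 + 2) :=
  ⟨1, 1, 0, 2, Or.inl rfl, Or.inl rfl, Or.inl fun v => by simp⟩

theorem mot_swap (s t : ℤ) : Mot fun v => (v.2 + s, v.1 + t) :=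
  ⟨1, 1, s, t, Or.inl rfl, Or.inl rfl, Or.inr fun v => by simp⟩

theorem mot_t : Mot fun v => (v.2, v.1) :=
  ⟨1, 1, 0, 0, Or.inl rfl, Or.inl rfl, Or.inr fun v => by simp⟩

theorem mot_c : Mot fun v => (2 - v.2, 2 - v.1) :=
  ⟨-1, -1, 2, 2, Or.inr rfl, Or.inr rfl, Or.inr fun v => by
    simp only [Prod.mk.injEq]; constructor <;> ring⟩

theorem mot_m (m : ℤ) : Mot fun v => (2 * m - v.1, v.2) :=
  ⟨-1, 1, 2 * m, 0, Or.inr rfl, Or.inl rfl, Or.inl fun v => by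
    simp only [Prod.mk.injEq]; constructor <;> ring⟩

/-- an uncreased 5 × 5 square of the sheet, centred over `m`, all of whose cells have the
property `W` and are extreme for `le` in their stacks -/
def Face (R : Cell → Prop) (φ : V → V) (W : Cell → Prop) (le : Cell → Cell → Prop) (m : V) :
    Prop :=
  ∃ (z : V) (g : V → V), Mot g ∧ g z = m ∧ z.1 % 2 = 1 ∧ z.2 % 2 = 1 ∧
    ∀ c, Near z c.o → R c ∧ Agr φ g c ∧ W c ∧ ∀ d, R d → K φ d = K φ c → le d c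

theorem Face.map {R0 R φ φ' ρ W W' le le' m} (hc : Face R0 φ W le m) (hρ : Iso ρ) (mρ : Mot ρ)
    (sub : ∀ c, R0 c → R c)
    (ag : ∀ c, R0 c → Near m (φ c.o) → Agr φ' (fun v => ρ (φ v)) c)
    (ex : ∀ c, R c → Near (ρ m) (φ' c.o) → R0 c ∧ Near m (φ c.o))
    (hW : ∀ c, R0 c → Near m (φ c.o) → W c → W' c)
    (hl : ∀ d c, R0 d → R0 c → Near m (φ d.o) → Near m (φ c.o) → le d c → le' d c) :
    Face R φ' W' le' (ρ m) := by
  obtain ⟨z, g, mg, e, z1, z2, hc⟩ := hc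
  refine ⟨z, fun v => ρ (g v), mρ.comp mg, congrArg ρ e, z1, z2, fun c n => ?_⟩
  obtain ⟨r, a, w, ext⟩ := hc c n
  have n' : Near m (φ c.o) := by rw [a.1, ← e, mg.near]; exact n
  have a' := ag c r n'
  refine ⟨sub c r, ⟨a'.1.trans (congrArg ρ a.1), a'.2.1.trans (congrArg ρ a.2.1),
    a'.2.2.trans (congrArg ρ a.2.2)⟩,
    hW c r n' w, fun d rd k => ?_⟩
  obtain ⟨r0, nd⟩ := ex d rd (by
    rw [show φ' d.o = φ' c.o from congrArg Prod.fst k, a'.1, mρ.near]; exact n')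
  rw [(ag d r0 nd).K, a'.K, hρ.K_iff] at k
  exact hl d c r0 r nd n' (ext d r0 k)

theorem Face.refl {R φ W le m τ tv} (hc : Face R φ W le m) (r : PRefl τ tv) (mt : Mot tv) :
    Face (fun c => R (τ c)) (fun v => φ (tv v)) (fun c => W (τ c)) (fun d c => le (τ d) (τ c))
      m := by
  obtain ⟨z, g, mg, e, z1, z2, hc⟩ := hc
  obtain ⟨c0, rfl⟩ : ∃ c0 : Cell, c0.o = z :=
    ⟨⟨z.1 / 2, z.2 / 2, .s⟩, Prod.ext (by simp only [Cell.o]; omega) (by simp only [Cell.o]; omega)⟩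
  have e2 : tv (τ c0).o = c0.o := by rw [← r.o, r.inv]
  refine ⟨(τ c0).o, fun v => g (tv v), mg.comp mt, by simp only [e2, e],
    by simp only [Cell.o]; omega, by simp only [Cell.o]; omega, fun c n => ?_⟩
  obtain ⟨r1, a, w, ext⟩ := hc (τ c) (by rw [r.o, ← e2, mt.near]; exact n)
  refine ⟨r1, ⟨?_, ?_, ?_⟩, w, fun d rd k => ext _ rd (by rwa [r.K, r.K] at k)⟩
  · simpa only [r.o] using a.1
  · simpa only [r.q] using a.2.2
  · simpa only [r.p] using a.2.1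

theorem Face.mono {R φ W W' le le' m} (hc : Face R φ W le m) (hW : ∀ c, R c → W c → W' c)
    (hl : ∀ d c, R d → R c → le d c → le' d c) : Face R φ W' le' m :=
  hc.map iso_id mot_id (fun _ a => a) (fun _ _ _ => ⟨rfl, rfl, rfl⟩) (fun _ a b => ⟨a, b⟩)
    (fun c a _ => hW c a) (fun d c a b _ _ => hl d c a b)

theorem Mot.add {g : V → V} (mg : Mot g) {a b c d : V} (h : a + b = c + d) :
    g a + g b = g c + g d := by
  simp only [Prod.ext_iff, Prod.fst_add, Prod.snd_add] at h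
  obtain ⟨s, t, u, w, rfl | rfl, rfl | rfl, e | e⟩ := mg <;>
    simp only [e, Prod.mk_add_mk, Prod.mk.injEq] <;> omega

theorem Mot.inv {g : V → V} (mg : Mot g) :
    ∃ g', Mot g' ∧ (∀ v, g (g' v) = v) ∧ ∀ v, g' (g v) = v := by
  obtain ⟨s, t, u, w, hs, ht, e | e⟩ := mg
  · refine ⟨fun v => (s * v.1 + -(s * u), t * v.2 + -(t * w)),
      ⟨s, t, _, _, hs, ht, Or.inl fun _ => rfl⟩, fun v => ?_, fun v => ?_⟩ <;>
    rcases hs with rfl | rfl <;> rcases ht with rfl | rfl <;> simp only [e, Prod.ext_iff] <;> omega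
  · refine ⟨fun v => (t * v.2 + -(t * w), s * v.1 + -(s * u)),
      ⟨t, s, _, _, ht, hs, Or.inr fun _ => rfl⟩, fun v => ?_, fun v => ?_⟩ <;>
    rcases hs with rfl | rfl <;> rcases ht with rfl | rfl <;> simp only [e, Prod.ext_iff] <;> omega

theorem cell_of_key {κ : V × V} (hκ : IsKey κ) : ∃ c : Cell, c.o = κ.1 ∧ c.p + c.q = κ.2 := by
  obtain ⟨⟨a, b⟩, c, d⟩ := κ
  obtain ⟨h1, h2, h3⟩ := hκ
  dsimp only at h1 h2 h3
  obtain ⟨x, rfl⟩ : ∃ x, a = 2 * x + 1 := ⟨a / 2, by omega⟩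
  obtain ⟨y, rfl⟩ : ∃ y, b = 2 * y + 1 := ⟨b / 2, by omega⟩
  rcases h3 with ⟨rfl, rfl | rfl⟩ | ⟨rfl, rfl | rfl⟩
  · exact ⟨⟨x, y, .n⟩, rfl, by simp only [Cell.p, Cell.q, Prod.mk_add_mk, Prod.mk.injEq]; omega⟩
  · exact ⟨⟨x, y, .s⟩, rfl, by simp only [Cell.p, Cell.q, Prod.mk_add_mk, Prod.mk.injEq]; omega⟩
  · exact ⟨⟨x, y, .e⟩, rfl, by simp only [Cell.p, Cell.q, Prod.mk_add_mk, Prod.mk.injEq]; omega⟩
  · exact ⟨⟨x, y, .w⟩, rfl, by simp only [Cell.p, Cell.q, Prod.mk_add_mk, Prod.mk.injEq]; omega⟩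

theorem Mot.isKey {g : V → V} (mg : Mot g) {z : V} (z1 : z.1 % 2 = 1) (z2 : z.2 % 2 = 1)
    (m1 : (g z).1 % 2 = 1) (m2 : (g z).2 % 2 = 1) {κ : V × V} (hκ : IsKey κ) :
    IsKey (g κ.1, g κ.1 + g (κ.2 - κ.1)) := by
  obtain ⟨h1, h2, h3⟩ := hκ
  obtain ⟨s, t, u, w, rfl | rfl, rfl | rfl, e | e⟩ := mg <;>
    simp only [e, IsKey, Prod.mk_add_mk, Prod.fst_sub, Prod.snd_sub] at m1 m2 ⊢ <;>
    refine ⟨by omega, by omega, ?_⟩ <;> clear z1 z2 m1 m2 h1 h2 <;> omega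

/-- every key near the centre is the key of a cell of the plate -/
theorem Mot.key {g : V → V} (mg : Mot g) {z : V} (z1 : z.1 % 2 = 1) (z2 : z.2 % 2 = 1)
    (m1 : (g z).1 % 2 = 1) (m2 : (g z).2 % 2 = 1) {κ : V × V} (hκ : IsKey κ)
    (n : Near (g z) κ.1) : ∃ c : Cell, Near z c.o ∧ K g c = κ := by
  obtain ⟨g', mg', i1, i2⟩ := mg.inv
  obtain ⟨c, e1, e2⟩ := cell_of_key (mg'.isKey m1 m2 (by rwa [i2]) (by rwa [i2]) hκ)
  dsimp only at e1 e2
  refine ⟨c, by rwa [← mg.near, e1, i1], Prod.ext (by simp only [K, e1, i1]) ?_⟩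
  simp only [K]
  rw [mg.add e2, i1, i1, add_sub_cancel]

theorem good_key {φ : V → V} {c : Cell} (hc : Good φ c) : IsKey (K φ c) := by
  obtain ⟨c1, c2, c3⟩ := hc.pq
  obtain ⟨c4, c5, c6, c7, -⟩ := hc
  simp only [IsKey, K, Prod.fst_add, Prod.snd_add]
  omega

theorem exists_ctr {z : V} (z1 : z.1 % 2 = 1) (z2 : z.2 % 2 = 1) : ∃ c0 : Cell, c0.o = z :=
  ⟨⟨z.1 / 2, z.2 / 2, .s⟩, Prod.ext (by simp only [Cell.o]; omega) (by simp only [Cell.o]; omega)⟩

/-- a plate covers all unit squares near its centre -/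
theorem Face.hit {R φ W le m} (hf : Face R φ W le m) {κ : V × V} (hκ : IsKey κ)
    (n : Near m κ.1) (gd : ∀ c, R c → Good φ c) : ∃ a, R a ∧ K φ a = κ := by
  obtain ⟨z, g, mg, rfl, z1, z2, hf⟩ := hf
  obtain ⟨c0, rfl⟩ := exists_ctr z1 z2
  obtain ⟨r0, a0, -⟩ := hf c0 (by unfold Near; omega)
  have g0 := gd c0 r0
  obtain ⟨a, na, ka⟩ := mg.key z1 z2 (a0.1 ▸ g0.1) (a0.1 ▸ g0.2.1) hκ n
  obtain ⟨r, ag, -⟩ := hf a na
  exact ⟨a, r, ag.K.trans ka⟩

def Cov (R : Cell → Prop) (φ : V → V) (h : Cell → ℚ) (Cv : V → Prop) : Prop :=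
  ∀ m : V, m.1 % 2 = 1 → m.2 % 2 = 1 → Cv m →
    Face R φ (Black φ) (fun d c => h d ≤ h c) m ∧ Face R φ (White φ) (fun d c => h c ≤ h d) m

theorem Cov.map {H' : Type} [LinearOrder H'] {R0 R φ φ' ρ Cv} {h : Cell → ℚ} {h' : Cell → H'}
    (hc : Cov R0 φ h Cv) (hρ : Iso ρ) (mρ : Mot ρ) (sub : ∀ c, R0 c → R c) {m : V}
    (m1 : m.1 % 2 = 1) (m2 : m.2 % 2 = 1) (hv : ∀ v, ρ v = m → Cv v)
    (ag : ∀ c, R0 c → Near m (ρ (φ c.o)) → Agr φ' (fun v => ρ (φ v)) c)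
    (ex : ∀ c, R c → Near m (φ' c.o) → R0 c ∧ Near m (ρ (φ c.o)))
    (hw : ((∀ c, White φ c → White (fun v => ρ (φ v)) c) ∧
        (∀ c, Black φ c → Black (fun v => ρ (φ v)) c) ∧
        ∀ c b, R0 c → R0 b → Near m (ρ (φ c.o)) → Near m (ρ (φ b.o)) → h c ≤ h b → h' c ≤ h' b) ∨
      ((∀ c, White φ c → Black (fun v => ρ (φ v)) c) ∧
        (∀ c, Black φ c → White (fun v => ρ (φ v)) c) ∧
        ∀ c b, R0 c → R0 b → Near m (ρ (φ c.o)) → Near m (ρ (φ b.o)) → h c ≤ h b → h' b ≤ h' c)) :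
    Face R φ' (Black φ') (fun d c => h' d ≤ h' c) m ∧
      Face R φ' (White φ') (fun d c => h' c ≤ h' d) m := by
  obtain ⟨κ0, k1, k2, -⟩ := hρ.surj (m, (2 * m.1, 2 * m.2 + 2))
    ⟨m1, m2, Or.inl ⟨rfl, Or.inl rfl⟩⟩
  obtain rfl : ρ κ0.1 = m := k2
  obtain ⟨f1, f2⟩ := hc κ0.1 k1.1 k1.2.1 (hv _ rfl)
  simp only [mρ.near] at ag hw
  have ex' : ∀ c, R c → Near (ρ κ0.1) (φ' c.o) → R0 c ∧ Near κ0.1 (φ c.o) := fun c a b =>
    ⟨(ex c a b).1, (mρ.near _ _).1 (ex c a b).2⟩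
  rcases hw with ⟨w1, w2, l⟩ | ⟨w1, w2, l⟩
  · exact ⟨f1.map hρ mρ sub ag ex' (fun c a b w => (ag c a b).black (w2 c w)) l,
      f2.map hρ mρ sub ag ex' (fun c a b w => (ag c a b).white (w1 c w))
        (fun d c a b e f => l c d b a f e)⟩
  · exact ⟨f2.map hρ mρ sub ag ex' (fun c a b w => (ag c a b).black (w1 c w))
        (fun d c a b e f => l c d b a f e),
      f1.map hρ mρ sub ag ex' (fun c a b w => (ag c a b).white (w2 c w)) l⟩

structure Gen (R : Cell → Prop) (φ : V → V) (h : Cell → ℚ) (F : V → Prop) (St : V → V → Prop)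
    (Cv : V → Prop) : Prop where
  valid : Valid R φ h
  kp : ∀ c, Bd R c → K φ c = KP
  closed : Closed R φ h
  foot : Foot R φ F
  steps : Steps R φ St
  cov : Cov R φ h Cv

structure Tube (x0 x1 y0 y1 ξ : ℤ) (φ : V → V) (h : Cell → ℚ) (F : V → Prop)
    (St : V → V → Prop) (Cv : V → Prop) : Prop where
  d1 : x0 < ξ
  d2 : ξ < x1
  d3 : y0 ≤ y1
  gen : Gen (Rect x0 x1 y0 y1) φ h F St Cv
  bdry : ∀ a b, x0 ≤ a → a ≤ x1 → y0 ≤ b → b ≤ y1 → (a = x0 ∨ a = x1 ∨ b = y0 ∨ b = y1) →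
    φ (2 * a, 2 * b) = (2 * ((a + b - ξ - y0) % 2), 0)
  ord : ∀ c b, Bd (Rect x0 x1 y0 y1) c → Bd (Rect x0 x1 y0 y1) b →
    klt (bkey ξ c) (bkey ξ b) → h c < h b

def Tb (E : Extra) (X Y o : ℤ) (F : V → Prop) (St : V → V → Prop) (Cv : V → Prop) : Prop :=
  ∀ x0 x1 y0 y1 ξ, x1 = x0 + X → y1 = y0 + Y → ξ = x0 + o →
    ∃ φ h, Tube x0 x1 y0 y1 ξ φ h F St Cv ∧ E x0 x1 y0 y1 ξ φ h

theorem Tb.any {E X Y o F St Cv} (t : Tb E X Y o F St Cv) : Tb Any X Y o F St Cv := by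
  intro x0 x1 y0 y1 ξ a b c
  obtain ⟨φ, h, u, -⟩ := t x0 x1 y0 y1 ξ a b c
  exact ⟨φ, h, u, trivial⟩

theorem Gen.mono {R φ h F St Cv F' St' Cv'} (g : Gen R φ h F St Cv) (hF : ∀ v, F v → F' v)
    (hS : ∀ v w, F v → F w → St v w → St' v w)
    (hC : ∀ v, v.1 % 2 = 1 → v.2 % 2 = 1 → Cv' v → Cv v) : Gen R φ h F' St' Cv' :=
  ⟨g.valid, g.kp, g.closed, fun c hc => hF _ (g.foot c hc),
    fun c h1 h2 h3 => hS _ _ (g.foot _ h1) (g.foot _ h2) (g.steps c h1 h2 h3),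
    fun m h1 h2 h3 => g.cov m h1 h2 (hC _ h1 h2 h3)⟩

theorem Tb.mono {E X Y o F St Cv X' Y' o' F' St' Cv'} (t : Tb E X Y o F St Cv)
    (hX : X' = X) (hY : Y' = Y) (ho : o' = o) (hF : ∀ v, F v → F' v)
    (hS : ∀ v w, F v → F w → St v w → St' v w)
    (hC : ∀ v, v.1 % 2 = 1 → v.2 % 2 = 1 → Cv' v → Cv v) : Tb E X' Y' o' F' St' Cv' := by
  subst hX hY ho
  intro x0 x1 y0 y1 ξ a b c
  obtain ⟨φ, h, u, e⟩ := t x0 x1 y0 y1 ξ a b c
  exact ⟨φ, h, ⟨u.d1, u.d2, u.d3, u.gen.mono hF hS hC, u.bdry, u.ord⟩, e⟩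

theorem Tb.far {E X Y o F St Cv} (t : Tb E X Y o F St Cv) (hn : ¬ F (1, -1)) (v : V)
    (v1 : v.1 % 2 = 1) (v2 : v.2 % 2 = 1) (hv : Cv v) : ¬ Near v (1, -1) := by
  intro n
  obtain ⟨φ, h, u, -⟩ := t 0 _ 0 _ _ rfl rfl rfl
  obtain ⟨a, ha, ka⟩ := (u.gen.cov v v1 v2 hv).1.hit (κ := ((1, -1), (2, 0)))
    (by unfold IsKey; decide) n u.gen.valid.good
  have e : φ a.o = (1, -1) := congrArg Prod.fst ka
  exact hn (e ▸ u.gen.foot a ha)

theorem Tb.ring {E X Y o F St Cv} (t : Tb E X Y o F St Cv) {F' St' Cv'} (hn : ¬ F (1, -1))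
    (hF0 : F' (1, 1)) (hF : ∀ v, F v → F' (v.1, v.2 + 2))
    (hS0 : F (1, 1) → St' (1, 1) (1, 3) ∧ St' (1, 3) (1, 1))
    (hS : ∀ v w, St v w → St' (v.1, v.2 + 2) (w.1, w.2 + 2))
    (hC : ∀ v, Cv' (v.1, v.2 + 2) → Cv v) :
    Tb Pure (X + 2) (Y + 2) (o + 1) F' St' Cv' := by
  classical
  intro x0 x1 y0 y1 ξ a b c
  obtain ⟨φ, h, u, -⟩ := t (x0 + 1) (x1 - 1) (y0 + 1) (y1 - 1) ξ (by omega) (by omega) (by omega)
  have d1 := u.d1
  have d2 := u.d2
  have d3 := u.d3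
  have g := u.gen
  set I := Rect (x0 + 1) (x1 - 1) (y0 + 1) (y1 - 1) with hI
  let φ' : V → V := fun v =>
    if 2 * (x0 + 1) ≤ v.1 ∧ v.1 ≤ 2 * (x1 - 1) ∧ 2 * (y0 + 1) ≤ v.2 ∧ v.2 ≤ 2 * (y1 - 1) then
      ((φ v).1, (φ v).2 + 2)
    else if v.1 % 2 = 1 then (1, 1) else (2 * ((v.1 / 2 + v.2 / 2 - ξ - y0) % 2), 0)
  let h' : Cell → ℚ := fun c => if I c then h c else Hk (fkey x0 x1 y0 y1 ξ c)
  have ag : ∀ c, I c → Agr φ' (fun v => ((φ v).1, (φ v).2 + 2)) c := by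
    intro c hc
    obtain ⟨v1, v2, v3⟩ := vert_bounds hc
    exact ⟨if_pos v1, if_pos v2, if_pos v3⟩
  have hi : ∀ c, I c → h' c = h c := fun c hc => if_pos hc
  have spl : ∀ c, Rect x0 x1 y0 y1 c → I c ∨ Fr x0 x1 y0 y1 c := by
    intro c hc
    simp only [hI]
    unfold Fr Rect at *; omega
  have sub : ∀ c, I c → Rect x0 x1 y0 y1 c := by
    intro c hc
    simp only [hI] at hc
    unfold Rect at *; omega
  have hf : FH x0 x1 y0 y1 ξ φ' := by
    refine ⟨by omega, by omega, by omega, ?_, ?_, ?_⟩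
    · intro a b h1 h2 h3 h4 h5
      simp only [φ']
      rw [if_neg (by omega), if_neg (by omega)]
      simp only [Prod.mk.injEq, and_true]; omega
    · intro a b h1 h2 h3 h4 h5
      simp only [φ']
      rw [if_pos (by omega), u.bdry a b (by omega) (by omega) (by omega) (by omega) (by omega)]
      simp only [Prod.mk.injEq]; omega
    · intro c hc
      unfold Fr Rect at hc
      simp only [φ', Cell.o]
      rw [if_neg (by omega), if_pos (by omega)]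
  have no : ∀ c, I c → φ' c.o ≠ (1, 1) := by
    intro c hc e
    rw [(ag c hc).1] at e
    apply hn
    have : φ c.o = (1, -1) := by
      simp only [Prod.ext_iff] at e ⊢; omega
    exact this ▸ g.foot c hc
  have hp : Pure x0 x1 y0 y1 ξ φ' h' :=
    ⟨hf, fun c hc e => (spl c hc).resolve_left (fun i => no c i e),
      fun c hc => if_neg (inner_bd hc)⟩
  have kk : ∀ c b, I c → I b → (K φ' c = K φ' b ↔ K φ c = K φ b) := fun c b h1 h2 => by
    rw [(ag c h1).K, (ag b h2).K]; exact iso_up.K_iff φ c b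
  have hv : Valid (Rect x0 x1 y0 y1) φ' h' := by
    apply ring_valid hp (g.valid.iso iso_up ag (fun c b h1 h2 _ => by rw [hi c h1, hi b h2]))
    · intro c e b h1 h2 h3 he k1 k2 l1 l2
      rw [(ag c h1).eps, (ag b h3.1).eps] at he
      have he' := (iso_up.eps_iff φ c b e .g).1 he
      rw [kk _ _ h2 h1] at k1
      rw [kk _ _ h3.1 h1] at k2
      rw [hi _ h1, hi _ h3.1] at l1
      rw [hi _ h2, hi _ h3.1] at l2
      have kb := g.kp b h3
      exact g.closed c e b h1 h2 h3 (he'.trans (congrArg Prod.snd kb)) (k2.symm.trans kb)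
        (k1.trans (k2.symm.trans kb)) l1 l2
    · intro c b h1 h2 k
      rw [hi _ h1.1, hi _ h2.1]
      exact u.ord c b h1 h2 k
  refine ⟨φ', h', ⟨by omega, by omega, by omega, ⟨hv, fun c hc => (hp.bd hc).1, ?_, ?_, ?_, ?_⟩,
    hf.out, ?_⟩, hp⟩
  · intro c e b h1 h2 _ he k1 _ _ _
    have := eps_port (hv.good c h1) he
    subst this
    exact hp.kp_out h1 k1 h2
  · intro c hc
    rcases spl c hc with i | f
    · rw [(ag c i).1]; exact hF _ (g.foot c i)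
    · rw [hf.ctr c f]; exact hF0
  · have mix : ∀ c, Bd I c → φ' c.o = (1, 3) ∧ F (1, 1) := by
      intro c hc
      have e : φ c.o = (1, 1) := congrArg Prod.fst (g.kp c hc)
      refine ⟨?_, e ▸ g.foot c hc.1⟩
      rw [(ag c hc.1).1]
      simp only [e]; rfl
    intro c h1 h2 ne
    rcases spl c h1 with i | f <;> rcases spl _ h2 with i' | f'
    · rw [(ag c i).1, (ag _ i').1] at ne ⊢
      exact hS _ _ (g.steps c i i' (fun e => ne (by simp only [e])))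
    · obtain ⟨m1, m2⟩ := mix c ⟨i, inner_bd f'⟩
      rw [m1, hf.ctr _ f']
      exact (hS0 m2).2
    · obtain ⟨m1, m2⟩ := mix _ ⟨i', by rw [nb_gg]; exact inner_bd f⟩
      rw [m1, hf.ctr _ f]
      exact (hS0 m2).1
    · exact absurd ((hf.ctr _ f').trans (hf.ctr _ f).symm) ne
  · intro m m1 m2 hc
    have hm := t.far hn (m.1, m.2 - 2) m1 (by dsimp only; omega) (hC _ (by simpa using hc))
    refine g.cov.map iso_up mot_up sub m1 m2 ?_ (fun c hc _ => ag c hc) ?_ (Or.inl ⟨?_, ?_, ?_⟩)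
    · intro v hv
      rw [← hv] at hc
      exact hC v hc
    · intro c hc ec
      have i := (spl c hc).resolve_right (fun f => hm (by
        rw [hf.ctr c f] at ec
        unfold Near at *; dsimp only at *; omega))
      exact ⟨i, by rw [(ag c i).1] at ec; exact ec⟩
    · intro c; unfold White; dsimp only; omega
    · intro c; unfold Black; dsimp only; omega
    · intro c b h1 h2 _ _ l
      rwa [hi c h1, hi b h2]
  · intro c b h1 h2 k
    rw [(hp.bd h1).2, (hp.bd h2).2, Hk_lt]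
    exact k

theorem Tb.turn {σ ρ ρ2} (r : Refl σ ρ ρ2) (mρ : Mot ρ) {X Y o F St Cv} (t : Tb Pure X Y o F St Cv)
    {F' St' Cv'} (hF : ∀ v, F v → F' (ρ v)) (hS : ∀ v w, St v w → St' (ρ v) (ρ w))
    (hC : ∀ v, (ρ v).1 % 2 = 1 → (ρ v).2 % 2 = 1 → Cv' (ρ v) → ¬ Near v (1, 1) ∧ Cv v) :
    Tb (Turned ((1, 1), (2 * σ, 2))) X Y o F' St' Cv' := by
  classical
  intro x0 x1 y0 y1 ξ a b c
  obtain ⟨φ, h, u, hp⟩ := t x0 x1 y0 y1 ξ a b c
  have g := u.gen
  have hf := hp.fh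
  set R := Rect x0 x1 y0 y1 with hR
  let N : V × V → Prop := fun κ => κ = KP ∨ κ = ((1, 1), (2 * σ, 2))
  let φ' : V → V := fun v => if Out x0 x1 y0 y1 v then φ v else ρ (φ v)
  let h' : Cell → ℚ := fun c => if N (K φ c) then sq 0 1 (h c) else sq 1 2 (-h c)
  have No : ∀ c, N (K φ c) → φ c.o = (1, 1) := fun c n =>
    n.elim (fun k => congrArg Prod.fst k) (fun k => congrArg Prod.fst k)
  have oo : ∀ c : Cell, φ' c.o = ρ (φ c.o) := fun c => if_neg (out_o _ _ _ _ c)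
  have an : ∀ c, R c → N (K φ c) → Agr φ' φ c := by
    intro c hc n
    have o := No c n
    obtain ⟨v1, v2⟩ := hf.vert (hp.fr c hc o)
    obtain ⟨w1, w2⟩ := (near_fix r.s (g.valid.good c hc) o).1 n
    refine ⟨by rw [oo, o, r.f0], ?_, ?_⟩
    · rcases v1 with v | v
      · exact if_pos v.1
      · simp only [φ']; rw [if_neg v.1, w1 v.2, r.f1]
    · rcases v2 with v | v
      · exact if_pos v.1
      · simp only [φ']; rw [if_neg v.1, w2 v.2, r.f1]
  have af : ∀ c, R c → ¬ N (K φ c) → Agr φ' (fun v => ρ (φ v)) c := by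
    intro c hc n
    by_cases f : Fr x0 x1 y0 y1 c
    · obtain ⟨v1, v2⟩ := hf.vert f
      obtain ⟨w1, w2, -⟩ := (near_fix r.s (g.valid.good c hc) (hf.ctr c f)).2 n
      refine ⟨oo c, ?_, ?_⟩
      · rcases v1 with v | v
        · simp only [φ']; rw [if_pos v.1, w1 v.2, r.f2]
        · exact if_neg v.1
      · rcases v2 with v | v
        · simp only [φ']; rw [if_pos v.1, w2 v.2, r.f2]
        · exact if_neg v.1
    · obtain ⟨v1, v2⟩ := out_inner hc f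
      exact ⟨oo c, if_neg v1, if_neg v2⟩
  have fK : ∀ c, R c → ¬ N (K φ c) → K φ' c = (ρ (K φ c).1, ρ2 (K φ c).2) := by
    intro c hc n
    rw [(af c hc n).K]
    simp only [K, r.add]
  have hn : ∀ c, N (K φ c) → h' c = sq 0 1 (h c) := fun c n => if_pos n
  have hfar : ∀ c, ¬ N (K φ c) → h' c = sq 1 2 (-h c) := fun c n => if_neg n
  have nf : ∀ c b, N (K φ c) → ¬ N (K φ b) → h' c < h' b := by
    intro c b n1 n2
    rw [hn c n1, hfar b n2]
    exact (sq_mem (by norm_num) _).2.trans (sq_mem (by norm_num) _).1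
  have hv : Valid R φ' h' := by
    refine g.valid.fold N (fun κ => (ρ κ.1, ρ2 κ.2)) ρ2 ?_ r.inj2 ?_
      (fun c hc n => (an c hc n).K) (fun c e hc n => (an c hc n).eps e) fK ?_ ?_ ?_ ?_
      (fun c b _ _ => nf c b)
    · intro a b e
      rw [Prod.mk.injEq] at e
      exact Prod.ext (r.iso.inj _ _ e.1) (r.inj2 _ _ e.2)
    · intro c hc
      by_cases n : N (K φ c)
      · exact (an c hc n).good (g.valid.good c hc)
      · exact (af c hc n).good (r.iso.good _ _ (g.valid.good c hc))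
    · intro c e hc n
      rw [(af c hc n).eps]
      cases e <;> simp only [eps, r.add]
    · intro c e h1 h2 n1 n2
      have o := No c n1
      have f := hp.fr c h1 o
      have key : φ (c.nb e).o = (1, 1) → (φ (c.nb e).q = φ c.p ∨ φ (c.nb e).p = φ c.q) →
          (ρ (K φ (c.nb e)).1, ρ2 (K φ (c.nb e)).2) = K φ c := by
        intro o' sh
        rcases adj_keys r.s (g.valid.good _ h1) (g.valid.good _ h2) o o' sh n1 n2 with k | k
        · rw [k.1, k.2]; simp only [KP, r.f0, r.g2]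
        · rw [k.1, k.2]; simp only [KF, r.f0, r.g1]
      cases e
      · exfalso
        rcases hf.quarter f with q | q | q
        · exact q.2.1 h2
        · rw [q.1] at n1
          have := r.s
          simp only [N, KF, KP, Prod.mk.injEq] at n1
          omega
        · exact n2 (by rw [K_g ((hf.ctr _ q.2).trans o.symm)]; exact n1)
      · exact key (by rw [nb_a_o, o]) (Or.inl (by rw [nb_a_q]))
      · exact key (by rw [nb_b_o, o]) (Or.inr (by rw [nb_b_p]))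
    · intro c b _ _ n1 n2
      rw [hn c n1, hn b n2, sq_lt (by norm_num)]
    · intro c b _ _ n1 n2
      rw [hfar c n1, hfar b n2, sq_lt (by norm_num), neg_lt_neg_iff]
  have bn : ∀ c, Bd R c → N (K φ c) := fun c hc => Or.inl (g.kp c hc)
  refine ⟨φ', h', ⟨u.d1, u.d2, u.d3, ⟨hv, ?_, ?_, ?_, ?_, ?_⟩, ?_, ?_⟩, ?_⟩
  · intro c hc
    rw [(an c hc.1 (bn c hc)).K, g.kp c hc]
  · intro c e b h1 h2 h3 he k1 _ l1 _
    have := eps_port (hv.good c h1) he
    subst this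
    by_cases n : N (K φ c)
    · rw [(an c h1 n).K] at k1
      exact hp.kp_out h1 k1 h2
    · exact absurd l1 (nf b c (bn b h3) n).not_gt
  · intro c hc
    rw [oo]; exact hF _ (g.foot c hc)
  · intro c h1 h2 ne
    rw [oo, oo] at *
    exact hS _ _ (g.steps c h1 h2 (fun e => ne (by rw [e])))
  · intro m m1 m2 hc
    have hv' : ∀ v, ρ v = m → ¬ Near v (1, 1) ∧ Cv v := by
      intro v e
      apply hC v <;> rw [e]
      exacts [m1, m2, hc]
    have far : ∀ c, Near m (ρ (φ c.o)) → ¬ N (K φ c) := by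
      intro c e n
      obtain ⟨κ0, -, k2, -⟩ := r.iso.surj (m, (2 * m.1, 2 * m.2 + 2))
        ⟨m1, m2, Or.inl ⟨rfl, Or.inl rfl⟩⟩
      refine (hv' _ k2).1 ?_
      rw [← mρ.near, k2, ← No c n]
      exact e
    refine g.cov.map r.iso mρ (fun _ a => a) m1 m2 (fun v e => (hv' v e).2)
      (fun c hc e => af c hc (far c e)) (fun c hc e => ⟨hc, by rw [← oo]; exact e⟩)
      (Or.inr ⟨r.wb φ, r.bw φ, ?_⟩)
    intro c b _ _ e1 e2 l
    rw [hfar c (far c e1), hfar b (far b e2), ← not_lt, sq_lt (by norm_num), neg_lt_neg_iff,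
      not_lt]
    exact l
  · intro a b h1 h2 h3 h4 h5
    simp only [φ']
    rw [if_pos (by unfold Out; dsimp only; omega)]
    exact u.bdry a b h1 h2 h3 h4 h5
  · intro c b h1 h2 k
    rw [hn c (bn c h1), hn b (bn b h2), sq_lt (by norm_num)]
    exact u.ord c b h1 h2 k
  · intro c hc o
    by_cases n : N (K φ c)
    · rw [(an c hc n).K]; exact n
    · rw [fK c hc n]
      rw [oo, ← r.f0] at o
      have o' := r.iso.inj _ _ o
      rcases ((near_fix r.s (g.valid.good c hc) o').2 n).2.2 with k | k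
      · right; rw [k]; simp only [KF, r.f0, r.g1]
      · left; rw [k]; simp only [KP, r.f0, r.g2]

/-- ring followed by a turn to the open side -/
theorem Tb.turnO {E X Y o F St Cv} (t : Tb E X Y o F St Cv) {F' St' Cv'} (hn : ¬ F (1, -1))
    (hF0 : F' (1, 1)) (hF : ∀ v, F v → F' (v.2 + 2, v.1))
    (hS0 : F (1, 1) → St' (1, 1) (3, 1) ∧ St' (3, 1) (1, 1))
    (hS : ∀ v w, St v w → St' (v.2 + 2, v.1) (w.2 + 2, w.1))
    (hC : ∀ v : V, v.1 % 2 = 1 → v.2 % 2 = 1 → Cv' (v.2 + 2, v.1) → Cv v) :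
    Tb (Turned KO) (X + 2) (Y + 2) (o + 1) F' St' Cv' := by
  refine (t.ring (F' := fun v => F' (v.2, v.1)) (St' := fun v w => St' (v.2, v.1) (w.2, w.1))
    (Cv' := fun v => Cv (v.1, v.2 - 2)) hn hF0 hF hS0 hS ?_).turn refl_open mot_t
    (fun _ a => a) (fun _ _ a => a) ?_
  · intro v hv
    simpa only [add_sub_cancel_right, Prod.mk.eta] using hv
  · intro v h1 h2 h3
    have := hC (v.1, v.2 - 2) h2 (by dsimp only at *; omega) (by simpa using h3)
    exact ⟨fun e => t.far hn _ (by dsimp only at *; omega) (by dsimp only at *; omega) this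
      (by unfold Near at *; dsimp only at *; omega), this⟩

/-- ring followed by a turn to the closed side -/
theorem Tb.turnC {E X Y o F St Cv} (t : Tb E X Y o F St Cv) {F' St' Cv'} (hn : ¬ F (1, -1))
    (hF0 : F' (1, 1)) (hF : ∀ v, F v → F' (-v.2, 2 - v.1))
    (hS0 : F (1, 1) → St' (1, 1) (-1, 1) ∧ St' (-1, 1) (1, 1))
    (hS : ∀ v w, St v w → St' (-v.2, 2 - v.1) (-w.2, 2 - w.1))
    (hC : ∀ v : V, v.1 % 2 = 1 → v.2 % 2 = 1 → Cv' (-v.2, 2 - v.1) → Cv v) :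
    Tb (Turned KC) (X + 2) (Y + 2) (o + 1) F' St' Cv' := by
  have e : ∀ a : ℤ, 2 - (a + 2) = -a := fun a => by omega
  refine (t.ring (F' := fun v => F' (2 - v.2, 2 - v.1))
    (St' := fun v w => St' (2 - v.2, 2 - v.1) (2 - w.2, 2 - w.1))
    (Cv' := fun v => Cv (v.1, v.2 - 2)) hn hF0 (by simpa only [e] using hF) hS0
    (by simpa only [e] using hS) ?_).turn refl_closed mot_c
    (fun _ a => a) (fun _ _ a => a) ?_
  · intro v hv
    simpa only [add_sub_cancel_right, Prod.mk.eta] using hv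
  · intro v h1 h2 h3
    have := hC (v.1, v.2 - 2) (by dsimp only at *; omega) (by dsimp only at *; omega)
      (by simpa using h3)
    exact ⟨fun e => t.far hn _ (by dsimp only at *; omega) (by dsimp only at *; omega) this
      (by unfold Near at *; dsimp only at *; omega), this⟩

end Pool.Agent.MP_3b5bbf_co.Sm

end

section

/-! Nesting of tubes with plates. -/

set_option linter.unusedSimpArgs false

namespace Pool.Agent.MP_3b5bbf_co.Sm

variable {τ : Cell → Cell} {tv : V → V}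

theorem Gen.refl {R φ h F St Cv} (r : PRefl τ tv) (mt : Mot tv) (g : Gen R φ h F St Cv) :
    Gen (fun c => R (τ c)) (fun v => φ (tv v)) (fun c => -h (τ c)) F St Cv where
  valid := (g.valid.refl r).neg
  kp := fun c hc => by rw [r.K]; exact g.kp _ (r.bd.1 hc)
  closed := by
    apply Closed.neg (h := fun c => h (τ c))
    intro c e b h1 h2 h3 he k1 k2 l1 l2
    rw [r.eps] at he
    rw [r.K] at k1 k2
    dsimp only at l1 l2 h1 h2
    rw [r.nb] at h2 k2 l2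
    exact g.closed _ _ _ h1 h2 (r.bd.1 h3) he k1 k2 l1 l2
  foot := fun c hc => by
    have := g.foot _ hc
    rwa [r.o] at this
  steps := by
    intro c h1 h2 ne
    dsimp only at *
    rw [← r.o, ← r.o, r.nb] at *
    exact g.steps _ h1 h2 ne
  cov := by
    intro m h1 h2 h3
    obtain ⟨f1, f2⟩ := g.cov m h1 h2 h3
    exact ⟨(f2.refl r mt).mono (fun c _ w => (r.black φ c).2 w) (fun d c _ _ l => neg_le_neg l),
      (f1.refl r mt).mono (fun c _ w => (r.white φ c).2 w) (fun d c _ _ l => neg_le_neg l)⟩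

theorem Gen.congr {R R' φ φ' h h' F St Cv} (g : Gen R φ h F St Cv) (hR : ∀ c, R' c ↔ R c)
    (ag : ∀ c, R c → Agr φ' φ c) (hh : ∀ c b, R c → R b → (h' c < h' b ↔ h c < h b)) :
    Gen R' φ' h' F St Cv := by
  obtain rfl : R' = R := funext fun c => propext (hR c)
  refine ⟨g.valid.iso iso_id ag (fun c b h1 h2 _ => hh c b h1 h2),
    fun c hc => by rw [(ag c hc.1).K, g.kp c hc], ?_,
    fun c hc => by rw [(ag c hc).1]; exact g.foot c hc, ?_, ?_⟩
  · intro c e b h1 h2 h3 he k1 k2 l1 l2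
    rw [(ag c h1).eps] at he
    rw [(ag c h1).K] at k1
    rw [(ag _ h2).K] at k2
    exact g.closed c e b h1 h2 h3 he k1 k2 ((hh _ _ h1 h3.1).1 l1) ((hh _ _ h3.1 h2).1 l2)
  · intro c h1 h2 ne
    rw [(ag c h1).1, (ag _ h2).1] at *
    exact g.steps c h1 h2 ne
  · intro m h1 h2 h3
    exact g.cov.map iso_id mot_id (fun _ a => a) h1 h2 (fun v e => by rw [e]; exact h3)
      (fun c hc _ => ag c hc) (fun c hc e => ⟨hc, by rw [(ag c hc).1] at e; exact e⟩)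
      (Or.inl ⟨fun _ a => a, fun _ a => a, fun c b h1 h2 _ _ l => by
        rw [← not_lt] at l ⊢; rwa [hh b c h2 h1]⟩)

theorem nest_gen {x0 x1 y0 y1 ξ φ F1 St1 Cv1 R2 F2 St2 Cv2 R h} {klo khi : ℤ × ℤ}
    (hp : Pure x0 x1 y0 y1 ξ φ h) (g1 : Gen (Rect x0 x1 y0 y1) φ h F1 St1 Cv1)
    (g2 : Gen R2 φ h F2 St2 Cv2)
    (T : ∀ c, R2 c → φ c.o = (1, 1) → K φ c = KP ∨ K φ c = KO)
    (hR : ∀ c, R c ↔ Rect x0 x1 y0 y1 c ∨ R2 c) (dj : ∀ c, Rect x0 x1 y0 y1 c → R2 c → False)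
    (in2 : ∀ c, R2 c → Hk klo < h c ∧ h c < Hk khi)
    (hk : khi.1 = klo.1 ∧ khi.2 = klo.2 + 1) (r1 : Rng x0 x1 y0 y1 ξ klo)
    (r2 : Rng x0 x1 y0 y1 ξ khi)
    (par : (klo.1 = 2 ∧ (-klo.2 + y1 - ξ - y0) % 2 = 0) ∨
      (klo.1 = 1 ∧ (x1 + klo.2 + 1 - ξ - y0) % 2 = 0))
    (X : ∀ c e, Rect x0 x1 y0 y1 c → R2 (c.nb e) → e = .g)
    (hF : ∀ v, F1 v → F2 v → v = (1, 1)) (n1 : ¬ F1 (1, -1)) (n2 : ¬ F2 (1, -1))
    (bd : ∀ c, Bd R c → Bd (Rect x0 x1 y0 y1) c ∨ Bd R2 c)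
    (CO : ∀ c b, Rect x0 x1 y0 y1 c → R2 (c.nb .g) → (Bd (Rect x0 x1 y0 y1) b ∨ Bd R2 b) →
      ((h c < h b ∧ h b < h (c.nb .g)) ∨ (h (c.nb .g) < h b ∧ h b < h c)) → R (b.nb .g) ∧
      ((h c < h (b.nb .g) ∧ h (b.nb .g) < h (c.nb .g)) ∨
        (h (c.nb .g) < h (b.nb .g) ∧ h (b.nb .g) < h c))) :
    Gen R φ h (fun v => F1 v ∨ F2 v) (fun v w => St1 v w ∨ St2 v w)
      (fun v => ¬ Near v (1, 1) ∧ (Cv1 v ∨ Cv2 v)) := by
  have hf := hp.fh
  have d1 := hf.d1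
  have d2 := hf.d2
  have d3 := hf.d3
  have H1 : ∀ c b, Rect x0 x1 y0 y1 c → R2 b → φ c.o = φ b.o → φ c.o = (1, 1) :=
    fun c b h1 h2 e => hF _ (g1.foot c h1) (e ▸ g2.foot b h2)
  have main := nest_valid (lo := Hk klo) (hi := Hk khi) g1.valid g2.valid hR dj in2 H1 ?_ ?_ T X
    g1.kp g2.kp g1.closed g2.closed ?_ CO
  · refine ⟨main.1, fun c hc => (bd c hc).elim (g1.kp c) (g2.kp c), main.2, ?_, ?_, ?_⟩
    · exact fun c hc => ((hR c).1 hc).imp (g1.foot c) (g2.foot c)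
    · intro c h1 h2 ne
      rcases (hR _).1 h1 with a | a <;> rcases (hR _).1 h2 with a' | a'
      · exact Or.inl (g1.steps c a a' ne)
      · have k1 := g1.kp c ⟨a, fun t => dj _ t a'⟩
        have k2 := g2.kp _ ⟨a', by rw [nb_gg]; exact dj _ a⟩
        exact absurd ((congrArg Prod.fst k2).trans (congrArg Prod.fst k1).symm) ne
      · have k1 := g2.kp c ⟨a, dj _ a'⟩
        have k2 := g1.kp _ ⟨a', by rw [nb_gg]; exact fun t => dj _ t a⟩
        exact absurd ((congrArg Prod.fst k2).trans (congrArg Prod.fst k1).symm) ne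
      · exact Or.inr (g2.steps c a a' ne)
    · intro m m1 m2 hc
      rcases hc.2 with hv | hv
      · refine g1.cov.map iso_id mot_id (fun c a => (hR c).2 (Or.inl a)) m1 m2
          (fun v e => by rw [e]; exact hv) (fun c hc _ => ⟨rfl, rfl, rfl⟩)
          (fun c r ec => ⟨((hR c).1 r).resolve_right (fun r2 => hc.1 ?_), ec⟩)
          (Or.inl ⟨fun _ a => a, fun _ a => a, fun c b h1 h2 _ _ l => l⟩)
        obtain ⟨a, ha, oa⟩ := (g1.cov m m1 m2 hv).1.hit (good_key (g2.valid.good c r2)) ec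
          g1.valid.good
        replace oa : φ a.o = φ c.o := congrArg Prod.fst oa
        rwa [← oa, H1 a c ha r2 oa] at ec
      · refine g2.cov.map iso_id mot_id (fun c a => (hR c).2 (Or.inr a)) m1 m2
          (fun v e => by rw [e]; exact hv) (fun c hc _ => ⟨rfl, rfl, rfl⟩)
          (fun c r ec => ⟨((hR c).1 r).resolve_left (fun r1 => hc.1 ?_), ec⟩)
          (Or.inl ⟨fun _ a => a, fun _ a => a, fun c b h1 h2 _ _ l => l⟩)
        obtain ⟨a, ha, oa⟩ := (g2.cov m m1 m2 hv).1.hit (good_key (g1.valid.good c r1)) ec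
          g2.valid.good
        replace oa : φ a.o = φ c.o := congrArg Prod.fst oa
        rwa [H1 c a r1 ha oa.symm] at ec
  · intro c hc o
    rw [hp.hk c (hp.fr c hc o), Hk_le, Hk_le]
    unfold klt; omega
  · intro c e h1 h2 k1 k2
    have o1 : φ c.o = (1, 1) := k1.elim (congrArg Prod.fst) (congrArg Prod.fst)
    have o2 : φ (c.nb e).o = (1, 1) := k2.elim (congrArg Prod.fst) (congrArg Prod.fst)
    have f1 := hp.fr c h1 o1
    have f2 := hp.fr _ h2 o2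
    rw [hp.hk _ f1, hp.hk _ f2, Hk_le, Hk_le]
    cases e
    · have k : K φ c = KO := k1.resolve_left (fun k => hp.kp_out h1 k h2)
      have g := hf.grid f1 (Or.inl k) _ _ rfl rfl
      have ne : KO ≠ KC := by simp [KO, KC]
      simp only [k, ne, false_and, or_false, true_imp_iff] at g
      unfold klt; omega
    · have g := hf.diag f1
      unfold Cons Rng klt at *
      rcases g with g | g | g
      · rw [g.2]; exact id
      · omega
      · omega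
    · have nn : (c.nb .b).nb .a = c := nb_nb c .b
      have g := hf.diag f2
      rw [nn] at g
      unfold Cons Rng klt at *
      rcases g with g | g | g
      · rw [g.2]; exact id
      · omega
      · omega
  · intro c hc e
    rcases (hR c).1 hc with a | a
    · exact n1 (e ▸ g1.foot c a)
    · exact n2 (e ▸ g2.foot c a)

theorem Tube.ord_iff {x0 x1 y0 y1 ξ φ h F St Cv} (u : Tube x0 x1 y0 y1 ξ φ h F St Cv) {c b : Cell}
    (hc : Bd (Rect x0 x1 y0 y1) c) (hb : Bd (Rect x0 x1 y0 y1) b) :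
    h c < h b ↔ klt (bkey ξ c) (bkey ξ b) := by
  refine ⟨fun l => ?_, u.ord c b hc hb⟩
  by_contra n
  have : klt (bkey ξ b) (bkey ξ c) ∨ bkey ξ c = bkey ξ b := by
    unfold klt at *
    rw [Prod.ext_iff]
    omega
  rcases this with t | t
  · exact absurd l (u.ord _ _ hb hc t).not_gt
  · rw [bkey_inj hc hb t] at l
    exact lt_irrefl _ l

theorem Tb.nestTop {X Y1 Y2 o1 o2 F1 St1 Cv1 F2 St2 Cv2} (t1 : Tb Pure X Y1 o1 F1 St1 Cv1)
    (t2 : Tb (Turned KO) X Y2 o2 F2 St2 Cv2) (par : (o1 + o2 + Y1) % 2 = 0)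
    (hF : ∀ v, F1 v → F2 v → v = (1, 1)) (n1 : ¬ F1 (1, -1)) (n2 : ¬ F2 (1, -1)) :
    Tb Any X (Y1 + Y2) o1 (fun v => F1 v ∨ F2 v) (fun v w => St1 v w ∨ St2 v w)
      (fun v => ¬ Near v (1, 1) ∧ (Cv1 v ∨ Cv2 v)) := by
  intro x0 x1 y0 y1 ξ a b c
  obtain ⟨φ1, h1, u1, hp1⟩ := t1 x0 x1 y0 (y0 + Y1) ξ a rfl c
  obtain ⟨φ2, h2, u2, T2⟩ := t2 x0 x1 (y0 + Y1) y1 (x0 + o2) a (by omega) rfl
  have par' : (x0 + o2 + (y0 + Y1) - ξ - y0) % 2 = 0 := by omega
  clear t1 t2 a b c par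
  generalize y0 + Y1 = ym at *
  generalize x0 + o2 = g at *
  have d1 := hp1.fh.d1
  have d2 := hp1.fh.d2
  have d3 := hp1.fh.d3
  have d4 := u2.d1
  have d5 := u2.d2
  have d6 := u2.d3
  let φ : V → V := fun v => if v.2 ≤ 2 * ym then φ1 v else φ2 v
  let h : Cell → ℚ := fun c => if c.y < ym then h1 c else sq (Hk (2, -g)) (Hk (2, -g + 1)) (h2 c)
  have lh : Hk (2, -g) < Hk (2, -g + 1) := by rw [Hk_lt]; unfold klt; dsimp only; omega
  have e1 : ∀ c, Rect x0 x1 y0 ym c → h c = h1 c := fun c hc => if_pos hc.2.2.2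
  have e2 : ∀ c, Rect x0 x1 ym y1 c → h c = sq (Hk (2, -g)) (Hk (2, -g + 1)) (h2 c) :=
    fun c hc => if_neg (not_lt.2 hc.2.2.1)
  have hp : Pure x0 x1 y0 ym ξ φ h := hp1.congr (fun v hv => if_pos hv.2.2.2) e1
  have v2 : ∀ v : V, (v.1 + v.2) % 2 = 0 →
      2 * x0 ≤ v.1 ∧ v.1 ≤ 2 * x1 ∧ 2 * ym ≤ v.2 ∧ v.2 ≤ 2 * y1 → φ v = φ2 v := by
    intro v p hv
    by_cases t : v.2 ≤ 2 * ym
    · obtain ⟨a, rfl⟩ : ∃ a, v = (2 * a, 2 * ym) := ⟨v.1 / 2, Prod.ext (by omega) (by omega)⟩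
      dsimp only at hv
      simp only [φ]
      rw [if_pos le_rfl, u1.bdry a ym (by omega) (by omega) (by omega) (by omega) (by omega),
        u2.bdry a ym (by omega) (by omega) (by omega) (by omega) (by omega)]
      simp only [Prod.mk.injEq, and_true]; omega
    · exact if_neg t
  have a2 := agr_rect v2
  have g1 := u1.gen.congr (h' := h) (fun _ => Iff.rfl)
    (agr_rect (fun v _ hv => (if_pos hv.2.2.2 : φ v = φ1 v)))
    (fun c b hc hb => by rw [e1 c hc, e1 b hb])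
  have g2 := u2.gen.congr (h' := h) (fun _ => Iff.rfl) a2
    (fun c b hc hb => by rw [e2 c hc, e2 b hb, sq_lt lh])
  have in2 : ∀ c, Rect x0 x1 ym y1 c → Hk (2, -g) < h c ∧ h c < Hk (2, -g + 1) :=
    fun c hc => by rw [e2 c hc]; exact sq_mem lh _
  have L11 : ∀ {c b}, Bd (Rect x0 x1 y0 ym) c → Bd (Rect x0 x1 y0 ym) b →
      (h c < h b ↔ klt (bkey ξ c) (bkey ξ b)) := fun hc hb => by
    rw [(hp.bd hc).2, (hp.bd hb).2, Hk_lt]
  have L12 : ∀ {c b}, Bd (Rect x0 x1 y0 ym) c → Bd (Rect x0 x1 ym y1) b →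
      (h c < h b ↔ ¬ klt (2, -g) (bkey ξ c)) := fun hc hb => by
    rw [(hp.bd hc).2]; exact (gap_lt (klo := (2, -g)) (khi := (2, -g + 1)) ⟨rfl, rfl⟩ (in2 _ hb.1)).1
  have L21 : ∀ {c b}, Bd (Rect x0 x1 ym y1) c → Bd (Rect x0 x1 y0 ym) b →
      (h c < h b ↔ ¬ klt (bkey ξ b) (2, -g + 1)) := fun hc hb => by
    rw [(hp.bd hb).2]; exact (gap_lt (klo := (2, -g)) (khi := (2, -g + 1)) ⟨rfl, rfl⟩ (in2 _ hc.1)).2
  have L22 : ∀ {c b}, Bd (Rect x0 x1 ym y1) c → Bd (Rect x0 x1 ym y1) b →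
      (h c < h b ↔ klt (bkey g c) (bkey g b)) := fun hc hb => by
    rw [e2 _ hc.1, e2 _ hb.1, sq_lt lh, u2.ord_iff hc hb]
  have bd : ∀ c, Bd (Rect x0 x1 y0 y1) c → Bd (Rect x0 x1 y0 ym) c ∨ Bd (Rect x0 x1 ym y1) c := by
    intro c; unfold Bd Rect; omega
  refine ⟨φ, h, ⟨u1.d1, u1.d2, by omega, ?_, ?_, ?_⟩, trivial⟩
  · refine nest_gen (klo := (2, -g)) (khi := (2, -g + 1)) hp g1 g2 ?_ ?_ ?_ in2 ⟨rfl, rfl⟩ ?_ ?_ ?_
      ?_ hF n1 n2 bd ?_
    · intro c hc o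
      rw [(a2 c hc).K]
      exact T2 c hc ((a2 c hc).1.symm.trans o)
    · intro c; unfold Rect; omega
    · intro c; unfold Rect; omega
    · unfold Rng; dsimp only; omega
    · unfold Rng; dsimp only; omega
    · dsimp only; omega
    · intro c e r1 r2
      refine nb_g_of (c := c) ?_
      unfold Rect at *; omega
    · intro c b r1 r2 bb l
      have c1 : Bd (Rect x0 x1 y0 ym) c := ⟨r1, by unfold Rect at *; omega⟩
      have c2 : Bd (Rect x0 x1 ym y1) (c.nb .g) := ⟨r2, by rw [nb_gg]; unfold Rect at *; omega⟩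
      obtain ⟨x, rfl⟩ : ∃ x, c = ⟨x, ym - 1, .n⟩ := by
        rcases c with ⟨x, y, d⟩
        refine ⟨x, ?_⟩
        cases d <;> simp only [Rect, Cell.nb, Cell.mk.injEq, reduceCtorEq, and_false, and_true,
          true_and] at r1 r2 ⊢ <;> omega
      rcases b with ⟨x', y', d'⟩
      rcases bb with bb | bb
      · rw [L11 c1 bb, L12 bb c2, L21 c2 bb, L11 bb c1] at l
        have b2 : Bd (Rect x0 x1 ym y1) ((⟨x', y', d'⟩ : Cell).nb .g) ∧ d' = .n := by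
          cases d' <;> simp only [Bd, Rect, Cell.nb, bkey, klt, reduceCtorEq, and_false,
            and_true, true_and] at * <;> omega
        obtain ⟨b2, rfl⟩ := b2
        rw [L12 c1 b2, L22 b2 c2, L22 c2 b2, L21 b2 c1]
        simp only [Bd, Rect, Cell.nb, bkey, klt, true_and] at *
        omega
      · rw [L12 c1 bb, L22 bb c2, L22 c2 bb, L21 bb c1] at l
        have b2 : Bd (Rect x0 x1 y0 ym) ((⟨x', y', d'⟩ : Cell).nb .g) ∧ d' = .s := by
          cases d' <;> simp only [Bd, Rect, Cell.nb, bkey, klt, reduceCtorEq, and_false,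
            and_true, true_and] at * <;> omega
        obtain ⟨b2, rfl⟩ := b2
        rw [L11 c1 b2, L12 b2 c2, L21 c2 b2, L11 b2 c1]
        simp only [Bd, Rect, Cell.nb, bkey, klt, true_and] at *
        omega
  · intro a b r1 r2 r3 r4 r5
    by_cases t : b ≤ ym
    · simp only [φ]
      rw [if_pos (by omega)]
      exact u1.bdry a b r1 r2 r3 t (by omega)
    · rw [v2 _ (by dsimp only; omega) (by dsimp only; omega),
        u2.bdry a b r1 r2 (by omega) r4 (by omega)]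
      simp only [Prod.mk.injEq, and_true]; omega
  · intro c b hc hb k
    rcases bd c hc with c1 | c1 <;> rcases bd b hb with b1 | b1
    · exact (L11 c1 b1).2 k
    all_goals
      first | rw [L12 c1 b1] | rw [L21 c1 b1] | rw [L22 c1 b1]
      rcases c with ⟨x, y, d⟩
      rcases b with ⟨x', y', d'⟩
      cases d <;> cases d' <;> simp only [Bd, Rect, Cell.nb, bkey, klt, true_and] at * <;> omega

theorem Tb.nestRight {X1 X2 Y o1 o2 F1 St1 Cv1 F2 St2 Cv2} (t1 : Tb Pure X1 Y o1 F1 St1 Cv1)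
    (t2 : Tb (Turned KO) Y X2 o2 F2 St2 Cv2) (par : (o1 + o2 + X1) % 2 = 0)
    (hF : ∀ v, F1 v → F2 v → v = (1, 1)) (n1 : ¬ F1 (1, -1)) (n2 : ¬ F2 (1, -1)) :
    Tb Any (X1 + X2) Y o1 (fun v => F1 v ∨ F2 v) (fun v w => St1 v w ∨ St2 v w)
      (fun v => ¬ Near v (1, 1) ∧ (Cv1 v ∨ Cv2 v)) := by
  intro x0 x1 y0 y1 ξ a b c
  obtain ⟨φ1, h1, u1, hp1⟩ := t1 x0 (x0 + X1) y0 y1 ξ rfl b c
  obtain ⟨φ2, h2, u2, T2⟩ := t2 y0 y1 (x0 + X1) x1 (y0 + o2) b (by omega) rfl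
  have par' : (x0 + X1 + (y0 + o2) - ξ - y0) % 2 = 0 := by omega
  clear t1 t2 a b c par
  generalize x0 + X1 = xm at *
  generalize y0 + o2 = g at *
  have d1 := hp1.fh.d1
  have d2 := hp1.fh.d2
  have d3 := hp1.fh.d3
  have d4 := u2.d1
  have d5 := u2.d2
  have d6 := u2.d3
  have tr : ∀ c, Rect xm x1 y0 y1 c ↔ Rect y0 y1 xm x1 (tcell c) := by
    intro c
    have := tcell_xy c
    unfold Rect; omega
  have tb : ∀ c, Bd (Rect xm x1 y0 y1) c → Bd (Rect y0 y1 xm x1) (tcell c) := by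
    intro c hc
    rw [← prefl_t.bd]
    exact ⟨(tr _).1 hc.1, fun a => hc.2 ((tr _).2 a)⟩
  let φ : V → V := fun v => if v.1 ≤ 2 * xm then φ1 v else φ2 (v.2, v.1)
  let h : Cell → ℚ := fun c =>
    if c.x < xm then h1 c else sq (Hk (1, g - 1)) (Hk (1, g - 1 + 1)) (-h2 (tcell c))
  have lh : Hk (1, g - 1) < Hk (1, g - 1 + 1) := by rw [Hk_lt]; unfold klt; dsimp only; omega
  have e1 : ∀ c, Rect x0 xm y0 y1 c → h c = h1 c := fun c hc => if_pos hc.2.1
  have e2 : ∀ c, Rect xm x1 y0 y1 c →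
      h c = sq (Hk (1, g - 1)) (Hk (1, g - 1 + 1)) (-h2 (tcell c)) :=
    fun c hc => if_neg (not_lt.2 hc.1)
  have hp : Pure x0 xm y0 y1 ξ φ h := hp1.congr (fun v hv => if_pos hv.2.1) e1
  have v2 : ∀ v : V, (v.1 + v.2) % 2 = 0 →
      2 * xm ≤ v.1 ∧ v.1 ≤ 2 * x1 ∧ 2 * y0 ≤ v.2 ∧ v.2 ≤ 2 * y1 →
      φ v = (fun v : V => φ2 (v.2, v.1)) v := by
    intro v p hv
    by_cases t : v.1 ≤ 2 * xm
    · obtain ⟨a, rfl⟩ : ∃ a, v = (2 * xm, 2 * a) := ⟨v.2 / 2, Prod.ext (by omega) (by omega)⟩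
      dsimp only at hv
      simp only [φ]
      rw [if_pos le_rfl, u1.bdry xm a (by omega) (by omega) (by omega) (by omega) (by omega),
        u2.bdry a xm (by omega) (by omega) (by omega) (by omega) (by omega)]
      simp only [Prod.mk.injEq, and_true]; omega
    · exact if_neg t
  have a2 := agr_rect v2
  have g1 := u1.gen.congr (h' := h) (fun _ => Iff.rfl)
    (agr_rect (fun v _ hv => (if_pos hv.2.1 : φ v = φ1 v)))
    (fun c b hc hb => by rw [e1 c hc, e1 b hb])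
  have g2 := (u2.gen.refl prefl_t mot_t).congr (h' := h) tr (fun c hc => a2 c ((tr c).2 hc))
    (fun c b hc hb => by rw [e2 c ((tr c).2 hc), e2 b ((tr b).2 hb), sq_lt lh])
  have in2 : ∀ c, Rect xm x1 y0 y1 c → Hk (1, g - 1) < h c ∧ h c < Hk (1, g - 1 + 1) :=
    fun c hc => by rw [e2 c hc]; exact sq_mem lh _
  have L11 : ∀ {c b}, Bd (Rect x0 xm y0 y1) c → Bd (Rect x0 xm y0 y1) b →
      (h c < h b ↔ klt (bkey ξ c) (bkey ξ b)) := fun hc hb => by
    rw [(hp.bd hc).2, (hp.bd hb).2, Hk_lt]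
  have L12 : ∀ {c b}, Bd (Rect x0 xm y0 y1) c → Bd (Rect xm x1 y0 y1) b →
      (h c < h b ↔ ¬ klt (1, g - 1) (bkey ξ c)) := fun hc hb => by
    rw [(hp.bd hc).2]
    exact (gap_lt (klo := (1, g - 1)) (khi := (1, g - 1 + 1)) ⟨rfl, rfl⟩ (in2 _ hb.1)).1
  have L21 : ∀ {c b}, Bd (Rect xm x1 y0 y1) c → Bd (Rect x0 xm y0 y1) b →
      (h c < h b ↔ ¬ klt (bkey ξ b) (1, g - 1 + 1)) := fun hc hb => by
    rw [(hp.bd hb).2]
    exact (gap_lt (klo := (1, g - 1)) (khi := (1, g - 1 + 1)) ⟨rfl, rfl⟩ (in2 _ hc.1)).2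
  have L22 : ∀ {c b}, Bd (Rect xm x1 y0 y1) c → Bd (Rect xm x1 y0 y1) b →
      (h c < h b ↔ klt (bkey g (tcell b)) (bkey g (tcell c))) := fun hc hb => by
    rw [e2 _ hc.1, e2 _ hb.1, sq_lt lh, neg_lt_neg_iff, u2.ord_iff (tb _ hb) (tb _ hc)]
  have bd : ∀ c, Bd (Rect x0 x1 y0 y1) c → Bd (Rect x0 xm y0 y1) c ∨ Bd (Rect xm x1 y0 y1) c := by
    intro c; unfold Bd Rect; omega
  refine ⟨φ, h, ⟨u1.d1, by omega, u1.d3, ?_, ?_, ?_⟩, trivial⟩
  · refine nest_gen (klo := (1, g - 1)) (khi := (1, g - 1 + 1)) hp g1 g2 ?_ ?_ ?_ in2 ⟨rfl, rfl⟩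
      ?_ ?_ ?_ ?_ hF n1 n2 bd ?_
    · intro c hc o
      rw [(a2 c hc).K, prefl_t.K]
      refine T2 _ ((tr c).1 hc) ?_
      rw [prefl_t.o]
      exact (a2 c hc).1.symm.trans o
    · intro c; unfold Rect; omega
    · intro c; unfold Rect; omega
    · unfold Rng; dsimp only; omega
    · unfold Rng; dsimp only; omega
    · dsimp only; omega
    · intro c e r1 r2
      refine nb_g_of (c := c) ?_
      unfold Rect at *; omega
    · intro c b r1 r2 bb l
      have c1 : Bd (Rect x0 xm y0 y1) c := ⟨r1, by unfold Rect at *; omega⟩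
      have c2 : Bd (Rect xm x1 y0 y1) (c.nb .g) := ⟨r2, by rw [nb_gg]; unfold Rect at *; omega⟩
      obtain ⟨y, rfl⟩ : ∃ y, c = ⟨xm - 1, y, .e⟩ := by
        rcases c with ⟨x, y, d⟩
        refine ⟨y, ?_⟩
        cases d <;> simp only [Rect, Cell.nb, Cell.mk.injEq, reduceCtorEq, and_false, and_true,
          true_and] at r1 r2 ⊢ <;> omega
      rcases b with ⟨x', y', d'⟩
      rcases bb with bb | bb
      · rw [L11 c1 bb, L12 bb c2, L21 c2 bb, L11 bb c1] at l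
        have b2 : Bd (Rect xm x1 y0 y1) ((⟨x', y', d'⟩ : Cell).nb .g) ∧ d' = .e := by
          cases d' <;> simp only [Bd, Rect, Cell.nb, bkey, klt, reduceCtorEq, and_false,
            and_true, true_and] at * <;> omega
        obtain ⟨b2, rfl⟩ := b2
        rw [L12 c1 b2, L22 b2 c2, L22 c2 b2, L21 b2 c1]
        simp only [Bd, Rect, Cell.nb, tcell, bkey, klt, true_and] at *
        omega
      · rw [L12 c1 bb, L22 bb c2, L22 c2 bb, L21 bb c1] at l
        have b2 : Bd (Rect x0 xm y0 y1) ((⟨x', y', d'⟩ : Cell).nb .g) ∧ d' = .w := by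
          cases d' <;> simp only [Bd, Rect, Cell.nb, tcell, bkey, klt, reduceCtorEq, and_false,
            and_true, true_and] at * <;> omega
        obtain ⟨b2, rfl⟩ := b2
        rw [L11 c1 b2, L12 b2 c2, L21 c2 b2, L11 b2 c1]
        simp only [Bd, Rect, Cell.nb, tcell, bkey, klt, true_and] at *
        omega
  · intro a b r1 r2 r3 r4 r5
    by_cases t : a ≤ xm
    · simp only [φ]
      rw [if_pos (by omega)]
      by_cases t' : a = xm
      · exact u1.bdry a b r1 t r3 r4 (by omega)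
      · exact u1.bdry a b r1 t r3 r4 (by omega)
    · rw [v2 _ (by dsimp only; omega) (by dsimp only; omega)]
      dsimp only
      rw [u2.bdry b a r3 r4 (by omega) r2 (by omega)]
      simp only [Prod.mk.injEq, and_true]; omega
  · intro c b hc hb k
    rcases bd c hc with c1 | c1 <;> rcases bd b hb with b1 | b1
    · exact (L11 c1 b1).2 k
    all_goals
      first | rw [L12 c1 b1] | rw [L21 c1 b1] | rw [L22 c1 b1]
      rcases c with ⟨x, y, d⟩
      rcases b with ⟨x', y', d'⟩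
      cases d <;> cases d' <;> simp only [Bd, Rect, Cell.nb, tcell, bkey, klt, true_and] at * <;>
        omega

end Pool.Agent.MP_3b5bbf_co.Sm

end
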