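import Pool.Agent.Mg.F3b5bbfq.G0eabf5

set_option linter.all false

section

/-! Sections of the triangles by level lines. -/

namespace Pool.Agent.MP_3b5bbf_co.Up

open Set MeasureTheory Filter Topology

theorem sum3 {M : Type*} [AddCommMonoid M] {k l m : Fin 3} (h1 : k ≠ l) (h2 : k ≠ m) (h3 : l ≠ m)
    (φ : Fin 3 → M) : ∑ j, φ j = φ k + φ l + φ m := by
  have : (Finset.univ : Finset (Fin 3)) = {k, l, m} := by
    revert k l m; decide
  rw [this, Finset.sum_insert (by simp [h1, h2]), Finset.sum_pair h3, add_assoc]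

theorem Vs.repr {w : Fin 3 → ℂ} {a b c z : ℂ} (h : Vs w a b c) (hz : z ∈ tri w) :
    ∃ r s t : ℝ, 0 ≤ r ∧ 0 ≤ s ∧ 0 ≤ t ∧ r + s + t = 1 ∧ r • a + s • b + t • c = z := by
  obtain ⟨k, l, m, h1, h2, h3, rfl, rfl, rfl⟩ := h
  obtain ⟨x, x1, x2, x3⟩ := mem_tri'.1 hz
  rw [comb, sum3 h1 h2 h3] at x3
  rw [sum3 h1 h2 h3] at x2
  exact ⟨_, _, _, x1 k, x1 l, x1 m, x2, x3⟩

theorem Vs.mem_inn {w : Fin 3 → ℂ} {a b c : ℂ} (h : Vs w a b c) (hw : dd w ≠ 0) {r s t : ℝ}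
    (hr : 0 < r) (hs : 0 < s) (ht : 0 < t) (e : r + s + t = 1) : r • a + s • b + t • c ∈ inn w := by
  obtain ⟨k, l, m, h1, h2, h3, rfl, rfl, rfl⟩ := h
  let x : Fin 3 → ℝ := fun j => if j = k then r else if j = l then s else t
  have e1 : comb w x = r • w k + s • w l + t • w m := by
    rw [comb, sum3 h1 h2 h3]; simp [x, h1.symm, h2.symm, h3.symm]
  intro j
  rw [← e1, bary_comb hw (by rw [sum3 h1 h2 h3]; simpa [x, h1.symm, h2.symm, h3.symm] using e)]
  simp only [x]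
  split_ifs <;> assumption

variable (F : FlatFolding) (h : ℂ →L[ℝ] ℝ)

/-- no image vertex has level `t` -/
def NoV (t : ℝ) : Prop := ∀ i k, h (F.f (F.v i k)) ≠ t

/-- the triangle meets the level -/
def Node (ν : Fin F.n × ℝ) : Prop := ∃ x ∈ T F ν.1, h (F.f x) = ν.2

/-- `P Q` are the ends of the section -/
structure Ends (ν : Fin F.n × ℝ) (P Q : ℂ) : Prop where
  p1 : P ∈ T F ν.1
  q1 : Q ∈ T F ν.1
  p2 : P ∉ In F ν.1
  q2 : Q ∉ In F ν.1
  p3 : h (F.f P) = ν.2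
  q3 : h (F.f Q) = ν.2
  ne : P ≠ Q
  seg : ∀ x ∈ T F ν.1, h (F.f x) = ν.2 → x ∈ segment ℝ P Q
  opn : ∀ x ∈ openSegment ℝ P Q, x ∈ In F ν.1

variable {F h} {i : Fin F.n} {ν ν' : Fin F.n × ℝ} {p q x y : ℂ} {t : ℝ}

theorem lv_aff (hx : x ∈ T F i) (hy : y ∈ T F i) {s t : ℝ} (hs : 0 ≤ s) (ht : 0 ≤ t)
    (e : s + t = 1) : h (F.f (s • x + t • y)) = s * h (F.f x) + t * h (F.f y) := by
  rw [f_aff hx hy hs ht e]; simp only [map_add, map_smul, smul_eq_mul]

theorem lv_comb (hx : x ∈ T F i) :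
    h (F.f x) = ∑ k, bary (F.v i) x k * h (F.f (F.v i k)) := by
  rw [f_eq hx, lift, comb, map_sum]
  simp only [map_smul, smul_eq_mul, Function.comp]

theorem lone (hn : Node F h ν) (hv : NoV F h ν.2) : ∃ a b c, Vs (F.v ν.1) a b c ∧
    (h (F.f a) - ν.2) * (h (F.f b) - ν.2) < 0 ∧ (h (F.f a) - ν.2) * (h (F.f c) - ν.2) < 0 := by
  obtain ⟨x, hx, e⟩ := hn
  have e1 := lv_comb (h := h) hx
  have e2 := sum_bary (dv ν.1) x
  have e3 := (mem_tri_iff (dv ν.1)).1 hx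
  rw [Fin.sum_univ_three] at e1 e2
  have b0 := e3 0
  have b1 := e3 1
  have b2 := e3 2
  have V0 : Vs (F.v ν.1) _ _ _ := ⟨0, 1, 2, by decide, by decide, by decide, rfl, rfl, rfl⟩
  have V1 : Vs (F.v ν.1) _ _ _ := ⟨1, 0, 2, by decide, by decide, by decide, rfl, rfl, rfl⟩
  have V2 : Vs (F.v ν.1) _ _ _ := ⟨2, 0, 1, by decide, by decide, by decide, rfl, rfl, rfl⟩
  have key : ∀ y0 y1 y2 : ℝ, 0 < y0 → 0 < y1 → 0 < y2 → 0 <
      bary (F.v ν.1) x 0 * y0 + bary (F.v ν.1) x 1 * y1 + bary (F.v ν.1) x 2 * y2 := by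
    intro y0 y1 y2 a0 a1 a2
    by_contra hc
    have c0 := mul_nonneg b0 a0.le
    have c1 := mul_nonneg b1 a1.le
    have c2 := mul_nonneg b2 a2.le
    have d0 : bary (F.v ν.1) x 0 ≤ 0 := by by_contra hh; nlinarith [mul_pos (not_le.1 hh) a0]
    have d1 : bary (F.v ν.1) x 1 ≤ 0 := by by_contra hh; nlinarith [mul_pos (not_le.1 hh) a1]
    have d2 : bary (F.v ν.1) x 2 ≤ 0 := by by_contra hh; nlinarith [mul_pos (not_le.1 hh) a2]
    linarith
  rcases lt_or_gt_of_ne (hv ν.1 0) with a0 | a0 <;> rcases lt_or_gt_of_ne (hv ν.1 1) with a1 | a1 <;>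
    rcases lt_or_gt_of_ne (hv ν.1 2) with a2 | a2
  · exact absurd (key _ _ _ (sub_pos.2 a0) (sub_pos.2 a1) (sub_pos.2 a2)).ne'
      (not_not.2 (by linear_combination e1 - e + ν.2 * e2))
  · exact ⟨_, _, _, V2, by nlinarith, by nlinarith⟩
  · exact ⟨_, _, _, V1, by nlinarith, by nlinarith⟩
  · exact ⟨_, _, _, V0, by nlinarith, by nlinarith⟩
  · exact ⟨_, _, _, V0, by nlinarith, by nlinarith⟩
  · exact ⟨_, _, _, V1, by nlinarith, by nlinarith⟩
  · exact ⟨_, _, _, V2, by nlinarith, by nlinarith⟩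
  · exact absurd (key _ _ _ (sub_pos.2 a0) (sub_pos.2 a1) (sub_pos.2 a2)).ne'
      (not_not.2 (by linear_combination e - e1 - ν.2 * e2))

theorem lv3 {a b c : ℂ} (V : Vs (F.v i) a b c) {r s t : ℝ} (hr : 0 ≤ r) (hs : 0 ≤ s) (ht : 0 ≤ t)
    (e : r + s + t = 1) :
    h (F.f (r • a + s • b + t • c)) = r * h (F.f a) + s * h (F.f b) + t * h (F.f c) := by
  have m := V.mem_tri hr hs ht e
  obtain ⟨k, l, m', h1, h2, h3, rfl, rfl, rfl⟩ := V
  let x : Fin 3 → ℝ := fun j => if j = k then r else if j = l then s else t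
  have e1 : comb (F.v i) x = r • F.v i k + s • F.v i l + t • F.v i m' := by
    rw [comb, sum3 h1 h2 h3]; simp [x, h1.symm, h2.symm, h3.symm]
  rw [lv_comb m, ← e1, bary_comb (dv i)
    (by rw [sum3 h1 h2 h3]; simpa [x, h1.symm, h2.symm, h3.symm] using e), sum3 h1 h2 h3]
  simp [x, h1.symm, h2.symm, h3.symm]

theorem exists_ends (hn : Node F h ν) (hv : NoV F h ν.2) : ∃ e : ℂ × ℂ, Ends F h ν e.1 e.2 := by
  obtain ⟨a, b, c, V, h1, h2⟩ := lone hn hv
  obtain ⟨s, s', hs, hs', ss, es, -⟩ := exists_weights h1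
  obtain ⟨r, r', hr, hr', rr, er, -⟩ := exists_weights h2
  have ta := mem_tri_of_range V.mem1
  have tb := mem_tri_of_range V.mem2
  have tc := mem_tri_of_range V.mem3
  have sP : s • a + s' • b ∈ segment ℝ a b := ⟨s, s', hs.le, hs'.le, ss, rfl⟩
  have sQ : r • a + r' • c ∈ segment ℝ a c := ⟨r, r', hr.le, hr'.le, rr, rfl⟩
  refine ⟨(s • a + s' • b, r • a + r' • c), V.seg_sub sP, V.rot.seg_sub sQ,
    V.not_inn (dv _) sP, V.rot.not_inn (dv _) sQ, ?_, ?_, ?_, ?_, ?_⟩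
  · rw [lv_aff ta tb hs.le hs'.le ss]; linear_combination es + ν.2 * ss
  · rw [lv_aff ta tc hr.le hr'.le rr]; linear_combination er + ν.2 * rr
  · intro e
    have e' : s • a + s' • b = r • a + r' • c := e
    have c1 := cross_seg (e' ▸ sP)
    have : cross a b (r • a + r' • c) = r' * cross a b c := by
      rw [show r = 1 - r' by linarith]; simp [cross]; ring
    rw [this] at c1
    exact mul_ne_zero hr'.ne' (V.cross_ne (dv _)) c1
  · intro x hx e
    obtain ⟨α, β, γ, a0, b0, c0, s1, rfl⟩ := V.repr hx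
    rw [lv3 V a0 b0 c0 s1] at e
    have A0 : h (F.f a) - ν.2 ≠ 0 := left_ne_zero_of_mul h1.ne
    have k : β / s' * s + γ / r' * r = α := by
      field_simp
      apply mul_left_cancel₀ A0
      linear_combination β * r' * es + γ * s' * er - s' * r' * e + s' * r' * ν.2 * s1
    refine ⟨β / s', γ / r', by positivity, by positivity, ?_, ?_⟩
    · have k1 : β / s' * s' = β := by field_simp
      have k2 : γ / r' * r' = γ := by field_simp
      linear_combination k + k1 + k2 + s1 - β / s' * ss - γ / r' * rr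
    · rw [← k]
      have k1 : β = β / s' * s' := by field_simp
      have k2 : γ = γ / r' * r' := by field_simp
      conv_rhs => rw [k1, k2]
      simp only [smul_add, smul_smul, add_smul]
      have k3 : β / s' * s' / s' = β / s' := by field_simp
      have k4 : γ / r' * r' / r' = γ / r' := by field_simp
      rw [k3, k4]
      abel
  · rintro x ⟨u, v, hu, hv', uv, rfl⟩
    have := V.mem_inn (dv _) (r := u * s + v * r) (s := u * s') (t := v * r') (by positivity)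
      (by positivity) (by positivity) (by linear_combination u * ss + v * rr + uv)
    convert this using 1
    module

variable (F h) in
/-- the ends of the section -/
noncomputable def ep (ν : Fin F.n × ℝ) : ℂ × ℂ :=
  Classical.epsilon fun e : ℂ × ℂ => Ends F h ν e.1 e.2

theorem ep_spec (hn : Node F h ν) (hv : NoV F h ν.2) : Ends F h ν (ep F h ν).1 (ep F h ν).2 :=
  Classical.epsilon_spec (exists_ends hn hv)

theorem Ends.eq_or {P Q : ℂ} (e : Ends F h ν P Q) (hx : x ∈ T F ν.1) (hl : h (F.f x) = ν.2)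
    (hi : x ∉ In F ν.1) : P = x ∨ Q = x := by
  by_contra hc
  rw [not_or] at hc
  exact hi (e.opn x (mem_openSegment_of_ne_left_right hc.1 hc.2 (e.seg x hx hl)))

theorem Ends.lv_seg {P Q : ℂ} (e : Ends F h ν P Q) (hx : x ∈ segment ℝ P Q) :
    h (F.f x) = ν.2 := by
  obtain ⟨s, t, hs, ht, st, rfl⟩ := hx
  rw [lv_aff e.p1 e.q1 hs ht st, e.p3, e.q3, ← add_mul, st, one_mul]

theorem level_of_cross {a b z : ℂ} (hab : a ≠ b) (ha : h a = t) (hb : h b = t)
    (hz : cross a b z = 0) : h z = t := by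
  have hn : 0 < Complex.normSq (b - a) := Complex.normSq_pos.2 (sub_ne_zero.2 hab.symm)
  have : z = a + (((z - a).re * (b - a).re + (z - a).im * (b - a).im) / Complex.normSq (b - a)) •
      (b - a) := by
    simp only [cross, Complex.sub_re, Complex.sub_im] at hz
    apply Complex.ext
    · simp only [Complex.add_re, Complex.smul_re, smul_eq_mul]
      field_simp
      simp only [Complex.normSq_apply, Complex.sub_re, Complex.sub_im]
      linear_combination (a.im - b.im) * hz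
    · simp only [Complex.add_im, Complex.smul_im, smul_eq_mul]
      field_simp
      simp only [Complex.normSq_apply, Complex.sub_re, Complex.sub_im]
      linear_combination (b.re - a.re) * hz
  rw [this, h.map_add, h.map_smul, h.map_sub, ha, hb]; simp

theorem ind_lt {x y t : ℝ} (hx : x ≠ t) (hy : y ≠ t) :
    ind ((x - t) * (y - t) < 0) = ind (x < t) + ind (y < t) := by
  have := ind_sign (x := t - x) (y := t - y) (sub_ne_zero.2 hx.symm) (sub_ne_zero.2 hy.symm)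
  simp only [sub_pos] at this
  rw [← this]
  exact ind_congr (by rw [show (t - x) * (t - y) = (x - t) * (y - t) by ring])

theorem Ends.cr {P Q : ℂ} (e : Ends F h ν P Q) (hp : p ∈ T F i) (hq : q ∈ In F i)
    (h1 : h (F.f p) ≠ ν.2) (h2 : h (F.f q) ≠ ν.2) :
    ind (Cr p q P Q) = ind (ν.1 = i) * (ind (h (F.f p) < ν.2) + ind (h (F.f q) < ν.2)) := by
  have hq' := inn_sub (dv i) hq
  by_cases hi : ν.1 = i
  · subst hi
    rw [ind_pos rfl, one_mul, ← ind_lt h1 h2]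
    refine ind_congr ⟨fun hc => ?_, fun hc => ?_⟩
    · obtain ⟨x, ⟨s, t, hs, ht, st, rfl⟩, x2⟩ := hc.meet
      have := e.lv_seg (openSegment_subset_segment ℝ _ _ x2)
      rw [lv_aff hp hq' hs.le ht.le st] at this
      have a1 : t * ((h (F.f p) - ν.2) * (h (F.f q) - ν.2)) = -(s * (h (F.f p) - ν.2) ^ 2) := by
        linear_combination (h (F.f p) - ν.2) * this - (h (F.f p) - ν.2) * ν.2 * st
      have a2 : 0 < s * (h (F.f p) - ν.2) ^ 2 := mul_pos hs (pow_pos (abs_pos.2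
        (sub_ne_zero.2 h1)) 2 |>.trans_eq (sq_abs _))
      nlinarith
    · obtain ⟨s, t, hs, ht, st, es, -⟩ := exists_weights hc
      have x1 : s • p + t • q ∈ openSegment ℝ p q := ⟨s, t, hs, ht, st, rfl⟩
      have x2 := oseg_inn (dv _) hp hq x1
      have x3 : h (F.f (s • p + t • q)) = ν.2 := by
        rw [lv_aff hp hq' hs.le ht.le st]; linear_combination es + ν.2 * st
      have x4 : s • p + t • q ∈ openSegment ℝ P Q := mem_openSegment_of_ne_left_right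
        (fun a => e.p2 (a ▸ x2)) (fun a => e.q2 (a ▸ x2)) (e.seg _ (inn_sub (dv _) x2) x3)
      rw [← Cr_f hp hq' e.p1 e.q1]
      refine cr_of_meet (f_oseg hp hq' x1) (f_oseg e.p1 e.q1 x4) fun h0 => h1 ?_
      refine level_of_cross (fun a => e.ne ?_) e.p3 e.q3 h0
      rw [← g_f e.p1, a, g_f e.q1]
  · rw [ind_neg hi, zero_mul, ind_neg]
    intro hc
    obtain ⟨x, x1, x2⟩ := hc.meet
    exact hi (eq_of_In (oseg_inn (dv _) hp hq x1) (inn_sub (dv _) (e.opn x x2))).symm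

theorem Ends.gp {P Q : ℂ} (e : Ends F h ν P Q) (hp : p ∈ T F i) (hq : q ∈ In F i)
    (h1 : h (F.f p) ≠ ν.2) (h2 : h (F.f q) ≠ ν.2) :
    p ∉ segment ℝ P Q ∧ q ∉ segment ℝ P Q ∧ P ∉ segment ℝ p q ∧ Q ∉ segment ℝ p q := by
  have key : ∀ R, R ∈ T F ν.1 → R ∉ In F ν.1 → h (F.f R) = ν.2 → R ∉ segment ℝ p q := by
    intro R r1 r2 r3 r4
    have := oseg_inn (dv _) hp hq (mem_openSegment_of_ne_left_right (fun a => h1 (a ▸ r3))
      (fun a => h2 (a ▸ r3)) r4)
    exact r2 (eq_of_In this r1 ▸ this)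
  exact ⟨fun a => h1 (e.lv_seg a), fun a => h2 (e.lv_seg a), key P e.p1 e.p2 e.p3,
    key Q e.q1 e.q2 e.q3⟩

theorem generic_ok (hh : h ≠ 0) (L : Finset ℝ) (hx : x ∈ T F i) {N N' : Set ℂ} (hN : N ∈ 𝓝 x)
    (hN' : N' ∈ 𝓝 (F.f x)) : ∃ m ∈ In F i, m ∈ N ∧ F.f m ∈ N' ∧ Ok F h L m := by
  have hZ : volume (⋃ t ∈ (L : Set ℝ), {z | h z = t}) = 0 :=
    (measure_biUnion_null_iff L.countable_toSet).2 fun t _ =>
      null_level (h : ℂ →ₗ[ℝ] ℝ) (fun e => hh (ContinuousLinearMap.ext fun z => LinearMap.congr_fun e z)) t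
  obtain ⟨m, m1, m2, m3, m4⟩ := generic hx hN hN' hZ
  exact ⟨m, m1, m2, m3, Reg_of_In m1, fun a => m4 (mem_biUnion a rfl)⟩

variable (F h) in
/-- two points of the triangle just below and just above the level -/
structure AP (L : Finset ℝ) (ν : Fin F.n × ℝ) (d u : ℂ) : Prop where
  d1 : d ∈ T F ν.1
  u1 : u ∈ T F ν.1
  d2 : Ok F h L d
  u2 : Ok F h L u
  d3 : h (F.f d) < ν.2
  u3 : ν.2 < h (F.f u)
  same : ∀ t ∈ L, t ≠ ν.2 → (h (F.f d) < t ↔ h (F.f u) < t)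

variable {L : Finset ℝ} {d u d' u' : ℂ}

theorem AP.lt (a : AP F h L ν d u) (ht : t ∈ L) (hne : t ≠ ν.2) :
    (h (F.f d) < t ↔ ν.2 < t) ∧ (h (F.f u) < t ↔ ν.2 < t) := by
  have := a.same t ht hne
  have := a.d3
  have := a.u3
  grind

theorem AP.step (a : AP F h L ν d u) (b : AP F h L ν d' u') :
    Step F h L d d' ∧ Step F h L u u' := by
  refine ⟨⟨_, a.d1, b.d1, a.d2, b.d2, fun t ht => ?_⟩, ⟨_, a.u1, b.u1, a.u2, b.u2, fun t ht => ?_⟩⟩
  · by_cases e : t = ν.2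
    · exact iff_of_true (e ▸ a.d3) (e ▸ b.d3)
    · rw [(a.lt ht e).1, (b.lt ht e).1]
  · by_cases e : t = ν.2
    · exact iff_of_false (e ▸ a.u3.not_gt) (e ▸ b.u3.not_gt)
    · rw [(a.lt ht e).2, (b.lt ht e).2]

theorem AP.mk' (d1 : d ∈ T F ν.1) (u1 : u ∈ T F ν.1) (d2 : Reg F d) (u2 : Reg F u)
    (d3 : h (F.f d) < ν.2) (u3 : ν.2 < h (F.f u))
    (d4 : h (F.f d) ∉ L.erase ν.2 ∧ ∀ t ∈ L.erase ν.2, (ν.2 < t ↔ h (F.f d) < t))
    (u4 : h (F.f u) ∉ L.erase ν.2 ∧ ∀ t ∈ L.erase ν.2, (ν.2 < t ↔ h (F.f u) < t)) :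
    AP F h L ν d u :=
  ⟨d1, u1, ⟨d2, fun a => d4.1 (Finset.mem_erase.2 ⟨d3.ne, a⟩)⟩,
    ⟨u2, fun a => u4.1 (Finset.mem_erase.2 ⟨u3.ne', a⟩)⟩, d3, u3, fun t ht e =>
    (d4.2 t (Finset.mem_erase.2 ⟨e, ht⟩)).symm.trans (u4.2 t (Finset.mem_erase.2 ⟨e, ht⟩))⟩

theorem toward (hx : x ∈ T F i) (hy : y ∈ T F i) (hl : h (F.f x) = t) (hne : h (F.f y) ≠ t)
    {W : Set ℝ} (hW : W ∈ 𝓝 t) :
    ∃ m ∈ In F i, 0 < (h (F.f m) - t) * (h (F.f y) - t) ∧ h (F.f m) ∈ W := by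
  have hc : Continuous fun s : ℝ => (1 - s) * t + s * h (F.f y) := by fun_prop
  have h1 := hc.continuousAt (x := 0) |>.eventually_mem
    (interior_mem_nhds.2 (by simpa using hW) : interior W ∈ _)
  obtain ⟨s, hs, s0⟩ := ((h1.filter_mono nhdsWithin_le_nhds).and
    (Ioo_mem_nhdsGT (zero_lt_one' ℝ))).exists
  have s1 : 0 ≤ 1 - s := by linarith [s0.2]
  have e := lv_aff (h := h) hx hy s1 s0.1.le (by ring)
  have ho : IsOpen {z | 0 < (h z - t) * (h (F.f y) - t) ∧ h z ∈ interior W} :=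
    (isOpen_lt continuous_const ((h.continuous.sub continuous_const).mul continuous_const)).inter
      (isOpen_interior.preimage h.continuous)
  obtain ⟨m, m1, -, m2, -⟩ := generic (convex_tri _ hx hy s1 s0.1.le (by ring)) univ_mem
    (ho.mem_nhds (by
      rw [mem_ofPred_eq, e, hl]
      refine ⟨?_, hs⟩
      have := mul_pos s0.1 (mul_self_pos.2 (sub_ne_zero.2 hne))
      nlinarith)) measure_empty
  exact ⟨m, m1, m2.1, interior_subset m2.2⟩

theorem exists_AP (L : Finset ℝ) (hn : Node F h ν) (hv : NoV F h ν.2) :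
    ∃ d u, AP F h L ν d u := by
  obtain ⟨a, b, c, V, h1, -⟩ := lone hn hv
  obtain ⟨x, hx, e⟩ := hn
  have hW := near (L := L.erase ν.2) (x := ν.2) (by simp)
  obtain ⟨m, m1, m2, m3⟩ := toward hx (mem_tri_of_range V.mem1) e
    (sub_ne_zero.1 (left_ne_zero_of_mul h1.ne)) hW
  obtain ⟨m', n1, n2, n3⟩ := toward hx (mem_tri_of_range V.mem2) e
    (sub_ne_zero.1 (right_ne_zero_of_mul h1.ne)) hW
  rcases mul_neg_iff.1 h1 with a | a
  · exact ⟨m', m, AP.mk' (inn_sub (dv _) n1) (inn_sub (dv _) m1) (Reg_of_In n1) (Reg_of_In m1)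
      (by nlinarith [a.2]) (by nlinarith [a.1]) n3 m3⟩
  · exact ⟨m, m', AP.mk' (inn_sub (dv _) m1) (inn_sub (dv _) n1) (Reg_of_In m1) (Reg_of_In n1)
      (by nlinarith [a.1]) (by nlinarith [a.2]) m3 n3⟩

theorem common_AP (L : Finset ℝ) {i' : Fin F.n} (hv : NoV F h t) (hi : x ∈ T F i)
    (hi' : x ∈ T F i') (hne : i ≠ i') (ho : x ∈ Opn) (hl : h (F.f x) = t) :
    ∃ d u, AP F h L (i, t) d u ∧ AP F h L (i', t) d u := by
  obtain ⟨e, y, -, ⟨k, s, hk⟩, hy⟩ := edge_move hi hi' hne ho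
    (by rintro ⟨k, rfl⟩; exact hv i k hl)
  have he : h e ≠ 0 := fun a => hv i k (by rw [hk, map_add, map_smul, a, hl]; simp)
  have h1 := (h.continuous.tendsto _).comp (tendsto_move (F.f x) e)
  rw [hl] at h1
  have h2 := hy.and (h1.eventually (near (L := L.erase t) (x := t) (by simp)))
  obtain ⟨ε, ⟨⟨a1, a2, a3, a4, -⟩, a5⟩, e0⟩ := ((h2.filter_mono
    (nhdsWithin_mono _ fun _ a => ne_of_gt a : 𝓝[>] (0 : ℝ) ≤ _)).and self_mem_nhdsWithin).exists
  obtain ⟨δ, ⟨⟨b1, b2, b3, b4, -⟩, b5⟩, d0⟩ := ((h2.filter_mono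
    (nhdsWithin_mono _ fun _ a => ne_of_lt a : 𝓝[<] (0 : ℝ) ≤ _)).and self_mem_nhdsWithin).exists
  simp only [Function.comp, ← a4] at a5
  simp only [Function.comp, ← b4] at b5
  have a6 : h (F.f (y ε)) = t + ε * h e := by rw [a4, map_add, map_smul, hl]; rfl
  have b6 : h (F.f (y δ)) = t + δ * h e := by rw [b4, map_add, map_smul, hl]; rfl
  have e1 : (0 : ℝ) < ε := e0
  have d1 : δ < (0 : ℝ) := d0
  rcases lt_or_gt_of_ne he with a | a
  · have c1 : h (F.f (y ε)) < t := by rw [a6]; nlinarith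
    have c2 : t < h (F.f (y δ)) := by rw [b6]; nlinarith
    exact ⟨_, _, AP.mk' a1 b1 a3 b3 c1 c2 a5 b5, AP.mk' a2 b2 a3 b3 c1 c2 a5 b5⟩
  · have c1 : h (F.f (y δ)) < t := by rw [b6]; nlinarith
    have c2 : t < h (F.f (y ε)) := by rw [a6]; nlinarith
    exact ⟨_, _, AP.mk' b1 a1 b3 a3 c1 c2 b5 a5, AP.mk' b2 a2 b3 a3 c1 c2 b5 a5⟩

end Pool.Agent.MP_3b5bbf_co.Up

end

section

/-! Level curves, their winding parities and connectivity. -/

namespace Pool.Agent.MP_3b5bbf_co.Up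

open Set MeasureTheory Filter Topology

variable {F : FlatFolding} {h : ℂ →L[ℝ] ℝ} {L L0 : Finset ℝ} {i : Fin F.n}
  {ν ν' : Fin F.n × ℝ} {p q x y d u : ℂ} {t : ℝ} {v : ℂ → ZMod 2}

theorem tri_const (U : Fin F.n → ZMod 2) (hU : ∀ i i' x, x ∈ T F i → x ∈ T F i' → x ∈ Opn →
    x ∉ range (F.v i) → U i = U i') (i i' : Fin F.n) : U i = U i' := by
  have hp := center_mem (dv i)
  have hq := center_mem (dv i')
  set p := comb (F.v i) fun _ => 1 / 3
  set q := comb (F.v i') fun _ => 1 / 3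
  have hZ : volume (⋃ j, ⋃ k, ({z | F.v j k ∈ segment ℝ p z} ∪ {z | F.v j k ∈ segment ℝ q z})) =
      0 := by
    refine measure_iUnion_null fun j => measure_iUnion_null fun k =>
      measure_union_null (null_shadow ?_) (null_shadow ?_)
    · exact fun e => (Reg_of_In hp).2.not_range j ⟨k, e.symm⟩
    · exact fun e => (Reg_of_In hq).2.not_range j ⟨k, e.symm⟩
  obtain ⟨m, m1, m2⟩ : ∃ m ∈ Opn, m ∉ ⋃ j, ⋃ k,
      ({z | F.v j k ∈ segment ℝ p z} ∪ {z | F.v j k ∈ segment ℝ q z}) := by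
    by_contra hn
    exact isOpen_Opn.measure_ne_zero volume ⟨p, In_sub_Opn hp⟩
      (measure_mono_null (fun z hz => by_contra fun h => hn ⟨z, hz, h⟩) hZ)
  simp only [mem_iUnion, mem_union, not_exists, not_or, mem_ofPred_eq] at m2
  have hc : IsPreconnected (segment ℝ p m ∪ segment ℝ q m) :=
    IsPreconnected.union m (right_mem_segment ℝ _ _) (right_mem_segment ℝ _ _)
      (convex_segment _ _).isPreconnected (convex_segment _ _).isPreconnected
  have ho : segment ℝ p m ∪ segment ℝ q m ⊆ Opn :=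
    union_subset (convex_Opn.segment_subset (In_sub_Opn hp) m1)
      (convex_Opn.segment_subset (In_sub_Opn hq) m1)
  by_contra hne
  obtain ⟨x, x1, x2, x3⟩ := isPreconnected_closed_iff.1 hc (⋃ j ∈ {j | U j = U i}, T F j)
    (⋃ j ∈ {j | U j ≠ U i}, T F j) ((toFinite _).isClosed_biUnion fun j _ => isClosed_tri _)
    ((toFinite _).isClosed_biUnion fun j _ => isClosed_tri _)
    (fun x hx => by
      obtain ⟨j, hj⟩ := exists_T (F := F) (Opn_sub (ho hx))
      by_cases e : U j = U i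
      · exact Or.inl (mem_biUnion e hj)
      · exact Or.inr (mem_biUnion e hj))
    ⟨p, Or.inl (left_mem_segment ℝ _ _), mem_biUnion (show U i = U i from rfl) (inn_sub (dv i) hp)⟩
    ⟨q, Or.inr (left_mem_segment ℝ _ _), mem_biUnion (Ne.symm hne) (inn_sub (dv i') hq)⟩
  obtain ⟨j, e1, j1⟩ := mem_iUnion₂.1 x2
  obtain ⟨j', e2, j2⟩ := mem_iUnion₂.1 x3
  refine e2 ((hU j j' x j1 j2 (ho x1) ?_).symm.trans e1)
  rintro ⟨k, rfl⟩
  exact x1.elim (m2 j k).1 (m2 j k).2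

theorem node_between (hp : p ∈ T F i) (hq : q ∈ T F i) (h1 : h (F.f p) < t) (h2 : t < h (F.f q)) :
    Node F h (i, t) := by
  obtain ⟨s, s', hs, hs', ss, es, -⟩ := exists_weights
    (mul_neg_of_neg_of_pos (sub_neg.2 h1) (sub_pos.2 h2))
  exact ⟨_, convex_tri _ hp hq hs.le hs'.le ss, by
    rw [lv_aff hp hq hs.le hs'.le ss]; linear_combination es + t * ss⟩

theorem const_tri (hL : ∀ t ∈ L, NoV F h t) (hv : Inv F h L v)
    (hj : ∀ ν d u, ν.2 ∈ L → AP F h L ν d u → v d = v u) (hq : q ∈ T F i) (oq : Ok F h L q) :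
    ∀ (n : ℕ) (p : ℂ), p ∈ T F i → Ok F h L p → h (F.f p) ≤ h (F.f q) →
      (L.filter fun t => h (F.f p) < t ∧ t < h (F.f q)).card = n → v p = v q := by
  intro n
  induction n with
  | zero =>
    intro p hp op hle hc
    refine hv p q ⟨i, hp, hq, op, oq, fun t ht => ⟨fun a => ?_, fun a => hle.trans_lt a⟩⟩
    by_contra b
    have : t ∈ L.filter fun t => h (F.f p) < t ∧ t < h (F.f q) :=
      Finset.mem_filter.2 ⟨ht, a, lt_of_le_of_ne (not_lt.1 b) fun e => oq.2 (e ▸ ht)⟩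
    rw [Finset.card_eq_zero.1 hc] at this
    simp at this
  | succ n ih =>
    intro p hp op hle hc
    set D := L.filter fun t => h (F.f p) < t ∧ t < h (F.f q) with hD
    have hne : D.Nonempty := Finset.card_pos.1 (by omega)
    obtain ⟨t1, t2, t3⟩ := Finset.mem_filter.1 (D.min'_mem hne)
    set t := D.min' hne with ht
    obtain ⟨d, u, a⟩ := exists_AP L (node_between hp hq t2 t3) (hL t t1)
    have s1 : ∀ t' ∈ L, t' ≠ t → (h (F.f p) < t' ↔ t < t') := by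
      intro t' b1 b2
      refine ⟨fun c => ?_, fun c => t2.trans c⟩
      by_contra c'
      have c2 : t' < t := lt_of_le_of_ne (not_lt.1 c') b2
      exact absurd (D.min'_le t' (Finset.mem_filter.2 ⟨b1, c, c2.trans t3⟩)) c2.not_ge
    have e1 : v p = v d := hv _ _ ⟨i, hp, a.d1, op, a.d2, fun t' b => by
      by_cases e : t' = t
      · exact iff_of_true (e ▸ t2) (e ▸ a.d3)
      · rw [s1 t' b e, (a.lt b e).1]⟩
    rw [e1, hj _ d u t1 a]
    by_cases hu : h (F.f u) ≤ h (F.f q)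
    · refine ih u a.u1 a.u2 hu ?_
      have : (L.filter fun t => h (F.f u) < t ∧ t < h (F.f q)) = D.erase t := by
        ext t'
        simp only [hD, Finset.mem_filter, Finset.mem_erase]
        constructor
        · rintro ⟨b1, b2, b3⟩
          have e : t' ≠ t := fun e => (e ▸ a.u3).not_gt b2
          exact ⟨e, b1, (s1 t' b1 e).2 ((a.lt b1 e).2.1 b2), b3⟩
        · rintro ⟨e, b1, b2, b3⟩
          exact ⟨b1, (a.lt b1 e).2.2 ((s1 t' b1 e).1 b2), b3⟩
      rw [this, Finset.card_erase_of_mem (D.min'_mem hne), hc]; rfl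
    · refine hv _ _ ⟨i, a.u1, hq, a.u2, oq, fun t' b => ⟨fun c => (not_le.1 hu).trans c, fun c => ?_⟩⟩
      have e : t' ≠ t := fun e => (e ▸ t3).not_gt c
      exact (a.lt b e).2.2 (t3.trans c)

/-- connectivity -/
theorem const_all (hh : h ≠ 0) (hL : ∀ t ∈ L, NoV F h t) (hv : Inv F h L v)
    (hj : ∀ ν d u, ν.2 ∈ L → AP F h L ν d u → v d = v u) (op : Ok F h L p) (oq : Ok F h L q) :
    v p = v q := by
  have k1 : ∀ i p q, p ∈ T F i → q ∈ T F i → Ok F h L p → Ok F h L q → v p = v q := by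
    intro i p q a1 a2 a3 a4
    rcases le_total (h (F.f p)) (h (F.f q)) with e | e
    · exact const_tri hL hv hj a2 a4 _ p a1 a3 e rfl
    · exact (const_tri hL hv hj a1 a3 _ q a2 a4 e rfl).symm
  have k2 : ∀ i, ∃ m ∈ T F i, Ok F h L m := fun i => by
    obtain ⟨m, m1, -, -, m2⟩ := generic_ok hh L (vertex_mem (F.v i) 0) univ_mem univ_mem
    exact ⟨m, inn_sub (dv i) m1, m2⟩
  choose m m1 m2 using k2
  obtain ⟨i, hi⟩ := exists_T (F := F) (Opn_sub op.1.1)
  obtain ⟨j, hj'⟩ := exists_T (F := F) (Opn_sub oq.1.1)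
  rw [k1 i p _ hi (m1 i) op (m2 i), k1 j q _ hj' (m1 j) oq (m2 j)]
  refine tri_const (fun i => v (m i)) (fun i i' x a1 a2 a3 a4 => ?_) i j
  by_cases e : i = i'
  · rw [e]
  obtain ⟨e, y, -, ⟨k, s, hk⟩, hy⟩ := edge_move a1 a2 e a3 a4
  have h2 : ∀ᶠ ε : ℝ in 𝓝[≠] 0, ∀ t ∈ L, h (F.f x + ε • e) ≠ t := by
    refine (eventually_all_finset L).2 fun t ht => ?_
    by_cases he : h e = 0
    · refine Eventually.of_forall fun ε a => hL t ht i k ?_
      rw [hk, ← a, h.map_add, h.map_add, h.map_smul, h.map_smul, he]; simp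
    · filter_upwards [ev_ne (e := (h e : ℂ)) (by simpa using he) (h (F.f x)) t] with ε a b
      apply a
      rw [← b, h.map_add, h.map_smul]; simp
  obtain ⟨ε, ⟨b1, b2, b3, b4, -⟩, b5⟩ := (hy.and h2).exists
  have oy : Ok F h L (y ε) := ⟨b3, fun a => b5 _ a (by rw [b4])⟩
  exact (k1 i _ _ (m1 i) b1 (m2 i) oy).trans (k1 i' _ _ b2 (m1 i') oy (m2 i'))

variable (F h L0)

open Classical in
/-- all nodes -/
noncomputable def Nodes : Finset (Fin F.n × ℝ) := (Finset.univ ×ˢ L0).filter (Node F h)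

/-- adjacent nodes -/
def Adj (ν ν' : Fin F.n × ℝ) : Prop :=
  ν.2 = ν'.2 ∧ ∃ x, x ∈ T F ν.1 ∧ x ∈ T F ν'.1 ∧ x ∈ Opn ∧ h (F.f x) = ν.2

open Classical in
/-- the curve through a node -/
noncomputable def cv (ν : Fin F.n × ℝ) : Finset (Fin F.n × ℝ) :=
  (Nodes F h L0).filter (Relation.ReflTransGen (Adj F h) ν)

open Classical in
/-- all curves -/
noncomputable def Curves : Finset (Finset (Fin F.n × ℝ)) := (Nodes F h L0).image (cv F h L0)

/-- the chain of a curve -/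
noncomputable def ch (γ : Finset (Fin F.n × ℝ)) : Multiset (Seg F) :=
  γ.val.map fun ν => (ν.1, ep F h ν)

/-- closed curves -/
def Closed (γ : Finset (Fin F.n × ℝ)) : Prop :=
  ∀ ν ∈ γ, (ep F h ν).1 ∈ Opn ∧ (ep F h ν).2 ∈ Opn

variable {F h L0} {γ γ' : Finset (Fin F.n × ℝ)}

theorem mem_Nodes : ν ∈ Nodes F h L0 ↔ ν.2 ∈ L0 ∧ Node F h ν := by
  simp [Nodes]

theorem mem_cv : ν' ∈ cv F h L0 ν ↔
    ν' ∈ Nodes F h L0 ∧ Relation.ReflTransGen (Adj F h) ν ν' := by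
  simp [cv]

theorem Adj.symm (a : Adj F h ν ν') : Adj F h ν' ν := by
  obtain ⟨a1, x, a2, a3, a4, a5⟩ := a
  exact ⟨a1.symm, x, a3, a2, a4, a1 ▸ a5⟩

theorem Adj.rsymm (a : Relation.ReflTransGen (Adj F h) ν ν') :
    Relation.ReflTransGen (Adj F h) ν' ν := by
  induction a with
  | refl => exact Relation.ReflTransGen.refl
  | tail _ b ih => exact Relation.ReflTransGen.head b.symm ih

theorem Adj.level (a : Relation.ReflTransGen (Adj F h) ν ν') : ν.2 = ν'.2 := by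
  induction a with
  | refl => rfl
  | tail _ b ih => exact ih.trans b.1

theorem cv_node (hγ : γ ∈ Curves F h L0) (hν : ν ∈ γ) : ν.2 ∈ L0 ∧ Node F h ν := by
  obtain ⟨μ, -, rfl⟩ := Finset.mem_image.1 hγ
  exact mem_Nodes.1 (mem_cv.1 hν).1

theorem cv_nonempty (hγ : γ ∈ Curves F h L0) : γ.Nonempty := by
  obtain ⟨μ, hμ, rfl⟩ := Finset.mem_image.1 hγ
  exact ⟨μ, mem_cv.2 ⟨hμ, Relation.ReflTransGen.refl⟩⟩

theorem cv_rel (hγ : γ ∈ Curves F h L0) (hν : ν ∈ γ) (hν' : ν' ∈ γ) :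
    Relation.ReflTransGen (Adj F h) ν ν' := by
  obtain ⟨μ, -, rfl⟩ := Finset.mem_image.1 hγ
  exact (Adj.rsymm (mem_cv.1 hν).2).trans (mem_cv.1 hν').2

theorem cv_adj (hγ : γ ∈ Curves F h L0) (hν : ν ∈ γ) (a : Adj F h ν ν') : ν' ∈ γ := by
  have := cv_node hγ hν
  obtain ⟨μ, -, rfl⟩ := Finset.mem_image.1 hγ
  refine mem_cv.2 ⟨mem_Nodes.2 ⟨a.1 ▸ this.1, ?_⟩, (mem_cv.1 hν).2.tail a⟩
  obtain ⟨a1, x, -, a3, -, a5⟩ := a
  exact ⟨x, a3, a1 ▸ a5⟩

theorem cv_mem_of_rel (hγ : γ ∈ Curves F h L0) (hν : ν ∈ γ)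
    (a : Relation.ReflTransGen (Adj F h) ν ν') : ν' ∈ γ := by
  induction a with
  | refl => exact hν
  | tail _ b ih => exact cv_adj hγ ih b

theorem cv_eq (hγ : γ ∈ Curves F h L0) (hγ' : γ' ∈ Curves F h L0) (hν : ν ∈ γ) (hν' : ν ∈ γ') :
    γ = γ' := by
  ext μ
  exact ⟨fun a => cv_mem_of_rel hγ' hν' (cv_rel hγ hν a),
    fun a => cv_mem_of_rel hγ hν (cv_rel hγ' hν' a)⟩

theorem exists_cv (h1 : ν.2 ∈ L0) (h2 : Node F h ν) : ∃ γ ∈ Curves F h L0, ν ∈ γ := by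
  have := mem_Nodes.2 ⟨h1, h2⟩
  exact ⟨_, Finset.mem_image_of_mem _ this, mem_cv.2 ⟨this, Relation.ReflTransGen.refl⟩⟩

theorem sm_ch (φ : Seg F → ZMod 2) : sm (ch F h γ) φ = ∑ ν ∈ γ, φ (ν.1, ep F h ν) := by
  rw [sm, ch, Multiset.map_map]; rfl

theorem mem_ch {s : Seg F} : s ∈ ch F h γ ↔ ∃ ν ∈ γ, (ν.1, ep F h ν) = s := by
  simp [ch]

theorem cv_ends (hL : ∀ t ∈ L0, NoV F h t) (hγ : γ ∈ Curves F h L0) (hν : ν ∈ γ) :
    Ends F h ν (ep F h ν).1 (ep F h ν).2 :=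
  ep_spec (cv_node hγ hν).2 (hL _ (cv_node hγ hν).1)

theorem cyc_ch (hL : ∀ t ∈ L0, NoV F h t) (hγ : γ ∈ Curves F h L0) (hc : Closed F h γ) :
    Cyc (ch F h γ) := by
  intro A
  let e : γ × Bool → ℂ := fun a => if a.2 then (ep F h a.1).1 else (ep F h a.1).2
  have e1 : bd (ch F h γ) A = ∑ a, A (e a) := by
    rw [bd, sm_ch, Fintype.sum_prod_type, ← Finset.sum_coe_sort]
    simp [e]
  have sp : ∀ a : γ × Bool, e a ∈ T F a.1.1.1 ∧ e a ∉ In F a.1.1.1 ∧ h (F.f (e a)) = a.1.1.2 ∧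
      e a ∈ Opn := by
    rintro ⟨a, b⟩
    have := cv_ends hL hγ a.2
    cases b
    · exact ⟨this.q1, this.q2, this.q3, (hc _ a.2).2⟩
    · exact ⟨this.p1, this.p2, this.p3, (hc _ a.2).1⟩
  rw [e1]
  refine sum_pair _ (fun a b => a.1 ≠ b.1 ∧ e a = e b) ?_ ?_ ?_ ?_ ?_
  · intro a _
    obtain ⟨a1, a2, a3, a4⟩ := sp a
    obtain ⟨j, j1, j2⟩ := partner_exists a1 a2 a4
    have m : (j, a.1.1.2) ∈ γ := cv_adj hγ a.1.2 ⟨rfl, _, a1, j2, a4, a3⟩
    have ne : a.1 ≠ ⟨_, m⟩ := fun e => j1 (congrArg (fun z : γ => z.1.1) e).symm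
    rcases (cv_ends hL hγ m).eq_or j2 a3 (fun b => j1 (eq_of_In b a1)) with b | b
    · exact ⟨(⟨_, m⟩, true), ne, b.symm⟩
    · exact ⟨(⟨_, m⟩, false), ne, b.symm⟩
  · rintro a b c ⟨n1, e1⟩ ⟨n2, e2⟩
    have lv : ∀ b : γ × Bool, e a = e b → a.1.1.2 = b.1.1.2 := fun b eb => by
      rw [← (sp a).2.2.1, eb, (sp b).2.2.1]
    have ne : ∀ b : γ × Bool, a.1 ≠ b.1 → e a = e b → a.1.1.1 ≠ b.1.1.1 := fun b nb eb hh =>
      nb (Subtype.ext (Prod.ext hh (lv b eb)))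
    have e3 : b.1 = c.1 := Subtype.ext (Prod.ext (partner_unique (sp a).1 (e1 ▸ (sp b).1)
      (e2 ▸ (sp c).1) (ne b n1 e1) (ne c n2 e2) (by
        rintro ⟨k, hk⟩
        exact hL _ (cv_node hγ a.1.2).1 _ k (hk ▸ (sp a).2.2.1))) ((lv b e1).symm.trans (lv c e2)))
    obtain ⟨b1, b2⟩ := b
    obtain ⟨c1, c2⟩ := c
    obtain rfl : b1 = c1 := e3
    have := (cv_ends hL hγ b1.2).ne
    have e4 := e1.symm.trans e2
    cases b2 <;> cases c2 <;> simp_all [e]
  · exact fun a b hab => ⟨hab.1.symm, hab.2.symm⟩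
  · exact fun a hab => hab.1 rfl
  · exact fun a b hab => by rw [hab.2]

theorem jump (hh : h ≠ 0) (hL : ∀ t ∈ L0, NoV F h t) (hγ : γ ∈ Curves F h L0)
    (hc : Closed F h γ) (hp : p ∈ T F i) (hq : q ∈ T F i) (h1 : ∀ ν ∈ γ, h (F.f p) ≠ ν.2)
    (h2 : ∀ ν ∈ γ, h (F.f q) ≠ ν.2) : chi (ch F h γ) p + chi (ch F h γ) q =
      ∑ ν ∈ γ, ind (ν.1 = i) * (ind (h (F.f p) < ν.2) + ind (h (F.f q) < ν.2)) := by
  obtain ⟨m, m1, -, -, m2⟩ := generic_ok hh L0 hp univ_mem univ_mem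
  have m3 : ∀ ν ∈ γ, h (F.f m) ≠ ν.2 := fun ν a e => m2.2 (e ▸ (cv_node hγ a).1)
  have key : ∀ p, p ∈ T F i → (∀ ν ∈ γ, h (F.f p) ≠ ν.2) → chi (ch F h γ) p + chi (ch F h γ) m =
      ∑ ν ∈ γ, ind (ν.1 = i) * (ind (h (F.f p) < ν.2) + ind (h (F.f m) < ν.2)) := by
    intro p hp h1
    rw [chi_jump (cyc_ch hL hγ hc), sm_ch]
    · exact Finset.sum_congr rfl fun ν a => (cv_ends hL hγ a).cr hp m1 (h1 ν a) (m3 ν a)
    · intro s hs
      obtain ⟨ν, a, rfl⟩ := mem_ch.1 hs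
      exact (cv_ends hL hγ a).gp hp m1 (h1 ν a) (m3 ν a)
  have := congrArg₂ (· + ·) (key p hp h1) (key q hq h2)
  simp only [← Finset.sum_add_distrib] at this
  rw [Finset.sum_congr rfl (g := fun ν => ind (ν.1 = i) *
    (ind (h (F.f p) < ν.2) + ind (h (F.f q) < ν.2))) fun ν _ => by
      linear_combination ind (ν.1 = i) * add_self2 (ind (h (F.f m) < ν.2))] at this
  linear_combination this - add_self2 (chi (ch F h γ) m)

theorem inv_chi (hh : h ≠ 0) (hL : ∀ t ∈ L0, NoV F h t) (hγ : γ ∈ Curves F h L0)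
    (hc : Closed F h γ) (hl : ∀ ν ∈ γ, ν.2 ∈ L) : Inv F h L (chi (ch F h γ)) := by
  rintro p q ⟨i, a1, a2, a3, a4, a5⟩
  apply z2_eq_of_add
  rw [jump hh hL hγ hc a1 a2 (fun ν a e => a3.2 (e ▸ hl ν a)) (fun ν a e => a4.2 (e ▸ hl ν a))]
  exact Finset.sum_eq_zero fun ν a => by rw [ind_congr (a5 _ (hl ν a)), add_self2, mul_zero]

theorem ap_chi (hh : h ≠ 0) (hL : ∀ t ∈ L0, NoV F h t) (hγ : γ ∈ Curves F h L0)
    (hc : Closed F h γ) (hl : ∀ ν ∈ γ, ν.2 ∈ L) (a : AP F h L ν d u) :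
    chi (ch F h γ) d + chi (ch F h γ) u = ind (ν ∈ γ) := by
  classical
  rw [jump hh hL hγ hc a.d1 a.u1 (fun ν b e => a.d2.2 (e ▸ hl ν b))
    (fun ν b e => a.u2.2 (e ▸ hl ν b))]
  rw [Finset.sum_congr rfl (g := fun μ => if μ = ν then 1 else 0) fun μ b => ?_]
  · simp [ind]
  by_cases e : μ.2 = ν.2
  · rw [e, ind_pos a.d3, ind_neg a.u3.not_gt, add_zero, mul_one]
    by_cases e' : μ.1 = ν.1
    · simp [Prod.ext e' e]
    · rw [ind_neg e', if_neg fun c : μ = ν => e' (c ▸ rfl)]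
  · rw [ind_congr (a.same _ (hl μ b) e), add_self2, mul_zero, if_neg fun c : μ = ν => e (c ▸ rfl)]

/-- the jump of an invariant function is constant along a curve -/
theorem jump_const (hL : ∀ t ∈ L0, NoV F h t) (hγ : γ ∈ Curves F h L0) (hv : Inv F h L v)
    (hν : ν ∈ γ) (hν' : ν' ∈ γ) {d' u' : ℂ} (a : AP F h L ν d u) (a' : AP F h L ν' d' u') :
    v d + v u = v d' + v u' := by
  have r := cv_rel hγ hν hν'
  clear hν'
  induction r generalizing d' u' with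
  | refl => rw [hv _ _ (a.step a').1, hv _ _ (a.step a').2]
  | @tail μ μ' r b ih =>
    obtain ⟨b1, x, b2, b3, b4, b5⟩ := b
    by_cases e : μ.1 = μ'.1
    · exact ih (Prod.ext e b1 ▸ a')
    obtain ⟨d2, u2, c1, c2⟩ := common_AP L (hL _ (cv_node hγ (cv_mem_of_rel hγ hν r)).1) b2 b3 e
      b4 b5
    have c3 : AP F h L μ' d2 u2 := by rwa [b1] at c2
    rw [ih c1, hv _ _ (c3.step a').1, hv _ _ (c3.step a').2]

theorem exists_zero (hh : h ≠ 0) (S : Finset (Finset (Fin F.n × ℝ)))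
    (hS : ∀ γ ∈ S, Closed F h γ ∧ Cyc (ch F h γ)) :
    ∃ p, Ok F h L p ∧ ∀ γ ∈ S, chi (ch F h γ) p = 0 := by
  obtain ⟨i, hi⟩ := exists_T (F := F) (p := 0) (by simp [square])
  have hN : ∀ᶠ z : ℂ in 𝓝 0, ∀ γ ∈ S, ∀ ν ∈ γ, z.re < (ep F h ν).1.re ∧ z.re < (ep F h ν).2.re := by
    refine (eventually_all_finset S).2 fun γ a => (eventually_all_finset γ).2 fun ν b => ?_
    exact (Complex.continuous_re.continuousAt.eventually_lt continuousAt_const
      ((hS γ a).1 ν b).1.1).and (Complex.continuous_re.continuousAt.eventually_lt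
      continuousAt_const ((hS γ a).1 ν b).2.1)
  obtain ⟨m, -, m1, -, m2⟩ := generic_ok hh L hi hN univ_mem
  refine ⟨m, m2, fun γ a => chi_left (hS γ a).2 fun s hs => ?_⟩
  obtain ⟨ν, b, rfl⟩ := mem_ch.1 hs
  exact m1 γ a ν b

variable (F h L0) in
/-- the inside of `γ'` lies in the inside of `γ` -/
def Sub (γ' γ : Finset (Fin F.n × ℝ)) : Prop :=
  ∀ p, Ok F h L0 p → chi (ch F h γ') p = 1 → chi (ch F h γ) p = 1

theorem laminar (hh : h ≠ 0) (hL : ∀ t ∈ L0, NoV F h t) (hγ : γ ∈ Curves F h L0)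
    (hc : Closed F h γ) (hγ' : γ' ∈ Curves F h L0) (hc' : Closed F h γ') (hne : γ ≠ γ')
    (op : Ok F h L0 p) (h1 : chi (ch F h γ) p = 1) (h2 : chi (ch F h γ') p = 1) :
    Sub F h L0 γ γ' ∨ Sub F h L0 γ' γ := by
  have l1 : ∀ ν ∈ γ, ν.2 ∈ L0 := fun ν a => (cv_node hγ a).1
  have l2 : ∀ ν ∈ γ', ν.2 ∈ L0 := fun ν a => (cv_node hγ' a).1
  have i1 := inv_chi hh hL hγ hc l1
  have i2 := inv_chi hh hL hγ' hc' l2
  have side : ∀ {γ γ' : Finset (Fin F.n × ℝ)}, γ ∈ Curves F h L0 → γ' ∈ Curves F h L0 →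
      Closed F h γ' → γ ≠ γ' → ∃ a : ZMod 2, ∀ ν ∈ γ, ∀ d u, AP F h L0 ν d u →
        chi (ch F h γ') d = a ∧ chi (ch F h γ') u = a := by
    intro γ γ' hγ hγ' hc' hne
    have l2 : ∀ ν ∈ γ', ν.2 ∈ L0 := fun ν a => (cv_node hγ' a).1
    have i2 := inv_chi hh hL hγ' hc' l2
    obtain ⟨ν0, a0⟩ := cv_nonempty hγ
    obtain ⟨d0, u0, b0⟩ := exists_AP L0 (cv_node hγ a0).2 (hL _ (cv_node hγ a0).1)
    refine ⟨chi (ch F h γ') d0, fun ν a d u b => ?_⟩
    have j1 := ap_chi hh hL hγ' hc' l2 b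
    rw [ind_neg fun c => hne (cv_eq hγ hγ' a c)] at j1
    rw [← z2_eq_of_add j1, and_self]
    have iv : Inv F h L0 fun x => ind (h (F.f x) < ν.2) * chi (ch F h γ') x := by
      intro p q st
      obtain ⟨j, -, -, -, -, c⟩ := id st
      simp only [i2 p q st, ind_congr (c _ (cv_node hγ a).1)]
    have := jump_const hL hγ iv a a0 b b0
    have lv := Adj.level (cv_rel hγ a a0)
    simpa [b.d3, b.u3.not_gt, lv, b0.d3, b0.u3.not_gt, lv ▸ b.d3, (lv ▸ b.u3).not_gt] using this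
  obtain ⟨a, ha⟩ := side hγ hγ' hc' hne
  obtain ⟨a', ha'⟩ := side hγ' hγ hc hne.symm
  obtain ⟨o, o1, o2⟩ := exists_zero (L := L0) hh {γ, γ'} (by
    simp only [Finset.mem_insert, Finset.mem_singleton]
    rintro _ (rfl | rfl)
    · exact ⟨hc, cyc_ch hL hγ hc⟩
    · exact ⟨hc', cyc_ch hL hγ' hc'⟩)
  have key : ∀ x, Ok F h L0 x → chi (ch F h γ) x * chi (ch F h γ') x + a * chi (ch F h γ) x +
      a' * chi (ch F h γ') x = 0 := by
    intro x ox
    have := const_all (v := fun x => chi (ch F h γ) x * chi (ch F h γ') x + a * chi (ch F h γ) x +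
      a' * chi (ch F h γ') x) hh hL (fun p q st => by simp only [i1 p q st, i2 p q st])
      (fun ν d u _ b => by
        have j1 := ap_chi hh hL hγ hc l1 b
        have j2 := ap_chi hh hL hγ' hc' l2 b
        by_cases m1 : ν ∈ γ
        · simp only [(ha ν m1 d u b).1, (ha ν m1 d u b).2]
          linear_combination add_self2 (a * chi (ch F h γ) d) - add_self2 (a * chi (ch F h γ) u)
        by_cases m2 : ν ∈ γ'
        · simp only [(ha' ν m2 d u b).1, (ha' ν m2 d u b).2]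
          linear_combination add_self2 (a' * chi (ch F h γ') d) - add_self2 (a' * chi (ch F h γ') u)
        rw [ind_neg m1] at j1
        rw [ind_neg m2] at j2
        simp only [z2_eq_of_add j1, z2_eq_of_add j2]) ox o1
    simpa [o2] using this
  have k := key p op
  rw [h1, h2] at k
  rcases z2_cases a with rfl | rfl <;> rcases z2_cases a' with rfl | rfl
  · exact absurd k (by decide)
  · refine Or.inr fun x ox e => ?_
    have := key x ox
    rw [e] at this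
    revert this
    generalize chi (ch F h γ) x = y
    revert y; decide
  · refine Or.inl fun x ox e => ?_
    have := key x ox
    rw [e] at this
    revert this
    generalize chi (ch F h γ') x = y
    revert y; decide
  · exact absurd k (by decide)

theorem sub_antisymm (hh : h ≠ 0) (hL : ∀ t ∈ L0, NoV F h t) (hγ : γ ∈ Curves F h L0)
    (hc : Closed F h γ) (hγ' : γ' ∈ Curves F h L0) (hc' : Closed F h γ')
    (a : Sub F h L0 γ γ') (b : Sub F h L0 γ' γ) : γ = γ' := by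
  obtain ⟨ν, a0⟩ := cv_nonempty hγ
  obtain ⟨d, u, b0⟩ := exists_AP L0 (cv_node hγ a0).2 (hL _ (cv_node hγ a0).1)
  have j1 := ap_chi hh hL hγ hc (fun ν a => (cv_node hγ a).1) b0
  have j2 := ap_chi hh hL hγ' hc' (fun ν a => (cv_node hγ' a).1) b0
  have e : ∀ x, Ok F h L0 x → chi (ch F h γ) x = chi (ch F h γ') x := fun x ox => by
    have h1 := a x ox
    have h2 := b x ox
    revert h1 h2
    generalize chi (ch F h γ) x = y
    generalize chi (ch F h γ') x = y'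
    revert y y'; decide
  rw [e d b0.d2, e u b0.u2, j2, ind_pos a0] at j1
  refine cv_eq hγ hγ' a0 (by_contra fun c => ?_)
  rw [ind_neg c] at j1
  exact zero_ne_one j1

end Pool.Agent.MP_3b5bbf_co.Up

end

section

/-! Area estimates. -/

namespace Pool.Agent.MP_3b5bbf_co.Up

open Set MeasureTheory Filter Topology Pointwise

theorem vol_box {a b c d : ℝ} (h1 : a ≤ b) (h2 : c ≤ d) :
    volume.real (Icc a b ×ℂ Icc c d) = (b - a) * (d - c) := by
  have := Complex.volume_preserving_equiv_real_prod.measure_preimage_equiv (Icc a b ×ˢ Icc c d)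
  rw [Measure.volume_eq_prod, Measure.prod_prod, Real.volume_Icc, Real.volume_Icc] at this
  change (volume (Complex.measurableEquivRealProd ⁻¹' (Icc a b ×ˢ Icc c d))).toReal = _
  rw [this, ENNReal.toReal_mul, ENNReal.toReal_ofReal (by linarith),
    ENNReal.toReal_ofReal (by linarith)]

theorem box_ne_top (a b c d : ℝ) : volume (Icc a b ×ℂ Icc c d) ≠ ⊤ :=
  (isCompact_Icc.reProdIm isCompact_Icc).measure_ne_top

/-- a parallelogram -/
def par (x y y' : ℂ) (lo hi : ℝ) : Set ℂ :=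
  (fun z : ℂ => (1 - z.re - z.im) • x + z.re • y + z.im • y') '' (Icc lo hi ×ℂ Icc lo hi)

theorem isCompact_par (x y y' : ℂ) (lo hi : ℝ) : IsCompact (par x y y' lo hi) :=
  (isCompact_Icc.reProdIm isCompact_Icc).image (by fun_prop)

theorem vol_par (x y y' : ℂ) {lo hi : ℝ} (h : lo ≤ hi) :
    volume.real (par x y y' lo hi) = |cross x y y'| * (hi - lo) ^ 2 := by
  let m : ℂ →ₗ[ℝ] ℂ := Complex.reLm.smulRight (y - x) + Complex.imLm.smulRight (y' - x)
  have hd : LinearMap.det m = cross x y y' := by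
    rw [← LinearMap.det_toMatrix Complex.basisOneI, Matrix.det_fin_two]
    simp [LinearMap.toMatrix_apply, m, cross]
    ring
  have e : par x y y' lo hi = x +ᵥ (m '' (Icc lo hi ×ℂ Icc lo hi)) := by
    rw [par, ← image_vadd, image_image]
    refine image_congr fun z _ => ?_
    simp only [m, LinearMap.add_apply, LinearMap.smulRight_apply, Complex.reLm_coe,
      Complex.imLm_coe, vadd_eq_add]
    module
  rw [e, Measure.real, measure_vadd, Measure.addHaar_image_linearMap, ENNReal.toReal_mul,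
    ENNReal.toReal_ofReal (abs_nonneg _), hd, sq, ← vol_box h h]
  rfl

theorem mem_par {x y y' z : ℂ} {lo hi : ℝ} (h : z ∈ par x y y' lo hi) : ∃ a b : ℝ,
    lo ≤ a ∧ a ≤ hi ∧ lo ≤ b ∧ b ≤ hi ∧ (1 - a - b) • x + a • y + b • y' = z := by
  obtain ⟨u, ⟨⟨a1, a2⟩, a3, a4⟩, e⟩ := h
  exact ⟨_, _, a1, a2, a3, a4, e⟩

theorem packing {ι : Type*} (S : Finset ι) (P : ι → Set ℂ) {B : Set ℂ} (hB : volume B ≠ ⊤)
    (hc : ∀ a ∈ S, IsCompact (P a)) (hs : ∀ a ∈ S, P a ⊆ B) (hd : (S : Set ι).PairwiseDisjoint P) :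
    ∑ a ∈ S, volume.real (P a) ≤ volume.real B := by
  rw [← measureReal_biUnion_finset hd (fun a h => (hc a h).measurableSet)
    (fun a h => (hc a h).measure_ne_top)]
  exact measureReal_mono (iUnion₂_subset hs) hB

theorem square_eq (c : ℝ) : square c = Icc 0 c ×ℂ Icc 0 c := by
  ext z; simp [square, Complex.mem_reProdIm, and_assoc]

/-- unit coordinate functions -/
structure Dir (h : ℂ →L[ℝ] ℝ) : Prop where
  ne : h ≠ 0
  cr : ∀ a b c : ℂ, h a = h b → |cross a b c| = dist a b * |h c - h a|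
  le : ∀ a b : ℂ, |h a - h b| ≤ dist a b

theorem dir_re : Dir Complex.reCLM := by
  refine ⟨fun e => by simpa using congrArg (fun f : ℂ →L[ℝ] ℝ => f 1) e, fun a b c e => ?_,
    fun a b => by simpa [dist_eq_norm] using Complex.abs_re_le_norm (a - b)⟩
  simp only [Complex.reCLM_apply] at e ⊢
  rw [Complex.dist_of_re_eq e, Real.dist_eq, ← abs_mul]
  simp [cross, e, abs_sub_comm]

theorem dir_im : Dir Complex.imCLM := by
  refine ⟨fun e => by simpa using congrArg (fun f : ℂ →L[ℝ] ℝ => f Complex.I) e, fun a b c e => ?_,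
    fun a b => by simpa [dist_eq_norm] using Complex.abs_im_le_norm (a - b)⟩
  simp only [Complex.imCLM_apply] at e ⊢
  rw [Complex.dist_of_im_eq e, Real.dist_eq, ← abs_mul]
  simp [cross, e, abs_sub_comm]

theorem Dir.neg {h : ℂ →L[ℝ] ℝ} (d : Dir h) : Dir (-h) := by
  refine ⟨neg_ne_zero.2 d.ne, fun a b c e => ?_, fun a b => ?_⟩
  · rw [d.cr a b c (by simpa using e), abs_sub_comm]
    simp [add_comm, ← sub_eq_add_neg]
  · rw [← abs_neg]; simpa [add_comm, ← sub_eq_add_neg] using d.le a b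

variable {F : FlatFolding} {h : ℂ →L[ℝ] ℝ} {L0 : Finset ℝ} {i : Fin F.n}
  {ν ν' : Fin F.n × ℝ} {η : ℝ} {γ γ' : Finset (Fin F.n × ℝ)}

theorem par_split (x y y' : ℂ) {a b : ℝ} (hb : b < 1) : (1 - a - b) • x + a • y + b • y' =
    (1 - b) • (((1 - a - b) / (1 - b)) • x + (a / (1 - b)) • y) + b • y' := by
  have : 1 - b ≠ 0 := by linarith
  rw [smul_add, smul_smul, smul_smul, mul_div_cancel₀ _ this, mul_div_cancel₀ _ this]

theorem par_inn {x y y' : ℂ} (h1 : ∀ z ∈ openSegment ℝ x y, z ∈ In F i) (h2 : y' ∈ T F i) :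
    par x y y' (1 / 8) (3 / 8) ⊆ In F i := by
  intro z hz
  obtain ⟨a, b, a1, a2, b1, b2, rfl⟩ := mem_par hz
  have : 0 < 1 - b := by linarith
  rw [par_split _ _ _ (by linarith)]
  exact inn_aff (h1 _ ⟨_, _, div_pos (by linarith) this, div_pos (by linarith) this,
    by field_simp; ring, rfl⟩) (dv i) h2 this (by linarith) (by ring)

theorem lv_par {x y y' : ℂ} (hx : x ∈ T F i) (hy : y ∈ T F i) (hy' : y' ∈ T F i) {a b : ℝ}
    (ha : 0 ≤ a) (hb : 0 ≤ b) (hab : a + b < 1) : h (F.f ((1 - a - b) • x + a • y + b • y')) =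
      (1 - a - b) * h (F.f x) + a * h (F.f y) + b * h (F.f y') := by
  have : 0 < 1 - b := by linarith
  have h1 : 0 ≤ (1 - a - b) / (1 - b) := div_nonneg (by linarith) this.le
  have h2 : 0 ≤ a / (1 - b) := div_nonneg ha this.le
  have h3 : (1 - a - b) / (1 - b) + a / (1 - b) = 1 := by field_simp; ring
  rw [par_split _ _ _ (by linarith), lv_aff (convex_tri _ hx hy h1 h2 h3) hy' this.le hb (by ring),
    lv_aff hx hy h1 h2 h3]
  field_simp

variable (F h) in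
/-- a neighbourhood of a node -/
def Tube (η : ℝ) (ν : Fin F.n × ℝ) : Set ℂ := {x | x ∈ In F ν.1 ∧ |h (F.f x) - ν.2| < η / 2}

/-- the levels are separated -/
def Spaced (L0 : Finset ℝ) (η : ℝ) : Prop := ∀ t ∈ L0, ∀ t' ∈ L0, t ≠ t' → η ≤ |t - t'|

theorem pack_nodes (sp : Spaced L0 η) (S : Finset (Fin F.n × ℝ)) (hS : ∀ ν ∈ S, ν.2 ∈ L0)
    (P : Fin F.n × ℝ → Set ℂ) {B : Set ℂ} (hB : volume B ≠ ⊤) (hc : ∀ a ∈ S, IsCompact (P a))
    (hs : ∀ a ∈ S, P a ⊆ B) (ht : ∀ a ∈ S, P a ⊆ Tube F h η a) :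
    ∑ a ∈ S, volume.real (P a) ≤ volume.real B := by
  refine packing S P hB hc hs fun a ha b hb hab => disjoint_left.2 fun x x1 x2 => hab ?_
  obtain ⟨a1, a2⟩ := ht a ha x1
  obtain ⟨b1, b2⟩ := ht b hb x2
  refine Prod.ext (eq_of_In a1 (inn_sub (dv _) b1)) (by_contra fun e => ?_)
  have := sp _ (hS a ha) _ (hS b hb) e
  rw [abs_lt] at a2 b2
  rcases le_abs.1 this with c | c <;> linarith [a2.1, a2.2, b2.1, b2.2]

variable (F h) in
/-- length of a section -/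
noncomputable def el (ν : Fin F.n × ℝ) : ℝ := dist (ep F h ν).1 (ep F h ν).2

variable (F h) in
/-- length of a curve -/
noncomputable def len (γ : Finset (Fin F.n × ℝ)) : ℝ := ∑ ν ∈ γ, el F h ν

variable (F h) in
/-- every triangle is tall -/
def Tall (η : ℝ) : Prop := ∀ i t, ∃ k, η ≤ |h (F.f (F.v i k)) - t|

variable (F) in
/-- every side is long -/
def Long (η : ℝ) : Prop := ∀ i k l, k ≠ l → η ≤ dist (F.v i k) (F.v i l)

theorem abs_cross_f {x y z : ℂ} (hx : x ∈ T F i) (hy : y ∈ T F i) (hz : z ∈ T F i) :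
    |cross (F.f x) (F.f y) (F.f z)| = |cross x y z| := by
  obtain ⟨e, he, k⟩ := cross_f i
  have : |e| = 1 := by
    rcases sq_eq_one_iff.1 he with a | a <;> simp [a]
  rw [k x hx y hy z hz, abs_mul, this, one_mul]

theorem node_par (d : Dir h) (hη : 0 < η) (tall : Tall F h η) {P Q : ℂ} (e : Ends F h ν P Q) :
    ∃ S, IsCompact S ∧ S ⊆ Tube F h η ν ∧ (∀ x ∈ S, h (F.f x) ≠ ν.2) ∧
      volume.real S = η * dist P Q / 16 := by
  obtain ⟨k, hk⟩ := tall ν.1 ν.2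
  set A := F.v ν.1 k
  have tA : A ∈ T F ν.1 := vertex_mem _ k
  have a0 : 0 < |h (F.f A) - ν.2| := hη.trans_le hk
  set θ := η / |h (F.f A) - ν.2| with hθ
  have t0 : 0 < θ := by positivity
  have t1 : 0 ≤ 1 - θ := sub_nonneg.2 ((div_le_one a0).2 hk)
  have m := convex_tri _ e.p1 tA t1 t0.le (by ring)
  have l1 : |h (F.f ((1 - θ) • P + θ • A)) - ν.2| = η := by
    rw [lv_aff e.p1 tA t1 t0.le (by ring), e.p3,
      show (1 - θ) * ν.2 + θ * h (F.f A) - ν.2 = θ * (h (F.f A) - ν.2) by ring, abs_mul,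
      abs_of_pos t0, hθ]
    field_simp
  have l2 : ∀ x ∈ par P Q ((1 - θ) • P + θ • A) (1 / 8) (3 / 8), ∃ b : ℝ, 1 / 8 ≤ b ∧ b ≤ 3 / 8 ∧
      |h (F.f x) - ν.2| = b * η := by
    intro x hx
    obtain ⟨a, b, a1, a2, b1, b2, rfl⟩ := mem_par hx
    refine ⟨b, b1, b2, ?_⟩
    rw [lv_par e.p1 e.q1 m (by linarith) (by linarith) (by linarith), e.p3, e.q3, ← l1,
      ← abs_of_nonneg (by linarith : 0 ≤ b), ← abs_mul, abs_of_nonneg (by linarith : 0 ≤ b)]
    congr 1; ring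
  refine ⟨_, isCompact_par P Q ((1 - θ) • P + θ • A) (1 / 8) (3 / 8),
    fun x hx => ⟨par_inn e.opn m hx, ?_⟩, fun x hx => ?_, ?_⟩
  · obtain ⟨b, b1, b2, b3⟩ := l2 x hx
    rw [b3]; nlinarith
  · obtain ⟨b, b1, b2, b3⟩ := l2 x hx
    intro c
    rw [c, sub_self, abs_zero] at b3
    nlinarith
  · rw [vol_par _ _ _ (by norm_num), ← abs_cross_f e.p1 e.q1 m, d.cr _ _ _ (e.p3.trans e.q3.symm),
      F.isom _ _ e.p1 _ e.q1, e.p3, l1]
    ring

theorem wall_par (d : Dir h) (hη : 0 < η) (long : Long F η) {σ : ℂ →L[ℝ] ℝ} (ds : Dir σ) {τ : ℝ}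
    (hσ : ∀ z ∈ square 1, 0 ≤ σ z + τ) {x : ℂ} (hx : x ∈ T F ν.1) (hl : h (F.f x) = ν.2)
    (hv : NoV F h ν.2) (hi : x ∉ In F ν.1) (h0 : σ x + τ = 0) :
    ∀ᶠ ε in 𝓝[>] (0 : ℝ), ∃ S, IsCompact S ∧ S ⊆ Tube F h η ν ∧ (∀ z ∈ S, σ z + τ ≤ ε) ∧
      volume.real S = η * ε / 32 := by
  obtain ⟨a, b, c, V, hs, far⟩ : ∃ a b c, Vs (F.v ν.1) a b c ∧ x ∈ openSegment ℝ a b ∧
      η / 2 ≤ dist x a := by
    obtain ⟨a, b, c, V, hs⟩ := exists_edge (dv _) hx hi (by rintro ⟨k, rfl⟩; exact hv _ k hl)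
    have : η ≤ dist a b := by
      obtain ⟨k, l, m, h1, -, -, rfl, rfl, -⟩ := V
      exact long _ k l h1
    have tr := dist_triangle_left a b x
    by_cases e : η / 2 ≤ dist x a
    · exact ⟨a, b, c, V, hs, e⟩
    · exact ⟨b, a, c, V.swap, by rwa [openSegment_symm], by linarith⟩
  have ta := mem_tri_of_range V.mem1
  have tb := mem_tri_of_range V.mem2
  have tc := mem_tri_of_range V.mem3
  obtain ⟨s, t, hs, ht, st, rfl⟩ := hs
  have sa := hσ a (T_sub ta)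
  have sb := hσ b (T_sub tb)
  have e0 : s * (σ a + τ) + t * (σ b + τ) = 0 := by
    rw [σ.map_add, σ.map_smul, σ.map_smul, smul_eq_mul, smul_eq_mul] at h0
    linear_combination h0 + τ * st
  have za : σ a + τ = 0 := (mul_eq_zero.1 (le_antisymm (by linarith [mul_nonneg ht.le sb])
    (mul_nonneg hs.le sa))).resolve_left hs.ne'
  have zb : σ b + τ = 0 := (mul_eq_zero.1 (le_antisymm (by linarith [mul_nonneg hs.le sa])
    (mul_nonneg ht.le sb))).resolve_left ht.ne'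
  have zc : 0 < σ c + τ := by
    refine lt_of_le_of_ne (hσ c (T_sub tc)) fun e => V.cross_ne (dv _) ?_
    rw [← abs_eq_zero, ds.cr a b c (by linarith), show σ c - σ a = 0 by linarith]; simp
  set x := s • a + t • b with hxe
  have d0 : 0 < dist x a := by linarith
  set μ := η / 2 / dist x a with hμ
  have m0 : 0 < μ := by positivity
  have m1 : 0 ≤ 1 - μ := sub_nonneg.2 ((div_le_one d0).2 far)
  have y1 := convex_tri _ hx ta m1 m0.le (by ring)
  have dy : dist x ((1 - μ) • x + μ • a) = η / 2 := by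
    rw [dist_eq_norm, show x - ((1 - μ) • x + μ • a) = μ • (x - a) by module, norm_smul,
      Real.norm_of_nonneg m0.le, ← dist_eq_norm, hμ]
    field_simp
  have sy : σ ((1 - μ) • x + μ • a) + τ = 0 := by
    rw [σ.map_add, σ.map_smul, σ.map_smul, smul_eq_mul, smul_eq_mul]
    linear_combination (1 - μ) * h0 + μ * za
  have hc : Continuous fun ε : ℝ => ε / (σ c + τ) * (dist x c + 1) := by fun_prop
  have ev := (hc.continuousAt (x := 0)).eventually_lt (continuousAt_const (y := min 1 (η / 2)))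
    (by simp [hη])
  filter_upwards [ev.filter_mono nhdsWithin_le_nhds, self_mem_nhdsWithin] with ε e1 e2
  have e3 : (0 : ℝ) < ε := e2
  set θ := ε / (σ c + τ) with hθ
  have t0 : 0 < θ := by positivity
  have dc : 0 ≤ dist x c := dist_nonneg
  have e4 := (lt_min_iff.1 e1).1
  have e5 := (lt_min_iff.1 e1).2
  have t1 : 0 < 1 - θ := by linarith [mul_nonneg t0.le dc]
  have y2 := convex_tri _ hx tc t1.le t0.le (by ring)
  have sy2 : σ ((1 - θ) • x + θ • c) + τ = ε := by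
    rw [σ.map_add, σ.map_smul, σ.map_smul, smul_eq_mul, smul_eq_mul]
    have : θ * (σ c + τ) = ε := by rw [hθ]; field_simp
    linear_combination (1 - θ) * h0 + this
  have dy2 : dist x ((1 - θ) • x + θ • c) = θ * dist x c := by
    rw [dist_eq_norm, show x - ((1 - θ) • x + θ • c) = θ • (x - c) by module, norm_smul,
      Real.norm_of_nonneg t0.le, ← dist_eq_norm]
  refine ⟨_, isCompact_par x ((1 - θ) • x + θ • c) ((1 - μ) • x + μ • a) (1 / 8) (3 / 8),
    fun z hz => ⟨par_inn ?_ y1 hz, ?_⟩, fun z hz => ?_, ?_⟩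
  · rintro _ ⟨u, v, hu, hv, uv, rfl⟩
    have := V.mem_inn (dv _) (r := (u + v * (1 - θ)) * s) (s := (u + v * (1 - θ)) * t) (t := v * θ)
      (by positivity) (by positivity) (by positivity)
      (by linear_combination (u + v * (1 - θ)) * st + uv)
    convert this using 1
    rw [hxe]; module
  · obtain ⟨p, q, a1, a2, b1, b2, rfl⟩ := mem_par hz
    have k1 := d.le (F.f x) (F.f ((1 - θ) • x + θ • c))
    have k2 := d.le (F.f x) (F.f ((1 - μ) • x + μ • a))
    rw [F.isom _ _ hx _ y2, dy2, hl, abs_le] at k1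
    rw [F.isom _ _ hx _ y1, dy, hl, abs_le] at k2
    rw [lv_par hx y2 y1 (by linarith) (by linarith) (by linarith), hl, abs_lt]
    have p0 : 0 ≤ p := by linarith
    have q0 : 0 ≤ q := by linarith
    have k3 := mul_le_mul_of_nonneg_left (by linarith : θ * dist x c ≤ η / 2) p0
    have k4 := mul_le_mul_of_nonneg_right a2 hη.le
    have k5 := mul_le_mul_of_nonneg_right b2 hη.le
    constructor
    · linarith [mul_le_mul_of_nonneg_left k1.2 p0, mul_le_mul_of_nonneg_left k2.2 q0]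
    · linarith [mul_le_mul_of_nonneg_left k1.1 p0, mul_le_mul_of_nonneg_left k2.1 q0]
  · obtain ⟨p, q, a1, a2, b1, b2, rfl⟩ := mem_par hz
    rw [σ.map_add, σ.map_add, σ.map_smul, σ.map_smul, σ.map_smul, smul_eq_mul, smul_eq_mul,
      smul_eq_mul]
    have k1 := mul_le_mul_of_nonneg_right a2 e3.le
    have : (1 - p - q) * σ x + p * σ ((1 - θ) • x + θ • c) + q * σ ((1 - μ) • x + μ • a) + τ =
        p * ε := by linear_combination (1 - p - q) * h0 + p * sy2 + q * sy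
    linarith
  · have : cross x ((1 - θ) • x + θ • c) ((1 - μ) • x + μ • a) =
        -cross x ((1 - μ) • x + μ • a) ((1 - θ) • x + θ • c) := by simp only [cross]; ring
    rw [vol_par _ _ _ (by norm_num), this, abs_neg, ds.cr _ _ _ (by linarith), dy,
      show σ ((1 - θ) • x + θ • c) - σ x = ε by linarith, abs_of_pos e3]
    ring

theorem side_le {c : ℝ} (hc : F.f '' square 1 = square c) : c ≤ 4 := by
  by_contra hn
  have c0 : 0 ≤ c := by linarith
  have V : ∀ w : Fin 3 → ℂ, Vs w (w 0) (w 1) (w 2) := fun w =>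
    ⟨0, 1, 2, by decide, by decide, by decide, rfl, rfl, rfl⟩
  have h1 : square c ⊆ ⋃ i ∈ (Finset.univ : Finset (Fin F.n)),
      par (fv F i 0) (fv F i 1) (fv F i 2) 0 1 := by
    rw [← hc]
    rintro _ ⟨p, hp, rfl⟩
    obtain ⟨i, hi⟩ := exists_T (F := F) hp
    obtain ⟨r, s, t, r0, s0, t0, e, e'⟩ := (V _).repr (f_mem hi)
    refine mem_biUnion (Finset.mem_coe.2 (Finset.mem_univ i)) ⟨⟨s, t⟩, ⟨⟨s0, ?_⟩, t0, ?_⟩, ?_⟩
    · change s ≤ 1; linarith
    · change t ≤ 1; linarith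
    · rw [← e', show r = 1 - s - t by linarith]
  have h2 := (measureReal_mono h1 (Finset.isCompact_biUnion _ fun i _ =>
    isCompact_par _ _ _ _ _).measure_ne_top).trans (measureReal_biUnion_finset_le (μ := volume) _ _)
  have h3 := packing Finset.univ (fun i => par (F.v i 0) (F.v i 1) (F.v i 2) (1 / 8) (3 / 8))
    (box_ne_top 0 1 0 1) (fun i _ => isCompact_par _ _ _ _ _) (fun i _ z hz => by
      rw [← square_eq]
      obtain ⟨a, b, a1, a2, b1, b2, rfl⟩ := mem_par hz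
      exact T_sub ((V _).mem_tri (by linarith) (by linarith) (by linarith) (by ring)))
    (fun i _ j _ hij => disjoint_left.2 fun z z1 z2 => hij (by
      obtain ⟨a, b, a1, a2, b1, b2, e⟩ := mem_par z1
      obtain ⟨a', b', a1', a2', b1', b2', e'⟩ := mem_par z2
      exact eq_of_In (e ▸ (V _).mem_inn (dv i) (by linarith) (by linarith) (by linarith) (by ring))
        (e' ▸ (V _).mem_tri (by linarith) (by linarith) (by linarith) (by ring))))
  rw [square_eq, vol_box c0 c0] at h2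
  rw [vol_box zero_le_one zero_le_one] at h3
  have h4 : ∀ i, volume.real (par (fv F i 0) (fv F i 1) (fv F i 2) 0 1) =
      16 * volume.real (par (F.v i 0) (F.v i 1) (F.v i 2) (1 / 8) (3 / 8)) := fun i => by
    rw [vol_par _ _ _ zero_le_one, vol_par _ _ _ (by norm_num)]
    simp only [Function.comp]
    rw [abs_cross_f (vertex_mem _ 0) (vertex_mem _ 1) (vertex_mem _ 2)]
    ring
  simp only [h4, ← Finset.mul_sum] at h2
  nlinarith

end Pool.Agent.MP_3b5bbf_co.Up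

end
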