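import Pool.Agent.Mg.F3b5bbfq.G3532df

set_option linter.all false

/-! Branch and bound certificates for a pair of squares. -/

set_option linter.unusedVariables false

namespace Pool.Agent.MP_3b5bbf_co.S

variable {X Y c1 s1 c2 s2 : ℝ}

theorem L0b_22
    (h1 : c1^2 + s1^2 = 1) (h2 : c2^2 + s2^2 = 1)
    (H : WB X Y c1 s1 c2 s2)
    (a1 : 0 ≤ (-1:ℝ)*s1 - (0:ℝ)*c1) (b1 : 0 ≤ -((0:ℝ)*s1 - (-1:ℝ)*c1))
    (a2 : 0 ≤ (-1:ℝ)*s2 - (0:ℝ)*c2) (b2 : 0 ≤ -((0:ℝ)*s2 - (-1:ℝ)*c2))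
    (x0 : 0 ≤ X) (x1 : 0 ≤ 4 - X)
    (y0 : 0 ≤ Y + 2) (y1 : 0 ≤ 2 - Y)
    (dxs : 0 < 6 - X + c1 + s1 + c2 + s2)
    (dys : 0 < 3 - Y + c2 + s2) (dzs : 0 < 3 + Y + c1 + s1)
    (ha : 0 ≤ 3/4 - c1) (hb : 0 ≤ 3/4 - c2) (hn : 0 ≤ 13/25 - c1*c2 - s1*s2) : False := by
  have dx := dxs.le
  have dy := dys.le
  have dz := dzs.le
  rcases spl (X - (2:ℝ)) with g0 | g0
  · rcases spl (X - (5/2:ℝ)) with g1 | g1
    · rcases spl ((-3/5:ℝ)*s1 - (-4/5:ℝ)*c1) with g2 | g2
      · rcases spl ((-4/5:ℝ)*s2 - (-3/5:ℝ)*c2) with g3 | g3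
        · have k1 := chord h1 g2 b1 (by norm_num) (by norm_num)
          have k2 := chord h2 g3 b2 (by norm_num) (by norm_num)
          linarith only [h1, h2, H.q1, H.q3, H.q8, hn, dxs, mul_nonneg dx g1, mul_nonneg dy dz,
            mul_nonneg dz y1, mul_nonneg ha k2, mul_nonneg hb k1, mul_nonneg g1 k1,
            mul_nonneg g1 k2, mul_nonneg x1 b1, mul_nonneg x1 g3, mul_nonneg y0 b1,
            mul_nonneg y0 k2, mul_nonneg y1 k1, mul_nonneg y1 k2, mul_nonneg g2 g3,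
            mul_nonneg g2 k2, mul_nonneg b1 b2, mul_nonneg k1 g3]
        · rcases spl (Y - (0:ℝ)) with g4 | g4
          · rcases spl ((-5/13:ℝ)*s1 - (-12/13:ℝ)*c1) with g5 | g5
            · have k1 := chord h1 g5 b1 (by norm_num) (by norm_num)
              have l1 := tang h1 (-5/13:ℝ) (-12/13:ℝ)
              have u1 := tang h1 (0:ℝ) (-1:ℝ)
              have k2 := chord h2 a2 g3 (by norm_num) (by norm_num)
              have l2 := tang h2 (-1:ℝ) (0:ℝ)
              have u2 := tang h2 (-4/5:ℝ) (-3/5:ℝ)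
              linarith only [h1, h2, H.q1, H.q3, dxs, dys, mul_nonneg dx g1, mul_nonneg dx b1,
                mul_nonneg dx u1, mul_nonneg dx a2, mul_nonneg dy g4, mul_nonneg dy k1,
                mul_nonneg dy l1, mul_nonneg dy u2, mul_nonneg x1 k2, mul_nonneg g4 a2,
                mul_nonneg g4 l2, mul_nonneg g5 u1, mul_nonneg b1 k2, mul_nonneg k1 k1,
                mul_nonneg k1 l1, mul_nonneg k1 u1, mul_nonneg k1 k2, mul_nonneg k1 l2,
                mul_nonneg l1 a2, mul_nonneg g3 l2, mul_nonneg k2 u2, mul_nonneg l2 u2]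
            · rcases spl ((-8/17:ℝ)*s1 - (-15/17:ℝ)*c1) with g6 | g6
              · have k1 := chord h1 g6 g5 (by norm_num) (by norm_num)
                have k2 := chord h2 a2 g3 (by norm_num) (by norm_num)
                have l2 := tang h2 (-1:ℝ) (0:ℝ)
                linarith only [h1, h2, H.q1, H.q3, hn, dxs, mul_nonneg dx ha, mul_nonneg dx g1,
                  mul_nonneg dx a2, mul_nonneg dy dz, mul_nonneg dy hb, mul_nonneg dy g4,
                  mul_nonneg dy a2, mul_nonneg dz k1, mul_nonneg ha k1, mul_nonneg ha k2,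
                  mul_nonneg hb k1, mul_nonneg g1 g6, mul_nonneg g1 k1, mul_nonneg g1 k2,
                  mul_nonneg g4 k1, mul_nonneg y1 g6, mul_nonneg y1 k2, mul_nonneg g6 g5,
                  mul_nonneg g6 a2, mul_nonneg g6 l2, mul_nonneg k1 a2, mul_nonneg g3 l2]
              · have k1 := chord h1 g2 g6 (by norm_num) (by norm_num)
                have k2 := chord h2 a2 g3 (by norm_num) (by norm_num)
                have l2 := tang h2 (-1:ℝ) (0:ℝ)
                linarith only [h1, h2, H.q1, H.q3, hn, mul_nonneg dx ha, mul_nonneg dx g1,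
                  mul_nonneg dx a2, mul_nonneg dy dz, mul_nonneg dy hb, mul_nonneg dy g4,
                  mul_nonneg dy a2, mul_nonneg dz k1, mul_nonneg ha k1, mul_nonneg ha k2,
                  mul_nonneg hb k1, mul_nonneg g1 k1, mul_nonneg g1 k2, mul_nonneg x1 g6,
                  mul_nonneg g4 k1, mul_nonneg y1 g2, mul_nonneg y1 k2, mul_nonneg g2 a2,
                  mul_nonneg g2 l2, mul_nonneg g6 g3, mul_nonneg k1 a2, mul_nonneg g3 l2,
                  mul_nonneg k2 l2]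
          · rcases spl ((-15/17:ℝ)*s2 - (-8/17:ℝ)*c2) with g5 | g5
            · have k1 := chord h1 g2 b1 (by norm_num) (by norm_num)
              have u1 := tang h1 (0:ℝ) (-1:ℝ)
              have k2 := chord h2 g5 g3 (by norm_num) (by norm_num)
              have l2 := tang h2 (-15/17:ℝ) (-8/17:ℝ)
              linarith only [h1, h2, H.q1, hn, dxs, k2, mul_nonneg dx ha, mul_nonneg dx g1,
                mul_nonneg dx g5, mul_nonneg dy dz, mul_nonneg dy k2, mul_nonneg dz ha,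
                mul_nonneg dz g4, mul_nonneg ha k2, mul_nonneg hb k1, mul_nonneg g1 k1,
                mul_nonneg g1 k2, mul_nonneg x1 g5, mul_nonneg y0 k1, mul_nonneg y0 g3,
                mul_nonneg g4 k2, mul_nonneg g2 u1, mul_nonneg g2 g5, mul_nonneg b1 g3,
                mul_nonneg k1 u1, mul_nonneg k1 k2, mul_nonneg u1 g3, mul_nonneg g3 l2]
            · rcases spl ((-7/25:ℝ)*s1 - (-24/25:ℝ)*c1) with g6 | g6
              · have k1 := chord h1 g6 b1 (by norm_num) (by norm_num)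
                have l1 := tang h1 (-7/25:ℝ) (-24/25:ℝ)
                have u1 := tang h1 (0:ℝ) (-1:ℝ)
                have m1 := tang h1 (-9/64:ℝ) (-63/64:ℝ)
                have k2 := chord h2 a2 g5 (by norm_num) (by norm_num)
                have l2 := tang h2 (-1:ℝ) (0:ℝ)
                have u2 := tang h2 (-15/17:ℝ) (-8/17:ℝ)
                have m2 := tang h2 (-31/32:ℝ) (-1/4:ℝ)
                linarith only [h1, h2, H.q1, H.q3, H.q9, dxs, dzs, mul_nonneg dx g1,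
                  mul_nonneg dx b1, mul_nonneg dx a2, mul_nonneg dx l2, mul_nonneg dz g4,
                  mul_nonneg dz u1, mul_nonneg dz g5, mul_nonneg dz u2, mul_nonneg g1 k1,
                  mul_nonneg g1 k2, mul_nonneg y0 k1, mul_nonneg y0 k2, mul_nonneg g6 k1,
                  mul_nonneg b1 k1, mul_nonneg b1 a2, mul_nonneg k1 l1, mul_nonneg k1 a2,
                  mul_nonneg k1 k2, mul_nonneg m1 k2, mul_nonneg a2 k2, mul_nonneg k2 m2]
              · have k1 := chord h1 g2 g6 (by norm_num) (by norm_num)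
                have u1 := tang h1 (-7/25:ℝ) (-24/25:ℝ)
                have k2 := chord h2 a2 g5 (by norm_num) (by norm_num)
                have l2 := tang h2 (-1:ℝ) (0:ℝ)
                have m2 := tang h2 (-31/32:ℝ) (-1/4:ℝ)
                linarith only [h1, h2, H.q1, H.q3, H.q9, hn, dxs, k1, mul_nonneg dx ha,
                  mul_nonneg dx g1, mul_nonneg dx a2, mul_nonneg dy k1, mul_nonneg dz g4,
                  mul_nonneg dz g6, mul_nonneg dz g5, mul_nonneg ha k1, mul_nonneg ha k2,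
                  mul_nonneg g1 k1, mul_nonneg g1 k2, mul_nonneg y0 g6, mul_nonneg g4 g2,
                  mul_nonneg g4 k2, mul_nonneg g2 u1, mul_nonneg g2 m2, mul_nonneg k1 a2,
                  mul_nonneg k1 l2, mul_nonneg g5 m2, mul_nonneg k2 l2]
      · rcases spl ((-3/5:ℝ)*s2 - (-4/5:ℝ)*c2) with g3 | g3
        · rcases spl (Y - (0:ℝ)) with g4 | g4
          · rcases spl ((-7/25:ℝ)*s2 - (-24/25:ℝ)*c2) with g5 | g5
            · have k1 := chord h1 a1 g2 (by norm_num) (by norm_num)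
              have l1 := tang h1 (-1:ℝ) (0:ℝ)
              have u1 := tang h1 (-3/5:ℝ) (-4/5:ℝ)
              have k2 := chord h2 g5 b2 (by norm_num) (by norm_num)
              have l2 := tang h2 (-7/25:ℝ) (-24/25:ℝ)
              have u2 := tang h2 (0:ℝ) (-1:ℝ)
              linarith only [h1, h2, H.q2, H.q6, dxs, dys, mul_nonneg dx g1, mul_nonneg dx b2,
                mul_nonneg dy g4, mul_nonneg dy k2, mul_nonneg g1 k2, mul_nonneg x1 k1,
                mul_nonneg g4 a1, mul_nonneg g4 l1, mul_nonneg g4 b2, mul_nonneg g4 u2,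
                mul_nonneg y1 g2, mul_nonneg y1 l2, mul_nonneg a1 g2, mul_nonneg g2 l1,
                mul_nonneg g2 b2, mul_nonneg g2 k2, mul_nonneg k1 u1, mul_nonneg k1 g5,
                mul_nonneg k1 k2, mul_nonneg g5 u2, mul_nonneg k2 l2, mul_nonneg l2 u2]
            · have k1 := chord h1 a1 g2 (by norm_num) (by norm_num)
              have l1 := tang h1 (-1:ℝ) (0:ℝ)
              have k2 := chord h2 g3 g5 (by norm_num) (by norm_num)
              linarith only [h1, h2, H.q2, H.q6, H.q14, hn, dxs, k2, mul_nonneg dx hb,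
                mul_nonneg dx g1, mul_nonneg dx a1, mul_nonneg dy g4, mul_nonneg dy g2,
                mul_nonneg dy g3, mul_nonneg ha k2, mul_nonneg hb k1, mul_nonneg hb k2,
                mul_nonneg g1 k1, mul_nonneg g1 k2, mul_nonneg g4 l1, mul_nonneg g4 k2,
                mul_nonneg y1 k1, mul_nonneg y1 g3, mul_nonneg a1 g2, mul_nonneg a1 g3,
                mul_nonneg a1 k2, mul_nonneg g2 l1, mul_nonneg l1 g3]
          · rcases spl ((-12/13:ℝ)*s1 - (-5/13:ℝ)*c1) with g5 | g5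
            · have k1 := chord h1 g5 g2 (by norm_num) (by norm_num)
              have l1 := tang h1 (-12/13:ℝ) (-5/13:ℝ)
              have u1 := tang h1 (-3/5:ℝ) (-4/5:ℝ)
              have k2 := chord h2 g3 b2 (by norm_num) (by norm_num)
              have u2 := tang h2 (0:ℝ) (-1:ℝ)
              linarith only [h1, h2, H.q12, H.q14, hn, dxs, k1, mul_nonneg dx hb, mul_nonneg dx g1,
                mul_nonneg dx g5, mul_nonneg dz hb, mul_nonneg dz g4, mul_nonneg dz g2,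
                mul_nonneg dz b2, mul_nonneg ha k2, mul_nonneg hb k1, mul_nonneg g1 k1,
                mul_nonneg g1 k2, mul_nonneg y0 k2, mul_nonneg g4 k1, mul_nonneg g5 g2,
                mul_nonneg g5 g3, mul_nonneg g5 k2, mul_nonneg g2 l1, mul_nonneg g2 b2,
                mul_nonneg u1 u2, mul_nonneg g3 u2, mul_nonneg k2 u2]
            · rcases spl (Y - (-3/2:ℝ)) with g6 | g6
              · have k1 := chord h1 a1 g5 (by norm_num) (by norm_num)
                have l1 := tang h1 (-1:ℝ) (0:ℝ)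
                have u1 := tang h1 (-12/13:ℝ) (-5/13:ℝ)
                have k2 := chord h2 g3 b2 (by norm_num) (by norm_num)
                have l2 := tang h2 (-3/5:ℝ) (-4/5:ℝ)
                have u2 := tang h2 (0:ℝ) (-1:ℝ)
                linarith only [h1, h2, H.q12, H.q14, hn, dxs, k2, mul_nonneg dx hb,
                  mul_nonneg dx g1, mul_nonneg dx a1, mul_nonneg hb k1, mul_nonneg g1 k1,
                  mul_nonneg g1 k2, mul_nonneg g6 g4, mul_nonneg g6 g5, mul_nonneg g6 b2,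
                  mul_nonneg g6 k2, mul_nonneg g4 a1, mul_nonneg g4 k1, mul_nonneg g4 g3,
                  mul_nonneg a1 k2, mul_nonneg g5 l1, mul_nonneg g5 l2, mul_nonneg k1 l1,
                  mul_nonneg k1 u2, mul_nonneg u1 g3, mul_nonneg g3 u2, mul_nonneg k2 u2]
              · rcases spl (Y - (-7/4:ℝ)) with g7 | g7
                · have k1 := chord h1 a1 g5 (by norm_num) (by norm_num)
                  have l1 := tang h1 (-1:ℝ) (0:ℝ)
                  have u1 := tang h1 (-12/13:ℝ) (-5/13:ℝ)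
                  have k2 := chord h2 g3 b2 (by norm_num) (by norm_num)
                  have l2 := tang h2 (-3/5:ℝ) (-4/5:ℝ)
                  linarith only [h1, h2, H.q12, H.q14, dxs, mul_nonneg dx g1, mul_nonneg dx a1,
                    mul_nonneg dx g3, mul_nonneg dy k1, mul_nonneg dy k2, mul_nonneg ha k2,
                    mul_nonneg hb g7, mul_nonneg hb k1, mul_nonneg g1 k1, mul_nonneg g1 k2,
                    mul_nonneg x1 a1, mul_nonneg g7 g6, mul_nonneg g7 g5, mul_nonneg g7 u1,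
                    mul_nonneg g7 b2, mul_nonneg a1 b2, mul_nonneg a1 k2, mul_nonneg g5 l1,
                    mul_nonneg g5 l2, mul_nonneg k1 l1, mul_nonneg u1 g3, mul_nonneg g3 b2,
                    mul_nonneg b2 l2]
                · have k1 := chord h1 a1 g5 (by norm_num) (by norm_num)
                  have l1 := tang h1 (-1:ℝ) (0:ℝ)
                  have m1 := tang h1 (-63/64:ℝ) (-13/64:ℝ)
                  have k2 := chord h2 g3 b2 (by norm_num) (by norm_num)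
                  have l2 := tang h2 (-3/5:ℝ) (-4/5:ℝ)
                  have u2 := tang h2 (0:ℝ) (-1:ℝ)
                  linarith only [h1, h2, H.q6, H.q12, H.q14, dxs, dzs, mul_nonneg dx g1,
                    mul_nonneg dx k1, mul_nonneg dx l1, mul_nonneg dx l2, mul_nonneg dz g7,
                    mul_nonneg dz k1, mul_nonneg dz l1, mul_nonneg dz k2, mul_nonneg dz u2,
                    mul_nonneg g1 k2, mul_nonneg g7 k1, mul_nonneg g7 l1, mul_nonneg g7 k2,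
                    mul_nonneg k1 m1, mul_nonneg k1 k2, mul_nonneg k1 u2, mul_nonneg l1 k2,
                    mul_nonneg l1 u2, mul_nonneg k2 l2, mul_nonneg l2 u2]
        · have k1 := chord h1 a1 g2 (by norm_num) (by norm_num)
          have k2 := chord h2 a2 g3 (by norm_num) (by norm_num)
          linarith only [h1, h2, H.q3, H.q6, H.q9, H.q12, hn, dxs, mul_nonneg dx g1,
            mul_nonneg dx y0, mul_nonneg dy x1, mul_nonneg dy y0, mul_nonneg ha k2,
            mul_nonneg hb k1, mul_nonneg g1 k1, mul_nonneg g1 k2, mul_nonneg y0 k1,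
            mul_nonneg y0 k2, mul_nonneg y1 a1, mul_nonneg y1 k2, mul_nonneg a1 a2,
            mul_nonneg a1 k2, mul_nonneg g2 g3, mul_nonneg k1 a2]
    · rcases spl (Y - (0:ℝ)) with g2 | g2
      · have k1 := chord h1 a1 b1 (by norm_num) (by norm_num)
        have l1 := tang h1 (-1:ℝ) (0:ℝ)
        have u1 := tang h1 (0:ℝ) (-1:ℝ)
        have k2 := chord h2 a2 b2 (by norm_num) (by norm_num)
        have l2 := tang h2 (-1:ℝ) (0:ℝ)
        have u2 := tang h2 (0:ℝ) (-1:ℝ)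
        linarith only [h1, h2, H.q2, H.q3, H.q6, H.q9, H.q12, hn, g1, mul_nonneg ha g1,
          mul_nonneg ha k2, mul_nonneg hb g1, mul_nonneg hb k1, mul_nonneg g0 g1, mul_nonneg g1 u1,
          mul_nonneg g1 u2, mul_nonneg g2 y1, mul_nonneg g2 k1, mul_nonneg g2 k2, mul_nonneg y1 a2,
          mul_nonneg a1 a2, mul_nonneg a1 l2, mul_nonneg l1 a2, mul_nonneg l1 l2]
      · rcases spl ((-3/5:ℝ)*s1 - (-4/5:ℝ)*c1) with g3 | g3
        · rcases spl (Y - (-1:ℝ)) with g4 | g4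
          · linarith only [h1, h2, H.q3, H.q5, H.q6, H.q8, H.q9, H.q12, H.q14, g1,
              mul_nonneg dy g4, mul_nonneg hb g4, mul_nonneg g0 g1, mul_nonneg g4 g2,
              mul_nonneg g4 a2]
          · have k1 := chord h1 g3 b1 (by norm_num) (by norm_num)
            have l1 := tang h1 (-3/5:ℝ) (-4/5:ℝ)
            have u1 := tang h1 (0:ℝ) (-1:ℝ)
            have k2 := chord h2 a2 b2 (by norm_num) (by norm_num)
            have l2 := tang h2 (-1:ℝ) (0:ℝ)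
            linarith only [h1, h2, H.q2, H.q3, H.q8, H.q9, hn, mul_nonneg dy g1, mul_nonneg dy k1,
              mul_nonneg dy k2, mul_nonneg dz ha, mul_nonneg dz g1, mul_nonneg dz g4,
              mul_nonneg dz b1, mul_nonneg ha k2, mul_nonneg g0 g1, mul_nonneg g0 k1,
              mul_nonneg g1 l1, mul_nonneg g1 a2, mul_nonneg g1 l2, mul_nonneg g4 k1,
              mul_nonneg g4 k2, mul_nonneg g3 u1, mul_nonneg b1 b2, mul_nonneg k1 u1,
              mul_nonneg k1 a2, mul_nonneg k1 l2, mul_nonneg a2 b2]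
        · rcases spl (Y - (-1:ℝ)) with g4 | g4
          · linarith only [h1, h2, H.q3, H.q5, H.q6, H.q8, H.q9, H.q12, H.q14, g1,
              mul_nonneg dy g4, mul_nonneg hb g4, mul_nonneg g0 g1, mul_nonneg g4 g2,
              mul_nonneg g4 a2]
          · have k1 := chord h1 a1 g3 (by norm_num) (by norm_num)
            have l1 := tang h1 (-1:ℝ) (0:ℝ)
            have k2 := chord h2 a2 b2 (by norm_num) (by norm_num)
            have l2 := tang h2 (-1:ℝ) (0:ℝ)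
            have u2 := tang h2 (0:ℝ) (-1:ℝ)
            linarith only [h1, h2, H.q6, H.q9, H.q12, hn, g1, k2, mul_nonneg dy k1,
              mul_nonneg dz b2, mul_nonneg dz u2, mul_nonneg hb k1, mul_nonneg g0 g1,
              mul_nonneg g0 k2, mul_nonneg g1 a1, mul_nonneg g1 l1, mul_nonneg g1 l2,
              mul_nonneg y0 g4, mul_nonneg y0 g3, mul_nonneg y0 b2, mul_nonneg g4 a1,
              mul_nonneg g4 k1, mul_nonneg a1 k2, mul_nonneg k1 u2]
  · rcases spl (Y - (0:ℝ)) with g1 | g1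
    · have k1 := chord h1 a1 b1 (by norm_num) (by norm_num)
      linarith only [h1, h2, H.q2, H.q3, H.q6, H.q9, H.q12, hn, g0, y1, mul_nonneg dz y1,
        mul_nonneg ha g0, mul_nonneg x0 g0, mul_nonneg x0 k1, mul_nonneg g1 y1, mul_nonneg y1 a1]
    · have k1 := chord h1 a1 b1 (by norm_num) (by norm_num)
      have m1 := tang h1 (-45/64:ℝ) (-45/64:ℝ)
      have k2 := chord h2 a2 b2 (by norm_num) (by norm_num)
      have l2 := tang h2 (-1:ℝ) (0:ℝ)
      have u2 := tang h2 (0:ℝ) (-1:ℝ)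
      linarith only [h1, h2, H.q3, H.q6, H.q9, H.q12, dzs, mul_nonneg dz g1, mul_nonneg x0 g0,
        mul_nonneg g0 k2, mul_nonneg g0 l2, mul_nonneg g0 u2, mul_nonneg g1 k1, mul_nonneg k1 k1,
        mul_nonneg k1 m1]

theorem L0b_23
    (h1 : c1^2 + s1^2 = 1) (h2 : c2^2 + s2^2 = 1)
    (H : WB X Y c1 s1 c2 s2)
    (a1 : 0 ≤ (-1:ℝ)*s1 - (0:ℝ)*c1) (b1 : 0 ≤ -((0:ℝ)*s1 - (-1:ℝ)*c1))
    (a2 : 0 ≤ (0:ℝ)*s2 - (-1:ℝ)*c2) (b2 : 0 ≤ -((1:ℝ)*s2 - (0:ℝ)*c2))
    (x0 : 0 ≤ X) (x1 : 0 ≤ 4 - X)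
    (y0 : 0 ≤ Y + 2) (y1 : 0 ≤ 2 - Y)
    (dxs : 0 < 6 - X + c1 + s1 - c2 + s2)
    (dys : 0 < 3 - Y - c2 + s2) (dzs : 0 < 3 + Y + c1 + s1)
    (ha : 0 ≤ 3/4 - c1) (hb : 0 ≤ 3/4 - c2) (hn : 0 ≤ 13/25 - c1*c2 - s1*s2) : False := by
  have dx := dxs.le
  have dy := dys.le
  have dz := dzs.le
  rcases spl ((-3/5:ℝ)*s1 - (-4/5:ℝ)*c1) with g0 | g0
  · rcases spl ((3/5:ℝ)*s2 - (-4/5:ℝ)*c2) with g1 | g1
    · have k1 := chord h1 g0 b1 (by norm_num) (by norm_num)
      have k2 := chord h2 g1 b2 (by norm_num) (by norm_num)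
      have l2 := tang h2 (3/5:ℝ) (-4/5:ℝ)
      have m2 := tang h2 (57/64:ℝ) (-29/64:ℝ)
      linarith only [h1, h2, H.q2, H.q6, H.q11, H.q14, hn, dxs, mul_nonneg dx x0, mul_nonneg dz y1,
        mul_nonneg ha y0, mul_nonneg x0 k1, mul_nonneg x0 k2, mul_nonneg x1 g1, mul_nonneg x1 l2,
        mul_nonneg y0 y1, mul_nonneg y0 b1, mul_nonneg y0 k1, mul_nonneg y0 b2, mul_nonneg y1 k1,
        mul_nonneg y1 g1, mul_nonneg g0 l2, mul_nonneg g0 m2, mul_nonneg k1 g1]
    · have k1 := chord h1 g0 b1 (by norm_num) (by norm_num)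
      have u1 := tang h1 (0:ℝ) (-1:ℝ)
      have k2 := chord h2 a2 g1 (by norm_num) (by norm_num)
      linarith only [h1, h2, H.q2, H.q6, H.q14, hn, dxs, dzs, mul_nonneg dx ha, mul_nonneg dx x0,
        mul_nonneg dx g1, mul_nonneg dz y1, mul_nonneg dz g1, mul_nonneg ha k2, mul_nonneg hb k2,
        mul_nonneg x0 k1, mul_nonneg x0 k2, mul_nonneg y0 g0, mul_nonneg y0 k1, mul_nonneg y0 k2,
        mul_nonneg y1 k1, mul_nonneg g0 u1, mul_nonneg g0 a2, mul_nonneg g0 k2, mul_nonneg k1 u1,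
        mul_nonneg k1 g1, mul_nonneg k1 k2, mul_nonneg a2 g1]
  · rcases spl (Y - (0:ℝ)) with g1 | g1
    · have k1 := chord h1 a1 g0 (by norm_num) (by norm_num)
      have l1 := tang h1 (-1:ℝ) (0:ℝ)
      have u1 := tang h1 (-3/5:ℝ) (-4/5:ℝ)
      have m1 := tang h1 (-57/64:ℝ) (-29/64:ℝ)
      have k2 := chord h2 a2 b2 (by norm_num) (by norm_num)
      have l2 := tang h2 (0:ℝ) (-1:ℝ)
      have m2 := tang h2 (45/64:ℝ) (-45/64:ℝ)
      linarith only [h1, h2, H.q2, H.q6, dxs, dys, mul_nonneg dx x0, mul_nonneg dx k1,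
        mul_nonneg dx m2, mul_nonneg dy g1, mul_nonneg dy g0, mul_nonneg dy k2, mul_nonneg dy l2,
        mul_nonneg hb l2, mul_nonneg x0 k2, mul_nonneg g1 a1, mul_nonneg g1 l1, mul_nonneg a1 k2,
        mul_nonneg g0 l1, mul_nonneg k1 m1, mul_nonneg k1 a2, mul_nonneg k1 l2, mul_nonneg l1 u1,
        mul_nonneg l1 l2, mul_nonneg k2 l2, mul_nonneg k2 m2]
    · rcases spl ((-4/5:ℝ)*s1 - (-3/5:ℝ)*c1) with g2 | g2
      · rcases spl (Y - (-1:ℝ)) with g3 | g3
        · have k1 := chord h1 g2 g0 (by norm_num) (by norm_num)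
          have k2 := chord h2 a2 b2 (by norm_num) (by norm_num)
          have l2 := tang h2 (0:ℝ) (-1:ℝ)
          have u2 := tang h2 (1:ℝ) (0:ℝ)
          linarith only [h1, h2, H.q6, H.q10, hn, dxs, k1, k2, mul_nonneg dx x0, mul_nonneg dy k1,
            mul_nonneg hb g3, mul_nonneg hb a2, mul_nonneg x0 k1, mul_nonneg x0 k2,
            mul_nonneg g3 g1, mul_nonneg g3 g2, mul_nonneg g3 k2, mul_nonneg g1 a2,
            mul_nonneg g2 a2, mul_nonneg g2 k2, mul_nonneg k1 b2, mul_nonneg k1 u2,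
            mul_nonneg b2 l2]
        · have k1 := chord h1 g2 g0 (by norm_num) (by norm_num)
          have k2 := chord h2 a2 b2 (by norm_num) (by norm_num)
          have l2 := tang h2 (0:ℝ) (-1:ℝ)
          have u2 := tang h2 (1:ℝ) (0:ℝ)
          have m2 := tang h2 (45/64:ℝ) (-45/64:ℝ)
          linarith only [h1, h2, H.q14, hn, dxs, mul_nonneg dx x0, mul_nonneg dx g2,
            mul_nonneg dx m2, mul_nonneg dz hb, mul_nonneg dz g3, mul_nonneg dz b2,
            mul_nonneg hb k1, mul_nonneg hb l2, mul_nonneg x0 g0, mul_nonneg x0 k1,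
            mul_nonneg x0 k2, mul_nonneg g3 k1, mul_nonneg g3 l2, mul_nonneg g2 k1,
            mul_nonneg g2 k2, mul_nonneg k1 b2, mul_nonneg k1 u2, mul_nonneg k2 m2]
      · have k1 := chord h1 a1 g2 (by norm_num) (by norm_num)
        have l1 := tang h1 (-1:ℝ) (0:ℝ)
        have u1 := tang h1 (-4/5:ℝ) (-3/5:ℝ)
        have k2 := chord h2 a2 b2 (by norm_num) (by norm_num)
        have l2 := tang h2 (0:ℝ) (-1:ℝ)
        have u2 := tang h2 (1:ℝ) (0:ℝ)
        have m2 := tang h2 (45/64:ℝ) (-45/64:ℝ)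
        linarith only [h1, h2, H.q6, H.q14, dxs, dzs, mul_nonneg dx x0, mul_nonneg dx a1,
          mul_nonneg dx m2, mul_nonneg dz g1, mul_nonneg dz u1, mul_nonneg hb l2, mul_nonneg x0 k1,
          mul_nonneg x0 k2, mul_nonneg g1 k1, mul_nonneg g1 k2, mul_nonneg g1 l2, mul_nonneg a1 k2,
          mul_nonneg g2 l2, mul_nonneg k1 k1, mul_nonneg k1 l1, mul_nonneg k1 u1, mul_nonneg k1 l2,
          mul_nonneg k1 u2, mul_nonneg k2 m2]

theorem L0b_30
    (h1 : c1^2 + s1^2 = 1) (h2 : c2^2 + s2^2 = 1)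
    (H : WB X Y c1 s1 c2 s2)
    (a1 : 0 ≤ (0:ℝ)*s1 - (-1:ℝ)*c1) (b1 : 0 ≤ -((1:ℝ)*s1 - (0:ℝ)*c1))
    (a2 : 0 ≤ (1:ℝ)*s2 - (0:ℝ)*c2) (b2 : 0 ≤ -((0:ℝ)*s2 - (1:ℝ)*c2))
    (x0 : 0 ≤ X) (x1 : 0 ≤ 4 - X)
    (y0 : 0 ≤ Y + 2) (y1 : 0 ≤ 2 - Y)
    (dxs : 0 < 6 - X - c1 + s1 - c2 - s2)
    (dys : 0 < 3 - Y - c2 - s2) (dzs : 0 < 3 + Y - c1 + s1)
    (ha : 0 ≤ 3/4 - c1) (hb : 0 ≤ 3/4 - c2) (hn : 0 ≤ 13/25 - c1*c2 - s1*s2) : False := by
  have dx := dxs.le
  have dy := dys.le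
  have dz := dzs.le
  have k1 := chord h1 a1 b1 (by norm_num) (by norm_num)
  have l1 := tang h1 (0:ℝ) (-1:ℝ)
  have k2 := chord h2 a2 b2 (by norm_num) (by norm_num)
  have u2 := tang h2 (0:ℝ) (1:ℝ)
  linarith only [h1, h2, H.q3, H.q6, H.q9, x1, mul_nonneg ha y0, mul_nonneg hb y1,
    mul_nonneg hb b1, mul_nonneg x0 x1, mul_nonneg x0 k1, mul_nonneg x0 k2, mul_nonneg y0 y1,
    mul_nonneg y0 b1, mul_nonneg y0 b2, mul_nonneg y0 u2, mul_nonneg y1 a1, mul_nonneg y1 l1,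
    mul_nonneg y1 a2, mul_nonneg a1 u2]

theorem L0b_31
    (h1 : c1^2 + s1^2 = 1) (h2 : c2^2 + s2^2 = 1)
    (H : WB X Y c1 s1 c2 s2)
    (a1 : 0 ≤ (0:ℝ)*s1 - (-1:ℝ)*c1) (b1 : 0 ≤ -((1:ℝ)*s1 - (0:ℝ)*c1))
    (a2 : 0 ≤ (0:ℝ)*s2 - (1:ℝ)*c2) (b2 : 0 ≤ -((-1:ℝ)*s2 - (0:ℝ)*c2))
    (x0 : 0 ≤ X) (x1 : 0 ≤ 4 - X)
    (y0 : 0 ≤ Y + 2) (y1 : 0 ≤ 2 - Y)
    (dxs : 0 < 6 - X - c1 + s1 + c2 - s2)
    (dys : 0 < 3 - Y + c2 - s2) (dzs : 0 < 3 + Y - c1 + s1)
    (ha : 0 ≤ 3/4 - c1) (hb : 0 ≤ 3/4 - c2) (hn : 0 ≤ 13/25 - c1*c2 - s1*s2) : False := by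
  have dx := dxs.le
  have dy := dys.le
  have dz := dzs.le
  have k1 := chord h1 a1 b1 (by norm_num) (by norm_num)
  have l1 := tang h1 (0:ℝ) (-1:ℝ)
  have u1 := tang h1 (1:ℝ) (0:ℝ)
  have m1 := tang h1 (45/64:ℝ) (-45/64:ℝ)
  have k2 := chord h2 a2 b2 (by norm_num) (by norm_num)
  have l2 := tang h2 (0:ℝ) (1:ℝ)
  have u2 := tang h2 (-1:ℝ) (0:ℝ)
  have m2 := tang h2 (-45/64:ℝ) (45/64:ℝ)
  linarith only [h1, h2, H.q3, dxs, mul_nonneg dx x0, mul_nonneg dx l2, mul_nonneg dy dz,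
    mul_nonneg dy k1, mul_nonneg dy k2, mul_nonneg ha l1, mul_nonneg x0 k1, mul_nonneg x0 k2,
    mul_nonneg x0 u2, mul_nonneg x1 m1, mul_nonneg y1 l1, mul_nonneg k1 m1, mul_nonneg k1 k2,
    mul_nonneg u1 k2, mul_nonneg m1 u2, mul_nonneg a2 k2, mul_nonneg k2 k2, mul_nonneg k2 m2]

theorem L0b_32
    (h1 : c1^2 + s1^2 = 1) (h2 : c2^2 + s2^2 = 1)
    (H : WB X Y c1 s1 c2 s2)
    (a1 : 0 ≤ (0:ℝ)*s1 - (-1:ℝ)*c1) (b1 : 0 ≤ -((1:ℝ)*s1 - (0:ℝ)*c1))
    (a2 : 0 ≤ (-1:ℝ)*s2 - (0:ℝ)*c2) (b2 : 0 ≤ -((0:ℝ)*s2 - (-1:ℝ)*c2))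
    (x0 : 0 ≤ X) (x1 : 0 ≤ 4 - X)
    (y0 : 0 ≤ Y + 2) (y1 : 0 ≤ 2 - Y)
    (dxs : 0 < 6 - X - c1 + s1 + c2 + s2)
    (dys : 0 < 3 - Y + c2 + s2) (dzs : 0 < 3 + Y - c1 + s1)
    (ha : 0 ≤ 3/4 - c1) (hb : 0 ≤ 3/4 - c2) (hn : 0 ≤ 13/25 - c1*c2 - s1*s2) : False := by
  have dx := dxs.le
  have dy := dys.le
  have dz := dzs.le
  rcases spl ((-3/5:ℝ)*s2 - (-4/5:ℝ)*c2) with g0 | g0
  · rcases spl ((3/5:ℝ)*s1 - (-4/5:ℝ)*c1) with g1 | g1
    · have k1 := chord h1 g1 b1 (by norm_num) (by norm_num)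
      have l1 := tang h1 (3/5:ℝ) (-4/5:ℝ)
      have k2 := chord h2 g0 b2 (by norm_num) (by norm_num)
      have l2 := tang h2 (-3/5:ℝ) (-4/5:ℝ)
      linarith only [h1, h2, H.q1, H.q2, H.q3, H.q4, dxs, mul_nonneg dx x0, mul_nonneg dz y1,
        mul_nonneg ha y0, mul_nonneg hb k1, mul_nonneg x0 x1, mul_nonneg x0 k1, mul_nonneg x0 k2,
        mul_nonneg x1 g1, mul_nonneg y0 b1, mul_nonneg y0 b2, mul_nonneg y0 k2, mul_nonneg y1 g1,
        mul_nonneg y1 k1, mul_nonneg y1 g0, mul_nonneg g1 g0, mul_nonneg k1 k2, mul_nonneg l1 l2]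
    · rcases spl ((12/37:ℝ)*s1 - (-35/37:ℝ)*c1) with g2 | g2
      · have k1 := chord h1 g2 g1 (by norm_num) (by norm_num)
        have k2 := chord h2 g0 b2 (by norm_num) (by norm_num)
        linarith only [h1, h2, H.q0, H.q2, H.q3, hn, dxs, dzs, mul_nonneg dx x0, mul_nonneg dz hb,
          mul_nonneg dz y1, mul_nonneg dz g1, mul_nonneg ha g2, mul_nonneg ha k1, mul_nonneg hb k1,
          mul_nonneg x0 g2, mul_nonneg x0 k1, mul_nonneg x0 k2, mul_nonneg y0 k1, mul_nonneg y0 k2,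
          mul_nonneg y1 g2, mul_nonneg y1 k1, mul_nonneg y1 k2, mul_nonneg g2 g0, mul_nonneg g1 k2,
          mul_nonneg k1 g0]
      · have k1 := chord h1 a1 g2 (by norm_num) (by norm_num)
        have k2 := chord h2 g0 b2 (by norm_num) (by norm_num)
        linarith only [h1, h2, H.q2, H.q3, H.q8, hn, dxs, mul_nonneg dx x0, mul_nonneg dy y0,
          mul_nonneg dz y1, mul_nonneg ha k2, mul_nonneg hb k1, mul_nonneg x0 k1, mul_nonneg x0 k2,
          mul_nonneg x1 g2, mul_nonneg x1 g0, mul_nonneg y0 y1, mul_nonneg y0 g2, mul_nonneg y0 k2,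
          mul_nonneg y1 k1, mul_nonneg y1 k2, mul_nonneg a1 g0, mul_nonneg k1 g0,
          mul_nonneg k1 k2]
  · rcases spl (Y - (0:ℝ)) with g1 | g1
    · have k1 := chord h1 a1 b1 (by norm_num) (by norm_num)
      have l1 := tang h1 (0:ℝ) (-1:ℝ)
      have m1 := tang h1 (45/64:ℝ) (-45/64:ℝ)
      have k2 := chord h2 a2 g0 (by norm_num) (by norm_num)
      have l2 := tang h2 (-1:ℝ) (0:ℝ)
      have u2 := tang h2 (-3/5:ℝ) (-4/5:ℝ)
      linarith only [h1, h2, H.q2, H.q3, dxs, dys, mul_nonneg dx x0, mul_nonneg dx m1,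
        mul_nonneg dx a2, mul_nonneg dx k2, mul_nonneg dy g1, mul_nonneg dy k1, mul_nonneg dy l1,
        mul_nonneg ha l1, mul_nonneg x0 k1, mul_nonneg g1 a2, mul_nonneg g1 l2, mul_nonneg a1 a2,
        mul_nonneg k1 m1, mul_nonneg k1 k2, mul_nonneg l1 k2, mul_nonneg l1 l2, mul_nonneg k2 l2,
        mul_nonneg k2 u2, mul_nonneg l2 u2]
    · rcases spl ((-15/17:ℝ)*s2 - (-8/17:ℝ)*c2) with g2 | g2
      · rcases spl ((3/5:ℝ)*s1 - (-4/5:ℝ)*c1) with g3 | g3
        · have k1 := chord h1 g3 b1 (by norm_num) (by norm_num)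
          have k2 := chord h2 g2 g0 (by norm_num) (by norm_num)
          have l2 := tang h2 (-15/17:ℝ) (-8/17:ℝ)
          linarith only [h1, h2, H.q0, H.q1, H.q3, dxs, dzs, g2, k2, mul_nonneg dx x0,
            mul_nonneg dy dz, mul_nonneg dz g1, mul_nonneg ha x0, mul_nonneg ha g0,
            mul_nonneg x0 x1, mul_nonneg x0 k1, mul_nonneg x1 g3, mul_nonneg x1 g2,
            mul_nonneg y0 b1, mul_nonneg y0 g2, mul_nonneg g1 g3, mul_nonneg g1 k1,
            mul_nonneg g3 l2, mul_nonneg b1 k2]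
        · rcases spl ((12/37:ℝ)*s1 - (-35/37:ℝ)*c1) with g4 | g4
          · have k1 := chord h1 g4 g3 (by norm_num) (by norm_num)
            have k2 := chord h2 g2 g0 (by norm_num) (by norm_num)
            linarith only [h1, h2, H.q1, H.q2, H.q3, H.q8, dxs, k1, mul_nonneg dx x0,
              mul_nonneg dy dz, mul_nonneg dy y0, mul_nonneg dy k1, mul_nonneg dz g1,
              mul_nonneg dz g0, mul_nonneg x0 k1, mul_nonneg x0 g0, mul_nonneg x0 k2,
              mul_nonneg x1 g2, mul_nonneg y0 g0, mul_nonneg g1 g4, mul_nonneg g1 k1,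
              mul_nonneg g1 k2, mul_nonneg g3 g0, mul_nonneg g3 k2]
          · rcases spl ((-55/73:ℝ)*s2 - (-48/73:ℝ)*c2) with g5 | g5
            · have k1 := chord h1 a1 g4 (by norm_num) (by norm_num)
              have l1 := tang h1 (0:ℝ) (-1:ℝ)
              have k2 := chord h2 g5 g0 (by norm_num) (by norm_num)
              have u2 := tang h2 (-3/5:ℝ) (-4/5:ℝ)
              linarith only [h1, h2, H.q1, H.q8, hn, dxs, k2, mul_nonneg dx x0, mul_nonneg dy dz,
                mul_nonneg dz g1, mul_nonneg dz g0, mul_nonneg hb k1, mul_nonneg x0 a1,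
                mul_nonneg x0 k1, mul_nonneg x0 k2, mul_nonneg x1 g4, mul_nonneg x1 g5,
                mul_nonneg y0 g1, mul_nonneg y0 g4, mul_nonneg g1 k2, mul_nonneg a1 g5,
                mul_nonneg g4 k2, mul_nonneg k1 g5, mul_nonneg l1 u2]
            · have k1 := chord h1 a1 g4 (by norm_num) (by norm_num)
              have l1 := tang h1 (0:ℝ) (-1:ℝ)
              have k2 := chord h2 g2 g5 (by norm_num) (by norm_num)
              have l2 := tang h2 (-15/17:ℝ) (-8/17:ℝ)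
              have u2 := tang h2 (-55/73:ℝ) (-48/73:ℝ)
              linarith only [h1, h2, H.q1, hn, dxs, mul_nonneg dx x0, mul_nonneg dx g4,
                mul_nonneg dx g2, mul_nonneg dy dz, mul_nonneg dy k2, mul_nonneg dz g1,
                mul_nonneg dz g5, mul_nonneg ha k2, mul_nonneg hb k1, mul_nonneg x0 a1,
                mul_nonneg x0 k1, mul_nonneg x0 k2, mul_nonneg x1 g2, mul_nonneg y0 g1,
                mul_nonneg y0 g4, mul_nonneg g1 k2, mul_nonneg a1 g4, mul_nonneg a1 g2,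
                mul_nonneg g4 k1, mul_nonneg g4 k2, mul_nonneg k1 g2, mul_nonneg l1 u2,
                mul_nonneg g5 l2]
      · have k1 := chord h1 a1 b1 (by norm_num) (by norm_num)
        have l1 := tang h1 (0:ℝ) (-1:ℝ)
        have u1 := tang h1 (1:ℝ) (0:ℝ)
        have m1 := tang h1 (45/64:ℝ) (-45/64:ℝ)
        have k2 := chord h2 a2 g2 (by norm_num) (by norm_num)
        have l2 := tang h2 (-1:ℝ) (0:ℝ)
        have u2 := tang h2 (-15/17:ℝ) (-8/17:ℝ)
        linarith only [h1, h2, H.q1, H.q3, dzs, mul_nonneg dx x0, mul_nonneg dx m1,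
          mul_nonneg dx k2, mul_nonneg dx l2, mul_nonneg dz g1, mul_nonneg dz g2, mul_nonneg ha y0,
          mul_nonneg ha l1, mul_nonneg x0 k1, mul_nonneg g1 a1, mul_nonneg g1 l1, mul_nonneg g1 k2,
          mul_nonneg k1 m1, mul_nonneg k1 l2, mul_nonneg l1 k2, mul_nonneg l1 u2, mul_nonneg u1 k2,
          mul_nonneg k2 l2, mul_nonneg k2 u2, mul_nonneg l2 u2]

theorem L0b_33
    (h1 : c1^2 + s1^2 = 1) (h2 : c2^2 + s2^2 = 1)
    (H : WB X Y c1 s1 c2 s2)
    (a1 : 0 ≤ (0:ℝ)*s1 - (-1:ℝ)*c1) (b1 : 0 ≤ -((1:ℝ)*s1 - (0:ℝ)*c1))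
    (a2 : 0 ≤ (0:ℝ)*s2 - (-1:ℝ)*c2) (b2 : 0 ≤ -((1:ℝ)*s2 - (0:ℝ)*c2))
    (x0 : 0 ≤ X) (x1 : 0 ≤ 4 - X)
    (y0 : 0 ≤ Y + 2) (y1 : 0 ≤ 2 - Y)
    (dxs : 0 < 6 - X - c1 + s1 - c2 + s2)
    (dys : 0 < 3 - Y - c2 + s2) (dzs : 0 < 3 + Y - c1 + s1)
    (ha : 0 ≤ 3/4 - c1) (hb : 0 ≤ 3/4 - c2) (hn : 0 ≤ 13/25 - c1*c2 - s1*s2) : False := by
  have dx := dxs.le
  have dy := dys.le
  have dz := dzs.le
  have k1 := chord h1 a1 b1 (by norm_num) (by norm_num)
  have l1 := tang h1 (0:ℝ) (-1:ℝ)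
  have k2 := chord h2 a2 b2 (by norm_num) (by norm_num)
  have l2 := tang h2 (0:ℝ) (-1:ℝ)
  linarith only [h1, h2, H.q2, hn, mul_nonneg dz y1, mul_nonneg ha y0, mul_nonneg ha a1,
    mul_nonneg hb y0, mul_nonneg hb a2, mul_nonneg hb l2, mul_nonneg x0 x1, mul_nonneg x0 k1,
    mul_nonneg x0 k2, mul_nonneg y0 y1, mul_nonneg y0 k2, mul_nonneg y1 l1, mul_nonneg y1 l2,
    mul_nonneg a1 a2, mul_nonneg b1 l1, mul_nonneg l1 l2, mul_nonneg b2 l2, mul_nonneg k2 l2]

end Pool.Agent.MP_3b5bbf_co.S
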