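import Pool.Agent.MP_3b5bbf_co.Frame

set_option linter.all false

section

/-! Canonical folded rectangles (tubes) and the straight ring. -/

set_option linter.unusedSimpArgs false

namespace Pool.Agent.MP_3b5bbf_co

def Foot (R : Cell → Prop) (φ : V → V) (F : V → Prop) : Prop := ∀ c, R c → F (φ c.o)

def Steps (R : Cell → Prop) (φ : V → V) (St : V → V → Prop) : Prop :=
  ∀ c, R c → R (c.nb .g) → φ (c.nb .g).o ≠ φ c.o → St (φ c.o) (φ (c.nb .g).o)

def IsKey (κ : V × V) : Prop := κ.1.1 % 2 = 1 ∧ κ.1.2 % 2 = 1 ∧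
  ((κ.2.1 = 2 * κ.1.1 ∧ (κ.2.2 = 2 * κ.1.2 + 2 ∨ κ.2.2 = 2 * κ.1.2 - 2)) ∨
   (κ.2.2 = 2 * κ.1.2 ∧ (κ.2.1 = 2 * κ.1.1 + 2 ∨ κ.2.1 = 2 * κ.1.1 - 2)))

def CovAt {H : Type} [LinearOrder H] (R : Cell → Prop) (φ : V → V) (h : Cell → H) (κ : V × V) :
    Prop :=
  ∃ a b, R a ∧ R b ∧ K φ a = κ ∧ K φ b = κ ∧ Black φ a ∧ White φ b ∧
    ∀ c, R c → K φ c = κ → h b ≤ h c ∧ h c ≤ h a

def Cov (R : Cell → Prop) (φ : V → V) (h : Cell → ℚ) (Cv : V → Prop) : Prop :=
  ∀ κ, IsKey κ → Cv κ.1 → CovAt R φ h κ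

def Hk (k : ℤ × ℤ) : ℚ := sq k.1 (k.1 + 1) k.2

theorem Hk_lt {k k' : ℤ × ℤ} : Hk k < Hk k' ↔ klt k k' := by
  have m : ∀ k k' : ℤ × ℤ, klt k k' → Hk k < Hk k' := by
    intro k k' hk
    rcases hk with hk | ⟨h1, h2⟩
    · have a := (sq_mem (lo := k.1) (hi := k.1 + 1) (by linarith) k.2).2
      have b := (sq_mem (lo := k'.1) (hi := k'.1 + 1) (by linarith) k'.2).1
      have : (k.1 : ℚ) + 1 ≤ k'.1 := by exact_mod_cast hk
      unfold Hk; linarith
    · unfold Hk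
      rw [h1]
      exact (sq_lt (by linarith)).2 (by exact_mod_cast h2)
  refine ⟨fun hh => ?_, m k k'⟩
  by_contra hn
  have : klt k' k ∨ k = k' := by
    unfold klt at *
    rw [Prod.ext_iff]
    omega
  rcases this with a | a
  · exact absurd hh (m _ _ a).not_gt
  · rw [a] at hh; exact lt_irrefl _ hh

theorem Hk_inj {k k' : ℤ × ℤ} (e : Hk k = Hk k') : k = k' := by
  have a : ¬ klt k k' := fun a => (Hk_lt.2 a).ne e
  have b : ¬ klt k' k := fun a => (Hk_lt.2 a).ne' e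
  unfold klt at *
  rw [Prod.ext_iff]
  omega

theorem Hk_le {k k' : ℤ × ℤ} : Hk k ≤ Hk k' ↔ ¬ klt k' k := by
  rw [← Hk_lt, not_lt]

structure Pure (x0 x1 y0 y1 ξ : ℤ) (φ : V → V) (h : Cell → ℚ) : Prop where
  fh : FH x0 x1 y0 y1 ξ φ
  fr : ∀ c, Rect x0 x1 y0 y1 c → φ c.o = (1, 1) → Fr x0 x1 y0 y1 c
  hk : ∀ c, Fr x0 x1 y0 y1 c → h c = Hk (fkey x0 x1 y0 y1 ξ c)

structure Iso (ρ : V → V) : Prop where
  add : ∀ a b c d, ρ a + ρ b = ρ c + ρ d ↔ a + b = c + d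
  inj : ∀ a b, ρ a = ρ b → a = b
  good : ∀ ψ c, Good ψ c → Good (fun v => ρ (ψ v)) c
  surj : ∀ κ, IsKey κ → ∃ κ0, IsKey κ0 ∧ ρ κ0.1 = κ.1 ∧ ∀ a b, a + b = κ0.2 → ρ a + ρ b = κ.2

def Agr (φ ψ : V → V) (c : Cell) : Prop := φ c.o = ψ c.o ∧ φ c.p = ψ c.p ∧ φ c.q = ψ c.q

theorem Agr.K {φ ψ c} (a : Agr φ ψ c) : K φ c = K ψ c := by
  unfold Pool.Agent.MP_3b5bbf_co.K; rw [a.1, a.2.1, a.2.2]

theorem Agr.eps {φ ψ c} (a : Agr φ ψ c) (e : Ed) : eps φ c e = eps ψ c e := by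
  cases e <;> unfold Pool.Agent.MP_3b5bbf_co.eps <;> simp only [a.1, a.2.1, a.2.2]

theorem Agr.good {φ ψ c} (a : Agr φ ψ c) (g : Good ψ c) : Good φ c := by
  unfold Good White Black at *; rw [a.1, a.2.1, a.2.2]; exact g

theorem Agr.white {φ ψ c} (a : Agr φ ψ c) (g : White ψ c) : White φ c := by
  unfold White at *; rw [a.1, a.2.1, a.2.2]; exact g

theorem Agr.black {φ ψ c} (a : Agr φ ψ c) (g : Black ψ c) : Black φ c := by
  unfold Black at *; rw [a.1, a.2.1, a.2.2]; exact g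

theorem Iso.K_iff {ρ} (hρ : Iso ρ) (φ : V → V) (c b : Cell) :
    K (fun v => ρ (φ v)) c = K (fun v => ρ (φ v)) b ↔ K φ c = K φ b := by
  unfold K
  simp only [Prod.mk.injEq, hρ.add]
  exact ⟨fun a => ⟨hρ.inj _ _ a.1, a.2⟩, fun a => ⟨by rw [a.1], a.2⟩⟩

theorem Iso.eps_iff {ρ} (hρ : Iso ρ) (φ : V → V) (c b : Cell) (e e' : Ed) :
    eps (fun v => ρ (φ v)) c e = eps (fun v => ρ (φ v)) b e' ↔ eps φ c e = eps φ b e' := by
  cases e <;> cases e' <;> simp only [eps, hρ.add]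

theorem Valid.iso {H H' : Type} [LinearOrder H] [LinearOrder H'] {R φ φ' ρ} {h : Cell → H}
    {h' : Cell → H'} (hv : Valid R φ h) (hρ : Iso ρ)
    (ag : ∀ c, R c → Agr φ' (fun v => ρ (φ v)) c)
    (hh : ∀ c b, R c → R b → K φ c = K φ b → (h' c < h' b ↔ h c < h b)) : Valid R φ' h' := by
  have kk : ∀ c b, R c → R b → (K φ' c = K φ' b ↔ K φ c = K φ b) := fun c b h1 h2 => by
    rw [(ag c h1).K, (ag b h2).K, hρ.K_iff]
  refine hv.pull id id (fun _ _ => rfl) (fun _ _ a => a) (fun _ a => a)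
    (fun c hc => (ag c hc).good (hρ.good _ _ (hv.good c hc))) kk ?_ ?_
  · intro c e b e' h1 h2 he
    rw [(ag c h1).eps, (ag b h2).eps, hρ.eps_iff] at he
    exact he
  · intro c b h1 h2 k
    exact hh c b h1 h2 ((kk c b h1 h2).1 k)

theorem Cov.map {H' : Type} [LinearOrder H'] {R0 R φ φ' ρ Cv} {h : Cell → ℚ} {h' : Cell → H'}
    (hc : Cov R0 φ h Cv) (hρ : Iso ρ) (sub : ∀ c, R0 c → R c) {κ : V × V} (hκ : IsKey κ)
    (hv : ∀ v, ρ v = κ.1 → Cv v)
    (ag : ∀ c, R0 c → ρ (φ c.o) = κ.1 → Agr φ' (fun v => ρ (φ v)) c)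
    (ex : ∀ c, R c → φ' c.o = κ.1 → R0 c ∧ ρ (φ c.o) = κ.1)
    (hw : ((∀ c, White φ c → White (fun v => ρ (φ v)) c) ∧
        (∀ c, Black φ c → Black (fun v => ρ (φ v)) c) ∧
        ∀ c b, R0 c → R0 b → ρ (φ c.o) = κ.1 → ρ (φ b.o) = κ.1 → h c ≤ h b → h' c ≤ h' b) ∨
      ((∀ c, White φ c → Black (fun v => ρ (φ v)) c) ∧
        (∀ c, Black φ c → White (fun v => ρ (φ v)) c) ∧
        ∀ c b, R0 c → R0 b → ρ (φ c.o) = κ.1 → ρ (φ b.o) = κ.1 → h c ≤ h b → h' b ≤ h' c)) :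
    CovAt R φ' h' κ := by
  obtain ⟨κ0, k1, k2, k3⟩ := hρ.surj κ hκ
  obtain ⟨a, b, ha, hb, ka, kb, ba, wb, ext⟩ := hc κ0 k1 (hv _ k2)
  have fw : ∀ c, K φ c = κ0 → K (fun v => ρ (φ v)) c = κ := by
    intro c kc
    unfold K at *
    rw [Prod.ext_iff] at kc ⊢
    exact ⟨by rw [← k2, ← kc.1], k3 _ _ kc.2⟩
  have oa : ρ (φ a.o) = κ.1 := congrArg Prod.fst (fw a ka)
  have ob : ρ (φ b.o) = κ.1 := congrArg Prod.fst (fw b kb)
  have aa := ag a ha oa
  have ab := ag b hb ob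
  have bw : ∀ c, R c → K φ' c = κ → R0 c ∧ ρ (φ c.o) = κ.1 ∧ K φ c = κ0 := by
    intro c hc kc
    obtain ⟨r, o⟩ := ex c hc (congrArg Prod.fst kc)
    refine ⟨r, o, ?_⟩
    rw [(ag c r o).K, ← fw a ka, hρ.K_iff, ka] at kc
    exact kc
  rcases hw with ⟨w1, w2, m⟩ | ⟨w1, w2, m⟩
  · refine ⟨a, b, sub a ha, sub b hb, by rw [aa.K, fw a ka], by rw [ab.K, fw b kb],
      aa.black (w2 a ba), ab.white (w1 b wb), fun c hc kc => ?_⟩
    obtain ⟨r, o, k0⟩ := bw c hc kc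
    exact ⟨m _ _ hb r ob o (ext c r k0).1, m _ _ r ha o oa (ext c r k0).2⟩
  · refine ⟨b, a, sub b hb, sub a ha, by rw [ab.K, fw b kb], by rw [aa.K, fw a ka],
      ab.black (w1 b wb), aa.white (w2 a ba), fun c hc kc => ?_⟩
    obtain ⟨r, o, k0⟩ := bw c hc kc
    exact ⟨m _ _ r ha o oa (ext c r k0).2, m _ _ hb r ob o (ext c r k0).1⟩

theorem iso_up : Iso (fun v => (v.1, v.2 + 2)) where
  add := by intro a b c d; simp only [Prod.ext_iff, Prod.fst_add, Prod.snd_add]; omega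
  inj := by intro a b; simp only [Prod.ext_iff]; omega
  good := by intro ψ c; unfold Good White Black; dsimp only; omega
  surj := by
    intro κ hκ
    refine ⟨((κ.1.1, κ.1.2 - 2), (κ.2.1, κ.2.2 - 4)), ?_, ?_, ?_⟩
    · unfold IsKey at *; dsimp only; omega
    · simp
    · intro a b; simp only [Prod.ext_iff, Prod.fst_add, Prod.snd_add]; omega

theorem key_four {κ : V × V} (hκ : IsKey κ) (h : κ.1 = (1, 1)) :
    κ = KP ∨ κ = KO ∨ κ = KC ∨ κ = KF := by
  unfold IsKey at hκ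
  simp only [KP, KO, KC, KF, Prod.ext_iff] at *
  omega

theorem cons_btw {x0 x1 y0 y1 ξ : ℤ} {k k' m : ℤ × ℤ} (hm : Rng x0 x1 y0 y1 ξ m)
    (hc : Cons x0 x1 y0 y1 k k' ∨ Cons x0 x1 y0 y1 k' k) (l1 : klt k m) (l2 : klt m k') :
    False := by
  unfold Rng Cons klt at *
  omega

theorem far_aux {ξ x x' : ℤ} {u u' v v' : ℤ × ℤ}
    (hu : (u = (if ξ ≤ x then 0 else 4, x) ∧ u' = (2, -x)) ∨
      (u' = (if ξ ≤ x then 0 else 4, x) ∧ u = (2, -x)))
    (hv : (v = (if ξ ≤ x' then 0 else 4, x') ∧ v' = (2, -x')) ∨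
      (v' = (if ξ ≤ x' then 0 else 4, x') ∧ v = (2, -x')))
    (l1 : klt u v) (l2 : klt v u') : klt u v' ∧ klt v' u' := by
  by_cases a : ξ ≤ x <;> by_cases b : ξ ≤ x' <;> simp only [a, b, if_true, if_false] at hu hv <;>
  rcases hu with ⟨rfl, rfl⟩ | ⟨rfl, rfl⟩ <;> rcases hv with ⟨rfl, rfl⟩ | ⟨rfl, rfl⟩ <;>
  unfold klt at * <;> dsimp only at * <;> omega

theorem vert_bounds {x0 x1 y0 y1 : ℤ} {c : Cell} (hc : Rect x0 x1 y0 y1 c) :
    (2 * x0 ≤ c.o.1 ∧ c.o.1 ≤ 2 * x1 ∧ 2 * y0 ≤ c.o.2 ∧ c.o.2 ≤ 2 * y1) ∧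
    (2 * x0 ≤ c.p.1 ∧ c.p.1 ≤ 2 * x1 ∧ 2 * y0 ≤ c.p.2 ∧ c.p.2 ≤ 2 * y1) ∧
    (2 * x0 ≤ c.q.1 ∧ c.q.1 ≤ 2 * x1 ∧ 2 * y0 ≤ c.q.2 ∧ c.q.2 ≤ 2 * y1) := by
  rcases c with ⟨x, y, d⟩
  unfold Rect at hc
  cases d <;> simp only [Cell.o, Cell.p, Cell.q] at * <;> omega

theorem K_g {φ : V → V} {c : Cell} (h : φ (c.nb .g).o = φ c.o) : K φ (c.nb .g) = K φ c := by
  unfold K
  rw [h, nb_g_p, nb_g_q, add_comm]

theorem nb_g_xy (c : Cell) : ((c.nb .g).x = c.x ∧ ((c.nb .g).y = c.y + 1 ∨ (c.nb .g).y = c.y - 1)) ∨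
    ((c.nb .g).y = c.y ∧ ((c.nb .g).x = c.x + 1 ∨ (c.nb .g).x = c.x - 1)) := by
  rcases c with ⟨x, y, d⟩
  cases d <;> simp [Cell.nb]

theorem nb_gg (c : Cell) : (c.nb .g).nb .g = c := nb_nb c .g

theorem inner_bd {x0 x1 y0 y1 : ℤ} {c : Cell} (hc : Fr x0 x1 y0 y1 c) :
    ¬ Rect (x0 + 1) (x1 - 1) (y0 + 1) (y1 - 1) c := by
  unfold Fr Rect at *; omega

/-- validity of a frame around a valid inner rectangle -/
theorem ring_valid {x0 x1 y0 y1 ξ : ℤ} {φ : V → V} {h : Cell → ℚ}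
    (hp : Pure x0 x1 y0 y1 ξ φ h)
    (vi : Valid (Rect (x0 + 1) (x1 - 1) (y0 + 1) (y1 - 1)) φ h)
    (cl : ∀ c e b, Rect (x0 + 1) (x1 - 1) (y0 + 1) (y1 - 1) c →
      Rect (x0 + 1) (x1 - 1) (y0 + 1) (y1 - 1) (c.nb e) →
      Bd (Rect (x0 + 1) (x1 - 1) (y0 + 1) (y1 - 1)) b → eps φ c e = eps φ b .g →
      K φ (c.nb e) = K φ c → K φ b = K φ c → h c < h b → h b < h (c.nb e) → False)
    (od : ∀ c b, Bd (Rect (x0 + 1) (x1 - 1) (y0 + 1) (y1 - 1)) c →
      Bd (Rect (x0 + 1) (x1 - 1) (y0 + 1) (y1 - 1)) b → klt (bkey ξ c) (bkey ξ b) → h c < h b) :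
    Valid (Rect x0 x1 y0 y1) φ h := by
  have hf := hp.fh
  have d1 := hf.d1
  have d2 := hf.d2
  have d3 := hf.d3
  set I := Rect (x0 + 1) (x1 - 1) (y0 + 1) (y1 - 1) with hI
  have spl : ∀ c, Rect x0 x1 y0 y1 c → (I c ∧ φ c.o ≠ (1, 1)) ∨ (Fr x0 x1 y0 y1 c ∧
      φ c.o = (1, 1)) := by
    intro c hc
    by_cases f : Fr x0 x1 y0 y1 c
    · exact Or.inr ⟨f, hf.ctr c f⟩
    · left
      refine ⟨?_, fun a => f (hp.fr c hc a)⟩
      simp only [hI]
      unfold Fr Rect at *; omega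
  have cr : ∀ c e, Fr x0 x1 y0 y1 c → I (c.nb e) → e = .g ∧ K φ c = KF ∧ Bd I (c.nb e) ∧
      fkey x0 x1 y0 y1 ξ c = bkey ξ (c.nb e) := by
    intro c e f i
    cases e
    · have nf : ¬ Fr x0 x1 y0 y1 (c.nb .g) := fun a => inner_bd a i
      rcases hf.quarter f with q | q | q
      · exfalso; apply q.2.1; simp only [hI] at i; unfold Rect at *; omega
      · exact ⟨rfl, q.1, ⟨i, by rw [nb_gg]; exact inner_bd f⟩, q.2.2.1⟩
      · exact absurd q.2 nf
    · exact absurd i (inner_bd (fr_a f))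
    · exact absurd i (inner_bd (fr_b f))
  have same : ∀ c e, Fr x0 x1 y0 y1 c → Fr x0 x1 y0 y1 (c.nb e) → K φ (c.nb e) ≠ K φ c →
      h (c.nb e) = h c := by
    intro c e f1 f2 k
    rw [hp.hk _ f1, hp.hk _ f2]
    cases e
    · exact absurd (K_g ((hf.ctr _ f2).trans (hf.ctr _ f1).symm)) k
    · rcases hf.diag f1 with q | q | q
      · rw [q.2]
      · exact absurd q.1 k
      · exact absurd q.1 k
    · have nn : (c.nb .b).nb .a = c := nb_nb c .b
      have := hf.diag f2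
      rw [nn] at this
      rcases this with q | q | q
      · rw [q.2]
      · exact absurd q.1.symm k
      · exact absurd q.1.symm k
  refine ⟨?_, ?_, ?_, ?_⟩
  · intro c hc
    rcases spl c hc with a | a
    · exact vi.good c a.1
    · exact hf.good a.1
  · intro c b h1 h2 k e
    have k' : φ c.o = φ b.o := congrArg Prod.fst k
    rcases spl c h1 with a | a <;> rcases spl b h2 with a' | a'
    · exact vi.inj c b a.1 a'.1 k e
    · exact absurd (k'.trans a'.2) a.2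
    · exact absurd (k'.symm.trans a.2) a'.2
    · rw [hp.hk _ a.1, hp.hk _ a'.1] at e
      exact hf.inj a.1 a'.1 k (Hk_inj e)
  · intro c e b e' h1 h2 h3 h4 he k1 k2 l1 l2
    have k1' : φ (c.nb e).o = φ c.o := congrArg Prod.fst k1
    have k2' : φ b.o = φ c.o := congrArg Prod.fst k2
    rcases spl c h1 with a | a
    · have a2 := (spl _ h2).resolve_right (fun t => a.2 (k1'.symm.trans t.2))
      have a3 := (spl _ h3).resolve_right (fun t => a.2 (k2'.symm.trans t.2))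
      rcases spl _ h4 with a4 | a4
      · exact vi.taco c e b e' a.1 a2.1 a3.1 a4.1 he k1 k2 l1 l2
      · obtain ⟨e1, -, bd, -⟩ := cr (b.nb e') e'.rev a4.1 (by rw [nb_nb]; exact a3.1)
        rw [nb_nb] at bd
        have : e' = .g := by cases e' <;> simp_all [Ed.rev]
        subst this
        exact (cl c e b a.1 a2.1 bd he k1 k2 l1 l2).elim
    · have f1 := a.1
      have f2 := ((spl _ h2).resolve_left (fun t => t.2 (k1'.trans a.2))).1
      have f3 := ((spl _ h3).resolve_left (fun t => t.2 (k2'.trans a.2))).1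
      rw [hp.hk _ f1, hp.hk _ f3, Hk_lt] at l1
      rw [hp.hk _ f2, hp.hk _ f3, Hk_lt] at l2
      have r3 := (fkey_pos d1 d2 d3 f3).1
      cases e
      · rcases hf.quarter f1 with q | q | q
        · exact absurd h2 q.2.1
        · have hy := q.2.2.2 f2
          have e1 : eps φ c .g = (2, 4) := congrArg Prod.snd q.1
          obtain ⟨rfl, kb⟩ := eps_far (hf.good f3) (hf.ctr _ f3) (he.symm.trans e1)
          have f4 : Fr x0 x1 y0 y1 (b.nb .g) := by unfold Fr Rect at *; omega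
          refine ⟨(K_g ((hf.ctr _ f4).trans (hf.ctr _ f3).symm)).trans k2, ?_⟩
          rw [hp.hk _ f1, hp.hk _ f2, hp.hk _ f4, Hk_lt, Hk_lt]
          exact far_aux (hf.far f1 hy q.1).2.2 (hf.far f3 hy kb).2.2 l1 l2
        · have g1 := hf.grid f1 q.1 _ _ rfl rfl
          rcases g1 with g | g | g | g
          · exact (cons_btw r3 (Or.inl (Or.inl ⟨g.1, g.2.1⟩)) l1 l2).elim
          · exact (cons_btw r3 (Or.inr (Or.inl ⟨g.1, g.2.1⟩)) l1 l2).elim
          · have e1 : eps φ c .g = (0, 2) := congrArg Prod.snd g.1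
            obtain ⟨rfl, kb⟩ := eps_closed (hf.good f3) (hf.ctr _ f3) (he.symm.trans e1)
            have f4 : Fr x0 x1 y0 y1 (b.nb .g) := by
              rcases hf.quarter f3 with q' | q' | q'
              · rw [kb] at q'; exact absurd q'.1 (by simp [KC, KP])
              · rw [kb] at q'; exact absurd q'.1 (by simp [KC, KF])
              · exact q'.2
            have k4 := (K_g ((hf.ctr _ f4).trans (hf.ctr _ f3).symm)).trans k2
            refine ⟨k4, ?_⟩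
            rw [hp.hk _ f1, hp.hk _ f2, hp.hk _ f4, Hk_lt, Hk_lt]
            have r4 := (fkey_pos d1 d2 d3 f4).1
            have n1 : fkey x0 x1 y0 y1 ξ (b.nb .g) ≠ fkey x0 x1 y0 y1 ξ c := by
              intro t
              have := hf.inj f4 f1 k4 t
              rw [← this, nb_gg] at l2
              unfold klt at l2; omega
            have n2 : fkey x0 x1 y0 y1 ξ (b.nb .g) ≠ fkey x0 x1 y0 y1 ξ (c.nb .g) := by
              intro t
              have := congrArg (fun z => Cell.nb z .g) (hf.inj f4 f2 (k4.trans k1.symm) t)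
              simp only [nb_gg] at this
              rw [this] at l1
              unfold klt at l1; omega
            rw [Ne, Prod.ext_iff] at n1 n2
            unfold Rng at r4
            unfold klt
            omega
          · exfalso
            unfold klt Rng at *
            omega
      · rcases hf.diag f1 with q | q | q
        · exact absurd k1 q.1
        · exact (cons_btw r3 (Or.inr q.2.1) l1 l2).elim
        · exact (cons_btw r3 (Or.inl q.2.1) l1 l2).elim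
      · have nn : (c.nb .b).nb .a = c := nb_nb c .b
        have := hf.diag f2
        rw [nn] at this
        rcases this with q | q | q
        · exact absurd k1.symm q.1
        · exact (cons_btw r3 (Or.inl q.2.1) l1 l2).elim
        · exact (cons_btw r3 (Or.inr q.2.1) l1 l2).elim
  · intro c e b e' h1 h2 h3 h4 he k1 k2 k3 l1
    have k2' : φ b.o = φ c.o := congrArg Prod.fst k2
    have k3' : φ (b.nb e').o = φ (c.nb e).o := congrArg Prod.fst k3
    rcases spl c h1 with a | a <;> rcases spl _ h2 with a2 | a2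
    · have a3 := (spl _ h3).resolve_right (fun t => a.2 (k2'.symm.trans t.2))
      have a4 := (spl _ h4).resolve_right (fun t => a2.2 (k3'.symm.trans t.2))
      exact vi.tort c e b e' a.1 a2.1 a3.1 a4.1 he k1 k2 k3 l1
    · have a3 := (spl _ h3).resolve_right (fun t => a.2 (k2'.symm.trans t.2))
      have f4 := ((spl _ h4).resolve_left (fun t => t.2 (k3'.trans a2.2))).1
      obtain ⟨e1, -, b1, q1⟩ := cr (c.nb e) e.rev a2.1 (by rw [nb_nb]; exact a.1)
      obtain ⟨e2, -, b2, q2⟩ := cr (b.nb e') e'.rev f4 (by rw [nb_nb]; exact a3.1)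
      rw [nb_nb] at b1 q1 b2 q2
      rw [hp.hk _ a2.1, hp.hk _ f4, Hk_lt, q1, q2]
      by_contra n
      have : klt (bkey ξ b) (bkey ξ c) ∨ bkey ξ c = bkey ξ b := by
        unfold klt at *
        rw [Prod.ext_iff]
        omega
      rcases this with t | t
      · exact absurd l1 (od _ _ b2 b1 t).not_gt
      · have := hf.inj a2.1 f4 k3.symm (by rw [q1, q2, t])
        have e3 : e.rev = e'.rev := by rw [e1, e2]
        have := congrArg (fun z => Cell.nb z e.rev) this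
        simp only [nb_nb] at this
        rw [e3, nb_nb] at this
        rw [this] at l1
        exact lt_irrefl _ l1
    · have f3 := ((spl _ h3).resolve_left (fun t => t.2 (k2'.trans a.2))).1
      have a4 := (spl _ h4).resolve_right (fun t => a2.2 (k3'.symm.trans t.2))
      obtain ⟨-, -, b1, q1⟩ := cr c e a.1 a2.1
      obtain ⟨-, -, b2, q2⟩ := cr b e' f3 a4.1
      rw [hp.hk _ a.1, hp.hk _ f3, Hk_lt, q1, q2] at l1
      exact od _ _ b1 b2 l1
    · have f3 := ((spl _ h3).resolve_left (fun t => t.2 (k2'.trans a.2))).1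
      have f4 := ((spl _ h4).resolve_left (fun t => t.2 (k3'.trans a2.2))).1
      rw [same c e a.1 a2.1 k1, same b e' f3 f4 (by rw [k2, k3]; exact k1)]
      exact l1

end Pool.Agent.MP_3b5bbf_co

end

section

/-! Tubes: rectangles whose boundary is folded onto one unit segment. -/

set_option linter.unusedSimpArgs false

namespace Pool.Agent.MP_3b5bbf_co

structure Gen (R : Cell → Prop) (φ : V → V) (h : Cell → ℚ) (F : V → Prop) (St : V → V → Prop)
    (Cv : V → Prop) : Prop where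
  valid : Valid R φ h
  kp : ∀ c, Bd R c → K φ c = KP
  closed : Closed R φ h
  foot : Foot R φ F
  steps : Steps R φ St
  cov : Cov R φ h Cv

structure Tube (x0 x1 y0 y1 ξ : ℤ) (φ : V → V) (h : Cell → ℚ) (F : V → Prop)
    (St : V → V → Prop) (Cv : V → Prop) : Prop where
  d1 : x0 < ξ
  d2 : ξ < x1
  d3 : y0 ≤ y1
  gen : Gen (Rect x0 x1 y0 y1) φ h F St Cv
  bdry : ∀ a b, x0 ≤ a → a ≤ x1 → y0 ≤ b → b ≤ y1 → (a = x0 ∨ a = x1 ∨ b = y0 ∨ b = y1) →
    φ (2 * a, 2 * b) = (2 * ((a + b - ξ - y0) % 2), 0)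
  ord : ∀ c b, Bd (Rect x0 x1 y0 y1) c → Bd (Rect x0 x1 y0 y1) b →
    klt (bkey ξ c) (bkey ξ b) → h c < h b

abbrev Extra := ℤ → ℤ → ℤ → ℤ → ℤ → (V → V) → (Cell → ℚ) → Prop

def Tb (E : Extra) (X Y o : ℤ) (F : V → Prop) (St : V → V → Prop) (Cv : V → Prop) : Prop :=
  ∀ x0 x1 y0 y1 ξ, x1 = x0 + X → y1 = y0 + Y → ξ = x0 + o →
    ∃ φ h, Tube x0 x1 y0 y1 ξ φ h F St Cv ∧ E x0 x1 y0 y1 ξ φ h

def Any : Extra := fun _ _ _ _ _ _ _ => True

def Turned (κ : V × V) : Extra := fun x0 x1 y0 y1 _ φ _ =>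
  ∀ c, Rect x0 x1 y0 y1 c → φ c.o = (1, 1) → K φ c = KP ∨ K φ c = κ

theorem Tb.any {E X Y o F St Cv} (t : Tb E X Y o F St Cv) : Tb Any X Y o F St Cv := by
  intro x0 x1 y0 y1 ξ a b c
  obtain ⟨φ, h, u, -⟩ := t x0 x1 y0 y1 ξ a b c
  exact ⟨φ, h, u, trivial⟩

theorem Gen.mono {R φ h F St Cv F' St' Cv'} (g : Gen R φ h F St Cv) (hF : ∀ v, F v → F' v)
    (hS : ∀ v w, F v → F w → St v w → St' v w)
    (hC : ∀ v, v.1 % 2 = 1 → v.2 % 2 = 1 → Cv' v → Cv v) : Gen R φ h F' St' Cv' :=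
  ⟨g.valid, g.kp, g.closed, fun c hc => hF _ (g.foot c hc),
    fun c h1 h2 h3 => hS _ _ (g.foot _ h1) (g.foot _ h2) (g.steps c h1 h2 h3),
    fun κ h1 h2 => g.cov κ h1 (hC _ h1.1 h1.2.1 h2)⟩

theorem Tb.mono {E X Y o F St Cv X' Y' o' F' St' Cv'} (t : Tb E X Y o F St Cv)
    (hX : X' = X) (hY : Y' = Y) (ho : o' = o) (hF : ∀ v, F v → F' v)
    (hS : ∀ v w, F v → F w → St v w → St' v w)
    (hC : ∀ v, v.1 % 2 = 1 → v.2 % 2 = 1 → Cv' v → Cv v) : Tb E X' Y' o' F' St' Cv' := by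
  subst hX hY ho
  intro x0 x1 y0 y1 ξ a b c
  obtain ⟨φ, h, u, e⟩ := t x0 x1 y0 y1 ξ a b c
  exact ⟨φ, h, ⟨u.d1, u.d2, u.d3, u.gen.mono hF hS hC, u.bdry, u.ord⟩, e⟩

/-- the degenerate tube of height zero -/
theorem tb_base {X o : ℤ} (h1 : 0 < o) (h2 : o < X) :
    Tb Any X 0 o (fun _ => False) (fun _ _ => False) (fun _ => False) := by
  intro x0 x1 y0 y1 ξ a b c
  have em : ∀ c, ¬ Rect x0 x1 y0 y1 c := fun c => by unfold Rect; omega
  refine ⟨fun v => (2 * ((v.1 / 2 + v.2 / 2 - ξ - y0) % 2), 0), fun _ => 0,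
    ⟨by omega, by omega, by omega, ⟨⟨?_, ?_, ?_, ?_⟩, ?_, ?_, ?_, ?_, ?_⟩, ?_, ?_⟩, trivial⟩
  · exact fun c h => (em c h).elim
  · exact fun c _ h => (em c h).elim
  · exact fun c _ _ _ h => (em c h).elim
  · exact fun c _ _ _ h => (em c h).elim
  · exact fun c h => (em c h.1).elim
  · exact fun c _ _ h => (em c h).elim
  · exact fun c h => (em c h).elim
  · exact fun c h => (em c h).elim
  · exact fun κ _ h => h.elim
  · intro a b _ _ _ _ _
    simp only [Prod.mk.injEq, and_true]; omega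
  · exact fun c _ h => (em c h.1).elim

theorem eps_port {φ : V → V} {c : Cell} {e : Ed} (hc : Good φ c) (he : eps φ c e = (2, 0)) :
    e = .g := by
  obtain ⟨c1, c2, c3⟩ := hc.pq
  obtain ⟨c4, c5, c6, c7, -⟩ := hc
  cases e <;> simp only [eps, Prod.ext_iff, Prod.fst_add, Prod.snd_add] at * <;>
    first | rfl | omega

theorem bd_fr {x0 x1 y0 y1 : ℤ} {c : Cell} (hc : Bd (Rect x0 x1 y0 y1) c) : Fr x0 x1 y0 y1 c := by
  have := nb_g_xy c
  unfold Bd Fr Rect at *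
  omega

theorem Pure.bd {x0 x1 y0 y1 ξ φ h} (hp : Pure x0 x1 y0 y1 ξ φ h) {c : Cell}
    (hc : Bd (Rect x0 x1 y0 y1) c) : K φ c = KP ∧ h c = Hk (bkey ξ c) := by
  have f := bd_fr hc
  rcases hp.fh.quarter f with q | q | q
  · exact ⟨q.1, by rw [hp.hk c f, q.2.2]⟩
  · exact absurd q.2.1 hc.2
  · exact absurd q.2.1 hc.2

theorem Pure.kp_out {x0 x1 y0 y1 ξ φ h} (hp : Pure x0 x1 y0 y1 ξ φ h) {c : Cell}
    (hc : Rect x0 x1 y0 y1 c) (k : K φ c = KP) : ¬ Rect x0 x1 y0 y1 (c.nb .g) := by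
  have f := hp.fr c hc (congrArg Prod.fst k)
  rcases hp.fh.quarter f with q | q | q
  · exact q.2.1
  · rw [k] at q; exact absurd q.1 (by simp [KP, KF])
  · rw [k] at q; exact absurd q.1 (by simp [KP, KO, KC])

theorem Pure.range {x0 x1 y0 y1 ξ φ h} (hp : Pure x0 x1 y0 y1 ξ φ h) {c : Cell}
    (hc : Fr x0 x1 y0 y1 c) : Hk (0, ξ) ≤ h c ∧ h c ≤ Hk (4, ξ - 1) := by
  have r := (fkey_pos hp.fh.d1 hp.fh.d2 hp.fh.d3 hc).1
  rw [hp.hk c hc, Hk_le, Hk_le]
  unfold Rng klt at *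
  dsimp only
  omega

theorem Tb.ring {E X Y o F St Cv} (t : Tb E X Y o F St Cv) {F' St' Cv'} (hn : ¬ F (1, -1))
    (hF0 : F' (1, 1)) (hF : ∀ v, F v → F' (v.1, v.2 + 2))
    (hS0 : F (1, 1) → St' (1, 1) (1, 3) ∧ St' (1, 3) (1, 1))
    (hS : ∀ v w, St v w → St' (v.1, v.2 + 2) (w.1, w.2 + 2))
    (hC : ∀ v, Cv' (v.1, v.2 + 2) → v = (1, -1) ∨ Cv v) :
    Tb Pure (X + 2) (Y + 2) (o + 1) F' St' Cv' := by
  classical
  intro x0 x1 y0 y1 ξ a b c
  obtain ⟨φ, h, u, -⟩ := t (x0 + 1) (x1 - 1) (y0 + 1) (y1 - 1) ξ (by omega) (by omega) (by omega)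
  have d1 := u.d1
  have d2 := u.d2
  have d3 := u.d3
  have g := u.gen
  set I := Rect (x0 + 1) (x1 - 1) (y0 + 1) (y1 - 1) with hI
  let φ' : V → V := fun v =>
    if 2 * (x0 + 1) ≤ v.1 ∧ v.1 ≤ 2 * (x1 - 1) ∧ 2 * (y0 + 1) ≤ v.2 ∧ v.2 ≤ 2 * (y1 - 1) then
      ((φ v).1, (φ v).2 + 2)
    else if v.1 % 2 = 1 then (1, 1) else (2 * ((v.1 / 2 + v.2 / 2 - ξ - y0) % 2), 0)
  let h' : Cell → ℚ := fun c => if I c then h c else Hk (fkey x0 x1 y0 y1 ξ c)
  have ag : ∀ c, I c → Agr φ' (fun v => ((φ v).1, (φ v).2 + 2)) c := by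
    intro c hc
    obtain ⟨v1, v2, v3⟩ := vert_bounds hc
    exact ⟨if_pos v1, if_pos v2, if_pos v3⟩
  have hi : ∀ c, I c → h' c = h c := fun c hc => if_pos hc
  have spl : ∀ c, Rect x0 x1 y0 y1 c → I c ∨ Fr x0 x1 y0 y1 c := by
    intro c hc
    simp only [hI]
    unfold Fr Rect at *; omega
  have sub : ∀ c, I c → Rect x0 x1 y0 y1 c := by
    intro c hc
    simp only [hI] at hc
    unfold Rect at *; omega
  have hf : FH x0 x1 y0 y1 ξ φ' := by
    refine ⟨by omega, by omega, by omega, ?_, ?_, ?_⟩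
    · intro a b h1 h2 h3 h4 h5
      simp only [φ']
      rw [if_neg (by omega), if_neg (by omega)]
      simp only [Prod.mk.injEq, and_true]; omega
    · intro a b h1 h2 h3 h4 h5
      simp only [φ']
      rw [if_pos (by omega), u.bdry a b (by omega) (by omega) (by omega) (by omega) (by omega)]
      simp only [Prod.mk.injEq]; omega
    · intro c hc
      unfold Fr Rect at hc
      simp only [φ', Cell.o]
      rw [if_neg (by omega), if_pos (by omega)]
  have no : ∀ c, I c → φ' c.o ≠ (1, 1) := by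
    intro c hc e
    rw [(ag c hc).1] at e
    apply hn
    have : φ c.o = (1, -1) := by
      simp only [Prod.ext_iff] at e ⊢; omega
    exact this ▸ g.foot c hc
  have hp : Pure x0 x1 y0 y1 ξ φ' h' :=
    ⟨hf, fun c hc e => (spl c hc).resolve_left (fun i => no c i e),
      fun c hc => if_neg (inner_bd hc)⟩
  have kk : ∀ c b, I c → I b → (K φ' c = K φ' b ↔ K φ c = K φ b) := fun c b h1 h2 => by
    rw [(ag c h1).K, (ag b h2).K]; exact iso_up.K_iff φ c b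
  have hv : Valid (Rect x0 x1 y0 y1) φ' h' := by
    apply ring_valid hp (g.valid.iso iso_up ag (fun c b h1 h2 _ => by rw [hi c h1, hi b h2]))
    · intro c e b h1 h2 h3 he k1 k2 l1 l2
      rw [(ag c h1).eps, (ag b h3.1).eps] at he
      have he' := (iso_up.eps_iff φ c b e .g).1 he
      rw [kk _ _ h2 h1] at k1
      rw [kk _ _ h3.1 h1] at k2
      rw [hi _ h1, hi _ h3.1] at l1
      rw [hi _ h2, hi _ h3.1] at l2
      have kb := g.kp b h3
      exact g.closed c e b h1 h2 h3 (he'.trans (congrArg Prod.snd kb)) (k2.symm.trans kb)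
        (k1.trans (k2.symm.trans kb)) l1 l2
    · intro c b h1 h2 k
      rw [hi _ h1.1, hi _ h2.1]
      exact u.ord c b h1 h2 k
  refine ⟨φ', h', ⟨by omega, by omega, by omega, ⟨hv, fun c hc => (hp.bd hc).1, ?_, ?_, ?_, ?_⟩,
    hf.out, ?_⟩, hp⟩
  · intro c e b h1 h2 _ he k1 _ _ _
    have := eps_port (hv.good c h1) he
    subst this
    exact hp.kp_out h1 k1 h2
  · intro c hc
    rcases spl c hc with i | f
    · rw [(ag c i).1]; exact hF _ (g.foot c i)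
    · rw [hf.ctr c f]; exact hF0
  · have mix : ∀ c, Bd I c → φ' c.o = (1, 3) ∧ F (1, 1) := by
      intro c hc
      have e : φ c.o = (1, 1) := congrArg Prod.fst (g.kp c hc)
      refine ⟨?_, e ▸ g.foot c hc.1⟩
      rw [(ag c hc.1).1]
      simp only [e]; rfl
    intro c h1 h2 ne
    rcases spl c h1 with i | f <;> rcases spl _ h2 with i' | f'
    · rw [(ag c i).1, (ag _ i').1] at ne ⊢
      exact hS _ _ (g.steps c i i' (fun e => ne (by simp only [e])))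
    · obtain ⟨m1, m2⟩ := mix c ⟨i, inner_bd f'⟩
      rw [m1, hf.ctr _ f']
      exact (hS0 m2).2
    · obtain ⟨m1, m2⟩ := mix _ ⟨i', by rw [nb_gg]; exact inner_bd f⟩
      rw [m1, hf.ctr _ f]
      exact (hS0 m2).1
    · exact absurd ((hf.ctr _ f').trans (hf.ctr _ f).symm) ne
  · intro κ hκ hc
    by_cases e : κ.1 = (1, 1)
    · obtain ⟨a, b, fa, fb, ka, kb, ba, wb, ea, eb⟩ := hf.ends κ (key_four hκ e)
      refine ⟨a, b, fa.1, fb.1, ka, kb, ba, wb, fun c hc kc => ?_⟩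
      rw [hp.hk a fa, hp.hk b fb, ea, eb]
      exact hp.range (hp.fr c hc ((congrArg Prod.fst kc).trans e))
    · refine g.cov.map iso_up sub hκ ?_ (fun c hc _ => ag c hc) ?_ (Or.inl ⟨?_, ?_, ?_⟩)
      · intro v hv
        rw [← hv] at hc e
        refine (hC v hc).resolve_left (fun t => e ?_)
        rw [t]; rfl
      · intro c hc ec
        have i := (spl c hc).resolve_right (fun f => e (ec.symm.trans (hf.ctr c f)))
        exact ⟨i, (ag c i).1.symm.trans ec⟩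
      · intro c; unfold White; dsimp only; omega
      · intro c; unfold Black; dsimp only; omega
      · intro c b h1 h2 _ _ l
        rwa [hi c h1, hi b h2]
  · intro c b h1 h2 k
    rw [(hp.bd h1).2, (hp.bd h2).2, Hk_lt]
    exact k

end Pool.Agent.MP_3b5bbf_co

end

section

/-! Turning a tube by a diagonal fold of its first station. -/

set_option linter.unusedSimpArgs false

namespace Pool.Agent.MP_3b5bbf_co

structure Refl (σ : ℤ) (ρ ρ2 : V → V) : Prop where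
  iso : Iso ρ
  s : σ = 0 ∨ σ = 2
  add : ∀ a b, ρ a + ρ b = ρ2 (a + b)
  inj2 : ∀ a b, ρ2 a = ρ2 b → a = b
  f0 : ρ (1, 1) = (1, 1)
  f1 : ρ (σ, 2) = (σ, 2)
  f2 : ρ (2 - σ, 0) = (2 - σ, 0)
  g1 : ρ2 (2, 4) = (2 * σ, 2)
  g2 : ρ2 (4 - 2 * σ, 2) = (2, 0)
  wb : ∀ φ c, White φ c → Black (fun v => ρ (φ v)) c
  bw : ∀ φ c, Black φ c → White (fun v => ρ (φ v)) c

theorem refl_open : Refl 2 (fun v => (v.2, v.1)) (fun v => (v.2, v.1)) where
  iso := {
    add := by intro a b c d; simp only [Prod.ext_iff, Prod.fst_add, Prod.snd_add]; omega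
    inj := by intro a b; simp only [Prod.ext_iff]; omega
    good := by intro ψ c; unfold Good White Black; dsimp only; omega
    surj := by
      intro κ hκ
      refine ⟨((κ.1.2, κ.1.1), (κ.2.2, κ.2.1)), ?_, ?_, ?_⟩
      · unfold IsKey at *; dsimp only; omega
      · simp
      · intro a b; simp only [Prod.ext_iff, Prod.fst_add, Prod.snd_add]; omega }
  s := Or.inr rfl
  add := fun _ _ => rfl
  inj2 := by intro a b; simp only [Prod.ext_iff]; omega
  f0 := rfl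
  f1 := rfl
  f2 := rfl
  g1 := rfl
  g2 := rfl
  wb := by intro φ c; unfold White Black; dsimp only; omega
  bw := by intro φ c; unfold White Black; dsimp only; omega

theorem refl_closed : Refl 0 (fun v => (2 - v.2, 2 - v.1)) (fun v => (4 - v.2, 4 - v.1)) where
  iso := {
    add := by intro a b c d; simp only [Prod.ext_iff, Prod.fst_add, Prod.snd_add]; omega
    inj := by intro a b; simp only [Prod.ext_iff]; omega
    good := by intro ψ c; unfold Good White Black; dsimp only; omega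
    surj := by
      intro κ hκ
      refine ⟨((2 - κ.1.2, 2 - κ.1.1), (4 - κ.2.2, 4 - κ.2.1)), ?_, ?_, ?_⟩
      · unfold IsKey at *; dsimp only; omega
      · simp
      · intro a b; simp only [Prod.ext_iff, Prod.fst_add, Prod.snd_add]; omega }
  s := Or.inl rfl
  add := by intro a b; simp only [Prod.ext_iff, Prod.fst_add, Prod.snd_add]; omega
  inj2 := by intro a b; simp only [Prod.ext_iff]; omega
  f0 := rfl
  f1 := rfl
  f2 := rfl
  g1 := rfl
  g2 := rfl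
  wb := by intro φ c; unfold White Black; dsimp only; omega
  bw := by intro φ c; unfold White Black; dsimp only; omega

def Out (x0 x1 y0 y1 : ℤ) (w : V) : Prop :=
  w.1 = 2 * x0 ∨ w.1 = 2 * x1 ∨ w.2 = 2 * y0 ∨ w.2 = 2 * y1

theorem FH.vert {x0 x1 y0 y1 ξ φ} (hf : FH x0 x1 y0 y1 ξ φ) {c : Cell} (hc : Fr x0 x1 y0 y1 c) :
    ((Out x0 x1 y0 y1 c.p ∧ (φ c.p).2 = 0) ∨ (¬ Out x0 x1 y0 y1 c.p ∧ (φ c.p).2 = 2)) ∧
    ((Out x0 x1 y0 y1 c.q ∧ (φ c.q).2 = 0) ∨ (¬ Out x0 x1 y0 y1 c.q ∧ (φ c.q).2 = 2)) := by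
  rcases c with ⟨x, y, d⟩
  obtain ⟨t, ht, -, ho, h⟩ := hf.sq hc
  have d1 := hf.d1
  have d2 := hf.d2
  have d3 := hf.d3
  clear hc
  rcases h with ⟨r1, r2, a, b, c, e⟩ | ⟨r1, r2, r3, a, b, c, e⟩ | ⟨r1, r2, a, b, c, e⟩ |
    ⟨r1, r2, r3, a, b, c, e⟩ | ⟨r1, r2, a, b, c, e⟩ | ⟨r1, r2, r3, a, b, c, e⟩ |
    ⟨r1, r2, a, b, c, e⟩ | ⟨r1, r2, r3, a, b, c, e⟩ <;>
  cases d <;> simp only [Out, Cell.p, Cell.q, a, b, c, e, and_true, and_false, or_false,
    false_or] <;> omega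

theorem out_o (x0 x1 y0 y1 : ℤ) (c : Cell) : ¬ Out x0 x1 y0 y1 c.o := by
  unfold Out Cell.o; dsimp only; omega

theorem out_inner {x0 x1 y0 y1 : ℤ} {c : Cell} (hc : Rect x0 x1 y0 y1 c)
    (hn : ¬ Fr x0 x1 y0 y1 c) : ¬ Out x0 x1 y0 y1 c.p ∧ ¬ Out x0 x1 y0 y1 c.q := by
  rcases c with ⟨x, y, d⟩
  unfold Fr Rect at *
  cases d <;> simp only [Out, Cell.p, Cell.q] at * <;> omega

theorem adj_keys {σ : ℤ} (s : σ = 0 ∨ σ = 2) {φ : V → V} {c b : Cell} (hc : Good φ c)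
    (hb : Good φ b) (oc : φ c.o = (1, 1)) (ob : φ b.o = (1, 1))
    (sh : φ b.q = φ c.p ∨ φ b.p = φ c.q) (n1 : K φ c = KP ∨ K φ c = ((1, 1), (2 * σ, 2)))
    (n2 : ¬ (K φ b = KP ∨ K φ b = ((1, 1), (2 * σ, 2)))) :
    (K φ c = KP ∧ K φ b = ((1, 1), (4 - 2 * σ, 2))) ∨
    (K φ c = ((1, 1), (2 * σ, 2)) ∧ K φ b = KF) := by
  obtain ⟨c1, c2, c3⟩ := hc.pq
  obtain ⟨b1, b2, b3⟩ := hb.pq
  obtain ⟨-, -, c6, c7, -⟩ := hc
  obtain ⟨-, -, b6, b7, -⟩ := hb
  simp only [K, KP, KF, oc, ob, Prod.ext_iff, Prod.fst_add, Prod.snd_add, true_and] at *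
  omega

theorem near_fix {σ : ℤ} (s : σ = 0 ∨ σ = 2) {φ : V → V} {c : Cell} (hc : Good φ c)
    (oc : φ c.o = (1, 1)) :
    ((K φ c = KP ∨ K φ c = ((1, 1), (2 * σ, 2))) →
      ((φ c.p).2 = 2 → φ c.p = (σ, 2)) ∧ ((φ c.q).2 = 2 → φ c.q = (σ, 2))) ∧
    (¬ (K φ c = KP ∨ K φ c = ((1, 1), (2 * σ, 2))) →
      ((φ c.p).2 = 0 → φ c.p = (2 - σ, 0)) ∧ ((φ c.q).2 = 0 → φ c.q = (2 - σ, 0)) ∧
      (K φ c = KF ∨ K φ c = ((1, 1), (4 - 2 * σ, 2)))) := by
  obtain ⟨c1, c2, c3⟩ := hc.pq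
  obtain ⟨-, -, c6, c7, -⟩ := hc
  simp only [K, KP, KF, oc, Prod.ext_iff, Prod.fst_add, Prod.snd_add, true_and] at *
  omega

theorem Tb.turn {σ ρ ρ2} (r : Refl σ ρ ρ2) {X Y o F St Cv} (t : Tb Pure X Y o F St Cv)
    {F' St' Cv'} (hF : ∀ v, F v → F' (ρ v)) (hS : ∀ v w, St v w → St' (ρ v) (ρ w))
    (hC : ∀ v, (ρ v).1 % 2 = 1 → (ρ v).2 % 2 = 1 → Cv' (ρ v) → v ≠ (1, 1) ∧ Cv v) :
    Tb (Turned ((1, 1), (2 * σ, 2))) X Y o F' St' Cv' := by
  classical
  intro x0 x1 y0 y1 ξ a b c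
  obtain ⟨φ, h, u, hp⟩ := t x0 x1 y0 y1 ξ a b c
  have g := u.gen
  have hf := hp.fh
  set R := Rect x0 x1 y0 y1 with hR
  let N : V × V → Prop := fun κ => κ = KP ∨ κ = ((1, 1), (2 * σ, 2))
  let φ' : V → V := fun v => if Out x0 x1 y0 y1 v then φ v else ρ (φ v)
  let h' : Cell → ℚ := fun c => if N (K φ c) then sq 0 1 (h c) else sq 1 2 (-h c)
  have No : ∀ c, N (K φ c) → φ c.o = (1, 1) := fun c n =>
    n.elim (fun k => congrArg Prod.fst k) (fun k => congrArg Prod.fst k)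
  have oo : ∀ c : Cell, φ' c.o = ρ (φ c.o) := fun c => if_neg (out_o _ _ _ _ c)
  have an : ∀ c, R c → N (K φ c) → Agr φ' φ c := by
    intro c hc n
    have o := No c n
    obtain ⟨v1, v2⟩ := hf.vert (hp.fr c hc o)
    obtain ⟨w1, w2⟩ := (near_fix r.s (g.valid.good c hc) o).1 n
    refine ⟨by rw [oo, o, r.f0], ?_, ?_⟩
    · rcases v1 with v | v
      · exact if_pos v.1
      · simp only [φ']; rw [if_neg v.1, w1 v.2, r.f1]
    · rcases v2 with v | v
      · exact if_pos v.1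
      · simp only [φ']; rw [if_neg v.1, w2 v.2, r.f1]
  have af : ∀ c, R c → ¬ N (K φ c) → Agr φ' (fun v => ρ (φ v)) c := by
    intro c hc n
    by_cases f : Fr x0 x1 y0 y1 c
    · obtain ⟨v1, v2⟩ := hf.vert f
      obtain ⟨w1, w2, -⟩ := (near_fix r.s (g.valid.good c hc) (hf.ctr c f)).2 n
      refine ⟨oo c, ?_, ?_⟩
      · rcases v1 with v | v
        · simp only [φ']; rw [if_pos v.1, w1 v.2, r.f2]
        · exact if_neg v.1
      · rcases v2 with v | v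
        · simp only [φ']; rw [if_pos v.1, w2 v.2, r.f2]
        · exact if_neg v.1
    · obtain ⟨v1, v2⟩ := out_inner hc f
      exact ⟨oo c, if_neg v1, if_neg v2⟩
  have fK : ∀ c, R c → ¬ N (K φ c) → K φ' c = (ρ (K φ c).1, ρ2 (K φ c).2) := by
    intro c hc n
    rw [(af c hc n).K]
    simp only [K, r.add]
  have hn : ∀ c, N (K φ c) → h' c = sq 0 1 (h c) := fun c n => if_pos n
  have hfar : ∀ c, ¬ N (K φ c) → h' c = sq 1 2 (-h c) := fun c n => if_neg n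
  have nf : ∀ c b, N (K φ c) → ¬ N (K φ b) → h' c < h' b := by
    intro c b n1 n2
    rw [hn c n1, hfar b n2]
    exact (sq_mem (by norm_num) _).2.trans (sq_mem (by norm_num) _).1
  have hv : Valid R φ' h' := by
    refine g.valid.fold N (fun κ => (ρ κ.1, ρ2 κ.2)) ρ2 ?_ r.inj2 ?_
      (fun c hc n => (an c hc n).K) (fun c e hc n => (an c hc n).eps e) fK ?_ ?_ ?_ ?_
      (fun c b _ _ => nf c b)
    · intro a b e
      rw [Prod.mk.injEq] at e
      exact Prod.ext (r.iso.inj _ _ e.1) (r.inj2 _ _ e.2)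
    · intro c hc
      by_cases n : N (K φ c)
      · exact (an c hc n).good (g.valid.good c hc)
      · exact (af c hc n).good (r.iso.good _ _ (g.valid.good c hc))
    · intro c e hc n
      rw [(af c hc n).eps]
      cases e <;> simp only [eps, r.add]
    · intro c e h1 h2 n1 n2
      have o := No c n1
      have f := hp.fr c h1 o
      have key : φ (c.nb e).o = (1, 1) → (φ (c.nb e).q = φ c.p ∨ φ (c.nb e).p = φ c.q) →
          (ρ (K φ (c.nb e)).1, ρ2 (K φ (c.nb e)).2) = K φ c := by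
        intro o' sh
        rcases adj_keys r.s (g.valid.good _ h1) (g.valid.good _ h2) o o' sh n1 n2 with k | k
        · rw [k.1, k.2]; simp only [KP, r.f0, r.g2]
        · rw [k.1, k.2]; simp only [KF, r.f0, r.g1]
      cases e
      · exfalso
        rcases hf.quarter f with q | q | q
        · exact q.2.1 h2
        · rw [q.1] at n1
          have := r.s
          simp only [N, KF, KP, Prod.mk.injEq] at n1
          omega
        · exact n2 (by rw [K_g ((hf.ctr _ q.2).trans o.symm)]; exact n1)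
      · exact key (by rw [nb_a_o, o]) (Or.inl (by rw [nb_a_q]))
      · exact key (by rw [nb_b_o, o]) (Or.inr (by rw [nb_b_p]))
    · intro c b _ _ n1 n2
      rw [hn c n1, hn b n2, sq_lt (by norm_num)]
    · intro c b _ _ n1 n2
      rw [hfar c n1, hfar b n2, sq_lt (by norm_num), neg_lt_neg_iff]
  have bn : ∀ c, Bd R c → N (K φ c) := fun c hc => Or.inl (g.kp c hc)
  refine ⟨φ', h', ⟨u.d1, u.d2, u.d3, ⟨hv, ?_, ?_, ?_, ?_, ?_⟩, ?_, ?_⟩, ?_⟩
  · intro c hc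
    rw [(an c hc.1 (bn c hc)).K, g.kp c hc]
  · intro c e b h1 h2 h3 he k1 _ l1 _
    have := eps_port (hv.good c h1) he
    subst this
    by_cases n : N (K φ c)
    · rw [(an c h1 n).K] at k1
      exact hp.kp_out h1 k1 h2
    · exact absurd l1 (nf b c (bn b h3) n).not_gt
  · intro c hc
    rw [oo]; exact hF _ (g.foot c hc)
  · intro c h1 h2 ne
    rw [oo, oo] at *
    exact hS _ _ (g.steps c h1 h2 (fun e => ne (by rw [e])))
  · intro κ hκ hc
    have hv' : ∀ v, ρ v = κ.1 → v ≠ (1, 1) ∧ Cv v := by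
      intro v e
      apply hC v <;> rw [e]
      exacts [hκ.1, hκ.2.1, hc]
    have far : ∀ c, ρ (φ c.o) = κ.1 → ¬ N (K φ c) := fun c e n => (hv' _ e).1 (No c n)
    refine g.cov.map r.iso (fun _ a => a) hκ (fun v e => (hv' v e).2)
      (fun c hc e => af c hc (far c e)) (fun c hc e => ⟨hc, by rw [← oo, e]⟩)
      (Or.inr ⟨r.wb φ, r.bw φ, ?_⟩)
    intro c b _ _ e1 e2 l
    rw [hfar c (far c e1), hfar b (far b e2), ← not_lt, sq_lt (by norm_num), neg_lt_neg_iff,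
      not_lt]
    exact l
  · intro a b h1 h2 h3 h4 h5
    simp only [φ']
    rw [if_pos (by unfold Out; dsimp only; omega)]
    exact u.bdry a b h1 h2 h3 h4 h5
  · intro c b h1 h2 k
    rw [hn c (bn c h1), hn b (bn b h2), sq_lt (by norm_num)]
    exact u.ord c b h1 h2 k
  · intro c hc o
    by_cases n : N (K φ c)
    · rw [(an c hc n).K]; exact n
    · rw [fK c hc n]
      rw [oo, ← r.f0] at o
      have o' := r.iso.inj _ _ o
      rcases ((near_fix r.s (g.valid.good c hc) o').2 n).2.2 with k | k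
      · right; rw [k]; simp only [KF, r.f0, r.g1]
      · left; rw [k]; simp only [KP, r.f0, r.g2]

/-- ring followed by a turn to the open side -/
theorem Tb.turnO {E X Y o F St Cv} (t : Tb E X Y o F St Cv) {F' St' Cv'} (hn : ¬ F (1, -1))
    (hF0 : F' (1, 1)) (hF : ∀ v, F v → F' (v.2 + 2, v.1))
    (hS0 : F (1, 1) → St' (1, 1) (3, 1) ∧ St' (3, 1) (1, 1))
    (hS : ∀ v w, St v w → St' (v.2 + 2, v.1) (w.2 + 2, w.1))
    (hC : ∀ v : V, v.1 % 2 = 1 → v.2 % 2 = 1 → Cv' (v.2 + 2, v.1) → v ≠ (1, -1) ∧ Cv v) :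
    Tb (Turned KO) (X + 2) (Y + 2) (o + 1) F' St' Cv' := by
  refine (t.ring (F' := fun v => F' (v.2, v.1)) (St' := fun v w => St' (v.2, v.1) (w.2, w.1))
    (Cv' := fun v => v = (1, 1) ∨ Cv (v.1, v.2 - 2)) hn hF0 hF hS0 hS ?_).turn refl_open
    (fun _ a => a) (fun _ _ a => a) ?_
  · intro v hv
    simp only [add_sub_cancel_right, Prod.mk.eta, Prod.ext_iff] at hv ⊢
    exact hv.imp (by omega) id
  · intro v h1 h2 h3
    have := hC (v.1, v.2 - 2) h2 (by dsimp only at *; omega) (by simpa using h3)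
    refine ⟨fun e => this.1 (by rw [e]; rfl), Or.inr this.2⟩

/-- ring followed by a turn to the closed side -/
theorem Tb.turnC {E X Y o F St Cv} (t : Tb E X Y o F St Cv) {F' St' Cv'} (hn : ¬ F (1, -1))
    (hF0 : F' (1, 1)) (hF : ∀ v, F v → F' (-v.2, 2 - v.1))
    (hS0 : F (1, 1) → St' (1, 1) (-1, 1) ∧ St' (-1, 1) (1, 1))
    (hS : ∀ v w, St v w → St' (-v.2, 2 - v.1) (-w.2, 2 - w.1))
    (hC : ∀ v : V, v.1 % 2 = 1 → v.2 % 2 = 1 → Cv' (-v.2, 2 - v.1) → v ≠ (1, -1) ∧ Cv v) :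
    Tb (Turned KC) (X + 2) (Y + 2) (o + 1) F' St' Cv' := by
  have e : ∀ a : ℤ, 2 - (a + 2) = -a := fun a => by omega
  refine (t.ring (F' := fun v => F' (2 - v.2, 2 - v.1))
    (St' := fun v w => St' (2 - v.2, 2 - v.1) (2 - w.2, 2 - w.1))
    (Cv' := fun v => v = (1, 1) ∨ Cv (v.1, v.2 - 2)) hn hF0 (by simpa only [e] using hF) hS0
    (by simpa only [e] using hS) ?_).turn refl_closed
    (fun _ a => a) (fun _ _ a => a) ?_
  · intro v hv
    simp only [add_sub_cancel_right, Prod.mk.eta, Prod.ext_iff] at hv ⊢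
    exact hv.imp (by omega) id
  · intro v h1 h2 h3
    have := hC (v.1, v.2 - 2) (by dsimp only at *; omega) (by dsimp only at *; omega)
      (by simpa using h3)
    refine ⟨fun e => this.1 (by rw [e]; rfl), Or.inr this.2⟩

end Pool.Agent.MP_3b5bbf_co

end
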