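import Pool.Agent.Mg.F3b5bbfq.G8350a6
import Mathlib

set_option linter.all false

section

/-! The rank inequality. -/

namespace Pool.Agent.MP_3b5bbf_co.Up

open Set Module

theorem rank_ineq {C K K' : Type*} [Fintype C] [Fintype K] [Fintype K'] (a : C → K → ZMod 2)
    (a' : C → K' → ZMod 2) (k : C → C → ZMod 2)
    (hk : ∀ z : C → ZMod 2, (∀ c', ∑ c, z c * k c c' = 0) → z = 0)
    (h : ∀ z z' : C → ZMod 2, (∀ κ, ∑ c, z c * a c κ = 0) → (∀ κ, ∑ c, z' c * a' c κ = 0) →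
      ∑ c, ∑ c', z c * z' c' * k c c' = 0) :
    Fintype.card C ≤ Fintype.card K + Fintype.card K' := by
  classical
  let φ : (C → ZMod 2) →ₗ[ZMod 2] (K → ZMod 2) := Matrix.vecMulLinear (Matrix.of a)
  let B : (C → ZMod 2) →ₗ[ZMod 2] (C → ZMod 2) →ₗ[ZMod 2] ZMod 2 := Matrix.toBilin' (Matrix.of k)
  let Lf : K' → (C → ZMod 2) →ₗ[ZMod 2] ZMod 2 := fun κ =>
    (LinearMap.proj κ).comp (Matrix.vecMulLinear (Matrix.of a'))
  have hB : Function.Injective B := by
    rw [injective_iff_map_eq_zero]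
    intro z hz
    refine hk z fun c' => ?_
    have := LinearMap.congr_fun hz (Pi.single c' 1)
    simpa [B, Matrix.toBilin'_apply, Pi.single_apply] using this
  have h1 : (LinearMap.ker φ).map B ≤ Submodule.span (ZMod 2) (range Lf) := by
    rintro _ ⟨z, hz, rfl⟩
    refine mem_span_of_iInf_ker_le_ker fun z' hz' => ?_
    have := h z z' (fun κ => congrFun (LinearMap.mem_ker.1 hz) κ)
      (fun κ => LinearMap.mem_ker.1 ((Submodule.mem_iInf _).1 hz' κ))
    rw [LinearMap.mem_ker, ← this]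
    simp only [B, Matrix.toBilin'_apply, Matrix.of_apply]
    exact Finset.sum_congr rfl fun c _ => Finset.sum_congr rfl fun c' _ => by ring
  have h2 := Submodule.finrank_mono h1
  rw [← (Submodule.equivMapOfInjective B hB _).finrank_eq] at h2
  have h3 := finrank_range_le_card (R := ZMod 2) Lf
  have h4 := φ.finrank_range_add_finrank_ker
  have h5 := (LinearMap.range φ).finrank_le
  simp only [finrank_fintype_fun_eq_card] at h4 h5
  unfold Set.finrank at h3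
  omega

theorem tri_inj {M : ℕ} (z : Fin M × Fin M → ZMod 2)
    (h : ∀ c' : Fin M × Fin M, ∑ c, z c * ind (c'.1 ≤ c.1 ∧ c.2 ≤ c'.2) = 0) : z = 0 := by
  classical
  by_contra hz
  obtain ⟨c0, h0, hm⟩ := Finset.exists_max_image (Finset.univ.filter fun c => z c ≠ 0)
    (fun c => (c.1 : ℤ) - c.2) (by
      obtain ⟨c, hc⟩ := Function.ne_iff.1 hz
      exact ⟨c, by simpa using hc⟩)
  have := h c0
  rw [Finset.sum_eq_single c0 ?_ (by simp)] at this
  · simp at this h0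
    exact h0 this
  intro c _ hc
  by_cases e : z c = 0
  · simp [e]
  rw [ind_neg, mul_zero]
  rintro ⟨a, b⟩
  have := hm c (by simpa using e)
  exact hc (Prod.ext (Fin.ext (by omega)) (Fin.ext (by omega)))

variable {F : FlatFolding} {h : ℂ →L[ℝ] ℝ} {L L0 : Finset ℝ}

variable (F h L L0) in
/-- points outside all small curves -/
def Good (Big : Finset (Finset (Fin F.n × ℝ))) (p : ℂ) : Prop :=
  Ok F h L p ∧ ∀ γ ∈ Curves F h L0, (∀ ν ∈ γ, ν.2 ∈ L) → γ ∉ Big → chi (ch F h γ) p = 0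

theorem constraints {ι : Type*} [Fintype ι] (hh : h ≠ 0) (hL : ∀ t ∈ L0, NoV F h t) (hs : L ⊆ L0)
    (Big : Finset (Finset (Fin F.n × ℝ)))
    (hB : ∀ γ ∈ Curves F h L0, (∀ ν ∈ γ, ν.2 ∈ L) → γ ∉ Big → Closed F h γ) (b : ι → ℂ) :
    ∃ a : ι → Option Big → ZMod 2, ∀ z : ι → ZMod 2, (∀ c, z c ≠ 0 → Good F h L L0 Big (b c)) →
      (∀ κ, ∑ c, z c * a c κ = 0) → ∀ v, Inv F h L v → ∑ c, z c * v (b c) = 0 := by
  classical
  have ex : ∀ γ : Finset (Fin F.n × ℝ), ∃ e : ℂ × ℂ, γ ∈ Curves F h L0 →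
      ∃ ν ∈ γ, AP F h L ν e.1 e.2 := by
    intro γ
    by_cases hγ : γ ∈ Curves F h L0
    · obtain ⟨ν, a0⟩ := cv_nonempty hγ
      obtain ⟨d, u, b0⟩ := exists_AP L (cv_node hγ a0).2 (hL _ (cv_node hγ a0).1)
      exact ⟨(d, u), fun _ => ⟨ν, a0, b0⟩⟩
    · exact ⟨0, fun a => absurd a hγ⟩
  choose e he using ex
  have kern : ∀ v, Inv F h L v → (∀ γ ∈ Big, v (e γ).1 + v (e γ).2 = 0) → ∀ p q,
      Good F h L L0 Big p → Good F h L L0 Big q → v p = v q := by
    intro v hv hb p q gp gq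
    let S := (Curves F h L0).filter fun γ => (∀ ν ∈ γ, ν.2 ∈ L) ∧ γ ∉ Big
    have hS : ∀ γ ∈ S, γ ∈ Curves F h L0 ∧ (∀ ν ∈ γ, ν.2 ∈ L) ∧ γ ∉ Big := fun γ a =>
      Finset.mem_filter.1 a
    have := const_all (v := fun x => v x + ∑ γ ∈ S, (v (e γ).1 + v (e γ).2) * chi (ch F h γ) x)
      hh (fun t a => hL t (hs a)) (fun p q st => by
        simp only [hv p q st]
        congr 1
        exact Finset.sum_congr rfl fun γ a => by
          rw [inv_chi hh hL (hS γ a).1 (hB _ (hS γ a).1 (hS γ a).2.1 (hS γ a).2.2) (hS γ a).2.1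
            p q st])
      (fun ν d u a1 a2 => by
        obtain ⟨γ0, g1, g2⟩ := exists_cv (ν := ν) (hs a1) (node_between a2.d1 a2.u1 a2.d3 a2.u3)
        obtain ⟨ν0, n1, n2⟩ := he γ0 g1
        have j := jump_const hL g1 hv g2 n1 a2 n2
        have j2 : ∑ γ ∈ S, (v (e γ).1 + v (e γ).2) * (chi (ch F h γ) d + chi (ch F h γ) u) =
            v (e γ0).1 + v (e γ0).2 := by
          rw [Finset.sum_eq_single γ0]
          · by_cases m : γ0 ∈ Big
            · rw [hb _ m, zero_mul]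
            · have lv : ∀ μ ∈ γ0, μ.2 ∈ L := fun μ c => Adj.level (cv_rel g1 g2 c) ▸ a1
              rw [ap_chi hh hL g1 (hB _ g1 lv m) lv a2, ind_pos g2, mul_one]
          · intro γ c1 c2
            rw [ap_chi hh hL (hS γ c1).1 (hB _ (hS γ c1).1 (hS γ c1).2.1 (hS γ c1).2.2)
              (hS γ c1).2.1 a2, ind_neg fun c => c2 (cv_eq (hS γ c1).1 g1 c g2), mul_zero]
          · intro c
            rw [hb γ0 (by_contra fun m => c (Finset.mem_filter.2
              ⟨g1, fun μ c => Adj.level (cv_rel g1 g2 c) ▸ a1, m⟩)), zero_mul]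
        apply z2_eq_of_add
        simp only [mul_add, Finset.sum_add_distrib] at j2
        linear_combination j + j2 + add_self2 (v (e γ0).1 + v (e γ0).2)) gp.1 gq.1
    rwa [Finset.sum_eq_zero fun γ a => by
      rw [gp.2 γ (hS γ a).1 (hS γ a).2.1 (hS γ a).2.2, mul_zero], Finset.sum_eq_zero fun γ a => by
      rw [gq.2 γ (hS γ a).1 (hS γ a).2.1 (hS γ a).2.2, mul_zero], add_zero, add_zero] at this
  let V : Submodule (ZMod 2) (ℂ → ZMod 2) :=
    { carrier := {v | Inv F h L v}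
      add_mem' := fun a b p q st => by simp only [Pi.add_apply, a p q st, b p q st]
      zero_mem' := fun _ _ _ => rfl
      smul_mem' := fun c v a p q st => by simp only [Pi.smul_apply, a p q st] }
  let ev : ℂ → V →ₗ[ZMod 2] ZMod 2 := fun p => (LinearMap.proj p).comp V.subtype
  by_cases hg : ∃ c0, Good F h L L0 Big (b c0)
  swap
  · exact ⟨0, fun z hz _ v _ => Finset.sum_eq_zero fun c _ => by
      rw [show z c = 0 from by_contra fun a => hg ⟨c, hz c a⟩, zero_mul]⟩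
  obtain ⟨c0, g0⟩ := hg
  let Lf : Option Big → V →ₗ[ZMod 2] ZMod 2 := fun κ =>
    κ.elim (ev (b c0)) fun γ => ev (e γ).1 + ev (e γ).2
  have ex : ∀ c, ∃ a : Option Big → ZMod 2, Good F h L L0 Big (b c) →
      ∑ κ, a κ • Lf κ = ev (b c) := by
    intro c
    by_cases gc : Good F h L L0 Big (b c)
    · obtain ⟨a, ha⟩ := (Submodule.mem_span_range_iff_exists_fun _).1
        (mem_span_of_iInf_ker_le_ker (L := Lf) (K := ev (b c)) fun v hv => by
          have hv' := fun κ => LinearMap.mem_ker.1 ((Submodule.mem_iInf _).1 hv κ)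
          exact (kern v.1 v.2 (fun γ m => hv' (some ⟨γ, m⟩)) _ _ gc g0).trans (hv' none))
      exact ⟨a, fun _ => ha⟩
    · exact ⟨0, fun a => absurd a gc⟩
  choose a ha using ex
  refine ⟨a, fun z hz h0 v hv => ?_⟩
  have : ∀ c, z c * v (b c) = ∑ κ, z c * a c κ * Lf κ ⟨v, hv⟩ := by
    intro c
    by_cases e : z c = 0
    · simp [e]
    have := LinearMap.congr_fun (ha c (hz c e)) ⟨v, hv⟩
    simp only [LinearMap.sum_apply, LinearMap.smul_apply, smul_eq_mul] at this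
    simp only [mul_assoc, ← Finset.mul_sum, this]
    rfl
  simp only [this]
  rw [Finset.sum_comm]
  exact Finset.sum_eq_zero fun κ _ => by rw [← Finset.sum_mul, h0, zero_mul]

end Pool.Agent.MP_3b5bbf_co.Up

end

section

/-! The inequality for one coarse grid. -/

namespace Pool.Agent.MP_3b5bbf_co.Up

open Set

variable {F : FlatFolding} {h : ℂ →L[ℝ] ℝ} {L : Finset ℝ}

theorem band {p x : ℂ} {lo hi : ℝ} (s : Same F h L p x) (h1 : lo ∈ L) (h2 : hi ∈ L)
    (a : lo < h (F.f p) ∧ h (F.f p) < hi) : h (F.f x) ∈ Ico lo hi :=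
  ⟨not_lt.1 fun b => ((s lo h1).2 b).not_gt a.1, (s hi h2).1 a.2⟩

theorem band_seg {A B y : ℂ} {lo hi : ℝ} (a : h A ∈ Ico lo hi) (b : h B ∈ Ico lo hi)
    (hy : y ∈ segment ℝ A B) : h y ∈ Ico lo hi :=
  ((convex_Ico lo hi).linear_preimage (h : ℂ →ₗ[ℝ] ℝ)).segment_subset a b hy

theorem band_sep {xs : ℕ → ℝ} (m : Monotone xs) (a b : ℕ) :
    xs (2 * a + 1) ≤ xs (2 * b + 1) ∨ xs (2 * b + 2) ≤ xs (2 * a) := by
  rcases le_or_gt a b with e | e
  · exact Or.inl (m (by omega))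
  · exact Or.inr (m (by omega))

theorem band_disj {xs : ℕ → ℝ} (m : Monotone xs) {a b : ℕ} {y : ℝ}
    (h1 : y ∈ Ico (xs (2 * a)) (xs (2 * a + 1))) (h2 : y ∈ Ico (xs (2 * b + 1)) (xs (2 * b + 2))) :
    False := by
  rcases band_sep m a b with e | e <;> linarith [h1.1, h1.2, h2.1, h2.2]

theorem re_ne : (Complex.reCLM : ℂ →L[ℝ] ℝ) ≠ 0 := fun e => by
  simpa using congrArg (fun f : ℂ →L[ℝ] ℝ => f 1) e

theorem im_ne : (Complex.imCLM : ℂ →L[ℝ] ℝ) ≠ 0 := fun e => by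
  simpa using congrArg (fun f : ℂ →L[ℝ] ℝ => f Complex.I) e

variable (F) in
/-- the cell has a visible point of the given colour outside all small curves -/
def Has (Lx Lx0 Ly Ly0 : Finset ℝ) (BH BV : Finset (Finset (Fin F.n × ℝ))) (C : Bool)
    (x1 x2 y1 y2 : ℝ) : Prop :=
  ∃ p, Vis F C p ∧ Good F Complex.imCLM Ly Ly0 BH p ∧ Good F Complex.reCLM Lx Lx0 BV p ∧
    (x1 < (F.f p).re ∧ (F.f p).re < x2) ∧ (y1 < (F.f p).im ∧ (F.f p).im < y2)

theorem cons_all {ι : Type} [Fintype ι] {Lx Lx0 Ly Ly0 : Finset ℝ}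
    (vx : ∀ t ∈ Lx0, NoV F Complex.reCLM t) (vy : ∀ t ∈ Ly0, NoV F Complex.imCLM t)
    (sx : Lx ⊆ Lx0) (sy : Ly ⊆ Ly0) {BH BV : Finset (Finset (Fin F.n × ℝ))}
    (cH : ∀ γ ∈ Curves F Complex.imCLM Ly0, (∀ ν ∈ γ, ν.2 ∈ Ly) → γ ∉ BH →
      Closed F Complex.imCLM γ)
    (cV : ∀ γ ∈ Curves F Complex.reCLM Lx0, (∀ ν ∈ γ, ν.2 ∈ Lx) → γ ∉ BV →
      Closed F Complex.reCLM γ)
    (P : ι → Prop) [DecidablePred P] (b : ι → ℂ)
    (hb : ∀ c, P c → Good F Complex.imCLM Ly Ly0 BH (b c) ∧ Good F Complex.reCLM Lx Lx0 BV (b c)) :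
    ∃ a : ι → {c // ¬ P c} ⊕ Option BH ⊕ Option BV → ZMod 2, ∀ z : ι → ZMod 2,
      (∀ κ, ∑ c, z c * a c κ = 0) → (∀ c, z c ≠ 0 → P c) ∧
      (∀ v, Inv F Complex.imCLM Ly v → ∑ c, z c * v (b c) = 0) ∧
      (∀ v, Inv F Complex.reCLM Lx v → ∑ c, z c * v (b c) = 0) := by
  obtain ⟨a1, h1⟩ := constraints im_ne vy sy BH cH b
  obtain ⟨a2, h2⟩ := constraints re_ne vx sx BV cV b
  refine ⟨fun c => Sum.elim (fun c' => ind (c = c'.1)) (Sum.elim (a1 c) (a2 c)), fun z hz => ?_⟩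
  have hP : ∀ c, z c ≠ 0 → P c := fun c e => by
    by_contra hn
    have := hz (Sum.inl ⟨c, hn⟩)
    rw [Finset.sum_eq_single c (fun c' _ e => by simp [e]) (by simp)] at this
    exact e (by simpa using this)
  exact ⟨hP, h1 z (fun c e => (hb c (hP c e)).1) fun κ => hz (Sum.inr (Sum.inl κ)),
    h2 z (fun c e => (hb c (hP c e)).2) fun κ => hz (Sum.inr (Sum.inr κ))⟩

open Classical in
theorem scale {Lx Lx0 Ly Ly0 : Finset ℝ}
    (vx : ∀ t ∈ Lx0, NoV F Complex.reCLM t) (vy : ∀ t ∈ Ly0, NoV F Complex.imCLM t)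
    (sx : Lx ⊆ Lx0) (sy : Ly ⊆ Ly0) {BH BV : Finset (Finset (Fin F.n × ℝ))}
    (cH : ∀ γ ∈ Curves F Complex.imCLM Ly0, (∀ ν ∈ γ, ν.2 ∈ Ly) → γ ∉ BH →
      Closed F Complex.imCLM γ)
    (cV : ∀ γ ∈ Curves F Complex.reCLM Lx0, (∀ ν ∈ γ, ν.2 ∈ Lx) → γ ∉ BV →
      Closed F Complex.reCLM γ)
    {M : ℕ} {xs ys : ℕ → ℝ} (mx : Monotone xs) (my : Monotone ys)
    (ix : ∀ j ≤ 2 * M, xs j ∈ Lx) (iy : ∀ j ≤ 2 * M, ys j ∈ Ly) :
    M ^ 2 ≤ (Finset.univ.filter fun c : Fin M × Fin M => ¬ Has F Lx Lx0 Ly Ly0 BH BV false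
        (xs (2 * c.1 + 1)) (xs (2 * c.1 + 2)) (ys (2 * c.2)) (ys (2 * c.2 + 1))).card +
      (Finset.univ.filter fun c : Fin M × Fin M => ¬ Has F Lx Lx0 Ly Ly0 BH BV true
        (xs (2 * c.1)) (xs (2 * c.1 + 1)) (ys (2 * c.2 + 1)) (ys (2 * c.2 + 2))).card +
      2 * (BH.card + BV.card + 2) := by
  set PB := fun c : Fin M × Fin M => Has F Lx Lx0 Ly Ly0 BH BV false
    (xs (2 * c.1 + 1)) (xs (2 * c.1 + 2)) (ys (2 * c.2)) (ys (2 * c.2 + 1)) with hPB
  set PW := fun c : Fin M × Fin M => Has F Lx Lx0 Ly Ly0 BH BV true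
    (xs (2 * c.1)) (xs (2 * c.1 + 1)) (ys (2 * c.2 + 1)) (ys (2 * c.2 + 2)) with hPW
  choose! b b1 b2 b3 b4 b5 using fun c (h : PB c) => h
  choose! w w1 w2 w3 w4 w5 using fun c (h : PW c) => h
  obtain ⟨a, ha⟩ := cons_all vx vy sx sy cH cV PB b fun c e => ⟨b2 c e, b3 c e⟩
  obtain ⟨a', ha'⟩ := cons_all vx vy sx sy cH cV PW w fun c e => ⟨w2 c e, w3 c e⟩
  have key := rank_ineq a a' (fun c c' => ind (c'.1 ≤ c.1 ∧ c.2 ≤ c'.2)) tri_inj ?_
  · simp only [Fintype.card_prod, Fintype.card_fin, Fintype.card_sum, Fintype.card_option,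
      Fintype.card_coe, Fintype.card_subtype] at key
    rw [sq]
    change _ ≤ (Finset.univ.filter fun c => ¬ PB c).card +
      (Finset.univ.filter fun c => ¬ PW c).card + _
    omega
  intro z z' hz hz'
  obtain ⟨z1, z2, z3⟩ := ha z hz
  obtain ⟨y1, y2, y3⟩ := ha' z' hz'
  have fr : ∀ p, Free (0 : Multiset (Seg F)) p := fun p t ht => absurd ht (by simp)
  obtain ⟨μH, m1, m2⟩ := chain_exists (O := 0) (by simp)
    (fun c e => ⟨(w2 c (y1 c e)).1, fr _⟩) y2
  obtain ⟨μV, n1, n2⟩ := chain_exists (O := 0) (by simp)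
    (fun c e => ⟨(w3 c (y1 c e)).1, fr _⟩) y3
  have mH : ∀ t ∈ μH, ∃ β : ℕ, Complex.imCLM (F.f t.2.1) ∈ Ico (ys (2 * β + 1)) (ys (2 * β + 2)) ∧
      Complex.imCLM (F.f t.2.2) ∈ Ico (ys (2 * β + 1)) (ys (2 * β + 2)) := fun t ht => by
    obtain ⟨c, e, s1, s2⟩ := (m1 t ht).2.2
    have := c.2.2
    exact ⟨c.2, band s1 (iy _ (by omega)) (iy _ (by omega)) (w5 c (y1 c e)),
      band s2 (iy _ (by omega)) (iy _ (by omega)) (w5 c (y1 c e))⟩
  have mV : ∀ t ∈ μV, ∃ α : ℕ, Complex.reCLM (F.f t.2.1) ∈ Ico (xs (2 * α)) (xs (2 * α + 1)) ∧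
      Complex.reCLM (F.f t.2.2) ∈ Ico (xs (2 * α)) (xs (2 * α + 1)) := fun t ht => by
    obtain ⟨c, e, s1, s2⟩ := (n1 t ht).2.2
    have := c.1.2
    exact ⟨c.1, band s1 (ix _ (by omega)) (ix _ (by omega)) (w4 c (y1 c e)),
      band s2 (ix _ (by omega)) (ix _ (by omega)) (w4 c (y1 c e))⟩
  have hO : ∀ t ∈ μH + μV, Sg t := fun t ht =>
    (Multiset.mem_add.1 ht).elim (fun a => (m1 t a).1) fun a => (n1 t a).1
  have fb : ∀ c, z c ≠ 0 → Free (μH + μV) (b c) := fun c e t ht hs => by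
    rcases Multiset.mem_add.1 ht with a | a
    · obtain ⟨β, s1, s2⟩ := mH t a
      exact band_disj my ⟨(b5 c (z1 c e)).1.le, (b5 c (z1 c e)).2⟩ (band_seg s1 s2 hs)
    · obtain ⟨α, s1, s2⟩ := mV t a
      exact band_disj mx (band_seg s1 s2 hs) ⟨(b4 c (z1 c e)).1.le, (b4 c (z1 c e)).2⟩
  obtain ⟨πH, p1, p2⟩ := chain_exists hO (fun c e => ⟨(b2 c (z1 c e)).1, fb c e⟩) z2
  obtain ⟨πV, q1, q2⟩ := chain_exists hO (fun c e => ⟨(b3 c (z1 c e)).1, fb c e⟩) z3
  have pH : ∀ t ∈ πH, ∃ β : ℕ, Complex.imCLM (F.f t.2.1) ∈ Ico (ys (2 * β)) (ys (2 * β + 1)) ∧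
      Complex.imCLM (F.f t.2.2) ∈ Ico (ys (2 * β)) (ys (2 * β + 1)) := fun t ht => by
    obtain ⟨c, e, s1, s2⟩ := (p1 t ht).2.2
    have := c.2.2
    exact ⟨c.2, band s1 (iy _ (by omega)) (iy _ (by omega)) (b5 c (z1 c e)),
      band s2 (iy _ (by omega)) (iy _ (by omega)) (b5 c (z1 c e))⟩
  have pV : ∀ t ∈ πV, ∃ α : ℕ, Complex.reCLM (F.f t.2.1) ∈ Ico (xs (2 * α + 1)) (xs (2 * α + 2)) ∧
      Complex.reCLM (F.f t.2.2) ∈ Ico (xs (2 * α + 1)) (xs (2 * α + 2)) := fun t ht => by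
    obtain ⟨c, e, s1, s2⟩ := (q1 t ht).2.2
    have := c.1.2
    exact ⟨c.1, band s1 (ix _ (by omega)) (ix _ (by omega)) (b4 c (z1 c e)),
      band s2 (ix _ (by omega)) (ix _ (by omega)) (b4 c (z1 c e))⟩
  have vis : ∀ (C : Bool) (b : Fin M × Fin M → ℂ) (z : Fin M × Fin M → ZMod 2),
      (∀ c, z c ≠ 0 → Vis F C (b c)) → ∀ A : ℂ → ZMod 2, (∀ p, Vis F C p → A p = 0) →
      ∑ c, z c * A (b c) = 0 := fun C b z h1 A h2 => Finset.sum_eq_zero fun c _ => by
    by_cases e : z c = 0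
    · rw [e, zero_mul]
    · rw [h2 _ (h1 c e), mul_zero]
  have lk := link (fun A => (q2 A).trans (p2 A).symm) (fun A => (m2 A).trans (n2 A).symm)
    (fun s a => (p1 s a).1) (fun s a => (q1 s a).1) (fun s a => (m1 s a).1)
    (fun s a => (n1 s a).1) (fun s a t e => (p1 s a).2.1 t (Multiset.mem_add.2 (Or.inl e)))
    (fun s a t e => (q1 s a).2.1 t (Multiset.mem_add.2 (Or.inl e)))
    (fun s a t e => (q1 s a).2.1 t (Multiset.mem_add.2 (Or.inr e)))
    (fun A hA => (q2 A).trans (vis false b z (fun c e => b1 c (z1 c e)) A hA))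
    (fun A hA => (m2 A).trans (vis true w z' (fun c e => w1 c (y1 c e)) A hA))
    (fun s a t e hc => by
      obtain ⟨x, x1, x2⟩ := hc.meet
      obtain ⟨β, s1, s2⟩ := pH s a
      obtain ⟨β', t1, t2⟩ := mH t e
      exact band_disj my (band_seg s1 s2 (openSegment_subset_segment ℝ _ _ x2))
        (band_seg t1 t2 (openSegment_subset_segment ℝ _ _ x1)))
    (fun s a t e hc => by
      obtain ⟨x, x1, x2⟩ := hc.meet
      obtain ⟨β, s1, s2⟩ := pV s a
      obtain ⟨β', t1, t2⟩ := mV t e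
      exact band_disj mx (band_seg t1 t2 (openSegment_subset_segment ℝ _ _ x1))
        (band_seg s1 s2 (openSegment_subset_segment ℝ _ _ x2)))
  rw [planar q2 m2 (fun s a t e => (q1 s a).2.1 t (Multiset.mem_add.2 (Or.inl e)))] at lk
  · rw [← lk]
    refine Finset.sum_congr rfl fun c _ => Finset.sum_congr rfl fun c' _ => ?_
    by_cases e : z c = 0
    · simp [e]
    by_cases e' : z' c' = 0
    · simp [e']
    congr 1
    have u1 := b4 c (z1 c e)
    have u2 := b5 c (z1 c e)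
    have u3 := w4 c' (y1 c' e')
    have u4 := w5 c' (y1 c' e')
    refine ind_congr (and_congr ⟨fun a => ?_, fun a => ?_⟩ ⟨fun a => ?_, fun a => ?_⟩)
    · have : xs (2 * c'.1 + 1) ≤ xs (2 * c.1 + 1) := mx (by omega)
      linarith [u1.1, u3.2]
    · by_contra hn
      have : xs (2 * c.1 + 2) ≤ xs (2 * c'.1) := mx (by omega)
      linarith [u1.2, u3.1]
    · have : ys (2 * c.2 + 1) ≤ ys (2 * c'.2 + 1) := my (by omega)
      linarith [u2.2, u4.1]
    · by_contra hn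
      have : ys (2 * c'.2 + 2) ≤ ys (2 * c.2) := my (by omega)
      linarith [u2.1, u4.2]
  · intro t ht c e
    obtain ⟨β, s1, s2⟩ := mH t ht
    have u := b5 c (z1 c e)
    simp only [Complex.imCLM_apply, mem_Ico] at s1 s2
    rcases band_sep my c.2 β with a | a
    · right; constructor <;> linarith [u.2, s1.1, s2.1]
    · left; constructor <;> linarith [u.1, s1.2, s2.2]
  · intro t ht c e
    obtain ⟨β, s1, s2⟩ := pV t ht
    have u := w4 c (y1 c e)
    simp only [Complex.reCLM_apply, mem_Ico] at s1 s2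
    rcases band_sep mx c.1 β with a | a
    · right; constructor <;> linarith [u.2, s1.1, s2.1]
    · left; constructor <;> linarith [u.1, s1.2, s2.2]

end Pool.Agent.MP_3b5bbf_co.Up

end

section

/-! A potential argument on a laminar family. -/

namespace Pool.Agent.MP_3b5bbf_co.Up

open Finset

open Classical in
theorem chain_sq {Γ : Type*} (S : Finset Γ) (lt : Γ → Γ → Prop)
    (has : ∀ a b, lt a b → ¬ lt b a) (htot : ∀ a ∈ S, ∀ b ∈ S, a ≠ b → lt a b ∨ lt b a)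
    (x : Γ → ℝ) : (∑ a ∈ S, x a) ^ 2 =
      ∑ a ∈ S, (x a ^ 2 + 2 * x a * ∑ b ∈ S with lt b a, x b) := by
  have e : ∀ a ∈ S, ∀ b ∈ S, x a * x b = (if a = b then x a * x b else 0) +
      (if lt b a then x a * x b else 0) + (if lt a b then x a * x b else 0) := by
    intro a ha b hb
    by_cases h : a = b
    · subst h
      have : ¬ lt a a := fun h => has a a h h
      simp [this]
    · rcases htot a ha b hb h with u | u <;> simp [h, u, has _ _ u]
  rw [sq, sum_mul_sum, sum_congr rfl fun a ha => sum_congr rfl fun b hb => e a ha b hb]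
  simp only [sum_add_distrib]
  rw [sum_comm (f := fun a b => if lt a b then x a * x b else 0), add_assoc, ← sum_add_distrib]
  congr 1
  · exact sum_congr rfl fun a ha => by simp [ha, sq]
  · refine sum_congr rfl fun a _ => ?_
    rw [sum_filter, mul_sum, ← sum_add_distrib]
    exact sum_congr rfl fun b _ => by split_ifs <;> ring

open Classical in
theorem potential {Γ B : Type*} [Fintype Γ] [Fintype B] (inc : B → Γ → Prop) (lt : Γ → Γ → Prop)
    (htr : ∀ a b c, lt a b → lt b c → lt a c) (hir : ∀ a, ¬ lt a a)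
    (htot : ∀ b γ γ', inc b γ → inc b γ' → γ ≠ γ' → lt γ γ' ∨ lt γ' γ)
    (l : Γ → ℝ) {η K K0 : ℝ} (hη : 0 < η) (hl0 : ∀ γ, 0 ≤ l γ) (hK : 0 ≤ K)
    (hl : ∀ b γ, inc b γ → η ≤ l γ) (hA : ∀ γ, ∑ γ' with lt γ' γ, η * l γ' ≤ K * l γ ^ 2)
    (hA0 : ∑ γ, η * l γ ≤ K0) :
    (∑ γ, η * √((univ.filter fun b => inc b γ).card)) ^ 2 ≤
      Fintype.card B * ((4 * K + 3) * K0) := by
  set w : Γ → ℝ := fun γ => (univ.filter fun b => inc b γ).card with hw
  let x : Γ → ℝ := fun γ => η / √(w γ)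
  have x0 : ∀ γ, 0 ≤ x γ := fun γ => by positivity
  have wx : ∀ γ, w γ * x γ = η * √(w γ) := fun γ => by
    simp only [x]
    rw [mul_div_assoc', mul_comm, mul_div_assoc, Real.div_sqrt]
  let ψ : (Γ → Prop) → B → ℝ := fun P b => ∑ γ with P γ ∧ inc b γ, x γ
  have step : ∀ P : Γ → Prop, (∀ a b, P a → lt b a → P b) →
      (∀ γ, P γ → ∑ b, ψ (lt · γ) b ^ 2 ≤ ((2 * K + 1) * l γ) ^ 2) →
      ∑ b, ψ P b ^ 2 ≤ (4 * K + 3) * ∑ γ with P γ, η * l γ := by
    intro P hP ih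
    have e1 : ∀ b, ψ P b ^ 2 = ∑ γ with P γ,
        if inc b γ then x γ ^ 2 + 2 * x γ * ψ (lt · γ) b else 0 := by
      intro b
      simp only [ψ]
      rw [chain_sq _ lt (fun a b h h' => hir a (htr _ _ _ h h'))
        (fun a ha c hc => htot b a c (mem_filter.1 ha).2.2 (mem_filter.1 hc).2.2),
        ← sum_filter, filter_filter]
      refine sum_congr rfl fun γ hγ => ?_
      congr 3
      ext c
      simp only [mem_filter, mem_univ, true_and] at hγ ⊢
      exact ⟨fun h => ⟨h.2, h.1.2⟩, fun h => ⟨⟨hP _ _ hγ.1 h.1, h.2⟩, h.1⟩⟩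
    simp only [e1]
    rw [sum_comm, mul_sum]
    refine sum_le_sum fun γ hγ => ?_
    rw [← sum_filter, sum_add_distrib, sum_const, nsmul_eq_mul, ← mul_sum]
    change w γ * _ + _ ≤ _
    by_cases h0 : ∃ b, inc b γ
    swap
    · have : (univ.filter fun b => inc b γ) = ∅ := by
        ext b; simpa using fun h => h0 ⟨b, h⟩
      have := hl0 γ
      simp only [hw, ‹(univ.filter fun b => inc b γ) = ∅›, card_empty, sum_empty]
      simp only [Nat.cast_zero, zero_mul, mul_zero, add_zero]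
      positivity
    obtain ⟨b0, h0⟩ := h0
    have w0 : 0 < w γ := by
      simp only [hw]
      exact_mod_cast card_pos.2 ⟨b0, by simpa using h0⟩
    have s0 : 0 < √(w γ) := Real.sqrt_pos.2 w0
    have a1 : w γ * x γ ^ 2 = η ^ 2 := by
      simp only [x]
      rw [div_pow, Real.sq_sqrt w0.le]; field_simp
    have a2 : (∑ b with inc b γ, ψ (lt · γ) b) ^ 2 ≤ (√(w γ) * ((2 * K + 1) * l γ)) ^ 2 := by
      refine sq_sum_le_card_mul_sum_sq.trans ?_
      rw [mul_pow, Real.sq_sqrt w0.le]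
      refine mul_le_mul_of_nonneg_left (le_trans ?_ (ih γ (mem_filter.1 hγ).2)) w0.le
      exact sum_le_sum_of_subset_of_nonneg (filter_subset _ _) fun _ _ _ => sq_nonneg _
    have l0 := hl0 γ
    have a3 := le_of_sq_le_sq a2 (by positivity)
    have a4 : x γ * (√(w γ) * ((2 * K + 1) * l γ)) = η * ((2 * K + 1) * l γ) := by
      simp only [x]; field_simp
    have a5 := mul_le_mul_of_nonneg_left a3 (x0 γ)
    have a6 := hl b0 γ h0
    rw [a1]
    nlinarith
  have wf : WellFounded lt :=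
    @Finite.wellFounded_of_trans_of_irrefl _ _ lt ⟨htr⟩ ⟨hir⟩
  have all : ∀ γ, ∑ b, ψ (lt · γ) b ^ 2 ≤ ((2 * K + 1) * l γ) ^ 2 := by
    intro γ
    induction γ using wf.induction with
    | _ γ ih =>
      refine (step _ (fun a b h h' => htr _ _ _ h' h) ih).trans ?_
      have := mul_le_mul_of_nonneg_left (hA γ) (by positivity : 0 ≤ 4 * K + 3)
      nlinarith [sq_nonneg (l γ), mul_nonneg hK (sq_nonneg (l γ))]
  have fin := step (fun _ => True) (fun _ _ _ _ => trivial) fun γ _ => all γ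
  have e : ∑ γ, η * √(w γ) = ∑ b, ψ (fun _ => True) b := by
    simp only [ψ, true_and, sum_filter]
    rw [sum_comm]
    refine sum_congr rfl fun γ _ => ?_
    rw [← sum_filter, sum_const, nsmul_eq_mul, wx]
  rw [e]
  refine sq_sum_le_card_mul_sum_sq.trans (mul_le_mul_of_nonneg_left (fin.trans ?_) (by positivity))
  rw [filter_true]
  exact mul_le_mul_of_nonneg_left hA0 (by positivity)

end Pool.Agent.MP_3b5bbf_co.Up

end

section

/-! The bounds for the level curves in one direction. -/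

namespace Pool.Agent.MP_3b5bbf_co.Up

open Set MeasureTheory Filter Topology

variable {F : FlatFolding} {h : ℂ →L[ℝ] ℝ} {L0 : Finset ℝ} {i : Fin F.n}
  {ν ν' : Fin F.n × ℝ} {η : ℝ} {γ γ' : Finset (Fin F.n × ℝ)}

theorem el_nonneg (ν : Fin F.n × ℝ) : 0 ≤ el F h ν := dist_nonneg

theorem len_nonneg (γ : Finset (Fin F.n × ℝ)) : 0 ≤ len F h γ :=
  Finset.sum_nonneg fun ν _ => el_nonneg ν

theorem dist_seg {P Q x y : ℂ} (hx : x ∈ segment ℝ P Q) (hy : y ∈ segment ℝ P Q) :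
    dist x y ≤ dist P Q := by
  have h1 : segment ℝ P Q ⊆ Metric.closedBall y (dist P Q) := by
    have := dist_add_dist_of_mem_segment hy
    refine (convex_closedBall _ _).segment_subset ?_ ?_ <;> rw [Metric.mem_closedBall]
    · linarith [dist_nonneg (x := y) (y := Q)]
    · rw [dist_comm]; linarith [dist_nonneg (x := P) (y := y)]
  exact h1 hx

theorem cv_diam (hL : ∀ t ∈ L0, NoV F h t) (hγ : γ ∈ Curves F h L0) (hν : ν ∈ γ) :
    ∀ s ∈ ch F h γ, dist s.2.1 (ep F h ν).1 ≤ len F h γ ∧ dist s.2.2 (ep F h ν).1 ≤ len F h γ := by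
  classical
  have key : ∀ μ, Relation.ReflTransGen (Adj F h) ν μ → ∃ S ⊆ γ, μ ∈ S ∧ ∀ μ' ∈ S,
      ∀ x ∈ segment ℝ (ep F h μ').1 (ep F h μ').2, dist x (ep F h ν).1 ≤ ∑ a ∈ S, el F h a := by
    intro μ r
    induction r with
    | refl =>
      refine ⟨{ν}, by simpa using hν, by simp, fun μ' a x hx => ?_⟩
      rw [Finset.mem_singleton.1 a] at hx
      simpa [el] using dist_seg hx (left_mem_segment ℝ _ _)
    | @tail μ μ' r b ih =>
      obtain ⟨S, s1, s2, s3⟩ := ih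
      by_cases m : μ' ∈ S
      · exact ⟨S, s1, m, s3⟩
      have m' := cv_adj hγ (s1 s2) b
      obtain ⟨b1, y, b2, b3, -, b5⟩ := b
      refine ⟨insert μ' S, Finset.insert_subset m' s1, Finset.mem_insert_self _ _, ?_⟩
      rw [Finset.sum_insert m]
      intro a ha x hx
      rcases Finset.mem_insert.1 ha with rfl | ha
      · have c1 := dist_seg hx ((cv_ends hL hγ m').seg y b3 (b1 ▸ b5))
        have c2 := s3 μ s2 y ((cv_ends hL hγ (s1 s2)).seg y b2 b5)
        exact (dist_triangle x y _).trans (add_le_add c1 c2)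
      · linarith [s3 a ha x hx, el_nonneg (h := h) μ']
  intro s hs
  obtain ⟨μ, a, rfl⟩ := mem_ch.1 hs
  obtain ⟨S, s1, s2, s3⟩ := key μ (cv_rel hγ hν a)
  have : ∑ a ∈ S, el F h a ≤ len F h γ :=
    Finset.sum_le_sum_of_subset_of_nonneg s1 fun a _ _ => el_nonneg a
  exact ⟨(s3 μ s2 _ (left_mem_segment ℝ _ _)).trans this,
    (s3 μ s2 _ (right_mem_segment ℝ _ _)).trans this⟩

theorem sum_len (d : Dir h) (hη : 0 < η) (hL : ∀ t ∈ L0, NoV F h t) (sp : Spaced L0 η)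
    (tall : Tall F h η) (G : Finset (Finset (Fin F.n × ℝ))) (hG : G ⊆ Curves F h L0) {B : Set ℂ}
    (hB : volume B ≠ ⊤) (hs : ∀ γ ∈ G, ∀ ν ∈ γ, ∀ x ∈ Tube F h η ν, h (F.f x) ≠ ν.2 → x ∈ B) :
    ∑ γ ∈ G, η * len F h γ ≤ 16 * volume.real B := by
  classical
  have ex : ∀ ν : Fin F.n × ℝ, ∃ S, ν ∈ G.biUnion id → IsCompact S ∧ S ⊆ Tube F h η ν ∧
      (∀ x ∈ S, h (F.f x) ≠ ν.2) ∧ volume.real S = η * el F h ν / 16 := by
    intro ν
    by_cases m : ν ∈ G.biUnion id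
    · obtain ⟨γ, a, b⟩ := Finset.mem_biUnion.1 m
      obtain ⟨S, hS⟩ := node_par d hη tall (cv_ends hL (hG a) b)
      exact ⟨S, fun _ => hS⟩
    · exact ⟨∅, fun a => absurd a m⟩
  choose P hP using ex
  have := pack_nodes (h := h) sp (G.biUnion id) (fun ν m => by
    obtain ⟨γ, a, b⟩ := Finset.mem_biUnion.1 m
    exact (cv_node (hG a) b).1) P hB (fun ν m => (hP ν m).1) (fun ν m x hx => by
    obtain ⟨γ, a, b⟩ := Finset.mem_biUnion.1 m
    exact hs γ a ν b x ((hP ν m).2.1 hx) ((hP ν m).2.2.1 x hx)) fun ν m => (hP ν m).2.1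
  rw [Finset.sum_congr rfl fun ν m => (hP ν m).2.2.2, Finset.sum_biUnion] at this
  · simp only [len, Finset.mul_sum]
    simp only [id, ← Finset.sum_div] at this
    linarith
  · exact fun a ha b hb hab => Finset.disjoint_left.2 fun ν c1 c2 =>
      hab (cv_eq (hG ha) (hG hb) c1 c2)

theorem tube_inside (d : Dir h) (hL : ∀ t ∈ L0, NoV F h t) (sp : Spaced L0 η)
    (hγ : γ ∈ Curves F h L0) (hc : Closed F h γ) (hγ' : γ' ∈ Curves F h L0) (hc' : Closed F h γ')
    (hne : γ' ≠ γ) (sub : Sub F h L0 γ' γ) (hν : ν ∈ γ') {x : ℂ} (hx : x ∈ Tube F h η ν)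
    (hl : h (F.f x) ≠ ν.2) : chi (ch F h γ) x = 1 := by
  have n1 := (cv_node hγ' hν).1
  obtain ⟨p, u, a⟩ := exists_AP L0 (cv_node hγ' hν).2 (hL _ n1)
  have j1 := ap_chi d.ne hL hγ hc (fun ν a => (cv_node hγ a).1) a
  have j2 := ap_chi d.ne hL hγ' hc' (fun ν a => (cv_node hγ' a).1) a
  rw [ind_neg fun c => hne (cv_eq hγ' hγ hν c)] at j1
  rw [ind_pos hν] at j2
  have j3 := z2_eq_of_add j1
  have j4 : chi (ch F h γ) p = 1 := by
    rcases z2_cases (chi (ch F h γ') p) with e | e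
    · rw [e, zero_add] at j2
      exact j3 ▸ sub u a.u2 j2
    · exact sub p a.d2 e
  have k : ∀ t ∈ L0, t ≠ ν.2 → h (F.f x) ≠ t ∧ (h (F.f x) < t ↔ ν.2 < t) := by
    intro t ht e
    have := sp t ht _ n1 e
    have b := abs_lt.1 hx.2
    have := abs_nonneg (h (F.f x) - ν.2)
    have := hx.2
    rcases le_abs.1 ‹η ≤ |t - ν.2|› with c | c
    · exact ⟨ne_of_lt (by linarith [b.2]), iff_of_true (by linarith [b.2]) (by linarith)⟩
    · exact ⟨ne_of_gt (by linarith [b.1]), iff_of_false (not_lt.2 (by linarith [b.1]))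
        (not_lt.2 (by linarith))⟩
  have ox : Ok F h L0 x := ⟨Reg_of_In hx.1, fun m => by
    by_cases e : h (F.f x) = ν.2
    · exact hl e
    · exact (k _ m e).1 rfl⟩
  have iv := inv_chi d.ne hL hγ hc fun ν a => (cv_node hγ a).1
  rcases lt_or_gt_of_ne hl with c | c
  · refine (iv x p ⟨_, inn_sub (dv _) hx.1, a.d1, ox, a.d2, fun t ht => ?_⟩).trans j4
    by_cases e : t = ν.2
    · exact iff_of_true (e ▸ c) (e ▸ a.d3)
    · rw [(k t ht e).2, (a.lt ht e).1]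
  · refine (iv x u ⟨_, inn_sub (dv _) hx.1, a.u1, ox, a.u2, fun t ht => ?_⟩).trans (j3 ▸ j4)
    by_cases e : t = ν.2
    · exact iff_of_false (e ▸ c.not_gt) (e ▸ a.u3.not_gt)
    · rw [(k t ht e).2, (a.lt ht e).2]

variable (F h L0) in
open Classical in
/-- closed curves -/
noncomputable def CC : Finset (Finset (Fin F.n × ℝ)) := (Curves F h L0).filter (Closed F h)

variable (F h) in
open Classical in
/-- number of marked points inside a curve -/
noncomputable def wt {B : Type*} [Fintype B] (b : B → ℂ) (γ : Finset (Fin F.n × ℝ)) : ℕ :=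
  (Finset.univ.filter fun c => chi (ch F h γ) (b c) = 1).card

theorem mem_CC : γ ∈ CC F h L0 ↔ γ ∈ Curves F h L0 ∧ Closed F h γ := by simp [CC]

theorem closed_bound {B : Type*} [Fintype B] (b : B → ℂ) (d : Dir h) (hη : 0 < η)
    (hL : ∀ t ∈ L0, NoV F h t) (sp : Spaced L0 η) (tall : Tall F h η)
    (ok : ∀ c, Ok F h L0 (b c)) (deep : ∀ c, ∃ i, Metric.ball (b c) (2 * η) ⊆ In F i) :
    ∑ γ ∈ CC F h L0, η * √(wt F h b γ) ≤ 65 * √(Fintype.card B) := by
  classical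
  have cc : ∀ γ : CC F h L0, γ.1 ∈ Curves F h L0 ∧ Closed F h γ.1 := fun γ => mem_CC.1 γ.2
  have key := potential (Γ := CC F h L0) (fun c γ => chi (ch F h γ.1) (b c) = 1)
    (fun γ' γ => γ' ≠ γ ∧ Sub F h L0 γ'.1 γ.1) ?_ (fun _ a => a.1 rfl) ?_ (fun γ => len F h γ.1)
    (K := 64) (K0 := 16) hη (fun γ => len_nonneg _) (by norm_num) ?_ ?_ ?_
  · rw [← Finset.sum_coe_sort]
    refine le_of_sq_le_sq (le_trans ?_ (key.trans ?_)) (by positivity)
    · unfold wt; convert le_rfl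
    · rw [mul_pow, Real.sq_sqrt (by positivity)]
      have : (0 : ℝ) ≤ Fintype.card B := by positivity
      linarith
  · rintro a b c ⟨n1, s1⟩ ⟨n2, s2⟩
    refine ⟨?_, fun p o e => s2 p o (s1 p o e)⟩
    rintro rfl
    exact n1 (Subtype.ext (sub_antisymm d.ne hL (cc a).1 (cc a).2 (cc b).1 (cc b).2 s1 s2))
  · intro c γ γ' a1 a2 ne
    exact (laminar d.ne hL (cc γ).1 (cc γ).2 (cc γ').1 (cc γ').2 (fun e => ne (Subtype.ext e))
      (ok c) a1 a2).imp (fun s => ⟨ne, s⟩) fun s => ⟨ne.symm, s⟩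
  · intro c γ a
    obtain ⟨ν, hν⟩ := cv_nonempty (cc γ).1
    obtain ⟨b1, b2⟩ := chi_box (cyc_ch hL (cc γ).1 (cc γ).2) (cv_diam hL (cc γ).1 hν)
      (by rw [a]; exact one_ne_zero)
    obtain ⟨i, hi⟩ := deep c
    have e := cv_ends hL (cc γ).1 hν
    have : ¬ dist (ep F h ν).1 (b c) < 2 * η := fun m =>
      e.p2 (eq_of_In (hi m) e.p1 ▸ hi m)
    rw [dist_comm, dist_eq_norm, not_lt] at this
    have := this.trans (Complex.norm_le_abs_re_add_abs_im _)
    simp only [Complex.sub_re, Complex.sub_im] at this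
    linarith
  · intro γ
    obtain ⟨ν, hν⟩ := cv_nonempty (cc γ).1
    have l0 := len_nonneg (h := h) γ.1
    have := sum_len d hη hL sp tall ((CC F h L0).filter fun γ' => γ' ≠ γ.1 ∧ Sub F h L0 γ' γ.1)
      (fun a m => (mem_CC.1 (Finset.mem_filter.1 m).1).1)
      (box_ne_top ((ep F h ν).1.re - len F h γ.1) ((ep F h ν).1.re + len F h γ.1)
        ((ep F h ν).1.im - len F h γ.1) ((ep F h ν).1.im + len F h γ.1))
      (fun a m μ hμ x hx hl => by
        obtain ⟨m1, m2, m3⟩ := Finset.mem_filter.1 m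
        have := chi_box (cyc_ch hL (cc γ).1 (cc γ).2) (cv_diam hL (cc γ).1 hν) (z := x) (by
          rw [tube_inside d hL sp (cc γ).1 (cc γ).2 (mem_CC.1 m1).1 (mem_CC.1 m1).2 m2 m3 hμ hx hl]
          exact one_ne_zero)
        simp only [abs_le] at this
        exact ⟨⟨by linarith [this.1.1], by linarith [this.1.2]⟩, by linarith [this.2.1],
          by linarith [this.2.2]⟩)
    rw [vol_box (by linarith) (by linarith), Finset.sum_filter, ← Finset.sum_coe_sort] at this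
    rw [Finset.sum_filter]
    refine le_trans (le_of_eq (Finset.sum_congr rfl fun a _ => ?_)) (this.trans (by nlinarith))
    simp only [ne_eq, Subtype.ext_iff]
  · have := sum_len d hη hL sp tall (CC F h L0) (fun a m => (mem_CC.1 m).1) (box_ne_top 0 1 0 1)
      fun a _ μ _ x hx _ => square_eq 1 ▸ T_sub (inn_sub (dv _) hx.1)
    rw [vol_box zero_le_one zero_le_one, ← Finset.sum_coe_sort] at this
    linarith

open Classical in
theorem open_bound (d : Dir h) (hη : 0 < η) (hL : ∀ t ∈ L0, NoV F h t) (sp : Spaced L0 η)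
    (long : Long F η) :
    η * ((Curves F h L0).filter fun γ => ¬ Closed F h γ).card ≤ 128 := by
  let W := (Nodes F h L0).filter fun ν => ¬ ((ep F h ν).1 ∈ Opn ∧ (ep F h ν).2 ∈ Opn)
  have h1 : ((Curves F h L0).filter fun γ => ¬ Closed F h γ).card ≤ W.card := by
    refine le_trans (Finset.card_le_card fun γ m => ?_) (Finset.card_image_le (f := cv F h L0))
    obtain ⟨m1, m2⟩ := Finset.mem_filter.1 m
    obtain ⟨ν, a, b⟩ : ∃ ν ∈ γ, ¬ ((ep F h ν).1 ∈ Opn ∧ (ep F h ν).2 ∈ Opn) := by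
      by_contra c
      exact m2 fun ν a => by_contra fun b => c ⟨ν, a, b⟩
    have n := mem_Nodes.2 (cv_node m1 a)
    exact Finset.mem_image.2 ⟨ν, Finset.mem_filter.2 ⟨n, b⟩, cv_eq (Finset.mem_image_of_mem _ n) m1
      (mem_cv.2 ⟨n, Relation.ReflTransGen.refl⟩) a⟩
  let B : ℝ → Set ℂ := fun ε => (Icc 0 ε ×ℂ Icc 0 1 ∪ Icc (1 - ε) 1 ×ℂ Icc 0 1) ∪
    (Icc 0 1 ×ℂ Icc 0 ε ∪ Icc 0 1 ×ℂ Icc (1 - ε) 1)
  have h2 : ∀ᶠ ε in 𝓝[>] (0 : ℝ), ∀ ν ∈ W, ∃ S, IsCompact S ∧ S ⊆ Tube F h η ν ∧ S ⊆ B ε ∧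
      volume.real S = η * ε / 32 := by
    refine (eventually_all_finset W).2 fun ν m => ?_
    obtain ⟨m1, m2⟩ := Finset.mem_filter.1 m
    obtain ⟨n1, n2⟩ := mem_Nodes.1 m1
    have e := ep_spec n2 (hL _ n1)
    obtain ⟨x, x1, x2, x3, x4⟩ : ∃ x, x ∈ T F ν.1 ∧ h (F.f x) = ν.2 ∧ x ∉ In F ν.1 ∧ x ∉ Opn := by
      rcases not_and_or.1 m2 with a | a
      · exact ⟨_, e.p1, e.p3, e.p2, a⟩
      · exact ⟨_, e.q1, e.q3, e.q2, a⟩
    have sq : ∀ {S : Set ℂ}, S ⊆ Tube F h η ν → ∀ z ∈ S, z ∈ square 1 := fun a z hz =>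
      T_sub (inn_sub (dv _) (a hz).1)
    obtain ⟨y1, y2, y3, y4⟩ := T_sub x1
    by_cases a1 : x.re = 0
    · filter_upwards [wall_par d hη long dir_re (τ := 0) (fun z hz => by simpa using hz.1) x1 x2
        (hL _ n1) x3 (by simpa using a1)] with ε ⟨S, s1, s2, s3, s4⟩
      refine ⟨S, s1, s2, fun z hz => Or.inl (Or.inl ?_), s4⟩
      obtain ⟨z1, z2, z3, z4⟩ := sq s2 z hz
      exact ⟨⟨z1, by simpa using s3 z hz⟩, z3, z4⟩
    by_cases a2 : x.re = 1
    · filter_upwards [wall_par d hη long dir_re.neg (τ := 1) (fun z hz => by simpa using hz.2.1)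
        x1 x2 (hL _ n1) x3 (by simp [a2])] with ε ⟨S, s1, s2, s3, s4⟩
      refine ⟨S, s1, s2, fun z hz => Or.inl (Or.inr ?_), s4⟩
      obtain ⟨z1, z2, z3, z4⟩ := sq s2 z hz
      have := s3 z hz
      simp at this
      exact ⟨⟨by linarith, z2⟩, z3, z4⟩
    by_cases a3 : x.im = 0
    · filter_upwards [wall_par d hη long dir_im (τ := 0) (fun z hz => by simpa using hz.2.2.1)
        x1 x2 (hL _ n1) x3 (by simpa using a3)] with ε ⟨S, s1, s2, s3, s4⟩
      refine ⟨S, s1, s2, fun z hz => Or.inr (Or.inl ?_), s4⟩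
      obtain ⟨z1, z2, z3, z4⟩ := sq s2 z hz
      exact ⟨⟨z1, z2⟩, z3, by simpa using s3 z hz⟩
    by_cases a4 : x.im = 1
    · filter_upwards [wall_par d hη long dir_im.neg (τ := 1) (fun z hz => by simpa using hz.2.2.2)
        x1 x2 (hL _ n1) x3 (by simp [a4])] with ε ⟨S, s1, s2, s3, s4⟩
      refine ⟨S, s1, s2, fun z hz => Or.inr (Or.inr ?_), s4⟩
      obtain ⟨z1, z2, z3, z4⟩ := sq s2 z hz
      have := s3 z hz
      simp at this
      exact ⟨⟨z1, z2⟩, by linarith, z4⟩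
    exact absurd ⟨lt_of_le_of_ne y1 (Ne.symm a1), lt_of_le_of_ne y2 a2,
      lt_of_le_of_ne y3 (Ne.symm a3), lt_of_le_of_ne y4 a4⟩ x4
  obtain ⟨ε, e1, e2⟩ := (h2.and self_mem_nhdsWithin).exists
  have e0 : (0 : ℝ) < ε := e2
  choose! P p1 p2 p3 p4 using e1
  have h3 := pack_nodes (h := h) sp W (fun ν m => (mem_Nodes.1 (Finset.mem_filter.1 m).1).1) P
    (measure_union_ne_top (measure_union_ne_top (box_ne_top _ _ _ _) (box_ne_top _ _ _ _))
      (measure_union_ne_top (box_ne_top _ _ _ _) (box_ne_top _ _ _ _))) p1 p3 p2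
  have h4 := h3.trans ((measureReal_union_le _ _).trans
    (add_le_add (measureReal_union_le _ _) (measureReal_union_le _ _)))
  rw [Finset.sum_congr rfl p4, Finset.sum_const, nsmul_eq_mul, vol_box e0.le zero_le_one,
    vol_box (by linarith) zero_le_one, vol_box zero_le_one e0.le,
    vol_box zero_le_one (by linarith)] at h4
  have h5 : η * W.card ≤ 128 := by
    refine le_of_mul_le_mul_right ?_ e0
    linarith
  exact (mul_le_mul_of_nonneg_left (by exact_mod_cast h1) hη.le).trans h5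

end Pool.Agent.MP_3b5bbf_co.Up

end

section

/-! The inequality at one scale. -/

namespace Pool.Agent.MP_3b5bbf_co.Up

open Set Finset

variable (F : FlatFolding)

/-- marked visible points, one in each cell -/
structure Marks (k : ℕ) (s : ℝ) (β : Fin k × Fin k → ℂ) (col : Fin k × Fin k → Bool) : Prop where
  vis : ∀ c, Vis F (col c) (β c)
  x1 : ∀ c, c.1 * s < (F.f (β c)).re
  x2 : ∀ c, (F.f (β c)).re < (c.1 + 1) * s
  y1 : ∀ c, c.2 * s < (F.f (β c)).im
  y2 : ∀ c, (F.f (β c)).im < (c.2 + 1) * s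
  alt : ∀ a a' b, a'.1 = a.1 + 1 → col (a', b) = !col (a, b)

/-- the fine levels -/
noncomputable def lev (x η : ℝ) (N : ℕ) : Finset ℝ := (Finset.range N).image fun j : ℕ => x + j * η

/-- the coarse levels -/
noncomputable def clev (x η : ℝ) (N Q l : ℕ) : Finset ℝ :=
  ((Finset.range N).filter fun j => j % Q = l).image fun j : ℕ => x + j * η

variable {B : Type} [Fintype B] (h : ℂ →L[ℝ] ℝ) (L L0 : Finset ℝ) (β : B → ℂ) (q : ℕ)

open Classical in
/-- curves on the coarse levels -/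
noncomputable def OnL : Finset (Finset (Fin F.n × ℝ)) :=
  (Curves F h L0).filter fun γ => ∀ ν ∈ γ, ν.2 ∈ L

open Classical in
/-- big curves -/
noncomputable def Big : Finset (Finset (Fin F.n × ℝ)) :=
  (OnL F h L L0).filter fun γ => ¬ (Closed F h γ ∧ wt F h β γ < q ^ 2)

open Classical in
/-- marked points inside small curves -/
noncomputable def Cov : Finset B :=
  ((OnL F h L L0).filter fun γ => Closed F h γ ∧ wt F h β γ < q ^ 2).biUnion
    fun γ => Finset.univ.filter fun c => chi (ch F h γ) (β c) = 1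

open Classical in
/-- the cost of a curve -/
noncomputable def cost (γ : Finset (Fin F.n × ℝ)) : ℕ :=
  if Closed F h γ then min (wt F h β γ) (q ^ 2) else q ^ 2

variable {F h L L0 β q}

theorem cov_le : (Cov F h L L0 β q).card + q ^ 2 * (Big F h L L0 β q).card ≤
    ∑ γ ∈ OnL F h L L0, cost F h β q γ := by
  classical
  rw [← sum_filter_add_sum_filter_not (OnL F h L L0)
    (fun γ => Closed F h γ ∧ wt F h β γ < q ^ 2)]
  refine add_le_add (card_biUnion_le.trans (le_of_eq ?_)) (le_of_eq ?_)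
  · refine sum_congr (by convert rfl) fun γ m => ?_
    obtain ⟨-, a, b⟩ := mem_filter.1 m
    rw [cost, if_pos a, min_eq_left b.le, wt]
  · rw [mul_comm, ← smul_eq_mul, ← sum_const]
    refine sum_congr (by unfold Big; convert rfl) fun γ m => ?_
    have a := (mem_filter.1 m).2
    unfold cost
    split_ifs with b
    · exact (min_eq_right (not_lt.1 fun c => a ⟨b, c⟩)).symm
    · rfl

theorem good_of (hs : L ⊆ L0) {c : B} (ok : Ok F h L0 (β c)) (hc : c ∉ Cov F h L L0 β q) :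
    Good F h L L0 (Big F h L L0 β q) (β c) := by
  classical
  refine ⟨⟨ok.1, fun a => ok.2 (hs a)⟩, fun γ a b e => (z2_cases _).resolve_right fun g => hc ?_⟩
  have m : γ ∈ OnL F h L L0 := by simpa [OnL] using And.intro a b
  simp only [Cov, Finset.mem_biUnion, Finset.mem_filter, Finset.mem_univ, true_and]
  refine ⟨γ, ⟨m, by_contra fun n => e ?_⟩, g⟩
  simp only [Big, Finset.mem_filter]
  exact ⟨m, n⟩

theorem big_closed : ∀ γ ∈ Curves F h L0, (∀ ν ∈ γ, ν.2 ∈ L) → γ ∉ Big F h L L0 β q →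
    Closed F h γ := by
  classical
  intro γ a b e
  have m : γ ∈ OnL F h L L0 := by simpa [OnL] using And.intro a b
  by_contra n
  exact e (by simp [Big, m, n])

theorem clev_sub (x η : ℝ) (N Q l : ℕ) : clev x η N Q l ⊆ lev x η N :=
  image_subset_image (filter_subset _ _)

theorem sum_onL {x η : ℝ} (hη : 0 < η) (N Q : ℕ) (φ : Finset (Fin F.n × ℝ) → ℕ) :
    ∑ l ∈ Finset.range Q, ∑ γ ∈ OnL F h (clev x η N Q l) L0, φ γ ≤ ∑ γ ∈ Curves F h L0, φ γ := by
  classical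
  rw [← sum_biUnion]
  · exact sum_le_sum_of_subset (biUnion_subset.2 fun l _ => filter_subset _ _)
  · intro l _ l' _ hl
    refine Finset.disjoint_left.2 fun γ a b => hl ?_
    simp only [OnL, mem_filter] at a b
    obtain ⟨ν, hν⟩ := cv_nonempty a.1
    obtain ⟨j, j1, j2⟩ := mem_image.1 (a.2 ν hν)
    obtain ⟨j', j3, j4⟩ := mem_image.1 (b.2 ν hν)
    have : j = j' := by
      have := j2.trans j4.symm
      exact_mod_cast mul_right_cancel₀ hη.ne' (add_left_cancel this)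
    rw [← (mem_filter.1 j1).2, this, (mem_filter.1 j3).2]

theorem uniq {q A A' r r' : ℕ} (h1 : r < q) (h2 : r' < q) (e : A * q + r = A' * q + r') :
    A = A' ∧ r = r' := by
  have a := congrArg (· % q) e
  simp only [Nat.mul_add_mod_self_right, Nat.mod_eq_of_lt h1, Nat.mod_eq_of_lt h2] at a
  subst a
  exact ⟨Nat.eq_of_mul_eq_mul_right (by omega) (Nat.add_right_cancel e), rfl⟩

theorem in_cell {x η s y : ℝ} {m q l J a : ℕ} (hη : 0 < η) (hm : 0 < m) (hs : s = m * η)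
    (x0 : 0 < x) (x1 : x < η) (a1 : J * q + l / m + 1 ≤ a) (a2 : a + 1 ≤ (J + 1) * q + l / m)
    (y1 : a * s < y) (y2 : y < (a + 1) * s) :
    x + (l + J * (q * m) : ℕ) * η < y ∧ y < x + (l + (J + 1) * (q * m) : ℕ) * η := by
  have d1 := Nat.div_add_mod l m
  have d2 := Nat.mod_lt l hm
  have b1 : l + J * (q * m) + 1 ≤ a * m := by nlinarith
  have b2 : (a + 1) * m ≤ l + (J + 1) * (q * m) := by
    have := Nat.mul_le_mul_right m a2
    have := Nat.zero_le (l % m)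
    nlinarith
  have c1 : ((l + J * (q * m) : ℕ) : ℝ) + 1 ≤ a * m := by exact_mod_cast b1
  have c2 : ((a : ℝ) + 1) * m ≤ (l + (J + 1) * (q * m) : ℕ) := by exact_mod_cast b2
  subst hs
  constructor <;> nlinarith

open Classical in
theorem lack_le {k : ℕ} {s x y η : ℝ} {β : Fin k × Fin k → ℂ} {col : Fin k × Fin k → Bool}
    (mk : Marks F k s β col) {m r l M : ℕ} (hη : 0 < η) (hm : 0 < m) (hs : s = m * η)
    (x0 : 0 < x) (x1 : x < η) (y0 : 0 < y) (y1 : y < η) (hl : l < 4 * r * m)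
    (hM : (2 * M + 1) * (4 * r) ≤ k) {Lx Lx0 Ly Ly0 : Finset ℝ} (sx : Lx ⊆ Lx0) (sy : Ly ⊆ Ly0)
    (okx : ∀ c, Ok F Complex.reCLM Lx0 (β c)) (oky : ∀ c, Ok F Complex.imCLM Ly0 (β c))
    (C : Bool) {ox oy : ℕ} (hx : ox ≤ 1) (hy : oy ≤ 1) :
    (Finset.univ.filter fun c : Fin M × Fin M => ¬ Has F Lx Lx0 Ly Ly0
      (Big F Complex.imCLM Ly Ly0 β (4 * r)) (Big F Complex.reCLM Lx Lx0 β (4 * r)) C
      (x + (l + (2 * c.1 + ox) * (4 * r * m) : ℕ) * η)
      (x + (l + (2 * c.1 + ox + 1) * (4 * r * m) : ℕ) * η)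
      (y + (l + (2 * c.2 + oy) * (4 * r * m) : ℕ) * η)
      (y + (l + (2 * c.2 + oy + 1) * (4 * r * m) : ℕ) * η)).card * (r * (2 * r)) ≤
      (Cov F Complex.imCLM Ly Ly0 β (4 * r)).card + (Cov F Complex.reCLM Lx Lx0 β (4 * r)).card := by
  refine le_trans ?_ (card_union_le _ _)
  set S := Finset.univ.filter fun c : Fin M × Fin M => ¬ Has F Lx Lx0 Ly Ly0
      (Big F Complex.imCLM Ly Ly0 β (4 * r)) (Big F Complex.reCLM Lx Lx0 β (4 * r)) C
      (x + (l + (2 * c.1 + ox) * (4 * r * m) : ℕ) * η)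
      (x + (l + (2 * c.1 + ox + 1) * (4 * r * m) : ℕ) * η)
      (y + (l + (2 * c.2 + oy) * (4 * r * m) : ℕ) * η)
      (y + (l + (2 * c.2 + oy + 1) * (4 * r * m) : ℕ) * η) with hS
  have u0 : l / m < 4 * r := (Nat.div_lt_iff_lt_mul hm).2 hl
  have ex : ∀ t ∈ S ×ˢ (Finset.range r ×ˢ Finset.range (2 * r)), ∃ c : Fin k × Fin k,
      c ∈ Cov F Complex.imCLM Ly Ly0 β (4 * r) ∪ Cov F Complex.reCLM Lx Lx0 β (4 * r) ∧
      (∃ e ≤ 1, c.1.1 = (2 * t.1.1 + ox) * (4 * r) + (2 * t.2.1 + e) + (l / m + 1)) ∧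
      c.2.1 = (2 * t.1.2 + oy) * (4 * r) + t.2.2 + (l / m + 1) := by
    rintro ⟨c, d, e⟩ ht
    simp only [mem_product, Finset.mem_range, hS, mem_filter, Finset.mem_univ, true_and] at ht
    obtain ⟨t1, t2, t3⟩ := ht
    have c1 : (2 * c.1 + ox + 1) * (4 * r) ≤ 2 * M * (4 * r) :=
      Nat.mul_le_mul_right _ (by have := c.1.2; omega)
    have c2 : (2 * c.2 + oy + 1) * (4 * r) ≤ 2 * M * (4 * r) :=
      Nat.mul_le_mul_right _ (by have := c.2.2; omega)
    rw [add_mul _ 1, one_mul] at c1 c2 hM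
    let b : Fin k := ⟨(2 * c.2 + oy) * (4 * r) + e + (l / m + 1), by omega⟩
    let a : Fin k := ⟨(2 * c.1 + ox) * (4 * r) + (2 * d + 0) + (l / m + 1), by omega⟩
    let a' : Fin k := ⟨(2 * c.1 + ox) * (4 * r) + (2 * d + 1) + (l / m + 1), by omega⟩
    obtain ⟨a2, e1, e2⟩ : ∃ a2 : Fin k, col (a2, b) = C ∧
        ∃ e ≤ 1, a2.1 = (2 * c.1 + ox) * (4 * r) + (2 * d + e) + (l / m + 1) := by
      by_cases e : col (a, b) = C
      · exact ⟨a, e, 0, by omega, rfl⟩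
      · exact ⟨a', by rw [mk.alt a a' b (by simp only [a, a']; omega)]; cases C <;> simpa using e,
          1, le_rfl, rfl⟩
    refine ⟨(a2, b), by_contra fun n => t1 ?_, e2, rfl⟩
    rw [Finset.mem_union, not_or] at n
    obtain ⟨e', e3, e4⟩ := e2
    refine ⟨β (a2, b), e1 ▸ mk.vis _, good_of sy (oky _) n.1, good_of sx (okx _) n.2,
      in_cell hη hm hs x0 x1 ?_ ?_ (mk.x1 _) (mk.x2 _),
      in_cell hη hm hs y0 y1 ?_ ?_ (mk.y1 _) (mk.y2 _)⟩
    · simp only [e4]; omega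
    · simp only [e4]; rw [add_mul _ 1]; omega
    · simp only [b]; omega
    · simp only [b]; rw [add_mul _ 1]; omega
  have hk : 0 < k := by
    rw [add_mul _ 1] at hM
    have := Nat.zero_le (l / m)
    omega
  have : Nonempty (Fin k × Fin k) := ⟨(⟨0, hk⟩, ⟨0, hk⟩)⟩
  choose! φ p1 p2 p3 using ex
  rw [← card_range r, ← card_range (2 * _), ← card_product, ← card_product]
  simp only [card_range]
  refine card_le_card_of_injOn φ (fun t ht => p1 t ht) fun t ht t' ht' e => ?_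
  obtain ⟨e1, a1, a2⟩ := p2 t ht
  obtain ⟨e2, b1, b2⟩ := p2 t' ht'
  have a3 := p3 t ht
  have b3 := p3 t' ht'
  rw [e] at a2 a3
  simp only [coe_product, mem_prod, coe_range, Set.mem_Iio] at ht ht'
  have k1 := uniq (q := 4 * r) (by omega) (by omega) (Nat.add_right_cancel (a2.symm.trans b2))
  have k2 := uniq (q := 4 * r) (by omega) (by omega) (Nat.add_right_cancel (a3.symm.trans b3))
  exact Prod.ext (Prod.ext (Fin.ext (by omega)) (Fin.ext (by omega)))
    (Prod.ext (by omega) (by omega))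

theorem one_scale {k : ℕ} {s x y η : ℝ} {β : Fin k × Fin k → ℂ} {col : Fin k × Fin k → Bool}
    (mk : Marks F k s β col) {m r M : ℕ} (hη : 0 < η) (hm : 0 < m) (hs : s = m * η)
    (x0 : 0 < x) (x1 : x < η) (y0 : 0 < y) (y1 : y < η) (hM : (2 * M + 1) * (4 * r) ≤ k)
    (vx : ∀ t ∈ lev x η (k * m), NoV F Complex.reCLM t)
    (vy : ∀ t ∈ lev y η (k * m), NoV F Complex.imCLM t)
    (okx : ∀ c, Ok F Complex.reCLM (lev x η (k * m)) (β c))
    (oky : ∀ c, Ok F Complex.imCLM (lev y η (k * m)) (β c)) :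
    4 * r * m * ((4 * r) ^ 2 * M ^ 2) ≤
      16 * (∑ γ ∈ Curves F Complex.imCLM (lev y η (k * m)), cost F Complex.imCLM β (4 * r) γ +
        ∑ γ ∈ Curves F Complex.reCLM (lev x η (k * m)), cost F Complex.reCLM β (4 * r) γ) +
      4 * r * m * (4 * (4 * r) ^ 2) := by
  classical
  have key : ∀ l ∈ Finset.range (4 * r * m), (4 * r) ^ 2 * M ^ 2 ≤
      16 * (∑ γ ∈ OnL F Complex.imCLM (clev y η (k * m) (4 * r * m) l) (lev y η (k * m)),
        cost F Complex.imCLM β (4 * r) γ +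
        ∑ γ ∈ OnL F Complex.reCLM (clev x η (k * m) (4 * r * m) l) (lev x η (k * m)),
        cost F Complex.reCLM β (4 * r) γ) + 4 * (4 * r) ^ 2 := by
    intro l hl
    have hl := Finset.mem_range.1 hl
    have mono : ∀ x : ℝ, Monotone fun j : ℕ => x + (l + j * (4 * r * m) : ℕ) * η := by
      intro x a b hab
      have : ((l + a * (4 * r * m) : ℕ) : ℝ) ≤ (l + b * (4 * r * m) : ℕ) := by
        exact_mod_cast Nat.add_le_add_left (Nat.mul_le_mul_right _ hab) _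
      simp only
      nlinarith
    have mem : ∀ x : ℝ, ∀ j ≤ 2 * M, x + (l + j * (4 * r * m) : ℕ) * η ∈
        clev x η (k * m) (4 * r * m) l := by
      intro x j hj
      refine mem_image.2 ⟨_, mem_filter.2 ⟨Finset.mem_range.2 ?_, ?_⟩, rfl⟩
      · have := Nat.mul_le_mul_right (4 * r * m) hj
        have := Nat.mul_le_mul_right m hM
        nlinarith
      · rw [Nat.add_mul_mod_self_right, Nat.mod_eq_of_lt hl]
    have s1 := scale vx vy (clev_sub x η _ _ l) (clev_sub y η _ _ l)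
      (big_closed (β := β) (q := 4 * r)) (big_closed (β := β) (q := 4 * r)) (mono x) (mono y)
      (mem x) (mem y)
    have s2 := lack_le mk hη hm hs x0 x1 y0 y1 hl hM (clev_sub x η (k * m) (4 * r * m) l)
      (clev_sub y η (k * m) (4 * r * m) l) okx oky false (ox := 1) (oy := 0) le_rfl (by omega)
    have s3 := lack_le mk hη hm hs x0 x1 y0 y1 hl hM (clev_sub x η (k * m) (4 * r * m) l)
      (clev_sub y η (k * m) (4 * r * m) l) okx oky true (ox := 0) (oy := 1) (by omega) le_rfl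
    have s4 := cov_le (F := F) (h := Complex.imCLM) (L := clev y η (k * m) (4 * r * m) l)
      (L0 := lev y η (k * m)) (β := β) (q := 4 * r)
    have s5 := cov_le (F := F) (h := Complex.reCLM) (L := clev x η (k * m) (4 * r * m) l)
      (L0 := lev x η (k * m)) (β := β) (q := 4 * r)
    simp only [add_zero, add_assoc, Nat.reduceAdd] at s1 s2 s3
    have s6 := Nat.mul_le_mul_left ((4 * r) ^ 2) s1
    nlinarith
  have := sum_le_sum key
  rw [sum_const, card_range, smul_eq_mul, sum_add_distrib, sum_const, card_range, smul_eq_mul,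
    ← mul_sum, sum_add_distrib] at this
  have a := sum_onL (F := F) (h := Complex.imCLM) (L0 := lev y η (k * m)) (x := y) hη (k * m)
    (4 * r * m) (cost F Complex.imCLM β (4 * r))
  have b := sum_onL (F := F) (h := Complex.reCLM) (L0 := lev x η (k * m)) (x := x) hη (k * m)
    (4 * r * m) (cost F Complex.reCLM β (4 * r))
  omega

end Pool.Agent.MP_3b5bbf_co.Up

end

section

/-! Summation over all scales. -/

namespace Pool.Agent.MP_3b5bbf_co.Up

open Set Filter Topology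

variable {F : FlatFolding} {h : ℂ →L[ℝ] ℝ} {L0 : Finset ℝ} {η : ℝ}

theorem exists_top (i : Fin F.n) : ∃ j, E F j i ∧ F.IsTop j := by
  let r : Fin F.n → Fin F.n → Prop := fun a b => E F a i ∧ E F b i ∧ F.above a b
  have : IsTrans _ r := ⟨fun a b c h1 h2 => ⟨h1.1, h2.2.1, F.trans a b c
    (E_iff.1 (h1.1.trans h1.2.1.symm)) (E_iff.1 (h2.1.trans h2.2.1.symm)) h1.2.2 h2.2.2⟩⟩
  have : Std.Irrefl r := ⟨fun a h => F.irrefl a h.2.2⟩
  obtain ⟨j, h1, h2⟩ := (Finite.wellFounded_of_trans_of_irrefl r).has_min {j | E F j i}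
    ⟨i, E.refl i⟩
  exact ⟨j, h1, fun l e a => h2 l ((E_iff.2 e).trans h1) ⟨(E_iff.2 e).trans h1, h1, a⟩⟩

theorem exists_mark {U : Set ℂ} (hU : IsOpen U) {z : ℂ} (hz : z ∈ F.f '' square 1) (hu : z ∈ U) :
    ∃ p j, p ∈ In F j ∧ F.IsTop j ∧ F.f p ∈ U := by
  obtain ⟨x, hx, rfl⟩ := hz
  obtain ⟨i, hi⟩ := exists_T (F := F) hx
  obtain ⟨m, m1, -, m2, -⟩ := generic hi univ_mem (hU.mem_nhds hu) (Z := ∅) (by simp)
  obtain ⟨j, j1, j2⟩ := exists_top i
  have o : F.f m ∈ OI F j := j1.O_eq ▸ f_mem_O m1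
  exact ⟨_, j, g_mem_In o, j2, by rwa [f_g (inn_sub (dfv j) o)]⟩

theorem exists_marks {k : ℕ} {c : ℝ} (hc : 0 < c) (hk : 0 < k) (white : ℕ → ℕ → Prop)
    (im : F.f '' square 1 = square c)
    (alt : ∀ a b, a + 1 < k → b < k → (white (a + 1) b ↔ ¬ white a b))
    (top : ∀ i, F.IsTop i → ∀ a < k, ∀ b < k, ∀ z ∈ F.f '' tri (F.v i),
      a * (c / k) < z.re → z.re < (a + 1) * (c / k) → b * (c / k) < z.im →
      z.im < (b + 1) * (c / k) → (F.WhiteUp i ↔ white a b)) :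
    ∃ β col, Marks F k (c / k) β col := by
  classical
  have k0 : (0 : ℝ) < k := by exact_mod_cast hk
  have s0 : 0 < c / k := by positivity
  have e : c = k * (c / k) := by field_simp
  have ex : ∀ a : Fin k × Fin k, ∃ p j, p ∈ In F j ∧ F.IsTop j ∧ F.f p ∈
      {z : ℂ | a.1 * (c / k) < z.re ∧ z.re < (a.1 + 1) * (c / k) ∧ a.2 * (c / k) < z.im ∧
        z.im < (a.2 + 1) * (c / k)} := by
    intro a
    have b : ∀ a : Fin k, 0 ≤ ((a : ℝ) + 1 / 2) * (c / k) ∧ ((a : ℝ) + 1 / 2) * (c / k) ≤ c := by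
      intro a
      have : ((a : ℕ) : ℝ) + 1 ≤ k := by exact_mod_cast a.2
      exact ⟨by positivity, by nlinarith⟩
    refine exists_mark ?_ (z := ⟨(a.1 + 1 / 2) * (c / k), (a.2 + 1 / 2) * (c / k)⟩)
      (im ▸ ⟨(b _).1, (b _).2, (b _).1, (b _).2⟩) ⟨?_, ?_, ?_, ?_⟩
    · simp only [ofPred_and]
      refine IsOpen.inter ?_ (IsOpen.inter ?_ (IsOpen.inter ?_ ?_)) <;>
        exact isOpen_lt (by fun_prop) (by fun_prop)
    all_goals simp only; nlinarith
  choose β j p1 p2 p3 using ex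
  refine ⟨β, fun a => decide (white a.1 a.2), fun a => ⟨j a, p1 a, p2 a, ?_⟩, fun a => (p3 a).1,
    fun a => (p3 a).2.1, fun a => (p3 a).2.2.1, fun a => (p3 a).2.2.2, fun a a' b e => ?_⟩
  · have := top _ (p2 a) _ a.1.2 _ a.2.2 _ ⟨_, inn_sub (dv _) (p1 a), rfl⟩ (p3 a).1 (p3 a).2.1
      (p3 a).2.2.1 (p3 a).2.2.2
    simp [Dn, this]
  · have := alt a b (e ▸ a'.2) b.2
    simp [e, this]

theorem ev_tall (d : Dir h) : ∀ᶠ η in 𝓝 (0 : ℝ), Tall F h η := by
  refine eventually_all.2 fun i => ?_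
  obtain ⟨k, l, e⟩ : ∃ k l, h (F.f (F.v i k)) ≠ h (F.f (F.v i l)) := by
    by_contra! c
    have := d.cr _ _ (F.f (F.v i 2)) (c 0 1)
    rw [c 2 0, sub_self, abs_zero, mul_zero, abs_eq_zero] at this
    exact dfv i this
  filter_upwards [gt_mem_nhds (half_pos (abs_pos.2 (sub_ne_zero.2 e)))] with η a t
  by_contra! c
  have := abs_sub_le (h (F.f (F.v i k))) t (h (F.f (F.v i l)))
  rw [abs_sub_comm t] at this
  linarith [c k, c l]

theorem ev_long : ∀ᶠ η in 𝓝 (0 : ℝ), Long F η := by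
  refine eventually_all.2 fun i => eventually_all.2 fun k => eventually_all.2 fun l => ?_
  by_cases e : k = l
  · exact Eventually.of_forall fun _ a => absurd e a
  · filter_upwards [gt_mem_nhds (dist_pos.2 ((w_inj (dv i)).ne e))] with η a _ using a.le

theorem ev_deep {B : Type} [Finite B] {b : B → ℂ} (hb : ∀ c, ∃ i, b c ∈ In F i) :
    ∀ᶠ η in 𝓝 (0 : ℝ), ∀ c, ∃ i, Metric.ball (b c) (2 * η) ⊆ In F i := by
  refine eventually_all.2 fun c => ?_
  obtain ⟨i, hi⟩ := hb c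
  obtain ⟨ε, e0, e1⟩ := Metric.isOpen_iff.1 (isOpen_inn _) _ hi
  filter_upwards [gt_mem_nhds (half_pos e0)] with η a
  exact ⟨i, (Metric.ball_subset_ball (by linarith)).trans e1⟩

theorem exists_off {B : Type} [Fintype B] {b : B → ℂ} (hb : ∀ c, ∃ i, b c ∈ In F i)
    (h : ℂ →L[ℝ] ℝ) (hη : 0 < η) (N : ℕ) : ∃ x, 0 < x ∧ x < η ∧
    (∀ t ∈ lev x η N, NoV F h t) ∧ ∀ c, Ok F h (lev x η N) (b c) := by
  classical
  let A : Finset ℝ := (Finset.univ.image fun a : Fin F.n × Fin 3 => h (F.f (F.v a.1 a.2))) ∪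
    Finset.univ.image fun c => h (F.f (b c))
  obtain ⟨x, x1, x2⟩ := (Set.Ioo_infinite hη).exists_notMem_finset
    ((A ×ˢ Finset.range N).image fun a => a.1 - a.2 * η)
  have key : ∀ t ∈ lev x η N, t ∉ A := fun t ht a => x2 (by
    obtain ⟨j, j1, rfl⟩ := Finset.mem_image.1 ht
    exact Finset.mem_image.2 ⟨(_, j), Finset.mem_product.2 ⟨a, j1⟩, by simp⟩)
  refine ⟨x, x1.1, x1.2, fun t ht i k e => key t ht ?_, fun c => ⟨?_, fun a => key _ a ?_⟩⟩
  · exact Finset.mem_union_left _ (Finset.mem_image.2 ⟨(i, k), Finset.mem_univ _, e⟩)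
  · obtain ⟨i, hi⟩ := hb c
    exact Reg_of_In hi
  · exact Finset.mem_union_right _ (Finset.mem_image.2 ⟨c, Finset.mem_univ _, rfl⟩)

theorem spaced_lev (hη : 0 < η) (x : ℝ) (N : ℕ) : Spaced (lev x η N) η := by
  intro t ht t' ht' e
  obtain ⟨j, -, rfl⟩ := Finset.mem_image.1 ht
  obtain ⟨j', -, rfl⟩ := Finset.mem_image.1 ht'
  have n : j ≠ j' := fun c => e (by rw [c])
  rcases lt_or_gt_of_ne n with c | c
  · have : (j : ℝ) + 1 ≤ j' := by exact_mod_cast c
    exact le_abs.2 (Or.inr (by nlinarith))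
  · have : (j' : ℝ) + 1 ≤ j := by exact_mod_cast c
    exact le_abs.2 (Or.inl (by nlinarith))

theorem geom (u : ℝ) (hu : 0 ≤ u) (n : ℕ) :
    ∑ e ∈ Finset.range n, min (u ^ 2) ((4 * 2 ^ e) ^ 2) / (4 * 2 ^ e) ≤ 3 * u := by
  have key : ∑ e ∈ Finset.range n, min (u ^ 2) ((4 * 2 ^ e) ^ 2) / (4 * 2 ^ e) ≤ 4 * 2 ^ n ∧
      (u ≤ 4 * 2 ^ n → ∑ e ∈ Finset.range n, min (u ^ 2) ((4 * 2 ^ e) ^ 2) / (4 * 2 ^ e) ≤
        3 * u - 2 * (u ^ 2 / (4 * 2 ^ n))) := by
    induction n with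
    | zero => exact ⟨by simp, fun a => by simp at a ⊢; nlinarith⟩
    | succ n ih =>
      rw [Finset.sum_range_succ, pow_succ 2 n, ← mul_assoc]
      have q0 : (0 : ℝ) < 4 * 2 ^ n := by positivity
      generalize (4 : ℝ) * 2 ^ n = q at *
      have a1 : min (u ^ 2) (q ^ 2) / q ≤ q := by
        rw [div_le_iff₀ q0, ← sq]; exact min_le_right _ _
      have a2 : min (u ^ 2) (q ^ 2) / q ≤ u ^ 2 / q := by
        gcongr; exact min_le_left _ _
      have a3 : u ^ 2 / (q * 2) = u ^ 2 / q / 2 := by rw [div_div]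
      refine ⟨by linarith [ih.1], fun a => ?_⟩
      rcases le_total u q with b | b
      · linarith [ih.2 b]
      · have : u ^ 2 / q ≤ 3 * u - 2 * q := by
          rw [div_le_iff₀ q0]; nlinarith
        linarith [ih.1]
  rcases le_total u (4 * 2 ^ n) with b | b
  · have : 0 ≤ u ^ 2 / (4 * 2 ^ n) := by positivity
    linarith [key.2 b]
  · linarith [key.1]

theorem geom2 (n : ℕ) : ∑ e ∈ Finset.range n, (4 * 2 ^ e : ℝ) ≤ 4 * 2 ^ n := by
  induction n with
  | zero => simp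
  | succ n ih => rw [Finset.sum_range_succ, pow_succ]; linarith

theorem dir_total {k : ℕ} (β : Fin k × Fin k → ℂ) (d : Dir h) (hη : 0 < η)
    (hL : ∀ t ∈ L0, NoV F h t) (sp : Spaced L0 η) (tall : Tall F h η) (long : Long F η)
    (ok : ∀ c, Ok F h L0 (β c)) (deep : ∀ c, ∃ i, Metric.ball (β c) (2 * η) ⊆ In F i) (n : ℕ) :
    ∑ e ∈ Finset.range n, η * (∑ γ ∈ Curves F h L0, cost F h β (4 * 2 ^ e) γ : ℕ) / (4 * 2 ^ e) ≤
      195 * k + 128 * (4 * 2 ^ n) := by
  classical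
  have c1 := closed_bound β d hη hL sp tall ok deep
  have c2 := open_bound d hη hL sp long
  rw [Fintype.card_prod, Fintype.card_fin, Nat.cast_mul, Real.sqrt_mul_self (by positivity)] at c1
  have split : ∀ e : ℕ, η * (∑ γ ∈ Curves F h L0, cost F h β (4 * 2 ^ e) γ : ℕ) / (4 * 2 ^ e) ≤
      ∑ γ ∈ CC F h L0, η * (min (√(wt F h β γ) ^ 2) ((4 * 2 ^ e) ^ 2) / (4 * 2 ^ e)) +
        128 * (4 * 2 ^ e) := by
    intro e
    have q0 : (0 : ℝ) < 4 * 2 ^ e := by positivity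
    simp only [cost, Finset.sum_ite, Finset.sum_const, smul_eq_mul]
    push_cast
    rw [mul_add, add_div, Finset.mul_sum, Finset.sum_div]
    refine add_le_add (le_of_eq (Finset.sum_congr (by unfold CC; convert rfl) fun γ _ => ?_)) ?_
    · rw [Real.sq_sqrt (by positivity), mul_div_assoc]
    · rw [div_le_iff₀ q0, ← mul_assoc, mul_assoc 128, ← sq]
      gcongr
  refine (Finset.sum_le_sum fun e _ => split e).trans ?_
  rw [Finset.sum_add_distrib, Finset.sum_comm, ← Finset.mul_sum]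
  have := geom2 n
  have : ∑ γ ∈ CC F h L0, ∑ e ∈ Finset.range n,
      η * (min (√(wt F h β γ) ^ 2) ((4 * 2 ^ e) ^ 2) / (4 * 2 ^ e)) ≤
      ∑ γ ∈ CC F h L0, 3 * (η * √(wt F h β γ)) := Finset.sum_le_sum fun γ _ => by
    rw [← Finset.mul_sum]
    have := mul_le_mul_of_nonneg_left (geom _ (Real.sqrt_nonneg (wt F h β γ)) n) hη.le
    linarith
  rw [← Finset.mul_sum] at this
  linarith

theorem all_scales {k : ℕ} {c : ℝ} (hc : 0 < c) {β : Fin k × Fin k → ℂ}
    {col : Fin k × Fin k → Bool} (mk : Marks F k (c / k) β col) {n : ℕ} (hn : 64 * 2 ^ n ≤ k) :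
    n * c ≤ 32480 := by
  have hk : 0 < k := lt_of_lt_of_le (by positivity) hn
  have k0 : (0 : ℝ) < k := by exact_mod_cast hk
  have hb : ∀ a, ∃ i, β a ∈ In F i := fun a => (mk.vis a).imp fun _ b => b.1
  obtain ⟨m, ⟨⟨⟨t1, t2⟩, lg⟩, dp⟩, hm⟩ := (((tendsto_const_div_atTop_nhds_zero_nat (c / k)).eventually
    ((((ev_tall (F := F) dir_re).and (ev_tall (F := F) dir_im)).and (ev_long (F := F))).and
      (ev_deep hb))).and (eventually_gt_atTop 0)).exists
  have m0 : (0 : ℝ) < m := by exact_mod_cast hm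
  have hη : 0 < c / k / m := by positivity
  have hs : c / k = m * (c / k / m) := by field_simp
  have hs' : c = k * m * (c / k / m) := by field_simp
  generalize c / k / m = η at *
  obtain ⟨x, x0, x1, vx, okx⟩ := exists_off hb Complex.reCLM hη (k * m)
  obtain ⟨y, y0, y1, vy, oky⟩ := exists_off hb Complex.imCLM hη (k * m)
  have d1 := dir_total β dir_re hη vx (spaced_lev hη _ _) t1 lg okx dp n
  have d2 := dir_total β dir_im hη vy (spaced_lev hη _ _) t2 lg oky dp n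
  have key : ∀ e ∈ Finset.range n, c * k / 80 ≤
      η * (∑ γ ∈ Curves F Complex.reCLM (lev x η (k * m)),
        cost F Complex.reCLM β (4 * 2 ^ e) γ : ℕ) / (4 * 2 ^ e) +
      η * (∑ γ ∈ Curves F Complex.imCLM (lev y η (k * m)),
        cost F Complex.imCLM β (4 * 2 ^ e) γ : ℕ) / (4 * 2 ^ e) := by
    intro e he
    have e1 : 2 ^ (e + 1) ≤ 2 ^ n := Nat.pow_le_pow_right two_pos (Finset.mem_range.1 he)
    have e2 : 32 * (4 * 2 ^ e) ≤ k := by rw [pow_succ] at e1; omega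
    have r0 : 0 < 4 * 2 ^ e := by positivity
    have e3 := Nat.div_add_mod k (4 * 2 ^ e)
    have e4 := Nat.mod_lt k r0
    have e5 : 32 ≤ k / (4 * 2 ^ e) := (Nat.le_div_iff_mul_le r0).2 e2
    obtain ⟨M, M1, M2⟩ : ∃ M, 2 * M + 1 ≤ k / (4 * 2 ^ e) ∧ k / (4 * 2 ^ e) ≤ 2 * M + 2 :=
      ⟨(k / (4 * 2 ^ e) - 1) / 2, by omega, by omega⟩
    have M3 : (2 * M + 1) * (4 * 2 ^ e) ≤ k := (Nat.le_div_iff_mul_le r0).1 M1
    have M4 : k ≤ (2 * M + 3) * (4 * 2 ^ e) := by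
      have := Nat.mul_le_mul_left (4 * 2 ^ e) M2
      nlinarith
    have o := one_scale mk hη hm hs x0 x1 y0 y1 M3 vx vy okx oky
    generalize (∑ γ ∈ Curves F Complex.reCLM (lev x η (k * m)),
        cost F Complex.reCLM β (4 * 2 ^ e) γ : ℕ) = A at *
    generalize (∑ γ ∈ Curves F Complex.imCLM (lev y η (k * m)),
        cost F Complex.imCLM β (4 * 2 ^ e) γ : ℕ) = B at *
    have o' : (4 * 2 ^ e * m * ((4 * 2 ^ e) ^ 2 * M ^ 2) : ℝ) ≤
      16 * (B + A) + 4 * 2 ^ e * m * (4 * (4 * 2 ^ e) ^ 2) := by exact_mod_cast o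
    have f2 : (32 * (4 * 2 ^ e) : ℝ) ≤ k := by exact_mod_cast e2
    have f4 : (k : ℝ) ≤ (2 * M + 3) * (4 * 2 ^ e) := by exact_mod_cast M4
    have q0 : (0 : ℝ) < 4 * 2 ^ e := by positivity
    generalize (4 * 2 ^ e : ℝ) = q at *
    have g1 : 29 / 64 * k ≤ q * M := by nlinarith
    have g2 : (k : ℝ) ^ 2 / 5 ≤ q ^ 2 * M ^ 2 - 4 * q ^ 2 := by
      have := pow_le_pow_left₀ (by positivity) g1 2
      have := pow_le_pow_left₀ (by positivity) f2 2
      nlinarith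
    have g3 := mul_le_mul_of_nonneg_left g2 (mul_pos q0 m0).le
    rw [← add_div, le_div_iff₀ q0, ← mul_add, hs']
    have g4 : q * m * ((k : ℝ) ^ 2 / 5) ≤ 16 * (A + B) := by linarith
    have := mul_le_mul_of_nonneg_left g4 hη.le
    nlinarith
  have := Finset.sum_le_sum key
  rw [Finset.sum_const, Finset.card_range, nsmul_eq_mul, Finset.sum_add_distrib] at this
  have f : (64 * 2 ^ n : ℝ) ≤ k := by exact_mod_cast hn
  refine le_of_mul_le_mul_right ?_ k0
  nlinarith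

end Pool.Agent.MP_3b5bbf_co.Up

end
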