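import Pool.Agent.Mg.F3b5bbfq.G3dfa61
import Pool.Agent.Mg.F3b5bbfq.Ga2ab39
import Pool.Agent.Mg.F3b5bbfq.G792e72
import Pool.Agent.Mg.F3b5bbfq.G9261c8
import Pool.Agent.Mg.F3b5bbfq.G3532df
import Pool.Agent.Mg.F3b5bbfq.G35a3d6
import Pool.Agent.Mg.F3b5bbfq.G66e180

set_option linter.all false

/-! The pair lemmas, for all directions of the two squares. -/

namespace Pool.Agent.MP_3b5bbf_co.S

/-- (c, s) is a unit vector and `w` bounds `|c| + |s|` -/
structure U (c s w : ℝ) : Prop where
  unit : c^2 + s^2 = 1
  p : c + s ≤ w
  q : c - s ≤ w
  r : -c + s ≤ w
  t : -c - s ≤ w

variable {X Y c1 s1 c2 s2 w1 w2 : ℝ}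

theorem U.one_le {c s w : ℝ} (h : U c s w) : 1 ≤ w := by
  have h1 := one_le_w h.unit
  have := h.p; have := h.q; have := h.r; have := h.t
  rcases abs_cases c with ⟨e1, _⟩ | ⟨e1, _⟩ <;> rcases abs_cases s with ⟨e2, _⟩ | ⟨e2, _⟩ <;>
    linarith

theorem WB.swap (H : WB X Y c1 s1 c2 s2) : WB X Y c2 s2 c1 s1 := by
  intro a1 a2 b1 b2 h1 h2 h3 h4
  have := H (-b1) b2 (-a1) a2 (by simpa using h3) h4 (by simpa using h1) h2
  linarith

theorem SS.swap (H : SS X Y c1 s1 c2 s2) : SS X Y c2 s2 c1 s1 := by
  intro a1 a2 b1 b2 h1 h2 h3 h4
  have := H (-b1) (-b2) (-a1) (-a2) (by simpa using h3) (by simpa using h4) (by simpa using h1)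
    (by simpa using h2)
  linarith

theorem L0a (u1 : U c1 s1 w1) (u2 : U c2 s2 w2) (H : WB X Y c1 s1 c2 s2) (x0 : 0 ≤ X)
    (dx : X + w1 + w2 < 6) (y0 : -2 ≤ Y) (y1 : Y ≤ 2) : c1 < 3/4 := by
  by_contra hn
  rw [not_lt] at hn
  have := u1.p; have := u1.q; have := u1.r; have := u1.t; have := u1.one_le
  have := u2.p; have := u2.q; have := u2.r; have := u2.t; have := u2.one_le
  rcases le_total 0 c1 with e1 | e1 <;> rcases le_total 0 s1 with e2 | e2 <;>
    rcases le_total 0 c2 with e3 | e3 <;> rcases le_total 0 s2 with e4 | e4
  · exact L0a_00 u1.unit u2.unit H (by linarith) (by linarith) (by linarith) (by linarith)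
      (by linarith) (by linarith) (by linarith) (by linarith) (by linarith) (by linarith)
  · exact L0a_03 u1.unit u2.unit H (by linarith) (by linarith) (by linarith) (by linarith)
      (by linarith) (by linarith) (by linarith) (by linarith) (by linarith) (by linarith)
  · exact L0a_01 u1.unit u2.unit H (by linarith) (by linarith) (by linarith) (by linarith)
      (by linarith) (by linarith) (by linarith) (by linarith) (by linarith) (by linarith)
  · exact L0a_02 u1.unit u2.unit H (by linarith) (by linarith) (by linarith) (by linarith)
      (by linarith) (by linarith) (by linarith) (by linarith) (by linarith) (by linarith)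
  · exact L0a_30 u1.unit u2.unit H (by linarith) (by linarith) (by linarith) (by linarith)
      (by linarith) (by linarith) (by linarith) (by linarith) (by linarith) (by linarith)
  · exact L0a_33 u1.unit u2.unit H (by linarith) (by linarith) (by linarith) (by linarith)
      (by linarith) (by linarith) (by linarith) (by linarith) (by linarith) (by linarith)
  · exact L0a_31 u1.unit u2.unit H (by linarith) (by linarith) (by linarith) (by linarith)
      (by linarith) (by linarith) (by linarith) (by linarith) (by linarith) (by linarith)
  · exact L0a_32 u1.unit u2.unit H (by linarith) (by linarith) (by linarith) (by linarith)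
      (by linarith) (by linarith) (by linarith) (by linarith) (by linarith) (by linarith)
  · exact L0a_10 u1.unit u2.unit H (by linarith) (by linarith) (by linarith) (by linarith)
      (by linarith) (by linarith) (by linarith) (by linarith) (by linarith) (by linarith)
  · exact L0a_13 u1.unit u2.unit H (by linarith) (by linarith) (by linarith) (by linarith)
      (by linarith) (by linarith) (by linarith) (by linarith) (by linarith) (by linarith)
  · exact L0a_11 u1.unit u2.unit H (by linarith) (by linarith) (by linarith) (by linarith)
      (by linarith) (by linarith) (by linarith) (by linarith) (by linarith) (by linarith)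
  · exact L0a_12 u1.unit u2.unit H (by linarith) (by linarith) (by linarith) (by linarith)
      (by linarith) (by linarith) (by linarith) (by linarith) (by linarith) (by linarith)
  · exact L0a_20 u1.unit u2.unit H (by linarith) (by linarith) (by linarith) (by linarith)
      (by linarith) (by linarith) (by linarith) (by linarith) (by linarith) (by linarith)
  · exact L0a_23 u1.unit u2.unit H (by linarith) (by linarith) (by linarith) (by linarith)
      (by linarith) (by linarith) (by linarith) (by linarith) (by linarith) (by linarith)
  · exact L0a_21 u1.unit u2.unit H (by linarith) (by linarith) (by linarith) (by linarith)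
      (by linarith) (by linarith) (by linarith) (by linarith) (by linarith) (by linarith)
  · exact L0a_22 u1.unit u2.unit H (by linarith) (by linarith) (by linarith) (by linarith)
      (by linarith) (by linarith) (by linarith) (by linarith) (by linarith) (by linarith)

theorem L0b (u1 : U c1 s1 w1) (u2 : U c2 s2 w2) (H : WB X Y c1 s1 c2 s2) (x0 : 0 ≤ X)
    (dx : X + w1 + w2 < 6) (dy : Y + w2 < 3) (dz : -Y + w1 < 3) :
    c1 < 3/4 ∧ c2 < 3/4 ∧ 13/25 < c1*c2 + s1*s2 := by
  have ha := L0a u1 u2 H x0 dx (by linarith [u1.one_le]) (by linarith [u2.one_le])
  have hb := L0a u2 u1 H.swap x0 (by linarith) (by linarith [u1.one_le]) (by linarith [u2.one_le])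
  refine ⟨ha, hb, ?_⟩
  by_contra hn
  rw [not_lt] at hn
  have := u1.p; have := u1.q; have := u1.r; have := u1.t; have := u1.one_le
  have := u2.p; have := u2.q; have := u2.r; have := u2.t; have := u2.one_le
  rcases le_total 0 c1 with e1 | e1 <;> rcases le_total 0 s1 with e2 | e2 <;>
    rcases le_total 0 c2 with e3 | e3 <;> rcases le_total 0 s2 with e4 | e4
  · exact L0b_00 u1.unit u2.unit H (by linarith) (by linarith) (by linarith) (by linarith)
      (by linarith) (by linarith) (by linarith) (by linarith) (by linarith) (by linarith)
      (by linarith) (by linarith) (by linarith) (by linarith)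
  · exact L0b_03 u1.unit u2.unit H (by linarith) (by linarith) (by linarith) (by linarith)
      (by linarith) (by linarith) (by linarith) (by linarith) (by linarith) (by linarith)
      (by linarith) (by linarith) (by linarith) (by linarith)
  · exact L0b_01 u1.unit u2.unit H (by linarith) (by linarith) (by linarith) (by linarith)
      (by linarith) (by linarith) (by linarith) (by linarith) (by linarith) (by linarith)
      (by linarith) (by linarith) (by linarith) (by linarith)
  · exact L0b_02 u1.unit u2.unit H (by linarith) (by linarith) (by linarith) (by linarith)
      (by linarith) (by linarith) (by linarith) (by linarith) (by linarith) (by linarith)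
      (by linarith) (by linarith) (by linarith) (by linarith)
  · exact L0b_30 u1.unit u2.unit H (by linarith) (by linarith) (by linarith) (by linarith)
      (by linarith) (by linarith) (by linarith) (by linarith) (by linarith) (by linarith)
      (by linarith) (by linarith) (by linarith) (by linarith)
  · exact L0b_33 u1.unit u2.unit H (by linarith) (by linarith) (by linarith) (by linarith)
      (by linarith) (by linarith) (by linarith) (by linarith) (by linarith) (by linarith)
      (by linarith) (by linarith) (by linarith) (by linarith)
  · exact L0b_31 u1.unit u2.unit H (by linarith) (by linarith) (by linarith) (by linarith)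
      (by linarith) (by linarith) (by linarith) (by linarith) (by linarith) (by linarith)
      (by linarith) (by linarith) (by linarith) (by linarith)
  · exact L0b_32 u1.unit u2.unit H (by linarith) (by linarith) (by linarith) (by linarith)
      (by linarith) (by linarith) (by linarith) (by linarith) (by linarith) (by linarith)
      (by linarith) (by linarith) (by linarith) (by linarith)
  · exact L0b_10 u1.unit u2.unit H (by linarith) (by linarith) (by linarith) (by linarith)
      (by linarith) (by linarith) (by linarith) (by linarith) (by linarith) (by linarith)
      (by linarith) (by linarith) (by linarith) (by linarith)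
  · exact L0b_13 u1.unit u2.unit H (by linarith) (by linarith) (by linarith) (by linarith)
      (by linarith) (by linarith) (by linarith) (by linarith) (by linarith) (by linarith)
      (by linarith) (by linarith) (by linarith) (by linarith)
  · exact L0b_11 u1.unit u2.unit H (by linarith) (by linarith) (by linarith) (by linarith)
      (by linarith) (by linarith) (by linarith) (by linarith) (by linarith) (by linarith)
      (by linarith) (by linarith) (by linarith) (by linarith)
  · exact L0b_12 u1.unit u2.unit H (by linarith) (by linarith) (by linarith) (by linarith)
      (by linarith) (by linarith) (by linarith) (by linarith) (by linarith) (by linarith)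
      (by linarith) (by linarith) (by linarith) (by linarith)
  · exact L0b_20 u1.unit u2.unit H (by linarith) (by linarith) (by linarith) (by linarith)
      (by linarith) (by linarith) (by linarith) (by linarith) (by linarith) (by linarith)
      (by linarith) (by linarith) (by linarith) (by linarith)
  · exact L0b_23 u1.unit u2.unit H (by linarith) (by linarith) (by linarith) (by linarith)
      (by linarith) (by linarith) (by linarith) (by linarith) (by linarith) (by linarith)
      (by linarith) (by linarith) (by linarith) (by linarith)
  · exact L0b_21 u1.unit u2.unit H (by linarith) (by linarith) (by linarith) (by linarith)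
      (by linarith) (by linarith) (by linarith) (by linarith) (by linarith) (by linarith)
      (by linarith) (by linarith) (by linarith) (by linarith)
  · exact L0b_22 u1.unit u2.unit H (by linarith) (by linarith) (by linarith) (by linarith)
      (by linarith) (by linarith) (by linarith) (by linarith) (by linarith) (by linarith)
      (by linarith) (by linarith) (by linarith) (by linarith)

theorem L2a (u1 : U c1 s1 w1) (u2 : U c2 s2 w2) (H : SS X Y c1 s1 c2 s2) (x0 : 0 ≤ X)
    (dx : X + w1 + w2 < 6) (y0 : -2 ≤ Y) (y1 : Y ≤ 2) : c1 - s1 < -1/5 := by
  by_contra hn
  rw [not_lt] at hn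
  have := u1.p; have := u1.q; have := u1.r; have := u1.t; have := u1.one_le
  have := u2.p; have := u2.q; have := u2.r; have := u2.t; have := u2.one_le
  rcases le_total 0 c1 with e1 | e1 <;> rcases le_total 0 s1 with e2 | e2 <;>
    rcases le_total 0 c2 with e3 | e3 <;> rcases le_total 0 s2 with e4 | e4
  · exact L2a_00 u1.unit u2.unit H (by linarith) (by linarith) (by linarith) (by linarith)
      (by linarith) (by linarith) (by linarith) (by linarith) (by linarith) (by linarith)
  · exact L2a_03 u1.unit u2.unit H (by linarith) (by linarith) (by linarith) (by linarith)
      (by linarith) (by linarith) (by linarith) (by linarith) (by linarith) (by linarith)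
  · exact L2a_01 u1.unit u2.unit H (by linarith) (by linarith) (by linarith) (by linarith)
      (by linarith) (by linarith) (by linarith) (by linarith) (by linarith) (by linarith)
  · exact L2a_02 u1.unit u2.unit H (by linarith) (by linarith) (by linarith) (by linarith)
      (by linarith) (by linarith) (by linarith) (by linarith) (by linarith) (by linarith)
  · exact L2a_30 u1.unit u2.unit H (by linarith) (by linarith) (by linarith) (by linarith)
      (by linarith) (by linarith) (by linarith) (by linarith) (by linarith) (by linarith)
  · exact L2a_33 u1.unit u2.unit H (by linarith) (by linarith) (by linarith) (by linarith)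
      (by linarith) (by linarith) (by linarith) (by linarith) (by linarith) (by linarith)
  · exact L2a_31 u1.unit u2.unit H (by linarith) (by linarith) (by linarith) (by linarith)
      (by linarith) (by linarith) (by linarith) (by linarith) (by linarith) (by linarith)
  · exact L2a_32 u1.unit u2.unit H (by linarith) (by linarith) (by linarith) (by linarith)
      (by linarith) (by linarith) (by linarith) (by linarith) (by linarith) (by linarith)
  · exact L2a_10 u1.unit u2.unit H (by linarith) (by linarith) (by linarith) (by linarith)
      (by linarith) (by linarith) (by linarith) (by linarith) (by linarith) (by linarith)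
  · exact L2a_13 u1.unit u2.unit H (by linarith) (by linarith) (by linarith) (by linarith)
      (by linarith) (by linarith) (by linarith) (by linarith) (by linarith) (by linarith)
  · exact L2a_11 u1.unit u2.unit H (by linarith) (by linarith) (by linarith) (by linarith)
      (by linarith) (by linarith) (by linarith) (by linarith) (by linarith) (by linarith)
  · exact L2a_12 u1.unit u2.unit H (by linarith) (by linarith) (by linarith) (by linarith)
      (by linarith) (by linarith) (by linarith) (by linarith) (by linarith) (by linarith)
  · exact L2a_20 u1.unit u2.unit H (by linarith) (by linarith) (by linarith) (by linarith)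
      (by linarith) (by linarith) (by linarith) (by linarith) (by linarith) (by linarith)
  · exact L2a_23 u1.unit u2.unit H (by linarith) (by linarith) (by linarith) (by linarith)
      (by linarith) (by linarith) (by linarith) (by linarith) (by linarith) (by linarith)
  · exact L2a_21 u1.unit u2.unit H (by linarith) (by linarith) (by linarith) (by linarith)
      (by linarith) (by linarith) (by linarith) (by linarith) (by linarith) (by linarith)
  · exact L2a_22 u1.unit u2.unit H (by linarith) (by linarith) (by linarith) (by linarith)
      (by linarith) (by linarith) (by linarith) (by linarith) (by linarith) (by linarith)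

theorem L2b (u1 : U c1 s1 w1) (u2 : U c2 s2 w2) (H : SS X Y c1 s1 c2 s2) (x0 : 0 ≤ X)
    (dx : X + w1 + w2 < 6) (y0 : -2 ≤ Y) (y1 : Y ≤ 2) :
    c1 - s1 < -1/5 ∧ c2 - s2 < -1/5 ∧ 1/4 < c1*c2 + s1*s2 := by
  have ha := L2a u1 u2 H x0 dx y0 y1
  have hb := L2a u2 u1 H.swap x0 (by linarith) y0 y1
  refine ⟨ha, hb, ?_⟩
  by_contra hn
  rw [not_lt] at hn
  have := u1.p; have := u1.q; have := u1.r; have := u1.t; have := u1.one_le
  have := u2.p; have := u2.q; have := u2.r; have := u2.t; have := u2.one_le
  rcases le_total 0 c1 with e1 | e1 <;> rcases le_total 0 s1 with e2 | e2 <;>
    rcases le_total 0 c2 with e3 | e3 <;> rcases le_total 0 s2 with e4 | e4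
  · exact L2b_00 u1.unit u2.unit H (by linarith) (by linarith) (by linarith) (by linarith)
      (by linarith) (by linarith) (by linarith) (by linarith) (by linarith) (by linarith)
      (by linarith) (by linarith)
  · exact L2b_03 u1.unit u2.unit H (by linarith) (by linarith) (by linarith) (by linarith)
      (by linarith) (by linarith) (by linarith) (by linarith) (by linarith) (by linarith)
      (by linarith) (by linarith)
  · exact L2b_01 u1.unit u2.unit H (by linarith) (by linarith) (by linarith) (by linarith)
      (by linarith) (by linarith) (by linarith) (by linarith) (by linarith) (by linarith)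
      (by linarith) (by linarith)
  · exact L2b_02 u1.unit u2.unit H (by linarith) (by linarith) (by linarith) (by linarith)
      (by linarith) (by linarith) (by linarith) (by linarith) (by linarith) (by linarith)
      (by linarith) (by linarith)
  · exact L2b_30 u1.unit u2.unit H (by linarith) (by linarith) (by linarith) (by linarith)
      (by linarith) (by linarith) (by linarith) (by linarith) (by linarith) (by linarith)
      (by linarith) (by linarith)
  · exact L2b_33 u1.unit u2.unit H (by linarith) (by linarith) (by linarith) (by linarith)
      (by linarith) (by linarith) (by linarith) (by linarith) (by linarith) (by linarith)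
      (by linarith) (by linarith)
  · exact L2b_31 u1.unit u2.unit H (by linarith) (by linarith) (by linarith) (by linarith)
      (by linarith) (by linarith) (by linarith) (by linarith) (by linarith) (by linarith)
      (by linarith) (by linarith)
  · exact L2b_32 u1.unit u2.unit H (by linarith) (by linarith) (by linarith) (by linarith)
      (by linarith) (by linarith) (by linarith) (by linarith) (by linarith) (by linarith)
      (by linarith) (by linarith)
  · exact L2b_10 u1.unit u2.unit H (by linarith) (by linarith) (by linarith) (by linarith)
      (by linarith) (by linarith) (by linarith) (by linarith) (by linarith) (by linarith)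
      (by linarith) (by linarith)
  · exact L2b_13 u1.unit u2.unit H (by linarith) (by linarith) (by linarith) (by linarith)
      (by linarith) (by linarith) (by linarith) (by linarith) (by linarith) (by linarith)
      (by linarith) (by linarith)
  · exact L2b_11 u1.unit u2.unit H (by linarith) (by linarith) (by linarith) (by linarith)
      (by linarith) (by linarith) (by linarith) (by linarith) (by linarith) (by linarith)
      (by linarith) (by linarith)
  · exact L2b_12 u1.unit u2.unit H (by linarith) (by linarith) (by linarith) (by linarith)
      (by linarith) (by linarith) (by linarith) (by linarith) (by linarith) (by linarith)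
      (by linarith) (by linarith)
  · exact L2b_20 u1.unit u2.unit H (by linarith) (by linarith) (by linarith) (by linarith)
      (by linarith) (by linarith) (by linarith) (by linarith) (by linarith) (by linarith)
      (by linarith) (by linarith)
  · exact L2b_23 u1.unit u2.unit H (by linarith) (by linarith) (by linarith) (by linarith)
      (by linarith) (by linarith) (by linarith) (by linarith) (by linarith) (by linarith)
      (by linarith) (by linarith)
  · exact L2b_21 u1.unit u2.unit H (by linarith) (by linarith) (by linarith) (by linarith)
      (by linarith) (by linarith) (by linarith) (by linarith) (by linarith) (by linarith)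
      (by linarith) (by linarith)
  · exact L2b_22 u1.unit u2.unit H (by linarith) (by linarith) (by linarith) (by linarith)
      (by linarith) (by linarith) (by linarith) (by linarith) (by linarith) (by linarith)
      (by linarith) (by linarith)

theorem L3a (u1 : U c1 s1 w1) (u2 : U c2 s2 w2) (H : SS X (-Y) c1 s1 c2 s2) (x0 : 0 ≤ X)
    (y0 : 0 ≤ Y) (dx : X + w1 + w2 < 6) (dy : Y + w1 + w2 < 6) : -13/25 < c1*c2 + s1*s2 := by
  by_contra hn
  rw [not_lt] at hn
  have := u1.p; have := u1.q; have := u1.r; have := u1.t; have := u1.one_le
  have := u2.p; have := u2.q; have := u2.r; have := u2.t; have := u2.one_le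
  rcases le_total 0 c1 with e1 | e1 <;> rcases le_total 0 s1 with e2 | e2 <;>
    rcases le_total 0 c2 with e3 | e3 <;> rcases le_total 0 s2 with e4 | e4
  · exact L3_00 u1.unit u2.unit H (by linarith) (by linarith) (by linarith) (by linarith)
      (by linarith) (by linarith) (by linarith) (by linarith) (by linarith) (by linarith)
      (by linarith)
  · exact L3_03 u1.unit u2.unit H (by linarith) (by linarith) (by linarith) (by linarith)
      (by linarith) (by linarith) (by linarith) (by linarith) (by linarith) (by linarith)
      (by linarith)
  · exact L3_01 u1.unit u2.unit H (by linarith) (by linarith) (by linarith) (by linarith)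
      (by linarith) (by linarith) (by linarith) (by linarith) (by linarith) (by linarith)
      (by linarith)
  · exact L3_02 u1.unit u2.unit H (by linarith) (by linarith) (by linarith) (by linarith)
      (by linarith) (by linarith) (by linarith) (by linarith) (by linarith) (by linarith)
      (by linarith)
  · exact L3_30 u1.unit u2.unit H (by linarith) (by linarith) (by linarith) (by linarith)
      (by linarith) (by linarith) (by linarith) (by linarith) (by linarith) (by linarith)
      (by linarith)
  · exact L3_33 u1.unit u2.unit H (by linarith) (by linarith) (by linarith) (by linarith)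
      (by linarith) (by linarith) (by linarith) (by linarith) (by linarith) (by linarith)
      (by linarith)
  · exact L3_31 u1.unit u2.unit H (by linarith) (by linarith) (by linarith) (by linarith)
      (by linarith) (by linarith) (by linarith) (by linarith) (by linarith) (by linarith)
      (by linarith)
  · exact L3_32 u1.unit u2.unit H (by linarith) (by linarith) (by linarith) (by linarith)
      (by linarith) (by linarith) (by linarith) (by linarith) (by linarith) (by linarith)
      (by linarith)
  · exact L3_10 u1.unit u2.unit H (by linarith) (by linarith) (by linarith) (by linarith)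
      (by linarith) (by linarith) (by linarith) (by linarith) (by linarith) (by linarith)
      (by linarith)
  · exact L3_13 u1.unit u2.unit H (by linarith) (by linarith) (by linarith) (by linarith)
      (by linarith) (by linarith) (by linarith) (by linarith) (by linarith) (by linarith)
      (by linarith)
  · exact L3_11 u1.unit u2.unit H (by linarith) (by linarith) (by linarith) (by linarith)
      (by linarith) (by linarith) (by linarith) (by linarith) (by linarith) (by linarith)
      (by linarith)
  · exact L3_12 u1.unit u2.unit H (by linarith) (by linarith) (by linarith) (by linarith)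
      (by linarith) (by linarith) (by linarith) (by linarith) (by linarith) (by linarith)
      (by linarith)
  · exact L3_20 u1.unit u2.unit H (by linarith) (by linarith) (by linarith) (by linarith)
      (by linarith) (by linarith) (by linarith) (by linarith) (by linarith) (by linarith)
      (by linarith)
  · exact L3_23 u1.unit u2.unit H (by linarith) (by linarith) (by linarith) (by linarith)
      (by linarith) (by linarith) (by linarith) (by linarith) (by linarith) (by linarith)
      (by linarith)
  · exact L3_21 u1.unit u2.unit H (by linarith) (by linarith) (by linarith) (by linarith)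
      (by linarith) (by linarith) (by linarith) (by linarith) (by linarith) (by linarith)
      (by linarith)
  · exact L3_22 u1.unit u2.unit H (by linarith) (by linarith) (by linarith) (by linarith)
      (by linarith) (by linarith) (by linarith) (by linarith) (by linarith) (by linarith)
      (by linarith)

theorem SS.far (H : SS X Y c1 s1 c2 s2) : 8 ≤ X^2 + Y^2 := by
  have := H 0 0 0 0 (by simp) (by simp) (by simp) (by simp)
  linarith

theorem WB.far_aux (H : WB X Y c1 s1 c2 s2) {a1 a2 : ℝ} (h1 : |a1| ≤ 1) (h2 : |a2| ≤ 1)
    (e1 : (c1 + c2) * a1 = (s1 - s2) * a2) (e2 : (s1 + s2) * a1 = (c2 - c1) * a2) :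
    4 * (1 + a1)^2 + 4 * a2^2 ≤ X^2 + Y^2 := by
  have := H a1 a2 (-a1) (-a2) h1 h2 (by simpa using h1) (by simpa using h2)
  have f1 : -X + c1*a1 - s1*a2 - c2*(-a1) - s2*(-a2) = -X := by linarith
  have f2 : Y + s1*a1 + c1*a2 - s2*(-a1) + c2*(-a2) = Y := by linarith
  rw [f1, f2] at this
  linarith

theorem WB.far (H : WB X Y c1 s1 c2 s2) (h1 : c1^2 + s1^2 = 1) (h2 : c2^2 + s2^2 = 1) :
    8 ≤ X^2 + Y^2 := by
  set p := c1*c2 + s1*s2 with hp
  set q := s1*c2 - c1*s2 with hq
  have hpq : p^2 + q^2 = 1 := by
    rw [hp, hq]; linear_combination (c2^2 + s2^2) * h1 + h2
  rcases le_total 0 p with h | h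
  · have hd : 0 < 1 + p := by linarith
    have ht : |q / (1 + p)| ≤ 1 := by
      rw [abs_div, abs_of_pos hd, div_le_one hd]
      exact abs_le_of_sq_le_sq' (by nlinarith) hd.le |> abs_le.2
    have e1 : (c1 + c2) * (q / (1 + p)) = (s1 - s2) * 1 := by
      field_simp
      rw [hp, hq]; linear_combination (-s2) * h1 + s1 * h2
    have e2 : (s1 + s2) * (q / (1 + p)) = (c2 - c1) * 1 := by
      field_simp
      rw [hp, hq]; linear_combination c2 * h1 - c1 * h2
    rcases le_total 0 (q / (1 + p)) with g | g
    · have := H.far_aux ht (by simp) e1 e2
      nlinarith
    · have := H.far_aux (a1 := -(q / (1 + p))) (a2 := -1) (by rwa [abs_neg]) (by simp)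
        (by linarith) (by linarith)
      nlinarith
  · have hd : 0 < 1 - p := by linarith
    have ht : |q / (1 - p)| ≤ 1 := by
      rw [abs_div, abs_of_pos hd, div_le_one hd]
      exact abs_le_of_sq_le_sq' (by nlinarith) hd.le |> abs_le.2
    have e1 : (c1 + c2) * 1 = (s1 - s2) * (q / (1 - p)) := by
      field_simp
      rw [hp, hq]; linear_combination (-c2) * h1 - c1 * h2
    have e2 : (s1 + s2) * 1 = (c2 - c1) * (q / (1 - p)) := by
      field_simp
      rw [hp, hq]; linear_combination (-s2) * h1 - s1 * h2
    have := H.far_aux (by simp) ht e1 e2
    nlinarith [sq_nonneg (q / (1 - p))]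

end Pool.Agent.MP_3b5bbf_co.S
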