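import Pool.Agent.Mg.F3b5bbfq.G168644
import Pool.Agent.MP_3b5bbf_co.S.Defs

set_option linter.all false

section

/-! From the discrete model to flat folded states. -/

set_option linter.unusedSimpArgs false

namespace Pool.Agent.MP_3b5bbf_co

open Set

theorem exists_aff (s : ℝ) {φ : V → V} {c : Cell} (hc : Good φ c) :
    ∃ A : ℂ →ᵃ[ℝ] ℂ, (∀ z w, dist (A z) (A w) = dist z w) ∧
      ∀ i, A (vv s (fun v => v) c i) = vv s φ c i := by
  obtain ⟨⟨-, -, g1, g2, -⟩, g3, g4⟩ := good_id c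
  dsimp only at g1 g2 g3 g4
  obtain ⟨-, -, c1, c2, c3⟩ := hc
  -- integer entries of the linear part
  obtain ⟨m11, m12, m21, m22, o1, o2, o3, e1, e2, e3, e4⟩ : ∃ m11 m12 m21 m22 : ℤ,
      m11 * m11 + m21 * m21 = 1 ∧ m12 * m12 + m22 * m22 = 1 ∧ m11 * m12 + m21 * m22 = 0 ∧
      m11 * (c.p.1 - c.o.1) + m12 * (c.p.2 - c.o.2) = (φ c.p).1 - (φ c.o).1 ∧
      m21 * (c.p.1 - c.o.1) + m22 * (c.p.2 - c.o.2) = (φ c.p).2 - (φ c.o).2 ∧
      m11 * (c.q.1 - c.o.1) + m12 * (c.q.2 - c.o.2) = (φ c.q).1 - (φ c.o).1 ∧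
      m21 * (c.q.1 - c.o.1) + m22 * (c.q.2 - c.o.2) = (φ c.q).2 - (φ c.o).2 := by
    unfold White Black at c3
    rcases g1 with g1 | g1 <;> rcases g2 with g2 | g2 <;> rcases c1 with c1 | c1 <;>
      rcases c2 with c2 | c2 <;> rcases c3 with c3 | c3 <;>
    first
      | exact ⟨1, 0, 0, 1, rfl, rfl, rfl, by omega, by omega, by omega, by omega⟩
      | exact ⟨-1, 0, 0, -1, rfl, rfl, rfl, by omega, by omega, by omega, by omega⟩
      | exact ⟨0, 1, -1, 0, rfl, rfl, rfl, by omega, by omega, by omega, by omega⟩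
      | exact ⟨0, -1, 1, 0, rfl, rfl, rfl, by omega, by omega, by omega, by omega⟩
      | exact ⟨1, 0, 0, -1, rfl, rfl, rfl, by omega, by omega, by omega, by omega⟩
      | exact ⟨-1, 0, 0, 1, rfl, rfl, rfl, by omega, by omega, by omega, by omega⟩
      | exact ⟨0, 1, 1, 0, rfl, rfl, rfl, by omega, by omega, by omega, by omega⟩
      | exact ⟨0, -1, -1, 0, rfl, rfl, rfl, by omega, by omega, by omega, by omega⟩
  have o1' : (m11 : ℝ) * m11 + m21 * m21 = 1 := by exact_mod_cast o1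
  have o2' : (m12 : ℝ) * m12 + m22 * m22 = 1 := by exact_mod_cast o2
  have o3' : (m11 : ℝ) * m12 + m21 * m22 = 0 := by exact_mod_cast o3
  have e1' := congrArg (Int.cast : ℤ → ℝ) e1
  have e2' := congrArg (Int.cast : ℤ → ℝ) e2
  have e3' := congrArg (Int.cast : ℤ → ℝ) e3
  have e4' := congrArg (Int.cast : ℤ → ℝ) e4
  push_cast at e1' e2' e3' e4'
  let L : ℂ →ₗ[ℝ] ℂ :=
    { toFun := fun z => ⟨m11 * z.re + m12 * z.im, m21 * z.re + m22 * z.im⟩
      map_add' := fun z w => by apply Complex.ext <;> simp <;> ring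
      map_smul' := fun a z => by apply Complex.ext <;> simp <;> ring }
  refine ⟨L.toAffineMap + AffineMap.const ℝ ℂ (emb s (φ c.o) - L (emb s c.o)), fun z w => ?_,
    fun i => ?_⟩
  · simp only [AffineMap.coe_add, Pi.add_apply, LinearMap.coe_toAffineMap, AffineMap.const_apply,
      dist_add_right]
    rw [Complex.dist_eq, Complex.dist_eq, ← map_sub, Complex.norm_def, Complex.norm_def]
    congr 1
    simp only [Complex.normSq_apply, L, LinearMap.coe_mk, AddHom.coe_mk]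
    linear_combination (z - w).re * (z - w).re * o1' + (z - w).im * (z - w).im * o2' +
      2 * (z - w).re * (z - w).im * o3'
  · simp only [AffineMap.coe_add, Pi.add_apply, LinearMap.coe_toAffineMap, AffineMap.const_apply]
    fin_cases i
    · simp [vv, lv]
    · apply Complex.ext <;> simp [vv, lv, L, emb]
      · linear_combination s * e1'
      · linear_combination s * e2'
    · apply Complex.ext <;> simp [vv, lv, L, emb]
      · linear_combination s * e3'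
      · linear_combination s * e4'

theorem convex_square (c : ℝ) : Convex ℝ (square c) := by
  intro x hx y hy a b ha hb hab
  obtain ⟨x1, x2, x3, x4⟩ := hx
  obtain ⟨y1, y2, y3, y4⟩ := hy
  have hc : c = a * c + b * c := by rw [← add_mul, hab, one_mul]
  refine ⟨?_, ?_, ?_, ?_⟩ <;> simp only [Complex.add_re, Complex.add_im, Complex.smul_re,
    Complex.smul_im, smul_eq_mul] <;> nlinarith

theorem tri_sub {s : ℝ} (hs : 0 < s) {M : ℤ} {φ : V → V} {c : Cell} (hc : Good φ c)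
    (hb : Box 0 (2 * M) 0 (2 * M) (φ c.o)) : tri (vv s φ c) ⊆ square (2 * M * s) := by
  refine convexHull_min ?_ (convex_square _)
  rintro _ ⟨j, rfl⟩
  have u := hc.bounds j
  have c1 := hc.1
  have c2 := hc.2.1
  unfold Box at hb
  have a1 : (0 : ℝ) ≤ (lv φ c j).1 := by exact_mod_cast (by omega : 0 ≤ (lv φ c j).1)
  have a2 : ((lv φ c j).1 : ℝ) ≤ 2 * M := by exact_mod_cast (by omega : (lv φ c j).1 ≤ 2 * M)
  have a3 : (0 : ℝ) ≤ (lv φ c j).2 := by exact_mod_cast (by omega : 0 ≤ (lv φ c j).2)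
  have a4 : ((lv φ c j).2 : ℝ) ≤ 2 * M := by exact_mod_cast (by omega : (lv φ c j).2 ≤ 2 * M)
  refine ⟨?_, ?_, ?_, ?_⟩ <;> simp only [vv, emb] <;> nlinarith

theorem exists_int {M : ℤ} (hM : 0 < M) {t : ℝ} (h0 : 0 ≤ t) (h1 : t ≤ 2 * M) :
    ∃ x : ℤ, 0 ≤ x ∧ x < M ∧ 2 * x ≤ t ∧ t ≤ 2 * x + 2 := by
  by_cases h : t < 2 * M
  · refine ⟨⌊t / 2⌋, Int.floor_nonneg.2 (by linarith), Int.floor_lt.2 (by linarith), ?_, ?_⟩
    · have := Int.floor_le (t / 2); linarith
    · have := Int.lt_floor_add_one (t / 2); linarith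
  · have : (1 : ℝ) ≤ M := by exact_mod_cast hM
    exact ⟨M - 1, by omega, by omega, by push_cast; linarith, by push_cast; linarith⟩

theorem cover_sq {s : ℝ} (hs : 0 < s) {M : ℤ} (hM : 0 < M) {z : ℂ} (hz : z ∈ square (2 * M * s)) :
    ∃ c, Rect 0 M 0 M c ∧ z ∈ tri (vv s (fun v => v) c) := by
  obtain ⟨z1, z2, z3, z4⟩ := hz
  obtain ⟨x, x1, x2, x3, x4⟩ := exists_int hM (t := z.re / s) (by positivity)
    (by rwa [div_le_iff₀ hs])
  obtain ⟨y, y1, y2, y3, y4⟩ := exists_int hM (t := z.im / s) (by positivity)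
    (by rwa [div_le_iff₀ hs])
  have e1 : z.re = z.re / s * s := by field_simp
  have e2 : z.im = z.im / s * s := by field_simp
  generalize z.re / s = t1 at *
  generalize z.im / s = t2 at *
  obtain ⟨u, rfl⟩ : ∃ u, t1 = 2 * x + 1 + u := ⟨t1 - (2 * x + 1), by ring⟩
  obtain ⟨w, rfl⟩ : ∃ w, t2 = 2 * y + 1 + w := ⟨t2 - (2 * y + 1), by ring⟩
  have key : ∀ (d : Dir) (l : Fin 3 → ℝ), (0 ≤ l 0 ∧ 0 ≤ l 1 ∧ 0 ≤ l 2) → l 0 + l 1 + l 2 = 1 →
      ∑ i, l i • vv s (fun v => v) ⟨x, y, d⟩ i = z →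
      ∃ c, Rect 0 M 0 M c ∧ z ∈ tri (vv s (fun v => v) c) := fun d l h1 h2 h3 =>
    ⟨⟨x, y, d⟩, ⟨x1, x2, y1, y2⟩, mem_tri.2 ⟨l, fun i => by fin_cases i <;> simp [h1],
      by rw [Fin.sum_univ_three, h2], h3⟩⟩
  rcases le_total u w with a | a <;> rcases le_total u (-w) with b | b
  · refine key .w ![1 + u, (w - u) / 2, (-u - w) / 2] (by simp; refine ⟨?_, ?_, ?_⟩ <;> linarith)
      (by simp; ring) ?_
    apply Complex.ext <;> simp [Fin.sum_univ_three, vv, lv, emb, Cell.o, Cell.p, Cell.q, e1, e2] <;>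
      ring
  · refine key .n ![1 - w, (u + w) / 2, (w - u) / 2] (by simp; refine ⟨?_, ?_, ?_⟩ <;> linarith)
      (by simp; ring) ?_
    apply Complex.ext <;> simp [Fin.sum_univ_three, vv, lv, emb, Cell.o, Cell.p, Cell.q, e1, e2] <;>
      ring
  · refine key .s ![1 + w, (-u - w) / 2, (u - w) / 2] (by simp; refine ⟨?_, ?_, ?_⟩ <;> linarith)
      (by simp; ring) ?_
    apply Complex.ext <;> simp [Fin.sum_univ_three, vv, lv, emb, Cell.o, Cell.p, Cell.q, e1, e2] <;>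
      ring
  · refine key .e ![1 - u, (u - w) / 2, (u + w) / 2] (by simp; refine ⟨?_, ?_, ?_⟩ <;> linarith)
      (by simp; ring) ?_
    apply Complex.ext <;> simp [Fin.sum_univ_three, vv, lv, emb, Cell.o, Cell.p, Cell.q, e1, e2] <;>
      ring

theorem tri_box {s : ℝ} (hs : 0 < s) {φ : V → V} {c : Cell} (hc : Good φ c) {z : ℂ}
    (hz : z ∈ tri (vv s φ c)) : ((φ c.o).1 - 1) * s ≤ z.re ∧ z.re ≤ ((φ c.o).1 + 1) * s ∧
      ((φ c.o).2 - 1) * s ≤ z.im ∧ z.im ≤ ((φ c.o).2 + 1) * s := by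
  refine convexHull_min (t := {z : ℂ | ((φ c.o).1 - 1) * s ≤ z.re ∧ z.re ≤ ((φ c.o).1 + 1) * s ∧
      ((φ c.o).2 - 1) * s ≤ z.im ∧ z.im ≤ ((φ c.o).2 + 1) * s}) ?_ ?_ hz
  · rintro _ ⟨j, rfl⟩
    obtain ⟨u1, u2, u3, u4⟩ := hc.bounds j
    refine ⟨?_, ?_, ?_, ?_⟩ <;> simp only [vv, emb] <;>
      refine mul_le_mul_of_nonneg_right ?_ hs.le <;> assumption_mod_cast
  · intro x hx y hy a b ha hb hab
    obtain ⟨x1, x2, x3, x4⟩ := hx
    obtain ⟨y1, y2, y3, y4⟩ := hy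
    obtain rfl : b = 1 - a := by linarith
    refine ⟨?_, ?_, ?_, ?_⟩ <;> simp only [Complex.add_re, Complex.add_im, Complex.smul_re,
      Complex.smul_im, smul_eq_mul] <;> nlinarith

theorem Good.isKey {φ : V → V} {c : Cell} (hc : Good φ c) : IsKey (K φ c) := by
  obtain ⟨c1, c2, c3⟩ := hc.pq
  obtain ⟨c4, c5, c6, c7, -⟩ := hc
  simp only [IsKey, K, Prod.fst_add, Prod.snd_add]
  omega

theorem rect_finite (N : ℤ) : Finite {c // Rect 0 N 0 N c} := by
  have : Finite Dir := Finite.of_surjective (f := fun i : Fin 4 => (![Dir.s, Dir.e, Dir.n, Dir.w] i))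
    (fun d => by cases d; exacts [⟨0, rfl⟩, ⟨1, rfl⟩, ⟨2, rfl⟩, ⟨3, rfl⟩])
  refine Finite.of_injective (β := Set.Ico (0 : ℤ) N × Set.Ico (0 : ℤ) N × Dir)
    (fun c => (⟨c.1.x, c.2.1, c.2.2.1⟩, ⟨c.1.y, c.2.2.2.1, c.2.2.2.2⟩, c.1.d)) ?_
  intro c b e
  simp only [Prod.mk.injEq, Subtype.mk.injEq] at e
  exact Subtype.ext (Cell.ext e.1 e.2.1 e.2.2)

theorem bridge {N : ℤ} (hN : 0 < N) {k : ℕ} (hk : 0 < k)
    (bd : Board (Rect 0 N 0 N) (Box 0 (10 * k) 0 (10 * k))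
      (fun v => (v.1 / 10 + v.2 / 10) % 2 = 0)) :
    ∃ F : FlatFolding, F.Checkerboard k (5 * k / N) := by
  classical
  obtain ⟨H, _, φ, h, hv, hf, ht⟩ := bd
  set R := Rect 0 N 0 N with hR
  have := rect_finite N
  obtain ⟨n, ⟨eqv⟩⟩ := Finite.exists_equiv_fin {c // R c}
  let cell : Fin n → Cell := fun i => (eqv.symm i).1
  have cm : ∀ i, R (cell i) := fun i => (eqv.symm i).2
  have ci : ∀ i j, cell i = cell j → i = j := fun i j e => eqv.symm.injective (Subtype.ext e)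
  have cs : ∀ c, R c → ∃ i, cell i = c := fun c hc => ⟨eqv ⟨c, hc⟩, by simp [cell]⟩
  have gd : ∀ i, Good φ (cell i) := fun i => hv.good _ (cm i)
  have N0 : (0 : ℝ) < N := by exact_mod_cast hN
  set s : ℝ := 1 / (2 * N) with hs'
  have hs : 0 < s := by positivity
  have s1 : 2 * (N : ℝ) * s = 1 := by rw [hs']; field_simp
  let v : Fin n → Fin 3 → ℂ := fun i => vv s (fun v => v) (cell i)
  choose A A1 A2 using fun i => exists_aff s (gd i)
  let f : ℂ → ℂ := fun z => if hz : ∃ i, z ∈ tri (v i) then A hz.choose z else 0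
  have meet : ∀ i j, tri (v i) ∩ tri (v j) ⊆ convexHull ℝ (range (v i) ∩ range (v j)) :=
    fun i j => tri_meet hs (good_id _).1 (good_id _).1
  have fA : ∀ i, ∀ z ∈ tri (v i), f z = A i z := by
    intro i z hz
    have ex : ∃ i, z ∈ tri (v i) := ⟨i, hz⟩
    simp only [f]
    rw [dif_pos ex]
    have m := meet _ _ ⟨ex.choose_spec, hz⟩
    generalize ex.choose = j at m
    have cv : Convex ℝ ((A j - A i) ⁻¹' {0}) := (convex_singleton 0).affine_preimage _
    have := convexHull_min (t := (A j - A i) ⁻¹' {0}) ?_ cv m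
    · simpa [sub_eq_zero] using this
    · rintro _ ⟨⟨a, rfl⟩, b, hb⟩
      have e : lv (fun v => v) (cell i) b = lv (fun v => v) (cell j) a := emb_inj hs hb
      have e1 : A i (v j a) = vv s φ (cell i) b := by rw [← hb]; exact A2 i b
      have e2 : lv φ (cell i) b = lv φ (cell j) a := by
        have : ∀ c t, lv φ c t = φ (lv (fun v => v) c t) := fun c t => by fin_cases t <;> rfl
        rw [this, this, e]
      simp only [mem_preimage, AffineMap.coe_sub, Pi.sub_apply, mem_singleton_iff, sub_eq_zero]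
      rw [e1, A2 j a]
      simp only [vv, e2]
  have fv : ∀ i t, f (v i t) = vv s φ (cell i) t := fun i t => by
    rw [fA i _ (subset_convexHull ℝ _ ⟨t, rfl⟩), A2]
  have fr : ∀ i, f '' range (v i) = range (vv s φ (cell i)) := fun i => by
    rw [← range_comp]; congr 1; funext t; exact fv i t
  have ft : ∀ i, f '' tri (v i) = tri (vv s φ (cell i)) := fun i => by
    rw [image_congr (fA i)]
    unfold tri
    rw [AffineMap.image_convexHull, ← range_comp]
    congr 2; funext t; exact A2 i t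
  have kk : ∀ i j, f '' tri (v i) = f '' tri (v j) ↔ K φ (cell i) = K φ (cell j) := fun i j => by
    rw [ft, ft, tri_eq_iff hs (gd i) (gd j)]
  have cover : ⋃ i, tri (v i) = square 1 := by
    rw [← s1]
    refine Subset.antisymm (iUnion_subset fun i => tri_sub hs (good_id _).1 ?_) fun z hz => ?_
    · have := (vert_bounds (cm i)).1
      unfold Box; omega
    · obtain ⟨c, hc, hz⟩ := cover_sq hs hN hz
      obtain ⟨i, rfl⟩ := cs c hc
      exact mem_iUnion.2 ⟨i, hz⟩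
  have edge : ∀ i i' j j' a b c d, i ≠ i' → j ≠ j' → a ≠ b →
      a ∈ range (v i) ∩ range (v i') → b ∈ range (v i) ∩ range (v i') →
      c ∈ range (v j) ∩ range (v j') → d ∈ range (v j) ∩ range (v j') → f c = f a → f d = f b →
      ∃ e e', cell i' = (cell i).nb e ∧ cell j' = (cell j).nb e' ∧
        eps φ (cell i) e = eps φ (cell j) e' := by
    intro i i' j j' a b c d n1 n2 n3 ha hb hc hd e1 e2
    have n4 : c ≠ d := by
      intro t
      have := A1 i a b
      rw [← fA i a (subset_convexHull ℝ _ ha.1), ← fA i b (subset_convexHull ℝ _ hb.1), ← e1, ← e2,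
        t, dist_self] at this
      exact n3 (dist_eq_zero.1 this.symm)
    obtain ⟨e, t1, t2, p1, rfl, rfl, p2⟩ := adj_of hs (fun t => n1 (ci _ _ t)) n3 ha hb
    obtain ⟨e', u1, u2, q1, rfl, rfl, q2⟩ := adj_of hs (fun t => n2 (ci _ _ t)) n4 hc hd
    refine ⟨e, e', p1, q1, ?_⟩
    rw [p2, q2, emb_inj hs ((fv j u1).symm.trans (e1.trans (fv i t1))),
      emb_inj hs ((fv j u2).symm.trans (e2.trans (fv i t2)))]
  have c5 : 5 * (k : ℝ) / N = 2 * ((5 * k : ℤ) : ℝ) * s := by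
    rw [hs']; push_cast; field_simp
  refine ⟨⟨n, v, f, fun i j => h (cell j) < h (cell i), fun i => ?_, cover, fun i j e => ?_, meet,
    fun i z hz w hw => by rw [fA i z hz, fA i w hw, A1], fun i j => ?_, fun i => lt_irrefl _,
    fun i j l _ _ a b => b.trans a, fun i j ne e => ?_, ?_, ?_⟩, ?_, ?_⟩
  · rw [(cross_vv s _ _).1 (good_id _).2 (good_id _).1]; positivity
  · apply ci
    apply K_id_inj
    rw [← tri_eq_iff hs (good_id _).1 (good_id _).1]
    exact congrArg (convexHull ℝ) e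
  · rw [ft, ft, fr, fr]
    exact tri_meet hs (gd i) (gd j)
  · rcases lt_trichotomy (h (cell i)) (h (cell j)) with l | l | l
    · exact Or.inr l
    · exact absurd (ci _ _ (hv.inj _ _ (cm i) (cm j) ((kk i j).1 e) l)) ne
    · exact Or.inl l
  · intro i i' j j' a b c d n1 n2 n3 ha hb hc hd e1 e2 k1 k2 l1 l2
    obtain ⟨e, e', p, q, he⟩ := edge i i' j j' a b c d n1 n2 n3 ha hb hc hd e1 e2
    rw [kk] at k1 k2 ⊢
    rw [p] at k1 l2 ⊢
    rw [q]
    exact hv.taco _ e _ e' (cm i) (p ▸ cm i') (cm j) (q ▸ cm j') he k1 k2 l1 l2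
  · intro i i' j j' a b c d n1 n2 n3 ha hb hc hd e1 e2 k1 k2 k3 l1
    obtain ⟨e, e', p, q, he⟩ := edge i i' j j' a b c d n1 n2 n3 ha hb hc hd e1 e2
    rw [Ne, kk] at k1
    rw [kk] at k2 k3
    rw [p] at k1 k3 ⊢
    rw [q] at k3 ⊢
    exact hv.tort _ e _ e' (cm i) (p ▸ cm i') (cm j) (q ▸ cm j') he k1 k2 k3 l1
  · change f '' square 1 = _
    rw [← cover, image_iUnion, c5]
    refine Subset.antisymm (iUnion_subset fun i => ?_) fun z hz => ?_
    · rw [ft]
      refine tri_sub hs (gd i) ?_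
      have := hf _ (cm i)
      unfold Box at *; omega
    · obtain ⟨c, hc, hz⟩ := cover_sq hs (by omega) hz
      obtain ⟨a, ha, ka, -⟩ := ht _ (good_id c).1.isKey (by
        have := (vert_bounds hc).1
        simp only [Box, K]; omega)
      obtain ⟨i, rfl⟩ := cs a ha
      refine mem_iUnion.2 ⟨i, ?_⟩
      rw [ft, (tri_eq_iff hs (gd i) (good_id c).1).2 ka]
      exact hz
  · intro i top a b z hz z1 z2 z3 z4
    change z ∈ f '' tri (v i) at hz
    change 0 < cross (f (v i 0)) (f (v i 1)) (f (v i 2)) ↔ _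
    obtain ⟨t, h1, kt, ext, w1, w2⟩ := ht _ (gd i).isKey (hf _ (cm i))
    obtain ⟨j, rfl⟩ := cs t h1
    have e : cell i = cell j := hv.inj _ _ (cm i) (cm j) kt.symm
      (le_antisymm (ext _ (cm i) rfl) (not_lt.1 (top j ((kk j i).2 kt))))
    rw [← e] at w1 w2
    rw [ft] at hz
    obtain ⟨b1, b2, b3, b4⟩ := tri_box hs (gd i) hz
    have k0 : (k : ℝ) ≠ 0 := by positivity
    have ck : 5 * (k : ℝ) / N / k = 10 * s := by rw [hs']; field_simp; ring
    rw [ck] at z1 z2 z3 z4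
    have y1 : (10 * a : ℤ) < (φ (cell i).o).1 + 1 := by
      have : (10 * a : ℝ) < (φ (cell i).o).1 + 1 := by nlinarith
      exact_mod_cast this
    have y2 : (φ (cell i).o).1 - 1 < (10 * a + 10 : ℤ) := by
      have : ((φ (cell i).o).1 - 1 : ℝ) < 10 * a + 10 := by nlinarith
      exact_mod_cast this
    have y3 : (10 * b : ℤ) < (φ (cell i).o).2 + 1 := by
      have : (10 * b : ℝ) < (φ (cell i).o).2 + 1 := by nlinarith
      exact_mod_cast this
    have y4 : (φ (cell i).o).2 - 1 < (10 * b + 10 : ℤ) := by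
      have : ((φ (cell i).o).2 - 1 : ℝ) < 10 * b + 10 := by nlinarith
      exact_mod_cast this
    have g1 := (gd i).1
    have g2 := (gd i).2.1
    rw [fv, fv, fv, Nat.even_iff]
    simp only [K] at w1 w2
    by_cases p : (a + b) % 2 = 0
    · rw [(cross_vv s _ _).1 (w1 (by omega)) (gd i)]
      exact ⟨fun _ => p, fun _ => by positivity⟩
    · rw [(cross_vv s _ _).2 (w2 (by omega)).1 (gd i)]
      exact ⟨fun t => absurd t (by have : 0 < 2 * s ^ 2 := by positivity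
                                   linarith), fun t => absurd t p⟩

end Pool.Agent.MP_3b5bbf_co

end

section

/-! An explicit folding of the 3 × 3 sheet in the discrete model. -/

set_option synthInstance.maxSize 4000

namespace Pool.Agent.MP_3b5bbf_co.S

def tab : List V :=
  [(0, 0), (0, 0), (2, 0), (0, 0), (4, 0), (0, 0), (2, 0),
   (0, 0), (1, 1), (0, 0), (3, 1), (0, 0), (3, 1), (0, 0),
   (0, 2), (0, 0), (2, 2), (0, 0), (4, 2), (0, 0), (2, 2),
   (0, 0), (1, 3), (0, 0), (3, 3), (0, 0), (3, 3), (0, 0),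
   (0, 4), (0, 0), (2, 4), (0, 0), (2, 2), (0, 0), (4, 2),
   (0, 0), (1, 3), (0, 0), (1, 3), (0, 0), (3, 3), (0, 0),
   (0, 2), (0, 0), (2, 2), (0, 0), (2, 4), (0, 0), (4, 4)]

def ph (v : V) : V := tab.getD (7 * v.2.toNat + v.1.toNat) (0, 0)

def dn : Dir → ℕ
  | .s => 0
  | .e => 1
  | .n => 2
  | .w => 3

def htab : List ℕ :=
  [0, 0, 0, 0, 0, 0, 0, 0, 1, 1, 1, 1, 0, 0, 0, 0, 0, 5, 1, 0, 1, 2, 3, 4, 1, 5, 1, 1, 1, 2, 3, 4,
   6, 0, 0, 2]

def ht (c : Cell) : ℕ := htab.getD (12 * c.y.toNat + 4 * c.x.toNat + dn c.d) 0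

def dir : Fin 4 → Dir := ![.s, .e, .n, .w]

def edg : Fin 3 → Ed := ![.g, .a, .b]

def mk (x y : Fin 3) (d : Fin 4) : Cell := ⟨(x : ℕ), (y : ℕ), dir d⟩

theorem ex_mk {N : ℤ} (hN : N ≤ 3) {c : Cell} (h : Rect 0 N 0 N c) :
    ∃ x y d, c = mk x y d := by
  obtain ⟨x, y, d⟩ := c
  obtain ⟨h1, h2, h3, h4⟩ := h
  dsimp only at h1 h2 h3 h4
  obtain ⟨t, rfl⟩ : ∃ t, d = dir t := by
    cases d; exacts [⟨0, rfl⟩, ⟨1, rfl⟩, ⟨2, rfl⟩, ⟨3, rfl⟩]
  refine ⟨⟨x.toNat, by omega⟩, ⟨y.toNat, by omega⟩, t, Cell.ext ?_ ?_ rfl⟩ <;> simp only [mk] <;>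
    omega

theorem ex_edg (e : Ed) : ∃ t, e = edg t := by
  cases e; exacts [⟨0, rfl⟩, ⟨1, rfl⟩, ⟨2, rfl⟩]

theorem t_good : ∀ x y d, Good ph (mk x y d) := by
  unfold Good White Black
  decide +kernel

theorem t_inj : ∀ x y d x' y' d', K ph (mk x y d) = K ph (mk x' y' d') →
    ht (mk x y d) = ht (mk x' y' d') → x = x' ∧ y = y' ∧ d = d' := by
  decide +kernel

theorem t_taco : ∀ x y d x' y' d', K ph (mk x' y' d') = K ph (mk x y d) →
    ht (mk x y d) < ht (mk x' y' d') → ∀ e e', Rect 0 3 0 3 ((mk x y d).nb (edg e)) →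
    Rect 0 3 0 3 ((mk x' y' d').nb (edg e')) →
    eps ph (mk x y d) (edg e) = eps ph (mk x' y' d') (edg e') →
    K ph ((mk x y d).nb (edg e)) = K ph (mk x y d) →
    ht (mk x' y' d') < ht ((mk x y d).nb (edg e)) →
    K ph ((mk x' y' d').nb (edg e')) = K ph (mk x y d) ∧
      ht (mk x y d) < ht ((mk x' y' d').nb (edg e')) ∧
      ht ((mk x' y' d').nb (edg e')) < ht ((mk x y d).nb (edg e)) := by
  unfold Rect
  decide +kernel

theorem t_tort : ∀ x y d x' y' d', K ph (mk x' y' d') = K ph (mk x y d) →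
    ht (mk x y d) < ht (mk x' y' d') → ∀ e e', Rect 0 3 0 3 ((mk x y d).nb (edg e)) →
    Rect 0 3 0 3 ((mk x' y' d').nb (edg e')) →
    eps ph (mk x y d) (edg e) = eps ph (mk x' y' d') (edg e') →
    K ph ((mk x y d).nb (edg e)) ≠ K ph (mk x y d) →
    K ph ((mk x' y' d').nb (edg e')) = K ph ((mk x y d).nb (edg e)) →
    ht ((mk x y d).nb (edg e)) < ht ((mk x' y' d').nb (edg e')) := by
  unfold Rect
  decide +kernel

theorem valid : Valid (Rect 0 3 0 3) ph ht where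
  good := fun c hc => by
    obtain ⟨x, y, d, rfl⟩ := ex_mk le_rfl hc
    exact t_good x y d
  inj := fun c b hc hb k h => by
    obtain ⟨x, y, d, rfl⟩ := ex_mk le_rfl hc
    obtain ⟨x', y', d', rfl⟩ := ex_mk le_rfl hb
    obtain ⟨rfl, rfl, rfl⟩ := t_inj _ _ _ _ _ _ k h
    rfl
  taco := fun c e b e' hc h2 hb h4 he k1 k2 l1 l2 => by
    obtain ⟨x, y, d, rfl⟩ := ex_mk le_rfl hc
    obtain ⟨x', y', d', rfl⟩ := ex_mk le_rfl hb
    obtain ⟨t, rfl⟩ := ex_edg e
    obtain ⟨t', rfl⟩ := ex_edg e'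
    exact t_taco _ _ _ _ _ _ k2 l1 t t' h2 h4 he k1 l2
  tort := fun c e b e' hc h2 hb h4 he k1 k2 k3 l1 => by
    obtain ⟨x, y, d, rfl⟩ := ex_mk le_rfl hc
    obtain ⟨x', y', d', rfl⟩ := ex_mk le_rfl hb
    obtain ⟨t, rfl⟩ := ex_edg e
    obtain ⟨t', rfl⟩ := ex_edg e'
    exact t_tort _ _ _ _ _ _ k2 l1 t t' h2 h4 he k1 k3

theorem t_foot : ∀ x y d, Box 0 (2 * 2) 0 (2 * 2) (ph (mk x y d).o) := by
  unfold Box
  decide +kernel

theorem t_surj : ∀ x y d, Rect 0 2 0 2 (mk x y d) →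
    ∃ x' y' d', K ph (mk x' y' d') = K (fun v => v) (mk x y d) := by
  unfold Rect
  decide +kernel

theorem t_top : ∀ x y d, (∀ x' y' d', K ph (mk x' y' d') = K ph (mk x y d) →
      ¬ ht (mk x y d) < ht (mk x' y' d')) →
    (mk x y d).x = (ph (mk x y d).o).1 - 1 ∧ (mk x y d).y = (ph (mk x y d).o).2 - 1 ∧
    ((White ph (mk x y d) ∧ ((ph (mk x y d).o).1 + (ph (mk x y d).o).2) % 4 = 2) ∨
      (Black ph (mk x y d) ∧ ((ph (mk x y d).o).1 + (ph (mk x y d).o).2) % 4 = 0)) := by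
  unfold White Black
  decide +kernel

theorem mk_rect : ∀ x y d, Rect 0 3 0 3 (mk x y d) := by
  unfold Rect
  decide +kernel

/-- the lattice map that undoes the folding on the corner cell over the board cell (a, b) -/
def un (a b : ℕ) (w : V) : V :=
  if a = 0 then (if b = 0 then w else (w.1, 8 - w.2))
  else (if b = 0 then (8 - w.1, w.2) else (w.1 + 2, w.2 + 2))

theorem t_un : ∀ a < 2, ∀ b < 2, ∀ x y d, (mk x y d).x = 2 * (a : ℕ) → (mk x y d).y = 2 * (b : ℕ) →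
    ∀ t, un a b (lv ph (mk x y d) t) = lv (fun v => v) (mk x y d) t := by
  decide +kernel

end Pool.Agent.MP_3b5bbf_co.S

end

section

/-! The seamless 2 × 2 checkerboard of side 2/3. -/

set_option linter.unusedSimpArgs false

namespace Pool.Agent.MP_3b5bbf_co.S

open Set

theorem aff_agree (A B : ℂ →ᵃ[ℝ] ℂ) (w : Fin 3 → ℂ) (h : ∀ t, A (w t) = B (w t)) {z : ℂ}
    (hz : z ∈ tri w) : A z = B z := by
  have cv : Convex ℝ ((A - B) ⁻¹' {0}) := (convex_singleton 0).affine_preimage _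
  have := convexHull_min (t := (A - B) ⁻¹' {0}) ?_ cv hz
  · simpa [sub_eq_zero] using this
  · rintro _ ⟨t, rfl⟩
    simp [h t]

theorem cover_cell {s : ℝ} (hs : 0 < s) (x y : ℤ) {z : ℂ} (z1 : 2 * x * s ≤ z.re)
    (z2 : z.re ≤ (2 * x + 2) * s) (z3 : 2 * y * s ≤ z.im) (z4 : z.im ≤ (2 * y + 2) * s) :
    ∃ d, z ∈ tri (vv s (fun v => v) ⟨x, y, d⟩) := by
  have x3 : 2 * x ≤ z.re / s := by rwa [le_div_iff₀ hs]
  have x4 : z.re / s ≤ 2 * x + 2 := by rwa [div_le_iff₀ hs]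
  have y3 : 2 * y ≤ z.im / s := by rwa [le_div_iff₀ hs]
  have y4 : z.im / s ≤ 2 * y + 2 := by rwa [div_le_iff₀ hs]
  have e1 : z.re = z.re / s * s := by field_simp
  have e2 : z.im = z.im / s * s := by field_simp
  generalize z.re / s = t1 at *
  generalize z.im / s = t2 at *
  obtain ⟨u, rfl⟩ : ∃ u, t1 = 2 * x + 1 + u := ⟨t1 - (2 * x + 1), by ring⟩
  obtain ⟨w, rfl⟩ : ∃ w, t2 = 2 * y + 1 + w := ⟨t2 - (2 * y + 1), by ring⟩
  have key : ∀ (d : Dir) (l : Fin 3 → ℝ), (0 ≤ l 0 ∧ 0 ≤ l 1 ∧ 0 ≤ l 2) → l 0 + l 1 + l 2 = 1 →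
      ∑ i, l i • vv s (fun v => v) ⟨x, y, d⟩ i = z →
      ∃ d, z ∈ tri (vv s (fun v => v) ⟨x, y, d⟩) := fun d l h1 h2 h3 =>
    ⟨d, mem_tri.2 ⟨l, fun i => by fin_cases i <;> simp [h1],
      by rw [Fin.sum_univ_three, h2], h3⟩⟩
  rcases le_total u w with a | a <;> rcases le_total u (-w) with b | b
  · refine key .w ![1 + u, (w - u) / 2, (-u - w) / 2] (by simp; refine ⟨?_, ?_, ?_⟩ <;> linarith)
      (by simp; ring) ?_
    apply Complex.ext <;> simp [Fin.sum_univ_three, vv, lv, emb, Cell.o, Cell.p, Cell.q, e1, e2] <;>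
      ring
  · refine key .n ![1 - w, (u + w) / 2, (w - u) / 2] (by simp; refine ⟨?_, ?_, ?_⟩ <;> linarith)
      (by simp; ring) ?_
    apply Complex.ext <;> simp [Fin.sum_univ_three, vv, lv, emb, Cell.o, Cell.p, Cell.q, e1, e2] <;>
      ring
  · refine key .s ![1 + w, (-u - w) / 2, (u - w) / 2] (by simp; refine ⟨?_, ?_, ?_⟩ <;> linarith)
      (by simp; ring) ?_
    apply Complex.ext <;> simp [Fin.sum_univ_three, vv, lv, emb, Cell.o, Cell.p, Cell.q, e1, e2] <;>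
      ring
  · refine key .e ![1 - u, (u - w) / 2, (u + w) / 2] (by simp; refine ⟨?_, ?_, ?_⟩ <;> linarith)
      (by simp; ring) ?_
    apply Complex.ext <;> simp [Fin.sum_univ_three, vv, lv, emb, Cell.o, Cell.p, Cell.q, e1, e2] <;>
      ring

/-- the map `z ↦ (e re z + p, e' im z + q)` -/
noncomputable def gm (e p e' q : ℝ) : ℂ →ᵃ[ℝ] ℂ where
  toFun z := ⟨e * z.re + p, e' * z.im + q⟩
  linear :=
    { toFun := fun z => ⟨e * z.re, e' * z.im⟩
      map_add' := fun z w => by apply Complex.ext <;> simp <;> ring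
      map_smul' := fun a z => by apply Complex.ext <;> simp <;> ring }
  map_vadd' := fun z w => by apply Complex.ext <;> simp <;> ring

theorem gm_re (e p e' q : ℝ) (z : ℂ) : (gm e p e' q z).re = e * z.re + p := rfl
theorem gm_im (e p e' q : ℝ) (z : ℂ) : (gm e p e' q z).im = e' * z.im + q := rfl

theorem gm_iso {e e' : ℝ} (p q : ℝ) (h : e^2 = 1) (h' : e'^2 = 1) : Isometry (gm e p e' q) := by
  refine Isometry.of_dist_eq fun z w => ?_
  rw [Complex.dist_eq_re_im, Complex.dist_eq_re_im, gm_re, gm_re, gm_im, gm_im]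
  congr 1
  linear_combination (z.re - w.re)^2 * h + (z.im - w.im)^2 * h'

/-- the isometry that undoes the folding over the board cell (a, b) -/
noncomputable def gc (a b : ℕ) : ℂ →ᵃ[ℝ] ℂ :=
  if a = 0 then (if b = 0 then gm 1 0 1 0 else gm 1 0 (-1) (4/3))
  else (if b = 0 then gm (-1) (4/3) 1 0 else gm 1 (1/3) 1 (1/3))

theorem gc_emb (a b : ℕ) (w : V) : gc a b (emb (1/6) w) = emb (1/6) (un a b w) := by
  unfold gc un
  split_ifs <;> apply Complex.ext <;> simp [gm_re, gm_im, emb] <;> ring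

theorem gc_iso (a b : ℕ) : Isometry (gc a b) := by
  unfold gc
  split_ifs <;> exact gm_iso _ _ (by norm_num) (by norm_num)

theorem gc_or {a b : ℕ} (ha : a < 2) (hb : b < 2) :
    0 < cross (gc a b 0) (gc a b 1) (gc a b Complex.I) ↔ Even (a + b) := by
  interval_cases a <;> interval_cases b <;> simp [gc, cross, gm_re, gm_im]

theorem gc_mem {a b : ℕ} (ha : a < 2) (hb : b < 2) {z : ℂ} (hz : z ∈ cell 2 (2/3) a b) :
    2 * ((2 * a : ℤ) : ℝ) * (1/6) ≤ (gc a b z).re ∧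
    (gc a b z).re ≤ (2 * ((2 * a : ℤ) : ℝ) + 2) * (1/6) ∧
    2 * ((2 * b : ℤ) : ℝ) * (1/6) ≤ (gc a b z).im ∧
    (gc a b z).im ≤ (2 * ((2 * b : ℤ) : ℝ) + 2) * (1/6) := by
  obtain ⟨z1, z2, z3, z4⟩ := hz
  interval_cases a <;> interval_cases b <;> simp only [gc, gm_re, gm_im, if_true, if_false,
    one_ne_zero] <;> push_cast at * <;> refine ⟨?_, ?_, ?_, ?_⟩ <;> linarith

theorem lower : ∃ F : FlatFolding, F.Checkerboard 2 (2/3) ∧ Seamless F 2 (2/3) := by
  classical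
  have hv := valid
  set R := Rect 0 3 0 3 with hR
  have := rect_finite 3
  obtain ⟨n, ⟨eqv⟩⟩ := Finite.exists_equiv_fin {c // R c}
  let cl : Fin n → Cell := fun i => (eqv.symm i).1
  have cm : ∀ i, R (cl i) := fun i => (eqv.symm i).2
  have ci : ∀ i j, cl i = cl j → i = j := fun i j e => eqv.symm.injective (Subtype.ext e)
  have cs : ∀ c, R c → ∃ i, cl i = c := fun c hc => ⟨eqv ⟨c, hc⟩, by simp [cl]⟩
  have gd : ∀ i, Good ph (cl i) := fun i => hv.good _ (cm i)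
  set s : ℝ := 1 / 6 with hs'
  have hs : 0 < s := by positivity
  have s1 : 2 * ((3 : ℤ) : ℝ) * s = 1 := by rw [hs']; norm_num
  let v : Fin n → Fin 3 → ℂ := fun i => vv s (fun v => v) (cl i)
  choose A A1 A2 using fun i => exists_aff s (gd i)
  let f : ℂ → ℂ := fun z => if hz : ∃ i, z ∈ tri (v i) then A hz.choose z else 0
  have meet : ∀ i j, tri (v i) ∩ tri (v j) ⊆ convexHull ℝ (range (v i) ∩ range (v j)) :=
    fun i j => tri_meet hs (good_id _).1 (good_id _).1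
  have fA : ∀ i, ∀ z ∈ tri (v i), f z = A i z := by
    intro i z hz
    have ex : ∃ i, z ∈ tri (v i) := ⟨i, hz⟩
    simp only [f]
    rw [dif_pos ex]
    have m := meet _ _ ⟨ex.choose_spec, hz⟩
    generalize ex.choose = j at m
    have cv : Convex ℝ ((A j - A i) ⁻¹' {0}) := (convex_singleton 0).affine_preimage _
    have := convexHull_min (t := (A j - A i) ⁻¹' {0}) ?_ cv m
    · simpa [sub_eq_zero] using this
    · rintro _ ⟨⟨a, rfl⟩, b, hb⟩
      have e : lv (fun v => v) (cl i) b = lv (fun v => v) (cl j) a := emb_inj hs hb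
      have e1 : A i (v j a) = vv s ph (cl i) b := by rw [← hb]; exact A2 i b
      have e2 : lv ph (cl i) b = lv ph (cl j) a := by
        have : ∀ c t, lv ph c t = ph (lv (fun v => v) c t) := fun c t => by fin_cases t <;> rfl
        rw [this, this, e]
      simp only [mem_preimage, AffineMap.coe_sub, Pi.sub_apply, mem_singleton_iff, sub_eq_zero]
      rw [e1, A2 j a]
      simp only [vv, e2]
  have fv : ∀ i t, f (v i t) = vv s ph (cl i) t := fun i t => by
    rw [fA i _ (subset_convexHull ℝ _ ⟨t, rfl⟩), A2]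
  have fr : ∀ i, f '' range (v i) = range (vv s ph (cl i)) := fun i => by
    rw [← range_comp]; congr 1; funext t; exact fv i t
  have ft : ∀ i, f '' tri (v i) = tri (vv s ph (cl i)) := fun i => by
    rw [image_congr (fA i)]
    unfold tri
    rw [AffineMap.image_convexHull, ← range_comp]
    congr 2; funext t; exact A2 i t
  have kk : ∀ i j, f '' tri (v i) = f '' tri (v j) ↔ K ph (cl i) = K ph (cl j) := fun i j => by
    rw [ft, ft, tri_eq_iff hs (gd i) (gd j)]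
  have cover : ⋃ i, tri (v i) = square 1 := by
    rw [← s1]
    refine Subset.antisymm (iUnion_subset fun i => tri_sub hs (good_id _).1 ?_) fun z hz => ?_
    · have := (vert_bounds (cm i)).1
      unfold Box; omega
    · obtain ⟨c, hc, hz⟩ := cover_sq hs (by norm_num) hz
      obtain ⟨i, rfl⟩ := cs c hc
      exact mem_iUnion.2 ⟨i, hz⟩
  have edge : ∀ i i' j j' a b c d, i ≠ i' → j ≠ j' → a ≠ b →
      a ∈ range (v i) ∩ range (v i') → b ∈ range (v i) ∩ range (v i') →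
      c ∈ range (v j) ∩ range (v j') → d ∈ range (v j) ∩ range (v j') → f c = f a → f d = f b →
      ∃ e e', cl i' = (cl i).nb e ∧ cl j' = (cl j).nb e' ∧
        eps ph (cl i) e = eps ph (cl j) e' := by
    intro i i' j j' a b c d n1 n2 n3 ha hb hc hd e1 e2
    have n4 : c ≠ d := by
      intro t
      have := A1 i a b
      rw [← fA i a (subset_convexHull ℝ _ ha.1), ← fA i b (subset_convexHull ℝ _ hb.1), ← e1, ← e2,
        t, dist_self] at this
      exact n3 (dist_eq_zero.1 this.symm)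
    obtain ⟨e, t1, t2, p1, rfl, rfl, p2⟩ := adj_of hs (fun t => n1 (ci _ _ t)) n3 ha hb
    obtain ⟨e', u1, u2, q1, rfl, rfl, q2⟩ := adj_of hs (fun t => n2 (ci _ _ t)) n4 hc hd
    refine ⟨e, e', p1, q1, ?_⟩
    rw [p2, q2, emb_inj hs ((fv j u1).symm.trans (e1.trans (fv i t1))),
      emb_inj hs ((fv j u2).symm.trans (e2.trans (fv i t2)))]
  have c5 : (2 / 3 : ℝ) = 2 * ((2 : ℤ) : ℝ) * s := by rw [hs']; norm_num
  have tp : ∀ i, (∀ j, f '' tri (v j) = f '' tri (v i) → ¬ ht (cl i) < ht (cl j)) →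
      (cl i).x = (ph (cl i).o).1 - 1 ∧ (cl i).y = (ph (cl i).o).2 - 1 ∧
      ((White ph (cl i) ∧ ((ph (cl i).o).1 + (ph (cl i).o).2) % 4 = 2) ∨
        (Black ph (cl i) ∧ ((ph (cl i).o).1 + (ph (cl i).o).2) % 4 = 0)) := by
    intro i top
    obtain ⟨x, y, d, e⟩ := ex_mk le_rfl (cm i)
    rw [e]
    refine t_top x y d fun x' y' d' k => ?_
    obtain ⟨j, hj⟩ := cs _ (mk_rect x' y' d')
    rw [← hj, ← e] at k ⊢
    exact top j ((kk j i).2 k)
  have loc : ∀ i (a b : ℕ), ∀ z ∈ f '' tri (v i), z ∈ openCell 2 (2/3) a b →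
      (ph (cl i).o).1 = 2 * a + 1 ∧ (ph (cl i).o).2 = 2 * b + 1 := by
    intro i a b z hz ⟨z1, z2, z3, z4⟩
    rw [ft] at hz
    obtain ⟨b1, b2, b3, b4⟩ := tri_box hs (gd i) hz
    rw [hs'] at b1 b2 b3 b4
    push_cast at z1 z2 z3 z4
    have y1 : (2 * a : ℤ) < (ph (cl i).o).1 + 1 := by
      have : (2 * a : ℝ) < (ph (cl i).o).1 + 1 := by linarith
      exact_mod_cast this
    have y2 : (ph (cl i).o).1 - 1 < (2 * a + 2 : ℤ) := by
      have : ((ph (cl i).o).1 - 1 : ℝ) < 2 * a + 2 := by linarith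
      exact_mod_cast this
    have y3 : (2 * b : ℤ) < (ph (cl i).o).2 + 1 := by
      have : (2 * b : ℝ) < (ph (cl i).o).2 + 1 := by linarith
      exact_mod_cast this
    have y4 : (ph (cl i).o).2 - 1 < (2 * b + 2 : ℤ) := by
      have : ((ph (cl i).o).2 - 1 : ℝ) < 2 * b + 2 := by linarith
      exact_mod_cast this
    have g1 := (gd i).1
    have g2 := (gd i).2.1
    omega
  have undo : ∀ a < 2, ∀ b < 2, ∀ i, (cl i).x = 2 * (a : ℕ) → (cl i).y = 2 * (b : ℕ) →
      ∀ w ∈ tri (v i), gc a b (f w) = w := by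
    intro a ha b hb i e1 e2 w hw
    rw [fA i w hw]
    refine aff_agree ((gc a b).comp (A i)) (AffineMap.id ℝ ℂ) (v i) (fun t => ?_) hw
    change gc a b (A i (vv s (fun v => v) (cl i) t)) = vv s (fun v => v) (cl i) t
    rw [A2]
    obtain ⟨x, y, d, e⟩ := ex_mk le_rfl (cm i)
    rw [e] at e1 e2 ⊢
    simp only [vv]
    rw [← t_un a ha b hb x y d e1 e2 t]
    exact gc_emb a b _
  refine ⟨⟨n, v, f, fun i j => ht (cl j) < ht (cl i), fun i => ?_, cover, fun i j e => ?_, meet,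
    fun i z hz w hw => by rw [fA i z hz, fA i w hw, A1], fun i j => ?_, fun i => lt_irrefl _,
    fun i j l _ _ a b => b.trans a, fun i j ne e => ?_, ?_, ?_⟩, ⟨?_, ?_⟩, ?_⟩
  · rw [(cross_vv s _ _).1 (good_id _).2 (good_id _).1]; positivity
  · apply ci
    apply K_id_inj
    rw [← tri_eq_iff hs (good_id _).1 (good_id _).1]
    exact congrArg (convexHull ℝ) e
  · rw [ft, ft, fr, fr]
    exact tri_meet hs (gd i) (gd j)
  · rcases lt_trichotomy (ht (cl i)) (ht (cl j)) with l | l | l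
    · exact Or.inr l
    · exact absurd (ci _ _ (hv.inj _ _ (cm i) (cm j) ((kk i j).1 e) l)) ne
    · exact Or.inl l
  · intro i i' j j' a b c d n1 n2 n3 ha hb hc hd e1 e2 k1 k2 l1 l2
    obtain ⟨e, e', p, q, he⟩ := edge i i' j j' a b c d n1 n2 n3 ha hb hc hd e1 e2
    rw [kk] at k1 k2 ⊢
    rw [p] at k1 l2 ⊢
    rw [q]
    exact hv.taco _ e _ e' (cm i) (p ▸ cm i') (cm j) (q ▸ cm j') he k1 k2 l1 l2
  · intro i i' j j' a b c d n1 n2 n3 ha hb hc hd e1 e2 k1 k2 k3 l1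
    obtain ⟨e, e', p, q, he⟩ := edge i i' j j' a b c d n1 n2 n3 ha hb hc hd e1 e2
    rw [Ne, kk] at k1
    rw [kk] at k2 k3
    rw [p] at k1 k3 ⊢
    rw [q] at k3 ⊢
    exact hv.tort _ e _ e' (cm i) (p ▸ cm i') (cm j) (q ▸ cm j') he k1 k2 k3 l1
  · change f '' square 1 = _
    rw [← cover, image_iUnion, c5]
    refine Subset.antisymm (iUnion_subset fun i => ?_) fun z hz => ?_
    · rw [ft]
      refine tri_sub hs (gd i) ?_
      obtain ⟨x, y, d, e⟩ := ex_mk le_rfl (cm i)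
      rw [e]
      exact t_foot x y d
    · obtain ⟨c, hc, hz⟩ := cover_sq hs (by omega) hz
      obtain ⟨x, y, d, rfl⟩ := ex_mk (by norm_num) hc
      obtain ⟨x', y', d', ka⟩ := t_surj x y d hc
      obtain ⟨i, hi⟩ := cs _ (mk_rect x' y' d')
      refine mem_iUnion.2 ⟨i, ?_⟩
      rw [ft, (tri_eq_iff hs (gd i) (good_id _).1).2 (hi ▸ ka)]
      exact hz
  · intro i top a b z hz z1 z2 z3 z4
    change 0 < cross (f (v i 0)) (f (v i 1)) (f (v i 2)) ↔ _
    obtain ⟨-, -, w⟩ := tp i top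
    obtain ⟨o1, o2⟩ := loc i a b z hz ⟨z1, z2, z3, z4⟩
    rw [fv, fv, fv, Nat.even_iff]
    rcases w with ⟨w, p⟩ | ⟨w, p⟩
    · rw [(cross_vv s _ _).1 w (gd i)]
      exact ⟨fun _ => by omega, fun _ => by positivity⟩
    · rw [(cross_vv s _ _).2 w (gd i)]
      have : 0 < 2 * s ^ 2 := by positivity
      exact ⟨fun t => absurd t (by linarith), fun t => by omega⟩
  · intro a ha b hb
    refine ⟨gc a b, ⟨gc_iso a b, fun z hz => ?_, gc_or ha hb⟩, fun i top w hw hz => ?_⟩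
    · obtain ⟨m1, m2, m3, m4⟩ := gc_mem ha hb hz
      obtain ⟨d, hd⟩ := cover_cell hs (2 * a) (2 * b) m1 m2 m3 m4
      obtain ⟨i, hi⟩ := cs ⟨2 * a, 2 * b, d⟩ (by
        simp only [hR, Rect]; omega)
      have hw : gc a b z ∈ tri (v i) := by simp only [v, hi]; exact hd
      refine ⟨cover ▸ mem_iUnion.2 ⟨i, hw⟩, (gc_iso a b).injective ?_⟩
      exact undo a ha b hb i (by rw [hi]) (by rw [hi]) _ hw
    · obtain ⟨e1, e2, -⟩ := tp i top
      obtain ⟨o1, o2⟩ := loc i a b _ ⟨w, hw, rfl⟩ hz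
      exact (undo a ha b hb i (by omega) (by omega) w hw).symm

end Pool.Agent.MP_3b5bbf_co.S

end
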