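import Pool.Agent.Mg.F3b5bbfq.G1d1c8b
import Pool.Agent.Mg.F3b5bbfq.Ge8e19d

set_option linter.all false

/-! From the discrete seamless board to flat folded states. -/

set_option linter.unusedSimpArgs false

namespace Pool.Agent.MP_3b5bbf_co.Sm

open Set

/-- exchange of the two coordinates -/
noncomputable def sw : ℂ →ᵃ[ℝ] ℂ where
  toFun z := ⟨z.im, z.re⟩
  linear :=
    { toFun := fun z => ⟨z.im, z.re⟩
      map_add' := fun _ _ => rfl
      map_smul' := fun a z => by apply Complex.ext <;> simp }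
  map_vadd' := fun _ _ => rfl

theorem sw_re (z : ℂ) : (sw z).re = z.im := rfl
theorem sw_im (z : ℂ) : (sw z).im = z.re := rfl

theorem sw_iso : Isometry sw := by
  refine Isometry.of_dist_eq fun z w => ?_
  rw [Complex.dist_eq_re_im, Complex.dist_eq_re_im, sw_re, sw_re, sw_im, sw_im, add_comm]

/-- the plane isometry that undoes a lattice motion -/
theorem Mot.real {g : V → V} (mg : Mot g) (s : ℝ) : ∃ G : ℂ →ᵃ[ℝ] ℂ, Isometry G ∧
    (∀ v, G (emb s (g v)) = emb s v) ∧ ∀ c, (White g c → 0 < cross (G 0) (G 1) (G Complex.I)) ∧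
      (Black g c → ¬ 0 < cross (G 0) (G 1) (G Complex.I)) := by
  obtain ⟨a, b, u, w, ha, hb, e | e⟩ := mg
  · refine ⟨S.gm a (-(a * u * s)) b (-(b * w * s)), S.gm_iso _ _ ?_ ?_, fun v => ?_, fun c => ?_⟩
    · rcases ha with rfl | rfl <;> simp
    · rcases hb with rfl | rfl <;> simp
    · rcases ha with rfl | rfl <;> rcases hb with rfl | rfl <;> apply Complex.ext <;>
        simp [e, S.gm_re, S.gm_im, emb] <;> ring
    · obtain ⟨⟨-, -, g1, g2, -⟩, g3, g4⟩ := good_id c
      dsimp only at g1 g2 g3 g4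
      rcases ha with rfl | rfl <;> rcases hb with rfl | rfl <;>
        simp [e, S.gm_re, S.gm_im, cross, White, Black] <;> omega
  · refine ⟨(S.gm b (-(b * w * s)) a (-(a * u * s))).comp sw,
      (S.gm_iso _ _ ?_ ?_).comp sw_iso, fun v => ?_, fun c => ?_⟩
    · rcases hb with rfl | rfl <;> simp
    · rcases ha with rfl | rfl <;> simp
    · rcases ha with rfl | rfl <;> rcases hb with rfl | rfl <;> apply Complex.ext <;>
        simp [e, S.gm_re, S.gm_im, sw_re, sw_im, emb] <;> ring
    · obtain ⟨⟨-, -, g1, g2, -⟩, g3, g4⟩ := good_id c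
      dsimp only at g1 g2 g3 g4
      rcases ha with rfl | rfl <;> rcases hb with rfl | rfl <;>
        simp [e, S.gm_re, S.gm_im, sw_re, sw_im, cross, White, Black] <;> omega

theorem Top.keys {H : Type} [LinearOrder H] {R φ} {h : Cell → H} {k : ℤ}
    (ht : Top R φ h (Cen k) (fun v => (v.1 / 10 + v.2 / 10) % 2 = 0) (fun _ => True)) :
    MP_3b5bbf_co.Top R φ h (Box 0 (10 * k) 0 (10 * k)) (fun v => (v.1 / 10 + v.2 / 10) % 2 = 0)
      (fun _ => True) := by
  intro κ hκ hb
  have k1 := hκ.1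
  have k2 := hκ.2.1
  obtain ⟨z, g, mg, e, z1, z2, hf⟩ := ht (10 * (κ.1.1 / 10) + 5, 10 * (κ.1.2 / 10) + 5)
    (by dsimp only; omega) (by dsimp only; omega) (by simp only [Cen, Box] at *; omega)
  obtain ⟨c, n, kc⟩ := mg.key z1 z2 (by rw [e]; dsimp only; omega) (by rw [e]; dsimp only; omega)
    hκ (by rw [e]; simp only [Near]; omega)
  obtain ⟨r, a, w, ext⟩ := hf c n
  have kc' := a.K.trans kc
  exact ⟨c, r, kc', fun d hd kd => ext d hd (kd.trans kc'.symm),
    fun t => w.1 (by dsimp only at *; omega), fun t => w.2 (by dsimp only at *; omega)⟩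

theorem bridge {N : ℤ} (hN : 0 < N) {k : ℕ} (hk : 0 < k)
    (bd : Board (Rect 0 N 0 N) (Box 0 (10 * k) 0 (10 * k)) (Cen k)
      (fun v => (v.1 / 10 + v.2 / 10) % 2 = 0)) :
    ∃ F : FlatFolding, F.Checkerboard k (5 * k / N) ∧ S.Seamless F k (5 * k / N) := by
  classical
  obtain ⟨H, _, φ, h, hv, hf, hs0⟩ := bd
  have ht := hs0.keys
  set R := Rect 0 N 0 N with hR
  have := rect_finite N
  obtain ⟨n, ⟨eqv⟩⟩ := Finite.exists_equiv_fin {c // R c}
  let cell : Fin n → Cell := fun i => (eqv.symm i).1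
  have cm : ∀ i, R (cell i) := fun i => (eqv.symm i).2
  have ci : ∀ i j, cell i = cell j → i = j := fun i j e => eqv.symm.injective (Subtype.ext e)
  have cs : ∀ c, R c → ∃ i, cell i = c := fun c hc => ⟨eqv ⟨c, hc⟩, by simp [cell]⟩
  have gd : ∀ i, Good φ (cell i) := fun i => hv.good _ (cm i)
  have N0 : (0 : ℝ) < N := by exact_mod_cast hN
  set s : ℝ := 1 / (2 * N) with hs'
  have hs : 0 < s := by positivity
  have s1 : 2 * (N : ℝ) * s = 1 := by rw [hs']; field_simp
  let v : Fin n → Fin 3 → ℂ := fun i => vv s (fun v => v) (cell i)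
  choose A A1 A2 using fun i => exists_aff s (gd i)
  let f : ℂ → ℂ := fun z => if hz : ∃ i, z ∈ tri (v i) then A hz.choose z else 0
  have meet : ∀ i j, tri (v i) ∩ tri (v j) ⊆ convexHull ℝ (range (v i) ∩ range (v j)) :=
    fun i j => tri_meet hs (good_id _).1 (good_id _).1
  have fA : ∀ i, ∀ z ∈ tri (v i), f z = A i z := by
    intro i z hz
    have ex : ∃ i, z ∈ tri (v i) := ⟨i, hz⟩
    simp only [f]
    rw [dif_pos ex]
    have m := meet _ _ ⟨ex.choose_spec, hz⟩
    generalize ex.choose = j at m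
    have cv : Convex ℝ ((A j - A i) ⁻¹' {0}) := (convex_singleton 0).affine_preimage _
    have := convexHull_min (t := (A j - A i) ⁻¹' {0}) ?_ cv m
    · simpa [sub_eq_zero] using this
    · rintro _ ⟨⟨a, rfl⟩, b, hb⟩
      have e : lv (fun v => v) (cell i) b = lv (fun v => v) (cell j) a := emb_inj hs hb
      have e1 : A i (v j a) = vv s φ (cell i) b := by rw [← hb]; exact A2 i b
      have e2 : lv φ (cell i) b = lv φ (cell j) a := by
        have : ∀ c t, lv φ c t = φ (lv (fun v => v) c t) := fun c t => by fin_cases t <;> rfl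
        rw [this, this, e]
      simp only [mem_preimage, AffineMap.coe_sub, Pi.sub_apply, mem_singleton_iff, sub_eq_zero]
      rw [e1, A2 j a]
      simp only [vv, e2]
  have fv : ∀ i t, f (v i t) = vv s φ (cell i) t := fun i t => by
    rw [fA i _ (subset_convexHull ℝ _ ⟨t, rfl⟩), A2]
  have fr : ∀ i, f '' range (v i) = range (vv s φ (cell i)) := fun i => by
    rw [← range_comp]; congr 1; funext t; exact fv i t
  have ft : ∀ i, f '' tri (v i) = tri (vv s φ (cell i)) := fun i => by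
    rw [image_congr (fA i)]
    unfold tri
    rw [AffineMap.image_convexHull, ← range_comp]
    congr 2; funext t; exact A2 i t
  have kk : ∀ i j, f '' tri (v i) = f '' tri (v j) ↔ K φ (cell i) = K φ (cell j) := fun i j => by
    rw [ft, ft, tri_eq_iff hs (gd i) (gd j)]
  have cover : ⋃ i, tri (v i) = square 1 := by
    rw [← s1]
    refine Subset.antisymm (iUnion_subset fun i => tri_sub hs (good_id _).1 ?_) fun z hz => ?_
    · have := (vert_bounds (cm i)).1
      unfold Box; omega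
    · obtain ⟨c, hc, hz⟩ := cover_sq hs hN hz
      obtain ⟨i, rfl⟩ := cs c hc
      exact mem_iUnion.2 ⟨i, hz⟩
  have edge : ∀ i i' j j' a b c d, i ≠ i' → j ≠ j' → a ≠ b →
      a ∈ range (v i) ∩ range (v i') → b ∈ range (v i) ∩ range (v i') →
      c ∈ range (v j) ∩ range (v j') → d ∈ range (v j) ∩ range (v j') → f c = f a → f d = f b →
      ∃ e e', cell i' = (cell i).nb e ∧ cell j' = (cell j).nb e' ∧
        eps φ (cell i) e = eps φ (cell j) e' := by
    intro i i' j j' a b c d n1 n2 n3 ha hb hc hd e1 e2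
    have n4 : c ≠ d := by
      intro t
      have := A1 i a b
      rw [← fA i a (subset_convexHull ℝ _ ha.1), ← fA i b (subset_convexHull ℝ _ hb.1), ← e1, ← e2,
        t, dist_self] at this
      exact n3 (dist_eq_zero.1 this.symm)
    obtain ⟨e, t1, t2, p1, rfl, rfl, p2⟩ := adj_of hs (fun t => n1 (ci _ _ t)) n3 ha hb
    obtain ⟨e', u1, u2, q1, rfl, rfl, q2⟩ := adj_of hs (fun t => n2 (ci _ _ t)) n4 hc hd
    refine ⟨e, e', p1, q1, ?_⟩
    rw [p2, q2, emb_inj hs ((fv j u1).symm.trans (e1.trans (fv i t1))),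
      emb_inj hs ((fv j u2).symm.trans (e2.trans (fv i t2)))]
  have c5 : 5 * (k : ℝ) / N = 2 * ((5 * k : ℤ) : ℝ) * s := by
    rw [hs']; push_cast; field_simp
  refine ⟨⟨n, v, f, fun i j => h (cell j) < h (cell i), fun i => ?_, cover, fun i j e => ?_, meet,
    fun i z hz w hw => by rw [fA i z hz, fA i w hw, A1], fun i j => ?_, fun i => lt_irrefl _,
    fun i j l _ _ a b => b.trans a, fun i j ne e => ?_, ?_, ?_⟩, ⟨?_, ?_⟩, ?_⟩
  · rw [(cross_vv s _ _).1 (good_id _).2 (good_id _).1]; positivity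
  · apply ci
    apply K_id_inj
    rw [← tri_eq_iff hs (good_id _).1 (good_id _).1]
    exact congrArg (convexHull ℝ) e
  · rw [ft, ft, fr, fr]
    exact tri_meet hs (gd i) (gd j)
  · rcases lt_trichotomy (h (cell i)) (h (cell j)) with l | l | l
    · exact Or.inr l
    · exact absurd (ci _ _ (hv.inj _ _ (cm i) (cm j) ((kk i j).1 e) l)) ne
    · exact Or.inl l
  · intro i i' j j' a b c d n1 n2 n3 ha hb hc hd e1 e2 k1 k2 l1 l2
    obtain ⟨e, e', p, q, he⟩ := edge i i' j j' a b c d n1 n2 n3 ha hb hc hd e1 e2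
    rw [kk] at k1 k2 ⊢
    rw [p] at k1 l2 ⊢
    rw [q]
    exact hv.taco _ e _ e' (cm i) (p ▸ cm i') (cm j) (q ▸ cm j') he k1 k2 l1 l2
  · intro i i' j j' a b c d n1 n2 n3 ha hb hc hd e1 e2 k1 k2 k3 l1
    obtain ⟨e, e', p, q, he⟩ := edge i i' j j' a b c d n1 n2 n3 ha hb hc hd e1 e2
    rw [Ne, kk] at k1
    rw [kk] at k2 k3
    rw [p] at k1 k3 ⊢
    rw [q] at k3 ⊢
    exact hv.tort _ e _ e' (cm i) (p ▸ cm i') (cm j) (q ▸ cm j') he k1 k2 k3 l1
  · change f '' square 1 = _
    rw [← cover, image_iUnion, c5]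
    refine Subset.antisymm (iUnion_subset fun i => ?_) fun z hz => ?_
    · rw [ft]
      refine tri_sub hs (gd i) ?_
      have := hf _ (cm i)
      unfold Box at *; omega
    · obtain ⟨c, hc, hz⟩ := cover_sq hs (by omega) hz
      obtain ⟨a, ha, ka, -⟩ := ht _ (good_id c).1.isKey (by
        have := (vert_bounds hc).1
        simp only [Box, K]; omega)
      obtain ⟨i, rfl⟩ := cs a ha
      refine mem_iUnion.2 ⟨i, ?_⟩
      rw [ft, (tri_eq_iff hs (gd i) (good_id c).1).2 ka]
      exact hz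
  · intro i top a b z hz z1 z2 z3 z4
    change z ∈ f '' tri (v i) at hz
    change 0 < cross (f (v i 0)) (f (v i 1)) (f (v i 2)) ↔ _
    obtain ⟨t, h1, kt, ext, w1, w2⟩ := ht _ (gd i).isKey (hf _ (cm i))
    obtain ⟨j, rfl⟩ := cs t h1
    have e : cell i = cell j := hv.inj _ _ (cm i) (cm j) kt.symm
      (le_antisymm (ext _ (cm i) rfl) (not_lt.1 (top j ((kk j i).2 kt))))
    rw [← e] at w1 w2
    rw [ft] at hz
    obtain ⟨b1, b2, b3, b4⟩ := tri_box hs (gd i) hz
    have k0 : (k : ℝ) ≠ 0 := by positivity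
    have ck : 5 * (k : ℝ) / N / k = 10 * s := by rw [hs']; field_simp; ring
    rw [ck] at z1 z2 z3 z4
    have y1 : (10 * a : ℤ) < (φ (cell i).o).1 + 1 := by
      have : (10 * a : ℝ) < (φ (cell i).o).1 + 1 := by nlinarith
      exact_mod_cast this
    have y2 : (φ (cell i).o).1 - 1 < (10 * a + 10 : ℤ) := by
      have : ((φ (cell i).o).1 - 1 : ℝ) < 10 * a + 10 := by nlinarith
      exact_mod_cast this
    have y3 : (10 * b : ℤ) < (φ (cell i).o).2 + 1 := by
      have : (10 * b : ℝ) < (φ (cell i).o).2 + 1 := by nlinarith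
      exact_mod_cast this
    have y4 : (φ (cell i).o).2 - 1 < (10 * b + 10 : ℤ) := by
      have : ((φ (cell i).o).2 - 1 : ℝ) < 10 * b + 10 := by nlinarith
      exact_mod_cast this
    have g1 := (gd i).1
    have g2 := (gd i).2.1
    rw [fv, fv, fv, Nat.even_iff]
    simp only [K] at w1 w2
    by_cases p : (a + b) % 2 = 0
    · rw [(cross_vv s _ _).1 (w1 (by omega)) (gd i)]
      exact ⟨fun _ => p, fun _ => by positivity⟩
    · rw [(cross_vv s _ _).2 (w2 (by omega)).1 (gd i)]
      exact ⟨fun t => absurd t (by have : 0 < 2 * s ^ 2 := by positivity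
                                   linarith), fun t => absurd t p⟩

  · intro a ha b hb
    have k0 : (k : ℝ) ≠ 0 := by positivity
    have ck : 5 * (k : ℝ) / N / k = 10 * s := by rw [hs']; field_simp; ring
    obtain ⟨z, g, mg, e, z1, z2, pl⟩ := hs0 (10 * a + 5, 10 * b + 5)
      (by dsimp only; omega) (by dsimp only; omega) (by simp only [Cen, Box]; omega)
    obtain ⟨G, G1, G2, G3⟩ := mg.real s
    have key : ∀ κ, IsKey κ → Near (10 * a + 5, 10 * b + 5) κ.1 →
        ∃ i, Near z (cell i).o ∧ K φ (cell i) = κ := by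
      intro κ hκ n
      obtain ⟨c, n', kc⟩ := mg.key z1 z2 (by rw [e]; dsimp only; omega)
        (by rw [e]; dsimp only; omega) hκ (e ▸ n)
      obtain ⟨i, rfl⟩ := cs c (pl c n').1
      exact ⟨i, n', (pl _ n').2.1.K.trans kc⟩
    have undo : ∀ i, Near z (cell i).o → ∀ w ∈ tri (v i), G (f w) = w := by
      intro i n w hw
      rw [fA i w hw]
      refine S.aff_agree (G.comp (A i)) (AffineMap.id ℝ ℂ) (v i) (fun t => ?_) hw
      change G (A i (vv s (fun v => v) (cell i) t)) = vv s (fun v => v) (cell i) t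
      obtain ⟨a1, a2, a3⟩ := (pl _ n).2.1
      rw [A2]
      fin_cases t
      · exact (congrArg (fun y => G (emb s y)) a1).trans (G2 _)
      · exact (congrArg (fun y => G (emb s y)) a2).trans (G2 _)
      · exact (congrArg (fun y => G (emb s y)) a3).trans (G2 _)
    refine ⟨G, ⟨G1, fun y hy => ?_, ?_⟩, fun i top w hw hz => ?_⟩
    · obtain ⟨y1, y2, y3, y4⟩ := hy
      rw [ck] at y1 y2 y3 y4
      obtain ⟨p, p1, p2, p3, p4⟩ := exists_int (M := 5) (by norm_num) (t := y.re / s - 10 * a)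
        (by rw [sub_nonneg, le_div_iff₀ hs]; linarith)
        (by rw [sub_le_iff_le_add, div_le_iff₀ hs]; push_cast; linarith)
      obtain ⟨q, q1, q2, q3, q4⟩ := exists_int (M := 5) (by norm_num) (t := y.im / s - 10 * b)
        (by rw [sub_nonneg, le_div_iff₀ hs]; linarith)
        (by rw [sub_le_iff_le_add, div_le_iff₀ hs]; push_cast; linarith)
      rw [le_sub_iff_add_le, le_div_iff₀ hs] at p3 q3
      rw [sub_le_iff_le_add, div_le_iff₀ hs] at p4 q4
      obtain ⟨d, hd⟩ := S.cover_cell hs (5 * a + p) (5 * b + q) (z := y) (by push_cast; linarith)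
        (by push_cast; linarith) (by push_cast; linarith) (by push_cast; linarith)
      obtain ⟨i, n, ki⟩ := key _ (good_id ⟨5 * a + p, 5 * b + q, d⟩).1.isKey
        (by simp only [Near, K, Cell.o]; omega)
      rw [← (tri_eq_iff hs (gd i) (good_id _).1).2 ki, ← ft] at hd
      obtain ⟨w, hw, rfl⟩ := hd
      change _ ∧ f (G (f w)) = f w
      rw [undo i n w hw]
      exact ⟨cover ▸ mem_iUnion.2 ⟨i, hw⟩, rfl⟩
    · obtain ⟨c0, rfl⟩ := exists_ctr z1 z2
      obtain ⟨-, ag, w, -⟩ := pl c0 (by unfold Near; omega)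
      have ag' : Agr g φ c0 := ⟨ag.1.symm, ag.2.1.symm, ag.2.2.symm⟩
      rw [Nat.even_iff]
      by_cases p : (a + b) % 2 = 0
      · exact ⟨fun _ => p, fun _ => (G3 c0).1 (ag'.white (w.1 (by dsimp only; omega)))⟩
      · exact ⟨fun t => absurd t ((G3 c0).2 (ag'.black (w.2 (by dsimp only; omega)).1)),
          fun t => absurd t p⟩
    · obtain ⟨z1, z2, z3, z4⟩ := hz
      change _ < (f w).re at z1
      change (f w).re < _ at z2
      change _ < (f w).im at z3
      change (f w).im < _ at z4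
      have hz' : f w ∈ f '' tri (v i) := ⟨w, hw, rfl⟩
      rw [ft] at hz'
      obtain ⟨b1, b2, b3, b4⟩ := tri_box hs (gd i) hz'
      rw [ck] at z1 z2 z3 z4
      have y1 : (10 * a : ℤ) < (φ (cell i).o).1 + 1 := by
        have : (10 * a : ℝ) < (φ (cell i).o).1 + 1 := by nlinarith
        exact_mod_cast this
      have y2 : (φ (cell i).o).1 - 1 < (10 * a + 10 : ℤ) := by
        have : ((φ (cell i).o).1 - 1 : ℝ) < 10 * a + 10 := by nlinarith
        exact_mod_cast this
      have y3 : (10 * b : ℤ) < (φ (cell i).o).2 + 1 := by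
        have : (10 * b : ℝ) < (φ (cell i).o).2 + 1 := by nlinarith
        exact_mod_cast this
      have y4 : (φ (cell i).o).2 - 1 < (10 * b + 10 : ℤ) := by
        have : ((φ (cell i).o).2 - 1 : ℝ) < 10 * b + 10 := by nlinarith
        exact_mod_cast this
      have g1 := (gd i).1
      have g2 := (gd i).2.1
      obtain ⟨j, n, kj⟩ := key _ (gd i).isKey (by simp only [Near, K]; omega)
      have e : cell i = cell j := hv.inj _ _ (cm i) (cm j) kj.symm
        (le_antisymm ((pl _ n).2.2.2 _ (cm i) kj.symm) (not_lt.1 (top j ((kk j i).2 kj))))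
      exact (undo i (e ▸ n) w hw).symm

end Pool.Agent.MP_3b5bbf_co.Sm
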